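import Mathlib
import Pool.Graph.R_pool_sql_team_seeded_63374d34.N883.Q.Tors
import Pool.Graph.R_seed8.Y715.T.LF

/-!
# The 3-adic valuation of the values at one, characters of 3-power order of prime conductor
-/

set_option autoImplicit false
set_option linter.unusedSectionVars false

open Complex Filter Topology IsDedekindDomain
open scoped PeriodPair

namespace Pool.Agent.H62

open H667R3 Pool.Agent.W192.HK Pool.Agent.TH936.CM Pool.Agent.TH936.PU
open Pool.Agent.W192.CM (nu)
open Pool.Agent.Y696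
open Pool.Agent.Y715.T.Three Pool.Agent.Y715.T.Lat
open Pool.Agent.Y715.T.LF (rd rd_eq_zero)
open Pool.Agent.Y715.T.Cg (sum_tri)

variable {L : PeriodPair} {Ω : ℂ} {Γ : Type*} [LinearOrderedCommGroupWithZero Γ]
  {v : Valuation ℂ Γ}

lemma v_rd (hv : v 3 < 1) {q : eis} (hq : rd q ≠ 0) : v (q : ℂ) = 1 := by
  have hl := lam_lt hv
  have key : ∀ a : eis, (a = 1 ∨ a = -1) → rd (q - a) = 0 → v (q : ℂ) = 1 := by
    intro a ha h
    obtain ⟨t, ht⟩ := rd_eq_zero h
    have h1 : (q : ℂ) = (a : ℂ) + lam * (t : ℂ) := by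
      have : q = a + la * t := by rw [← ht]; ring
      rw [this]
      push_cast
      rw [la_coe]
    have h2 : v (a : ℂ) = 1 := by
      rcases ha with rfl | rfl
      · simp
      · push_cast
        rw [v.map_neg]
        simp
    have h3 : v (lam * (t : ℂ)) < 1 := by
      rw [map_mul]
      exact (mul_le_mul' le_rfl (v_eis t)).trans_lt (by rwa [mul_one])
    rw [h1, v.map_add_eq_of_lt_left (by rwa [h2]), h2]
  have h3 : rd q = 1 ∨ rd q = -1 := by
    revert hq
    generalize rd q = a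
    revert a
    decide
  rcases h3 with h | h
  · exact key 1 (Or.inl rfl) (by rw [map_sub, map_one, h, sub_self])
  · exact key (-1) (Or.inr rfl) (by rw [map_sub, map_neg, map_one, h, sub_self])

/-- the norm of `1 + 3 √-3 q` is one modulo nine -/
lemma card_nine (q : eis) : ∃ m : ℤ,
    ((Nat.card (eis ⧸ (sp (1 + 3 * la * q) : Ideal eis)) : ℕ) : ℤ) = 1 + 9 * m := by
  obtain ⟨a, b, rfl⟩ := ez_ex q
  have h1 : (1 + 3 * la * ez a b : eis) = ez (1 + 3 * (a - 2 * b)) (3 * (2 * a - b)) := by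
    have e3 : (3 : eis) = ez 3 0 := by
      rw [ez_int]
      norm_num
    unfold la
    rw [e3, ← ez_one, ez_mul, ez_mul, ez_add]
    congr 1 <;> ring
  have h2 := (lbasic eis om qr).2.2.2.2.1 (1 + 3 * la * ez a b)
  rw [h1, ez_coe] at h2
  have h3 : Complex.normSq (((1 + 3 * (a - 2 * b) : ℤ) : ℂ) + ((3 * (2 * a - b) : ℤ) : ℂ) * om) =
      (((1 + 3 * (a - 2 * b)) ^ 2 - (1 + 3 * (a - 2 * b)) * (3 * (2 * a - b)) +
        (3 * (2 * a - b)) ^ 2 : ℤ) : ℝ) := by
    set x : ℤ := 1 + 3 * (a - 2 * b)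
    set y : ℤ := 3 * (2 * a - b)
    have h4 : om.re = -1 / 2 := by simp [om]
    have h5 : om.im ^ 2 = 3 / 4 := by
      have h7 := congrArg Complex.re om_sq
      simp [pow_two] at h7
      rw [h4] at h7
      nlinarith
    rw [Complex.normSq_apply]
    simp [h4]
    nlinarith
  rw [h3] at h2
  rw [h1]
  refine ⟨-b + (a - 2 * b) ^ 2 - (a - 2 * b) * (2 * a - b) + (2 * a - b) ^ 2, ?_⟩
  have h6 : ((Nat.card (eis ⧸ (sp (ez (1 + 3 * (a - 2 * b)) (3 * (2 * a - b))) : Ideal eis)) : ℕ) : ℝ)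
      = (((1 + 3 * (a - 2 * b)) ^ 2 - (1 + 3 * (a - 2 * b)) * (3 * (2 * a - b)) +
        (3 * (2 * a - b)) ^ 2 : ℤ) : ℝ) := h2
  have h7 : ((Nat.card (eis ⧸ (sp (ez (1 + 3 * (a - 2 * b)) (3 * (2 * a - b))) : Ideal eis)) : ℕ) : ℤ)
      = (1 + 3 * (a - 2 * b)) ^ 2 - (1 + 3 * (a - 2 * b)) * (3 * (2 * a - b)) +
        (3 * (2 * a - b)) ^ 2 := by exact_mod_cast h6
  rw [h7]
  ring

lemma v_nine_le {m : ℤ} : v ((9 * m : ℤ) : ℂ) ≤ v 3 * v 3 := by
  have h : ((9 * m : ℤ) : ℂ) = 3 * 3 * m := by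
    push_cast
    ring
  rw [h, map_mul, map_mul]
  calc v 3 * v 3 * v (m : ℂ) ≤ v 3 * v 3 * 1 := mul_le_mul' le_rfl (v_int m)
    _ = _ := mul_one _

lemma lam_mul_lt (hv : v 3 < 1) : v 3 * v 3 < v 3 * v lam := by
  refine mul_lt_mul_of_pos_left ?_ (zero_lt_iff.2 three_ne)
  rw [← sq_three]
  calc v lam * v lam < v lam * 1 := mul_lt_mul_of_pos_left (lam_lt hv) lam_pos
    _ = v lam := mul_one _

/-- the prime is prime to two -/
lemma cop_two {c q : eis} (hc : Prime c) (hcq : c = 1 + 3 * la * q) : IsCoprime (2 : eis) c := by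
  rw [isCoprime_comm, hc.irreducible.coprime_iff_not_dvd]
  rintro ⟨t, ht⟩
  have h1 : (1 : eis) = 2 * 2 - 3 := by norm_num
  -- the norm of `c` divides four
  obtain ⟨m, hm⟩ := card_nine q
  rw [← hcq] at hm
  have hnm : ∀ x : eis, ((Nat.card (eis ⧸ (sp x : Ideal eis)) : ℕ) : ℝ) = Complex.normSq (x : ℂ) :=
    (lbasic eis om qr).2.2.2.2.1
  have h2 : Complex.normSq ((2 : eis) : ℂ) = 4 := by
    have : ((2 : eis) : ℂ) = 2 := rfl
    rw [this]
    norm_num
  have h3 : Complex.normSq ((2 : eis) : ℂ) = Complex.normSq (c : ℂ) * Complex.normSq (t : ℂ) := by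
    rw [← Complex.normSq_mul, ht]
    push_cast
    rfl
  rw [h2, ← hnm c, ← hnm t] at h3
  have h4 : Nat.card (eis ⧸ (sp c : Ideal eis)) * Nat.card (eis ⧸ (sp t : Ideal eis)) = 4 := by
    exact_mod_cast h3.symm
  have h5 : Nat.card (eis ⧸ (sp c : Ideal eis)) ∣ 4 := ⟨_, h4.symm⟩
  have h6 := Nat.le_of_dvd (by norm_num) h5
  have h7 : Nat.card (eis ⧸ (sp c : Ideal eis)) ≠ 1 := by
    intro h
    have h8 : (sp c : Ideal eis) = ⊤ := by
      have := (Nat.card_eq_one_iff_unique.1 h).1
      exact Ideal.Quotient.subsingleton_iff.1 this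
    exact hc.not_isUnit (Ideal.span_singleton_eq_top.1 h8)
  have h8 : Nat.card (eis ⧸ (sp c : Ideal eis)) ≠ 0 := by
    intro h
    rw [h, zero_mul] at h4
    norm_num at h4
  omega

theorem val3 (hC : Cur L Ω) (hv : v 3 < 1) {c q : eis} (hc : Prime c)
    (hcq : c = 1 + 3 * la * q) (hq : rd q ≠ 0)
    {η : MulChar (eis ⧸ (sp c : Ideal eis)) ℂ} {k : ℕ} (hη : η ^ (3 ^ k) = 1)
    (hom : et η omr = 1) {l : ℂ}
    (hl : Tendsto (SS (ec η)) (𝓝[>] 0) (𝓝 l)) : v (l / Ω) = v 3 := by
  classical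
  have hc0 := hc.ne_zero
  have : Finite (eis ⧸ (sp 3 : Ideal eis)) := finite_q three_ne
  have : Fintype (eis ⧸ (sp 3 : Ideal eis)) := Fintype.ofFinite _
  have hfin : ∀ q : eis, q ≠ 0 → Finite (eis ⧸ (sp q : Ideal eis)) := fun q hq => finite_q hq
  have : Finite (eis ⧸ (sp c : Ideal eis)) := finite_q hc0
  have : Fintype (eis ⧸ (sp c : Ideal eis)) := Fintype.ofFinite _
  have hL := hC.lat
  have hΩ := hL.ne
  obtain ⟨w, hw⟩ := WW_lim hL
  have hwv := hC.w_val hw
  have hwk : w = kap L Ω := by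
    rw [hwv]
    unfold kap
    ring
  have hcc0 := coe_ne hc0
  have h3c : IsCoprime 3 c := ⟨-la * q, 1, by rw [hcq]; ring⟩
  have h2c := cop_two hc hcq
  have hcu : ¬ IsUnit c := hc.not_isUnit
  have hct : (sp c : Ideal eis) ≠ ⊤ := by
    intro h
    exact hcu (Ideal.span_singleton_eq_top.1 h)
  have hnt : Nontrivial (eis ⧸ (sp c : Ideal eis)) := Ideal.Quotient.nontrivial_iff.2 hct
  have hee : ee psi c = 1 := by
    rw [eo.per c 1 (by
      rw [Ideal.mem_span_singleton', hcq]
      exact ⟨la * q, by ring⟩), ee_u isUnit_one]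
    rfl
  have hwne : w ≠ 0 := by
    rw [hwk]
    exact Pool.Agent.Y715.T.Ana.kap_ne hC
  have vw : v w = v lam := by
    rw [hwv]
    have h8 : v (℘[L] (Ω / 3)) = 1 := by
      refine v_one_of_pow (n := 6) (by norm_num) ?_
      have h9 : ℘[L] (Ω / 3) ^ 6 = 1 := by
        have := hC.x0
        linear_combination (℘[L] (Ω / 3) ^ 3 - 1) * this
      rw [h9, map_one]
    have h9 : v (℘'[L] (Ω / 3)) ^ 2 = v lam ^ 2 := by
      rw [← map_pow, hC.y0, v.map_neg, pow_two, sq_three]
    rw [map_mul, map_mul, map_pow, h8, one_pow, mul_one, v_two hv, one_mul]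
    exact (pow_left_inj₀ zero_le zero_le two_ne_zero).1 h9
  have hcm : CM (ee psi) := ⟨eo.mul, eo.bd⟩
  have c3 : ((3 : eis) : ℂ) = 3 := rfl
  -- the trivial character
  have l1 := lim_rmv hL hcm gP gP_span (psi_lim hL hw) (Sc hc0)
  have e1 : rmv (Sc hc0) (ee psi) = ec (1 : MulChar (eis ⧸ (sp c : Ideal eis)) ℂ) := by
    funext α
    unfold rmv ec
    by_cases h : ∃ P ∈ Sc hc0, α ∈ P.asIdeal
    · rw [if_pos h]
      obtain ⟨P, hP, hPα⟩ := h
      have h2 : et (1 : MulChar (eis ⧸ (sp c : Ideal eis)) ℂ) α = 0 := by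
        rw [et_zero_iff, cop_iff hc0]
        exact fun h3 => h3 P hP hPα
      rw [h2, map_zero, mul_zero]
    · rw [if_neg h]
      have h2 : IsCoprime α c := by
        rw [cop_iff hc0]
        intro P hP hα
        exact h ⟨P, hP, hα⟩
      have h3 : et (1 : MulChar (eis ⧸ (sp c : Ideal eis)) ℂ) α = 1 := by
        unfold et
        exact MulChar.one_apply ((unit_iff α).2 h2)
      rw [h3, map_one, mul_one]
  rw [e1] at l1
  have hprod : ∏ P ∈ Sc hc0, (1 - ee psi (gP P) / (gP P : ℂ)) = (c - 1) / c := by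
    obtain ⟨P, hP⟩ : ∃ P : HeightOneSpectrum eis, P.asIdeal = sp c :=
      ⟨⟨sp c, (Ideal.span_singleton_prime hc0).2 hc, by
        rwa [Ne, Ideal.span_singleton_eq_bot]⟩, rfl⟩
    have hS : Sc hc0 = {P} := by
      ext Q
      rw [mem_Sc, Finset.mem_singleton]
      constructor
      · intro h
        apply HeightOneSpectrum.ext
        have hmax : (sp c : Ideal eis).IsMaximal := by
          have := P.isPrime.isMaximal P.ne_bot
          rwa [hP] at this
        rw [hP]
        exact (hmax.eq_of_le Q.isPrime.ne_top ((Ideal.span_singleton_le_iff_mem _).2 h)).symm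
      · rintro rfl
        rw [hP]
        exact Ideal.mem_span_singleton_self c
    rw [hS, Finset.prod_singleton]
    have has : (sp c : Ideal eis) = sp (gP P) := by rw [← hP, ← gP_span]
    obtain ⟨u, hu⟩ := Ideal.span_singleton_eq_span_singleton.1 has
    have hu0 : ((u : eis) : ℂ) ≠ 0 := coe_ne u.isUnit.ne_zero
    rw [← hu, eo.mul, hee, ee_u u.isUnit]
    push_cast
    field_simp
  rw [hprod] at l1
  -- the formula
  have hzero : ∀ η' : MulChar (eis ⧸ (sp c : Ideal eis)) ℂ, η' 0 = 0 := fun η' =>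
    η'.map_nonunit not_isUnit_zero
  have eout : ∀ (η' : MulChar (eis ⧸ (sp c : Ideal eis)) ℂ) (x : eis ⧸ (sp c : Ideal eis)),
      et η' x.out = η' x := by
    intro η' x
    unfold et
    rw [Ideal.Quotient.mk_out]
  set G : eis ⧸ (sp c : Ideal eis) → ℂ := fun x => FF (℘'[L] (Ω * x.out / c) ^ 2) with hG
  have key : ∀ (η' : MulChar (eis ⧸ (sp c : Ideal eis)) ℂ) (l' : ℂ),
      Tendsto (SS (ec η')) (𝓝[>] 0) (𝓝 l') →
      l' = Ω / (3 * c) * ((starRingEnd ℂ) (et η' 3)) * (w *
        (∑ x : eis ⧸ (sp c : Ideal eis), (starRingEnd ℂ) (η' x) * G x)) := by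
    intro η' l' hl'
    have h2 : Xg c (fun α => (starRingEnd ℂ) (et η' α)) := by
      refine ⟨fun x y h => ?_, fun x y => ?_, fun x => ?_⟩
      · rw [et_per h]
      · rw [et_mul, map_mul]
      · rw [RCLike.norm_conj]
        exact et_bd hc0 x
    have h3 := lim_gen hL hc0 h3c h2 (fun x hx => by
      unfold et
      rw [Ideal.Quotient.eq_zero_iff_mem.2 hx, hzero, map_zero]) hw
    have h4 := tendsto_nhds_unique hl' h3
    rw [h4, c3, hee, one_mul]
    simp only [eout]
    congr 1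
    rw [Finset.sum_mul, ← Finset.sum_add_distrib, Finset.mul_sum]
    refine Finset.sum_congr rfl fun x _ => ?_
    by_cases hx : x = 0
    · rw [hx, hzero, map_zero]
      ring
    · have hx' := out_notMem hx
      have hu : Ω * x.out / c ∉ L.lattice := by rwa [div_mem_iff hL hc0]
      have h5 := HH_eq hC hu (fun z => cop_notMem hL three_ne hc0 h3c (z := z) hx')
      rw [← hwk] at h5
      linear_combination (starRingEnd ℂ) (η' x) * h5
  have k1 := key 1 _ l1
  have k2 := key η _ hl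
  have e3 : et (1 : MulChar (eis ⧸ (sp c : Ideal eis)) ℂ) 3 = 1 := by
    unfold et
    exact MulChar.one_apply ((unit_iff 3).2 h3c)
  rw [e3, map_one, mul_one, c3] at k1
  set S1 := ∑ x : eis ⧸ (sp c : Ideal eis),
    (starRingEnd ℂ) ((1 : MulChar (eis ⧸ (sp c : Ideal eis)) ℂ) x) * G x with hS1
  set S2 := ∑ x : eis ⧸ (sp c : Ideal eis), (starRingEnd ℂ) (η x) * G x with hS2
  have k3 : S1 = c - 1 := by
    have h4 : Ω / (3 * c) * (w * S1) = Ω / (3 * c) * (w * (c - 1)) := by
      rw [← k1]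
      field_simp
    have h5 : Ω / (3 * (c : ℂ)) ≠ 0 := div_ne_zero hΩ (mul_ne_zero (by norm_num) hcc0)
    exact mul_left_cancel₀ hwne (mul_left_cancel₀ h5 h4)
  have hv3l : v 3 * v lam ≠ 0 := mul_ne_zero three_ne lam_ne
  have vS1 : v S1 = v 3 * v lam := by
    rw [k3]
    have h4 : (c : ℂ) - 1 = 3 * lam * q := by
      rw [hcq]
      push_cast
      rw [la_coe, c3]
      ring
    rw [h4, map_mul, map_mul, v_rd hv hq, mul_one]
  -- the difference
  have vd : v (S1 - S2) < v 3 * v lam := by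
    by_cases h1 : η = 1
    · rw [hS1, hS2, h1, sub_self, map_zero]
      exact zero_lt_iff.2 hv3l
    have e4 : S1 - S2 = (∑ x : eis ⧸ (sp c : Ideal eis), ((starRingEnd ℂ)
        ((1 : MulChar (eis ⧸ (sp c : Ideal eis)) ℂ) x) - (starRingEnd ℂ) (η x)) * (G x + 1)) -
        (∑ x : eis ⧸ (sp c : Ideal eis), (starRingEnd ℂ)
        ((1 : MulChar (eis ⧸ (sp c : Ideal eis)) ℂ) x) -
          ∑ x : eis ⧸ (sp c : Ideal eis), (starRingEnd ℂ) (η x)) := by
      rw [hS1, hS2, ← Finset.sum_sub_distrib, ← Finset.sum_sub_distrib, ← Finset.sum_sub_distrib]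
      exact Finset.sum_congr rfl fun x _ => by ring
    have e5 : ∑ x : eis ⧸ (sp c : Ideal eis), (starRingEnd ℂ) (η x) = 0 := by
      rw [← map_sum, MulChar.sum_eq_zero_of_ne_one h1, map_zero]
    have hfield : ∀ x : eis ⧸ (sp c : Ideal eis), IsUnit x ↔ x ≠ 0 := by
      intro x
      have hmax : (sp c : Ideal eis).IsMaximal :=
        PrincipalIdealRing.isMaximal_of_irreducible hc.irreducible
      let _ : Field (eis ⧸ (sp c : Ideal eis)) := Ideal.Quotient.field _
      exact isUnit_iff_ne_zero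
    have e6 : ∑ x : eis ⧸ (sp c : Ideal eis), (starRingEnd ℂ)
        ((1 : MulChar (eis ⧸ (sp c : Ideal eis)) ℂ) x) =
        (Nat.card (eis ⧸ (sp c : Ideal eis)) : ℂ) - 1 := by
      have h2 : ∀ x : eis ⧸ (sp c : Ideal eis), (starRingEnd ℂ)
        ((1 : MulChar (eis ⧸ (sp c : Ideal eis)) ℂ) x) = 1 - (if x = 0 then 1 else 0) := by
        intro x
        by_cases hx : x = 0
        · rw [if_pos hx, hx, hzero, map_zero, sub_self]
        · rw [if_neg hx, MulChar.one_apply ((hfield x).2 hx), map_one, sub_zero]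
      rw [Finset.sum_congr rfl fun x _ => h2 x, Finset.sum_sub_distrib, Finset.sum_const,
        Finset.sum_ite_eq' , if_pos (Finset.mem_univ _), Finset.card_univ, nsmul_eq_mul, mul_one,
        Nat.card_eq_fintype_card]
    rw [e4, e5, sub_zero, e6]
    have hroot : ∀ x : eis ⧸ (sp c : Ideal eis), IsUnit x →
        v ((starRingEnd ℂ) ((1 : MulChar (eis ⧸ (sp c : Ideal eis)) ℂ) x) -
          (starRingEnd ℂ) (η x)) < 1 := by
      intro x hx
      have h2 : η x ^ 3 ^ k = 1 := by
        obtain ⟨u, rfl⟩ := hx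
        rw [← MulChar.pow_apply_coe, hη, MulChar.one_apply_coe]
      have h3 : ((starRingEnd ℂ) (η x)) ^ 3 ^ k = 1 := by rw [← map_pow, h2, map_one]
      have h4 := Pool.Agent.N883.Q.v_root_q (v := v) (q := 3) Nat.prime_three
        (by exact_mod_cast hv) h3
      rw [MulChar.one_apply hx, map_one, ← v.map_neg, neg_sub]
      exact h4
    refine v.map_sub_lt ?_ ?_
    · -- the sum over the orbits
      set W : eis ⧸ (sp c : Ideal eis) → ℂ := fun x => ((starRingEnd ℂ)
        ((1 : MulChar (eis ⧸ (sp c : Ideal eis)) ℂ) x) - (starRingEnd ℂ) (η x)) * (G x + 1)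
        with hW
      have hD := dat hC hc0 h2c h3c hct hfin
      have hWv : ∀ x, v (W x) < v lam := by
        intro x
        by_cases hx : IsUnit x
        · have h3 : IsCoprime x.out c := by
            rw [← unit_iff, Ideal.Quotient.mk_out]
            exact hx
          have h4 : v (G x + 1) ≤ v lam := FF_one hv (X_le hv hD ⟨x.out, h3⟩)
          rw [hW]
          show v (_ * _) < _
          rw [map_mul]
          calc _ ≤ v ((starRingEnd ℂ) ((1 : MulChar (eis ⧸ (sp c : Ideal eis)) ℂ) x) -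
                (starRingEnd ℂ) (η x)) * v lam := mul_le_mul' le_rfl h4
            _ < 1 * v lam := mul_lt_mul_of_pos_right (hroot x hx) lam_pos
            _ = v lam := one_mul _
        · rw [hW]
          show v (_ * _) < _
          rw [MulChar.map_nonunit _ hx, MulChar.map_nonunit _ hx, sub_self, zero_mul, map_zero]
          exact lam_pos
      obtain ⟨x0, hx0⟩ := Finite.exists_max (fun x => v (W x))
      have h5 := sum_tri (v := v) (A := eis ⧸ (sp c : Ideal eis))
        (u := Ideal.Quotient.mk (sp c) omr) (W := W) (g := v (W x0)) ?_ ?_ ?_ ?_ hx0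
      · refine h5.trans_lt ?_
        exact mul_lt_mul_of_pos_left (hWv x0) (zero_lt_iff.2 three_ne)
      · rw [← map_pow, ← map_add, ← map_one (Ideal.Quotient.mk (sp c)), ← map_add, omr_sq,
          map_zero]
      · obtain ⟨s, t, hst⟩ := h3c
        refine IsUnit.of_mul_eq_one (Ideal.Quotient.mk (sp c) s) ?_
        have e3 : (3 : eis ⧸ sp c) = Ideal.Quotient.mk (sp c) 3 := (map_ofNat _ 3).symm
        rw [e3, ← map_mul, ← map_one (Ideal.Quotient.mk (sp c)),
          Ideal.Quotient.mk_eq_mk_iff_sub_mem, Ideal.mem_span_singleton']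
        exact ⟨-t, by linear_combination -hst⟩
      · intro x
        have h6 : ∀ η' : MulChar (eis ⧸ (sp c : Ideal eis)) ℂ, et η' omr = 1 →
            η' (Ideal.Quotient.mk (sp c) omr * x) = η' x := by
          intro η' h
          rw [map_mul]
          unfold et at h
          rw [h, one_mul]
        have h7 : et (1 : MulChar (eis ⧸ (sp c : Ideal eis)) ℂ) omr = 1 := by
          unfold et
          exact MulChar.one_apply (omr_unit.map (Ideal.Quotient.mk (sp c)))
        have h8 : G (Ideal.Quotient.mk (sp c) omr * x) = G x := by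
          rw [hG]
          show FF _ = FF _
          congr 1
          have h9 : (Ideal.Quotient.mk (sp c) omr * x).out - omr * x.out ∈ (sp c : Ideal eis) := by
            rw [← Ideal.Quotient.mk_eq_mk_iff_sub_mem, Ideal.Quotient.mk_out, map_mul,
              Ideal.Quotient.mk_out]
          have h10 : ℘'[L] (Ω * ((Ideal.Quotient.mk (sp c) omr * x).out : eis) / c) =
              ℘'[L] (Ω * ((omr * x.out : eis) : ℂ) / c) := by
            apply dwp_per
            have h11 := (div_mem_iff hL hc0 _).2 h9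
            convert h11 using 1
            push_cast
            ring
          have e4 : Ω * ((omr * x.out : eis) : ℂ) / c = (omr : ℂ) * (Ω * x.out / c) := by
            push_cast
            ring
          rw [h10, e4, dwp_unit hL omr_unit, omr_coe, om_cube, inv_one, one_mul]
        rw [hW]
        show (_ - _) * _ = (_ - _) * _
        rw [h6 1 h7, h6 η hom, h8]
      · intro x hx
        rw [hW]
        show (_ - _) * _ = 0
        rw [MulChar.map_nonunit _ hx, MulChar.map_nonunit _ hx, sub_self, zero_mul]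
    · obtain ⟨m, hm⟩ := card_nine q
      rw [← hcq] at hm
      have h5 : (Nat.card (eis ⧸ (sp c : Ideal eis)) : ℂ) - 1 = ((9 * m : ℤ) : ℂ) := by
        have h6 : ((Nat.card (eis ⧸ (sp c : Ideal eis)) : ℕ) : ℤ) - 1 = 9 * m := by omega
        have h7 := congrArg (fun t : ℤ => (t : ℂ)) h6
        push_cast at h7 ⊢
        exact h7
      rw [h5]
      exact v_nine_le.trans_lt (lam_mul_lt hv)
  have vS2 : v S2 = v 3 * v lam := by
    have h4 : S2 = S1 - (S1 - S2) := by ring
    rw [h4, v.map_sub_eq_of_lt_left (by rwa [vS1]), vS1]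
  have vc : v (c : ℂ) = 1 := by
    have h4 : (c : ℂ) = 1 + (c - 1) := by ring
    have h5 : v ((c : ℂ) - 1) < 1 := by
      rw [← k3, vS1]
      calc v 3 * v lam ≤ v 3 * 1 := mul_le_mul' le_rfl (lam_lt hv).le
        _ < 1 := by rwa [mul_one]
    rw [h4]
    exact v.map_one_add_of_lt h5
  have ve : v ((starRingEnd ℂ) (et η 3)) = 1 := by
    have hu := (unit_iff 3).2 h3c
    have h4 : η (Ideal.Quotient.mk (sp c) 3) ^ 3 ^ k = 1 := by
      obtain ⟨u, hu⟩ := hu
      rw [← hu, ← MulChar.pow_apply_coe, hη, MulChar.one_apply_coe]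
    refine v_one_of_pow (n := 3 ^ k) (pow_ne_zero _ (by norm_num)) ?_
    unfold et
    rw [← map_pow, h4, map_one, map_one]
  have h4 : l / Ω = (3 * (c : ℂ))⁻¹ * ((starRingEnd ℂ) (et η 3)) * (w * S2) := by
    rw [k2]
    field_simp
  rw [h4]
  simp only [map_mul, map_inv₀, vc, ve, vw, vS2, mul_one]
  rw [← sq_three]
  have := lam_ne (v := v)
  field_simp

end Pool.Agent.H62
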