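import Mathlib
import Pool.Graph.R_pool_sql_team_seeded_63374d34.N883.T.An
import Pool.Graph.R_seed8.Y715.T.Fin
import Pool.Agent.H62.Val

/-!
# The analytic theorem for extensions of degree a power of three ramified at one prime
-/

set_option autoImplicit false
set_option linter.unusedSectionVars false

namespace Pool.Agent.H62

open NumberField IsDedekindDomain IsLocalRing Filter Topology Complex
open Pool.Agent.W192.HK Pool.Agent.TH936.CM Pool.Agent.TH936.PU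
open Pool.Agent.W189.NF (aV eV redMap)
open Pool.Agent.W192.CM (nu)
open Pool.Agent.Y696
open Pool.Agent.N883.Q Pool.Agent.N883.T
open Pool.Agent.Y715.T.Three Pool.Agent.Y715.T.Lat
open Pool.Agent.Y715.T.LF (rd)

section
variable {K : Type} [Field K] [NumberField K] {ι : eis →+* 𝓞 K} {G : Type} [CommGroup G] [Finite G]
  [MulSemiringAction G (𝓞 K)] {c : eis} {art : (eis ⧸ (sp c : Ideal eis))ˣ →* G}
  {Γ : Type*} [LinearOrderedCommGroupWithZero Γ] {n : ℕ}

lemma v_conj3 {v : Valuation ℂ Γ} (hv : v 3 < 1) : vc v 3 < 1 := by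
  rw [vc_apply, map_ofNat]
  exact hv

/-- the values of the Hecke L-functions are units -/
lemma v_F3 (D : DatQ ι G c art) (hG : Nat.card G = 3 ^ n) {q : eis} (hc : Prime c)
    (hcq : c = 1 + 3 * la * q) (hq : rd q ≠ 0)
    (χ : MulChar G ℂ) {L : PeriodPair} {Ω : ℂ} (hC : Cur L Ω)
    {v : Valuation ℂ Γ} (hv : v 3 < 1) {a : ℂ}
    (ha : Tendsto (SS (ec (eta art χ))) (𝓝[>] 0) (𝓝 ((nu eis : ℂ) * (starRingEnd ℂ) a))) :
    v ((starRingEnd ℂ) a / Ω) = 1 := by
  have h1 := val3 hC hv hc hcq hq (eta_powQ hG χ) (et_eta_unitQ D χ omr omr_unit) ha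
  rw [nu_six, mul_div_assoc, map_mul] at h1
  have h6 : v ((6 : ℕ) : ℂ) = v 3 := by
    have := v_six (v := v) hv
    exact_mod_cast this
  rw [h6] at h1
  exact mul_left_cancel₀ three_ne (h1.trans (mul_one _).symm)

lemma v_FF3 (D : DatQ ι G c art) (hG : Nat.card G = 3 ^ n) {q : eis} (hc : Prime c)
    (hcq : c = 1 + 3 * la * q) (hq : rd q ≠ 0)
    (χ : MulChar G ℂ) {L : PeriodPair} {Ω : ℂ} (hC : Cur L Ω)
    {v : Valuation ℂ Γ} (hv : v 3 < 1) {a : ℂ}
    (ha : Tendsto (SS (ec (eta art χ))) (𝓝[>] 0) (𝓝 ((nu eis : ℂ) * (starRingEnd ℂ) a))) :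
    v (a * (starRingEnd ℂ) a / (Ω * (starRingEnd ℂ) Ω)) = 1 := by
  have h1 := v_F3 D hG hc hcq hq χ hC hv ha
  have h2 := v_F3 D hG hc hcq hq χ hC (v_conj3 hv) ha
  rw [vc_apply, map_div₀, Complex.conj_conj] at h2
  have h3 : a * (starRingEnd ℂ) a / (Ω * (starRingEnd ℂ) Ω) =
      (a / (starRingEnd ℂ) Ω) * ((starRingEnd ℂ) a / Ω) := by
    rw [div_mul_div_comm, mul_comm Ω]
  rw [h3, map_mul, h1, h2, one_mul]

/-- total ramification at the prime -/
def Tot (ι : eis →+* 𝓞 K) (G : Type) [CommGroup G] [MulSemiringAction G (𝓞 K)] (c : eis) : Prop :=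
  ∀ w : HeightOneSpectrum (𝓞 K), ι c ∈ w.asIdeal → ∀ (g : G) (x : 𝓞 K), g • x - x ∈ w.asIdeal

/-- there is only one prime above `c` -/
lemma tot_uniq (D : DatQ ι G c art) (hT : Tot ι G c) (hc : Prime c) {w w' : HeightOneSpectrum (𝓞 K)}
    (h : ι c ∈ w.asIdeal) (h' : ι c ∈ w'.asIdeal) : w = w' := by
  classical
  let _ : Algebra eis (𝓞 K) := ι.toAlgebra
  have halg : ∀ a : eis, algebraMap eis (𝓞 K) a = ι a := fun _ => rfl
  have hcomm : SMulCommClass G eis (𝓞 K) := by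
    constructor
    intro g a x
    rw [Algebra.smul_def, Algebra.smul_def, halg, smul_mul', D.fix]
  have hinv : Algebra.IsInvariant eis (𝓞 K) G := ⟨fun b hb => D.inv b hb⟩
  have hb : ∀ w : HeightOneSpectrum (𝓞 K), ι c ∈ w.asIdeal → (bel ι w).asIdeal = sp c := by
    intro w hw
    have hmax : (sp c : Ideal eis).IsMaximal :=
      PrincipalIdealRing.isMaximal_of_irreducible hc.irreducible
    refine (hmax.eq_of_le (bel ι w).isPrime.ne_top ?_).symm
    rw [Ideal.span_singleton_le_iff_mem, mem_bel]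
    exact hw
  have hu : w.asIdeal.under eis = w'.asIdeal.under eis := by
    have h1 := hb w h
    have h2 := hb w' h'
    exact h1.trans h2.symm
  have := w.isPrime
  have := w'.isPrime
  obtain ⟨g, hg⟩ := Algebra.IsInvariant.exists_smul_of_under_eq eis (𝓞 K) G _ _ hu
  apply HeightOneSpectrum.ext
  rw [hg]
  ext x
  rw [Ideal.mem_pointwise_smul_iff_inv_smul_mem]
  have h3 := hT w h g⁻¹ x
  constructor
  · intro hx
    have := w.asIdeal.add_mem h3 hx
    rwa [sub_add_cancel] at this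
  · intro hx
    have := w.asIdeal.sub_mem hx h3
    rwa [sub_sub_cancel] at this

/-- the residue degree is one -/
lemma tot_deg (D : DatQ ι G c art) (hT : Tot ι G c) (hG : Nat.card G = 3 ^ n)
    {w : HeightOneSpectrum (𝓞 K)} (h : ι c ∈ w.asIdeal) :
    nK w = Nat.card (eis ⧸ (bel ι w).asIdeal) ^ 1 := by
  classical
  have : Fintype G := Fintype.ofFinite G
  obtain ⟨f, hf0, hfG, hf⟩ := exists_degQ D w
  have h3w : ι 3 ∉ w.asIdeal := by
    rw [← mem_bel]
    exact three_notQ D (P := bel ι w) h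
  have hmax : w.asIdeal.IsMaximal := w.isPrime.isMaximal w.ne_bot
  have hfin : Finite (𝓞 K ⧸ w.asIdeal) := Ideal.finiteQuotientOfFreeOfNeBot w.asIdeal w.ne_bot
  have hfp : Finite (eis ⧸ (bel ι w).asIdeal) := by
    rw [gP_span]
    exact finite_q (gP_ne _)
  -- the map is surjective
  have hsurj : Function.Surjective (Ideal.quotientMap w.asIdeal ι (le_refl (bel ι w).asIdeal) :
      eis ⧸ (bel ι w).asIdeal →+* 𝓞 K ⧸ w.asIdeal) := by
    intro y
    obtain ⟨x, rfl⟩ := Ideal.Quotient.mk_surjective y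
    let _ : Field (𝓞 K ⧸ w.asIdeal) := Ideal.Quotient.field _
    have h3n : Ideal.Quotient.mk w.asIdeal (ι ((3 ^ n : ℕ) : eis)) ≠ 0 := by
      rw [Ne, Ideal.Quotient.eq_zero_iff_mem]
      push_cast
      rw [map_pow]
      intro h4
      exact h3w (w.isPrime.mem_of_pow_mem n h4)
    obtain ⟨z, hz⟩ : ∃ z, Ideal.Quotient.mk w.asIdeal (ι ((3 ^ n : ℕ) : eis)) * z = 1 :=
      ⟨_, mul_inv_cancel₀ h3n⟩
    obtain ⟨z, rfl⟩ := Ideal.Quotient.mk_surjective z
    -- the trace of `z x`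
    obtain ⟨a, ha⟩ := D.inv (∑ g : G, g • (z * x)) (by
      intro g
      rw [Finset.smul_sum]
      refine Fintype.sum_bijective (fun k => g * k) (Group.mulLeft_bijective g) _ _ fun k => ?_
      rw [mul_smul])
    refine ⟨Ideal.Quotient.mk _ a, ?_⟩
    show Ideal.Quotient.mk w.asIdeal (ι a) = _
    rw [ha]
    have h5 : Ideal.Quotient.mk w.asIdeal (∑ g : G, g • (z * x)) =
        ∑ g : G, Ideal.Quotient.mk w.asIdeal (z * x) := by
      rw [map_sum]
      refine Finset.sum_congr rfl fun g _ => ?_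
      rw [Ideal.Quotient.mk_eq_mk_iff_sub_mem]
      exact hT w h g _
    rw [h5, Finset.sum_const, Finset.card_univ, ← Nat.card_eq_fintype_card, hG, nsmul_eq_mul,
      map_mul, ← mul_assoc]
    have h6 : ((3 ^ n : ℕ) : 𝓞 K ⧸ w.asIdeal) =
        Ideal.Quotient.mk w.asIdeal (ι ((3 ^ n : ℕ) : eis)) := by
      rw [map_natCast, map_natCast]
    rw [h6, hz, one_mul]
  have h7 := Nat.card_le_card_of_surjective _ hsurj
  have h8 : Nat.card (𝓞 K ⧸ w.asIdeal) = nK w := card_nm w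
  rw [h8, hf] at h7
  have h9 : 1 < Nat.card (eis ⧸ (bel ι w).asIdeal) := by
    have : Nontrivial (eis ⧸ (bel ι w).asIdeal) :=
      Ideal.Quotient.nontrivial_iff.2 (bel ι w).isPrime.ne_top
    exact Finite.one_lt_card
  have h10 : f = 1 := by
    by_contra hne
    have h11 : Nat.card (eis ⧸ (bel ι w).asIdeal) ^ 1 <
        Nat.card (eis ⧸ (bel ι w).asIdeal) ^ f := Nat.pow_lt_pow_right h9 (by omega)
    rw [pow_one] at h11
    omega
  rw [hf, h10]

lemma v_sub_one {v : Valuation ℂ Γ} (hv : v 3 < 1) {q : eis}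
    (hcq : c = 1 + 3 * la * q) (hq : rd q ≠ 0) : v ((c : ℂ) - 1) = v 3 * v lam := by
  have c3 : ((3 : eis) : ℂ) = 3 := rfl
  have h4 : (c : ℂ) - 1 = 3 * lam * q := by
    rw [hcq]
    push_cast
    rw [la_coe, c3]
    ring
  rw [h4, map_mul, map_mul, v_rd hv hq, mul_one]

/-- the local factor at the prime above `c` -/
lemma v_EV3 (D : DatQ ι G c art) (hT : Tot ι G c) (hc : Prime c) (hG : Nat.card G = 3 ^ n)
    {q : eis} (hcq : c = 1 + 3 * la * q) (hq : rd q ≠ 0)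
    {w : HeightOneSpectrum (𝓞 K)} (h : ι c ∈ w.asIdeal) {v : Valuation ℂ Γ} (hv : v 3 < 1) :
    v (EV w 1) = v 27 := by
  have hf := tot_deg D hT hG h
  have h3w : ι 3 ∉ w.asIdeal := by
    rw [← mem_bel]
    exact three_notQ D (P := bel ι w) h
  have h1 := XX_val (ι := ι) w h3w hf 1
  obtain ⟨-, -, h5⟩ := aV_val (ι := ι) w h3w hf
  have h6 : EV w 1 = (1 - (psi (bel ι w).asIdeal * (nm (bel ι w).asIdeal : ℂ) ^ (-1 : ℂ)) ^ 1) *
      (1 - ((starRingEnd ℂ) (psi (bel ι w).asIdeal) * (nm (bel ι w).asIdeal : ℂ) ^ (-1 : ℂ)) ^ 1) := by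
    have h7 : XX w 1 = (EV w 1)⁻¹ := rfl
    rw [h7] at h1
    exact inv_injective h1
  have hPc : (bel ι w).asIdeal = sp c := by
    have hmax : (sp c : Ideal eis).IsMaximal :=
      PrincipalIdealRing.isMaximal_of_irreducible hc.irreducible
    refine (hmax.eq_of_le (bel ι w).isPrime.ne_top ?_).symm
    rw [Ideal.span_singleton_le_iff_mem, mem_bel]
    exact h
  have hpsi : psi (bel ι w).asIdeal = c := by
    rw [hPc]
    exact psi_prim (by
      rw [Ideal.mem_span_singleton', hcq]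
      exact ⟨la * q, by ring⟩)
  rw [hpsi] at h5 h6
  have v1 := v_sub_one hv hcq hq
  have v2 := v_sub_one (v_conj3 hv) hcq hq
  rw [vc_apply, vc_apply, vc_apply, map_sub, map_one, map_ofNat] at v2
  have v3 : v (c : ℂ) = 1 := by
    have h4 : (c : ℂ) = 1 + (c - 1) := by ring
    rw [h4]
    refine v.map_one_add_of_lt ?_
    rw [v1]
    calc v 3 * v lam ≤ v 3 * 1 := mul_le_mul' le_rfl (lam_lt hv).le
      _ < 1 := by rwa [mul_one]
  have vl : v ((starRingEnd ℂ) lam) = v lam := by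
    have : (starRingEnd ℂ) lam = -lam := by
      apply Complex.ext
      · simp [lam]
      · simp [lam]
    rw [this, v.map_neg]
  rw [vl] at v2
  have v4 : v ((starRingEnd ℂ) (c : ℂ)) = 1 := by
    have h4 : (starRingEnd ℂ) (c : ℂ) = 1 + ((starRingEnd ℂ) (c : ℂ) - 1) := by ring
    rw [h4]
    refine v.map_one_add_of_lt ?_
    rw [v2]
    calc v 3 * v lam ≤ v 3 * 1 := mul_le_mul' le_rfl (lam_lt hv).le
      _ < 1 := by rwa [mul_one]
  have hπ0 : (c : ℂ) ≠ 0 := ne_of_v v3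
  have hπc0 : (starRingEnd ℂ) (c : ℂ) ≠ 0 := (map_ne_zero _).2 hπ0
  have hnm : (nm (bel ι w).asIdeal : ℂ) = (c : ℂ) * (starRingEnd ℂ) (c : ℂ) := by
    rw [h5, nm_P]
    push_cast
    rfl
  have h8 : EV w 1 = (((starRingEnd ℂ) (c : ℂ)) - 1) * ((c : ℂ) - 1) /
      (((starRingEnd ℂ) (c : ℂ)) * (c : ℂ)) := by
    rw [h6, Complex.cpow_neg_one, hnm]
    field_simp
  rw [h8, map_div₀, map_mul, map_mul, v1, v2, v3, v4, one_mul, div_one, v_27]
  rw [← sq_three]
  simp only [pow_succ, pow_zero, one_mul, mul_assoc]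

/-- the analytic theorem -/
theorem analytic3 (D : DatQ ι G c art) (hr3 : Ram3 ι) (hG : Nat.card G = 3 ^ n)
    (hT : Tot ι G c) (hc : Prime c) {q : eis} (hcq : c = 1 + 3 * la * q) (hq : rd q ≠ 0) :
    ∃ Lf : ℂ → ℂ, MeromorphicOn Lf Set.univ ∧ (∀ s : ℂ, 3 / 2 < s.re →
      LSeriesSummable ((fun n : ℤ => (n : ℂ)) ∘ (E0 K).LFunction) s ∧ Lf s = (E0 K).LSeries s) ∧
      AnalyticAt ℂ Lf 1 ∧ Lf 1 ≠ 0 ∧
      (∀ (L : PeriodPair) (Ω : ℂ), Cur L Ω → ∀ (Γ : Type) [LinearOrderedCommGroupWithZero Γ]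
        (v : Valuation ℂ Γ), v 3 < 1 →
          v (Lf 1 / (Ω * (starRingEnd ℂ) Ω) ^ Nat.card G) * v 27 = 1) ∧
      ∀ (L : PeriodPair) (Ω : ℂ), Cur L Ω →
        ∃ r : ℚ, Lf 1 / (Ω * (starRingEnd ℂ) Ω) ^ Nat.card G = r := by
  classical
  have hfinM : Finite (MulChar G ℂ) := inferInstance
  have : Fintype (MulChar G ℂ) := Fintype.ofFinite _
  have hH := fun χ : MulChar G ℂ => hecke D.c_ne D.cop3 (η := eta art χ) (et_eta_unitQ D χ)
  choose F hFd hFs hFl using hH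
  have hcard : Fintype.card (MulChar G ℂ) = Nat.card G := by
    rw [← Nat.card_eq_fintype_card, MulChar.card_eq_card_units_of_hasEnoughRootsOfUnity]
    exact Nat.card_congr toUnits.symm.toEquiv
  set Lf : ℂ → ℂ := fun s => (∏ P ∈ Sc D.c_ne, ∏ v : {v : HeightOneSpectrum (𝓞 K) // bel ι v = P},
    (EV v.1 s)⁻¹) * ∏ χ, (F χ s * (starRingEnd ℂ) (F χ ((starRingEnd ℂ) s))) with hLf
  have hconj : ∀ χ, Differentiable ℂ (fun s => (starRingEnd ℂ) (F χ ((starRingEnd ℂ) s))) := by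
    intro χ s
    exact differentiableAt_conj_conj_iff.2 (hFd χ _)
  have hent : Differentiable ℂ (fun s => ∏ χ, (F χ s * (starRingEnd ℂ) (F χ ((starRingEnd ℂ) s)))) :=
    Differentiable.fun_finsetProd fun χ _ => (hFd χ).mul (hconj χ)
  -- the only prime above `c`
  obtain ⟨P₀, hP₀⟩ : ∃ P : HeightOneSpectrum eis, P.asIdeal = sp c :=
    ⟨⟨sp c, (Ideal.span_singleton_prime D.c_ne).2 hc, by
      rw [Ne, Ideal.span_singleton_eq_bot]
      exact D.c_ne⟩, rfl⟩
  have hcP₀ : c ∈ P₀.asIdeal := by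
    rw [hP₀]
    exact Ideal.mem_span_singleton_self c
  have hS : Sc D.c_ne = {P₀} := by
    ext Q
    rw [mem_Sc, Finset.mem_singleton]
    constructor
    · intro h
      apply HeightOneSpectrum.ext
      have hmax : (sp c : Ideal eis).IsMaximal := by
        have := P₀.isPrime.isMaximal P₀.ne_bot
        rwa [hP₀] at this
      rw [hP₀]
      exact (hmax.eq_of_le Q.isPrime.ne_top ((Ideal.span_singleton_le_iff_mem _).2 h)).symm
    · rintro rfl
      exact hcP₀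
  obtain ⟨w₀, hw₀⟩ := exists_overQ D P₀
  have hcw₀ : ι c ∈ w₀.asIdeal := by
    rw [← mem_bel, hw₀]
    exact hcP₀
  have hsub : ∀ f : HeightOneSpectrum (𝓞 K) → ℂ,
      ∏ P ∈ Sc D.c_ne, ∏ v : {v : HeightOneSpectrum (𝓞 K) // bel ι v = P}, f v.1 = f w₀ := by
    intro f
    rw [hS, Finset.prod_singleton]
    let _ : Unique {v : HeightOneSpectrum (𝓞 K) // bel ι v = P₀} :=
      { default := ⟨w₀, hw₀⟩
        uniq := fun v => Subtype.ext (tot_uniq D hT hc (by
          rw [← mem_bel, v.2]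
          exact hcP₀) hcw₀) }
    rw [Fintype.prod_unique]
    rfl
  have hval : ∀ (L : PeriodPair) (Ω : ℂ), Cur L Ω → ∀ (Γ : Type)
      [LinearOrderedCommGroupWithZero Γ] (v : Valuation ℂ Γ), v 3 < 1 →
      v (Lf 1 / (Ω * (starRingEnd ℂ) Ω) ^ Nat.card G) * v 27 = 1 := by
    intro L Ω hC Γ _ v hv
    have h1 : Lf 1 / (Ω * (starRingEnd ℂ) Ω) ^ Nat.card G =
        (∏ P ∈ Sc D.c_ne, ∏ v : {v : HeightOneSpectrum (𝓞 K) // bel ι v = P}, (EV v.1 1)⁻¹) *
        ∏ χ : MulChar G ℂ, (F χ 1 * (starRingEnd ℂ) (F χ 1) / (Ω * (starRingEnd ℂ) Ω)) := by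
      rw [hLf, Finset.prod_div_distrib, Finset.prod_const, Finset.card_univ, hcard]
      simp only [map_one]
      rw [mul_div_assoc]
    rw [h1, map_mul, map_prod v _ (Finset.univ : Finset (MulChar G ℂ)),
      hsub (fun v => (EV v 1)⁻¹), Finset.prod_eq_one fun χ _ =>
        v_FF3 D hG hc hcq hq χ hC hv (hFl χ L Ω hC.lat), mul_one, map_inv₀,
      v_EV3 D hT hc hG hcq hq hcw₀ hv]
    refine inv_mul_cancel₀ ?_
    rw [v_27]
    exact pow_ne_zero _ lam_ne
  have hrat : ∀ (L : PeriodPair) (Ω : ℂ), Cur L Ω →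
      ∃ r : ℚ, Lf 1 / (Ω * (starRingEnd ℂ) Ω) ^ Nat.card G = r := by
    intro L Ω hC
    have h1 : Lf 1 / (Ω * (starRingEnd ℂ) Ω) ^ Nat.card G =
        (∏ P ∈ Sc D.c_ne, ∏ v : {v : HeightOneSpectrum (𝓞 K) // bel ι v = P}, (EV v.1 1)⁻¹) *
        ∏ χ : MulChar G ℂ, (F χ 1 * (starRingEnd ℂ) (F χ 1) / (Ω * (starRingEnd ℂ) Ω)) := by
      rw [hLf, Finset.prod_div_distrib, Finset.prod_const, Finset.card_univ, hcard]
      simp only [map_one]
      rw [mul_div_assoc]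
    have hodd : Odd (Nat.card G) := by
      rw [hG]
      exact Odd.pow (by decide)
    obtain ⟨r, hr⟩ := rat_prod D hodd hFl hC
    obtain ⟨t, ht⟩ : ∃ t : ℚ, ∏ P ∈ Sc D.c_ne,
        ∏ v : {v : HeightOneSpectrum (𝓞 K) // bel ι v = P}, (EV v.1 1)⁻¹ = t := by
      refine rat_mul _ fun P _ => rat_mul _ fun w _ => ?_
      obtain ⟨x, hx⟩ := rat_EV (K := K) w.1
      exact ⟨x⁻¹, by rw [hx]; push_cast; rfl⟩
    exact ⟨t * r, by rw [h1, hr, ht]; push_cast; rfl⟩
  refine ⟨Lf, ?_, ?_, ?_, ?_, hval, hrat⟩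
  · have h1 : MeromorphicOn (fun s => ∏ P ∈ Sc D.c_ne,
        ∏ v : {v : HeightOneSpectrum (𝓞 K) // bel ι v = P}, (EV v.1 s)⁻¹) Set.univ := by
      intro z _
      refine MeromorphicAt.fun_prod fun P _ => MeromorphicAt.fun_prod fun w _ => ?_
      exact ((EV_diff w.1).analyticAt z).meromorphicAt.inv
    intro z hz
    exact (h1 z hz).mul ((hent.analyticAt z).meromorphicAt)
  · intro s hs
    refine ⟨(LSeries_hasProd' (E0 K) (hasseQ D hr3) hs).1, ?_⟩
    rw [LK_eqQ D hr3 hFs hs]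
    rfl
  · have h1 : ∀ P ∈ Sc D.c_ne, ∀ w : {v : HeightOneSpectrum (𝓞 K) // bel ι v = P},
        EV w.1 1 ≠ 0 := by
      intro P hP w h0
      obtain ⟨V, hV⟩ := Pool.Agent.Y715.T.Fin.exists_over_three
      have hP' := (mem_Sc D.c_ne).1 hP
      have h2 := v_EV3 D hT hc hG hcq hq (w := w.1) (by rw [← mem_bel, w.2]; exact hP')
        (v := V.valuation) hV
      rw [h0, map_zero, v_27] at h2
      exact pow_ne_zero _ lam_ne h2.symm
    refine AnalyticAt.mul ?_ (hent.analyticAt 1)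
    refine Finset.analyticAt_fun_prod _ fun P hP => Finset.analyticAt_fun_prod _ fun w _ => ?_
    exact ((EV_diff w.1).analyticAt 1).inv (h1 P hP w)
  · obtain ⟨V, hV⟩ := Pool.Agent.Y715.T.Fin.exists_over_three
    obtain ⟨Ω, hΩ, hC⟩ := exists_cur
    have h1 := hval _ Ω hC _ V.valuation hV
    intro h0
    rw [h0, zero_div, map_zero, zero_mul] at h1
    exact zero_ne_one h1

end

end Pool.Agent.H62
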