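import Mathlib
import Pool.Agent.H62.Val

/-!
# Sums over the classes modulo a product of primes, I: the formula and the Euler factors
-/

set_option autoImplicit false
set_option linter.unusedSectionVars false

open Complex Filter Topology IsDedekindDomain
open scoped PeriodPair

namespace Pool.Agent.H62

open H667R3 Pool.Agent.W192.HK Pool.Agent.TH936.CM Pool.Agent.TH936.PU
open Pool.Agent.W192.CM (nu)
open Pool.Agent.Y696
open Pool.Agent.Y715.T.Three Pool.Agent.Y715.T.Lat
open Pool.Agent.Y715.T.LF (rd rd_eq_zero)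
open Pool.Agent.Y715.T.Cg (sum_tri)

variable {L : PeriodPair} {Ω : ℂ} {Γ : Type*} [LinearOrderedCommGroupWithZero Γ]
  {v : Valuation ℂ Γ}

/-- the data for the 3-adic estimates, also for even `c` -/
lemma dat' (hC : Cur L Ω) {c : eis} (hc : c ≠ 0) (h2c : ¬ c ∣ 2) (h3c : IsCoprime 3 c)
    (hct : (sp c : Ideal eis) ≠ ⊤) (hfin : ∀ q : eis, q ≠ 0 → Finite (eis ⧸ (sp q : Ideal eis))) :
    Dat (Pool.Agent.Y715.T.Lat.XX L Ω c) (sL h3c) := by
  refine ⟨XX_fin hC hc hfin, fun x => ?_⟩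
  have hu : 2 * (Ω * x.1 / c) ∉ L.lattice := by
    have h3 : (2 * x.1) ∉ (sp c : Ideal eis) := by
      intro h
      exact h2c ((x.2.symm).dvd_of_dvd_mul_right (Ideal.mem_span_singleton.1 h))
    rw [← div_mem_iff hC.lat hc] at h3
    have e2 : ((2 : eis) : ℂ) = 2 := rfl
    convert h3 using 2
    push_cast
    rw [e2]
    ring
  have hl : lam * (Ω * x.1 / c) ∉ L.lattice := by
    have h3 := notMem_of_cop hct ((cop_la h3c).mul_left x.2)
    rw [← div_mem_iff hC.lat hc] at h3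
    convert h3 using 2
    push_cast
    rw [la_coe]
    ring
  have h4 := rel_la hC hu hl
  unfold Pool.Agent.Y715.T.Lat.XX
  rw [← h4]
  congr 3
  unfold sL
  push_cast
  rw [la_coe]
  ring

/-- the function on the classes modulo `c` -/
noncomputable def GG (L : PeriodPair) (Ω : ℂ) (c : eis) (x : eis ⧸ (sp c : Ideal eis)) : ℂ :=
  FF (℘'[L] (Ω * x.out / c) ^ 2)

/-- the sum over the classes modulo `c` -/
noncomputable def SU (L : PeriodPair) (Ω : ℂ) (c : eis) (X : eis → ℂ) : ℂ :=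
  ∑ᶠ x : eis ⧸ (sp c : Ideal eis), (starRingEnd ℂ) (X x.out) * GG L Ω c x

lemma SU_eq {c : eis} [Fintype (eis ⧸ (sp c : Ideal eis))] (X : eis → ℂ) :
    SU L Ω c X = ∑ x : eis ⧸ (sp c : Ideal eis), (starRingEnd ℂ) (X x.out) * GG L Ω c x :=
  finsum_eq_sum_of_fintype _

/-- a character modulo `c` -/
structure Xm (c : eis) (X : eis → ℂ) : Prop where
  per : ∀ x y, x - y ∈ (sp c : Ideal eis) → X x = X y
  mul : ∀ x y, X (x * y) = X x * X y
  zero : ∀ x, ¬ IsCoprime x c → X x = 0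
  nrm : ∀ x, IsCoprime x c → ‖X x‖ = 1

lemma Xm.bd {c : eis} {X : eis → ℂ} (h : Xm c X) (x : eis) : ‖X x‖ ≤ 1 := by
  by_cases hx : IsCoprime x c
  · exact (h.nrm x hx).le
  · rw [h.zero x hx, norm_zero]
    exact zero_le_one

lemma Xm.mem {c : eis} (hcu : ¬ IsUnit c) {X : eis → ℂ} (h : Xm c X) {x : eis}
    (hx : x ∈ (sp c : Ideal eis)) : X x = 0 := by
  apply h.zero
  intro hco
  obtain ⟨y, rfl⟩ := Ideal.mem_span_singleton'.1 hx
  exact hcu (hco.of_mul_left_right.isUnit_of_dvd' dvd_rfl dvd_rfl)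

lemma Xm.xg {c : eis} {X : eis → ℂ} (h : Xm c X) : Xg c (fun α => (starRingEnd ℂ) (X α)) := by
  refine ⟨fun x y hxy => ?_, fun x y => ?_, fun x => ?_⟩
  · rw [h.per x y hxy]
  · rw [h.mul, map_mul]
  · rw [RCLike.norm_conj]
    exact h.bd x

lemma cop3_of {c : eis} (h : (3 : eis) ∣ c - 1) : IsCoprime 3 c := by
  obtain ⟨q, hq⟩ := h
  exact ⟨-q, 1, by linear_combination hq⟩

lemma ee_one {c : eis} (h : (3 : eis) ∣ c - 1) : ee psi c = 1 := by
  rw [eo.per c 1 (Ideal.mem_span_singleton.2 h), ee_u isUnit_one]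
  rfl

lemma w_facts (hC : Cur L Ω) [Fintype (eis ⧸ (sp 3 : Ideal eis))] {w : ℂ}
    (hw : Tendsto (WW Ω) (𝓝[>] 0) (𝓝 w)) : w = kap L Ω ∧ w ≠ 0 := by
  have hwv := hC.w_val hw
  have hwk : w = kap L Ω := by
    rw [hwv]
    unfold kap
    ring
  refine ⟨hwk, ?_⟩
  rw [hwk]
  exact Pool.Agent.Y715.T.Ana.kap_ne hC

/-- the formula for the value -/
lemma lim_SU (hC : Cur L Ω) [Fintype (eis ⧸ (sp 3 : Ideal eis))] {c : eis} (hc : c ≠ 0)
    (hcu : ¬ IsUnit c) (h31 : (3 : eis) ∣ c - 1) {X : eis → ℂ} (hX : Xm c X) {w : ℂ}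
    (hw : Tendsto (WW Ω) (𝓝[>] 0) (𝓝 w)) :
    Tendsto (SS (fun α : eis => ee psi α * (starRingEnd ℂ) (X α))) (𝓝[>] 0)
      (𝓝 (Ω / (3 * c) * (starRingEnd ℂ) (X 3) * (w * SU L Ω c X))) := by
  classical
  have : Finite (eis ⧸ (sp c : Ideal eis)) := finite_q hc
  have : Fintype (eis ⧸ (sp c : Ideal eis)) := Fintype.ofFinite _
  have hL := hC.lat
  have hwk := (w_facts hC hw).1
  have h3c := cop3_of h31
  have hee := ee_one h31
  have c3 : ((3 : eis) : ℂ) = 3 := rfl
  have h3 := lim_gen hL hc h3c hX.xg (fun x hx => by rw [hX.mem hcu hx, map_zero]) hw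
  convert h3 using 2
  rw [c3, hee, one_mul]
  congr 1
  rw [SU_eq, Finset.sum_mul, ← Finset.sum_add_distrib, Finset.mul_sum]
  refine Finset.sum_congr rfl fun x _ => ?_
  by_cases hx : x = 0
  · have h0 : X x.out = 0 := by
      apply hX.mem hcu
      rw [hx, ← Ideal.Quotient.eq_zero_iff_mem, Ideal.Quotient.mk_out]
    rw [h0, map_zero]
    ring
  · have hx' := out_notMem hx
    have hu : Ω * x.out / c ∉ L.lattice := by rwa [div_mem_iff hL hc]
    have h5 := HH_eq hC hu (fun z => cop_notMem hL three_ne hc h3c (z := z) hx')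
    rw [← hwk] at h5
    unfold GG
    linear_combination -((starRingEnd ℂ) (X x.out)) * h5

/-- the trivial character modulo `p` -/
noncomputable def tr (p : eis) (x : eis) : ℂ := by
  classical
  exact if p ∣ x then 0 else 1

lemma tr_dvd {p x : eis} (h : p ∣ x) : tr p x = 0 := by
  unfold tr
  rw [if_pos h]

lemma tr_not {p x : eis} (h : ¬ p ∣ x) : tr p x = 1 := by
  unfold tr
  rw [if_neg h]

lemma tr_mul {p : eis} (hp : Prime p) (x y : eis) : tr p (x * y) = tr p x * tr p y := by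
  by_cases hx : p ∣ x
  · rw [tr_dvd hx, tr_dvd (hx.mul_right y), zero_mul]
  · by_cases hy : p ∣ y
    · rw [tr_dvd hy, tr_dvd (hy.mul_left x), mul_zero]
    · rw [tr_not hx, tr_not hy, tr_not, mul_one]
      intro h
      rcases hp.dvd_or_dvd h with h1 | h1
      · exact hx h1
      · exact hy h1

lemma cop_prime {p x : eis} (hp : Prime p) : IsCoprime x p ↔ ¬ p ∣ x := by
  rw [isCoprime_comm, hp.irreducible.coprime_iff_not_dvd]

lemma xm_tr {p : eis} (hp : Prime p) : Xm p (tr p) := by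
  refine ⟨fun x y h => ?_, fun x y => tr_mul hp x y, fun x h => ?_, fun x h => ?_⟩
  · rw [Ideal.mem_span_singleton] at h
    by_cases hx : p ∣ x
    · rw [tr_dvd hx, tr_dvd ((dvd_sub_right hx).1 h)]
    · rw [tr_not hx, tr_not]
      intro hy
      exact hx ((dvd_sub_left hy).1 h)
  · rw [cop_prime hp, not_not] at h
    exact tr_dvd h
  · rw [tr_not ((cop_prime hp).1 h), norm_one]

/-- the product with the trivial character modulo a new prime -/
lemma xm_mul {c p : eis} (hp : Prime p) {X : eis → ℂ} (hX : Xm c X) :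
    Xm (c * p) (fun α => X α * tr p α) := by
  have ht := xm_tr hp
  refine ⟨fun x y h => ?_, fun x y => ?_, fun x h => ?_, fun x h => ?_⟩
  · rw [Ideal.mem_span_singleton] at h
    show X x * _ = X y * _
    rw [hX.per x y (Ideal.mem_span_singleton.2 ((dvd_mul_right c p).trans h)),
      ht.per x y (Ideal.mem_span_singleton.2 ((dvd_mul_left p c).trans h))]
  · show X (x * y) * _ = _
    rw [hX.mul, ht.mul]
    ring
  · rw [IsCoprime.mul_right_iff, not_and_or] at h
    show X x * tr p x = 0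
    rcases h with h | h
    · rw [hX.zero x h, zero_mul]
    · rw [ht.zero x h, mul_zero]
  · rw [IsCoprime.mul_right_iff] at h
    show ‖X x * tr p x‖ = 1
    rw [norm_mul, hX.nrm x h.1, ht.nrm x h.2, mul_one]

lemma exists_place {p : eis} (hp : Prime p) : ∃ P : HeightOneSpectrum eis, P.asIdeal = sp p :=
  ⟨⟨sp p, (Ideal.span_singleton_prime hp.ne_zero).2 hp, by
    rw [Ne, Ideal.span_singleton_eq_bot]
    exact hp.ne_zero⟩, rfl⟩

/-- **removing an Euler factor** -/
theorem euler_SU (hC : Cur L Ω) {c p : eis} (hc : c ≠ 0) (hcu : ¬ IsUnit c)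
    (h31 : (3 : eis) ∣ c - 1) (hp : Prime p) (hp1 : (3 : eis) ∣ p - 1) (hcp : IsCoprime c p)
    {X : eis → ℂ} (hX : Xm c X) :
    SU L Ω (c * p) (fun α => X α * tr p α) =
      ((p : ℂ) - (starRingEnd ℂ) (X p)) * SU L Ω c X := by
  classical
  have : Finite (eis ⧸ (sp 3 : Ideal eis)) := finite_q three_ne
  have : Fintype (eis ⧸ (sp 3 : Ideal eis)) := Fintype.ofFinite _
  have hL := hC.lat
  have hΩ := hL.ne
  obtain ⟨w, hw⟩ := WW_lim hL
  obtain ⟨hwk, hw0⟩ := w_facts hC hw
  have l1 := lim_SU hC hc hcu h31 hX hw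
  have hcm : CM (fun α : eis => ee psi α * (starRingEnd ℂ) (X α)) := by
    refine ⟨fun x y => ?_, fun x => ?_⟩
    · show ee psi (x * y) * _ = _
      rw [eo.mul, hX.mul, map_mul]
      ring
    · show ‖ee psi x * _‖ ≤ 1
      rw [norm_mul, RCLike.norm_conj]
      exact mul_le_one₀ (eo.bd x) (norm_nonneg _) (hX.bd x)
  obtain ⟨P, hP⟩ := exists_place hp
  set g : HeightOneSpectrum eis → eis := fun Q => if Q = P then p else gP Q with hg
  have hgs : ∀ Q : HeightOneSpectrum eis, Q.asIdeal = sp (g Q) := by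
    intro Q
    rw [hg]
    show _ = sp (if Q = P then p else gP Q)
    by_cases h : Q = P
    · rw [if_pos h, h, hP]
    · rw [if_neg h]
      exact gP_span Q
  have l2 := lim_rmv hL hcm g hgs l1 {P}
  rw [Finset.prod_singleton] at l2
  have hgP : g P = p := if_pos rfl
  rw [hgP] at l2
  have hcp1 : (3 : eis) ∣ c * p - 1 := by
    have : c * p - 1 = (c - 1) * p + (p - 1) := by ring
    rw [this]
    exact dvd_add (h31.mul_right p) hp1
  have hcpu : ¬ IsUnit (c * p) := fun h => hcu (isUnit_of_mul_isUnit_left h)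
  have l3 := lim_SU hC (mul_ne_zero hc hp.ne_zero) hcpu hcp1 (xm_mul hp hX) hw
  have e1 : rmv {P} (fun α : eis => ee psi α * (starRingEnd ℂ) (X α)) =
      (fun α : eis => ee psi α * (starRingEnd ℂ) (X α * tr p α)) := by
    funext α
    unfold rmv
    by_cases h : p ∣ α
    · rw [if_pos ⟨P, Finset.mem_singleton_self P, by
        rw [hP]
        exact Ideal.mem_span_singleton.2 h⟩, tr_dvd h, mul_zero, map_zero, mul_zero]
    · rw [if_neg, tr_not h, mul_one]
      rintro ⟨Q, hQ, hQα⟩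
      rw [Finset.mem_singleton] at hQ
      rw [hQ, hP] at hQα
      exact h (Ideal.mem_span_singleton.1 hQα)
  rw [e1] at l2
  have h4 := tendsto_nhds_unique l3 l2
  have h3p : ¬ p ∣ 3 := fun h => hp.not_isUnit ((cop3_of hp1).isUnit_of_dvd' h dvd_rfl)
  have hX3 : X 3 ≠ 0 := by
    intro h0
    have := hX.nrm 3 (cop3_of h31)
    rw [h0, norm_zero] at this
    norm_num at this
  have hX3' : (starRingEnd ℂ) (X 3) ≠ 0 := (map_ne_zero _).2 hX3
  rw [tr_not h3p, mul_one, ee_one hp1, one_mul] at h4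
  have hc0 := coe_ne hc
  have hp0 := coe_ne hp.ne_zero
  push_cast at h4
  field_simp at h4
  linear_combination h4

/-- the sum for the trivial character -/
theorem SU_tr (hC : Cur L Ω) {p : eis} (hp : Prime p) (hp1 : (3 : eis) ∣ p - 1) :
    SU L Ω p (tr p) = (p : ℂ) - 1 := by
  classical
  have : Finite (eis ⧸ (sp 3 : Ideal eis)) := finite_q three_ne
  have : Fintype (eis ⧸ (sp 3 : Ideal eis)) := Fintype.ofFinite _
  have hL := hC.lat
  have hΩ := hL.ne
  obtain ⟨w, hw⟩ := WW_lim hL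
  obtain ⟨hwk, hw0⟩ := w_facts hC hw
  have l1 := psi_lim hL hw
  have hcm : CM (ee psi) := ⟨eo.mul, eo.bd⟩
  obtain ⟨P, hP⟩ := exists_place hp
  set g : HeightOneSpectrum eis → eis := fun Q => if Q = P then p else gP Q with hg
  have hgs : ∀ Q : HeightOneSpectrum eis, Q.asIdeal = sp (g Q) := by
    intro Q
    rw [hg]
    show _ = sp (if Q = P then p else gP Q)
    by_cases h : Q = P
    · rw [if_pos h, h, hP]
    · rw [if_neg h]
      exact gP_span Q
  have l2 := lim_rmv hL hcm g hgs l1 {P}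
  rw [Finset.prod_singleton] at l2
  have hgP : g P = p := if_pos rfl
  rw [hgP] at l2
  have l3 := lim_SU hC hp.ne_zero hp.not_isUnit hp1 (xm_tr hp) hw
  have e1 : rmv {P} (ee psi) =
      (fun α : eis => ee psi α * (starRingEnd ℂ) (tr p α)) := by
    funext α
    unfold rmv
    by_cases h : p ∣ α
    · rw [if_pos ⟨P, Finset.mem_singleton_self P, by
        rw [hP]
        exact Ideal.mem_span_singleton.2 h⟩, tr_dvd h, map_zero, mul_zero]
    · rw [if_neg, tr_not h, map_one, mul_one]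
      rintro ⟨Q, hQ, hQα⟩
      rw [Finset.mem_singleton] at hQ
      rw [hQ, hP] at hQα
      exact h (Ideal.mem_span_singleton.1 hQα)
  rw [e1] at l2
  have h4 := tendsto_nhds_unique l3 l2
  have h3p : ¬ p ∣ 3 := fun h => hp.not_isUnit ((cop3_of hp1).isUnit_of_dvd' h dvd_rfl)
  have c3 : ((3 : eis) : ℂ) = 3 := rfl
  rw [tr_not h3p, map_one, mul_one, ee_one hp1, c3] at h4
  have hp0 := coe_ne hp.ne_zero
  field_simp at h4
  linear_combination h4

end Pool.Agent.H62
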