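import Mathlib
import Pool.Agent.H62.SB

/-!
# Sums over the classes modulo a product of primes, II: characters
-/

set_option autoImplicit false
set_option linter.unusedSectionVars false
set_option linter.unusedVariables false

open Complex Filter Topology IsDedekindDomain
open scoped PeriodPair

namespace Pool.Agent.H62

open H667R3 Pool.Agent.W192.HK Pool.Agent.TH936.CM Pool.Agent.TH936.PU
open Pool.Agent.W192.CM (nu)
open Pool.Agent.Y696
open Pool.Agent.Y715.T.Three Pool.Agent.Y715.T.Lat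
open Pool.Agent.Y715.T.LF (rd rd_eq_zero)
open Pool.Agent.Y715.T.Cg (sum_tri)

variable {L : PeriodPair} {Ω : ℂ} {Γ : Type*} [LinearOrderedCommGroupWithZero Γ]
  {v : Valuation ℂ Γ}

/-! ### numbers near one -/

/-- a root of unity which is near to one -/
structure Nr (v : Valuation ℂ Γ) (g : Γ) (z : ℂ) : Prop where
  nrm : ‖z‖ = 1
  val : v z = 1
  near : v (1 - z) ≤ g

lemma Nr.one {g : Γ} : Nr v g 1 := ⟨norm_one, v.map_one, by rw [sub_self, map_zero]; exact zero_le⟩

lemma Nr.mul {g : Γ} {a b : ℂ} (ha : Nr v g a) (hb : Nr v g b) : Nr v g (a * b) := by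
  refine ⟨by rw [norm_mul, ha.nrm, hb.nrm, mul_one], by rw [map_mul, ha.val, hb.val, mul_one], ?_⟩
  have e : 1 - a * b = (1 - a) + a * (1 - b) := by ring
  rw [e]
  refine (v.map_add _ _).trans (max_le ha.near ?_)
  rw [map_mul, ha.val, one_mul]
  exact hb.near

lemma Nr.pow {g : Γ} {a : ℂ} (ha : Nr v g a) (n : ℕ) : Nr v g (a ^ n) := by
  induction n with
  | zero => rw [pow_zero]; exact Nr.one
  | succ n ih => rw [pow_succ]; exact ih.mul ha

lemma conj_eq_inv {a : ℂ} (h : ‖a‖ = 1) : (starRingEnd ℂ) a = a⁻¹ := by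
  have h1 := Complex.mul_conj' a
  rw [h] at h1
  exact eq_inv_of_mul_eq_one_right (by rw [h1]; norm_num)

lemma Nr.conj {g : Γ} {a : ℂ} (ha : Nr v g a) : Nr v g ((starRingEnd ℂ) a) := by
  have ha0 : a ≠ 0 := by
    intro h0
    have := ha.nrm
    rw [h0, norm_zero] at this
    norm_num at this
  rw [conj_eq_inv ha.nrm]
  refine ⟨by rw [norm_inv, ha.nrm, inv_one], by rw [map_inv₀, ha.val, inv_one], ?_⟩
  have e : 1 - a⁻¹ = -(1 - a) / a := by
    field_simp
    ring
  rw [e, map_div₀, v.map_neg, ha.val, div_one]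
  exact ha.near

lemma Nr.prod {g : Γ} {ι : Type*} (s : Finset ι) (z : ι → ℂ) (h : ∀ i ∈ s, Nr v g (z i)) :
    Nr v g (∏ i ∈ s, z i) := by
  classical
  induction s using Finset.induction_on with
  | empty => rw [Finset.prod_empty]; exact Nr.one
  | insert a s ha ih =>
    rw [Finset.prod_insert ha]
    exact (h a (Finset.mem_insert_self a s)).mul (ih fun i hi => h i (Finset.mem_insert_of_mem hi))

/-! ### families of characters -/

/-- a character modulo the prime `p`, with values near to one -/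
structure Ch (v : Valuation ℂ Γ) (g : Γ) (p : eis) (χ : eis → ℂ) : Prop where
  per : ∀ x y, x - y ∈ (sp p : Ideal eis) → χ x = χ y
  mul : ∀ x y, χ (x * y) = χ x * χ y
  zero : ∀ x, p ∣ x → χ x = 0
  nr : ∀ x, ¬ p ∣ x → Nr v g (χ x)

lemma Ch.pow {g : Γ} {p : eis} {χ : eis → ℂ} (h : Ch v g p χ) {n : ℕ} (hn : n ≠ 0) :
    Ch v g p (fun x => χ x ^ n) := by
  refine ⟨fun x y hxy => ?_, fun x y => ?_, fun x hx => ?_, fun x hx => ?_⟩
  · show _ ^ n = _ ^ n
    rw [h.per x y hxy]
  · show _ ^ n = _ ^ n * _ ^ n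
    rw [h.mul, mul_pow]
  · show _ ^ n = _
    rw [h.zero x hx, zero_pow hn]
  · exact (h.nr x hx).pow n

lemma ch_tr {g : Γ} {p : eis} (hp : Prime p) : Ch v g p (tr p) := by
  have h := xm_tr hp
  refine ⟨h.per, h.mul, fun x hx => tr_dvd hx, fun x hx => ?_⟩
  rw [tr_not hx]
  exact Nr.one

/-- the product of the characters -/
noncomputable def XP (P : Finset eis) (χ : eis → eis → ℂ) (x : eis) : ℂ := ∏ p ∈ P, χ p x

/-- the product of the primes -/
noncomputable def cP (P : Finset eis) : eis := ∏ p ∈ P, p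

/-- a finite set of primes `≡ 1` modulo three -/
structure Pr3 (P : Finset eis) : Prop where
  prime : ∀ p ∈ P, Prime p
  one : ∀ p ∈ P, (3 : eis) ∣ p - 1
  cop : ∀ p ∈ P, ∀ q ∈ P, p ≠ q → IsCoprime p q

/-- a family of characters modulo the primes of `P`; the product is one at `ω` -/
structure Fam (v : Valuation ℂ Γ) (g : Γ) (P : Finset eis) (χ : eis → eis → ℂ) : Prop
    extends Pr3 P where
  ch : ∀ p ∈ P, Ch v g p (χ p)
  om : XP P χ omr = 1

lemma Pr3.mono {P Q : Finset eis} (h : Pr3 P) (hQ : Q ⊆ P) : Pr3 Q :=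
  ⟨fun p hp => h.prime p (hQ hp), fun p hp => h.one p (hQ hp),
    fun p hp q hq => h.cop p (hQ hp) q (hQ hq)⟩

lemma Pr3.ne {P : Finset eis} (h : Pr3 P) : cP P ≠ 0 :=
  Finset.prod_ne_zero_iff.2 fun p hp => (h.prime p hp).ne_zero

lemma Pr3.not_unit {P : Finset eis} (h : Pr3 P) (hP : P.Nonempty) : ¬ IsUnit (cP P) := by
  obtain ⟨p, hp⟩ := hP
  intro hu
  exact (h.prime p hp).not_isUnit (isUnit_of_dvd_unit (Finset.dvd_prod_of_mem _ hp) hu)

lemma Pr3.three {P : Finset eis} (h : Pr3 P) : (3 : eis) ∣ cP P - 1 := by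
  unfold cP
  refine Finset.prod_induction _ (fun x : eis => (3 : eis) ∣ x - 1) ?_ ?_ h.one
  · intro a b ha hb
    have : a * b - 1 = (a - 1) * b + (b - 1) := by ring
    rw [this]
    exact dvd_add (ha.mul_right b) hb
  · rw [sub_self]
    exact dvd_zero _

lemma cop_cP {P : Finset eis} (h : Pr3 P) {x : eis} :
    IsCoprime x (cP P) ↔ ∀ p ∈ P, ¬ p ∣ x := by
  unfold cP
  rw [IsCoprime.prod_right_iff]
  exact ⟨fun H p hp => (cop_prime (h.prime p hp)).1 (H p hp),
    fun H p hp => (cop_prime (h.prime p hp)).2 (H p hp)⟩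

lemma Fam.xm {g : Γ} {P : Finset eis} {χ : eis → eis → ℂ} (h : Fam v g P χ) :
    Xm (cP P) (XP P χ) := by
  refine ⟨fun x y hxy => ?_, fun x y => ?_, fun x hx => ?_, fun x hx => ?_⟩
  · refine Finset.prod_congr rfl fun p hp => (h.ch p hp).per x y ?_
    rw [Ideal.mem_span_singleton] at hxy ⊢
    exact (Finset.dvd_prod_of_mem _ hp).trans hxy
  · unfold XP
    rw [← Finset.prod_mul_distrib]
    exact Finset.prod_congr rfl fun p hp => (h.ch p hp).mul x y
  · rw [cop_cP h.toPr3] at hx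
    push Not at hx
    obtain ⟨p, hp, hpx⟩ := hx
    exact Finset.prod_eq_zero hp ((h.ch p hp).zero x hpx)
  · rw [cop_cP h.toPr3] at hx
    exact (Nr.prod P (fun p => χ p x) fun p hp => (h.ch p hp).nr x (hx p hp)).nrm

lemma Fam.nr {g : Γ} {P : Finset eis} {χ : eis → eis → ℂ} (h : Fam v g P χ) {x : eis}
    (hx : IsCoprime x (cP P)) : Nr v g (XP P χ x) := by
  rw [cop_cP h.toPr3] at hx
  exact Nr.prod P (fun p => χ p x) fun p hp => (h.ch p hp).nr x (hx p hp)

/-! ### sums of characters -/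

lemma Xm.out {c : eis} {X : eis → ℂ} (h : Xm c X) (a : eis) :
    X (Ideal.Quotient.mk (sp c : Ideal eis) a).out = X a := by
  apply h.per
  rw [← Ideal.Quotient.mk_eq_mk_iff_sub_mem, Ideal.Quotient.mk_out]

lemma Xm.sum_zero {c : eis} [Fintype (eis ⧸ (sp c : Ideal eis))] {X : eis → ℂ} (h : Xm c X)
    {u : eis} (hu : IsCoprime u c) (hXu : X u ≠ 1) :
    ∑ x : eis ⧸ (sp c : Ideal eis), X x.out = 0 := by
  have hU : IsUnit (Ideal.Quotient.mk (sp c : Ideal eis) u) := (unit_iff u).2 hu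
  have h1 : ∑ x : eis ⧸ (sp c : Ideal eis), X x.out =
      X u * ∑ x : eis ⧸ (sp c : Ideal eis), X x.out := by
    rw [Finset.mul_sum]
    refine (Fintype.sum_bijective (fun x => Ideal.Quotient.mk (sp c : Ideal eis) u * x)
      (IsUnit.isUnit_iff_mulLeft_bijective.1 hU) _ _ fun x => ?_).symm
    rw [← h.mul]
    apply h.per
    rw [← Ideal.Quotient.mk_eq_mk_iff_sub_mem, Ideal.Quotient.mk_out, map_mul,
      Ideal.Quotient.mk_out]
  have h2 : (X u - 1) * ∑ x : eis ⧸ (sp c : Ideal eis), X x.out = 0 := by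
    linear_combination -h1
  exact (mul_eq_zero.1 h2).resolve_left (sub_ne_zero.2 hXu)

lemma Xm.sum_card {c : eis} [Fintype (eis ⧸ (sp c : Ideal eis))] {X : eis → ℂ} (h : Xm c X)
    (hX : ∀ u, IsCoprime u c → X u = 1) :
    ∑ x : eis ⧸ (sp c : Ideal eis), X x.out = (Nat.card (eis ⧸ (sp c : Ideal eis))ˣ : ℂ) := by
  classical
  have h1 : ∀ x : eis ⧸ (sp c : Ideal eis), X x.out = if IsUnit x then 1 else 0 := by
    intro x
    have e : IsUnit x ↔ IsCoprime x.out c := by
      rw [← unit_iff, Ideal.Quotient.mk_out]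
    by_cases hx : IsUnit x
    · rw [if_pos hx, hX _ (e.1 hx)]
    · rw [if_neg hx, h.zero _ (fun h' => hx (e.2 h'))]
  rw [Finset.sum_congr rfl fun x _ => h1 x, Finset.sum_ite, Finset.sum_const_zero, add_zero,
    Finset.sum_const, nsmul_eq_mul, mul_one, Nat.card_eq_fintype_card]
  congr 1
  rw [← Fintype.card_subtype]
  exact Fintype.card_congr
    { toFun := fun x => x.2.unit
      invFun := fun u => ⟨u, u.isUnit⟩
      left_inv := fun x => by simp
      right_inv := fun u => by ext; simp }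

/-- the norm of a prime `≡ 1` modulo three -/
lemma card_three {p : eis} (hp1 : (3 : eis) ∣ p - 1) : ∃ m : ℤ,
    ((Nat.card (eis ⧸ (sp p : Ideal eis)) : ℕ) : ℤ) = 1 + 3 * m := by
  obtain ⟨x, hx⟩ := hp1
  have hcx : p = 1 + 3 * x := by linear_combination hx
  obtain ⟨a, b, rfl⟩ := ez_ex x
  refine ⟨2 * a - b + 3 * (a ^ 2 - a * b + b ^ 2), ?_⟩
  have h2 := nm_sp p
  have h4 : (p : ℂ) = ((1 + 3 * a : ℤ) : ℂ) + ((3 * b : ℤ) : ℂ) * om := by
    rw [hcx]
    have c3 : ((3 : eis) : ℂ) = 3 := rfl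
    push_cast
    rw [ez_coe, c3]
    ring
  rw [h4, norm_rep] at h2
  unfold nm at h2
  have h5 : ((Nat.card (eis ⧸ (sp p : Ideal eis)) : ℕ) : ℤ) =
      (1 + 3 * a) ^ 2 - (1 + 3 * a) * (3 * b) + (3 * b) ^ 2 := by exact_mod_cast h2
  rw [h5]
  ring

lemma card_prime_units {p : eis} (hp : Prime p) : ((Nat.card (eis ⧸ (sp p : Ideal eis))ˣ : ℕ) : ℤ) =
    ((Nat.card (eis ⧸ (sp p : Ideal eis)) : ℕ) : ℤ) - 1 := by
  have hmax : (sp p : Ideal eis).IsMaximal :=
    PrincipalIdealRing.isMaximal_of_irreducible hp.irreducible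
  let _ : Field (eis ⧸ (sp p : Ideal eis)) := Ideal.Quotient.field _
  have hfin : Finite (eis ⧸ (sp p : Ideal eis)) := finite_q hp.ne_zero
  rw [Nat.card_units]
  have : 0 < Nat.card (eis ⧸ (sp p : Ideal eis)) := Nat.card_pos
  omega

lemma v_card_units (hv : v 3 < 1) {P : Finset eis} (h : Pr3 P) :
    v (Nat.card (eis ⧸ (sp (cP P) : Ideal eis))ˣ : ℂ) ≤ v 3 ^ P.card := by
  classical
  induction P using Finset.induction_on with
  | empty =>
    have h1 : (sp (cP ∅) : Ideal eis) = ⊤ := by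
      unfold cP
      rw [Finset.prod_empty]
      exact Ideal.span_singleton_one
    have h2 : Nat.card (eis ⧸ (sp (cP ∅) : Ideal eis))ˣ = 1 := by
      rw [h1]
      have : Subsingleton (eis ⧸ (⊤ : Ideal eis)) := Ideal.Quotient.subsingleton_iff.2 rfl
      have : Subsingleton (eis ⧸ (⊤ : Ideal eis))ˣ := inferInstance
      exact Nat.card_unique
    rw [h2, Nat.cast_one, map_one, Finset.card_empty, pow_zero]
  | insert p P hp ih =>
    have hP : Pr3 P := h.mono (Finset.subset_insert p P)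
    have e1 : cP (insert p P) = p * cP P := Finset.prod_insert hp
    have hcop : IsCoprime (sp p : Ideal eis) (sp (cP P) : Ideal eis) := by
      rw [Ideal.isCoprime_span_singleton_iff]
      unfold cP
      exact IsCoprime.prod_right fun q hq => h.cop p (Finset.mem_insert_self p P) q
        (Finset.mem_insert_of_mem hq) (fun h => hp (h ▸ hq))
    have e2 : (sp (cP (insert p P)) : Ideal eis) = sp p * sp (cP P) := by
      rw [e1, Ideal.span_singleton_mul_span_singleton]
    have e3 : Nat.card (eis ⧸ (sp (cP (insert p P)) : Ideal eis))ˣ =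
        Nat.card (eis ⧸ (sp p : Ideal eis))ˣ * Nat.card (eis ⧸ (sp (cP P) : Ideal eis))ˣ := by
      rw [e2, ← Nat.card_prod]
      exact Nat.card_congr ((Units.mapEquiv
        (Ideal.quotientMulEquivQuotientProd _ _ hcop).toMulEquiv).trans
          MulEquiv.prodUnits).toEquiv
    obtain ⟨m, hm⟩ := card_three (h.one p (Finset.mem_insert_self p P))
    have e4 := card_prime_units (h.prime p (Finset.mem_insert_self p P))
    have e5 : (Nat.card (eis ⧸ (sp p : Ideal eis))ˣ : ℂ) = 3 * (m : ℂ) := by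
      have e6 : ((Nat.card (eis ⧸ (sp p : Ideal eis))ˣ : ℕ) : ℤ) = 3 * m := by
        rw [e4, hm]
        ring
      have := congrArg (fun t : ℤ => (t : ℂ)) e6
      push_cast at this
      exact this
    rw [e3, Finset.card_insert_of_notMem hp, pow_succ, mul_comm (v 3 ^ P.card)]
    push_cast
    rw [map_mul, e5, map_mul]
    exact mul_le_mul' ((mul_le_mul' le_rfl (v_int m)).trans (mul_one _).le) (ih hP)

/-- a product of two primes does not divide two -/
lemma not_dvd_two {P : Finset eis} (h : Pr3 P) (hP : 2 ≤ P.card) : ¬ cP P ∣ 2 := by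
  classical
  intro hd
  obtain ⟨p, hp, q, hq, hpq⟩ := Finset.one_lt_card.1 (by omega : 1 < P.card)
  have h1 : p * q ∣ 2 := by
    refine (IsCoprime.mul_dvd (h.cop p hp q hq hpq) ?_ ?_).trans hd
    · exact Finset.dvd_prod_of_mem _ hp
    · exact Finset.dvd_prod_of_mem _ hq
  obtain ⟨t, ht⟩ := h1
  have hnm : ∀ x : eis, ((Nat.card (eis ⧸ (sp x : Ideal eis)) : ℕ) : ℝ) = Complex.normSq (x : ℂ) :=
    (lbasic eis om qr).2.2.2.2.1
  have h2 : Complex.normSq ((2 : eis) : ℂ) = 4 := by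
    have : ((2 : eis) : ℂ) = 2 := rfl
    rw [this]
    norm_num
  have h3 : Complex.normSq ((2 : eis) : ℂ) =
      Complex.normSq (p : ℂ) * Complex.normSq (q : ℂ) * Complex.normSq (t : ℂ) := by
    rw [← Complex.normSq_mul, ← Complex.normSq_mul, ht]
    push_cast
    rfl
  rw [h2, ← hnm p, ← hnm q, ← hnm t] at h3
  have h4 : Nat.card (eis ⧸ (sp p : Ideal eis)) * Nat.card (eis ⧸ (sp q : Ideal eis)) *
      Nat.card (eis ⧸ (sp t : Ideal eis)) = 4 := by
    exact_mod_cast h3.symm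
  have hP3 := h.prime
  have key : ∀ x ∈ P, 4 ≤ Nat.card (eis ⧸ (sp x : Ideal eis)) := by
    intro x hx
    obtain ⟨m, hm⟩ := card_three (h.one x hx)
    have hfin : Finite (eis ⧸ (sp x : Ideal eis)) := finite_q (h.prime x hx).ne_zero
    have h5 : 0 < Nat.card (eis ⧸ (sp x : Ideal eis)) := Nat.card_pos
    have h6 : Nat.card (eis ⧸ (sp x : Ideal eis)) ≠ 1 := by
      intro h
      have h8 : (sp x : Ideal eis) = ⊤ := by
        have := (Nat.card_eq_one_iff_unique.1 h).1
        exact Ideal.Quotient.subsingleton_iff.1 this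
      exact (hP3 x hx).not_isUnit (Ideal.span_singleton_eq_top.1 h8)
    omega
  have h7 := key p hp
  have h8 := key q hq
  have h9 : Nat.card (eis ⧸ (sp t : Ideal eis)) ≠ 0 := by
    intro h0
    rw [h0, mul_zero] at h4
    norm_num at h4
  nlinarith [Nat.pos_of_ne_zero h9, Nat.mul_le_mul h7 h8]

end Pool.Agent.H62
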