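import Mathlib
import Pool.Agent.H62.SB2

/-!
# Sums over the classes modulo a product of primes, III: the bound
-/

set_option autoImplicit false
set_option linter.unusedSectionVars false
set_option linter.unusedVariables false

open Complex Filter Topology IsDedekindDomain
open scoped PeriodPair

namespace Pool.Agent.H62

open H667R3 Pool.Agent.W192.HK Pool.Agent.TH936.CM Pool.Agent.TH936.PU
open Pool.Agent.W192.CM (nu)
open Pool.Agent.Y696
open Pool.Agent.Y715.T.Three Pool.Agent.Y715.T.Lat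
open Pool.Agent.Y715.T.LF (rd rd_eq_zero)
open Pool.Agent.Y715.T.Cg (sum_tri)

variable {L : PeriodPair} {Ω : ℂ} {Γ : Type*} [LinearOrderedCommGroupWithZero Γ]
  {v : Valuation ℂ Γ} {g : Γ} {P : Finset eis} {χ : eis → eis → ℂ} {p₀ : eis} {b : eis → ℕ}

/-- the change at `q` -/
noncomputable def TT (χ : eis → eis → ℂ) (p₀ : eis) (b : eis → ℕ) (q x : eis) : ℂ :=
  (starRingEnd ℂ) (χ q x) * χ p₀ x ^ b q

/-- the family with trivial characters on `J` -/
noncomputable def fam (χ : eis → eis → ℂ) (p₀ : eis) (b : eis → ℕ) (J : Finset eis) (q x : eis) : ℂ := by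
  classical
  exact if q ∈ J then tr q x else if q = p₀ then χ p₀ x ^ (1 + ∑ j ∈ J, b j) else χ q x

lemma om_not {p : eis} (hp : Prime p) : ¬ p ∣ omr := fun h =>
  hp.not_isUnit (isUnit_of_dvd_unit h omr_unit)

lemma TT_om (h : Fam v g P χ) (hp₀ : p₀ ∈ P) {q : eis} (hq : q ∈ P)
    (hb : χ q omr = χ p₀ omr ^ b q) : TT χ p₀ b q omr = 1 := by
  unfold TT
  rw [← hb]
  have h1 := ((h.ch q hq).nr omr (om_not (h.prime q hq))).nrm
  rw [mul_comm, Complex.mul_conj', h1]
  norm_num

lemma TT_nr (h : Fam v g P χ) (hp₀ : p₀ ∈ P) {q : eis} (hq : q ∈ P) {x : eis}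
    (hx : IsCoprime x (cP P)) : Nr v g (TT χ p₀ b q x) := by
  rw [cop_cP h.toPr3] at hx
  exact ((h.ch q hq).nr x (hx q hq)).conj.mul (((h.ch p₀ hp₀).nr x (hx p₀ hp₀)).pow _)

/-- the product of the new family -/
lemma XP_fam [DecidableEq eis] (h : Fam v g P χ) (hp₀ : p₀ ∈ P) {J : Finset eis}
    (hJ : J ⊆ P.erase p₀) (x : eis) :
    XP P (fam χ p₀ b J) x = XP P χ x * ∏ q ∈ J, TT χ p₀ b q x := by
  have hp₀J : p₀ ∉ J := fun hh => (Finset.mem_erase.1 (hJ hh)).1 rfl
  by_cases hx : IsCoprime x (cP P)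
  · rw [cop_cP h.toPr3] at hx
    set r : eis → ℂ := fun q => if q ∈ J then (starRingEnd ℂ) (χ q x) else
      if q = p₀ then χ p₀ x ^ (∑ j ∈ J, b j) else 1 with hr
    have h1 : ∀ q ∈ P, fam χ p₀ b J q x = χ q x * r q := by
      intro q hq
      unfold fam
      rw [hr]
      simp only
      by_cases hqJ : q ∈ J
      · rw [if_pos hqJ, if_pos hqJ, tr_not (hx q hq), Complex.mul_conj',
          ((h.ch q hq).nr x (hx q hq)).nrm]
        norm_num
      · rw [if_neg hqJ, if_neg hqJ]
        by_cases hqp : q = p₀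
        · rw [if_pos hqp, if_pos hqp, hqp, pow_add, pow_one]
        · rw [if_neg hqp, if_neg hqp, mul_one]
    have h2 : XP P (fam χ p₀ b J) x = XP P χ x * ∏ q ∈ P, r q := by
      unfold XP
      rw [← Finset.prod_mul_distrib]
      exact Finset.prod_congr rfl h1
    have h3 : ∏ q ∈ P, r q = χ p₀ x ^ (∑ j ∈ J, b j) * ∏ q ∈ J, (starRingEnd ℂ) (χ q x) := by
      rw [← Finset.mul_prod_erase P r hp₀]
      have e1 : r p₀ = χ p₀ x ^ (∑ j ∈ J, b j) := by
        rw [hr]
        simp only
        rw [if_neg hp₀J, if_pos trivial]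
      rw [e1]
      congr 1
      rw [← Finset.prod_subset hJ]
      · refine Finset.prod_congr rfl fun q hq => ?_
        rw [hr]
        simp only
        rw [if_pos hq]
      · intro q hq hqJ
        rw [hr]
        simp only
        rw [if_neg hqJ, if_neg (Finset.mem_erase.1 hq).1]
    have h4 : ∏ q ∈ J, TT χ p₀ b q x =
        χ p₀ x ^ (∑ j ∈ J, b j) * ∏ q ∈ J, (starRingEnd ℂ) (χ q x) := by
      unfold TT
      rw [Finset.prod_mul_distrib, Finset.prod_pow_eq_pow_sum, mul_comm]
    rw [h2, h3, h4]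
  · rw [h.xm.zero x hx, zero_mul]
    rw [cop_cP h.toPr3] at hx
    push Not at hx
    obtain ⟨p, hp, hpx⟩ := hx
    refine Finset.prod_eq_zero hp ?_
    unfold fam
    by_cases hqJ : p ∈ J
    · rw [if_pos hqJ, tr_dvd hpx]
    · rw [if_neg hqJ]
      by_cases hqp : p = p₀
      · rw [if_pos hqp]
        have : χ p₀ x = 0 := (h.ch p₀ hp₀).zero x (hqp ▸ hpx)
        rw [this, zero_pow]
        omega
      · rw [if_neg hqp]
        exact (h.ch p hp).zero x hpx

lemma fam_fam [DecidableEq eis] (h : Fam v g P χ) (hp₀ : p₀ ∈ P) {J : Finset eis}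
    (hJ : J ⊆ P.erase p₀) (hb : ∀ q ∈ P.erase p₀, χ q omr = χ p₀ omr ^ b q) :
    Fam v g P (fam χ p₀ b J) := by
  refine { toPr3 := h.toPr3, ch := fun q hq => ?_, om := ?_ }
  · by_cases hqJ : q ∈ J
    · have : fam χ p₀ b J q = tr q := by
        funext x
        unfold fam
        rw [if_pos hqJ]
      rw [this]
      exact ch_tr (h.prime q hq)
    · by_cases hqp : q = p₀
      · have : fam χ p₀ b J q = fun x => χ p₀ x ^ (1 + ∑ j ∈ J, b j) := by
          funext x
          unfold fam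
          rw [if_neg hqJ, if_pos hqp]
        rw [this, hqp]
        exact (h.ch p₀ hp₀).pow (by omega)
      · have : fam χ p₀ b J q = χ q := by
          funext x
          unfold fam
          rw [if_neg hqJ, if_neg hqp]
        rw [this]
        exact h.ch q hq
  · rw [XP_fam h hp₀ hJ, h.om, one_mul]
    exact Finset.prod_eq_one fun q hq => TT_om h hp₀ (Finset.mem_erase.1 (hJ hq)).2 (hb q (hJ hq))

/-- the expansion -/
lemma expand [DecidableEq eis] (h : Fam v g P χ) (hp₀ : p₀ ∈ P) (x : eis) :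
    XP P χ x * ∏ q ∈ P.erase p₀, (1 - TT χ p₀ b q x) =
      ∑ J ∈ (P.erase p₀).powerset, (-1) ^ J.card * XP P (fam χ p₀ b J) x := by
  have h1 : ∏ q ∈ P.erase p₀, (1 - TT χ p₀ b q x) =
      ∑ J ∈ (P.erase p₀).powerset, (-1) ^ J.card * ∏ q ∈ J, TT χ p₀ b q x := by
    have e1 : ∏ q ∈ P.erase p₀, (1 - TT χ p₀ b q x) =
        ∏ q ∈ P.erase p₀, (-TT χ p₀ b q x + 1) :=
      Finset.prod_congr rfl fun q _ => by ring
    rw [e1, Finset.prod_add]
    refine Finset.sum_congr rfl fun J _ => ?_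
    rw [Finset.prod_const_one, mul_one, Finset.prod_neg]
  rw [h1, Finset.mul_sum]
  refine Finset.sum_congr rfl fun J hJ => ?_
  rw [XP_fam h hp₀ (Finset.mem_powerset.1 hJ)]
  ring

/-- the function of the alternating sum -/
noncomputable def DD [DecidableEq eis] (P : Finset eis) (χ : eis → eis → ℂ) (p₀ : eis)
    (b : eis → ℕ) (x : eis) : ℂ :=
  XP P χ x * ∏ q ∈ P.erase p₀, (1 - TT χ p₀ b q x)

lemma SU_DD [DecidableEq eis] (h : Fam v g P χ) (hp₀ : p₀ ∈ P) :
    SU L Ω (cP P) (DD P χ p₀ b) =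
      ∑ J ∈ (P.erase p₀).powerset, (-1) ^ J.card * SU L Ω (cP P) (XP P (fam χ p₀ b J)) := by
  have : Finite (eis ⧸ (sp (cP P) : Ideal eis)) := finite_q h.toPr3.ne
  have : Fintype (eis ⧸ (sp (cP P) : Ideal eis)) := Fintype.ofFinite _
  rw [SU_eq]
  simp only [SU_eq, Finset.mul_sum]
  rw [Finset.sum_comm]
  refine Finset.sum_congr rfl fun x _ => ?_
  unfold DD
  rw [expand h hp₀, map_sum, Finset.sum_mul]
  refine Finset.sum_congr rfl fun J _ => ?_
  rw [map_mul, map_pow, map_neg, map_one]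
  ring

lemma DD_per [DecidableEq eis] (h : Fam v g P χ) (hp₀ : p₀ ∈ P) {x y : eis}
    (hxy : x - y ∈ (sp (cP P) : Ideal eis)) : DD P χ p₀ b x = DD P χ p₀ b y := by
  have h1 : ∀ q ∈ P, χ q x = χ q y := fun q hq => (h.ch q hq).per x y (by
    rw [Ideal.mem_span_singleton] at hxy ⊢
    exact (Finset.dvd_prod_of_mem _ hq).trans hxy)
  unfold DD
  rw [h.xm.per x y hxy]
  congr 1
  refine Finset.prod_congr rfl fun q hq => ?_
  unfold TT
  rw [h1 q (Finset.mem_erase.1 hq).2, h1 p₀ hp₀]

lemma DD_om [DecidableEq eis] (h : Fam v g P χ) (hp₀ : p₀ ∈ P)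
    (hb : ∀ q ∈ P.erase p₀, χ q omr = χ p₀ omr ^ b q) (x : eis) :
    DD P χ p₀ b (omr * x) = DD P χ p₀ b x := by
  unfold DD
  rw [h.xm.mul, h.om, one_mul]
  congr 1
  refine Finset.prod_congr rfl fun q hq => ?_
  have hqP := (Finset.mem_erase.1 hq).2
  have h1 := TT_om h hp₀ hqP (hb q hq)
  have h2 : TT χ p₀ b q (omr * x) = TT χ p₀ b q omr * TT χ p₀ b q x := by
    unfold TT
    rw [(h.ch q hqP).mul, (h.ch p₀ hp₀).mul, map_mul, mul_pow]
    ring
  rw [h2, h1, one_mul]

lemma v_DD [DecidableEq eis] (h : Fam v g P χ) (hp₀ : p₀ ∈ P) {x : eis}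
    (hx : IsCoprime x (cP P)) : v (DD P χ p₀ b x) ≤ g ^ (P.card - 1) := by
  unfold DD
  rw [map_mul, (h.nr hx).val, one_mul, map_prod, ← Finset.card_erase_of_mem hp₀]
  refine Finset.prod_le_pow_card _ _ _ fun q hq => ?_
  exact (TT_nr h hp₀ (Finset.mem_erase.1 hq).2 hx).near

/-- **the bound for the alternating sum** -/
theorem v_SU_DD [DecidableEq eis] (hC : Cur L Ω) (hv : v 3 < 1) (hgl : v lam ≤ g)
    (h : Fam v g P χ) (hp₀ : p₀ ∈ P) (hb : ∀ q ∈ P.erase p₀, χ q omr = χ p₀ omr ^ b q)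
    {k : ℕ} (hk : P.card = k + 1) (hc2 : ¬ cP P ∣ 2)
    (h0 : k = 0 → ∃ x, ¬ p₀ ∣ x ∧ χ p₀ x ≠ 1) :
    v (SU L Ω (cP P) (DD P χ p₀ b)) ≤ v 3 * v lam * g ^ k := by
  have hfin : ∀ q : eis, q ≠ 0 → Finite (eis ⧸ (sp q : Ideal eis)) := fun q hq => finite_q hq
  have hc := h.toPr3.ne
  have : Finite (eis ⧸ (sp (cP P) : Ideal eis)) := finite_q hc
  have : Fintype (eis ⧸ (sp (cP P) : Ideal eis)) := Fintype.ofFinite _
  have hL := hC.lat
  have hne : P.Nonempty := ⟨p₀, hp₀⟩
  have hcu := h.toPr3.not_unit hne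
  have h3c := cop3_of h.toPr3.three
  have hct : (sp (cP P) : Ideal eis) ≠ ⊤ := fun hh => hcu (Ideal.span_singleton_eq_top.1 hh)
  have hnt : Nontrivial (eis ⧸ (sp (cP P) : Ideal eis)) := Ideal.Quotient.nontrivial_iff.2 hct
  have hD := dat' hC hc hc2 h3c hct hfin
  set c := cP P with hcdef
  rw [SU_eq]
  have e1 : ∑ x : eis ⧸ (sp c : Ideal eis), (starRingEnd ℂ) (DD P χ p₀ b x.out) * GG L Ω c x =
      ∑ x : eis ⧸ (sp c : Ideal eis), (starRingEnd ℂ) (DD P χ p₀ b x.out) * (GG L Ω c x + 1) -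
        ∑ x : eis ⧸ (sp c : Ideal eis), (starRingEnd ℂ) (DD P χ p₀ b x.out) := by
    rw [← Finset.sum_sub_distrib]
    exact Finset.sum_congr rfl fun x _ => by ring
  rw [e1]
  refine (v.map_sub _ _).trans (max_le ?_ ?_)
  · -- orbits
    set W : eis ⧸ (sp c : Ideal eis) → ℂ := fun x =>
      (starRingEnd ℂ) (DD P χ p₀ b x.out) * (GG L Ω c x + 1) with hW
    have hWv : ∀ x, v (W x) ≤ g ^ k * v lam := by
      intro x
      by_cases hx : IsUnit x
      · have h3 : IsCoprime x.out c := by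
          rw [← unit_iff, Ideal.Quotient.mk_out]
          exact hx
        have h4 : v (GG L Ω c x + 1) ≤ v lam := FF_one hv (X_le hv hD ⟨x.out, h3⟩)
        rw [hW]
        show v (_ * _) ≤ _
        rw [map_mul]
        refine mul_le_mul' ?_ h4
        -- the conjugate
        have e2 : (starRingEnd ℂ) (DD P χ p₀ b x.out) =
            (starRingEnd ℂ) (XP P χ x.out) *
              ∏ q ∈ P.erase p₀, (1 - (starRingEnd ℂ) (TT χ p₀ b q x.out)) := by
          unfold DD
          rw [map_mul, map_prod]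
          congr 1
          refine Finset.prod_congr rfl fun q _ => ?_
          rw [map_sub, map_one]
        rw [e2, map_mul, (h.nr h3).conj.val, one_mul, map_prod]
        have e3 : k = (P.erase p₀).card := by
          rw [Finset.card_erase_of_mem hp₀]
          omega
        rw [e3]
        refine Finset.prod_le_pow_card _ _ _ fun q hq => ?_
        exact (TT_nr h hp₀ (Finset.mem_erase.1 hq).2 h3).conj.near
      · have h3 : ¬ IsCoprime x.out c := by
          rw [← unit_iff, Ideal.Quotient.mk_out]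
          exact hx
        rw [hW]
        show v (_ * _) ≤ _
        unfold DD
        rw [h.xm.zero _ h3, zero_mul, map_zero, zero_mul, map_zero]
        exact zero_le
    have h5 := sum_tri (v := v) (A := eis ⧸ (sp c : Ideal eis))
      (u := Ideal.Quotient.mk (sp c) omr) (W := W) (g := g ^ k * v lam) ?_ ?_ ?_ ?_ hWv
    · refine h5.trans (le_of_eq ?_)
      rw [mul_assoc, mul_comm (g ^ k)]
    · rw [← map_pow, ← map_add, ← map_one (Ideal.Quotient.mk (sp c)), ← map_add, omr_sq,
        map_zero]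
    · obtain ⟨s, t, hst⟩ := h3c
      refine IsUnit.of_mul_eq_one (Ideal.Quotient.mk (sp c) s) ?_
      have e3 : (3 : eis ⧸ (sp c : Ideal eis)) = Ideal.Quotient.mk (sp c) 3 := (map_ofNat _ 3).symm
      rw [e3, ← map_mul, ← map_one (Ideal.Quotient.mk (sp c)),
        Ideal.Quotient.mk_eq_mk_iff_sub_mem, Ideal.mem_span_singleton']
      exact ⟨-t, by linear_combination -hst⟩
    · intro x
      have h9 : (Ideal.Quotient.mk (sp c) omr * x).out - omr * x.out ∈ (sp c : Ideal eis) := by
        rw [← Ideal.Quotient.mk_eq_mk_iff_sub_mem, Ideal.Quotient.mk_out, map_mul,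
          Ideal.Quotient.mk_out]
      have h6 : DD P χ p₀ b (Ideal.Quotient.mk (sp c) omr * x).out = DD P χ p₀ b x.out := by
        rw [DD_per h hp₀ h9, DD_om h hp₀ hb]
      have h8 : GG L Ω c (Ideal.Quotient.mk (sp c) omr * x) = GG L Ω c x := by
        unfold GG
        congr 1
        have h10 : ℘'[L] (Ω * ((Ideal.Quotient.mk (sp c) omr * x).out : eis) / c) =
            ℘'[L] (Ω * ((omr * x.out : eis) : ℂ) / c) := by
          apply dwp_per
          have h11 := (div_mem_iff hL hc _).2 h9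
          convert h11 using 1
          push_cast
          ring
        have e4 : Ω * ((omr * x.out : eis) : ℂ) / c = (omr : ℂ) * (Ω * x.out / c) := by
          push_cast
          ring
        rw [h10, e4, dwp_unit hL omr_unit, omr_coe, om_cube, inv_one, one_mul]
      rw [hW]
      show _ * _ = _ * _
      rw [h6, h8]
    · intro x hx
      have h3 : ¬ IsCoprime x.out c := by
        rw [← unit_iff, Ideal.Quotient.mk_out]
        exact hx
      rw [hW]
      show _ * _ = 0
      unfold DD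
      rw [h.xm.zero _ h3, zero_mul, map_zero, zero_mul]
  · -- the sums of the characters
    have e2 : ∑ x : eis ⧸ (sp c : Ideal eis), (starRingEnd ℂ) (DD P χ p₀ b x.out) =
        ∑ J ∈ (P.erase p₀).powerset, (-1) ^ J.card *
          (starRingEnd ℂ) (∑ x : eis ⧸ (sp c : Ideal eis), XP P (fam χ p₀ b J) x.out) := by
      simp only [map_sum, Finset.mul_sum]
      rw [Finset.sum_comm]
      refine Finset.sum_congr rfl fun x _ => ?_
      unfold DD
      rw [expand h hp₀, map_sum]
      refine Finset.sum_congr rfl fun J _ => ?_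
      rw [map_mul, map_pow, map_neg, map_one]
    rw [e2]
    refine Valuation.map_sum_le _ fun J hJ => ?_
    rw [Finset.mem_powerset] at hJ
    have hF := fam_fam h hp₀ hJ hb
    have hs : v ((-1 : ℂ) ^ J.card) = 1 := by
      rw [map_pow, v.map_neg, map_one, one_pow]
    rw [map_mul, hs, one_mul]
    by_cases hX : ∃ u, IsCoprime u c ∧ XP P (fam χ p₀ b J) u ≠ 1
    · obtain ⟨u, hu, hXu⟩ := hX
      rw [hF.xm.sum_zero hu hXu, map_zero, map_zero]
      exact zero_le
    · push Not at hX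
      have hk0 : k ≠ 0 := by
        rintro rfl
        obtain ⟨x, hx, hxχ⟩ := h0 rfl
        have hPs : P = {p₀} := by
          obtain ⟨a, ha⟩ := Finset.card_eq_one.1 hk
          rw [ha] at hp₀ ⊢
          rw [Finset.mem_singleton.1 hp₀]
        have hJe : J = ∅ := by
          rw [hPs, Finset.erase_singleton, Finset.subset_empty] at hJ
          exact hJ
        have hxc : IsCoprime x c := by
          rw [hcdef, cop_cP h.toPr3]
          intro p hp
          rw [hPs, Finset.mem_singleton] at hp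
          rwa [hp]
        have h7 := hX x hxc
        rw [XP_fam h hp₀ (by rw [hJe]; exact Finset.empty_subset _), hJe, Finset.prod_empty,
          mul_one] at h7
        unfold XP at h7
        rw [hPs, Finset.prod_singleton] at h7
        exact hxχ h7
      rw [hF.xm.sum_card hX, map_natCast]
      refine (v_card_units hv h.toPr3).trans ?_
      obtain ⟨j, rfl⟩ := Nat.exists_eq_succ_of_ne_zero hk0
      rw [hk, pow_succ', pow_succ', mul_assoc]
      refine mul_le_mul' le_rfl ?_
      have hl1 : v lam ≤ 1 := (lam_lt hv).le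
      calc v 3 * v 3 ^ j = (v lam * v lam) * (v lam * v lam) ^ j := by rw [sq_three]
        _ = v lam * (v lam * v lam ^ j * v lam ^ j) := by rw [mul_pow]; ac_rfl
        _ ≤ v lam * (g * g ^ j * 1) := by
            refine mul_le_mul' le_rfl (mul_le_mul' (mul_le_mul' hgl (pow_le_pow_left' hgl j)) ?_)
            exact pow_le_one' hl1 j
        _ = v lam * g ^ j.succ := by rw [mul_one, ← pow_succ']

end Pool.Agent.H62
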