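import Mathlib
import Pool.Agent.H62.SB3

/-!
# Sums over the classes modulo a product of primes, IV: the induction
-/

set_option autoImplicit false
set_option linter.unusedSectionVars false
set_option linter.unusedVariables false

open Complex Filter Topology IsDedekindDomain
open scoped PeriodPair

namespace Pool.Agent.H62

open H667R3 Pool.Agent.W192.HK Pool.Agent.TH936.CM Pool.Agent.TH936.PU
open Pool.Agent.W192.CM (nu)
open Pool.Agent.Y696
open Pool.Agent.Y715.T.Three Pool.Agent.Y715.T.Lat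
open Pool.Agent.Y715.T.LF (rd rd_eq_zero)
open Pool.Agent.Y715.T.Cg (sum_tri)

variable {L : PeriodPair} {Ω : ℂ} {Γ : Type*} [LinearOrderedCommGroupWithZero Γ]
  {v : Valuation ℂ Γ} {g : Γ}

lemma Ch.one {p : eis} {χ : eis → ℂ} (h : Ch v g p χ) (hp : Prime p) : χ 1 = 1 := by
  have h1 := h.mul 1 1
  rw [mul_one] at h1
  have h2 : χ 1 ≠ 0 := by
    intro h0
    have := (h.nr 1 (fun hd => hp.not_isUnit (isUnit_of_dvd_one hd))).nrm
    rw [h0, norm_zero] at this
    norm_num at this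
  exact (mul_left_cancel₀ h2 (h1.symm.trans (mul_one _).symm))

lemma Ch.map_pow {p : eis} {χ : eis → ℂ} (h : Ch v g p χ) (hp : Prime p) (x : eis) (n : ℕ) :
    χ (x ^ n) = χ x ^ n := by
  induction n with
  | zero => rw [pow_zero, pow_zero]; exact h.one hp
  | succ n ih => rw [pow_succ, pow_succ, h.mul, ih]

lemma pow_om_of_dvd_two {p x : eis} (hp : Prime p) (h2 : p ∣ 2) (hx : ¬ p ∣ x) :
    ∃ i : ℕ, x - omr ^ i ∈ (sp p : Ideal eis) := by
  obtain ⟨a, b, rfl⟩ := ez_ex x
  have key : ∀ y : eis, (2 : eis) ∣ y → y ∈ (sp p : Ideal eis) := fun y hy =>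
    Ideal.mem_span_singleton.2 (h2.trans hy)
  have hz : ∀ s t : ℤ, ez (2 * s) (2 * t) = 2 * ez s t := by
    intro s t
    have e2 : (2 : eis) = ez 2 0 := by
      rw [ez_int]
      norm_num
    rw [e2, ez_mul]
    congr 1 <;> ring
  have hom : omr = ez 0 1 := by
    apply Subtype.ext
    rw [ez_coe, omr_coe]
    push_cast
    ring
  have hom2 : omr ^ 2 = ez (-1) (-1) := by
    apply Subtype.ext
    have h1 := congrArg (fun t : eis => (t : ℂ)) omr_sq
    push_cast at h1
    rw [omr_coe] at h1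
    rw [ez_coe, Subring.coe_pow, omr_coe]
    push_cast
    linear_combination h1
  have hsub : ∀ s t s' t' : ℤ, ez s t - ez s' t' = ez (s - s') (t - t') := by
    intro s t s' t'
    apply Subtype.ext
    push_cast
    rw [ez_coe, ez_coe, ez_coe]
    push_cast
    ring
  rcases Int.even_or_odd' a with ⟨s, hs | hs⟩ <;> rcases Int.even_or_odd' b with ⟨t, ht | ht⟩
  · exfalso
    apply hx
    rw [hs, ht, hz]
    exact h2.mul_right _
  · refine ⟨1, key _ ⟨ez s t, ?_⟩⟩
    rw [pow_one, hom, hsub, ← hz, hs, ht]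
    congr 1 <;> ring
  · refine ⟨0, key _ ⟨ez s t, ?_⟩⟩
    rw [pow_zero, ← ez_one, hsub, ← hz, hs, ht]
    congr 1 <;> ring
  · refine ⟨2, key _ ⟨ez (s + 1) (t + 1), ?_⟩⟩
    rw [hom2, hsub, ← hz, hs, ht]
    congr 1 <;> ring

lemma cube_roots {y z : ℂ} (hy : y ^ 3 = 1) (hz : z ^ 3 = 1) (hz1 : z ≠ 1) : ∃ b : ℕ, y = z ^ b := by
  have h1 : z ^ 2 + z + 1 = 0 := by
    have : (z - 1) * (z ^ 2 + z + 1) = 0 := by linear_combination hz
    exact (mul_eq_zero.1 this).resolve_left (sub_ne_zero.2 hz1)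
  have h2 : (y - 1) * ((y - z) * (y - z ^ 2)) = 0 := by
    linear_combination hy - hz + (-y ^ 2 + y * z) * h1
  rcases mul_eq_zero.1 h2 with h | h
  · exact ⟨0, by rw [pow_zero]; exact sub_eq_zero.1 h⟩
  · rcases mul_eq_zero.1 h with h | h
    · exact ⟨1, by rw [pow_one]; exact sub_eq_zero.1 h⟩
    · exact ⟨2, sub_eq_zero.1 h⟩

lemma exists_b {P : Finset eis} {χ : eis → eis → ℂ} (h : Fam v g P χ) (hP : P.Nonempty) :
    ∃ p₀ ∈ P, ∃ b : eis → ℕ, ∀ q ∈ P, χ q omr = χ p₀ omr ^ b q := by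
  have hcube : ∀ q ∈ P, χ q omr ^ 3 = 1 := fun q hq => by
    rw [← (h.ch q hq).map_pow (h.prime q hq), omr_cube, (h.ch q hq).one (h.prime q hq)]
  by_cases h1 : ∃ p₀ ∈ P, χ p₀ omr ≠ 1
  · obtain ⟨p₀, hp₀, hne⟩ := h1
    refine ⟨p₀, hp₀, ?_⟩
    have : ∀ q, ∃ b : ℕ, q ∈ P → χ q omr = χ p₀ omr ^ b := by
      intro q
      by_cases hq : q ∈ P
      · obtain ⟨b, hb⟩ := cube_roots (hcube q hq) (hcube p₀ hp₀) hne
        exact ⟨b, fun _ => hb⟩
      · exact ⟨0, fun hh => absurd hh hq⟩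
    choose b hb using this
    exact ⟨b, fun q hq => hb q hq⟩
  · push Not at h1
    obtain ⟨p₀, hp₀⟩ := hP
    exact ⟨p₀, hp₀, fun _ => 0, fun q hq => by rw [h1 q hq, pow_zero]⟩

lemma v_sub_three {p : eis} (hp1 : (3 : eis) ∣ p - 1) : v ((p : ℂ) - 1) ≤ v 3 := by
  obtain ⟨q, hq⟩ := hp1
  have c3 : ((3 : eis) : ℂ) = 3 := rfl
  have h := congrArg (fun t : eis => (t : ℂ)) hq
  push_cast at h
  rw [c3] at h
  rw [h, map_mul]
  exact (mul_le_mul' le_rfl (v_eis q)).trans (mul_one _).le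

lemma v3_le (hv : v 3 < 1) (hgl : v lam ≤ g) : v 3 ≤ v lam * g := by
  rw [← sq_three]
  exact mul_le_mul' le_rfl hgl

/-- the case of a trivial character -/
lemma SU_le_triv (hC : Cur L Ω) (hv : v 3 < 1) (hg1 : g ≤ 1) (hgl : v lam ≤ g) {k : ℕ}
    (ih : ∀ (P : Finset eis) (χ : eis → eis → ℂ), Fam v g P χ → P.card = k + 1 →
      (k = 0 → ∃ p ∈ P, ∃ x, ¬ p ∣ x ∧ χ p x ≠ 1) →
      v (SU L Ω (cP P) (XP P χ)) ≤ v 3 * v lam * g ^ k)
    {P : Finset eis} {χ : eis → eis → ℂ} (h : Fam v g P χ) (hk : P.card = k + 2) {p : eis}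
    (hp : p ∈ P) (ht : ∀ x, ¬ p ∣ x → χ p x = 1) :
    v (SU L Ω (cP P) (XP P χ)) ≤ v 3 * v lam * g ^ (k + 1) := by
  classical
  have hpp := h.prime p hp
  have hχ : χ p = tr p := by
    funext x
    by_cases hx : p ∣ x
    · rw [tr_dvd hx, (h.ch p hp).zero x hx]
    · rw [tr_not hx, ht x hx]
  set P' := P.erase p with hP'
  have hsub : P' ⊆ P := Finset.erase_subset _ _
  have hcard : P'.card = k + 1 := by
    rw [hP', Finset.card_erase_of_mem hp]
    omega
  have hne : P'.Nonempty := by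
    rw [← Finset.card_pos]
    omega
  have hPr := h.toPr3.mono hsub
  have hXP : XP P χ = fun α => XP P' χ α * tr p α := by
    funext α
    unfold XP
    rw [← Finset.prod_erase_mul P (fun q => χ q α) hp, hχ]
  have hcP : cP P = cP P' * p := (Finset.prod_erase_mul P (fun q => q) hp).symm
  have hF : Fam v g P' χ := by
    refine { toPr3 := hPr, ch := fun q hq => h.ch q (hsub hq), om := ?_ }
    have h1 := h.om
    rw [hXP] at h1
    simp only at h1
    rwa [tr_not (om_not hpp), mul_one] at h1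
  have hcop : IsCoprime (cP P') p := by
    rw [isCoprime_comm, cop_cP hPr]
    intro q hq hqp
    have h1 := h.cop q (hsub hq) p hp (Finset.mem_erase.1 hq).1
    exact (h.prime q (hsub hq)).not_isUnit (h1.isUnit_of_dvd' dvd_rfl hqp)
  have he := euler_SU hC hPr.ne (hPr.not_unit hne) hPr.three hpp (h.one p hp) hcop hF.xm
  rw [hcP, hXP, he, map_mul]
  have h3g : v 3 ≤ g := by
    refine (v3_le hv hgl).trans ?_
    calc v lam * g ≤ 1 * g := mul_le_mul' (lam_lt hv).le le_rfl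
      _ = g := one_mul _
  have hpc : IsCoprime p (cP P') := hcop.symm
  by_cases hnon : k = 0 → ∃ q ∈ P', ∃ x, ¬ q ∣ x ∧ χ q x ≠ 1
  · have h1 := ih P' χ hF hcard hnon
    have h2 : v ((p : ℂ) - (starRingEnd ℂ) (XP P' χ p)) ≤ g := by
      have e : (p : ℂ) - (starRingEnd ℂ) (XP P' χ p) =
          ((p : ℂ) - 1) + (1 - (starRingEnd ℂ) (XP P' χ p)) := by ring
      rw [e]
      refine (v.map_add _ _).trans (max_le ((v_sub_three (h.one p hp)).trans h3g) ?_)
      exact (hF.nr hpc).conj.near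
    calc _ ≤ g * (v 3 * v lam * g ^ k) := mul_le_mul' h2 h1
      _ = _ := by rw [pow_succ]; ac_rfl
  · push Not at hnon
    obtain ⟨rfl, hnon⟩ := hnon
    obtain ⟨q, hq⟩ := Finset.card_eq_one.1 hcard
    have hqP : q ∈ P' := by rw [hq]; exact Finset.mem_singleton_self q
    have hqp := h.prime q (hsub hqP)
    have hχq : χ q = tr q := by
      funext x
      by_cases hx : q ∣ x
      · rw [tr_dvd hx, (h.ch q (hsub hqP)).zero x hx]
      · rw [tr_not hx, hnon q hqP x hx]
    have hX1 : XP P' χ p = 1 := by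
      unfold XP
      rw [hq, Finset.prod_singleton, hχq, tr_not]
      intro hqd
      rw [cop_cP hPr] at hpc
      exact hpc q hqP hqd
    have hS : SU L Ω (cP P') (XP P' χ) = (q : ℂ) - 1 := by
      have e1 : cP P' = q := by unfold cP; rw [hq, Finset.prod_singleton]
      have e2 : XP P' χ = tr q := by
        funext x
        unfold XP
        rw [hq, Finset.prod_singleton, hχq]
      rw [e1, e2]
      exact SU_tr hC hqp (h.one q (hsub hqP))
    rw [hX1, map_one, hS]
    calc _ ≤ v 3 * v 3 := mul_le_mul' (v_sub_three (h.one p hp)) (v_sub_three (h.one q (hsub hqP)))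
      _ ≤ v 3 * (v lam * g) := mul_le_mul' le_rfl (v3_le hv hgl)
      _ = _ := by rw [zero_add, pow_one, mul_assoc]

/-- **the bound for the sums** -/
theorem SU_le (hC : Cur L Ω) (hv : v 3 < 1) (hg1 : g ≤ 1) (hgl : v lam ≤ g) (k : ℕ) :
    ∀ (P : Finset eis) (χ : eis → eis → ℂ), Fam v g P χ → P.card = k + 1 →
      (k = 0 → ∃ p ∈ P, ∃ x, ¬ p ∣ x ∧ χ p x ≠ 1) →
      v (SU L Ω (cP P) (XP P χ)) ≤ v 3 * v lam * g ^ k := by
  classical
  induction k with
  | zero =>
    intro P χ h hk h0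
    obtain ⟨p, hp, x, hx, hxχ⟩ := h0 rfl
    have hPs : P = {p} := by
      obtain ⟨a, ha⟩ := Finset.card_eq_one.1 hk
      rw [ha] at hp ⊢
      rw [Finset.mem_singleton.1 hp]
    have hpp := h.prime p hp
    have hb : ∀ q ∈ P.erase p, χ q omr = χ p omr ^ (fun _ => 0 : eis → ℕ) q := by
      intro q hq
      rw [hPs, Finset.erase_singleton] at hq
      exact absurd hq (Finset.notMem_empty q)
    have hc2 : ¬ cP P ∣ 2 := by
      intro hd
      have e1 : cP P = p := by unfold cP; rw [hPs, Finset.prod_singleton]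
      rw [e1] at hd
      obtain ⟨i, hi⟩ := pow_om_of_dvd_two hpp hd hx
      apply hxχ
      have h1 := h.om
      unfold XP at h1
      rw [hPs, Finset.prod_singleton] at h1
      rw [(h.ch p hp).per x _ hi, (h.ch p hp).map_pow hpp, h1, one_pow]
    have h1 := v_SU_DD (L := L) (Ω := Ω) hC hv hgl h hp hb (k := 0) hk hc2 fun _ => ⟨x, hx, hxχ⟩
    have e2 : DD P χ p (fun _ => 0) = XP P χ := by
      funext y
      unfold DD
      rw [hPs, Finset.erase_singleton, Finset.prod_empty, mul_one]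
    rwa [e2] at h1
  | succ k ih =>
    intro P χ h hk _
    by_cases ht : ∃ p ∈ P, ∀ x, ¬ p ∣ x → χ p x = 1
    · obtain ⟨p, hp, ht⟩ := ht
      exact SU_le_triv hC hv hg1 hgl ih h hk hp ht
    · obtain ⟨p₀, hp₀, b, hb'⟩ := exists_b h (Finset.card_pos.1 (by omega))
      have hb : ∀ q ∈ P.erase p₀, χ q omr = χ p₀ omr ^ b q := fun q hq =>
        hb' q (Finset.mem_erase.1 hq).2
      have h1 := v_SU_DD (L := L) (Ω := Ω) hC hv hgl h hp₀ hb hk
        (not_dvd_two h.toPr3 (by omega)) (fun h0 => absurd h0 (Nat.succ_ne_zero k))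
      have h2 := SU_DD (L := L) (Ω := Ω) (b := b) h hp₀
      have hmem : (∅ : Finset eis) ∈ (P.erase p₀).powerset := Finset.empty_mem_powerset _
      rw [← Finset.add_sum_erase _ _ hmem] at h2
      have e1 : XP P (fam χ p₀ b ∅) = XP P χ := by
        funext y
        rw [XP_fam h hp₀ (Finset.empty_subset _), Finset.prod_empty, mul_one]
      rw [e1, Finset.card_empty, pow_zero, one_mul] at h2
      have e2 : SU L Ω (cP P) (XP P χ) = SU L Ω (cP P) (DD P χ p₀ b) -
          ∑ J ∈ (P.erase p₀).powerset.erase ∅,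
            (-1) ^ J.card * SU L Ω (cP P) (XP P (fam χ p₀ b J)) := by
        rw [h2]
        ring
      rw [e2]
      refine (v.map_sub _ _).trans (max_le h1 ?_)
      refine Valuation.map_sum_le _ fun J hJ => ?_
      obtain ⟨hJ1, hJ2⟩ := Finset.mem_erase.1 hJ
      rw [Finset.mem_powerset] at hJ2
      have hs : v ((-1 : ℂ) ^ J.card) = 1 := by
        rw [map_pow, v.map_neg, map_one, one_pow]
      rw [map_mul, hs, one_mul]
      obtain ⟨q, hq⟩ := Finset.nonempty_iff_ne_empty.2 hJ1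
      refine SU_le_triv hC hv hg1 hgl ih (fam_fam h hp₀ hJ2 hb) hk
        (Finset.mem_erase.1 (hJ2 hq)).2 (p := q) fun x hx => ?_
      unfold fam
      rw [if_pos hq, tr_not hx]

end Pool.Agent.H62
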