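import Mathlib
import Pool.Agent.H62.SB4
import Pool.Agent.H62.An

/-!
# The analytic theorem for extensions totally ramified at several primes
-/

set_option autoImplicit false
set_option linter.unusedSectionVars false
set_option linter.unusedVariables false

namespace Pool.Agent.H62

open NumberField IsDedekindDomain IsLocalRing Filter Topology Complex
open Pool.Agent.W192.HK Pool.Agent.TH936.CM Pool.Agent.TH936.PU
open Pool.Agent.W189.NF (aV eV redMap)
open Pool.Agent.W192.CM (nu)
open Pool.Agent.Y696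
open Pool.Agent.N883.Q Pool.Agent.N883.T
open Pool.Agent.Y715.T.Three Pool.Agent.Y715.T.Lat
open Pool.Agent.Y715.T.LF (rd)

/-! ### the components of a character -/

section comps

variable {Γ : Type*} [LinearOrderedCommGroupWithZero Γ] {v : Valuation ℂ Γ} {g : Γ}
  {P : Finset eis}

/-- idempotents -/
lemma exists_idem (hP : Pr3 P) : ∃ e : eis → eis, ∀ p ∈ P, p ∣ e p - 1 ∧
    ∀ q ∈ P, q ≠ p → q ∣ e p := by
  classical
  have h : ∀ p, ∃ e : eis, p ∈ P → p ∣ e - 1 ∧ ∀ q ∈ P, q ≠ p → q ∣ e := by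
    intro p
    by_cases hp : p ∈ P
    · have hco : IsCoprime p (∏ q ∈ P.erase p, q) :=
        IsCoprime.prod_right fun q hq => hP.cop p hp q (Finset.mem_erase.1 hq).2
          (Finset.mem_erase.1 hq).1.symm
      obtain ⟨a, b, hab⟩ := hco
      refine ⟨b * ∏ q ∈ P.erase p, q, fun _ => ⟨⟨-a, by linear_combination hab⟩, fun q hq hqp => ?_⟩⟩
      exact Dvd.dvd.mul_left (Finset.dvd_prod_of_mem (fun q => q)
        (Finset.mem_erase.2 ⟨hqp, hq⟩)) b
    · exact ⟨0, fun hh => absurd hh hp⟩
  choose e he using h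
  exact ⟨e, fun p hp => he p hp⟩

/-- a number divisible by all the primes is divisible by the product -/
lemma cP_dvd (hP : Pr3 P) {x : eis} (h : ∀ p ∈ P, p ∣ x) : cP P ∣ x :=
  Finset.prod_dvd_of_coprime (fun p hp q hq hpq => hP.cop p hp q hq hpq) h

/-- the component at `p` -/
noncomputable def cmp {c : eis} (η : MulChar (eis ⧸ (sp c : Ideal eis)) ℂ) (e : eis → eis)
    (p x : eis) : ℂ := et η (1 + e p * (x - 1))

lemma et_per' {c : eis} {η : MulChar (eis ⧸ (sp c : Ideal eis)) ℂ} {x y : eis}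
    (h : c ∣ x - y) : et η x = et η y := et_per (Ideal.mem_span_singleton.2 h)

lemma cmp_cop (hP : Pr3 P) {e : eis → eis}
    (he : ∀ p ∈ P, p ∣ e p - 1 ∧ ∀ q ∈ P, q ≠ p → q ∣ e p) {p x : eis} (hp : p ∈ P) :
    IsCoprime (1 + e p * (x - 1)) (cP P) ↔ ¬ p ∣ x := by
  rw [cop_cP hP]
  have hpx : p ∣ 1 + e p * (x - 1) ↔ p ∣ x := by
    have e1 : 1 + e p * (x - 1) = x + (e p - 1) * (x - 1) := by ring
    rw [e1]
    exact (dvd_add_left ((he p hp).1.mul_right _))
  constructor
  · intro h hd
    exact h p hp (hpx.2 hd)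
  · intro h q hq hd
    by_cases hqp : q = p
    · rw [hqp] at hd
      exact h (hpx.1 hd)
    · have h1 : q ∣ 1 := (dvd_add_left (((he p hp).2 q hq hqp).mul_right _)).1 hd
      exact (hP.prime q hq).not_isUnit (isUnit_of_dvd_one h1)

lemma cmp_ch (hP : Pr3 P) {e : eis → eis}
    (he : ∀ p ∈ P, p ∣ e p - 1 ∧ ∀ q ∈ P, q ≠ p → q ∣ e p)
    {η : MulChar (eis ⧸ (sp (cP P) : Ideal eis)) ℂ}
    (hnr : ∀ x, IsCoprime x (cP P) → Nr v g (et η x)) {p : eis} (hp : p ∈ P) :
    Ch v g p (cmp η e p) := by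
  refine ⟨fun x y hxy => ?_, fun x y => ?_, fun x hx => ?_, fun x hx => ?_⟩
  · refine et_per' (cP_dvd hP fun q hq => ?_)
    have e1 : 1 + e p * (x - 1) - (1 + e p * (y - 1)) = e p * (x - y) := by ring
    rw [e1]
    by_cases hqp : q = p
    · rw [hqp]
      exact (Ideal.mem_span_singleton.1 hxy).mul_left _
    · exact ((he p hp).2 q hq hqp).mul_right _
  · unfold cmp
    rw [← et_mul]
    refine et_per' (cP_dvd hP fun q hq => ?_)
    have e1 : 1 + e p * (x * y - 1) - (1 + e p * (x - 1)) * (1 + e p * (y - 1)) =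
        -(e p - 1) * (e p * ((x - 1) * (y - 1))) := by ring
    rw [e1]
    by_cases hqp : q = p
    · rw [hqp]
      exact (Dvd.dvd.neg_right (he p hp).1).mul_right _
    · exact (((he p hp).2 q hq hqp).mul_right _).mul_left _
  · unfold cmp
    rw [et_zero_iff, cmp_cop hP he hp, not_not]
    exact hx
  · exact hnr _ ((cmp_cop hP he hp).2 hx)

lemma et_one' {c : eis} {η : MulChar (eis ⧸ (sp c : Ideal eis)) ℂ} : et η 1 = 1 := by
  unfold et
  rw [map_one, map_one]

lemma et_prod {c : eis} {η : MulChar (eis ⧸ (sp c : Ideal eis)) ℂ} (s : Finset eis)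
    (f : eis → eis) : ∏ p ∈ s, et η (f p) = et η (∏ p ∈ s, f p) := by
  classical
  induction s using Finset.induction_on with
  | empty => rw [Finset.prod_empty, Finset.prod_empty, et_one']
  | insert a s ha ih => rw [Finset.prod_insert ha, Finset.prod_insert ha, ih, et_mul]

lemma cmp_prod (hP : Pr3 P) {e : eis → eis}
    (he : ∀ p ∈ P, p ∣ e p - 1 ∧ ∀ q ∈ P, q ≠ p → q ∣ e p)
    {η : MulChar (eis ⧸ (sp (cP P) : Ideal eis)) ℂ} : XP P (cmp η e) = et η := by
  classical
  funext x
  unfold XP cmp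
  rw [et_prod]
  refine et_per' (cP_dvd hP fun q hq => ?_)
  rw [← Finset.mul_prod_erase P _ hq]
  have h1 : q ∣ (∏ p ∈ P.erase q, (1 + e p * (x - 1))) - 1 := by
    refine Finset.prod_induction _ (fun y : eis => q ∣ y - 1) ?_ ?_ fun p hp => ?_
    · intro a b ha hb
      have : a * b - 1 = (a - 1) * b + (b - 1) := by ring
      rw [this]
      exact dvd_add (ha.mul_right b) hb
    · rw [sub_self]
      exact dvd_zero _
    · have e1 : 1 + e p * (x - 1) - 1 = e p * (x - 1) := by ring
      rw [e1]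
      obtain ⟨hpq, hp⟩ := Finset.mem_erase.1 hp
      exact ((he p hp).2 q hq hpq.symm).mul_right _
  have e2 : (1 + e q * (x - 1)) * (∏ p ∈ P.erase q, (1 + e p * (x - 1))) - x =
      (1 + e q * (x - 1)) * ((∏ p ∈ P.erase q, (1 + e p * (x - 1))) - 1) +
        (e q - 1) * (x - 1) := by ring
  rw [e2]
  exact dvd_add (h1.mul_left _) ((he q hq).1.mul_right _)

theorem cmp_fam (hP : Pr3 P) {e : eis → eis}
    (he : ∀ p ∈ P, p ∣ e p - 1 ∧ ∀ q ∈ P, q ≠ p → q ∣ e p)
    {η : MulChar (eis ⧸ (sp (cP P) : Ideal eis)) ℂ}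
    (hnr : ∀ x, IsCoprime x (cP P) → Nr v g (et η x)) (hom : et η omr = 1) :
    Fam v g P (cmp η e) :=
  { toPr3 := hP
    ch := fun p hp => cmp_ch hP he hnr hp
    om := by rw [cmp_prod hP he, hom] }

/-- the trivial character -/
lemma SU_one {L : PeriodPair} {Ω : ℂ} (hC : Cur L Ω) (hP : Pr3 P) (hne : P.Nonempty) :
    SU L Ω (cP P) (XP P tr) = ∏ p ∈ P, ((p : ℂ) - 1) := by
  classical
  obtain ⟨k, hk⟩ : ∃ k, P.card = k + 1 := ⟨P.card - 1, by
    have := Finset.card_pos.2 hne
    omega⟩
  clear hne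
  induction k generalizing P with
  | zero =>
    obtain ⟨q, hq⟩ := Finset.card_eq_one.1 hk
    have hqP : q ∈ P := by rw [hq]; exact Finset.mem_singleton_self q
    have e1 : cP P = q := by unfold cP; rw [hq, Finset.prod_singleton]
    have e2 : XP P tr = tr q := by
      funext x
      unfold XP
      rw [hq, Finset.prod_singleton]
    rw [e1, e2, SU_tr hC (hP.prime q hqP) (hP.one q hqP), hq, Finset.prod_singleton]
  | succ k ih =>
    obtain ⟨p, hp⟩ : P.Nonempty := Finset.card_pos.1 (by omega)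
    set P' := P.erase p with hP'
    have hsub : P' ⊆ P := Finset.erase_subset _ _
    have hcard : P'.card = k + 1 := by
      rw [hP', Finset.card_erase_of_mem hp]
      omega
    have hne : P'.Nonempty := by
      rw [← Finset.card_pos]
      omega
    have hPr := hP.mono hsub
    have hXP : XP P tr = fun α => XP P' tr α * tr p α := by
      funext α
      unfold XP
      rw [← Finset.prod_erase_mul P (fun q => tr q α) hp]
    have hcP : cP P = cP P' * p := (Finset.prod_erase_mul P (fun q => q) hp).symm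
    have hcop : IsCoprime (cP P') p := by
      rw [isCoprime_comm, cop_cP hPr]
      intro q hq hqp
      have h1 := hP.cop q (hsub hq) p hp (Finset.mem_erase.1 hq).1
      exact (hP.prime q (hsub hq)).not_isUnit (h1.isUnit_of_dvd' dvd_rfl hqp)
    have hX : Xm (cP P') (XP P' tr) := by
      have hF : Fam (v := (1 : Valuation ℂ (WithZero (Multiplicative ℤ)))) (1) P' tr :=
        { toPr3 := hPr
          ch := fun q hq => ch_tr (hPr.prime q hq)
          om := Finset.prod_eq_one fun q hq => tr_not (om_not (hPr.prime q hq)) }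
      exact hF.xm
    have he := euler_SU hC hPr.ne (hPr.not_unit hne) hPr.three (hP.prime p hp) (hP.one p hp)
      hcop hX
    have hX1 : XP P' tr p = 1 := by
      have h2 := (cop_cP hPr).1 hcop.symm
      exact Finset.prod_eq_one fun q hq => tr_not (h2 q hq)
    rw [hcP, hXP, he, ih hPr hcard, hX1, map_one, ← Finset.mul_prod_erase P _ hp]

end comps

end Pool.Agent.H62
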