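import Mathlib
import Pool.Agent.H62.An2

/-!
# The analytic theorem for extensions totally ramified at several primes, II
-/

set_option autoImplicit false
set_option linter.unusedSectionVars false
set_option linter.unusedVariables false

namespace Pool.Agent.H62

open NumberField IsDedekindDomain IsLocalRing Filter Topology Complex
open Pool.Agent.W192.HK Pool.Agent.TH936.CM Pool.Agent.TH936.PU
open Pool.Agent.W189.NF (aV eV redMap)
open Pool.Agent.W192.CM (nu)
open Pool.Agent.Y696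
open Pool.Agent.N883.Q Pool.Agent.N883.T
open Pool.Agent.Y715.T.Three Pool.Agent.Y715.T.Lat
open Pool.Agent.Y715.T.LF (rd)

section roots

variable {Γ : Type*} [LinearOrderedCommGroupWithZero Γ] {v : Valuation ℂ Γ} {n : ℕ}

lemma pow_ne3 (n : ℕ) : (3 : ℕ) ^ n ≠ 0 := pow_ne_zero _ (by norm_num)

lemma nr_root {z : ℂ} (hz : z ^ 3 ^ n = 1) : Nr v (v (1 - z)) z :=
  ⟨norm_eq_one_of_pow_eq_one hz (pow_ne3 n), v_one_of_pow (pow_ne3 n) (by rw [hz, map_one]), le_rfl⟩

lemma v_prim {ρ : ℂ} (h3 : ρ ^ 3 = 1) (h1 : ρ ≠ 1) : v (1 - ρ) = v lam := by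
  have hq : ρ ^ 2 + ρ + 1 = 0 := by
    have : (ρ - 1) * (ρ ^ 2 + ρ + 1) = 0 := by linear_combination h3
    exact (mul_eq_zero.1 this).resolve_left (sub_ne_zero.2 h1)
  have e : (1 - ρ) ^ 2 = -(3 * ρ) := by linear_combination hq
  have hv := congrArg v e
  have hρ : v ρ = 1 := v_one_of_pow (n := 3) (by norm_num) (by rw [h3, map_one])
  rw [map_pow, v.map_neg, map_mul, hρ, mul_one, ← sq_three, ← pow_two] at hv
  exact (pow_left_inj₀ zero_le zero_le two_ne_zero).1 hv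

/-- a root of unity of 3-power order is not nearer to one than `ω` -/
lemma lam_le_root {z : ℂ} (hz : z ^ 3 ^ n = 1) (h1 : z ≠ 1) : v lam ≤ v (1 - z) := by
  obtain ⟨m, hm, hom⟩ := (Nat.dvd_prime_pow Nat.prime_three).1 (orderOf_dvd_of_pow_eq_one hz)
  have hm0 : m ≠ 0 := by
    rintro rfl
    rw [pow_zero] at hom
    exact h1 (orderOf_eq_one_iff.1 hom)
  obtain ⟨j, rfl⟩ := Nat.exists_eq_succ_of_ne_zero hm0
  have e1 : (z ^ 3 ^ j) ^ 3 = 1 := by
    rw [← pow_mul, ← pow_succ, ← hom]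
    exact pow_orderOf_eq_one z
  have e2 : z ^ 3 ^ j ≠ 1 := by
    intro h
    have := orderOf_dvd_of_pow_eq_one h
    rw [hom] at this
    have h2 := (Nat.pow_dvd_pow_iff_le_right (by norm_num : 1 < 3)).1 this
    omega
  rw [← v_prim (v := v) e1 e2]
  exact ((nr_root hz).pow _).near

/-- the product of the differences -/
lemma prod_roots {G : Type} [CommGroup G] [Finite G] [Fintype (MulChar G ℂ)]
    [DecidableEq (MulChar G ℂ)] {σ : G} (hσ : orderOf σ = Nat.card G) :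
    ∏ χ ∈ (Finset.univ : Finset (MulChar G ℂ)).erase 1, (1 - χ σ) = (Nat.card G : ℂ) := by
  classical
  set f : ℂ → ℂ := fun Y => ∏ χ ∈ (Finset.univ : Finset (MulChar G ℂ)).erase 1, (1 - χ σ * Y) with hf
  set h : ℂ → ℂ := fun Y => ∑ i ∈ Finset.range (Nat.card G), Y ^ i with hh
  have hcf : Continuous f := by
    rw [hf]
    exact continuous_finsetProd _ fun χ _ => by fun_prop
  have hch : Continuous h := by
    rw [hh]
    exact continuous_finsetSum _ fun i _ => by fun_prop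
  have hball : ∀ Y ∈ Metric.ball (0 : ℂ) 1, f Y = h Y := by
    intro Y hY
    have hY' : ‖Y‖ < 1 := by simpa using hY
    have e1 := prod_mc σ Y hY'
    rw [hσ, Nat.div_self Nat.card_pos, pow_one, ← Finset.mul_prod_erase _ _ (Finset.mem_univ 1),
      MulChar.one_apply (Group.isUnit σ), one_mul] at e1
    have e2 : (1 - Y) * h Y = 1 - Y ^ Nat.card G := mul_neg_geom_sum Y _
    have hne : 1 - Y ≠ 0 := by
      intro h0
      have : Y = 1 := by linear_combination -h0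
      rw [this, norm_one] at hY'
      exact lt_irrefl _ hY'
    exact mul_left_cancel₀ hne (e1.trans e2.symm)
  have hcl : IsClosed {Y : ℂ | f Y = h Y} := isClosed_eq hcf hch
  have h1 : (1 : ℂ) ∈ closure (Metric.ball (0 : ℂ) 1) := by
    rw [closure_ball _ one_ne_zero]
    simp
  have h2 : (1 : ℂ) ∈ {Y : ℂ | f Y = h Y} := hcl.closure_subset_iff.2 hball h1
  have h3 : f 1 = h 1 := h2
  rw [hf, hh] at h3
  simpa using h3

end roots

section
variable {K : Type} [Field K] [NumberField K] {ι : eis →+* 𝓞 K} {G : Type} [CommGroup G] [Finite G]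
  [MulSemiringAction G (𝓞 K)] {c : eis} {art : (eis ⧸ (sp c : Ideal eis))ˣ →* G}
  {Γ : Type*} [LinearOrderedCommGroupWithZero Γ] {n : ℕ}

/-- there is only one prime above a totally ramified prime -/
lemma tot_uniq' (D : DatQ ι G c art) (hT : Tot ι G c) {w w' : HeightOneSpectrum (𝓞 K)}
    (h : ι c ∈ w.asIdeal) (hbel : bel ι w = bel ι w') : w = w' := by
  classical
  let _ : Algebra eis (𝓞 K) := ι.toAlgebra
  have halg : ∀ a : eis, algebraMap eis (𝓞 K) a = ι a := fun _ => rfl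
  have hcomm : SMulCommClass G eis (𝓞 K) := by
    constructor
    intro g a x
    rw [Algebra.smul_def, Algebra.smul_def, halg, smul_mul', D.fix]
  have hinv : Algebra.IsInvariant eis (𝓞 K) G := ⟨fun b hb => D.inv b hb⟩
  have hu : w.asIdeal.under eis = w'.asIdeal.under eis :=
    congrArg (fun Q : HeightOneSpectrum eis => Q.asIdeal) hbel
  have := w.isPrime
  have := w'.isPrime
  obtain ⟨g, hg⟩ := Algebra.IsInvariant.exists_smul_of_under_eq eis (𝓞 K) G _ _ hu
  apply HeightOneSpectrum.ext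
  rw [hg]
  ext x
  rw [Ideal.mem_pointwise_smul_iff_inv_smul_mem]
  have h3 := hT w h g⁻¹ x
  constructor
  · intro hx
    have := w.asIdeal.add_mem h3 hx
    rwa [sub_add_cancel] at this
  · intro hx
    have := w.asIdeal.sub_mem hx h3
    rwa [sub_sub_cancel] at this

/-- a number which is one modulo three -/
lemma v_conj_sub {v : Valuation ℂ Γ} (hv : v 3 < 1) {p : eis} (hp1 : (3 : eis) ∣ p - 1) :
    v ((starRingEnd ℂ) (p : ℂ) - 1) ≤ v 3 := by
  have h := v_sub_three (v := vc v) hp1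
  rwa [vc_apply, vc_apply, map_sub, map_one, map_ofNat] at h

lemma v_p {v : Valuation ℂ Γ} (hv : v 3 < 1) {p : eis} (hp1 : (3 : eis) ∣ p - 1) :
    v (p : ℂ) = 1 := by
  have h4 : (p : ℂ) = 1 + (p - 1) := by ring
  rw [h4]
  exact v.map_one_add_of_lt ((v_sub_three hp1).trans_lt hv)

lemma v_pc {v : Valuation ℂ Γ} (hv : v 3 < 1) {p : eis} (hp1 : (3 : eis) ∣ p - 1) :
    v ((starRingEnd ℂ) (p : ℂ)) = 1 := by
  have h4 : (starRingEnd ℂ) (p : ℂ) = 1 + ((starRingEnd ℂ) (p : ℂ) - 1) := by ring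
  rw [h4]
  exact v.map_one_add_of_lt ((v_conj_sub hv hp1).trans_lt hv)

/-- the local factor at the prime above `p` -/
lemma v_EVp (D : DatQ ι G c art) (hT : Tot ι G c) (hG : Nat.card G = 3 ^ n) {p : eis}
    (hp : Prime p) (hp1 : (3 : eis) ∣ p - 1) {w : HeightOneSpectrum (𝓞 K)}
    (hb : (bel ι w).asIdeal = sp p) (h : ι c ∈ w.asIdeal) {v : Valuation ℂ Γ} (hv : v 3 < 1) :
    v (EV w 1) = v ((p : ℂ) - 1) * v ((starRingEnd ℂ) (p : ℂ) - 1) := by
  have hf := tot_deg D hT hG h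
  have h3w : ι 3 ∉ w.asIdeal := by
    rw [← mem_bel]
    exact three_notQ D (P := bel ι w) h
  have h1 := XX_val (ι := ι) w h3w hf 1
  obtain ⟨-, -, h5⟩ := aV_val (ι := ι) w h3w hf
  have h6 : EV w 1 = (1 - (psi (bel ι w).asIdeal * (nm (bel ι w).asIdeal : ℂ) ^ (-1 : ℂ)) ^ 1) *
      (1 - ((starRingEnd ℂ) (psi (bel ι w).asIdeal) * (nm (bel ι w).asIdeal : ℂ) ^ (-1 : ℂ)) ^ 1) := by
    have h7 : Pool.Agent.Y696.XX w 1 = (EV w 1)⁻¹ := rfl
    rw [h7] at h1
    exact inv_injective h1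
  have hpsi : psi (bel ι w).asIdeal = p := by
    rw [hb]
    exact psi_prim (Ideal.mem_span_singleton.2 hp1)
  rw [hpsi] at h5 h6
  have v3 := v_p hv hp1
  have v4 := v_pc hv hp1
  have hπ0 : (p : ℂ) ≠ 0 := ne_of_v v3
  have hπc0 : (starRingEnd ℂ) (p : ℂ) ≠ 0 := (map_ne_zero _).2 hπ0
  have hnm : (nm (bel ι w).asIdeal : ℂ) = (p : ℂ) * (starRingEnd ℂ) (p : ℂ) := by
    rw [h5, nm_P]
    push_cast
    rfl
  have h8 : EV w 1 = (((starRingEnd ℂ) (p : ℂ)) - 1) * ((p : ℂ) - 1) /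
      (((starRingEnd ℂ) (p : ℂ)) * (p : ℂ)) := by
    rw [h6, Complex.cpow_neg_one, hnm]
    field_simp
  rw [h8, map_div₀, map_mul, map_mul, v3, v4, one_mul, div_one, mul_comm]

end

section values

variable {K : Type} [Field K] [NumberField K] {ι : eis →+* 𝓞 K} {G : Type} [CommGroup G] [Finite G]
  [MulSemiringAction G (𝓞 K)] {P : Finset eis} {art : (eis ⧸ (sp (cP P) : Ideal eis))ˣ →* G}
  {Γ : Type*} [LinearOrderedCommGroupWithZero Γ] {n : ℕ}

lemma xm_et {c : eis} (hc : c ≠ 0) (η : MulChar (eis ⧸ (sp c : Ideal eis)) ℂ)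
    (h : ∀ x, IsCoprime x c → ‖et η x‖ = 1) : Xm c (et η) :=
  ⟨fun x y hxy => et_per hxy, fun x y => et_mul x y, fun x hx => (et_zero_iff x).2 hx, h⟩

/-- the value of the character at a class -/
lemma et_val (χ : MulChar G ℂ) {σ : G} (hσ : ∀ x : G, x ∈ Subgroup.zpowers σ)
    (hG : Nat.card G = 3 ^ n) {v : Valuation ℂ Γ} {x : eis} (hx : IsCoprime x (cP P)) :
    Nr v (v (1 - χ σ)) (et (eta art χ) x) := by
  obtain ⟨u, hu⟩ := (unit_iff x).2 hx
  have h1 : et (eta art χ) x = χ (art u) := by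
    unfold et
    rw [← hu, eta_unit]
  have hroot : χ σ ^ 3 ^ n = 1 := by rw [← map_pow, ← hG, pow_card_eq_one', map_one]
  obtain ⟨j, hj⟩ := mem_powers_iff_mem_zpowers.2 (hσ (art u))
  have hj' : σ ^ j = art u := hj
  rw [h1, ← hj', map_pow]
  exact (nr_root hroot).pow j

lemma v_w {L : PeriodPair} {Ω : ℂ} (hC : Cur L Ω) [Fintype (eis ⧸ (sp 3 : Ideal eis))]
    {v : Valuation ℂ Γ} (hv : v 3 < 1) {w : ℂ} (hw : Tendsto (WW Ω) (𝓝[>] 0) (𝓝 w)) :
    v w = v lam := by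
  have hwv := hC.w_val hw
  rw [hwv]
  have h8 : v (L.weierstrassP (Ω / 3)) = 1 := by
    refine v_one_of_pow (n := 6) (by norm_num) ?_
    have h9 : L.weierstrassP (Ω / 3) ^ 6 = 1 := by
      have := hC.x0
      linear_combination (L.weierstrassP (Ω / 3) ^ 3 - 1) * this
    rw [h9, map_one]
  have h9 : v (L.derivWeierstrassP (Ω / 3)) ^ 2 = v lam ^ 2 := by
    rw [← map_pow, hC.y0, v.map_neg, pow_two, sq_three]
  rw [map_mul, map_mul, map_pow, h8, one_pow, mul_one, v_two hv, one_mul]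
  exact (pow_left_inj₀ zero_le zero_le two_ne_zero).1 h9

/-- the valuation of the value -/
lemma v_aform (hP : Pr3 P) (hne : P.Nonempty) (hG : Nat.card G = 3 ^ n) (χ : MulChar G ℂ)
    {L : PeriodPair} {Ω : ℂ} (hC : Cur L Ω) {v : Valuation ℂ Γ} (hv : v 3 < 1) {a : ℂ}
    (ha : Tendsto (SS (ec (eta art χ))) (𝓝[>] 0) (𝓝 ((nu eis : ℂ) * (starRingEnd ℂ) a))) :
    v ((starRingEnd ℂ) a / Ω) * v lam ^ 3 = v (SU L Ω (cP P) (et (eta art χ))) := by
  classical
  have : Finite (eis ⧸ (sp 3 : Ideal eis)) := finite_q three_ne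
  have : Fintype (eis ⧸ (sp 3 : Ideal eis)) := Fintype.ofFinite _
  have hL := hC.lat
  have hΩ := hL.ne
  obtain ⟨w, hw⟩ := WW_lim hL
  have hroot : ∀ x, IsCoprime x (cP P) → et (eta art χ) x ^ 3 ^ n = 1 := by
    intro x hx
    obtain ⟨u, hu⟩ := (unit_iff x).2 hx
    have h1 : et (eta art χ) x = χ (art u) := by
      unfold et
      rw [← hu, eta_unit]
    rw [h1, ← map_pow, ← hG, pow_card_eq_one', map_one]
  have hX : Xm (cP P) (et (eta art χ)) := xm_et hP.ne _ fun x hx =>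
    norm_eq_one_of_pow_eq_one (hroot x hx) (pow_ne3 n)
  have l1 := lim_SU hC hP.ne (hP.not_unit hne) hP.three hX hw
  have h1 := tendsto_nhds_unique ha l1
  have h3 : v ((starRingEnd ℂ) (et (eta art χ) 3)) = 1 := by
    refine v_one_of_pow (n := 3 ^ n) (pow_ne3 n) ?_
    rw [← map_pow, hroot 3 (cop3_of hP.three), map_one, map_one]
  have hc := v_p hv hP.three
  have hw' := v_w hC hv hw
  have e1 : (starRingEnd ℂ) a / Ω = (starRingEnd ℂ) (et (eta art χ) 3) * w *
      SU L Ω (cP P) (et (eta art χ)) / (2 * 3 * 3 * (cP P : ℂ)) := by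
    have hc0 := coe_ne hP.ne
    rw [nu_six] at h1
    push_cast at h1
    field_simp
    field_simp at h1
    linear_combination h1
  rw [e1, map_div₀, map_mul, map_mul, map_mul, map_mul, map_mul, h3, hw', hc, v_two hv, one_mul,
    one_mul, mul_one]
  have hl := lam_ne (v := v)
  rw [← sq_three]
  field_simp

/-- the bound for the values -/
lemma v_a_le (hP : Pr3 P) (hG : Nat.card G = 3 ^ n) (hun : ∀ (χ : MulChar G ℂ) (u : eis),
      IsUnit u → et (eta art χ) u = 1)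
    {σ : G} (hσ : ∀ x : G, x ∈ Subgroup.zpowers σ) {k : ℕ} (hk : P.card = k + 1) (hk0 : k ≠ 0)
    {χ : MulChar G ℂ} (hχ : χ ≠ 1)
    {L : PeriodPair} {Ω : ℂ} (hC : Cur L Ω) {v : Valuation ℂ Γ} (hv : v 3 < 1) {a : ℂ}
    (ha : Tendsto (SS (ec (eta art χ))) (𝓝[>] 0) (𝓝 ((nu eis : ℂ) * (starRingEnd ℂ) a))) :
    v ((starRingEnd ℂ) a / Ω) ≤ v (1 - χ σ) ^ k := by
  have hne : P.Nonempty := Finset.card_pos.1 (by omega)
  have h1 := v_aform hP hne hG χ hC hv ha
  have hroot : χ σ ^ 3 ^ n = 1 := by rw [← map_pow, ← hG, pow_card_eq_one', map_one]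
  have hne1 : χ σ ≠ 1 := by
    intro h
    apply hχ
    ext u
    obtain ⟨j, hj⟩ := mem_powers_iff_mem_zpowers.2 (hσ (u : G))
    have hj' : σ ^ j = (u : G) := hj
    rw [← hj', map_pow, h, one_pow, MulChar.one_apply (Group.isUnit _)]
  obtain ⟨e, he⟩ := exists_idem hP
  have hF := cmp_fam (η := eta art χ) hP he (fun x hx => et_val χ hσ hG (v := v) hx)
    (hun χ omr omr_unit)
  have hg1 : v (1 - χ σ) ≤ 1 := by
    refine (v.map_sub _ _).trans (max_le (le_of_eq v.map_one) ?_)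
    rw [(nr_root (v := v) hroot).val]
  have h2 := SU_le hC hv hg1 (lam_le_root hroot hne1) k P _ hF hk (fun h => absurd h hk0)
  rw [cmp_prod hP he, ← h1, ← sq_three] at h2
  have hl := lam_ne (v := v)
  have h3 : v lam ^ 3 ≠ 0 := pow_ne_zero _ hl
  have e1 : v lam * v lam * v lam * v (1 - χ σ) ^ k = v (1 - χ σ) ^ k * v lam ^ 3 := by
    rw [mul_comm]
    congr 1
    simp only [pow_succ, pow_zero, one_mul]
  rw [e1] at h2
  exact le_of_mul_le_mul_right h2 (zero_lt_iff.2 h3)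

/-- the value for the trivial character -/
lemma v_a_one (hP : Pr3 P) (hne : P.Nonempty) (hG : Nat.card G = 3 ^ n)
    {L : PeriodPair} {Ω : ℂ} (hC : Cur L Ω) {v : Valuation ℂ Γ} (hv : v 3 < 1) {a : ℂ}
    (ha : Tendsto (SS (ec (eta art (1 : MulChar G ℂ)))) (𝓝[>] 0)
      (𝓝 ((nu eis : ℂ) * (starRingEnd ℂ) a))) :
    v ((starRingEnd ℂ) a / Ω) * v lam ^ 3 = ∏ p ∈ P, v ((p : ℂ) - 1) := by
  rw [v_aform hP hne hG 1 hC hv ha]
  have e1 : et (eta art (1 : MulChar G ℂ)) = XP P tr := by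
    funext x
    by_cases hx : IsCoprime x (cP P)
    · obtain ⟨u, hu⟩ := (unit_iff x).2 hx
      have h1 : et (eta art (1 : MulChar G ℂ)) x = 1 := by
        unfold et
        rw [← hu, eta_unit, MulChar.one_apply (Group.isUnit _)]
      rw [h1]
      rw [cop_cP hP] at hx
      exact (Finset.prod_eq_one fun q hq => tr_not (hx q hq)).symm
    · rw [(et_zero_iff x).2 hx]
      rw [cop_cP hP] at hx
      push Not at hx
      obtain ⟨p, hp, hpx⟩ := hx
      exact (Finset.prod_eq_zero (f := fun q => tr q x) hp (tr_dvd hpx)).symm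
  rw [e1, SU_one hC hP hne, map_prod]

end values

end Pool.Agent.H62
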