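import Mathlib
import Pool.Agent.H62.An3

/-!
# The analytic theorem for extensions totally ramified at several primes, III
-/

set_option autoImplicit false
set_option linter.unusedSectionVars false
set_option linter.unusedVariables false

namespace Pool.Agent.H62

open NumberField IsDedekindDomain IsLocalRing Filter Topology Complex
open Pool.Agent.W192.HK Pool.Agent.TH936.CM Pool.Agent.TH936.PU
open Pool.Agent.W189.NF (aV eV redMap)
open Pool.Agent.W192.CM (nu)
open Pool.Agent.Y696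
open Pool.Agent.N883.Q Pool.Agent.N883.T
open Pool.Agent.Y715.T.Three Pool.Agent.Y715.T.Lat
open Pool.Agent.Y715.T.LF (rd)

variable {K : Type} [Field K] [NumberField K] {ι : eis →+* 𝓞 K} {G : Type} [CommGroup G] [Finite G]
  [MulSemiringAction G (𝓞 K)] {P : Finset eis} {art : (eis ⧸ (sp (cP P) : Ideal eis))ˣ →* G}
  {n : ℕ}

/-- the places of the primes of `P` -/
lemma prod_Sc {M : Type*} [CommMonoid M] (hP : Pr3 P) (hc : cP P ≠ 0)
    (f : HeightOneSpectrum eis → M) {Q : eis → HeightOneSpectrum eis}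
    (hQ : ∀ p ∈ P, (Q p).asIdeal = sp p) : ∏ R ∈ Sc hc, f R = ∏ p ∈ P, f (Q p) := by
  classical
  symm
  refine Finset.prod_bij (fun p _ => Q p) (fun p hp => ?_) (fun p hp q hq h => ?_)
    (fun R hR => ?_) (fun p _ => rfl)
  · rw [mem_Sc, hQ p hp]
    exact Ideal.mem_span_singleton.2 (Finset.dvd_prod_of_mem _ hp)
  · by_contra hne
    have h1 := hP.cop p hp q hq hne
    have h2 : (sp p : Ideal eis) = sp q := by rw [← hQ p hp, ← hQ q hq, h]
    obtain ⟨u, hu⟩ := Ideal.span_singleton_eq_span_singleton.1 h2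
    exact (hP.prime p hp).not_isUnit (h1.isUnit_of_dvd' dvd_rfl ⟨u, hu.symm⟩)
  · rw [mem_Sc] at hR
    obtain ⟨p, hp, hpR⟩ : ∃ p ∈ P, p ∈ R.asIdeal := by
      have := R.isPrime
      exact (Ideal.IsPrime.prod_mem_iff.1 hR)
    refine ⟨p, hp, ?_⟩
    apply HeightOneSpectrum.ext
    rw [hQ p hp]
    have hmax : (sp p : Ideal eis).IsMaximal :=
      PrincipalIdealRing.isMaximal_of_irreducible (hP.prime p hp).irreducible
    exact hmax.eq_of_le R.isPrime.ne_top ((Ideal.span_singleton_le_iff_mem _).2 hpR)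

/-- the analytic theorem -/
theorem analyticM (hP : Pr3 P) (D : DatQ ι G (cP P) art) (hr3 : Ram3 ι) (hG : Nat.card G = 3 ^ n)
    (hT : Tot ι G (cP P)) {σ : G} (hσ : ∀ x : G, x ∈ Subgroup.zpowers σ) {k : ℕ}
    (hk : P.card = k + 1) (hk0 : k ≠ 0) :
    ∃ Lf : ℂ → ℂ, MeromorphicOn Lf Set.univ ∧ (∀ s : ℂ, 3 / 2 < s.re →
      LSeriesSummable ((fun n : ℤ => (n : ℂ)) ∘ (E0 K).LFunction) s ∧ Lf s = (E0 K).LSeries s) ∧
      AnalyticAt ℂ Lf 1 ∧
      (∀ (L : PeriodPair) (Ω : ℂ), Cur L Ω → ∀ (Γ : Type) [LinearOrderedCommGroupWithZero Γ]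
        (v : Valuation ℂ Γ), v 3 < 1 →
          v (Lf 1 / (Ω * (starRingEnd ℂ) Ω) ^ Nat.card G) * v 27 ≤ v 3 ^ (2 * n * k)) ∧
      ∀ (L : PeriodPair) (Ω : ℂ), Cur L Ω →
        ∃ r : ℚ, Lf 1 / (Ω * (starRingEnd ℂ) Ω) ^ Nat.card G = r := by
  classical
  have hne : P.Nonempty := Finset.card_pos.1 (by omega)
  have hfinM : Finite (MulChar G ℂ) := inferInstance
  have : Fintype (MulChar G ℂ) := Fintype.ofFinite _
  have hH := fun χ : MulChar G ℂ => hecke D.c_ne D.cop3 (η := eta art χ) (et_eta_unitQ D χ)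
  choose F hFd hFs hFl using hH
  have hcard : Fintype.card (MulChar G ℂ) = Nat.card G := by
    rw [← Nat.card_eq_fintype_card, MulChar.card_eq_card_units_of_hasEnoughRootsOfUnity]
    exact Nat.card_congr toUnits.symm.toEquiv
  set Lf : ℂ → ℂ := fun s => (∏ P ∈ Sc D.c_ne, ∏ v : {v : HeightOneSpectrum (𝓞 K) // bel ι v = P},
    (EV v.1 s)⁻¹) * ∏ χ, (F χ s * (starRingEnd ℂ) (F χ ((starRingEnd ℂ) s))) with hLf
  have hconj : ∀ χ, Differentiable ℂ (fun s => (starRingEnd ℂ) (F χ ((starRingEnd ℂ) s))) := by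
    intro χ s
    exact differentiableAt_conj_conj_iff.2 (hFd χ _)
  have hent : Differentiable ℂ (fun s => ∏ χ, (F χ s * (starRingEnd ℂ) (F χ ((starRingEnd ℂ) s)))) :=
    Differentiable.fun_finsetProd fun χ _ => (hFd χ).mul (hconj χ)
  -- the places
  have hQ : ∀ p, ∃ Q : HeightOneSpectrum eis, p ∈ P → Q.asIdeal = sp p := by
    intro p
    by_cases hp : p ∈ P
    · obtain ⟨Q, hQ⟩ := exists_place (hP.prime p hp)
      exact ⟨Q, fun _ => hQ⟩
    · obtain ⟨q, hq⟩ := hne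
      obtain ⟨Q, hQ⟩ := exists_place (hP.prime q hq)
      exact ⟨Q, fun h => absurd h hp⟩
  choose Q hQ using hQ
  have hw : ∀ p, ∃ w : HeightOneSpectrum (𝓞 K), bel ι w = Q p := fun p => exists_overQ D (Q p)
  choose w hw using hw
  have hcw : ∀ p ∈ P, ι (cP P) ∈ (w p).asIdeal := by
    intro p hp
    rw [← mem_bel, hw, hQ p hp]
    exact Ideal.mem_span_singleton.2 (Finset.dvd_prod_of_mem _ hp)
  have hsub : ∀ f : HeightOneSpectrum (𝓞 K) → ℂ,
      ∏ P ∈ Sc D.c_ne, ∏ v : {v : HeightOneSpectrum (𝓞 K) // bel ι v = P}, f v.1 =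
        ∏ p ∈ P, f (w p) := by
    intro f
    rw [prod_Sc hP D.c_ne _ hQ]
    refine Finset.prod_congr rfl fun p hp => ?_
    let _ : Unique {v : HeightOneSpectrum (𝓞 K) // bel ι v = Q p} :=
      { default := ⟨w p, hw p⟩
        uniq := fun v => Subtype.ext (tot_uniq' D hT (by
          rw [← mem_bel, v.2, ← hw, mem_bel]
          exact hcw p hp) (by rw [v.2, hw])) }
    rw [Fintype.prod_unique]
    rfl
  have hEV : ∀ p ∈ P, ∀ (Γ : Type) [LinearOrderedCommGroupWithZero Γ] (v : Valuation ℂ Γ),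
      v 3 < 1 → v (EV (w p) 1) = v ((p : ℂ) - 1) * v ((starRingEnd ℂ) (p : ℂ) - 1) :=
    fun p hp Γ _ v hv => v_EVp D hT hG (hP.prime p hp) (hP.one p hp) (by rw [hw, hQ p hp])
      (hcw p hp) hv
  have hp1 : ∀ p ∈ P, (p : ℂ) - 1 ≠ 0 := by
    intro p hp h0
    have h1 : (p : ℂ) = ((1 : eis) : ℂ) := by
      push_cast
      linear_combination h0
    have h2 : p = 1 := Subtype.ext h1
    exact (hP.prime p hp).ne_one h2
  have hpc1 : ∀ p ∈ P, (starRingEnd ℂ) (p : ℂ) - 1 ≠ 0 := by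
    intro p hp h0
    apply hp1 p hp
    have := congrArg (starRingEnd ℂ) h0
    rwa [map_sub, Complex.conj_conj, map_one, map_zero] at this
  have hval : ∀ (L : PeriodPair) (Ω : ℂ), Cur L Ω → ∀ (Γ : Type)
      [LinearOrderedCommGroupWithZero Γ] (v : Valuation ℂ Γ), v 3 < 1 →
      v (Lf 1 / (Ω * (starRingEnd ℂ) Ω) ^ Nat.card G) * v 27 ≤ v 3 ^ (2 * n * k) := by
    intro L Ω hC Γ _ v hv
    have hv' : vc v 3 < 1 := v_conj3 hv
    have h1 : Lf 1 / (Ω * (starRingEnd ℂ) Ω) ^ Nat.card G =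
        (∏ P ∈ Sc D.c_ne, ∏ v : {v : HeightOneSpectrum (𝓞 K) // bel ι v = P}, (EV v.1 1)⁻¹) *
        ∏ χ : MulChar G ℂ, (F χ 1 * (starRingEnd ℂ) (F χ 1) / (Ω * (starRingEnd ℂ) Ω)) := by
      rw [hLf, Finset.prod_div_distrib, Finset.prod_const, Finset.card_univ, hcard]
      simp only [map_one]
      rw [mul_div_assoc]
    have hsplit : ∀ χ : MulChar G ℂ,
        v (F χ 1 * (starRingEnd ℂ) (F χ 1) / (Ω * (starRingEnd ℂ) Ω)) =
          vc v ((starRingEnd ℂ) (F χ 1) / Ω) * v ((starRingEnd ℂ) (F χ 1) / Ω) := by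
      intro χ
      have e0 : vc v ((starRingEnd ℂ) (F χ 1) / Ω) = v (F χ 1 / (starRingEnd ℂ) Ω) := by
        rw [vc_apply, map_div₀ (starRingEnd ℂ), Complex.conj_conj]
      rw [e0]
      have h3 : F χ 1 * (starRingEnd ℂ) (F χ 1) / (Ω * (starRingEnd ℂ) Ω) =
          (F χ 1 / (starRingEnd ℂ) Ω) * ((starRingEnd ℂ) (F χ 1) / Ω) := by
        rw [div_mul_div_comm, mul_comm Ω]
      rw [h3, map_mul]
    have hvl : vc v lam = v lam := by
      rw [vc_apply]
      have : (starRingEnd ℂ) lam = -lam := by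
        apply Complex.ext
        · simp [lam]
        · simp [lam]
      rw [this, v.map_neg]
    -- the trivial character
    have t1 := v_a_one (art := art) hP hne hG hC hv (hFl 1 L Ω hC.lat)
    have t2 := v_a_one (art := art) hP hne hG hC hv' (hFl 1 L Ω hC.lat)
    rw [hvl] at t2
    have t2' : ∏ p ∈ P, vc v ((p : ℂ) - 1) = ∏ p ∈ P, v ((starRingEnd ℂ) (p : ℂ) - 1) := by
      refine Finset.prod_congr rfl fun p _ => ?_
      rw [vc_apply, map_sub, map_one]
    rw [t2'] at t2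
    -- the others
    have hσo : orderOf σ = Nat.card G := orderOf_eq_card_of_forall_mem_zpowers hσ
    have t3 : ∏ χ ∈ (Finset.univ : Finset (MulChar G ℂ)).erase 1,
        v (F χ 1 * (starRingEnd ℂ) (F χ 1) / (Ω * (starRingEnd ℂ) Ω)) ≤ v 3 ^ (2 * n * k) := by
      have e1 : v 3 ^ (2 * n * k) = ∏ χ ∈ (Finset.univ : Finset (MulChar G ℂ)).erase 1,
          v (1 - χ σ) ^ (2 * k) := by
        rw [Finset.prod_pow, ← map_prod, prod_roots hσo, hG]
        push_cast
        rw [map_pow, ← pow_mul]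
        congr 1
        ring
      rw [e1]
      refine Finset.prod_le_prod' fun χ hχ => ?_
      have hχ1 := (Finset.mem_erase.1 hχ).1
      rw [hsplit, two_mul, pow_add]
      refine mul_le_mul' ?_ ?_
      · have b1 := v_a_le (art := art) hP hG (et_eta_unitQ D) hσ hk hk0 hχ1 hC hv'
          (hFl χ L Ω hC.lat)
        refine b1.trans (pow_le_pow_left' ?_ k)
        have hroot : χ σ ^ 3 ^ n = 1 := by rw [← map_pow, ← hG, pow_card_eq_one', map_one]
        have := (nr_root (v := v) hroot).conj.near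
        rwa [vc_apply, map_sub, map_one]
      · exact v_a_le (art := art) hP hG (et_eta_unitQ D) hσ hk hk0 hχ1 hC hv (hFl χ L Ω hC.lat)
    rw [h1, map_mul, map_prod v _ (Finset.univ : Finset (MulChar G ℂ)),
      hsub (fun v => (EV v 1)⁻¹), map_prod, ← Finset.mul_prod_erase _ _ (Finset.mem_univ 1),
      hsplit]
    have e2 : ∏ p ∈ P, v (EV (w p) 1)⁻¹ =
        (∏ p ∈ P, v ((p : ℂ) - 1))⁻¹ * (∏ p ∈ P, v ((starRingEnd ℂ) (p : ℂ) - 1))⁻¹ := by
      rw [← Finset.prod_inv_distrib, ← Finset.prod_inv_distrib, ← Finset.prod_mul_distrib]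
      refine Finset.prod_congr rfl fun p hp => ?_
      rw [map_inv₀, hEV p hp Γ v hv, mul_inv]
    rw [e2, ← t1, ← t2, v_27]
    have hl : v lam ≠ 0 := lam_ne
    have ha1 : v ((starRingEnd ℂ) (F 1 1) / Ω) ≠ 0 := by
      intro h0
      rw [h0, zero_mul] at t1
      exact Finset.prod_ne_zero_iff.2 (fun p hp => (Valuation.ne_zero_iff _).2 (hp1 p hp)) t1.symm
    have ha2 : vc v ((starRingEnd ℂ) (F 1 1) / Ω) ≠ 0 := by
      intro h0
      rw [h0, zero_mul] at t2
      exact Finset.prod_ne_zero_iff.2 (fun p hp => (Valuation.ne_zero_iff _).2 (hpc1 p hp)) t2.symm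
    refine (le_of_eq ?_).trans t3
    field_simp
  have hrat : ∀ (L : PeriodPair) (Ω : ℂ), Cur L Ω →
      ∃ r : ℚ, Lf 1 / (Ω * (starRingEnd ℂ) Ω) ^ Nat.card G = r := by
    intro L Ω hC
    have h1 : Lf 1 / (Ω * (starRingEnd ℂ) Ω) ^ Nat.card G =
        (∏ P ∈ Sc D.c_ne, ∏ v : {v : HeightOneSpectrum (𝓞 K) // bel ι v = P}, (EV v.1 1)⁻¹) *
        ∏ χ : MulChar G ℂ, (F χ 1 * (starRingEnd ℂ) (F χ 1) / (Ω * (starRingEnd ℂ) Ω)) := by
      rw [hLf, Finset.prod_div_distrib, Finset.prod_const, Finset.card_univ, hcard]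
      simp only [map_one]
      rw [mul_div_assoc]
    have hodd : Odd (Nat.card G) := by
      rw [hG]
      exact Odd.pow (by decide)
    obtain ⟨r, hr⟩ := rat_prod D hodd hFl hC
    obtain ⟨t, ht⟩ : ∃ t : ℚ, ∏ P ∈ Sc D.c_ne,
        ∏ v : {v : HeightOneSpectrum (𝓞 K) // bel ι v = P}, (EV v.1 1)⁻¹ = t := by
      refine rat_mul _ fun P _ => rat_mul _ fun w _ => ?_
      obtain ⟨x, hx⟩ := rat_EV (K := K) w.1
      exact ⟨x⁻¹, by rw [hx]; push_cast; rfl⟩
    exact ⟨t * r, by rw [h1, hr, ht]; push_cast; rfl⟩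
  refine ⟨Lf, ?_, ?_, ?_, hval, hrat⟩
  · have h1 : MeromorphicOn (fun s => ∏ P ∈ Sc D.c_ne,
        ∏ v : {v : HeightOneSpectrum (𝓞 K) // bel ι v = P}, (EV v.1 s)⁻¹) Set.univ := by
      intro z _
      refine MeromorphicAt.fun_prod fun P _ => MeromorphicAt.fun_prod fun w _ => ?_
      exact ((EV_diff w.1).analyticAt z).meromorphicAt.inv
    intro z hz
    exact (h1 z hz).mul ((hent.analyticAt z).meromorphicAt)
  · intro s hs
    refine ⟨(LSeries_hasProd' (E0 K) (hasseQ D hr3) hs).1, ?_⟩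
    rw [LK_eqQ D hr3 hFs hs]
    rfl
  · have h1 : ∀ R ∈ Sc D.c_ne, ∀ u : {v : HeightOneSpectrum (𝓞 K) // bel ι v = R},
        EV u.1 1 ≠ 0 := by
      intro R hR u h0
      obtain ⟨V, hV⟩ := Pool.Agent.Y715.T.Fin.exists_over_three
      have hR' := (mem_Sc D.c_ne).1 hR
      obtain ⟨p, hp, hpR⟩ : ∃ p ∈ P, p ∈ R.asIdeal := by
        have := R.isPrime
        exact (Ideal.IsPrime.prod_mem_iff.1 hR')
      have hRp : R.asIdeal = sp p := by
        have hmax : (sp p : Ideal eis).IsMaximal :=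
          PrincipalIdealRing.isMaximal_of_irreducible (hP.prime p hp).irreducible
        exact (hmax.eq_of_le R.isPrime.ne_top ((Ideal.span_singleton_le_iff_mem _).2 hpR)).symm
      have h2 := v_EVp D hT hG (hP.prime p hp) (hP.one p hp) (w := u.1) (by rw [u.2, hRp])
        (by rw [← mem_bel, u.2]; exact hR') (v := V.valuation) hV
      rw [h0, map_zero] at h2
      rcases mul_eq_zero.1 h2.symm with h3 | h3
      · exact hp1 p hp ((Valuation.zero_iff _).1 h3)
      · exact hpc1 p hp ((Valuation.zero_iff _).1 h3)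
    refine AnalyticAt.mul ?_ (hent.analyticAt 1)
    refine Finset.analyticAt_fun_prod _ fun P hP => Finset.analyticAt_fun_prod _ fun w _ => ?_
    exact ((EV_diff w.1).analyticAt 1).inv (h1 P hP w)

end Pool.Agent.H62
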