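import Mathlib
import Pool.Graph.R_pool_sql_team_seeded_3997aac3.Q7.CE.All3

/-!
# From the Selmer group to the finiteness theorem for `y² + y = x³`
-/

set_option autoImplicit false

namespace Pool.Agent.H62

open NumberField IsDedekindDomain WeierstrassCurve Pool.Agent.Q7.LK Pool.Agent.Q7.CE
open Pool.Agent.TH841.SH.D (Coch Pt act Gal IsCoc IsCob LocTriv cob)
open Pool.Agent.TH841.NF.D (Sha IsShaCoc shaCoc)
open Pool.Agent.Q285.CE Pool.Agent.Q123.CE

/-- finitely generated groups with `M = 3 M + M[9]` are finite -/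
theorem fin_of_div9 {M : Type} [AddCommGroup M] (hfg : AddGroup.FG M)
    (h : ∀ P : M, ∃ Q T : M, P = (3 : ℕ) • Q + T ∧ (9 : ℕ) • T = 0) : Finite M := by
  have hM : Module.Finite ℤ M := Module.Finite.iff_addGroup_fg.2 hfg
  let g : M →ₗ[ℤ] M := LinearMap.lsmul ℤ M 9
  have hg : ∀ x, g x = (9 : ℤ) • x := fun x => rfl
  have hN : (LinearMap.range g).FG := by
    rw [LinearMap.range_eq_map]
    exact (Module.Finite.fg_top (R := ℤ) (M := M)).map g
  have hle : LinearMap.range g ≤ (Ideal.span {(3 : ℤ)}) • LinearMap.range g := by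
    rintro _ ⟨P, rfl⟩
    obtain ⟨Q, T, hP, hT⟩ := h P
    have e : g P = (3 : ℤ) • g Q := by
      rw [hg, hg, hP, smul_add]
      have h1 : (9 : ℤ) • T = 0 := by
        rw [← hT, ← natCast_zsmul]
        rfl
      rw [h1, add_zero, ← natCast_zsmul, smul_comm]
      rfl
    rw [e]
    exact Submodule.smul_mem_smul (Ideal.mem_span_singleton_self _) ⟨Q, rfl⟩
  obtain ⟨r, hr, hrN⟩ := Submodule.exists_sub_one_mem_and_smul_eq_zero_of_fg_of_le_smul _ _ hN hle
  have hr0 : r ≠ 0 := by
    rintro rfl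
    rw [Ideal.mem_span_singleton] at hr
    omega
  have ht : Module.IsTorsion ℤ M := by
    intro x
    refine ⟨⟨r * 9, mem_nonZeroDivisors_of_ne_zero (mul_ne_zero hr0 (by norm_num))⟩, ?_⟩
    show (r * 9) • x = 0
    rw [mul_smul]
    exact hrN _ ⟨x, rfl⟩
  exact Module.finite_of_fg_torsion _ ht

section main

variable {F : Type} [Field F] [NumberField F] {W : WeierstrassCurve F}

/-- the weaker form of the hypothesis (A) -/
def HA9 (W : WeierstrassCurve F) : Prop := ∀ f : Coch W, IsShaCoc W f →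
  (∀ σ, f σ = 0 ∨ ∃ y h, f σ = Affine.Point.some 0 y h) →
  ∃ R : Pt W (AlgebraicClosure F), (9 : ℕ) • R = 0 ∧ ∀ σ : Gal F, f σ = act W σ.toAlgHom R - R

variable {Θ : ∀ (L : Type) [Field L] [Algebra F L], Pt W L →+ Pt W L}

theorem stepB9 (hA : HA9 W) (hΘ : EndG W Θ) {f : Coch W} (hf : IsShaCoc W f)
    (hc : IsCob W (fun σ => Θ (AlgebraicClosure F) (f σ))) : IsCob W f := by
  obtain ⟨P, hP⟩ := hc
  obtain ⟨R, hR⟩ := hΘ.surj (AlgebraicClosure F) inferInstance P
  have hg : IsShaCoc W (f - cbd W R) := (shaCoc W).sub_mem hf (sha_cbd R)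
  obtain ⟨R', -, hR'⟩ := hA (f - cbd W R) hg (fun σ => by
    apply hΘ.ker
    show Θ (AlgebraicClosure F) (f σ - (act W σ.toAlgHom R - R)) = 0
    have h1 : Θ (AlgebraicClosure F) (f σ) = act W σ.toAlgHom P - P := hP σ
    rw [map_sub, map_sub, ← hΘ.nat, h1, hR, sub_self])
  refine ⟨R + R', fun σ => ?_⟩
  have h1 : f σ - (act W σ.toAlgHom R - R) = act W σ.toAlgHom R' - R' := hR' σ
  rw [map_add]
  have h2 : f σ = (act W σ.toAlgHom R' - R') + (act W σ.toAlgHom R - R) := by
    rw [← h1]
    abel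
  rw [h2]
  abel

theorem stepC9 (hA : HA9 W) (hΘ : EndG W Θ) (P : Pt W F) :
    ∃ Q T : Pt W F, P = Θ F Q + T ∧ (9 : ℕ) • T = 0 := by
  let j := act W (Algebra.ofId F (AlgebraicClosure F))
  have hj : Function.Injective j := act_inj W _
  obtain ⟨R, hR⟩ := hΘ.surj (AlgebraicClosure F) inferInstance (j P)
  obtain ⟨R', h3, hR'⟩ := hA (cbd W R) (sha_cbd R) (fun σ => by
    apply hΘ.ker
    show Θ (AlgebraicClosure F) (act W σ.toAlgHom R - R) = 0
    rw [map_sub, ← hΘ.nat, hR]
    show act W σ.toAlgHom (act W (Algebra.ofId F (AlgebraicClosure F)) P) - j P = 0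
    rw [act_fix]
    exact sub_self _)
  obtain ⟨Q, hQ⟩ := descent W (R - R') (fun σ => by
    have h1 : act W σ.toAlgHom R - R = act W σ.toAlgHom R' - R' := hR' σ
    rw [map_sub]
    rw [sub_eq_sub_iff_add_eq_add] at h1 ⊢
    rw [h1]
    abel)
  refine ⟨Q, P - Θ F Q, by abel, ?_⟩
  apply hj
  have h1 : j (P - Θ F Q) = Θ (AlgebraicClosure F) R' := by
    have h2 : j (Θ F Q) = Θ (AlgebraicClosure F) (R - R') := by
      rw [← hQ]
      exact hΘ.nat F (AlgebraicClosure F) _ Q
    rw [map_sub, h2, ← hR, map_sub]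
    abel
  rw [map_nsmul, h1, ← map_nsmul, h3, map_zero, map_zero]

end main

section E

variable {K : Type} [Field K] [CharZero K] {ω : K}

lemma quad_of (hω : IsPrimitiveRoot ω 3) : ω ^ 2 + ω + 1 = 0 := by
  have h1 : (ω - 1) * (ω ^ 2 + ω + 1) = 0 := by
    have := hω.pow_eq_one
    linear_combination this
  refine (mul_eq_zero.1 h1).resolve_left fun h2 => ?_
  exact hω.ne_one (by norm_num) (sub_eq_zero.1 h2)

/-- `1 - ω` -/
noncomputable def th (hI : ω ^ 2 + ω + 1 = 0) (L : Type) [Field L] [Algebra K L] :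
    Pt (ED (1 : K)) L →+ Pt (ED (1 : K)) L :=
  AddMonoidHom.id (Pt (ED (1 : K)) L) - imP one_ne_zero hI L

/-- `1 - ω²` -/
noncomputable def th' (hI : ω ^ 2 + ω + 1 = 0) (L : Type) [Field L] [Algebra K L] :
    Pt (ED (1 : K)) L →+ Pt (ED (1 : K)) L :=
  AddMonoidHom.id (Pt (ED (1 : K)) L) - (imP one_ne_zero hI L).comp (imP one_ne_zero hI L)

variable (hI : ω ^ 2 + ω + 1 = 0) (L : Type) [Field L] [Algebra K L]

lemma th_apply (P : Pt (ED (1 : K)) L) : th hI L P = P - imP one_ne_zero hI L P := rfl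

lemma th'_apply (P : Pt (ED (1 : K)) L) :
    th' hI L P = P - imP one_ne_zero hI L (imP one_ne_zero hI L P) := rfl

lemma th'_th (P : Pt (ED (1 : K)) L) : th' hI L (th hI L P) = (3 : ℕ) • P := by
  rw [th'_apply, th_apply, map_sub, map_sub, imP3, imP_imP]
  abel

lemma th_th' (P : Pt (ED (1 : K)) L) : th hI L (th' hI L P) = (3 : ℕ) • P := by
  rw [th'_apply, th_apply, map_sub, imP3, imP_imP]
  abel

lemma th_th (P : Pt (ED (1 : K)) L) : th hI L (th hI L P) = -((3 : ℕ) • imP one_ne_zero hI L P) := by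
  rw [th_apply, th_apply, map_sub, imP_imP]
  abel

lemma th_ker {P : Pt (ED (1 : K)) L} (h : th hI L P = 0) :
    P = 0 ∨ ∃ y h, P = Affine.Point.some 0 y h := imP_ker one_ne_zero hI L P h

lemma th'_ker {P : Pt (ED (1 : K)) L} (h : th' hI L P = 0) :
    P = 0 ∨ ∃ y h, P = Affine.Point.some 0 y h := by
  apply imP_ker one_ne_zero hI L P
  have h1 : P - imP one_ne_zero hI L (imP one_ne_zero hI L P) = 0 := h
  have h2 : imP one_ne_zero hI L (P - imP one_ne_zero hI L (imP one_ne_zero hI L P)) = 0 := by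
    rw [h1, map_zero]
  rw [map_sub, imP3] at h2
  rw [← neg_sub, h2, neg_zero]

/-- the points with `x = 0` are fixed by `ω` -/
lemma im_T {y : L} (h : ((ED (1 : K)).baseChange L).toAffine.Nonsingular 0 y) :
    imP one_ne_zero hI L (Affine.Point.some 0 y h) = Affine.Point.some 0 y h := by
  show (Affine.Point.some (algebraMap K L ω * 0) y _ : ((ED (1 : K)).baseChange L).toAffine.Point) = _
  rw [Affine.Point.some.injEq]
  exact ⟨mul_zero _, rfl⟩

lemma th_T {y : L} (h : ((ED (1 : K)).baseChange L).toAffine.Nonsingular 0 y) :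
    th hI L (Affine.Point.some 0 y h) = 0 := by
  rw [th_apply, im_T, sub_self]

lemma th'_T {y : L} (h : ((ED (1 : K)).baseChange L).toAffine.Nonsingular 0 y) :
    th' hI L (Affine.Point.some 0 y h) = 0 := by
  rw [th'_apply, im_T, im_T, sub_self]

lemma endG_th : EndG (ED (1 : K)) (fun L _ _ => th hI L) :=
  ⟨fun L L' _ _ _ _ φ P => by
    show act (ED (1 : K)) φ (P - imP one_ne_zero hI L P) = _
    rw [map_sub, imP_act]
    rfl, fun L _ _ P h => th_ker hI L h,
    fun L _ _ _ P => imP_surj one_ne_zero hI L P⟩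

lemma endG_th' : EndG (ED (1 : K)) (fun L _ _ => th' hI L) :=
  ⟨fun L L' _ _ _ _ φ P => by
    show act (ED (1 : K)) φ (P - imP one_ne_zero hI L (imP one_ne_zero hI L P)) = _
    rw [map_sub, imP_act, imP_act]
    rfl, fun L _ _ P h => th'_ker hI L h,
    fun L _ _ _ P => by
      obtain ⟨R, hR⟩ := imP_surj one_ne_zero hI L (-(imP one_ne_zero hI L P))
      refine ⟨R, ?_⟩
      rw [th'_apply]
      have h1 : imP one_ne_zero hI L (imP one_ne_zero hI L (R - imP one_ne_zero hI L R)) = -P := by
        rw [hR, map_neg, map_neg, imP3]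
      rw [map_sub, map_sub, imP3] at h1
      rw [← neg_sub, h1, neg_neg]⟩

include hI in
/-- the point with coordinates `-1` and `ω²` -/
lemma nons_T' : ((ED (1 : K)).baseChange L).toAffine.Nonsingular (-1) (algebraMap K L ω ^ 2) := by
  have : CharZero L := charZero_of_injective_algebraMap (algebraMap K L).injective
  have hV := isD_base (1 : K) L
  have h1 : (algebraMap K L (1 : K)) ≠ 0 := by rw [map_one]; exact one_ne_zero
  refine hV.nons h1 ?_
  have h2 : algebraMap K L ω ^ 2 + algebraMap K L ω + 1 = 0 := by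
    rw [← map_pow, ← map_add, ← map_one (algebraMap K L), ← map_add, hI, map_zero]
  rw [map_one]
  linear_combination (algebraMap K L ω ^ 2 - algebraMap K L ω + 1) * h2

/-- the point with coordinates `-1` and `ω²` -/
noncomputable def T' : Pt (ED (1 : K)) L := Affine.Point.some (-1) (algebraMap K L ω ^ 2) (nons_T' hI L)

/-- the second coordinate of a point killed by `(1 - ω)²` -/
lemma coord {P : Pt (ED (1 : K)) L} (h2 : th hI L (th hI L P) = 0) (h1 : th hI L P ≠ 0) :
    clP (1 : K) P = algebraMap K L ω ∨ clP (1 : K) P = algebraMap K L ω ^ 2 := by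
  have : CharZero L := charZero_of_injective_algebraMap (algebraMap K L).injective
  have hV := isD_base (1 : K) L
  have hD : (algebraMap K L (1 : K)) ≠ 0 := by rw [map_one]; exact one_ne_zero
  have hI' : algebraMap K L ω ^ 2 + algebraMap K L ω + 1 = 0 := by
    rw [← map_pow, ← map_add, ← map_one (algebraMap K L), ← map_add, hI, map_zero]
  rcases P with _ | ⟨x, y, hn⟩
  · exact absurd (map_zero (th hI L)) h1
  · by_cases hx : x = 0
    · subst hx
      exact absurd (th_T hI L hn) h1
    · set I := algebraMap K L ω with hId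
      have hlam := lamI hI'
      obtain ⟨g, hg⟩ : ∃ g : L, y = 1 * I ^ 2 + (1 + 2 * I) * x * g := by
        refine ⟨(y - I ^ 2) / ((1 + 2 * I) * x), ?_⟩
        rw [mul_div_cancel₀ _ (mul_ne_zero hlam hx)]
        ring
      have hone : algebraMap K L (1 : K) = 1 := map_one _
      have hg' : y = algebraMap K L (1 : K) * I ^ 2 + (1 + 2 * I) * x * g := by rw [hone, hg]
      have he := (hV.eqn _ _).1 hn.1
      have hrel := rel (D := algebraMap K L (1 : K)) hI' he hg'
      subst hg'
      obtain ⟨X, hX, h4⟩ : ∃ (X : L) (hX : ((ED (1 : K)).baseChange L).toAffine.Nonsingular X (g ^ 3)),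
          th hI L (Affine.Point.some x _ hn) = Affine.Point.some X (g ^ 3) hX :=
        @one_sub_im L _ (Classical.decEq L) ((ED (1 : K)).baseChange L) (algebraMap K L (1 : K))
          (charZero_of_injective_algebraMap (algebraMap K L).injective) (algebraMap K L ω)
          (isD_base (1 : K) L) ((map_ne_zero _).2 one_ne_zero) hI' x g hn hx
      rcases th_ker hI L h2 with h5 | ⟨y', hy', h5⟩
      · rw [h4] at h5
        exact absurd h5 (Affine.Point.some_ne_zero _)
      · rw [h4] at h5
        obtain ⟨hX0, hY⟩ := some_in h5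
        have he2 := (hV.eqn _ _).1 hX.1
        rw [hX0, hone] at he2
        have hg3 : g ^ 3 * (g ^ 3 + 1) = 0 := by linear_combination he2
        -- `x³ = -1`
        have hx3 : x ^ 3 = -1 := by
          rw [hone] at hrel
          rcases mul_eq_zero.1 hg3 with h6 | h6
          · have hg0 : g = 0 := pow_eq_zero_iff three_ne_zero |>.1 h6
            rw [hg0] at hrel
            linear_combination hrel
          · have h7 : g ≠ 0 := by
              rintro rfl
              norm_num at h6
            -- `(1 - g x)³ = 0`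
            have h8 : (1 - g * x) ^ 3 = 0 := by
              linear_combination hrel + (-(x ^ 3)) * h6
            have h9 : 1 - g * x = 0 := pow_eq_zero_iff three_ne_zero |>.1 h8
            have h10 : g * x = 1 := by linear_combination -h9
            have h11 : g ^ 3 * x ^ 3 = 1 := by
              calc g ^ 3 * x ^ 3 = (g * x) ^ 3 := by ring
                _ = 1 := by rw [h10]; ring
            linear_combination (-1 : L) * h11 + x ^ 3 * h6
        set y := algebraMap K L (1 : K) * I ^ 2 + (1 + 2 * I) * x * g with hy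
        rw [hx3, hone] at he
        have h6 : (y - I) * (y - I ^ 2) = 0 := by
          linear_combination he + (-(y) + I - 1) * hI'
        have hI0 : I ≠ 0 := neI hI'
        rcases mul_eq_zero.1 h6 with h7 | h7
        · left
          have h8 : y = I := sub_eq_zero.1 h7
          show cy (algebraMap K L (1 : K)) y = I
          rw [cy_of (by rw [h8]; exact hI0), h8]
        · right
          have h8 : y = I ^ 2 := sub_eq_zero.1 h7
          show cy (algebraMap K L (1 : K)) y = I ^ 2
          rw [cy_of (by rw [h8]; exact pow_ne_zero _ hI0), h8]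

lemma clP_T' : clP (1 : K) (T' hI L) = algebraMap K L ω ^ 2 := by
  have hI' : algebraMap K L ω ^ 2 + algebraMap K L ω + 1 = 0 := by
    rw [← map_pow, ← map_add, ← map_one (algebraMap K L), ← map_add, hI, map_zero]
  have : CharZero L := charZero_of_injective_algebraMap (algebraMap K L).injective
  show cy (algebraMap K L (1 : K)) (algebraMap K L ω ^ 2) = _
  rw [cy_of (pow_ne_zero _ (neI hI'))]

/-- the point `T'` is killed by three -/
lemma T'_three : (3 : ℕ) • T' hI L = 0 := by
  have : CharZero L := charZero_of_injective_algebraMap (algebraMap K L).injective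
  have hI' : algebraMap K L ω ^ 2 + algebraMap K L ω + 1 = 0 := by
    rw [← map_pow, ← map_add, ← map_one (algebraMap K L), ← map_add, hI, map_zero]
  have hone : algebraMap K L (1 : K) = 1 := map_one _
  have e0 : algebraMap K L ω ^ 2 = algebraMap K L (1 : K) * algebraMap K L ω ^ 2 +
      (1 + 2 * algebraMap K L ω) * (-1) * 0 := by rw [hone]; ring
  have hn : ((ED (1 : K)).baseChange L).toAffine.Nonsingular (-1)
      (algebraMap K L (1 : K) * algebraMap K L ω ^ 2 + (1 + 2 * algebraMap K L ω) * (-1) * 0) := by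
    rw [← e0]
    exact nons_T' hI L
  obtain ⟨X, hX, h4⟩ : ∃ (X : L) (hX : ((ED (1 : K)).baseChange L).toAffine.Nonsingular X (0 ^ 3)),
      th hI L (Affine.Point.some (-1) _ hn) = Affine.Point.some X (0 ^ 3) hX :=
    @one_sub_im L _ (Classical.decEq L) ((ED (1 : K)).baseChange L) (algebraMap K L (1 : K))
      (charZero_of_injective_algebraMap (algebraMap K L).injective) (algebraMap K L ω)
      (isD_base (1 : K) L) ((map_ne_zero _).2 one_ne_zero) hI' (-1) 0 hn (by norm_num)
  have h5 : T' hI L = (Affine.Point.some (-1) _ hn : Pt (ED (1 : K)) L) := some_cg rfl e0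
  have he := ((isD_base (1 : K) L).eqn _ _).1 hX.1
  have hX0 : X = 0 := by
    have h6 : X ^ 3 = 0 := by rw [← he]; ring
    exact pow_eq_zero_iff three_ne_zero |>.1 h6
  subst hX0
  rw [← th'_th hI L, h5, h4]
  exact th'_T hI L hX

end E

section final

variable {K : Type} [Field K] [NumberField K] {ω : K}

/-- the rational points in the image of `1 - ω` whose class is not a cube -/
lemma no_lift (hI : ω ^ 2 + ω + 1 = 0) (hn : ¬ IsPow 3 ω) {P Q : Pt (ED (1 : K)) K}
    (h : clP (1 : K) P = ω ∨ clP (1 : K) P = ω ^ 2) (hP : P = th hI K Q) : False := by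
  have h1 : IsC (clP (1 : K) P) := by
    rw [hP]
    exact clP_theta one_ne_zero hI K Q
  obtain ⟨s, hs, h2⟩ := h1
  apply hn
  rcases h with h | h
  · exact ⟨s, by rw [← h2, h]⟩
  · refine ⟨s ^ 2, ?_⟩
    have h3 : ω ^ 3 = 1 := cubI hI
    calc ω = (ω ^ 2) ^ 2 := by
          linear_combination (-ω) * h3
      _ = (s ^ 3) ^ 2 := by rw [← h2, h]
      _ = (s ^ 2) ^ 3 := by ring

/-- the hypothesis (A) from the Selmer group -/
theorem ha9 (hω : IsPrimitiveRoot ω 3) (hn : ¬ IsPow 3 ω)
    (hS : ∀ a : K, (∀ v : HeightOneSpectrum (𝓞 K), AE v 1 a) → ∃ i : Fin 3, IsPow 3 (a * ω ^ (i : ℕ))) :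
    HA9 (ED (1 : K)) := by
  intro f hf hv
  have hI := quad_of hω
  set A := AlgebraicClosure K
  let j := act (ED (1 : K)) (Algebra.ofId K A)
  have hj : Function.Injective j := act_inj _ _
  -- the torsion point
  obtain ⟨R0, hR0⟩ := (endG_th hI).surj A inferInstance (j (T' hI K))
  have h3T : (3 : ℕ) • j (T' hI K) = 0 := by rw [← map_nsmul, T'_three hI K, map_zero]
  have h9 : (9 : ℕ) • R0 = 0 := by
    have h1 : (9 : ℕ) • R0 = (3 : ℕ) • ((3 : ℕ) • R0) := by
      rw [← mul_smul]
      norm_num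
    rw [h1, ← th'_th hI A R0]
    have h2 : th hI A R0 = j (T' hI K) := hR0
    rw [h2, ← map_nsmul, h3T, map_zero]
  set f0 : Coch (ED (1 : K)) := cbd (ED (1 : K)) R0 with hf0
  have hTf0 : TCoc (1 : K) f0 := by
    refine ⟨sha_cbd R0, fun σ => ?_⟩
    apply th_ker hI A
    show th hI A (act (ED (1 : K)) σ.toAlgHom R0 - R0) = 0
    have h2 : th hI A R0 = j (T' hI K) := hR0
    have h3 : act (ED (1 : K)) σ.toAlgHom (th hI A R0) = th hI A (act (ED (1 : K)) σ.toAlgHom R0) :=
      (endG_th hI).nat A A σ.toAlgHom R0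
    rw [map_sub, ← h3, h2]
    show act (ED (1 : K)) σ.toAlgHom (act (ED (1 : K)) (Algebra.ofId K (AlgebraicClosure K)) _) - _ = 0
    rw [act_fix]
    exact sub_self _
  have hval3 : ∀ {g : Coch (ED (1 : K))}, TCoc (1 : K) g → ∀ σ, (3 : ℕ) • g σ = 0 := by
    intro g hg σ
    rcases hg.2 σ with h | ⟨y, h, h'⟩
    · rw [h, smul_zero]
    · rw [h', ← th'_th hI A, th_T hI A h, map_zero]
  have hneg : ∀ {g : Coch (ED (1 : K))}, TCoc (1 : K) g → TCoc (1 : K) (-g) := by
    intro g hg
    refine ⟨(shaCoc (ED (1 : K))).neg_mem hg.1, fun σ => ?_⟩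
    apply th_ker hI A
    show th hI A (-(g σ)) = 0
    rcases hg.2 σ with h | ⟨y, h, h'⟩
    · rw [h, neg_zero, map_zero]
    · rw [h', map_neg, th_T hI A h, neg_zero]
  -- `f0` is not the coboundary of a point of order three
  have hnc : ¬ Cob3 (1 : K) f0 := by
    rintro ⟨R, hR3, hR⟩
    obtain ⟨Q, hQ⟩ := descent (ED (1 : K)) (R0 - R) (fun σ => by
      have h1 : act (ED (1 : K)) σ.toAlgHom R0 - R0 = act (ED (1 : K)) σ.toAlgHom R - R := hR σ
      rw [map_sub]
      rw [sub_eq_sub_iff_add_eq_add] at h1 ⊢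
      rw [h1]
      abel)
    -- `T' - θ Q` has a trivial class
    have h1 : j (T' hI K - th hI K Q) = th hI A R := by
      have h2 : j (th hI K Q) = th hI A (R0 - R) := by
        rw [← hQ]
        exact (endG_th hI).nat K A _ Q
      have h3 : th hI A R0 = j (T' hI K) := hR0
      rw [map_sub, h2, ← h3, map_sub]
      abel
    have h2 : th' hI A (th hI A R) = 0 := by rw [th'_th, hR3]
    have h3 : th' hI K (T' hI K - th hI K Q) = 0 := by
      apply hj
      have h4 : j (th' hI K (T' hI K - th hI K Q)) = th' hI A (j (T' hI K - th hI K Q)) :=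
        (endG_th' hI).nat K A _ _
      rw [h4, h1, h2, map_zero]
    have h4 : IsC (clP (1 : K) (T' hI K - th hI K Q)) := by
      rcases th'_ker hI K h3 with h5 | ⟨y, hy, h5⟩
      · rw [h5]
        exact IsC.one
      · rw [h5]
        have he := ((isD_base (1 : K) K).eqn _ _).1 hy.1
        have hone : algebraMap K K (1 : K) = 1 := map_one _
        rw [hone] at he
        have h6 : y * (y + 1) = 0 := by linear_combination he
        show IsC (cy (algebraMap K K (1 : K)) y)
        rcases mul_eq_zero.1 h6 with h7 | h7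
        · rw [h7, cy_zero, hone, inv_one]
          exact IsC.one
        · have h8 : y = -1 := by linear_combination h7
          rw [h8, cy_of (by norm_num)]
          exact ⟨-1, by norm_num, by norm_num⟩
    have h5 : IsC (clP (1 : K) (T' hI K)) := by
      have h6 := clP_add (D := (1 : K)) one_ne_zero K (T' hI K - th hI K Q) (th hI K Q)
      rw [sub_add_cancel] at h6
      have h7 := clP_theta (D := (1 : K)) one_ne_zero hI K Q
      have h8 := ((h4.mul h7).div h6)
      have e : clP (1 : K) (T' hI K - th hI K Q) * clP (1 : K) (Q - imP one_ne_zero hI K Q) /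
          (clP (1 : K) (T' hI K - th hI K Q) * clP (1 : K) (th hI K Q) / clP (1 : K) (T' hI K)) =
          clP (1 : K) (T' hI K) := by
        have g1 := clP_ne (D := (1 : K)) one_ne_zero (T' hI K - th hI K Q)
        have g2 := clP_ne (D := (1 : K)) one_ne_zero (th hI K Q)
        have g3 := clP_ne (D := (1 : K)) one_ne_zero (T' hI K)
        rw [← th_apply]
        field_simp
      rwa [e] at h8
    rw [clP_T'] at h5
    obtain ⟨s, hs, h6⟩ := h5
    apply hn
    have hid : algebraMap K K ω = ω := rfl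
    rw [hid] at h6
    refine ⟨s ^ 2, ?_⟩
    have h7 : ω ^ 3 = 1 := cubI hI
    calc ω = (ω ^ 2) ^ 2 := by linear_combination (-ω) * h7
      _ = (s ^ 3) ^ 2 := by rw [← h6]
      _ = (s ^ 2) ^ 3 := by ring
  -- four cocycles
  have hT : TCoc (1 : K) f := ⟨hf, hv⟩
  have hT0 : TCoc (1 : K) (0 : Coch (ED (1 : K))) := ⟨(shaCoc _).zero_mem, fun σ => Or.inl rfl⟩
  set F : Fin 4 → Coch (ED (1 : K)) := ![f, 0, f0, -f0] with hF
  have hTF : ∀ i, TCoc (1 : K) (F i) := by
    intro i
    fin_cases i
    · exact hT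
    · exact hT0
    · exact hTf0
    · exact hneg hTf0
  obtain ⟨a, ha1, ha2, ha3⟩ := t_EKUM2 K ω 1 hω one_ne_zero 4 F hTF
  choose e he using fun i => hS (a i) (ha1 i)
  obtain ⟨i, i', hne, hee⟩ := Fintype.exists_ne_map_eq_of_card_lt e (by simp)
  have hcob : ∀ i i', e i = e i' → Cob3 (1 : K) (F i - F i') := by
    intro i i' hee
    refine ha3 i i' 0 ?_
    rw [pow_zero, mul_one]
    obtain ⟨x, hx⟩ := he i
    obtain ⟨y, hy⟩ := he i'
    have hω0 : ω ^ (e i : ℕ) ≠ 0 := pow_ne_zero _ (hω.ne_zero (by norm_num))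
    refine ⟨x / y, ?_⟩
    have ha0 : a i' ≠ 0 := by
      obtain ⟨v⟩ : Nonempty (HeightOneSpectrum (𝓞 K)) := by
        obtain ⟨M, hM, -⟩ := exists_max_ideal_of_mem_nonunits
          (a := (2 : 𝓞 K)) (by
            intro h2
            have h3 := h2.map (algebraMap (𝓞 K) K)
            have h4 : IsUnit (Algebra.norm ℤ (2 : 𝓞 K)) := h2.map _
            have h5 : Algebra.norm ℤ (2 : 𝓞 K) = 2 ^ Module.finrank ℤ (𝓞 K) := by
              have := Algebra.norm_algebraMap (S := 𝓞 K) (2 : ℤ)
              simpa using this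
            rw [h5] at h4
            have h6 : Module.finrank ℤ (𝓞 K) ≠ 0 := by
              rw [NumberField.RingOfIntegers.rank]
              exact Module.finrank_pos.ne'
            rw [isUnit_pow_iff h6] at h4
            exact absurd h4 (by decide))
        refine ⟨⟨M, hM.isPrime, ?_⟩⟩
        rintro rfl
        have := hM
        exact NumberField.RingOfIntegers.not_isField K (Ring.isField_iff_maximal_bot.2 this)
      exact (ha1 i' v).1
    rw [div_pow, ← hx, ← hy, hee, mul_div_mul_right]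
    rw [← hee]
    exact hω0
  have hmain : ∀ k : Fin 4, k ≠ 0 → e 0 = e k → ∃ R : Pt (ED (1 : K)) A, (9 : ℕ) • R = 0 ∧
      ∀ σ : Gal K, f σ = act (ED (1 : K)) σ.toAlgHom R - R := by
    intro k hk h
    obtain ⟨R, hR3, hR⟩ := hcob 0 k h
    have h93 : (9 : ℕ) • R = 0 := by
      have : (9 : ℕ) • R = (3 : ℕ) • ((3 : ℕ) • R) := by
        rw [← mul_smul]
        norm_num
      rw [this, hR3, smul_zero]
    fin_cases k
    · exact absurd rfl hk
    · refine ⟨R, h93, fun σ => ?_⟩
      have h1 : f σ - 0 = _ := hR σ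
      rwa [sub_zero] at h1
    · refine ⟨R + R0, by rw [smul_add, h93, h9, add_zero], fun σ => ?_⟩
      have h1 : f σ - (act (ED (1 : K)) σ.toAlgHom R0 - R0) = act (ED (1 : K)) σ.toAlgHom R - R :=
        hR σ
      rw [map_add, sub_eq_iff_eq_add.1 h1]
      abel
    · refine ⟨R - R0, by rw [smul_sub, h93, h9, sub_zero], fun σ => ?_⟩
      have h1 : f σ - (-(act (ED (1 : K)) σ.toAlgHom R0 - R0)) =
        act (ED (1 : K)) σ.toAlgHom R - R := hR σ
      rw [map_sub, sub_eq_iff_eq_add.1 h1]
      abel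
  have hbad : ∀ g : Coch (ED (1 : K)), Cob3 (1 : K) g → Cob3 (1 : K) (-g) := by
    rintro g ⟨R, hR3, hR⟩
    refine ⟨-R, by rw [smul_neg, hR3, neg_zero], fun σ => ?_⟩
    show -(g σ) = _
    rw [hR σ, map_neg]
    abel
  -- the pairs without `f`
  have h12 : e 1 ≠ e 2 := fun h => hnc (by
    have h1 := hbad _ (hcob 1 2 h)
    have h2 : -(F 1 - F 2) = f0 := by
      show -(0 - f0) = f0
      rw [zero_sub, neg_neg]
    rwa [h2] at h1)
  have h13 : e 1 ≠ e 3 := fun h => hnc (by
    have h1 := hcob 1 3 h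
    have h2 : (F 1 - F 3) = f0 := by
      show (0 - (-f0)) = f0
      rw [zero_sub, neg_neg]
    rwa [h2] at h1)
  have h23 : e 2 ≠ e 3 := fun h => hnc (by
    have h1 := hbad _ (hcob 2 3 h)
    have h2 : -(F 2 - F 3) = f0 := by
      funext σ
      show -(f0 σ - (-(f0 σ))) = f0 σ
      have h3 := hval3 hTf0 σ
      have h4 : -(f0 σ - (-(f0 σ))) = f0 σ - (3 : ℕ) • f0 σ := by
        rw [succ_nsmul, two_nsmul]
        abel
      rw [h4, h3, sub_zero]
    rwa [h2] at h1)
  have key : ∀ a b c d : Fin 3, b ≠ c → b ≠ d → c ≠ d → a = b ∨ a = c ∨ a = d := by decide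
  rcases key (e 0) (e 1) (e 2) (e 3) h12 h13 h23 with h | h | h
  · exact hmain 1 (by decide) h
  · exact hmain 2 (by decide) h
  · exact hmain 3 (by decide) h

/-- **the finiteness theorem** -/
theorem fin_thm (hω : IsPrimitiveRoot ω 3) (hn : ¬ IsPow 3 ω)
    (hS : ∀ a : K, (∀ v : HeightOneSpectrum (𝓞 K), AE v 1 a) → ∃ i : Fin 3, IsPow 3 (a * ω ^ (i : ℕ))) :
    Triv (1 : K) := by
  have hI := quad_of hω
  have hA := ha9 hω hn hS
  have hθ := endG_th hI
  have hθ' := endG_th' hI
  constructor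
  · have hΔ : ((ED (1 : K)).baseChange K).Δ ≠ 0 := by
      have e : ((ED (1 : K)).baseChange K).Δ = -27 := by
        show -(_ : K) ^ 2 * _ - 8 * _ ^ 3 - 27 * _ ^ 2 + 9 * _ * _ * _ = _
        have e2 : ((ED (1 : K)).baseChange K).b₂ = 0 := by
          show (0 : K) ^ 2 + 4 * 0 = 0
          ring
        have e4 : ((ED (1 : K)).baseChange K).b₄ = 0 := by
          show 2 * (0 : K) + 0 * 1 = 0
          ring
        have e6 : ((ED (1 : K)).baseChange K).b₆ = 1 := by
          show (1 : K) ^ 2 + 4 * (0 : K) = 1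
          ring
        rw [e2, e4, e6]
        ring
      rw [e]
      norm_num
    have hfg : AddGroup.FG (Pt (ED (1 : K)) K) :=
      @Pool.Agent.Q286.EQ.mordell_weil K _ _ (Classical.decEq K) ((ED (1 : K)).baseChange K) hΔ
    have hfin : Finite (Pt (ED (1 : K)) K) := fin_of_div9 hfg fun P => by
      obtain ⟨Q, T, hP, hT⟩ := stepC9 hA hθ P
      obtain ⟨Q', T', hQ, hT'⟩ := stepC9 hA hθ' Q
      refine ⟨Q', th hI K T' + T, ?_, ?_⟩
      · have h1 : P = th hI K (th' hI K Q' + T') + T := by
          have h2 : Q = th' hI K Q' + T' := hQ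
          rw [← h2]
          exact hP
        rw [h1, map_add, th_th', add_assoc]
      · rw [smul_add, hT, ← map_nsmul, hT', map_zero, add_zero]
    exact hfin
  · have hcob : ∀ f : Coch (ED (1 : K)), IsShaCoc (ED (1 : K)) f →
        IsCob (ED (1 : K)) (fun σ => (3 : ℕ) • f σ) → IsCob (ED (1 : K)) f := by
      intro f hf hc
      refine stepB9 hA hθ hf (stepB9 hA hθ' (sha_theta hθ hf) ?_)
      have e : (fun σ => th' hI (AlgebraicClosure K) (th hI (AlgebraicClosure K) (f σ))) =
          fun σ => (3 : ℕ) • f σ := funext fun σ => th'_th hI _ _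
      show IsCob (ED (1 : K)) (fun σ => th' hI (AlgebraicClosure K) (th hI (AlgebraicClosure K) (f σ)))
      rw [e]
      exact hc
    have h1 : ∀ x : Sha (ED (1 : K)), (3 : ℕ) • x = 0 → x = 0 := by
      intro x
      obtain ⟨f, rfl⟩ := QuotientAddGroup.mk_surjective x
      intro hx
      have h2 : IsCob (ED (1 : K)) (fun σ => (3 : ℕ) • f.1 σ) := by
        have h4 := (QuotientAddGroup.eq_zero_iff
          (N := (cob (ED (1 : K))).addSubgroupOf (shaCoc (ED (1 : K)))) ((3 : ℕ) • f)).1 hx
        exact h4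
      exact (QuotientAddGroup.eq_zero_iff
        (N := (cob (ED (1 : K))).addSubgroupOf (shaCoc (ED (1 : K)))) f).2 (hcob f.1 f.2 h2)
    intro n
    induction n with
    | zero =>
      intro x hx
      rwa [pow_zero, one_smul] at hx
    | succ n ih =>
      intro x hx
      apply h1
      apply ih
      rw [← mul_smul, ← pow_succ]
      exact hx

/-- the torsion points of order a power of three -/
theorem tors3 (hω : IsPrimitiveRoot ω 3) (hn : ¬ IsPow 3 ω) (n : ℕ) {P : Pt (ED (1 : K)) K}
    (hP : 3 ^ n • P = 0) : (3 : ℕ) • P = 0 := by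
  have hI := quad_of hω
  -- `(1 - ω)³ P = 0` implies `(1 - ω)² P = 0`
  have h1 : ∀ P : Pt (ED (1 : K)) K, th hI K (th hI K (th hI K P)) = 0 → th hI K (th hI K P) = 0 := by
    intro P h
    by_contra h2
    exact no_lift hI hn (coord hI K h h2) rfl
  have h3 : ∀ P : Pt (ED (1 : K)) K, th hI K (th hI K P) = 0 → (3 : ℕ) • P = 0 := by
    intro P h
    rw [th_th, neg_eq_zero, ← map_nsmul] at h
    have h4 := congrArg (fun Q => imP one_ne_zero hI K (imP one_ne_zero hI K Q)) h
    simp only [imP3, map_zero] at h4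
    exact h4
  have h4 : ∀ P : Pt (ED (1 : K)) K, (3 : ℕ) • ((3 : ℕ) • P) = 0 → (3 : ℕ) • P = 0 := by
    intro P h
    have h5 : th hI K (th hI K (th hI K (th hI K P))) = 0 := by
      rw [th_th, th_th, map_neg, smul_neg, neg_neg]
      simp only [← map_nsmul]
      rw [h, map_zero, map_zero]
    exact h3 P (h1 P (h1 _ h5))
  induction n with
  | zero =>
    rw [pow_zero, one_smul] at hP
    rw [hP, smul_zero]
  | succ n ih =>
    by_cases h0 : n = 0
    · subst h0
      simpa using hP
    · obtain ⟨m, rfl⟩ : ∃ m, n = m + 1 := ⟨n - 1, by omega⟩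
      apply ih
      have h5 : 3 ^ (m + 1 + 1) • P = (3 : ℕ) • ((3 : ℕ) • (3 ^ m • P)) := by
        rw [← mul_smul, ← mul_smul]
        congr 1
        ring
      rw [h5] at hP
      have h6 := h4 _ hP
      rw [← mul_smul] at h6
      have h7 : 3 ^ (m + 1) = 3 * 3 ^ m := by ring
      rw [h7]
      exact h6

end final

end Pool.Agent.H62
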