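import Mathlib

/-!
# Fixed classes modulo cubes under an automorphism of order a power of three
-/

set_option autoImplicit false

namespace Pool.Agent.H62

lemma end_cube {M : Type} [AddCommGroup M] (s : AddMonoid.End M) (n : ℕ)
    (hs : ∀ y, s^[3 ^ n] y = y) (y : M) : ∃ z, (fun y => s y - y)^[3 ^ n] y = (3 : ℕ) • z := by
  obtain ⟨r, hr⟩ := (Commute.neg_one_right s).exists_add_pow_prime_pow_eq Nat.prime_three n
  have key : ∀ (t : AddMonoid.End M) (m : ℕ) (y : M), (t ^ m) y = t^[m] y := by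
    intro t m
    induction m with
    | zero => intro y; rfl
    | succ m ih =>
      intro y
      rw [pow_succ, Function.iterate_succ_apply, ← ih]
      rfl
  have h1 : s ^ 3 ^ n = 1 := by
    refine AddMonoidHom.ext fun x => ?_
    exact (key s (3 ^ n) x).trans (hs x)
  have hodd : Odd (3 ^ n) := (by decide : Odd 3).pow
  rw [h1, hodd.neg_one_pow, add_neg_cancel, zero_add] at hr
  have h2 : ∀ x, (fun y => s y - y)^[3 ^ n] x = ((s + -1) ^ 3 ^ n : AddMonoid.End M) x := by
    intro x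
    refine Eq.trans ?_ (key (s + -1) (3 ^ n) x).symm
    congr 1
    funext y
    show s y - y = s y + (-y)
    rw [sub_eq_add_neg]
  refine ⟨(s * -1 * r) y, ?_⟩
  rw [h2, hr]
  have : (((3 : ℕ) : AddMonoid.End M) * s * -1 * r) = (3 : ℕ) • (s * -1 * r) := by
    rw [nsmul_eq_mul]
    simp only [mul_assoc]
  rw [this]
  rfl

theorem exists_fix {A : Type} [CommGroup A] (s : A →* A) (n : ℕ) (hs : ∀ y, s^[3 ^ n] y = y)
    (Y : Subgroup A) (hY : ∀ y ∈ Y, s y ∈ Y) {y : A} (hy : y ∈ Y) (hn : ¬ ∃ z, y = z ^ 3) :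
    ∃ y ∈ Y, (¬ ∃ z, y = z ^ 3) ∧ ∃ c, s y / y = c ^ 3 := by
  let N : A → A := fun y => s y / y
  have hNY : ∀ y ∈ Y, N y ∈ Y := fun y hy => Y.div_mem (hY y hy) hy
  have hcube : ∀ y, ∃ z, N^[3 ^ n] y = z ^ 3 := by
    intro y
    obtain ⟨z, hz⟩ := end_cube (M := Additive A) (MonoidHom.toAdditive s) n hs (Additive.ofMul y)
    exact ⟨Additive.toMul z, hz⟩
  classical
  have hex : ∃ m, ∃ z, N^[m] y = z ^ 3 := ⟨_, hcube y⟩
  have hmin := Nat.find_spec hex
  have hpos : Nat.find hex ≠ 0 := by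
    intro h0
    rw [h0] at hmin
    exact hn hmin
  obtain ⟨k, hk⟩ := Nat.exists_eq_succ_of_ne_zero hpos
  have hmem : ∀ m, N^[m] y ∈ Y := by
    intro m
    induction m with
    | zero => exact hy
    | succ m ih =>
      rw [Function.iterate_succ_apply']
      exact hNY _ ih
  refine ⟨N^[k] y, hmem k, Nat.find_min hex (by omega), ?_⟩
  rw [hk, Function.iterate_succ_apply'] at hmin
  exact hmin

end Pool.Agent.H62
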