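import Mathlib
import Pool.Graph.R_seed8.Y696.Fld

/-!
# The local condition at the primes above three
-/

set_option autoImplicit false

namespace Pool.Agent.H62

open WithZero
open Pool.Agent.Y696 (exp_lt exp_rep)

section loc

variable {L : Type} [Field L] (V : Valuation L ℤᵐ⁰) {ω : L}

lemma cube_le {x : ℤᵐ⁰} (h : x ^ 3 < 1) : x ^ 3 ≤ exp (-3 : ℤ) := by
  have h1 : x < 1 := by
    by_contra hx
    exact absurd h (not_lt.2 (one_le_pow₀ (not_lt.1 hx)))
  calc x ^ 3 ≤ (exp (-1 : ℤ)) ^ 3 := pow_le_pow_left' (exp_lt h1) 3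
    _ = exp (-3 : ℤ) := by rw [← exp_nsmul]; rfl

lemma exp_mono {m n : ℤ} (h : m ≤ n) : (exp m : ℤᵐ⁰) ≤ exp n := exp_le_exp.2 h

variable {V}

lemma v_three (hI : ω ^ 2 + ω + 1 = 0) (hl : V (2 * ω + 1) = exp (-1 : ℤ)) : V 3 = exp (-2 : ℤ) := by
  have h : (3 : L) = -((2 * ω + 1) ^ 2) := by linear_combination 4 * hI
  rw [h, Valuation.map_neg, map_pow, hl, ← exp_nsmul]
  rfl

lemma add_le' {a b : L} {g : ℤᵐ⁰} (ha : V a ≤ g) (hb : V b ≤ g) : V (a + b) ≤ g :=
  (V.map_add _ _).trans (max_le ha hb)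

lemma sub_le' {a b : L} {g : ℤᵐ⁰} (ha : V a ≤ g) (hb : V b ≤ g) : V (a - b) ≤ g :=
  (V.map_sub _ _).trans (max_le ha hb)

lemma v_om (hI : ω ^ 2 + ω + 1 = 0) : V ω = 1 := by
  have h : ω ^ 3 = 1 := by linear_combination (ω - 1) * hI
  have h1 : V ω ^ 3 = 1 := by rw [← map_pow, h, map_one]
  exact (pow_eq_one_iff_of_nonneg (by simp) (by norm_num)).1 h1

/-- the units of the case of good reduction modulo the singular point -/
theorem loc_unit (hI : ω ^ 2 + ω + 1 = 0) (hl : V (2 * ω + 1) = exp (-1 : ℤ))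
    (hc : ∀ y : L, V y = 1 → ∃ c, V (y - c ^ 3) < 1) {x y : L} (h : y ^ 2 + y = x ^ 3)
    (hy : V y = 1) (hy1 : V (y + 1) = 1) :
    ∃ (i : Fin 3) (c : L), c ≠ 0 ∧ V (y * ω ^ (i : ℕ) * c ^ 3 - 1) ≤ exp (-2 : ℤ) := by
  have h3 := v_three hI hl
  obtain ⟨c, hc1⟩ := hc y hy
  have hc3 : V (c ^ 3) = 1 := by
    have : c ^ 3 = y - (y - c ^ 3) := by ring
    rw [this, Valuation.map_sub_eq_of_lt_left, hy]
    rw [hy]; exact hc1
  have hVc : V c = 1 := by
    rw [map_pow] at hc3
    exact (pow_eq_one_iff_of_nonneg (by simp) (by norm_num)).1 hc3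
  have hc0 : c ≠ 0 := by
    rintro rfl
    simp at hVc
  set t := y / c ^ 3 - 1 with ht
  have hyt : y = c ^ 3 * (1 + t) := by
    rw [ht]
    field_simp
    ring
  have hVt : V t < 1 := by
    have : t = (y - c ^ 3) / c ^ 3 := by rw [ht]; field_simp
    rw [this, map_div₀, hc3, div_one]
    exact hc1
  have hVx : V x = 1 := by
    have h1 : V x ^ 3 = 1 := by
      rw [← map_pow, ← h]
      have : y ^ 2 + y = y * (y + 1) := by ring
      rw [this, map_mul, hy, hy1, one_mul]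
    exact (pow_eq_one_iff_of_nonneg (by simp) (by norm_num)).1 h1
  set r := x / c - c - 1 with hr
  have hxr : x = c * (r + c + 1) := by
    rw [hr]
    field_simp
    ring
  have key : t * (1 + 2 * c ^ 3) + c ^ 3 * t ^ 2 =
      3 * c * (c + 1) + 3 * (c + 1) ^ 2 * r + 3 * (c + 1) * r ^ 2 + r ^ 3 := by
    rw [hyt, hxr] at h
    have h1 : c ^ 3 * (t * (1 + 2 * c ^ 3) + c ^ 3 * t ^ 2 -
      (3 * c * (c + 1) + 3 * (c + 1) ^ 2 * r + 3 * (c + 1) * r ^ 2 + r ^ 3)) = 0 := by
      linear_combination h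
    exact sub_eq_zero.1 ((mul_eq_zero.1 h1).resolve_left (pow_ne_zero _ hc0))
  have hVc1 : V (c + 1) ≤ 1 := add_le' hVc.le (by rw [map_one])
  have hVr : V r ≤ 1 := by
    rw [hr]
    refine sub_le' (sub_le' ?_ hVc.le) (by rw [map_one])
    rw [map_div₀, hVx, hVc, div_one]
  have hVt1 : V t ≤ exp (-1 : ℤ) := exp_lt hVt
  have hV2 : V 2 ≤ 1 := by
    have : (2 : L) = 3 - 1 := by norm_num
    rw [this]
    refine sub_le' ?_ (by rw [map_one])
    rw [h3, ← exp_zero]
    exact exp_mono (by norm_num)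
  have h31 : V 3 ≤ exp (-1 : ℤ) := by rw [h3]; exact exp_mono (by norm_num)
  have hVr3 : V (r ^ 3) ≤ exp (-1 : ℤ) := by
    have : r ^ 3 = t * ((1 + 2 * c ^ 3) + c ^ 3 * t) -
      3 * (c * (c + 1) + (c + 1) ^ 2 * r + (c + 1) * r ^ 2) := by
      linear_combination (-1 : L) * key
    rw [this]
    refine sub_le' ?_ ?_
    · rw [map_mul]
      calc _ ≤ exp (-1 : ℤ) * 1 := by
            refine mul_le_mul' hVt1 (add_le' (add_le' (by rw [map_one]) ?_) ?_)
            · rw [map_mul, hc3, mul_one]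
              exact hV2
            · rw [map_mul, hc3, one_mul]
              exact hVt.le
        _ = _ := mul_one _
    · rw [map_mul]
      calc _ ≤ exp (-1 : ℤ) * 1 := by
            refine mul_le_mul' h31 (add_le' (add_le' ?_ ?_) ?_)
            · rw [map_mul, hVc, one_mul]
              exact hVc1
            · rw [map_mul, map_pow]
              exact mul_le_one' (pow_le_one' hVc1 2) hVr
            · rw [map_mul, map_pow]
              exact mul_le_one' hVc1 (pow_le_one' hVr 2)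
        _ = _ := mul_one _
  have hVr3' : V (r ^ 3) ≤ exp (-3 : ℤ) := by
    rw [map_pow] at hVr3 ⊢
    refine cube_le (lt_of_le_of_lt hVr3 ?_)
    rw [← exp_zero]
    exact exp_lt_exp.2 (by norm_num)
  have hVr1 : V r ≤ exp (-1 : ℤ) := by
    refine exp_lt ?_
    by_contra hcon
    have h1 : 1 ≤ V r ^ 3 := one_le_pow₀ (not_lt.1 hcon)
    rw [← map_pow] at h1
    have h2 := h1.trans hVr3'
    rw [← exp_zero] at h2
    have := exp_le_exp.1 h2
    norm_num at this
  have hrem : V (3 * (c + 1) ^ 2 * r + 3 * (c + 1) * r ^ 2 + r ^ 3) ≤ exp (-3 : ℤ) := by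
    have e1 : (exp (-3 : ℤ) : ℤᵐ⁰) = exp (-2 : ℤ) * 1 * exp (-1 : ℤ) := by
      rw [mul_one, ← exp_add]; rfl
    refine add_le' (add_le' ?_ ?_) hVr3'
    · rw [map_mul, map_mul, h3, e1]
      exact mul_le_mul' (mul_le_mul' le_rfl (by rw [map_pow]; exact pow_le_one' hVc1 2)) hVr1
    · rw [map_mul, map_mul, h3, e1]
      refine mul_le_mul' (mul_le_mul' le_rfl hVc1) ?_
      rw [map_pow, pow_two]
      calc _ ≤ V r * 1 := mul_le_mul' le_rfl hVr
        _ ≤ _ := by rw [mul_one]; exact hVr1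
  by_cases hcc : V (1 - c ^ 3) = 1
  · -- `t` is divisible by three
    refine ⟨0, c⁻¹, inv_ne_zero hc0, ?_⟩
    have e1 : y * ω ^ ((0 : Fin 3) : ℕ) * c⁻¹ ^ 3 - 1 = t := by
      rw [hyt]
      simp only [Fin.val_zero, pow_zero, mul_one]
      field_simp
      ring
    rw [e1]
    have hu : V (1 - c ^ 3 + (3 * c ^ 3 + c ^ 3 * t)) = 1 := by
      rw [Valuation.map_add_eq_of_lt_left, hcc]
      rw [hcc]
      refine lt_of_le_of_lt (add_le' (g := exp (-1 : ℤ)) ?_ ?_) ?_
      · rw [map_mul, hc3, mul_one]; exact h31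
      · rw [map_mul, hc3, one_mul]; exact hVt1
      · rw [← exp_zero]; exact exp_lt_exp.2 (by norm_num)
    have e2 : t * (1 - c ^ 3 + (3 * c ^ 3 + c ^ 3 * t)) =
        3 * (c * (c + 1)) + (3 * (c + 1) ^ 2 * r + 3 * (c + 1) * r ^ 2 + r ^ 3) := by
      linear_combination key
    have e3 : V t = V (t * (1 - c ^ 3 + (3 * c ^ 3 + c ^ 3 * t))) := by
      rw [map_mul, hu, mul_one]
    rw [e3, e2]
    refine add_le' ?_ (hrem.trans (exp_mono (by norm_num)))
    rw [map_mul, h3]
    calc _ ≤ exp (-2 : ℤ) * 1 := by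
          refine mul_le_mul' le_rfl ?_
          rw [map_mul, hVc, one_mul]
          exact hVc1
      _ = _ := mul_one _
  · -- `c` is one modulo the maximal ideal
    have hcc1 : V (1 - c ^ 3) < 1 :=
      lt_of_le_of_ne (sub_le' (by rw [map_one]) hc3.le) hcc
    set e := c - 1 with he
    have hce : c = 1 + e := by rw [he]; ring
    have hVe3 : V (e ^ 3) < 1 := by
      have : e ^ 3 = -(1 - c ^ 3) + 3 * (c - c ^ 2) := by rw [he]; ring
      rw [this]
      refine lt_of_le_of_lt (V.map_add _ _) (max_lt ?_ ?_)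
      · rw [Valuation.map_neg]; exact hcc1
      · rw [map_mul]
        refine lt_of_le_of_lt (mul_le_mul' h31 (sub_le' hVc.le ?_)) ?_
        · rw [map_pow, hVc, one_pow]
        · rw [mul_one, ← exp_zero]; exact exp_lt_exp.2 (by norm_num)
    have hVe : V e ≤ exp (-1 : ℤ) := by
      refine exp_lt ?_
      by_contra hcon
      rw [map_pow] at hVe3
      exact absurd hVe3 (not_lt.2 (one_le_pow₀ (not_lt.1 hcon)))
    have hVe1 : V e ≤ 1 := hVe.trans (by rw [← exp_zero]; exact exp_mono (by norm_num))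
    have hVe3' : V (e ^ 3) ≤ exp (-3 : ℤ) := by
      rw [map_pow] at hVe3 ⊢
      exact cube_le hVe3
    -- `t ^ 2 = λ ^ 2` modulo `λ ^ 3`
    have e32 : (exp (-3 : ℤ) : ℤᵐ⁰) = exp (-2 : ℤ) * exp (-1 : ℤ) := by rw [← exp_add]; rfl
    have e1 : (t - (2 * ω + 1)) * (t + (2 * ω + 1)) =
        3 * (e * (3 + e)) + 3 * 3 + (3 * (c + 1) ^ 2 * r + 3 * (c + 1) * r ^ 2 + r ^ 3)
        - 3 * (t * c ^ 3) - (t ^ 2 - t) * (3 * (e * (1 + e)) + e ^ 3) + 0 := by
      have : (t - (2 * ω + 1)) * (t + (2 * ω + 1)) = t ^ 2 + 3 := by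
        linear_combination (-4 : L) * hI
      rw [this]
      rw [hce] at key ⊢
      linear_combination key
    have h9 : V (t ^ 2 - t) ≤ 1 := by
      refine sub_le' ?_ hVt.le
      rw [map_pow]
      exact pow_le_one' hVt.le 2
    have hprod : V ((t - (2 * ω + 1)) * (t + (2 * ω + 1))) ≤ exp (-3 : ℤ) := by
      rw [e1, add_zero]
      refine sub_le' (sub_le' (add_le' (add_le' ?_ ?_) hrem) ?_) ?_
      · rw [map_mul, h3, e32, map_mul]
        refine mul_le_mul' le_rfl ?_
        calc _ ≤ exp (-1 : ℤ) * 1 := mul_le_mul' hVe (add_le' (h31.trans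
              (by rw [← exp_zero]; exact exp_mono (by norm_num))) hVe1)
          _ = _ := mul_one _
      · rw [map_mul, h3, ← exp_add]
        exact exp_mono (by norm_num)
      · rw [map_mul, h3, e32, map_mul, hc3, mul_one]
        exact mul_le_mul' le_rfl hVt1
      · rw [map_mul]
        calc _ ≤ 1 * exp (-3 : ℤ) := by
              refine mul_le_mul' h9 (add_le' ?_ hVe3')
              rw [map_mul, h3, e32, map_mul]
              refine mul_le_mul' le_rfl ?_
              calc _ ≤ exp (-1 : ℤ) * 1 := mul_le_mul' hVe (add_le' (by rw [map_one]) hVe1)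
                _ = _ := mul_one _
          _ = _ := one_mul _
    have hor : V (t - (2 * ω + 1)) ≤ exp (-2 : ℤ) ∨ V (t + (2 * ω + 1)) ≤ exp (-2 : ℤ) := by
      by_contra hcon
      rw [not_or, not_le, not_le] at hcon
      have f : ∀ z : L, exp (-2 : ℤ) < V z → exp (-1 : ℤ) ≤ V z := by
        intro z hz
        obtain ⟨n, hn⟩ := exp_rep (ne_of_gt (lt_of_le_of_lt zero_le hz))
        rw [hn, exp_lt_exp] at hz
        rw [hn, exp_le_exp]
        omega
      have h4 := mul_le_mul' (f _ hcon.1) (f _ hcon.2)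
      rw [← map_mul, ← exp_add] at h4
      have h5 := h4.trans hprod
      rw [exp_le_exp] at h5
      norm_num at h5
    have hom := v_om (V := V) hI
    rcases hor with h4 | h4
    · refine ⟨1, c⁻¹, inv_ne_zero hc0, ?_⟩
      have e2 : y * ω ^ ((1 : Fin 3) : ℕ) * c⁻¹ ^ 3 - 1 = (t - (2 * ω + 1)) * ω - 3 := by
        rw [hyt]
        simp only [Fin.val_one, pow_one]
        have : c ^ 3 * (1 + t) * ω * c⁻¹ ^ 3 = (1 + t) * ω := by field_simp
        rw [this]
        linear_combination 2 * hI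
      rw [e2]
      refine sub_le' ?_ h3.le
      rw [map_mul, hom, mul_one]
      exact h4
    · refine ⟨2, c⁻¹, inv_ne_zero hc0, ?_⟩
      have e2 : y * ω ^ ((2 : Fin 3) : ℕ) * c⁻¹ ^ 3 - 1 = (t + (2 * ω + 1)) * ω ^ 2 - 3 := by
        rw [hyt]
        simp only [Fin.val_two]
        have : c ^ 3 * (1 + t) * ω ^ 2 * c⁻¹ ^ 3 = (1 + t) * ω ^ 2 := by field_simp
        rw [this]
        linear_combination (-2 * ω + 2) * hI
      rw [e2]
      refine sub_le' ?_ h3.le
      rw [map_mul, map_pow, hom, one_pow, mul_one]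
      exact h4

/-- **the local condition at the primes above three** -/
theorem loc_core (hI : ω ^ 2 + ω + 1 = 0) (hl : V (2 * ω + 1) = exp (-1 : ℤ))
    (hc : ∀ y : L, V y = 1 → ∃ c, V (y - c ^ 3) < 1) {x y : L} (h : y ^ 2 + y = x ^ 3)
    (hy0 : y ≠ 0) :
    ∃ (i : Fin 3) (c : L), c ≠ 0 ∧ V (y * ω ^ (i : ℕ) * c ^ 3 - 1) ≤ exp (-2 : ℤ) := by
  have h32 : (exp (-3 : ℤ) : ℤᵐ⁰) ≤ exp (-2 : ℤ) := exp_mono (by norm_num)
  rcases lt_trichotomy (V y) 1 with h1 | h1 | h1
  · -- `V y < 1`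
    have hy1 : V (y + 1) = 1 := by
      rw [Valuation.map_add_eq_of_lt_right, map_one]
      rw [map_one]; exact h1
    have hy10 : y + 1 ≠ 0 := by
      intro h0
      rw [h0] at hy1
      simp at hy1
    have hx0 : x ≠ 0 := by
      rintro rfl
      have : y * (y + 1) = 0 := by linear_combination h
      rcases mul_eq_zero.1 this with h2 | h2
      · exact hy0 h2
      · exact hy10 h2
    refine ⟨0, x⁻¹, inv_ne_zero hx0, ?_⟩
    have e1 : y * ω ^ ((0 : Fin 3) : ℕ) * x⁻¹ ^ 3 - 1 = -y / (y + 1) := by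
      have hx3 : x⁻¹ ^ 3 = (y * (y + 1))⁻¹ := by
        rw [inv_pow, ← h]
        congr 1
        ring
      rw [hx3]
      simp only [Fin.val_zero, pow_zero, mul_one]
      field_simp
      ring
    rw [e1, map_div₀, hy1, div_one, Valuation.map_neg]
    have h2 : V y = V x ^ 3 := by
      rw [← map_pow, ← h]
      have : y ^ 2 + y = y * (y + 1) := by ring
      rw [this, map_mul, hy1, mul_one]
    rw [h2] at h1 ⊢
    exact (cube_le h1).trans h32
  · -- `V y = 1`
    by_cases h2 : V (y + 1) = 1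
    · exact loc_unit hI hl hc h h1 h2
    · have h3 : V (y + 1) < 1 := lt_of_le_of_ne (add_le' h1.le (by rw [map_one])) h2
      refine ⟨0, -1, by norm_num, ?_⟩
      have e1 : y * ω ^ ((0 : Fin 3) : ℕ) * (-1) ^ 3 - 1 = -(y + 1) := by
        simp only [Fin.val_zero, pow_zero, mul_one]
        ring
      rw [e1, Valuation.map_neg]
      have h4 : V (y + 1) = V x ^ 3 := by
        rw [← map_pow, ← h]
        have : y ^ 2 + y = y * (y + 1) := by ring
        rw [this, map_mul, h1, one_mul]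
      rw [h4] at h3 ⊢
      exact (cube_le h3).trans h32
  · -- `1 < V y`
    have hinv : V y⁻¹ < 1 := by
      rw [map_inv₀]
      exact inv_lt_one_of_one_lt₀ h1
    have hu : V (1 + y⁻¹) = 1 := by
      rw [Valuation.map_add_eq_of_lt_left, map_one]
      rw [map_one]; exact hinv
    have hu0 : 1 + y⁻¹ ≠ 0 := by
      intro h0
      rw [h0] at hu
      simp at hu
    have hxy : x ^ 3 = y ^ 2 * (1 + y⁻¹) := by
      rw [← h]
      field_simp
    have hx0 : x ≠ 0 := by
      rintro rfl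
      have : y ^ 2 * (1 + y⁻¹) = 0 := by rw [← hxy]; ring
      rcases mul_eq_zero.1 this with h2 | h2
      · exact pow_ne_zero _ hy0 h2
      · exact hu0 h2
    refine ⟨0, y / x ^ 2, div_ne_zero hy0 (pow_ne_zero _ hx0), ?_⟩
    have e1 : y * ω ^ ((0 : Fin 3) : ℕ) * (y / x ^ 2) ^ 3 - 1 =
        -(y⁻¹ * (2 + y⁻¹)) / (1 + y⁻¹) ^ 2 := by
      have h6 : (y / x ^ 2) ^ 3 = y ^ 3 / (x ^ 3) ^ 2 := by
        rw [div_pow]
        congr 1
        ring
      rw [h6, hxy]
      simp only [Fin.val_zero, pow_zero, mul_one]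
      obtain ⟨u, hu'⟩ : ∃ u, u = 1 + y⁻¹ := ⟨_, rfl⟩
      have hyi : y⁻¹ = u - 1 := by rw [hu']; ring
      rw [← hu'] at hu0
      rw [← hu']
      have e2 : y * (y ^ 3 / (y ^ 2 * u) ^ 2) = 1 / u ^ 2 := by field_simp
      rw [e2, hyi]
      field_simp
      ring
    have hV2 : V 2 ≤ 1 := by
      have h3 := v_three hI hl
      have : (2 : L) = 3 - 1 := by norm_num
      rw [this]
      refine sub_le' ?_ (by rw [map_one])
      rw [h3, ← exp_zero]
      exact exp_mono (by norm_num)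
    rw [e1, map_div₀, map_pow, hu, one_pow, div_one, Valuation.map_neg, map_mul]
    have h5 : V y⁻¹ ≤ exp (-3 : ℤ) := by
      have h6 : V y⁻¹ = (V (x * y⁻¹)) ^ 3 := by
        rw [← map_pow]
        have : (x * y⁻¹) ^ 3 = y⁻¹ * (1 + y⁻¹) := by
          rw [mul_pow, hxy]
          field_simp
        rw [this, map_mul, hu, mul_one]
      rw [h6] at hinv ⊢
      exact cube_le hinv
    calc _ ≤ exp (-3 : ℤ) * 1 := mul_le_mul' h5 (add_le' hV2 hinv.le)
      _ ≤ _ := by rw [mul_one]; exact h32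

end loc

end Pool.Agent.H62
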