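import Mathlib
import Pool.Graph.R_pool_sql_team_seeded_3997aac3.Q7.CE.Stm
import Pool.Graph.R_pool_sql_team_seeded_3997aac3.Q285.LK.CPL
import Pool.Agent.H62.Loc

/-!
# The local condition at the primes above three, II
-/

set_option autoImplicit false

namespace Pool.Agent.H62

open NumberField IsDedekindDomain WithZero
open Pool.Agent.Q7.CE Pool.Agent.Y682 Pool.Agent.Q285.LK

section

variable {K : Type} [Field K] [NumberField K]

/-- cube roots in the residue field -/
lemma cube_root_mod (w : HeightOneSpectrum (𝓞 K)) (h3 : (3 : 𝓞 K) ∈ w.asIdeal) {k : K}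
    (hk : w.valuation K k ≤ 1) : ∃ c : 𝓞 K, w.valuation K (k - (c : K) ^ 3) < 1 := by
  obtain ⟨r, hr⟩ := w.exists_valuation_sub_lt_of_integer hk 1
  rw [Units.val_one] at hr
  have hmax : w.asIdeal.IsMaximal := w.isPrime.isMaximal w.ne_bot
  let _ : Field (𝓞 K ⧸ w.asIdeal) := Ideal.Quotient.field _
  have : Finite (𝓞 K ⧸ w.asIdeal) := Ideal.finiteQuotientOfFreeOfNeBot _ w.ne_bot
  have h30 : (3 : 𝓞 K ⧸ w.asIdeal) = 0 := by
    have := Ideal.Quotient.eq_zero_iff_mem.2 h3
    rwa [map_ofNat] at this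
  have hinj : Function.Injective (fun x : 𝓞 K ⧸ w.asIdeal => x ^ 3) := by
    intro x y hxy
    simp only at hxy
    have h1 : (x - y) ^ 3 = 0 := by
      linear_combination hxy - (x ^ 2 * y - x * y ^ 2) * h30
    exact sub_eq_zero.1 (pow_eq_zero_iff three_ne_zero |>.1 h1)
  have hsurj := Finite.surjective_of_injective hinj
  obtain ⟨c', hc'⟩ := hsurj (Ideal.Quotient.mk _ r)
  obtain ⟨c, rfl⟩ := Ideal.Quotient.mk_surjective c'
  refine ⟨c, ?_⟩
  have h1 : r - c ^ 3 ∈ w.asIdeal := by
    rw [← Ideal.Quotient.eq_zero_iff_mem, map_sub, map_pow]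
    simp only at hc'
    rw [hc', sub_self]
  have h2 : w.valuation K (algebraMap (𝓞 K) K (r - c ^ 3)) < 1 := by
    rw [HeightOneSpectrum.valuation_of_algebraMap, HeightOneSpectrum.intValuation_lt_one_iff_mem]
    exact h1
  have e : k - (c : K) ^ 3 = algebraMap (𝓞 K) K (r - c ^ 3) - (algebraMap (𝓞 K) K r - k) := by
    rw [map_sub, map_pow]
    ring
  rw [e]
  exact lt_of_le_of_lt (Valuation.map_sub _ _ _) (max_lt h2 hr)

lemma cube_root_cpl (w : HeightOneSpectrum (𝓞 K)) (h3 : (3 : 𝓞 K) ∈ w.asIdeal)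
    {y : w.adicCompletion K} (hy : vv w y = 1) : ∃ c : w.adicCompletion K, vv w (y - c ^ 3) < 1 := by
  obtain ⟨k, hk⟩ := exists_approx w y 1 one_ne_zero
  have hk1 : w.valuation K k ≤ 1 := by
    rw [← vv_coe w k]
    have e : algebraMap K (w.adicCompletion K) k = (algebraMap K (w.adicCompletion K) k - y) + y := by
      ring
    rw [e]
    exact (Valuation.map_add _ _ _).trans (max_le hk.le hy.le)
  obtain ⟨c, hc⟩ := cube_root_mod w h3 hk1
  refine ⟨algebraMap K _ (c : K), ?_⟩
  have e : y - (algebraMap K (w.adicCompletion K) (c : K)) ^ 3 =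
      algebraMap K (w.adicCompletion K) (k - (c : K) ^ 3) -
        (algebraMap K (w.adicCompletion K) k - y) := by
    rw [map_sub, map_pow]
    ring
  rw [e]
  refine lt_of_le_of_lt (Valuation.map_sub _ _ _) (max_lt ?_ hk)
  rw [vv_coe]
  exact hc

/-- the local condition at a prime above three: the element is the product of a power of `ω`, a
cube, and an element that is one modulo three -/
def Lc (ω : K) (w : HeightOneSpectrum (𝓞 K)) (a : K) : Prop :=
  ∃ (i : Fin 3) (c : K), c ≠ 0 ∧ w.valuation K (a * ω ^ (i : ℕ) * c ^ 3 - 1) ≤ exp (-2 : ℤ)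

theorem ae_lc {ω : K} (hI : ω ^ 2 + ω + 1 = 0) (w : HeightOneSpectrum (𝓞 K))
    (h3 : (3 : 𝓞 K) ∈ w.asIdeal) (hl : w.valuation K (2 * ω + 1) = exp (-1 : ℤ)) {a : K}
    (h : AE w 1 a) : Lc ω w a := by
  obtain ⟨ha, u, z, s, h0, h1⟩ := h
  rw [cpl_coe, cpl_coe, map_one, mul_one] at h1
  set A := algebraMap K (w.adicCompletion K) a with hA
  set Ω := algebraMap K (w.adicCompletion K) ω with hΩ
  have hA0 : A ≠ 0 := (map_ne_zero _).2 ha
  have hI' : Ω ^ 2 + Ω + 1 = 0 := by
    rw [hΩ, ← map_pow, ← map_add, ← map_one (algebraMap K (w.adicCompletion K)), ← map_add, hI,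
      map_zero]
  have hl' : vv w (2 * Ω + 1) = exp (-1 : ℤ) := by
    have : 2 * Ω + 1 = algebraMap K (w.adicCompletion K) (2 * ω + 1) := by
      rw [map_add, map_mul, map_ofNat, map_one]
    rw [this, vv_coe]
    exact hl
  -- in the completion
  have key : ∃ (i : Fin 3) (c : w.adicCompletion K), c ≠ 0 ∧
      vv w (A * Ω ^ (i : ℕ) * c ^ 3 - 1) ≤ exp (-2 : ℤ) := by
    by_cases hs : s = 0
    · have hu : u ≠ 0 := by
        rintro rfl
        have hz : z = 0 := by
          rw [hs] at h1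
          have : z ^ 3 = 0 := by rw [h1]; ring
          exact pow_eq_zero_iff three_ne_zero |>.1 this
        rcases h0 with h | h | h
        · exact h rfl
        · exact h hz
        · exact h hs
      have hz : z ≠ 0 := by
        rintro rfl
        rw [hs] at h1
        have : A ^ 2 * u ^ 3 = 0 := by linear_combination -h1
        exact mul_ne_zero (pow_ne_zero _ hA0) (pow_ne_zero _ hu) this
      refine ⟨0, z / (u * A), div_ne_zero hz (mul_ne_zero hu hA0), ?_⟩
      have e : A * Ω ^ ((0 : Fin 3) : ℕ) * (z / (u * A)) ^ 3 - 1 = 0 := by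
        rw [div_pow, h1, hs]
        simp only [Fin.val_zero, pow_zero, mul_one]
        field_simp
        ring
      rw [e, map_zero]
      exact zero_le
    · by_cases hu : u = 0
      · have hz : z ≠ 0 := by
          rintro rfl
          rw [hu] at h1
          have : A * s ^ 3 = 0 := by linear_combination -h1
          exact mul_ne_zero hA0 (pow_ne_zero _ hs) this
        refine ⟨0, s / z, div_ne_zero hs hz, ?_⟩
        have e : A * Ω ^ ((0 : Fin 3) : ℕ) * (s / z) ^ 3 - 1 = 0 := by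
          rw [div_pow, h1, hu]
          simp only [Fin.val_zero, pow_zero, mul_one]
          field_simp
          ring
        rw [e, map_zero]
        exact zero_le
      · obtain ⟨i, c, hc, h2⟩ := loc_core (V := vv w) hI' hl' (fun y hy => cube_root_cpl w h3 hy)
          (x := u * z / s ^ 2) (y := A * u ^ 3 / s ^ 3) (by
            have e : (u * z / s ^ 2) ^ 3 = u ^ 3 * z ^ 3 / s ^ 6 := by
              rw [div_pow, mul_pow]
              congr 1
              ring
            rw [e, h1]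
            field_simp)
          (div_ne_zero (mul_ne_zero hA0 (pow_ne_zero _ hu)) (pow_ne_zero _ hs))
        refine ⟨i, u / s * c, mul_ne_zero (div_ne_zero hu hs) hc, ?_⟩
        have e : A * Ω ^ (i : ℕ) * (u / s * c) ^ 3 - 1 =
            A * u ^ 3 / s ^ 3 * Ω ^ (i : ℕ) * c ^ 3 - 1 := by
          rw [mul_pow, div_pow]
          ring
        rw [e]
        exact h2
  obtain ⟨i, c, hc, h2⟩ := key
  have hvc : vv w c ≠ 0 := (Valuation.ne_zero_iff _).2 hc
  obtain ⟨k, hk⟩ := exists_approx w c (exp (-2 : ℤ) * vv w c) (mul_ne_zero exp_ne_zero hvc)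
  set C := algebraMap K (w.adicCompletion K) k with hC
  have h3' : vv w (C / c - 1) < exp (-2 : ℤ) := by
    have e : C / c - 1 = (C - c) / c := by field_simp
    rw [e, map_div₀]
    exact (div_lt_iff₀ (zero_lt_iff.2 hvc)).2 hk
  have hlt1 : (exp (-2 : ℤ) : ℤᵐ⁰) ≤ 1 := by
    rw [← exp_zero]
    exact exp_mono (by norm_num)
  have h4 : vv w (C / c) ≤ 1 := by
    have e : C / c = (C / c - 1) + 1 := by ring
    rw [e]
    exact (Valuation.map_add _ _ _).trans (max_le (h3'.le.trans hlt1) (by rw [map_one]))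
  have h5 : vv w ((C / c) ^ 3 - 1 ^ 3) ≤ exp (-2 : ℤ) :=
    (vv_pow_sub w h4 (by rw [map_one]) 3).trans h3'.le
  have h6 : vv w (A * Ω ^ (i : ℕ) * c ^ 3) ≤ 1 := by
    have e : A * Ω ^ (i : ℕ) * c ^ 3 = (A * Ω ^ (i : ℕ) * c ^ 3 - 1) + 1 := by ring
    rw [e]
    exact (Valuation.map_add _ _ _).trans (max_le (h2.trans hlt1) (by rw [map_one]))
  have hk0 : k ≠ 0 := by
    rintro rfl
    rw [map_zero] at hC
    rw [hC, zero_div, zero_sub, Valuation.map_neg, map_one, ← exp_zero] at h3'
    have := exp_lt_exp.1 h3'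
    norm_num at this
  refine ⟨i, k, hk0, ?_⟩
  rw [← vv_coe]
  have e : algebraMap K (w.adicCompletion K) (a * ω ^ (i : ℕ) * k ^ 3 - 1) =
      (A * Ω ^ (i : ℕ) * c ^ 3) * ((C / c) ^ 3 - 1 ^ 3) + (A * Ω ^ (i : ℕ) * c ^ 3 - 1) := by
    rw [map_sub, map_mul, map_mul, map_pow, map_pow, map_one, ← hA, ← hΩ, ← hC]
    field_simp
    ring
  rw [e]
  refine (Valuation.map_add _ _ _).trans (max_le ?_ h2)
  rw [map_mul]
  exact (mul_le_mul' h6 h5).trans (by rw [one_mul])

end

end Pool.Agent.H62
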