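import Mathlib
import Pool.Agent.H62.LocAE

/-!
# The valuations of the Selmer elements are divisible by three
-/

set_option autoImplicit false

namespace Pool.Agent.H62

open NumberField IsDedekindDomain WithZero
open Pool.Agent.Q7.CE Pool.Agent.Y682 Pool.Agent.Q285.LK
open Pool.Agent.Y696 (exp_lt exp_rep)

/-- the value is a cube -/
def C3 (x : ℤᵐ⁰) : Prop := ∃ m : ℤ, x = exp (3 * m)

lemma C3.mul {x y : ℤᵐ⁰} (hx : C3 x) (hy : C3 y) : C3 (x * y) := by
  obtain ⟨m, rfl⟩ := hx
  obtain ⟨n, rfl⟩ := hy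
  exact ⟨m + n, by rw [← exp_add]; congr 1; ring⟩

lemma C3.inv {x : ℤᵐ⁰} (hx : C3 x) : C3 x⁻¹ := by
  obtain ⟨m, rfl⟩ := hx
  exact ⟨-m, by rw [← exp_neg]; congr 1; ring⟩

lemma C3.cube {x : ℤᵐ⁰} (hx : x ≠ 0) : C3 (x ^ 3) := by
  obtain ⟨m, rfl⟩ := exp_rep hx
  exact ⟨m, by rw [← exp_nsmul]; congr 1⟩

lemma C3.of_sq {x : ℤᵐ⁰} (hx : x ≠ 0) (h : C3 (x ^ 2)) : C3 x := by
  obtain ⟨m, rfl⟩ := exp_rep hx
  obtain ⟨n, hn⟩ := h
  rw [← exp_nsmul] at hn
  have h1 := exp_injective hn
  rw [nsmul_eq_mul, Nat.cast_ofNat] at h1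
  exact ⟨m - n, by congr 1; omega⟩

lemma C3.one : C3 1 := ⟨0, by simp⟩

lemma C3.of_mul {x y : ℤᵐ⁰} (hx : C3 x) (hxy : C3 (x * y)) : C3 y := by
  have h := hx.inv.mul hxy
  have hx0 : x ≠ 0 := by
    obtain ⟨m, rfl⟩ := hx
    exact exp_ne_zero
  rwa [inv_mul_cancel_left₀ hx0] at h

lemma c3_core {L : Type} [Field L] {V : Valuation L ℤᵐ⁰} {x y : L} (h : y ^ 2 + y = x ^ 3)
    (hy : y ≠ 0) : C3 (V y) := by
  rcases lt_trichotomy (V y) 1 with h1 | h1 | h1
  · have hy1 : V (y + 1) = 1 := by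
      rw [Valuation.map_add_eq_of_lt_right, map_one]
      rw [map_one]; exact h1
    have h2 : V y = V x ^ 3 := by
      rw [← map_pow, ← h]
      have : y ^ 2 + y = y * (y + 1) := by ring
      rw [this, map_mul, hy1, mul_one]
    have hx : V x ≠ 0 := by
      intro h0
      rw [h0] at h2
      exact hy ((Valuation.zero_iff V).1 (by rw [h2]; rfl))
    rw [h2]
    exact C3.cube hx
  · rw [h1]
    exact C3.one
  · have hinv : V y⁻¹ < 1 := by
      rw [map_inv₀]
      exact inv_lt_one_of_one_lt₀ h1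
    have hu : V (1 + y⁻¹) = 1 := by
      rw [Valuation.map_add_eq_of_lt_left, map_one]
      rw [map_one]; exact hinv
    have hxy : V y ^ 2 = V x ^ 3 := by
      rw [← map_pow V x, ← h]
      have : y ^ 2 + y = y ^ 2 * (1 + y⁻¹) := by field_simp
      rw [this, map_mul, hu, mul_one, map_pow]
    have hx : V x ≠ 0 := by
      intro h0
      rw [h0] at hxy
      have := pow_eq_zero_iff two_ne_zero |>.1 (hxy.trans (zero_pow three_ne_zero))
      exact hy ((Valuation.zero_iff V).1 this)
    refine C3.of_sq ((Valuation.ne_zero_iff V).2 hy) ?_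
    rw [hxy]
    exact C3.cube hx

variable {K : Type} [Field K] [NumberField K]

theorem ae_c3 (v : HeightOneSpectrum (𝓞 K)) {a : K} (h : AE v 1 a) : C3 (v.valuation K a) := by
  obtain ⟨ha, u, z, s, h0, h1⟩ := h
  rw [cpl_coe, cpl_coe, map_one, mul_one] at h1
  rw [← vv_coe]
  set A := algebraMap K (v.adicCompletion K) a with hA
  have hA0 : A ≠ 0 := (map_ne_zero _).2 ha
  have hvA : vv v A ≠ 0 := (Valuation.ne_zero_iff _).2 hA0
  by_cases hs : s = 0
  · have hu : u ≠ 0 := by
      rintro rfl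
      have hz : z = 0 := by
        rw [hs] at h1
        have : z ^ 3 = 0 := by rw [h1]; ring
        exact pow_eq_zero_iff three_ne_zero |>.1 this
      rcases h0 with h | h | h
      · exact h rfl
      · exact h hz
      · exact h hs
    have hz : z ≠ 0 := by
      rintro rfl
      rw [hs] at h1
      have : A ^ 2 * u ^ 3 = 0 := by linear_combination -h1
      exact mul_ne_zero (pow_ne_zero _ hA0) (pow_ne_zero _ hu) this
    refine C3.of_sq hvA ?_
    have e : vv v A ^ 2 = (vv v (z / u)) ^ 3 := by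
      rw [← map_pow (vv v) A, ← map_pow (vv v) (z / u), div_pow, h1, hs]
      congr 1
      field_simp
      ring
    rw [e]
    exact C3.cube ((Valuation.ne_zero_iff _).2 (div_ne_zero hz hu))
  · by_cases hu : u = 0
    · have hz : z ≠ 0 := by
        rintro rfl
        rw [hu] at h1
        have : A * s ^ 3 = 0 := by linear_combination -h1
        exact mul_ne_zero hA0 (pow_ne_zero _ hs) this
      have e : vv v A = (vv v (z / s)) ^ 3 := by
        rw [← map_pow, div_pow, h1, hu]
        congr 1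
        field_simp
        ring
      rw [e]
      exact C3.cube ((Valuation.ne_zero_iff _).2 (div_ne_zero hz hs))
    · have h2 := c3_core (V := vv v) (x := u * z / s ^ 2) (y := A * u ^ 3 / s ^ 3) (by
        have e : (u * z / s ^ 2) ^ 3 = u ^ 3 * z ^ 3 / s ^ 6 := by
          rw [div_pow, mul_pow]
          congr 1
          ring
        rw [e, h1]
        field_simp)
        (div_ne_zero (mul_ne_zero hA0 (pow_ne_zero _ hu)) (pow_ne_zero _ hs))
      have e : A = A * u ^ 3 / s ^ 3 * (s / u) ^ 3 := by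
        field_simp
      rw [e, map_mul, map_pow]
      exact h2.mul (C3.cube ((Valuation.ne_zero_iff _).2 (div_ne_zero hs hu)))

end Pool.Agent.H62
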