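import Mathlib
import Pool.Agent.H62.LocD

/-!
# Elements of a principal ideal domain that are cubes away from a prime
-/

set_option autoImplicit false

namespace Pool.Agent.H62

open NumberField IsDedekindDomain WithZero

section

variable {R : Type} [CommRing R] [IsDomain R] [IsPrincipalIdealRing R]

/-- the prime ideal of a prime element -/
def hsp {p : R} (hp : Prime p) : HeightOneSpectrum R :=
  ⟨Ideal.span {p}, (Ideal.span_singleton_prime hp.ne_zero).2 hp, by
    rw [Ne, Ideal.span_singleton_eq_bot]; exact hp.ne_zero⟩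

lemma hsp_val {p : R} (hp : Prime p) : (hsp hp).intValuation p = exp (-1 : ℤ) :=
  (hsp hp).intValuation_singleton hp.ne_zero rfl

theorem ufd_cube {π : R} (hπ : Prime π) (g : R) : g ≠ 0 →
    (∀ v : HeightOneSpectrum R, π ∉ v.asIdeal → C3 (v.intValuation g)) →
    ∃ (u : Rˣ) (k : ℕ) (h : R), g = u * π ^ k * h ^ 3 := by
  induction g using (wellFounded_dvdNotUnit (α := R)).induction with
  | _ g ih =>
    intro hg h
    by_cases hun : IsUnit g
    · exact ⟨hun.unit, 0, 1, by simp⟩
    · obtain ⟨p, hp, hpg⟩ := WfDvdMonoid.exists_irreducible_factor hun hg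
      have hp := hp.prime
      by_cases hass : π ∣ g
      · obtain ⟨g', rfl⟩ := hass
        have hg' : g' ≠ 0 := right_ne_zero_of_mul hg
        obtain ⟨u, k, h', e⟩ := ih g' ⟨hg', π, hπ.not_isUnit, mul_comm _ _⟩ hg' (fun v hv => by
          have h1 := h v hv
          rw [map_mul, HeightOneSpectrum.intValuation_eq_one_iff.2 hv, one_mul] at h1
          exact h1)
        exact ⟨u, k + 1, h', by rw [e]; ring⟩
      · have hpπ : π ∉ (hsp hp).asIdeal := by
          intro h1
          have h2 : p ∣ π := Ideal.mem_span_singleton.1 h1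
          have h3 : Associated p π := hp.associated_of_dvd hπ h2
          exact hass (h3.symm.dvd.trans hpg)
        obtain ⟨m, hm⟩ := h _ hpπ
        have hlt : (hsp hp).intValuation g < 1 := by
          rw [HeightOneSpectrum.intValuation_lt_one_iff_mem]
          exact Ideal.mem_span_singleton.2 hpg
        rw [hm, ← exp_zero, exp_lt_exp] at hlt
        have h3 : (hsp hp).intValuation g ≤ exp (-((3 : ℕ) : ℤ)) := by
          rw [hm, exp_le_exp]
          push_cast
          omega
        rw [HeightOneSpectrum.intValuation_le_pow_iff_mem] at h3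
        have h4 : g ∈ Ideal.span {p ^ 3} := by
          rw [← Ideal.span_singleton_pow]
          exact h3
        obtain ⟨g', rfl⟩ := Ideal.mem_span_singleton.1 h4
        have hg' : g' ≠ 0 := right_ne_zero_of_mul hg
        have hnu : ¬ IsUnit (p ^ 3) := fun h => hp.not_isUnit ((isUnit_pow_iff three_ne_zero).1 h)
        obtain ⟨u, k, h', e⟩ := ih g' ⟨hg', p ^ 3, hnu, mul_comm _ _⟩ hg' (fun v hv => by
          have h1 := h v hv
          rw [map_mul, map_pow] at h1
          exact C3.of_mul (C3.cube (v.intValuation_ne_zero p hp.ne_zero)) h1)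
        exact ⟨u, k, p * h', by rw [e]; ring⟩

end

section

variable {F : Type} [Field F] [NumberField F] [IsPrincipalIdealRing (𝓞 F)]

theorem field_cube {π : 𝓞 F} (hπ : Prime π) {f : F} (hf : f ≠ 0)
    (h : ∀ v : HeightOneSpectrum (𝓞 F), π ∉ v.asIdeal → C3 (v.valuation F f)) :
    ∃ (u : (𝓞 F)ˣ) (k : ℕ) (h : F), h ≠ 0 ∧ f = ((u : 𝓞 F) : F) * (π : F) ^ k * h ^ 3 := by
  obtain ⟨x, z, hz, rfl⟩ := IsFractionRing.div_surjective (A := 𝓞 F) f
  have hz0 : z ≠ 0 := nonZeroDivisors.ne_zero hz
  have hz1 : algebraMap (𝓞 F) F z ≠ 0 := by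
    rw [Ne, FaithfulSMul.algebraMap_eq_zero_iff]
    exact hz0
  have hx0 : x ≠ 0 := by
    rintro rfl
    simp at hf
  obtain ⟨u, k, g, e⟩ := ufd_cube hπ (x * z ^ 2) (mul_ne_zero hx0 (pow_ne_zero _ hz0)) (fun v hv => by
    have h1 := h v hv
    have h2 : v.intValuation (x * z ^ 2) = v.valuation F (algebraMap (𝓞 F) F x / algebraMap (𝓞 F) F z) *
        (v.valuation F (algebraMap (𝓞 F) F z)) ^ 3 := by
      rw [← HeightOneSpectrum.valuation_of_algebraMap (K := F), ← map_pow, ← map_mul]
      congr 1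
      show algebraMap (𝓞 F) F (x * z ^ 2) = _
      rw [map_mul, map_pow]
      field_simp
    rw [h2]
    exact h1.mul (C3.cube ((Valuation.ne_zero_iff _).2 hz1)))
  have hg : g ≠ 0 := by
    rintro rfl
    rw [zero_pow three_ne_zero, mul_zero] at e
    exact mul_ne_zero hx0 (pow_ne_zero _ hz0) e
  have hg1 : algebraMap (𝓞 F) F g ≠ 0 := by
    rw [Ne, FaithfulSMul.algebraMap_eq_zero_iff]
    exact hg
  refine ⟨u, k, algebraMap (𝓞 F) F g / algebraMap (𝓞 F) F z, div_ne_zero hg1 hz1, ?_⟩
  have e' := congrArg (algebraMap (𝓞 F) F) e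
  rw [map_mul, map_pow, map_mul, map_mul, map_pow, map_pow] at e'
  rw [div_pow, ← mul_div_assoc, div_eq_div_iff hz1 (pow_ne_zero _ hz1)]
  linear_combination (algebraMap (𝓞 F) F z) * e'

end

end Pool.Agent.H62
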