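import Mathlib
import Pool.Graph.R_seed8.Y696.Fac
import Pool.Agent.H62.Ufd
import Pool.Agent.H62.Fix

/-!
# Valuations and the Galois group
-/

set_option autoImplicit false
set_option linter.unusedSectionVars false

namespace Pool.Agent.H62

open NumberField IsDedekindDomain WithZero
open Pool.Agent.Y696 (val_aut val_eq_of exp_lt exp_rep)

section inv

variable {K : Type} [Field K] [NumberField K]

lemma hos_ext {v w : HeightOneSpectrum (𝓞 K)} (h : ∀ x : 𝓞 K, x ∈ v.asIdeal ↔ x ∈ w.asIdeal) :
    v = w := HeightOneSpectrum.ext (Ideal.ext h)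

lemma mem_iff_val (v : HeightOneSpectrum (𝓞 K)) (x : 𝓞 K) :
    x ∈ v.asIdeal ↔ v.valuation K (x : K) < 1 :=
  (HeightOneSpectrum.valuation_lt_one_iff_mem (K := K) v x).symm

/-- a valuation that is preserved -/
lemma val_inv_of (σ : K ≃+* K) (v : HeightOneSpectrum (𝓞 K))
    (h : ∀ x : 𝓞 K, v.valuation K (σ x) < 1 ↔ x ∈ v.asIdeal) (x : K) :
    v.valuation K (σ x) = v.valuation K x := by
  obtain ⟨v', hv'⟩ := val_aut σ v
  have : v' = v := hos_ext fun x => by
    rw [mem_iff_val, ← hv', h]
  rw [hv', this]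

/-- a valuation above a prime with a unique extension is preserved -/
lemma val_inv_uniq (σ : K ≃+* K) {v : HeightOneSpectrum (𝓞 K)} {k : ℕ} (hk : (k : 𝓞 K) ∈ v.asIdeal)
    (h : ∀ w : HeightOneSpectrum (𝓞 K), (k : 𝓞 K) ∈ w.asIdeal → w = v) (x : K) :
    v.valuation K (σ x) = v.valuation K x := by
  obtain ⟨v', hv'⟩ := val_aut σ v
  have : v' = v := h v' (by
    rw [Pool.Agent.Y696.nat_mem_iff, ← hv', map_natCast, ← Pool.Agent.Y696.nat_mem_iff]
    exact hk)
  rw [hv', this]

end inv

section gal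

variable {F K : Type} [Field F] [NumberField F] [Field K] [NumberField K] [Algebra F K]

/-- the automorphism acts trivially modulo the prime -/
def Ine (P : HeightOneSpectrum (𝓞 K)) (g : Gal(K/F)) : Prop := ∀ x : 𝓞 K, g • x - x ∈ P.asIdeal

lemma smul_coe (g : Gal(K/F)) (x : 𝓞 K) : ((g • x : 𝓞 K) : K) = g (x : K) := rfl

lemma Ine.inv {P : HeightOneSpectrum (𝓞 K)} {g : Gal(K/F)} (h : Ine P g) (x : K) :
    P.valuation K (g x) = P.valuation K x := by
  refine val_inv_of (g : K ≃+* K) P (fun x => ?_) x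
  have h1 : ((g : K ≃+* K) (x : K)) = ((g • x : 𝓞 K) : K) := rfl
  rw [h1, ← mem_iff_val]
  constructor
  · intro h2
    have := P.asIdeal.sub_mem h2 (h x)
    rwa [sub_sub_cancel] at this
  · intro h2
    have := P.asIdeal.add_mem (h x) h2
    rwa [sub_add_cancel] at this

lemma Ine.triv {P : HeightOneSpectrum (𝓞 K)} {g : Gal(K/F)} (h : Ine P g) {x : K}
    (hx : P.valuation K x ≤ 1) : P.valuation K (g x - x) < 1 := by
  obtain ⟨r, hr⟩ := P.exists_valuation_sub_lt_of_integer hx 1
  rw [Units.val_one] at hr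
  have e : g x - x = g (x - (r : K)) + ((g • r - r : 𝓞 K) : K) + ((r : K) - x) := by
    rw [map_sub]
    have : ((g • r - r : 𝓞 K) : K) = g (r : K) - r := by
      rw [← smul_coe]
      exact map_sub (algebraMap (𝓞 K) K) _ _
    rw [this]
    ring
  rw [e]
  have h1 : P.valuation K ((r : K) - x) < 1 := hr
  refine lt_of_le_of_lt (Valuation.map_add _ _ _) (max_lt (lt_of_le_of_lt (Valuation.map_add _ _ _)
    (max_lt ?_ ((mem_iff_val _ _).1 (h r)))) h1)
  rw [h.inv, Valuation.map_sub_swap]
  exact h1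

/-- the norm modulo a totally ramified prime -/
lemma norm_tot [IsGalois F K] {P : HeightOneSpectrum (𝓞 K)} (h : ∀ g : Gal(K/F), Ine P g) {c : K}
    (hc : P.valuation K c ≤ 1) :
    P.valuation K (algebraMap F K (Algebra.norm F c) - c ^ Nat.card Gal(K/F)) < 1 := by
  classical
  rw [Algebra.norm_eq_prod_automorphisms, Nat.card_eq_fintype_card]
  have key : ∀ s : Finset Gal(K/F), P.valuation K (∏ g ∈ s, g c - c ^ s.card) < 1 ∧
      P.valuation K (∏ g ∈ s, g c) ≤ 1 := by
    intro s
    induction s using Finset.induction_on with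
    | empty => simp
    | insert g s hg ih =>
      rw [Finset.prod_insert hg, Finset.card_insert_of_notMem hg]
      have hgc : P.valuation K (g c) ≤ 1 := by rw [(h g).inv]; exact hc
      refine ⟨?_, ?_⟩
      · have e : g c * ∏ g ∈ s, g c - c ^ (s.card + 1) =
            (g c - c) * (∏ g ∈ s, g c) + c * (∏ g ∈ s, g c - c ^ s.card) := by ring
        rw [e]
        refine lt_of_le_of_lt (Valuation.map_add _ _ _) (max_lt ?_ ?_)
        · rw [map_mul]
          exact lt_of_le_of_lt (mul_le_of_le_one_right' ih.2) ((h g).triv hc)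
        · rw [map_mul]
          exact lt_of_le_of_lt (mul_le_of_le_one_left' hc) ih.1
      · rw [map_mul]
        exact mul_le_one' hgc ih.2
  exact (key Finset.univ).1

end gal

end Pool.Agent.H62
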