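import Mathlib
import Pool.Agent.H62.Tow
import Pool.Agent.H62.Sel
import Pool.Graph.R_seed8.Y696.Bld

/-!
# The Selmer group over a cyclic extension of degree a power of three
-/

set_option autoImplicit false
set_option linter.unusedSectionVars false

namespace Pool.Agent.H62

open NumberField IsDedekindDomain WithZero
open Pool.Agent.Y696 (val_aut val_eq_of exp_lt exp_rep und und_lies exists_above)
open Pool.Agent.Q7.LK (IsPow)

section loc

variable {L : Type} [Field L] {V : Valuation L ℤᵐ⁰} {ω : L}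

lemma v_omsub (hI : ω ^ 2 + ω + 1 = 0) (hl : V (2 * ω + 1) = exp (-1 : ℤ)) :
    V (ω - 1) = exp (-1 : ℤ) ∧ V (ω ^ 2 - 1) = exp (-1 : ℤ) := by
  have hom := v_om (V := V) hI
  have h1 : 2 * ω + 1 = -(ω * (ω - 1)) := by linear_combination hI
  have h2 : V (ω - 1) = exp (-1 : ℤ) := by
    rw [← hl, h1, Valuation.map_neg, map_mul, hom, one_mul]
  refine ⟨h2, ?_⟩
  have h3 : ω ^ 2 - 1 = -(ω ^ 2 * (ω - 1)) := by linear_combination (ω - 1) * hI
  rw [h3, Valuation.map_neg, map_mul, map_pow, hom, one_pow, one_mul, h2]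

lemma cube_one3 (hI : ω ^ 2 + ω + 1 = 0) (hl : V (2 * ω + 1) = exp (-1 : ℤ)) {c : L}
    (h : V (c ^ 3 - 1) < 1) : V (c ^ 3 - 1) ≤ exp (-3 : ℤ) := by
  have h3 := v_three hI hl
  have h31 : V 3 ≤ exp (-1 : ℤ) := by rw [h3]; exact exp_mono (by norm_num)
  have hc : V c ≤ 1 := by
    by_contra hcon
    have h1 : 1 < V (c ^ 3) := by
      rw [map_pow]
      exact one_lt_pow₀ (not_le.1 hcon) three_ne_zero
    have h2 : V (c ^ 3 - 1) = V (c ^ 3) := Valuation.map_sub_eq_of_lt_left _ (by rwa [map_one])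
    rw [h2] at h
    exact absurd h (not_lt.2 h1.le)
  set e := c - 1 with he
  have hce : c = 1 + e := by rw [he]; ring
  have hVe3 : V (e ^ 3) < 1 := by
    have : e ^ 3 = (c ^ 3 - 1) + 3 * (c - c ^ 2) := by rw [he]; ring
    rw [this]
    refine lt_of_le_of_lt (V.map_add _ _) (max_lt h ?_)
    rw [map_mul]
    refine lt_of_le_of_lt (mul_le_mul' h31 (sub_le' hc ?_)) ?_
    · rw [map_pow]; exact pow_le_one' hc 2
    · rw [mul_one, ← exp_zero]; exact exp_lt_exp.2 (by norm_num)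
  have hVe : V e ≤ exp (-1 : ℤ) := by
    refine exp_lt ?_
    by_contra hcon
    rw [map_pow] at hVe3
    exact absurd hVe3 (not_lt.2 (one_le_pow₀ (not_lt.1 hcon)))
  have hVe1 : V e ≤ 1 := hVe.trans (by rw [← exp_zero]; exact exp_mono (by norm_num))
  have hVe3' : V (e ^ 3) ≤ exp (-3 : ℤ) := by
    rw [map_pow] at hVe3 ⊢
    exact cube_le hVe3
  have e1 : c ^ 3 - 1 = 3 * (e * (1 + e)) + e ^ 3 := by rw [hce]; ring
  rw [e1]
  refine add_le' ?_ hVe3'
  have e32 : (exp (-3 : ℤ) : ℤᵐ⁰) = exp (-2 : ℤ) * exp (-1 : ℤ) := by rw [← exp_add]; rfl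
  rw [map_mul, h3, e32, map_mul]
  refine mul_le_mul' le_rfl ?_
  calc _ ≤ exp (-1 : ℤ) * 1 := mul_le_mul' hVe (add_le' (by rw [map_one]) hVe1)
    _ = _ := mul_one _

/-- a root of unity that is one modulo three up to a cube is one -/
lemma no_om (hI : ω ^ 2 + ω + 1 = 0) (hl : V (2 * ω + 1) = exp (-1 : ℤ)) {c : L} (i : Fin 3)
    (h : V (ω ^ (i : ℕ) * c ^ 3 - 1) ≤ exp (-2 : ℤ)) : i = 0 := by
  by_contra hi
  obtain ⟨h1, h2⟩ := v_omsub hI hl
  have hom := v_om (V := V) hI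
  have h3 : ω ^ 3 = 1 := by linear_combination (ω - 1) * hI
  have key : ∀ j : L, V j = 1 → V (j - 1) = exp (-1 : ℤ) → V (c ^ 3 - j) ≤ exp (-2 : ℤ) → False := by
    intro j hj h4 h5
    have h6 : V (c ^ 3 - 1) = exp (-1 : ℤ) := by
      have : c ^ 3 - 1 = (j - 1) + (c ^ 3 - j) := by ring
      rw [this, Valuation.map_add_eq_of_lt_left, h4]
      rw [h4]
      exact lt_of_le_of_lt h5 (exp_lt_exp.2 (by norm_num))
    have h7 := cube_one3 hI hl (c := c) (by
      rw [h6, ← exp_zero]; exact exp_lt_exp.2 (by norm_num))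
    rw [h6, exp_le_exp] at h7
    norm_num at h7
  have hcases : ∀ i : Fin 3, i ≠ 0 → i = 1 ∨ i = 2 := by decide
  rcases hcases i hi with rfl | rfl
  · refine key (ω ^ 2) (by rw [map_pow, hom, one_pow]) h2 ?_
    have e : c ^ 3 - ω ^ 2 = ω ^ 2 * (ω ^ ((1 : Fin 3) : ℕ) * c ^ 3 - 1) := by
      simp only [Fin.val_one, pow_one]
      linear_combination (-c ^ 3) * h3
    rw [e, map_mul, map_pow, hom, one_pow, one_mul]
    exact h
  · refine key ω hom h1 ?_
    have e : c ^ 3 - ω = ω * (ω ^ ((2 : Fin 3) : ℕ) * c ^ 3 - 1) := by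
      simp only [Fin.val_two]
      linear_combination (-c ^ 3) * h3
    rw [e, map_mul, hom, one_mul]
    exact h

end loc

/-- the facts on the extension that are used in the computation of the Selmer group -/
structure Tw (F K : Type) [Field F] [NumberField F] [IsCyclotomicExtension {3} ℚ F] [Field K]
    [NumberField K] [Algebra F K] (ζ : F) (n : ℕ) (π : 𝓞 F) : Prop where
  zeta : IsPrimitiveRoot ζ 3
  npos : n ≠ 0
  card : Nat.card Gal(K/F) = 3 ^ n
  cyc : IsCyclic Gal(K/F)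
  prime : Prime π
  three : ∀ v : HeightOneSpectrum (𝓞 K), algebraMap (𝓞 F) (𝓞 K) π ∈ v.asIdeal →
    (3 : 𝓞 K) ∉ v.asIdeal
  unr : ∀ v : HeightOneSpectrum (𝓞 K), algebraMap (𝓞 F) (𝓞 K) π ∉ v.asIdeal → ∀ f : F,
    v.valuation K (algebraMap F K f) = (und (F := F) v).valuation F f
  lam : ∀ v : HeightOneSpectrum (𝓞 K), (3 : 𝓞 K) ∈ v.asIdeal →
    v.valuation K (2 * algebraMap F K ζ + 1) = exp (-1 : ℤ)
  tot : ∀ v : HeightOneSpectrum (𝓞 K), algebraMap (𝓞 F) (𝓞 K) π ∈ v.asIdeal →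
    ∀ g : Gal(K/F), Ine v g
  uniq : ∀ v w : HeightOneSpectrum (𝓞 K), (3 : 𝓞 K) ∈ v.asIdeal → (3 : 𝓞 K) ∈ w.asIdeal → v = w
  kum : ∃ (b : K) (u : (𝓞 F)ˣ), b ^ 3 = algebraMap F K (((u : 𝓞 F) * π : 𝓞 F) : F)

section main

variable {F K : Type} [Field F] [NumberField F] [IsCyclotomicExtension {3} ℚ F] [Field K]
  [NumberField K] [Algebra F K] {ζ : F} {n : ℕ} {π : 𝓞 F}

lemma Tw.quad (T : Tw F K ζ n π) : (algebraMap F K ζ) ^ 2 + algebraMap F K ζ + 1 = 0 := by
  rw [← map_pow, ← map_add, ← map_one (algebraMap F K), ← map_add, quad_of T.zeta, map_zero]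

lemma Tw.quad' (T : Tw F K ζ n π) : ζ ^ 2 + ζ + 1 = 0 := quad_of T.zeta

/-- the root of unity is not a cube -/
lemma Tw.om_ne (T : Tw F K ζ n π) (w : HeightOneSpectrum (𝓞 K)) (hw : (3 : 𝓞 K) ∈ w.asIdeal) :
    ¬ IsPow 3 (algebraMap F K ζ) := by
  rintro ⟨x, hx⟩
  have h1 := no_om (V := w.valuation K) T.quad (T.lam w hw) (c := x⁻¹) 1 (by
    have hx0 : x ≠ 0 := by
      rintro rfl
      rw [zero_pow three_ne_zero] at hx
      exact T.zeta.ne_zero (by norm_num) ((map_eq_zero (algebraMap F K)).1 hx)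
    have e : (algebraMap F K ζ) ^ ((1 : Fin 3) : ℕ) * x⁻¹ ^ 3 - 1 = 0 := by
      rw [hx]
      simp only [Fin.val_one, pow_one]
      field_simp
      ring
    rw [e, map_zero]
    exact zero_le)
  exact absurd h1 (by decide)

/-- the value of `1 - ζ` at the primes not above three -/
lemma v_omsub1 {ζ : F} (hI : ζ ^ 2 + ζ + 1 = 0) {P : HeightOneSpectrum (𝓞 K)} (h3 : (3 : 𝓞 K) ∉ P.asIdeal) :
    P.valuation K (algebraMap F K ζ - 1) = 1 ∧ P.valuation K ((algebraMap F K ζ) ^ 2 - 1) = 1 := by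
  set ω := algebraMap F K ζ with hω
  have hI' : ω ^ 2 + ω + 1 = 0 := by
    rw [hω, ← map_pow, ← map_add, ← map_one (algebraMap F K), ← map_add, hI, map_zero]
  have hom := v_om (V := P.valuation K) hI'
  have h1 : P.valuation K (ω - 1) ≤ 1 := sub_le' hom.le (by rw [map_one])
  have h2 : P.valuation K (ω ^ 2 - 1) ≤ 1 := sub_le' (by rw [map_pow, hom, one_pow]) (by rw [map_one])
  have h4 : P.valuation K (ω - 1) * P.valuation K (ω ^ 2 - 1) = 1 := by
    rw [← map_mul]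
    have e : (ω - 1) * (ω ^ 2 - 1) = 3 := by linear_combination (ω - 2) * hI'
    rw [e]
    have e3 : (3 : K) = algebraMap (𝓞 K) K 3 := by rw [map_ofNat]
    rw [e3, HeightOneSpectrum.valuation_of_algebraMap, HeightOneSpectrum.intValuation_eq_one_iff]
    exact h3
  constructor
  · refine le_antisymm h1 ?_
    calc (1 : ℤᵐ⁰) = _ := h4.symm
      _ ≤ _ := mul_le_of_le_one_right' h2
  · refine le_antisymm h2 ?_
    calc (1 : ℤᵐ⁰) = _ := h4.symm
      _ ≤ _ := mul_le_of_le_one_left' h1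

variable [IsGalois F K]

/-- the norm as a homomorphism of monoids with zero -/
noncomputable def nz (F K : Type) [Field F] [Field K] [NumberField F] [NumberField K]
    [Algebra F K] : K →*₀ F :=
  { (Algebra.norm F : K →* F) with map_zero' := Algebra.norm_zero }

lemma nz_eq (x : K) : Algebra.norm F x = nz F K x := rfl

lemma nz_ne {x : K} (hx : x ≠ 0) : nz F K x ≠ 0 := Algebra.norm_ne_zero_iff.2 hx

/-- the norm of a cube root of a quotient -/
lemma Tw.norm_one (T : Tw F K ζ n π) {σ : Gal(K/F)} {P : HeightOneSpectrum (𝓞 K)}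
    (hP : algebraMap (𝓞 F) (𝓞 K) π ∈ P.asIdeal) {y c : K} (hy : y ≠ 0) (hc : c ^ 3 = σ y / y)
    (h3 : C3 (P.valuation K y)) : Algebra.norm F c = 1 := by
  set V := P.valuation K with hV
  have htot := T.tot P hP
  have hc0 : c ≠ 0 := by
    rintro rfl
    rw [zero_pow three_ne_zero] at hc
    exact div_ne_zero ((map_ne_zero σ).2 hy) hy hc.symm
  have hns : ∀ x : K, nz F K (σ x) = nz F K x := fun x =>
    Algebra.norm_eq_of_algEquiv σ x
  rw [nz_eq]
  have hN3 : (nz F K c) ^ 3 = 1 := by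
    rw [← map_pow, hc, map_div₀, hns, div_self]
    exact nz_ne hy
  obtain ⟨m, hm⟩ := h3
  obtain ⟨ϖ, hϖ⟩ := P.valuation_exists_uniformizer K
  have hϖ0 : ϖ ≠ 0 := by
    rintro rfl
    rw [map_zero] at hϖ
    exact exp_ne_zero hϖ.symm
  set u := y * ϖ ^ (3 * m) with hu
  have hu0 : u ≠ 0 := mul_ne_zero hy (zpow_ne_zero _ hϖ0)
  have hVu : V u = 1 := by
    rw [hu, map_mul, map_zpow₀, hV, hm, hϖ, ← exp_zsmul, ← exp_add]
    rw [← exp_zero]
    congr 1
    rw [smul_eq_mul]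
    ring
  have hσϖ : σ ϖ ≠ 0 := (map_ne_zero σ).2 hϖ0
  set c' := c * (σ ϖ / ϖ) ^ m with hc'
  have hc'3 : c' ^ 3 = σ u / u := by
    rw [hc', mul_pow, hc, hu, map_mul, map_zpow₀, ← zpow_natCast, ← zpow_mul, div_zpow,
      mul_comm m]
    push_cast
    rw [div_mul_div_comm]
  have hVc' : V (c' ^ 3 - 1) < 1 := by
    have e : c' ^ 3 - 1 = (σ u - u) / u := by
      rw [hc'3]
      field_simp
    rw [e, map_div₀, hVu, div_one]
    exact (htot σ).triv hVu.le
  have hVc1 : V c' ≤ 1 := by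
    by_contra hcon
    have h1 : 1 < V (c' ^ 3) := by
      rw [map_pow]
      exact one_lt_pow₀ (not_le.1 hcon) three_ne_zero
    have h2 : V (c' ^ 3 - 1) = V (c' ^ 3) := Valuation.map_sub_eq_of_lt_left _ (by rwa [map_one])
    rw [h2] at hVc'
    exact absurd hVc' (not_lt.2 h1.le)
  have hNc' : nz F K c' = nz F K c := by
    rw [hc', map_mul, map_zpow₀, map_div₀, hns, div_self, one_zpow, mul_one]
    exact nz_ne hϖ0
  have h5 := norm_tot htot hVc1
  rw [T.card, nz_eq, hNc'] at h5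
  obtain ⟨k, hk⟩ := Nat.exists_eq_succ_of_ne_zero T.npos
  have h6 : V (c' ^ 3 ^ n - 1) < 1 := by
    have e : c' ^ 3 ^ n = (c' ^ 3) ^ 3 ^ k := by
      rw [← pow_mul, hk, pow_succ, mul_comm]
    rw [e]
    have h7 : V (c' ^ 3) ≤ 1 := by rw [map_pow]; exact pow_le_one' hVc1 3
    have key : ∀ (z : K), V z ≤ 1 → V (z - 1) < 1 → ∀ j : ℕ, V (z ^ j - 1) < 1 := by
      intro z hz1 hz j
      induction j with
      | zero => simp
      | succ j ih =>
        have e : z ^ (j + 1) - 1 = z * (z ^ j - 1) + (z - 1) := by ring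
        rw [e]
        refine lt_of_le_of_lt (Valuation.map_add _ _ _) (max_lt ?_ hz)
        rw [map_mul]
        exact lt_of_le_of_lt (mul_le_of_le_one_left' hz1) ih
    exact key _ h7 hVc' _
  have h8 : V (algebraMap F K (nz F K c) - 1) < 1 := by
    have e : algebraMap F K (nz F K c) - 1 =
        (algebraMap F K (nz F K c) - c' ^ 3 ^ n) + (c' ^ 3 ^ n - 1) := by ring
    rw [e]
    exact lt_of_le_of_lt (Valuation.map_add _ _ _) (max_lt h5 h6)
  obtain ⟨i, hi, hi2⟩ := T.zeta.eq_pow_of_pow_eq_one hN3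
  obtain ⟨g1, g2⟩ := v_omsub1 (K := K) T.quad' (T.three P hP)
  rw [← hi2] at h8 ⊢
  rw [map_pow] at h8
  interval_cases i
  · rw [pow_zero]
  · rw [pow_one] at h8
    rw [g1] at h8
    exact absurd h8 (lt_irrefl _)
  · rw [g2] at h8
    exact absurd h8 (lt_irrefl _)

end main

end Pool.Agent.H62
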