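import Mathlib
import Pool.Agent.H62.SelT

/-!
# The Selmer group over a cyclic extension of degree a power of three, II
-/

set_option autoImplicit false
set_option linter.unusedSectionVars false

namespace Pool.Agent.H62

open NumberField IsDedekindDomain WithZero
open Pool.Agent.Y696 (val_aut val_eq_of exp_lt exp_rep und und_lies exists_above)
open Pool.Agent.Q7.LK (IsPow)

section

variable {K : Type} [Field K] [NumberField K]

lemma exp2_le_one : (exp (-2 : ℤ) : ℤᵐ⁰) ≤ 1 := by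
  rw [← exp_zero]
  exact exp_mono (by norm_num)

lemma near_le {V : Valuation K ℤᵐ⁰} {z : K} (h : V (z - 1) ≤ exp (-2 : ℤ)) : V z ≤ 1 := by
  have e : z = (z - 1) + 1 := by ring
  rw [e]
  exact add_le' (h.trans exp2_le_one) (by rw [map_one])

lemma near_one {V : Valuation K ℤᵐ⁰} {z : K} (h : V (z - 1) ≤ exp (-2 : ℤ)) : V z = 1 := by
  have e : z = 1 + (z - 1) := by ring
  have h1 : V (z - 1) < V 1 := by
    rw [map_one, ← exp_zero]
    exact lt_of_le_of_lt h (exp_lt_exp.2 (by norm_num))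
  rw [e, Valuation.map_add_eq_of_lt_left _ h1, map_one]

/-- the group of the numbers with the local conditions -/
def SY (V : Valuation K ℤᵐ⁰) : Subgroup Kˣ where
  carrier := {y | (∀ v : HeightOneSpectrum (𝓞 K), C3 (v.valuation K (y : K))) ∧
    ∃ c : K, c ≠ 0 ∧ V ((y : K) * c ^ 3 - 1) ≤ exp (-2 : ℤ)}
  one_mem' := ⟨fun v => by rw [Units.val_one, map_one]; exact C3.one, 1, one_ne_zero, by
    rw [Units.val_one]
    simp⟩
  mul_mem' := by
    rintro y z ⟨h1, c, hc, h2⟩ ⟨k1, d, hd, k2⟩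
    refine ⟨fun v => ?_, c * d, mul_ne_zero hc hd, ?_⟩
    · rw [Units.val_mul, map_mul]
      exact (h1 v).mul (k1 v)
    · rw [Units.val_mul]
      have e : (y : K) * z * (c * d) ^ 3 - 1 =
          ((y : K) * c ^ 3 - 1) * ((z : K) * d ^ 3) + ((z : K) * d ^ 3 - 1) := by ring
      rw [e]
      refine add_le' ?_ k2
      rw [map_mul, near_one k2, mul_one]
      exact h2
  inv_mem' := by
    rintro y ⟨h1, c, hc, h2⟩
    refine ⟨fun v => ?_, c⁻¹, inv_ne_zero hc, ?_⟩
    · rw [Units.val_inv_eq_inv_val, map_inv₀]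
      exact (h1 v).inv
    · rw [Units.val_inv_eq_inv_val]
      have hy : (y : K) ≠ 0 := y.ne_zero
      have e : (y : K)⁻¹ * c⁻¹ ^ 3 - 1 = -((y : K) * c ^ 3 - 1) / ((y : K) * c ^ 3) := by
        field_simp
        ring
      rw [e, map_div₀, near_one h2, div_one, Valuation.map_neg]
      exact h2

end

section main

variable {F K : Type} [Field F] [NumberField F] [IsCyclotomicExtension {3} ℚ F] [Field K]
  [NumberField K] [Algebra F K] {ζ : F} {n : ℕ} {π : 𝓞 F} [IsGalois F K]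

/-- the units of the ring of integers of `F` -/
lemma unit_F (hζ : IsPrimitiveRoot ζ 3) (u : (𝓞 F)ˣ) :
    ∃ (j : Fin 3) (s : F), s ≠ 0 ∧ ((u : 𝓞 F) : F) = ζ ^ (j : ℕ) * s ^ 3 := by
  have h := IsCyclotomicExtension.Rat.Three.Units.mem hζ u
  have e : ∀ x : 𝓞 F, ((-x : 𝓞 F) : F) = -(x : F) := fun x => map_neg (algebraMap (𝓞 F) F) x
  have e2 : ∀ x : 𝓞 F, ((x ^ 2 : 𝓞 F) : F) = (x : F) ^ 2 := fun x => map_pow (algebraMap (𝓞 F) F) x 2
  have e1 : ((1 : 𝓞 F) : F) = 1 := map_one (algebraMap (𝓞 F) F)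
  have hz : ((hζ.toInteger : 𝓞 F) : F) = ζ := rfl
  simp only [List.mem_cons, List.not_mem_nil, or_false] at h
  rcases h with rfl | rfl | rfl | rfl | rfl | rfl
  · exact ⟨0, 1, one_ne_zero, by simp⟩
  · refine ⟨0, -1, by norm_num, ?_⟩
    rw [Units.val_neg, Units.val_one, e, e1]
    norm_num
  · exact ⟨1, 1, one_ne_zero, by simp⟩
  · refine ⟨1, -1, by norm_num, ?_⟩
    rw [Units.val_neg, e]
    have : (((IsPrimitiveRoot.isUnit (hζ.toInteger_isPrimitiveRoot) (by decide)).unit : 𝓞 F) : F) = ζ := rfl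
    rw [this]
    norm_num
  · refine ⟨2, 1, one_ne_zero, ?_⟩
    rw [Units.val_pow_eq_pow_val, e2]
    have : (((IsPrimitiveRoot.isUnit (hζ.toInteger_isPrimitiveRoot) (by decide)).unit : 𝓞 F) : F) = ζ := rfl
    rw [this]
    norm_num
  · refine ⟨2, -1, by norm_num, ?_⟩
    rw [Units.val_neg, Units.val_pow_eq_pow_val, e, e2]
    have : (((IsPrimitiveRoot.isUnit (hζ.toInteger_isPrimitiveRoot) (by decide)).unit : 𝓞 F) : F) = ζ := rfl
    rw [this]
    norm_num

lemma iter_map (σ : Gal(K/F)) (m : ℕ) (y : Kˣ) :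
    (Units.map ((σ : K ≃ₐ[F] K) : K →* K))^[m] y = Units.map ((σ ^ m : K ≃ₐ[F] K) : K →* K) y := by
  induction m generalizing y with
  | zero => ext; rfl
  | succ m ih =>
    rw [Function.iterate_succ_apply, ih, pow_succ]
    ext
    rfl

/-- numbers that are cubes up to a unit and powers of the prime are cubes up to a root of unity -/
theorem Tw.desc (T : Tw F K ζ n π) {y y' : K} (hy' : y' ≠ 0) {f : F} (hf : algebraMap F K f = y * y' ^ 3)
    (hf0 : f ≠ 0)
    (h3 : ∀ v : HeightOneSpectrum (𝓞 K), C3 (v.valuation K y)) :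
    ∃ (j : Fin 3) (z : K), z ≠ 0 ∧ y = (algebraMap F K ζ) ^ (j : ℕ) * z ^ 3 := by
  have hpid := IsCyclotomicExtension.Rat.three_pid F
  obtain ⟨u, k, h, hh, e⟩ := field_cube T.prime hf0 (fun v₀ hv₀ => by
    obtain ⟨v, hlo⟩ := exists_above (K := K) v₀
    have hund : und (F := F) v = v₀ := HeightOneSpectrum.ext hlo.over.symm
    have hπ : algebraMap (𝓞 F) (𝓞 K) π ∉ v.asIdeal := by
      intro hcon
      apply hv₀
      rw [← hund]
      exact hcon
    rw [← hund, ← T.unr v hπ, hf, map_mul, map_pow]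
    exact (h3 v).mul (C3.cube ((Valuation.ne_zero_iff _).2 hy')))
  obtain ⟨b, u', hb⟩ := T.kum
  have hπF : (π : F) ≠ 0 := by
    intro h0
    apply T.prime.ne_zero
    exact (FaithfulSMul.algebraMap_eq_zero_iff (𝓞 F) F).1 h0
  have hb0 : b ≠ 0 := by
    rintro rfl
    rw [zero_pow three_ne_zero] at hb
    have h1 := (map_eq_zero (algebraMap F K)).1 hb.symm
    have h2 : ((u' : 𝓞 F) * π) = 0 := (FaithfulSMul.algebraMap_eq_zero_iff (𝓞 F) F).1 h1
    rcases mul_eq_zero.1 h2 with h3 | h3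
    · exact u'.ne_zero h3
    · exact T.prime.ne_zero h3
  obtain ⟨j, s, hs, hus⟩ := unit_F T.zeta (u * (u'⁻¹) ^ k)
  refine ⟨j, algebraMap F K (s * h) * b ^ k / y', ?_, ?_⟩
  · refine div_ne_zero (mul_ne_zero ((map_ne_zero _).2 (mul_ne_zero hs hh)) (pow_ne_zero _ hb0)) hy'
  · have e1 : y = algebraMap F K f / y' ^ 3 := by
      rw [hf]
      field_simp
    have hπk : (π : F) ^ k = ((((u'⁻¹) ^ k : (𝓞 F)ˣ) : 𝓞 F) : F) * (((u' : 𝓞 F) * π : 𝓞 F) : F) ^ k := by
      have h1 : (π : 𝓞 F) ^ k = (((u'⁻¹) ^ k : (𝓞 F)ˣ) : 𝓞 F) * ((u' : 𝓞 F) * π) ^ k := by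
        rw [mul_pow, ← mul_assoc, Units.val_pow_eq_pow_val, ← mul_pow, Units.inv_mul, one_pow, one_mul]
      have h2 := congrArg (algebraMap (𝓞 F) F) h1
      rw [map_pow, map_mul, map_pow] at h2
      exact h2
    have e2 : f = ζ ^ (j : ℕ) * s ^ 3 * (((u' : 𝓞 F) * π : 𝓞 F) : F) ^ k * h ^ 3 := by
      rw [e, hπk, ← hus]
      have : (((u * (u'⁻¹) ^ k : (𝓞 F)ˣ) : 𝓞 F) : F) =
          ((u : 𝓞 F) : F) * ((((u'⁻¹) ^ k : (𝓞 F)ˣ) : 𝓞 F) : F) := by
        rw [Units.val_mul]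
        exact map_mul (algebraMap (𝓞 F) F) _ _
      rw [this]
      ring
    rw [e1, e2, map_mul, map_mul, map_mul, map_pow, map_pow, map_pow, map_pow, ← hb, map_mul]
    field_simp
    ring

/-- **the Selmer group** -/
theorem Tw.sel (T : Tw F K ζ n π) {a : K} (ha : a ≠ 0)
    (h3 : ∀ v : HeightOneSpectrum (𝓞 K), C3 (v.valuation K a)) {w : HeightOneSpectrum (𝓞 K)}
    (hw : (3 : 𝓞 K) ∈ w.asIdeal) (hl : Lc (algebraMap F K ζ) w a) :
    ∃ i : Fin 3, IsPow 3 (a * (algebraMap F K ζ) ^ (i : ℕ)) := by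
  have hpid := IsCyclotomicExtension.Rat.three_pid F
  have hcyc := T.cyc
  obtain ⟨i, c, hc, hic⟩ := hl
  refine ⟨i, ?_⟩
  set ω := algebraMap F K ζ with hω
  have hI := T.quad
  rw [← hω] at hI
  have hω0 : ω ≠ 0 := (map_ne_zero _).2 (T.zeta.ne_zero (by norm_num))
  set y := a * ω ^ (i : ℕ) with hy
  have hy0 : y ≠ 0 := mul_ne_zero ha (pow_ne_zero _ hω0)
  by_contra hcon
  set W := w.valuation K with hW
  obtain ⟨σ, hσ⟩ := IsCyclic.exists_generator (α := Gal(K/F))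
  have hinvW : ∀ x : K, W (σ x) = W x := fun x =>
    val_inv_uniq (σ : K ≃+* K) (k := 3) (by exact_mod_cast hw) (fun v hv => T.uniq v w
      (by exact_mod_cast hv) hw) x
  let yu : Kˣ := Units.mk0 y hy0
  have hyY : yu ∈ SY W := by
    refine ⟨fun v => ?_, c, hc, hic⟩
    show C3 (v.valuation K y)
    rw [hy, map_mul, map_pow, v_om (V := v.valuation K) hI, one_pow, mul_one]
    exact h3 v
  obtain ⟨x, hxY, hxn, d, hd⟩ := exists_fix (Units.map ((σ : K ≃ₐ[F] K) : K →* K)) n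
    (fun y => by
      rw [iter_map, ← T.card]
      have : (σ : K ≃ₐ[F] K) ^ Nat.card Gal(K/F) = 1 := pow_card_eq_one'
      rw [this]
      ext
      rfl) (SY W)
    (fun y hy => by
      obtain ⟨h1, c, hc, h2⟩ := hy
      refine ⟨fun v => ?_, σ c, (map_ne_zero σ).2 hc, ?_⟩
      · obtain ⟨v', hv'⟩ := val_aut (σ : K ≃+* K) v
        have h4 : v.valuation K (σ (y : K)) = v'.valuation K (y : K) := hv' _
        show C3 (v.valuation K (σ (y : K)))
        rw [h4]
        exact h1 v'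
      · show W (σ (y : K) * (σ c) ^ 3 - 1) ≤ _
        have e : σ (y : K) * (σ c) ^ 3 - 1 = σ ((y : K) * c ^ 3 - 1) := by
          rw [map_sub, map_mul, map_pow, map_one]
        rw [e, hinvW]
        exact h2) hyY
    (by
      rintro ⟨z, hz⟩
      exact hcon ⟨z, by
        have := congrArg Units.val hz
        rw [Units.val_pow_eq_pow_val] at this
        exact this⟩)
  obtain ⟨hx1, c1, hc1, hx2⟩ := hxY
  have hd' : (d : K) ^ 3 = σ (x : K) / (x : K) := by
    have := congrArg Units.val hd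
    rw [Units.val_pow_eq_pow_val, Units.val_div_eq_div_val] at this
    exact this.symm
  obtain ⟨P, hPlo⟩ := exists_above (K := K) (hsp T.prime)
  have hP : algebraMap (𝓞 F) (𝓞 K) π ∈ P.asIdeal := by
    have h1 : π ∈ P.asIdeal.under (𝓞 F) := by
      rw [← hPlo.over]
      exact Ideal.mem_span_singleton_self π
    exact h1
  have hN := T.norm_one hP x.ne_zero hd' (hx1 P)
  obtain ⟨y', hy'⟩ := groupCohomology.exists_div_of_norm_eq_one hσ hN
  have hσy' : σ (y' : K) ≠ 0 := (map_ne_zero σ).2 y'.ne_zero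
  -- `x y' ^ 3` lies in `F`
  have hfix : σ ((x : K) * (y' : K) ^ 3) = (x : K) * (y' : K) ^ 3 := by
    have h1 : σ (x : K) = (d : K) ^ 3 * x := by
      rw [hd']
      field_simp
    rw [map_mul, map_pow, h1, ← hy']
    field_simp
  have hall : ∀ g : Gal(K/F), g ((x : K) * (y' : K) ^ 3) = (x : K) * (y' : K) ^ 3 := by
    intro g
    obtain ⟨m, rfl⟩ := hσ g
    have hmem : σ ∈ MulAction.stabilizer Gal(K/F) ((x : K) * (y' : K) ^ 3) := hfix
    exact Subgroup.zpow_mem _ hmem m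
  obtain ⟨f, hf⟩ := (IsGalois.mem_range_algebraMap_iff_fixed (F := F) _).2 hall
  have hf0 : f ≠ 0 := by
    rintro rfl
    rw [map_zero] at hf
    exact mul_ne_zero x.ne_zero (pow_ne_zero _ y'.ne_zero) hf.symm
  obtain ⟨j, z, hz, hxz⟩ := T.desc y'.ne_zero hf hf0 hx1
  rw [← hω] at hxz
  have hj : j = 0 := by
    refine no_om (V := W) hI (T.lam w hw) (c := z * c1) j ?_
    have e : ω ^ (j : ℕ) * (z * c1) ^ 3 - 1 = (x : K) * c1 ^ 3 - 1 := by
      rw [hxz]
      ring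
    rw [e]
    exact hx2
  apply hxn
  refine ⟨Units.mk0 z hz, Units.ext ?_⟩
  rw [hxz, hj]
  simp

end main

end Pool.Agent.H62
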