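import Mathlib
import Pool.Agent.H62.SelU

/-!
# The cubic subextension
-/

set_option autoImplicit false
set_option linter.unusedSectionVars false

namespace Pool.Agent.H62

open NumberField IsDedekindDomain WithZero
open Pool.Agent.Y696 (val_aut val_eq_of exp_lt exp_rep und und_lies exists_above)
open Pool.Agent.Q7.LK (IsPow)

variable {F K : Type} [Field F] [NumberField F] [IsCyclotomicExtension {3} ℚ F] [Field K]
  [NumberField K] [Algebra F K] {ζ : F} {n : ℕ} {π : 𝓞 F} [IsGalois F K]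

/-- the automorphisms that do not fix the generator of the cubic subextension generate the group -/
lemma gen_of (hcard : Nat.card Gal(K/F) = 3 ^ n) {σ : Gal(K/F)} (hσ : ∀ x, x ∈ Subgroup.zpowers σ)
    {b ω : K} (hω : ω ^ 3 = 1) (hσω : σ ω = ω) (hb : σ b = ω * b) {g : Gal(K/F)} (hg : g b ≠ b) :
    ∀ x, x ∈ Subgroup.zpowers g := by
  obtain ⟨m, rfl⟩ := Submonoid.mem_powers_iff _ _ |>.1 ((mem_powers_iff_mem_zpowers).2 (hσ g))
  have h1 : ∀ m : ℕ, (σ ^ m : Gal(K/F)) b = ω ^ m * b := by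
    intro m
    induction m with
    | zero => simp
    | succ m ih =>
      have : (σ ^ (m + 1) : Gal(K/F)) b = (σ ^ m : Gal(K/F)) (σ b) := by
        rw [pow_succ]
        rfl
      have h2 : ∀ j : ℕ, (σ ^ j : Gal(K/F)) ω = ω := by
        intro j
        induction j with
        | zero => rfl
        | succ j ih =>
          have : (σ ^ (j + 1) : Gal(K/F)) ω = (σ ^ j : Gal(K/F)) (σ ω) := by
            rw [pow_succ]
            rfl
          rw [this, hσω, ih]
      rw [this, hb, map_mul, ih, h2]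
      ring
  have h3 : ¬ 3 ∣ m := by
    rintro ⟨k, rfl⟩
    apply hg
    rw [h1, pow_mul, hω, one_pow, one_mul]
  have hord : orderOf σ = 3 ^ n := by
    rw [← hcard, orderOf_eq_card_of_forall_mem_zpowers hσ]
  have hcop : (orderOf σ).Coprime m := by
    rw [hord]
    exact Nat.Coprime.pow_left n ((Nat.Prime.coprime_iff_not_dvd Nat.prime_three).2 h3)
  have hord2 : orderOf (σ ^ m) = 3 ^ n := by rw [Nat.Coprime.orderOf_pow hcop, hord]
  have htop : Subgroup.zpowers (σ ^ m) = ⊤ := by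
    apply Subgroup.eq_top_of_card_eq
    rw [Nat.card_zpowers, hord2, hcard]
  intro x
  rw [htop]
  trivial

/-- **a generator of the cubic subextension** -/
theorem exists_kum (hζ : IsPrimitiveRoot ζ 3) (hn : n ≠ 0) (hcard : Nat.card Gal(K/F) = 3 ^ n)
    (hcyc : IsCyclic Gal(K/F)) (hπ : Prime π)
    (hunr : ∀ v : HeightOneSpectrum (𝓞 K), algebraMap (𝓞 F) (𝓞 K) π ∉ v.asIdeal → ∀ f : F,
      v.valuation K (algebraMap F K f) = (und (F := F) v).valuation F f)
    {w : HeightOneSpectrum (𝓞 K)}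
    (hlam : w.valuation K (2 * algebraMap F K ζ + 1) = exp (-1 : ℤ)) :
    ∃ (b : K) (u : (𝓞 F)ˣ), b ^ 3 = algebraMap F K (((u : 𝓞 F) * π : 𝓞 F) : F) ∧
      (∃ g : Gal(K/F), g b ≠ b) ∧
      ∀ g : Gal(K/F), g b ≠ b → ∀ x, x ∈ Subgroup.zpowers g := by
  have hpid := IsCyclotomicExtension.Rat.three_pid F
  obtain ⟨σ, hσ⟩ := IsCyclic.exists_generator (α := Gal(K/F))
  set ω := algebraMap F K ζ with hω
  have hI : ω ^ 2 + ω + 1 = 0 := by
    rw [hω, ← map_pow, ← map_add, ← map_one (algebraMap F K), ← map_add, quad_of hζ, map_zero]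
  have hω3 : ω ^ 3 = 1 := by linear_combination (ω - 1) * hI
  have hσω : σ ω = ω := σ.commutes ζ
  have hω1 : ω ≠ 1 := by
    intro h
    rw [hω, ← map_one (algebraMap F K)] at h
    exact hζ.ne_one (by norm_num) ((algebraMap F K).injective h)
  have hω0 : ω ≠ 0 := (map_ne_zero _).2 (hζ.ne_zero (by norm_num))
  have hN : Algebra.norm F (ω ^ 2) = 1 := by
    rw [hω, ← map_pow, Algebra.norm_algebraMap, ← IsGalois.card_aut_eq_finrank F K, hcard]
    obtain ⟨k, rfl⟩ := Nat.exists_eq_succ_of_ne_zero hn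
    have e : (ζ ^ 2) ^ 3 ^ (k + 1) = (ζ ^ 3) ^ (2 * 3 ^ k) := by
      rw [← pow_mul, ← pow_mul]
      congr 1
      ring
    rw [e, hζ.pow_eq_one, one_pow]
  obtain ⟨y, hy⟩ := groupCohomology.exists_div_of_norm_eq_one hσ hN
  have hσy0 : σ (y : K) ≠ 0 := (map_ne_zero σ).2 y.ne_zero
  have hσy : σ (y : K) = ω * y := by
    rw [div_eq_iff hσy0] at hy
    linear_combination (-ω) * hy - (σ (y : K)) * hω3
  -- `y ^ 3` lies in `F`
  have hfix : σ ((y : K) ^ 3) = (y : K) ^ 3 := by
    rw [map_pow, hσy, mul_pow, hω3, one_mul]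
  have hall : ∀ g : Gal(K/F), g ((y : K) ^ 3) = (y : K) ^ 3 := by
    intro g
    obtain ⟨m, rfl⟩ := hσ g
    have hmem : σ ∈ MulAction.stabilizer Gal(K/F) ((y : K) ^ 3) := hfix
    exact Subgroup.zpow_mem _ hmem m
  obtain ⟨f, hf⟩ := (IsGalois.mem_range_algebraMap_iff_fixed (F := F) _).2 hall
  have hf0 : f ≠ 0 := by
    rintro rfl
    rw [map_zero] at hf
    exact pow_ne_zero _ y.ne_zero hf.symm
  obtain ⟨u, k, h, hh, e⟩ := field_cube hπ hf0 (fun v₀ hv₀ => by
    obtain ⟨v, hlo⟩ := exists_above (K := K) v₀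
    have hund : und (F := F) v = v₀ := HeightOneSpectrum.ext hlo.over.symm
    have hπ : algebraMap (𝓞 F) (𝓞 K) π ∉ v.asIdeal := by
      intro hcon
      apply hv₀
      rw [← hund]
      exact hcon
    rw [← hund, ← hunr v hπ, hf, map_pow]
    exact C3.cube ((Valuation.ne_zero_iff _).2 y.ne_zero))
  have hπF : (π : F) ≠ 0 := by
    intro h0
    apply hπ.ne_zero
    exact (FaithfulSMul.algebraMap_eq_zero_iff (𝓞 F) F).1 h0
  set r := k % 3 with hr
  have hk : k = 3 * (k / 3) + r := (Nat.div_add_mod k 3).symm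
  set d : F := h * (π : F) ^ (k / 3) with hd
  have hd0 : d ≠ 0 := mul_ne_zero hh (pow_ne_zero _ hπF)
  set b := (y : K) / algebraMap F K d with hb
  have hD0 : algebraMap F K d ≠ 0 := (map_ne_zero _).2 hd0
  have hb0 : b ≠ 0 := div_ne_zero y.ne_zero hD0
  have hσb : σ b = ω * b := by
    rw [hb, map_div₀, hσy, σ.commutes, mul_div_assoc]
  have hb3 : b ^ 3 = algebraMap F K (((u : 𝓞 F) : F) * (π : F) ^ r) := by
    have e1 : f = ((u : 𝓞 F) : F) * (π : F) ^ r * d ^ 3 := by
      rw [e, hd]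
      have : (π : F) ^ k = (π : F) ^ r * ((π : F) ^ (k / 3)) ^ 3 := by
        rw [← pow_mul, ← pow_add]
        congr 1
        omega
      rw [this]
      ring
    rw [hb, div_pow, ← hf, e1, map_mul _ _ (d ^ 3), map_pow]
    field_simp
  have hcoe : ∀ x y : 𝓞 F, ((x * y : 𝓞 F) : F) = (x : F) * (y : F) := fun x y =>
    map_mul (algebraMap (𝓞 F) F) x y
  have hr3 : r = 0 ∨ r = 1 ∨ r = 2 := by omega
  rcases hr3 with h0 | h1 | h2
  · -- impossible
    exfalso
    rw [h0, pow_zero, mul_one] at hb3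
    obtain ⟨j, s, hs, hus⟩ := unit_F hζ u
    rw [hus, map_mul, map_pow, map_pow, ← hω] at hb3
    have hS0 : algebraMap F K s ≠ 0 := (map_ne_zero _).2 hs
    have hj : j = 0 := by
      refine no_om (V := w.valuation K) hI hlam (c := algebraMap F K s / b) j ?_
      have : ω ^ (j : ℕ) * (algebraMap F K s / b) ^ 3 - 1 = 0 := by
        rw [div_pow, hb3]
        field_simp
        ring
      rw [this, map_zero]
      exact zero_le
    rw [hj] at hb3
    simp only [Fin.val_zero, pow_zero, one_mul] at hb3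
    have h4 : (b / algebraMap F K s) ^ 3 = 1 := by
      rw [div_pow, hb3, div_self (pow_ne_zero _ hS0)]
    have hωp : IsPrimitiveRoot ω 3 := hζ.map_of_injective (algebraMap F K).injective
    obtain ⟨i, -, hi⟩ := hωp.eq_pow_of_pow_eq_one h4
    have h5 : b = algebraMap F K (ζ ^ i * s) := by
      rw [map_mul, map_pow, ← hω, hi]
      field_simp
    have h6 : σ b = b := by rw [h5, σ.commutes]
    rw [h6] at hσb
    apply hω1
    have : (ω - 1) * b = 0 := by linear_combination -hσb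
    exact sub_eq_zero.1 ((mul_eq_zero.1 this).resolve_right hb0)
  · refine ⟨b, u, ?_, ⟨σ, ?_⟩, fun g hg => gen_of hcard hσ hω3 hσω hσb hg⟩
    · rw [hb3, h1, pow_one, hcoe]
    · intro h6
      rw [h6] at hσb
      apply hω1
      have : (ω - 1) * b = 0 := by linear_combination -hσb
      exact sub_eq_zero.1 ((mul_eq_zero.1 this).resolve_right hb0)
  · have hσb2 : σ (algebraMap F K (π : F) / b) = ω ^ 2 * (algebraMap F K (π : F) / b) := by
      rw [map_div₀, hσb, σ.commutes]
      have : ω⁻¹ = ω ^ 2 := inv_eq_of_mul_eq_one_right (by rw [← hω3]; ring)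
      rw [← this]
      field_simp
    have hP0 : algebraMap F K (π : F) ≠ 0 := (map_ne_zero _).2 hπF
    have hω6 : (ω ^ 2) ^ 3 = 1 := by
      rw [← pow_mul, mul_comm, pow_mul, hω3, one_pow]
    have hσω2 : σ (ω ^ 2) = ω ^ 2 := by rw [map_pow, hσω]
    refine ⟨algebraMap F K (π : F) / b, u⁻¹, ?_, ⟨σ, ?_⟩, fun g hg =>
      gen_of hcard hσ hω6 hσω2 hσb2 hg⟩
    · have hinv : ((u⁻¹ : (𝓞 F)ˣ) : 𝓞 F) * (u : 𝓞 F) = 1 := Units.inv_mul u
      have hinv' := congrArg (algebraMap (𝓞 F) F) hinv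
      rw [map_mul, map_one] at hinv'
      have hu0 : ((u : 𝓞 F) : F) ≠ 0 := by
        intro h0
        have h0' : algebraMap (𝓞 F) F (u : 𝓞 F) = 0 := h0
        rw [h0', mul_zero] at hinv'
        exact zero_ne_one hinv'
      have hue : (((u⁻¹ : (𝓞 F)ˣ) : 𝓞 F) : F) = (((u : 𝓞 F) : F))⁻¹ := eq_inv_of_mul_eq_one_left hinv'
      rw [div_pow, hb3, h2, hcoe, hue, map_mul, map_mul, map_inv₀, map_pow]
      have hU0 : algebraMap F K ((u : 𝓞 F) : F) ≠ 0 := (map_ne_zero _).2 hu0
      field_simp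
    · intro h6
      rw [h6] at hσb2
      have h7 : (ω ^ 2 - 1) * (algebraMap F K (π : F) / b) = 0 := by linear_combination -hσb2
      have h8 := (mul_eq_zero.1 h7).resolve_right (div_ne_zero hP0 hb0)
      apply hω1
      linear_combination hω3 - ω * h8

end Pool.Agent.H62
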