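import Mathlib
import Pool.Agent.H62.Kum

/-!
# The prime above three is inert in the cubic subextension
-/

set_option autoImplicit false
set_option linter.unusedSectionVars false

namespace Pool.Agent.H62

open NumberField IsDedekindDomain WithZero
open Pool.Agent.Y696 (val_aut val_eq_of exp_lt exp_rep und und_lies exists_above)

section

variable {F K : Type} [Field F] [NumberField F] [Field K] [NumberField K] [Algebra F K]

/-- Frobenius automorphisms at the primes with the norm three below -/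
def Fro (w : HeightOneSpectrum (𝓞 K)) (φ : Gal(K/F)) : Prop :=
  ∀ x : 𝓞 K, φ • x - x ^ 3 ∈ w.asIdeal

lemma Fro.mem {w : HeightOneSpectrum (𝓞 K)} {φ : Gal(K/F)} (h : Fro w φ) (x : 𝓞 K) :
    φ • x ∈ w.asIdeal ↔ x ∈ w.asIdeal := by
  constructor
  · intro h2
    have h3 := w.asIdeal.sub_mem h2 (h x)
    rw [sub_sub_cancel] at h3
    exact w.isPrime.mem_of_pow_mem 3 h3
  · intro h2
    have h3 := w.asIdeal.add_mem (h x) (Ideal.pow_mem_of_mem _ h2 3 (by norm_num))
    rwa [sub_add_cancel] at h3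

lemma Fro.inv {w : HeightOneSpectrum (𝓞 K)} {φ : Gal(K/F)} (h : Fro w φ) (x : K) :
    w.valuation K (φ x) = w.valuation K x := by
  refine val_inv_of (φ : K ≃+* K) w (fun x => ?_) x
  have h1 : ((φ : K ≃+* K) (x : K)) = ((φ • x : 𝓞 K) : K) := rfl
  rw [h1, ← mem_iff_val]
  exact h.mem x

lemma Fro.triv {w : HeightOneSpectrum (𝓞 K)} {φ : Gal(K/F)} (h : Fro w φ) {x : K}
    (hx : w.valuation K x ≤ 1) : w.valuation K (φ x - x ^ 3) < 1 := by
  obtain ⟨r, hr⟩ := w.exists_valuation_sub_lt_of_integer hx 1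
  rw [Units.val_one] at hr
  have hr' : w.valuation K ((r : K) - x) < 1 := hr
  have hr1 : w.valuation K (r : K) ≤ 1 := w.valuation_le_one r
  have e : φ x - x ^ 3 = φ (x - (r : K)) + ((φ • r - r ^ 3 : 𝓞 K) : K) +
      ((r : K) - x) * ((r : K) ^ 2 + (r : K) * x + x ^ 2) := by
    rw [map_sub]
    have : ((φ • r - r ^ 3 : 𝓞 K) : K) = φ (r : K) - (r : K) ^ 3 := by
      have h1 : ((φ • r - r ^ 3 : 𝓞 K) : K) = algebraMap (𝓞 K) K (φ • r - r ^ 3) := rfl
      rw [h1, map_sub, map_pow]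
      rfl
    rw [this]
    ring
  rw [e]
  refine lt_of_le_of_lt (Valuation.map_add _ _ _) (max_lt (lt_of_le_of_lt (Valuation.map_add _ _ _)
    (max_lt ?_ ((mem_iff_val _ _).1 (h r)))) ?_)
  · rw [h.inv, Valuation.map_sub_swap]
    exact hr'
  · rw [map_mul]
    refine lt_of_le_of_lt (mul_le_of_le_one_right' (add_le' (add_le' ?_ ?_) ?_)) hr'
    · rw [map_pow]; exact pow_le_one' hr1 2
    · rw [map_mul]; exact mul_le_one' hr1 hx
    · rw [map_pow]; exact pow_le_one' hx 2

/-- the cubes of the fixed units are one modulo nine up to the sign -/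
lemma Fro.cube {w : HeightOneSpectrum (𝓞 K)} {φ : Gal(K/F)} (h : Fro w φ) {ω b : K}
    (hI : ω ^ 2 + ω + 1 = 0) (hl : w.valuation K (2 * ω + 1) = exp (-1 : ℤ)) (hω : φ ω = ω)
    (hb : φ b = b) (hb1 : w.valuation K b = 1) :
    w.valuation K (b ^ 3 - 1) ≤ exp (-4 : ℤ) ∨ w.valuation K (-b ^ 3 - 1) ≤ exp (-4 : ℤ) := by
  set W := w.valuation K with hW
  have h1 : W ((b - 1) * (b + 1)) < 1 := by
    have h2 := h.triv hb1.le
    rw [hb] at h2
    have e : b - b ^ 3 = -(b * ((b - 1) * (b + 1))) := by ring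
    rw [e, Valuation.map_neg, map_mul, hb1, one_mul] at h2
    exact h2
  have key : ∀ b : K, φ b = b → W (b - 1) < 1 → W (b ^ 3 - 1) ≤ exp (-4 : ℤ) := by
    intro b hb hb1
    set l := 2 * ω + 1 with hl'
    have hl0 : l ≠ 0 := by
      intro h0
      rw [h0, map_zero] at hl
      exact exp_ne_zero hl.symm
    set z := (b - 1) / l with hz
    have hbz : b = 1 + l * z := by
      rw [hz]
      field_simp
      ring
    have hWz : W z ≤ 1 := by
      rw [hz, map_div₀, hl]
      have := exp_lt hb1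
      rw [div_le_one₀ (exp_pos)]
      exact this
    have hφz : φ z = z := by
      rw [hz, map_div₀, map_sub, hb, map_one, hl', map_add, map_mul, hω, map_ofNat, map_one]
    have h2 := h.triv hWz
    rw [hφz] at h2
    have h3 : (3 : K) = -l ^ 2 := by rw [hl']; linear_combination 4 * hI
    have e : b ^ 3 - 1 = -(l ^ 3 * (z - z ^ 3)) - l ^ 4 * z ^ 2 := by
      rw [hbz]
      linear_combination (l * z + l ^ 2 * z ^ 2) * h3
    rw [e]
    refine sub_le' ?_ ?_
    · rw [Valuation.map_neg, map_mul, map_pow, hl]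
      calc _ ≤ (exp (-1 : ℤ)) ^ 3 * exp (-1 : ℤ) := mul_le_mul' le_rfl (exp_lt h2)
        _ = exp (-4 : ℤ) := by rw [← exp_nsmul, ← exp_add]; rfl
    · rw [map_mul, map_pow, hl, map_pow]
      calc _ ≤ (exp (-1 : ℤ)) ^ 4 * 1 := mul_le_mul' le_rfl (pow_le_one' hWz 2)
        _ = exp (-4 : ℤ) := by rw [mul_one, ← exp_nsmul]; rfl
  by_cases h2 : W (b - 1) < 1
  · exact Or.inl (key b hb h2)
  · right
    have h3 : W (b + 1) < 1 := by
      by_contra h4
      rw [map_mul] at h1
      exact absurd h1 (not_lt.2 (one_le_mul (not_lt.1 h2) (not_lt.1 h4)))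
    have h4 := key (-b) (by rw [map_neg, hb]) (by
      have : -b - 1 = -(b + 1) := by ring
      rw [this, Valuation.map_neg]
      exact h3)
    have e : -b ^ 3 - 1 = (-b) ^ 3 - 1 := by ring
    rw [e]
    exact h4

end

section

variable {F K : Type} [Field F] [NumberField F] [IsCyclotomicExtension {3} ℚ F] [Field K]
  [NumberField K] [Algebra F K] {ζ : F} {π : 𝓞 F}

/-- the units, with the signs -/
lemma unit_F' (hζ : IsPrimitiveRoot ζ 3) (u : (𝓞 F)ˣ) :
    ∃ (j : Fin 3), ((u : 𝓞 F) : F) = ζ ^ (j : ℕ) ∨ ((u : 𝓞 F) : F) = -ζ ^ (j : ℕ) := by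
  have h := IsCyclotomicExtension.Rat.Three.Units.mem hζ u
  have e : ∀ x : 𝓞 F, ((-x : 𝓞 F) : F) = -(x : F) := fun x => map_neg (algebraMap (𝓞 F) F) x
  have e2 : ∀ x : 𝓞 F, ((x ^ 2 : 𝓞 F) : F) = (x : F) ^ 2 := fun x => map_pow (algebraMap (𝓞 F) F) x 2
  have e1 : ((1 : 𝓞 F) : F) = 1 := map_one (algebraMap (𝓞 F) F)
  have hz : (((IsPrimitiveRoot.isUnit (hζ.toInteger_isPrimitiveRoot) (by decide)).unit : 𝓞 F) : F) = ζ := rfl
  simp only [List.mem_cons, List.not_mem_nil, or_false] at h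
  rcases h with rfl | rfl | rfl | rfl | rfl | rfl
  · exact ⟨0, Or.inl (by simp)⟩
  · refine ⟨0, Or.inr ?_⟩
    rw [Units.val_neg, Units.val_one, e, e1]
    norm_num
  · exact ⟨1, Or.inl (by simp)⟩
  · refine ⟨1, Or.inr ?_⟩
    rw [Units.val_neg, e, hz]
    norm_num
  · refine ⟨2, Or.inl ?_⟩
    rw [Units.val_pow_eq_pow_val, e2, hz]
    norm_num
  · refine ⟨2, Or.inr ?_⟩
    rw [Units.val_neg, Units.val_pow_eq_pow_val, e, e2, hz]
    norm_num

/-- an element of `𝓞 F` that is close to one at a prime above three -/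
lemma nine_dvd (hζ : IsPrimitiveRoot ζ 3) {w : HeightOneSpectrum (𝓞 K)} (hw : (3 : 𝓞 K) ∈ w.asIdeal)
    (hunr : ∀ f : F, w.valuation K (algebraMap F K f) = (und (F := F) w).valuation F f) {x : 𝓞 F}
    (h : w.valuation K (algebraMap F K (x : F)) ≤ exp (-4 : ℤ)) : (9 : 𝓞 F) ∣ x := by
  rw [hunr] at h
  have hI := quad_of hζ
  have hz : IsPrimitiveRoot hζ.toInteger 3 := hζ.toInteger_isPrimitiveRoot
  have hI' : hζ.toInteger ^ 2 + hζ.toInteger + 1 = 0 := by
    apply FaithfulSMul.algebraMap_injective (𝓞 F) F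
    rw [map_add, map_add, map_pow, map_one, map_zero]
    exact hI
  have hsq : (hζ.toInteger - 1) ^ 2 = -3 * hζ.toInteger := by linear_combination hI'
  have hpr := hζ.zeta_sub_one_prime'
  -- the prime below
  have hmem : hζ.toInteger - 1 ∈ (und (F := F) w).asIdeal := by
    apply (und (F := F) w).isPrime.mem_of_pow_mem 2
    rw [hsq]
    have h3 : (3 : 𝓞 F) ∈ (und (F := F) w).asIdeal := by
      show algebraMap (𝓞 F) (𝓞 K) 3 ∈ w.asIdeal
      rw [map_ofNat]
      exact hw
    exact Ideal.mul_mem_right _ _ ((und (F := F) w).asIdeal.neg_mem h3)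
  have hspan : Ideal.span {hζ.toInteger - 1} = (und (F := F) w).asIdeal := by
    have h1 : (Ideal.span {hζ.toInteger - 1}).IsPrime :=
      (Ideal.span_singleton_prime hpr.ne_zero).2 hpr
    have h2 : Ideal.span {hζ.toInteger - 1} ≠ ⊥ := by
      rw [Ne, Ideal.span_singleton_eq_bot]
      exact hpr.ne_zero
    exact (h1.isMaximal h2).eq_of_le (und (F := F) w).isPrime.ne_top
      ((Ideal.span_singleton_le_iff_mem _).2 hmem)
  have h4 : (und (F := F) w).intValuation x ≤ exp (-((4 : ℕ) : ℤ)) := by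
    rw [← HeightOneSpectrum.valuation_of_algebraMap (K := F)]
    exact h
  rw [HeightOneSpectrum.intValuation_le_pow_iff_mem, ← hspan, Ideal.span_singleton_pow,
    Ideal.mem_span_singleton] at h4
  have h5 : (hζ.toInteger - 1) ^ 4 = 9 * hζ.toInteger ^ 2 := by
    linear_combination ((hζ.toInteger - 1) ^ 2 - 3 * hζ.toInteger) * hsq
  exact (Dvd.intro _ h5.symm).trans h4

/-- **the Frobenius automorphism at the primes above three does not fix the generator of the cubic
subextension** -/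
theorem Fro.ne {w : HeightOneSpectrum (𝓞 K)} (hw : (3 : 𝓞 K) ∈ w.asIdeal) {φ : Gal(K/F)}
    (h : Fro w φ) (hζ : IsPrimitiveRoot ζ 3)
    (hl : w.valuation K (2 * algebraMap F K ζ + 1) = exp (-1 : ℤ))
    (hunr : ∀ f : F, w.valuation K (algebraMap F K f) = (und (F := F) w).valuation F f)
    (h3 : (3 : 𝓞 F) ∣ π - 1) (h9 : ¬ (9 : 𝓞 F) ∣ π - 1) {b : K} {u : (𝓞 F)ˣ}
    (hb : b ^ 3 = algebraMap F K (((u : 𝓞 F) * π : 𝓞 F) : F)) : φ b ≠ b := by
  intro hφ
  set W := w.valuation K with hW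
  set ω := algebraMap F K ζ with hω
  have hI : ω ^ 2 + ω + 1 = 0 := by
    rw [hω, ← map_pow, ← map_add, ← map_one (algebraMap F K), ← map_add, quad_of hζ, map_zero]
  have hW3 := v_three (V := W) hI hl
  -- the values of `π - 1` and of `π`
  obtain ⟨q, hq⟩ := h3
  have hint : ∀ x : 𝓞 F, W (algebraMap F K (x : F)) ≤ 1 := by
    intro x
    have : algebraMap F K (x : F) = ((algebraMap (𝓞 F) (𝓞 K) x : 𝓞 K) : K) := rfl
    rw [this]
    exact w.valuation_le_one _
  have hπ1 : W (algebraMap F K (π : F) - 1) ≤ exp (-2 : ℤ) := by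
    have e : algebraMap F K (π : F) - 1 = 3 * algebraMap F K (q : F) := by
      have h1 := congrArg (fun x : 𝓞 F => algebraMap F K (x : F)) hq
      have h2 : algebraMap F K ((π - 1 : 𝓞 F) : F) = algebraMap F K (π : F) - 1 := by
        have : ((π - 1 : 𝓞 F) : F) = (π : F) - 1 := by
          rw [show ((π - 1 : 𝓞 F) : F) = algebraMap (𝓞 F) F (π - 1) from rfl, map_sub, map_one]
        rw [this, map_sub, map_one]
      have h3 : algebraMap F K ((3 * q : 𝓞 F) : F) = 3 * algebraMap F K (q : F) := by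
        have : ((3 * q : 𝓞 F) : F) = 3 * (q : F) := by
          rw [show ((3 * q : 𝓞 F) : F) = algebraMap (𝓞 F) F (3 * q) from rfl, map_mul, map_ofNat]
        rw [this, map_mul, map_ofNat]
      rw [← h2, ← h3]
      exact h1
    rw [e, map_mul, hW3]
    calc _ ≤ exp (-2 : ℤ) * 1 := mul_le_mul' le_rfl (hint q)
      _ = _ := mul_one _
  have hπv : W (algebraMap F K (π : F)) = 1 := near_one hπ1
  have hub : b ^ 3 = algebraMap F K ((u : 𝓞 F) : F) * algebraMap F K (π : F) := by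
    rw [hb, show (((u : 𝓞 F) * π : 𝓞 F) : F) = algebraMap (𝓞 F) F ((u : 𝓞 F) * π) from rfl, map_mul,
      map_mul]
  have hom := v_om (V := W) hI
  obtain ⟨j, hj⟩ := unit_F' hζ u
  have hu : W (algebraMap F K ((u : 𝓞 F) : F)) = 1 := by
    rcases hj with hj | hj
    · rw [hj, map_pow, map_pow, ← hω, hom, one_pow]
    · rw [hj, map_neg, Valuation.map_neg, map_pow, map_pow, ← hω, hom, one_pow]
  have hb1 : W b = 1 := by
    have h1 : W b ^ 3 = 1 := by rw [← map_pow, hub, map_mul, hu, hπv, mul_one]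
    exact (pow_eq_one_iff_of_nonneg (by simp) (by norm_num)).1 h1
  have h24 : (exp (-4 : ℤ) : ℤᵐ⁰) ≤ exp (-2 : ℤ) := exp_mono (by norm_num)
  -- a sign and the cube
  have hsign : ∃ s : K, (s = 1 ∨ s = -1) ∧ W (s * ω ^ (j : ℕ) * algebraMap F K (π : F) - 1) ≤
      exp (-4 : ℤ) := by
    rcases h.cube hI hl (φ.commutes ζ) hφ hb1 with h1 | h1 <;> rcases hj with hj | hj
    · exact ⟨1, Or.inl rfl, by rw [hub, hj, map_pow, ← hω] at h1; rw [one_mul]; exact h1⟩
    · refine ⟨-1, Or.inr rfl, ?_⟩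
      rw [hub, hj, map_neg, map_pow, ← hω] at h1
      have e : -1 * ω ^ (j : ℕ) * algebraMap F K (π : F) - 1 =
          -ω ^ (j : ℕ) * algebraMap F K (π : F) - 1 := by ring
      rw [e]
      exact h1
    · refine ⟨-1, Or.inr rfl, ?_⟩
      rw [hub, hj, map_pow, ← hω] at h1
      have e : -1 * ω ^ (j : ℕ) * algebraMap F K (π : F) - 1 =
          -(ω ^ (j : ℕ) * algebraMap F K (π : F)) - 1 := by ring
      rw [e]
      exact h1
    · refine ⟨1, Or.inl rfl, ?_⟩
      rw [hub, hj, map_neg, map_pow, ← hω] at h1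
      have e : 1 * ω ^ (j : ℕ) * algebraMap F K (π : F) - 1 =
          -(-ω ^ (j : ℕ) * algebraMap F K (π : F)) - 1 := by ring
      rw [e]
      exact h1
  obtain ⟨s, hs, h1⟩ := hsign
  have hs1 : W s = 1 := by
    rcases hs with rfl | rfl
    · exact map_one _
    · rw [Valuation.map_neg, map_one]
  have hs3 : s ^ 3 = s := by
    rcases hs with rfl | rfl <;> norm_num
  -- `j = 0`
  have h2 : W (ω ^ (j : ℕ) * s ^ 3 - 1) ≤ exp (-2 : ℤ) := by
    have e : ω ^ (j : ℕ) * s ^ 3 - 1 = (s * ω ^ (j : ℕ) * algebraMap F K (π : F) - 1) -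
        s * ω ^ (j : ℕ) * (algebraMap F K (π : F) - 1) := by
      rw [hs3]
      ring
    rw [e]
    refine sub_le' (h1.trans h24) ?_
    rw [map_mul, map_mul, map_pow, hom, hs1, one_pow, one_mul, one_mul]
    exact hπ1
  have hj0 := no_om (V := W) hI hl (c := s) j h2
  rw [hj0] at h1 h2
  simp only [Fin.val_zero, pow_zero, one_mul, mul_one] at h1 h2
  -- the sign is one
  have hs11 : s = 1 := by
    rcases hs with rfl | rfl
    · rfl
    · exfalso
      have e : (-1 : K) ^ 3 - 1 = -2 := by norm_num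
      rw [e, Valuation.map_neg] at h2
      have hW2 : W 2 = 1 := by
        have e2 : (2 : K) = -1 + 3 := by norm_num
        rw [e2, Valuation.map_add_eq_of_lt_left, Valuation.map_neg, map_one]
        rw [Valuation.map_neg, map_one, hW3, ← exp_zero]
        exact exp_lt_exp.2 (by norm_num)
      rw [hW2, ← exp_zero, exp_le_exp] at h2
      norm_num at h2
  rw [hs11, one_mul] at h1
  apply h9
  refine nine_dvd hζ hw hunr ?_
  have : algebraMap F K ((π - 1 : 𝓞 F) : F) = algebraMap F K (π : F) - 1 := by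
    have : ((π - 1 : 𝓞 F) : F) = (π : F) - 1 := by
      rw [show ((π - 1 : 𝓞 F) : F) = algebraMap (𝓞 F) F (π - 1) from rfl, map_sub, map_one]
    rw [this, map_sub, map_one]
  rw [this]
  exact h1

end

end Pool.Agent.H62
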