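import Mathlib
import Pool.Graph.R_seed8.Y688.K2
import Pool.Agent.H62.Uq

/-!
# Total ramification
-/

set_option autoImplicit false
set_option linter.unusedSectionVars false

namespace Pool.Agent.H62

open NumberField IsDedekindDomain WithZero
open Pool.Agent.Y696 (val_aut val_eq_of exp_lt exp_rep und und_lies exists_above)
open Pool.Agent.Y688 (dn val_rel)

section

variable {F K : Type} [Field F] [NumberField F] [Field K] [NumberField K] [Algebra F K]
  [IsGalois F K] {π : 𝓞 F}

/-- the valuations of an element fixed by the inertia group -/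
lemma val_fixed (P : HeightOneSpectrum (𝓞 K)) {b : K}
    (hb : ∀ g : Gal(K/F), Ine P g → g b = b) (hb0 : b ≠ 0) :
    ∃ k : ℤ, P.valuation K b = exp (k * Nat.card (P.asIdeal.inertia Gal(K/F))) := by
  classical
  set I := P.asIdeal.inertia Gal(K/F) with hI
  let L := IntermediateField.fixedField I
  have hL : NumberField L := NumberField.of_module_finite F L
  have hbL : b ∈ L := by
    rw [IntermediateField.mem_fixedField_iff]
    intro g hg
    exact hb g hg
  have h1 := val_rel (F := L) (K := K) P ⟨b, hbL⟩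
  have hcard : Nat.card (P.asIdeal.inertia (K ≃ₐ[L] K)) = Nat.card I := by
    have htop : P.asIdeal.inertia (K ≃ₐ[L] K) = ⊤ := by
      rw [eq_top_iff]
      intro τ _
      have hτ : τ.restrictScalars F ∈ I := by
        have h2 : τ.restrictScalars F ∈ L.fixingSubgroup := by
          rw [IntermediateField.mem_fixingSubgroup_iff]
          intro x hx
          exact τ.commutes ⟨x, hx⟩
        rwa [IntermediateField.fixingSubgroup_fixedField] at h2
      intro x
      exact hτ x
    rw [htop, Subgroup.card_top]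
    have e1 : Nat.card (K ≃ₐ[L] K) = Module.finrank L K := IsGalois.card_aut_eq_finrank L K
    have e2 : Module.finrank L K = Nat.card I := IntermediateField.finrank_fixedField_eq_card I
    rw [e1, e2]
  rw [hcard] at h1
  have h2 : (dn L P).valuation L ⟨b, hbL⟩ ≠ 0 := by
    rw [Valuation.ne_zero_iff]
    intro h0
    exact hb0 (congrArg Subtype.val h0)
  obtain ⟨k, hk⟩ := exp_rep h2
  refine ⟨k, ?_⟩
  have h3 : P.valuation K b = P.valuation K (algebraMap L K ⟨b, hbL⟩) := rfl
  rw [h3, h1, hk, ← exp_nsmul, nsmul_eq_mul, mul_comm]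

lemma dn_span (hπ : Prime π) {P : HeightOneSpectrum (𝓞 K)}
    (hP : algebraMap (𝓞 F) (𝓞 K) π ∈ P.asIdeal) : (dn F P).asIdeal = Ideal.span {π} := by
  have h1 : (Ideal.span {π}).IsPrime := (Ideal.span_singleton_prime hπ.ne_zero).2 hπ
  have h2 : Ideal.span {π} ≠ ⊥ := by
    rw [Ne, Ideal.span_singleton_eq_bot]
    exact hπ.ne_zero
  exact ((h1.isMaximal h2).eq_of_le (dn F P).isPrime.ne_top
    ((Ideal.span_singleton_le_iff_mem _).2 hP)).symm

/-- **total ramification** -/
theorem tot_of {b : K} {u : (𝓞 F)ˣ} (hb : b ^ 3 = algebraMap F K (((u : 𝓞 F) * π : 𝓞 F) : F))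
    (hgen : ∀ g : Gal(K/F), g b ≠ b → ∀ x, x ∈ Subgroup.zpowers g) (hπ : Prime π)
    {P : HeightOneSpectrum (𝓞 K)} (hP : algebraMap (𝓞 F) (𝓞 K) π ∈ P.asIdeal) (g : Gal(K/F)) :
    Ine P g := by
  by_cases hex : ∃ g : Gal(K/F), Ine P g ∧ g b ≠ b
  · obtain ⟨g₀, h1, h2⟩ := hex
    have h3 : Subgroup.zpowers g₀ ≤ P.asIdeal.inertia Gal(K/F) := by
      rw [Subgroup.zpowers_le]
      exact h1
    exact h3 (hgen g₀ h2 g)
  · exfalso
    push Not at hex
    have hval : (dn F P).valuation F (((u : 𝓞 F) * π : 𝓞 F) : F) = exp (-1 : ℤ) := by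
      have e : (((u : 𝓞 F) * π : 𝓞 F) : F) = algebraMap (𝓞 F) F ((u : 𝓞 F) * π) := rfl
      rw [e, HeightOneSpectrum.valuation_of_algebraMap, map_mul,
        (dn F P).intValuation_singleton hπ.ne_zero (dn_span hπ hP)]
      have : (dn F P).intValuation (u : 𝓞 F) = 1 := by
        rw [HeightOneSpectrum.intValuation_eq_one_iff]
        intro hmem
        exact (dn F P).isPrime.ne_top (Ideal.eq_top_of_isUnit_mem _ hmem u.isUnit)
      rw [this, one_mul]
    have h1 := val_rel (F := F) (K := K) P (((u : 𝓞 F) * π : 𝓞 F) : F)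
    rw [hval, ← hb, map_pow] at h1
    have hb0 : b ≠ 0 := by
      rintro rfl
      rw [map_zero, zero_pow three_ne_zero, ← exp_nsmul] at h1
      exact exp_ne_zero h1.symm
    obtain ⟨k, hk⟩ := val_fixed P (fun g hg => hex g hg) hb0
    have hpos : 0 < Nat.card (P.asIdeal.inertia Gal(K/F)) := Nat.card_pos
    rw [hk, ← exp_nsmul, ← exp_nsmul] at h1
    have h2 := exp_injective h1
    simp only [nsmul_eq_mul] at h2
    push_cast at h2
    have h3 : (Nat.card (P.asIdeal.inertia Gal(K/F)) : ℤ) * (3 * k + 1) = 0 := by linear_combination h2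
    rcases mul_eq_zero.1 h3 with h4 | h4
    · omega
    · omega

end

section

variable {F K : Type} [Field F] [NumberField F] [IsCyclotomicExtension {3} ℚ F] [Field K]
  [NumberField K] [Algebra F K] {ζ : F}

/-- the prime below -/
lemma und_three (hζ : IsPrimitiveRoot ζ 3) {w : HeightOneSpectrum (𝓞 K)}
    (hw : (3 : 𝓞 K) ∈ w.asIdeal) :
    (und (F := F) w).asIdeal = Ideal.span {hζ.toInteger - 1} := by
  have hI := quad_of hζ
  have hz : IsPrimitiveRoot hζ.toInteger 3 := hζ.toInteger_isPrimitiveRoot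
  have hI' : hζ.toInteger ^ 2 + hζ.toInteger + 1 = 0 := by
    apply FaithfulSMul.algebraMap_injective (𝓞 F) F
    rw [map_add, map_add, map_pow, map_one, map_zero]
    exact hI
  have hsq : (hζ.toInteger - 1) ^ 2 = -3 * hζ.toInteger := by linear_combination hI'
  have hpr := hζ.zeta_sub_one_prime'
  have hmem : hζ.toInteger - 1 ∈ (und (F := F) w).asIdeal := by
    apply (und (F := F) w).isPrime.mem_of_pow_mem 2
    rw [hsq]
    have h3 : (3 : 𝓞 F) ∈ (und (F := F) w).asIdeal := by
      show algebraMap (𝓞 F) (𝓞 K) 3 ∈ w.asIdeal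
      rw [map_ofNat]
      exact hw
    exact Ideal.mul_mem_right _ _ ((und (F := F) w).asIdeal.neg_mem h3)
  have h1 : (Ideal.span {hζ.toInteger - 1}).IsPrime :=
    (Ideal.span_singleton_prime hpr.ne_zero).2 hpr
  have h2 : Ideal.span {hζ.toInteger - 1} ≠ ⊥ := by
    rw [Ne, Ideal.span_singleton_eq_bot]
    exact hpr.ne_zero
  exact ((h1.isMaximal h2).eq_of_le (und (F := F) w).isPrime.ne_top
    ((Ideal.span_singleton_le_iff_mem _).2 hmem)).symm

open Pointwise in
/-- the prime above three is unique when a Frobenius automorphism generates the group -/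
theorem uniq_of [IsGalois F K] (hζ : IsPrimitiveRoot ζ 3) {φ : Gal(K/F)}
    (hφ : ∀ w : HeightOneSpectrum (𝓞 K), (3 : 𝓞 K) ∈ w.asIdeal → Fro w φ)
    (hgen : ∀ x, x ∈ Subgroup.zpowers φ) (v w : HeightOneSpectrum (𝓞 K))
    (hv : (3 : 𝓞 K) ∈ v.asIdeal) (hw : (3 : 𝓞 K) ∈ w.asIdeal) : v = w := by
  have hlv : v.asIdeal.LiesOver (Ideal.span {hζ.toInteger - 1}) := ⟨(und_three hζ hv).symm⟩
  have hlw : w.asIdeal.LiesOver (Ideal.span {hζ.toInteger - 1}) := ⟨(und_three hζ hw).symm⟩
  obtain ⟨g, hg⟩ := Ideal.exists_smul_eq_of_isGaloisGroup (Ideal.span {hζ.toInteger - 1})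
    v.asIdeal w.asIdeal Gal(K/F)
  have hst : φ ∈ MulAction.stabilizer Gal(K/F) v.asIdeal := by
    rw [MulAction.mem_stabilizer_iff]
    ext x
    rw [Ideal.mem_pointwise_smul_iff_inv_smul_mem, ← (hφ v hv).mem, smul_inv_smul]
  have h1 : g ∈ MulAction.stabilizer Gal(K/F) v.asIdeal := by
    obtain ⟨m, rfl⟩ := hgen g
    exact Subgroup.zpow_mem _ hst m
  rw [MulAction.mem_stabilizer_iff] at h1
  rw [h1] at hg
  exact HeightOneSpectrum.ext hg

end

end Pool.Agent.H62
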