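import Mathlib
import Pool.Graph.R_pool_sql_team_seeded_63374d34.N883.T.Fin
import Pool.Agent.H62.Tot

/-!
# The facts on the extension from the Artin map
-/

set_option autoImplicit false
set_option linter.unusedSectionVars false

namespace Pool.Agent.H62

open NumberField IsDedekindDomain WithZero
open Pool.Agent.Y696 (val_aut val_eq_of exp_lt exp_rep und und_lies exists_above Art val_of_unr
  mem_under_of_lies)
open Pool.Agent.N883.T (Un3 ram_one val_theta3 exists_three)

variable {F K : Type} [Field F] [NumberField F] [IsCyclotomicExtension {3} ℚ F] [Field K]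
  [NumberField K] [Algebra F K] [IsGalois F K] {ζ : F} {n : ℕ} {c : 𝓞 F}

lemma three_notMem (h3 : (3 : 𝓞 F) ∣ c - 1) {v : HeightOneSpectrum (𝓞 K)}
    (hv : algebraMap (𝓞 F) (𝓞 K) c ∈ v.asIdeal) : (3 : 𝓞 K) ∉ v.asIdeal := by
  intro h
  obtain ⟨q, hq⟩ := h3
  apply v.isPrime.ne_top
  rw [Ideal.eq_top_iff_one]
  have e : (1 : 𝓞 K) = algebraMap (𝓞 F) (𝓞 K) c - 3 * algebraMap (𝓞 F) (𝓞 K) q := by
    have h1 := congrArg (algebraMap (𝓞 F) (𝓞 K)) hq
    rw [map_sub, map_one, map_mul, map_ofNat] at h1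
    linear_combination -h1
  rw [e]
  exact v.asIdeal.sub_mem hv (Ideal.mul_mem_right _ _ h)

lemma un3_of {art : (𝓞 F ⧸ Ideal.span {c})ˣ →* Gal(K/F)} (h : Art c art)
    (h3 : (3 : 𝓞 F) ∣ c - 1) : Un3 F K := fun v hv =>
  h.unr v fun hc => three_notMem h3 hc hv

theorem tw_of_art (hζ : IsPrimitiveRoot ζ 3) (hn0 : n ≠ 0) (hn : Module.finrank F K = 3 ^ n)
    {art : (𝓞 F ⧸ Ideal.span {c})ˣ →* Gal(K/F)} (h : Art c art) (hc : Prime c)
    (h3 : (3 : 𝓞 F) ∣ c - 1) (h9 : ¬ (9 : 𝓞 F) ∣ c - 1) : Tw F K ζ n c := by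
  have hcard : Nat.card Gal(K/F) = 3 ^ n := by rw [← hn]; exact IsGalois.card_aut_eq_finrank F K
  have hP : (Ideal.span {c}).IsPrime := (Ideal.span_singleton_prime hc.ne_zero).2 hc
  have hne : Ideal.span {c} ≠ ⊥ := by
    rw [Ne, Ideal.span_singleton_eq_bot]
    exact hc.ne_zero
  have hmax : (Ideal.span {c}).IsMaximal := hP.isMaximal hne
  have hfin : Finite (𝓞 F ⧸ Ideal.span {c}) := Ideal.finiteQuotientOfFreeOfNeBot _ hne
  have hcyc : IsCyclic Gal(K/F) := isCyclic_of_surjective art h.surj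
  have hunr : ∀ v : HeightOneSpectrum (𝓞 K), algebraMap (𝓞 F) (𝓞 K) c ∉ v.asIdeal → ∀ f : F,
      v.valuation K (algebraMap F K f) = (und (F := F) v).valuation F f := fun v hv f =>
    val_of_unr (und_lies (F := F) v) (ram_one (h.unr v hv)) f
  have hun3 := un3_of h h3
  have hθ : (2 * ζ + 1) ^ 2 = -3 := by linear_combination 4 * quad_of hζ
  have hlam : ∀ v : HeightOneSpectrum (𝓞 K), (3 : 𝓞 K) ∈ v.asIdeal →
      v.valuation K (2 * algebraMap F K ζ + 1) = exp (-1 : ℤ) := fun v hv => by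
    have e : 2 * algebraMap F K ζ + 1 = algebraMap F K (2 * ζ + 1) := by
      rw [map_add, map_mul, map_ofNat, map_one]
    rw [e]
    exact val_theta3 hun3 v hv hθ
  obtain ⟨w, hw⟩ := exists_three K
  obtain ⟨b, u, hb, -, hgen⟩ := exists_kum hζ hn0 hcard hcyc hc hunr (hlam w hw)
  -- the Frobenius automorphism at the prime above three
  have hI' : hζ.toInteger ^ 2 + hζ.toInteger + 1 = 0 := by
    apply FaithfulSMul.algebraMap_injective (𝓞 F) F
    rw [map_add, map_add, map_pow, map_one, map_zero]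
    exact quad_of hζ
  have hsq : (hζ.toInteger - 1) ^ 2 = -3 * hζ.toInteger := by linear_combination hI'
  have hcu : hζ.toInteger ^ 3 = 1 := by linear_combination (hζ.toInteger - 1) * hI'
  have hpr := hζ.zeta_sub_one_prime'
  have hunit : IsUnit (Ideal.Quotient.mk (Ideal.span {c}) (hζ.toInteger - 1)) := by
    rw [← isUnit_pow_iff (two_ne_zero), ← map_pow, hsq]
    obtain ⟨q, hq⟩ := h3
    refine IsUnit.of_mul_eq_one (Ideal.Quotient.mk _ (q * hζ.toInteger ^ 2)) ?_
    rw [← map_mul, ← map_one (Ideal.Quotient.mk (Ideal.span {c})), Ideal.Quotient.eq,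
      Ideal.mem_span_singleton]
    refine ⟨-1, ?_⟩
    linear_combination (-3 * q) * hcu + hq
  obtain ⟨uu, huu⟩ := hunit
  have hcard3 : Nat.card (𝓞 F ⧸ Ideal.span {hζ.toInteger - 1}) = 3 := by
    have hI : Ideal.span {hζ.toInteger - 1} ≠ ⊥ := by
      rw [Ne, Ideal.span_singleton_eq_bot]
      exact hpr.ne_zero
    have e1 := hζ.card_quotient_toInteger_sub_one
    rw [e1, IsPrimitiveRoot.norm_toInteger_sub_one_of_prime_ne_two' hζ (by norm_num)]
    rfl
  have hfro : ∀ v : HeightOneSpectrum (𝓞 K), (3 : 𝓞 K) ∈ v.asIdeal → Fro v (art uu) := by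
    intro v hv x
    have hmem : algebraMap (𝓞 F) (𝓞 K) (hζ.toInteger - 1) ∈ v.asIdeal := by
      have h1 : hζ.toInteger - 1 ∈ (und (F := F) v).asIdeal := by
        rw [und_three hζ hv]
        exact Ideal.mem_span_singleton_self _
      exact h1
    have h1 := h.frob (hζ.toInteger - 1) hpr uu huu v hmem x
    rwa [hcard3] at h1
  have hφ : art uu b ≠ b := (hfro w hw).ne hw hζ (hlam w hw)
    (hunr w (fun hcw => three_notMem h3 hcw hw)) h3 h9 hb
  exact
    { zeta := hζ
      npos := hn0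
      card := hcard
      cyc := hcyc
      prime := hc
      three := fun v hv => three_notMem h3 hv
      unr := hunr
      lam := hlam
      tot := fun v hv g => tot_of hb hgen hc hv g
      uniq := uniq_of hζ hfro (hgen _ hφ)
      kum := ⟨b, u, hb⟩ }

end Pool.Agent.H62
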