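import Mathlib
import Pool.Graph.R_pool_sql_team_seeded_63374d34.N883.T.Fin

/-!
# The power of three in the discriminant
-/

set_option autoImplicit false
set_option linter.unusedSectionVars false

namespace Pool.Agent.H62

open NumberField IsDedekindDomain
open Pool.Agent.N883.T (Un3)

variable {F K : Type} [Field F] [NumberField F] [IsCyclotomicExtension {3} ℚ F] [Field K]
  [NumberField K] [Algebra F K]

theorem disc3 (h3 : Un3 F K) :
    ∃ m : ℕ, ¬ 3 ∣ m ∧ (discr K).natAbs = m * 3 ^ Module.finrank F K := by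
  have : Fact (Nat.Prime 3) := ⟨Nat.prime_three⟩
  refine ⟨Ideal.absNorm (differentIdeal (𝓞 F) (𝓞 K)), ?_, ?_⟩
  · intro hd
    obtain ⟨P, hP, h1, h2⟩ := Ideal.exists_isMaximal_dvd_of_dvd_absNorm' Nat.prime_three _ hd
    have hmem : (3 : 𝓞 K) ∈ P := by
      have h4 : (3 : ℤ) ∈ P.under ℤ := by
        rw [h1]
        exact Ideal.mem_span_singleton_self ((3 : ℕ) : ℤ)
      rw [Ideal.under_def, Ideal.mem_comap] at h4
      simpa using h4
    have hP0 : P ≠ ⊥ := by
      rintro rfl
      rw [Ideal.mem_bot] at hmem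
      exact (by exact_mod_cast (by norm_num : (3 : ℕ) ≠ 0) : (3 : 𝓞 K) ≠ 0) hmem
    have hun := h3 ⟨P, hP.isPrime, hP0⟩ hmem
    exact (not_dvd_differentIdeal_iff (A := 𝓞 F) (B := 𝓞 K) (P := P)).2 hun h2
  · have h1 := natAbs_discr_eq_absNorm_differentIdeal_mul_natAbs_discr_pow (K := F) (𝒪 := 𝓞 F) K (𝓞 K)
    have h2 : (discr F).natAbs = 3 := by
      rw [IsCyclotomicExtension.Rat.discr_prime 3 F]
      norm_num
    rw [h2] at h1
    exact h1

end Pool.Agent.H62
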