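import Mathlib
import Pool.Graph.R_pool_sql_team_seeded_63374d34.N883.T.Fin
import Pool.Graph.R_seed8.Y715.T.Fin
import Pool.Agent.H62.An
import Pool.Agent.H62.ArtTw
import Pool.Agent.H62.Disc

/-!
# The analytic theorem for the extension
-/

set_option autoImplicit false
set_option linter.unusedSectionVars false

namespace Pool.Agent.H62

open NumberField IsDedekindDomain IsLocalRing Filter Topology Complex WithZero WeierstrassCurve
open Pool.Agent.W192.HK Pool.Agent.TH936.CM Pool.Agent.TH936.PU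
open Pool.Agent.W189.NF (aV eV redMap)
open Pool.Agent.W192.CM (nu)
open Pool.Agent.Y696
open Pool.Agent.N883.Q Pool.Agent.N883.T
open Pool.Agent.Y715.T.Three Pool.Agent.Y715.T.Lat
open Pool.Agent.Y715.T.LF (rd rd_ez rd_eq_zero)

section

variable {K : Type} [Field K] [NumberField K] {ι : eis →+* 𝓞 K} {G : Type} [CommGroup G] [Finite G]
  [MulSemiringAction G (𝓞 K)] {c : eis} {art : (eis ⧸ (sp c : Ideal eis))ˣ →* G} {n : ℕ}

/-- the class of `ω` -/
lemma omr_ne (D : DatQ ι G c art) (hc : Prime c) :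
    (Ideal.Quotient.mk (sp c : Ideal eis) omr) ≠ 1 := by
  intro h
  rw [← map_one (Ideal.Quotient.mk (sp c : Ideal eis)), Ideal.Quotient.eq,
    Ideal.mem_span_singleton] at h
  have h1 : c ∣ 3 := by
    have h2 : c ∣ (omr - 1) * (omr - 1) := Dvd.dvd.mul_right h _
    have h3 : (omr - 1) * (omr - 1) = -3 * omr := by linear_combination omr_sq
    have h4 : (3 : eis) = -((omr - 1) * (omr - 1)) * omr ^ 2 := by
      rw [h3]
      linear_combination (-3 : eis) * omr_cube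
    rw [h4]
    exact (Dvd.dvd.neg_right h2).mul_right _
  exact hc.not_isUnit (D.cop3.isUnit_of_dvd' dvd_rfl h1)

/-- nine divides the order of the multiplicative group of the residue field -/
lemma nine_cardE (D : DatQ ι G c art) (hG : Nat.card G = 3 ^ n) (hn : n ≠ 0) (hc : Prime c)
    (hs : Function.Surjective art) : 9 ∣ Nat.card (eis ⧸ (sp c : Ideal eis)) - 1 := by
  classical
  have hmax : (sp c : Ideal eis).IsMaximal :=
    PrincipalIdealRing.isMaximal_of_irreducible hc.irreducible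
  let _ : Field (eis ⧸ (sp c : Ideal eis)) := Ideal.Quotient.field _
  have hfin : Finite (eis ⧸ (sp c : Ideal eis)) := finite_q D.c_ne
  have hcu : Nat.card (eis ⧸ (sp c : Ideal eis))ˣ = Nat.card (eis ⧸ (sp c : Ideal eis)) - 1 :=
    Nat.card_units _
  rw [← hcu]
  obtain ⟨u, hu⟩ : ∃ u : (eis ⧸ (sp c : Ideal eis))ˣ,
      (u : eis ⧸ (sp c : Ideal eis)) = Ideal.Quotient.mk _ omr := by
    have := omr_unit.map (Ideal.Quotient.mk (sp c : Ideal eis))
    exact ⟨this.unit, rfl⟩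
  have h1 : art u = 1 := art_unitQ D omr_unit hu
  have h2 : u ^ 3 = 1 := by
    apply Units.ext
    rw [Units.val_pow_eq_pow_val, hu, ← map_pow, omr_cube, map_one, Units.val_one]
  have h3 : u ≠ 1 := by
    rintro rfl
    exact omr_ne D hc (by rw [← hu, Units.val_one])
  have h4 : orderOf (⟨u, h1⟩ : art.ker) = 3 := by
    have : Fact (Nat.Prime 3) := ⟨Nat.prime_three⟩
    refine orderOf_eq_prime ?_ ?_
    · apply Subtype.ext
      exact h2
    · intro h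
      exact h3 (congrArg Subtype.val h)
  have h5 : 3 ∣ Nat.card art.ker := h4 ▸ orderOf_dvd_natCard _
  have h6 : Nat.card (eis ⧸ (sp c : Ideal eis))ˣ = Nat.card art.ker * Nat.card G := by
    have e1 := Subgroup.card_eq_card_quotient_mul_card_subgroup art.ker
    have e2 : Nat.card ((eis ⧸ (sp c : Ideal eis))ˣ ⧸ art.ker) = Nat.card G :=
      Nat.card_congr (QuotientGroup.quotientKerEquivOfSurjective art hs).toEquiv
    rw [e1, e2, mul_comm]
  rw [h6, hG]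
  have h7 : 3 ∣ 3 ^ n := dvd_pow_self 3 hn
  exact mul_dvd_mul h5 h7

/-- the form of the prime -/
lemma exists_rd (D : DatQ ι G c art) (hG : Nat.card G = 3 ^ n) (hn : n ≠ 0) (hc : Prime c)
    (hs : Function.Surjective art) (h3 : (3 : eis) ∣ c - 1) (h9 : ¬ (9 : eis) ∣ c - 1) :
    ∃ q : eis, c = 1 + 3 * la * q ∧ rd q ≠ 0 := by
  have h := nine_cardE D hG hn hc hs
  obtain ⟨x, hx⟩ := h3
  have hcx : c = 1 + 3 * x := by linear_combination hx
  obtain ⟨a, b, rfl⟩ := ez_ex x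
  have h1 : ((Nat.card (eis ⧸ (sp c : Ideal eis)) : ℤ)) =
      (1 + 3 * a) ^ 2 - (1 + 3 * a) * (3 * b) + (3 * b) ^ 2 := by
    have h2 := nm_sp c
    have h4 : (c : ℂ) = ((1 + 3 * a : ℤ) : ℂ) + ((3 * b : ℤ) : ℂ) * om := by
      rw [hcx]
      have c3 : ((3 : eis) : ℂ) = 3 := rfl
      push_cast
      rw [ez_coe, c3]
      ring
    rw [h4, norm_rep] at h2
    unfold nm at h2
    exact_mod_cast h2
  have hpos : 0 < Nat.card (eis ⧸ (sp c : Ideal eis)) := by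
    have hfin : Finite (eis ⧸ (sp c : Ideal eis)) := finite_q D.c_ne
    exact Nat.card_pos
  obtain ⟨k, hk⟩ := h
  have h5 : ((Nat.card (eis ⧸ (sp c : Ideal eis)) : ℤ)) = 1 + 9 * k := by omega
  have h6 : (3 : ℤ) ∣ a + b := by
    rw [h5] at h1
    have h7 : 9 * (k : ℤ) = 9 * (a ^ 2 - a * b + b ^ 2) + 3 * (2 * a - b) := by
      linear_combination h1
    omega
  have h7 : rd (ez a b) = 0 := by
    rw [rd_ez]
    exact (ZMod.intCast_zmod_eq_zero_iff_dvd _ 3).2 h6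
  obtain ⟨q, hq⟩ := rd_eq_zero h7
  refine ⟨q, by rw [hcx, hq]; ring, ?_⟩
  intro h0
  obtain ⟨t, rfl⟩ := rd_eq_zero h0
  apply h9
  refine ⟨-t, ?_⟩
  rw [hcx, hq]
  linear_combination (3 * t : eis) * la_sq

end

section

variable {F K : Type} [Field F] [NumberField F] [IsCyclotomicExtension {3} ℚ F] [Field K]
  [NumberField K] [Algebra F K] [IsGalois F K] {ζ : F} {n : ℕ} {c : 𝓞 F}

/-- the absolute value of the discriminant -/
lemma v_sqrt3 (h3 : Un3 F K) {Γ : Type} [LinearOrderedCommGroupWithZero Γ] {v : Valuation ℂ Γ}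
    (hv : v 3 < 1) {k : ℕ} (hk : Module.finrank F K = k) :
    v ((Real.sqrt |(discr K : ℝ)| : ℝ) : ℂ) = v ((Real.sqrt |((3 : ℤ) : ℝ)| : ℝ) : ℂ) ^ k := by
  obtain ⟨m, hm, hd⟩ := disc3 h3
  rw [hk] at hd
  have h1 : (((Real.sqrt |(discr K : ℝ)| : ℝ) : ℂ)) ^ 2 = (m : ℂ) * 3 ^ k := by
    rw [← Complex.ofReal_pow, Real.sq_sqrt (abs_nonneg _), ← Int.cast_abs, Int.abs_eq_natAbs, hd]
    push_cast
    rfl
  have h2 : (((Real.sqrt |((3 : ℤ) : ℝ)| : ℝ) : ℂ)) ^ 2 = 3 := by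
    rw [← Complex.ofReal_pow, Real.sq_sqrt (abs_nonneg _)]
    norm_num
  have h4 : v (m : ℂ) = 1 := by
    have := v_intq (d := (m : ℤ)) Nat.prime_three (by exact_mod_cast hv) (by exact_mod_cast hm)
    exact_mod_cast this
  have h5 : v ((Real.sqrt |(discr K : ℝ)| : ℝ) : ℂ) ^ 2 =
      (v ((Real.sqrt |((3 : ℤ) : ℝ)| : ℝ) : ℂ) ^ k) ^ 2 := by
    rw [← map_pow, h1, map_mul, h4, one_mul, ← h2, map_pow, map_pow, ← pow_mul, ← pow_mul, mul_comm]
  exact (pow_left_inj₀ zero_le zero_le two_ne_zero).1 h5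

/-- **the analytic theorem** -/
theorem analytic_K3 (hn0 : n ≠ 0) (hn : Module.finrank F K = 3 ^ n)
    {art : (𝓞 F ⧸ Ideal.span {c})ˣ →* Gal(K/F)} (h : Art c art) (hc : Prime c)
    (h3 : (3 : 𝓞 F) ∣ c - 1) (h9 : ¬ (9 : 𝓞 F) ∣ c - 1) {ζ : F} (hT : Tw F K ζ n c) :
    ∃ Lf : ℂ → ℂ, MeromorphicOn Lf Set.univ ∧ (∀ s : ℂ, 3 / 2 < s.re →
      LSeriesSummable ((fun n : ℤ => (n : ℂ)) ∘ (E27 K).LFunction) s ∧
        Lf s = (E27 K).LSeries s) ∧
      AnalyticAt ℂ Lf 1 ∧ Lf 1 ≠ 0 ∧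
      ∀ Λ : PeriodPair, Λ.g₂ = 0 → Λ.g₃ = -1 →
        ∃ r : ℚ, r ≠ 0 ∧ padicValRat 3 r = 0 ∧
          Lf 1 * (Real.sqrt |(discr K : ℝ)| : ℝ) /
            ((2 * |((starRingEnd ℂ) Λ.ω₁ * Λ.ω₂).im| : ℝ) : ℂ) ^ 3 ^ n * 27 = r := by
  let := commG h
  have hc0 : c ≠ 0 := hc.ne_zero
  have hc3 : IsCoprime c 3 := by
    obtain ⟨q, hq⟩ := h3
    exact ⟨1, -q, by linear_combination hq⟩
  have hun3 : Un3 F K := un3_of h h3
  obtain ⟨σ, hσ⟩ := exists_emb hT.zeta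
  have h7 : Nat.card Gal(K/F) = 3 ^ n := hT.card
  have hodd : Odd (3 ^ n) := Odd.pow (by decide)
  have D := mkDatQ h (isoE hT.zeta σ hσ) hc0 hc3
  have hpc : Prime (isoE hT.zeta σ hσ c) :=
    (MulEquiv.prime_iff (isoE hT.zeta σ hσ : 𝓞 F ≃* eis)).2 hc
  obtain ⟨q, hq1, hq2⟩ := exists_rd D h7 hn0 hpc (h.surj.comp (by
      intro u
      exact ⟨Units.map ((qe (isoE hT.zeta σ hσ) c).symm : _ →* _) u, by
        apply Units.ext
        simp⟩)) (by
      have := map_dvd (isoE hT.zeta σ hσ) h3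
      rwa [map_sub, map_one, map_ofNat] at this) (by
      intro hd
      have := map_dvd (isoE hT.zeta σ hσ).symm hd
      rw [map_sub, map_one, map_ofNat, RingEquiv.symm_apply_apply] at this
      exact h9 this)
  obtain ⟨Lf, a1, a2, a3, a4, a5, a6⟩ := analytic3 D (ram3_of hun3 _) h7 (by
    intro w hw g x
    rw [iF_apply, RingEquiv.symm_apply_apply] at hw
    exact hT.tot w hw g x) hpc hq1 hq2
  refine ⟨Lf, a1, a2, a3, a4, fun Λ hΛ2 hΛ3 => ?_⟩
  obtain ⟨Ω, hC⟩ := cur_of hΛ2 hΛ3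
  obtain ⟨U, hU⟩ := Pool.Agent.Y715.T.Fin.exists_over_three
  have b1 := a5 Λ Ω hC _ U.valuation hU
  obtain ⟨r, hr⟩ := a6 Λ Ω hC
  rw [h7] at b1 hr
  obtain ⟨t, ht⟩ := sqrt_disc (F := F) (K := K) (by rw [hn]; exact hodd)
  set S := ((Real.sqrt |((3 : ℤ) : ℝ)| : ℝ) : ℂ) with hS
  have hSS : S * S = 3 := by
    rw [hS, ← Complex.ofReal_mul, Real.mul_self_sqrt (abs_nonneg _)]
    norm_num
  have hS0 : S ≠ 0 := by
    intro h0
    rw [h0, mul_zero] at hSS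
    norm_num at hSS
  have hΩ := hC.lat.ne
  have hΩc : (starRingEnd ℂ) Ω ≠ 0 := (map_ne_zero _).2 hΩ
  have hval : U.valuation (Lf 1 * (Real.sqrt |(discr K : ℝ)| : ℝ) /
      ((2 * |((starRingEnd ℂ) Λ.ω₁ * Λ.ω₂).im| : ℝ) : ℂ) ^ 3 ^ n * 27) = 1 := by
    have h9 := v_sqrt3 hun3 (v := U.valuation) hU hn
    rw [area hC.lat, mul_pow, map_mul, map_div₀, map_mul, map_mul, map_pow, h9]
    rw [map_div₀] at b1
    have hvS : U.valuation S ^ 3 ^ n ≠ 0 := pow_ne_zero _ ((Valuation.ne_zero_iff _).2 hS0)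
    have hvO : U.valuation ((Ω * (starRingEnd ℂ) Ω) ^ 3 ^ n) ≠ 0 :=
      (Valuation.ne_zero_iff _).2 (pow_ne_zero _ (mul_ne_zero hΩ hΩc))
    rw [← b1]
    congr 1
    field_simp
  obtain ⟨k, hk⟩ := hodd
  have heq : Lf 1 * (Real.sqrt |(discr K : ℝ)| : ℝ) /
      ((2 * |((starRingEnd ℂ) Λ.ω₁ * Λ.ω₂).im| : ℝ) : ℂ) ^ 3 ^ n * 27 =
      ((r * t / 3 ^ k * 27 : ℚ) : ℂ) := by
    rw [area hC.lat, ht, ← hS, mul_pow]
    have e1 : S ^ 3 ^ n = 3 ^ k * S := by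
      rw [hk, pow_succ, pow_mul, pow_two, hSS]
    rw [e1]
    push_cast
    rw [← hr]
    field_simp
  rw [heq] at hval
  have hr0 : (r * t / 3 ^ k * 27 : ℚ) ≠ 0 := by
    intro h0
    rw [h0] at hval
    simp at hval
  obtain ⟨n1, n2⟩ := rat_unit (q := 3) (by exact_mod_cast hU) hval
  refine ⟨_, hr0, ?_, heq⟩
  unfold padicValRat
  have : Fact (Nat.Prime 3) := ⟨Nat.prime_three⟩
  rw [padicValInt.eq_zero_of_not_dvd n1, padicValNat.eq_zero_of_not_dvd n2]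
  simp

end

end Pool.Agent.H62
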