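import Mathlib
import Pool.Agent.H62.Fin3
import Pool.Agent.H62.An4

/-!
# The analytic theorem for extensions ramified at several primes
-/

set_option autoImplicit false
set_option linter.unusedSectionVars false

namespace Pool.Agent.H62

open NumberField IsDedekindDomain IsLocalRing Filter Topology Complex WithZero WeierstrassCurve
open Pool.Agent.W192.HK Pool.Agent.TH936.CM Pool.Agent.TH936.PU
open Pool.Agent.W189.NF (aV eV redMap)
open Pool.Agent.W192.CM (nu)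
open Pool.Agent.Y696
open Pool.Agent.N883.Q Pool.Agent.N883.T
open Pool.Agent.Y715.T.Three Pool.Agent.Y715.T.Lat

/-- a unit of the Eisenstein integers that is one modulo three is one -/
lemma unit_three {u : eis} (hu : IsUnit u) (h : (3 : eis) ∣ u - 1) : u = 1 := by
  obtain ⟨x, hx⟩ := h
  obtain ⟨a, b, rfl⟩ := ez_ex x
  obtain ⟨p, q, rfl⟩ := ez_ex u
  rw [isUnit_iff', ez_coe, norm_rep] at hu
  have h1 : p ^ 2 - p * q + q ^ 2 = 1 := by exact_mod_cast hu
  have h2 : ez (p - 1) (q - 0) = ez (3 * a - 0 * b) (3 * b + 0 * a - 0 * b) := by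
    rw [← ez_sub, ← ez_mul, ez_one, hx]
    congr 1
    have := ez_int 3
    push_cast at this
    exact this.symm
  obtain ⟨h3, h4⟩ := ez_inj h2
  have h5 : p = 1 ∧ q = 0 := by
    rcases six p q h1 with ⟨h6, h7⟩ | ⟨h6, h7⟩ | ⟨h6, h7⟩ | ⟨h6, h7⟩ | ⟨h6, h7⟩ | ⟨h6, h7⟩ <;> omega
  rw [h5.1, h5.2, ez_one]

/-- different primes, one modulo three -/
lemma cop_three {p q : eis} (hp : Prime p) (hq : Prime q) (h3 : (3 : eis) ∣ p - 1)
    (h3' : (3 : eis) ∣ q - 1) (hne : p ≠ q) : IsCoprime p q := by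
  rw [hp.irreducible.coprime_iff_not_dvd]
  intro hd
  obtain ⟨u, hu⟩ := (hp.associated_of_dvd hq hd)
  have h1 : (3 : eis) ∣ (u : eis) - 1 := by
    have e : (u : eis) - 1 = (q - 1) - (u : eis) * (p - 1) := by rw [← hu]; ring
    rw [e]
    exact dvd_sub h3' (h3.mul_left _)
  have h2 := unit_three u.isUnit h1
  rw [h2, mul_one] at hu
  exact hne hu

/-- the theorem with the modulus as a variable -/
theorem analyticM' {K : Type} [Field K] [NumberField K] {ι : eis →+* 𝓞 K} {G : Type} [CommGroup G]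
    [Finite G] [MulSemiringAction G (𝓞 K)] {P : Finset eis} {c : eis}
    {art : (eis ⧸ (sp c : Ideal eis))ˣ →* G} {n : ℕ} (hcP : c = cP P)
    (hP : Pr3 P) (D : DatQ ι G c art) (hr3 : Ram3 ι) (hG : Nat.card G = 3 ^ n)
    (hT : Tot ι G c) {σ : G} (hσ : ∀ x : G, x ∈ Subgroup.zpowers σ) {k : ℕ}
    (hk : P.card = k + 1) (hk0 : k ≠ 0) :
    ∃ Lf : ℂ → ℂ, MeromorphicOn Lf Set.univ ∧ (∀ s : ℂ, 3 / 2 < s.re →
      LSeriesSummable ((fun n : ℤ => (n : ℂ)) ∘ (E0 K).LFunction) s ∧ Lf s = (E0 K).LSeries s) ∧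
      AnalyticAt ℂ Lf 1 ∧
      (∀ (L : PeriodPair) (Ω : ℂ), Cur L Ω → ∀ (Γ : Type) [LinearOrderedCommGroupWithZero Γ]
        (v : Valuation ℂ Γ), v 3 < 1 →
          v (Lf 1 / (Ω * (starRingEnd ℂ) Ω) ^ Nat.card G) * v 27 ≤ v 3 ^ (2 * n * k)) ∧
      ∀ (L : PeriodPair) (Ω : ℂ), Cur L Ω →
        ∃ r : ℚ, Lf 1 / (Ω * (starRingEnd ℂ) Ω) ^ Nat.card G = r := by
  subst hcP
  exact analyticM hP D hr3 hG hT hσ hk hk0

section

variable {F K : Type} [Field F] [NumberField F] [IsCyclotomicExtension {3} ℚ F] [Field K]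
  [NumberField K] [Algebra F K] [IsGalois F K] {ζ : F} {n : ℕ}

/-- the valuation of a rational number and the exponent of three -/
lemma le_padic {Γ : Type} [LinearOrderedCommGroupWithZero Γ] {v : Valuation ℂ Γ}
    (hv : v 3 < 1) {r : ℚ} {N : ℕ} (h : v (r : ℂ) ≤ v 3 ^ N) :
    r = 0 ∨ (N : ℤ) ≤ padicValRat 3 r := by
  have : Fact (Nat.Prime 3) := ⟨Nat.prime_three⟩
  by_cases hr : r = 0
  · exact Or.inl hr
  · right
    by_contra hlt
    push Not at hlt
    set m := padicValRat 3 r with hm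
    have h3 : (3 : ℚ) ≠ 0 := by norm_num
    -- the unit part
    have h1 : padicValRat 3 (r * 3 ^ (-m)) = 0 := by
      have e0 : padicValRat 3 (3 : ℚ) = 1 := by
        have := padicValRat.self (p := 3) (by norm_num)
        exact_mod_cast this
      rw [padicValRat.mul hr (zpow_ne_zero _ h3), padicValRat.zpow, e0]
      omega
    have h2 : v ((r * 3 ^ (-m) : ℚ) : ℂ) = 1 := by
      set s := r * 3 ^ (-m) with hs
      have hs0 : s ≠ 0 := mul_ne_zero hr (zpow_ne_zero _ h3)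
      have e1 : padicValInt 3 s.num = padicValNat 3 s.den := by
        have := h1
        unfold padicValRat at this
        omega
      have hnd : ¬ (3 : ℤ) ∣ s.num ∧ ¬ 3 ∣ s.den := by
        have hcop := s.reduced
        by_contra hcon
        have : (3 : ℤ) ∣ s.num ∨ 3 ∣ s.den := by
          by_contra h'
          push Not at h'
          exact hcon h'
        have h5 : (3 : ℤ) ∣ s.num ∧ 3 ∣ s.den := by
          rcases this with h6 | h6
          · refine ⟨h6, ?_⟩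
            have h7 : padicValInt 3 s.num ≠ 0 := by
              intro h0
              rw [padicValInt.eq_zero_iff] at h0
              rcases h0 with h0 | h0 | h0
              · omega
              · exact (Rat.num_ne_zero.2 hs0) h0
              · exact h0 h6
            rw [e1] at h7
            exact dvd_of_one_le_padicValNat (Nat.one_le_iff_ne_zero.2 h7)
          · refine ⟨?_, h6⟩
            have h7 : padicValNat 3 s.den ≠ 0 := by
              have := one_le_padicValNat_of_dvd s.den_nz h6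
              omega
            rw [← e1] at h7
            by_contra h8
            exact h7 (padicValInt.eq_zero_of_not_dvd h8)
        have h6 : 3 ∣ Nat.gcd s.num.natAbs s.den :=
          Nat.dvd_gcd (Int.natCast_dvd.1 (by exact_mod_cast h5.1)) h5.2
        rw [hcop] at h6
        omega
      have e2 : (s : ℂ) = (s.num : ℂ) / ((s.den : ℤ) : ℂ) := by
        have := congrArg (Rat.cast : ℚ → ℂ) (Rat.num_div_den s).symm
        push_cast at this ⊢
        exact this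
      rw [e2, map_div₀, v_intq Nat.prime_three (by exact_mod_cast hv) (by exact_mod_cast hnd.1),
        v_intq Nat.prime_three (by exact_mod_cast hv) (by exact_mod_cast hnd.2), div_one]
    have h3' : v (r : ℂ) = v 3 ^ m := by
      have e : (r : ℂ) = ((r * 3 ^ (-m) : ℚ) : ℂ) * 3 ^ m := by
        push_cast
        rw [mul_assoc, ← zpow_add₀ (by norm_num : (3 : ℂ) ≠ 0), neg_add_cancel, zpow_zero, mul_one]
      rw [e, map_mul, h2, one_mul, map_zpow₀]
    rw [h3', ← zpow_natCast] at h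
    have h0 : v (3 : ℂ) ≠ 0 := (Valuation.ne_zero_iff _).2 (by norm_num)
    have := (zpow_le_zpow_iff_right_of_lt_one₀ (zero_lt_iff.2 h0) hv).1 h
    omega

lemma three_dvd_prod {S : Finset (𝓞 F)} (hS : ∀ p ∈ S, Prime p ∧ (3 : 𝓞 F) ∣ p - 1) :
    (3 : 𝓞 F) ∣ (∏ p ∈ S, p) - 1 := by
  classical
  have : ∀ T : Finset (𝓞 F), T ⊆ S → (3 : 𝓞 F) ∣ (∏ p ∈ T, p) - 1 := by
    intro T
    induction T using Finset.induction_on with
    | empty => intro _; simp
    | insert a T ha ih =>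
      intro hT
      rw [Finset.prod_insert ha]
      have h1 := (hS a (hT (Finset.mem_insert_self a T))).2
      have h2 := ih ((Finset.subset_insert a T).trans hT)
      have e : a * ∏ p ∈ T, p - 1 = (a - 1) * ∏ p ∈ T, p + (∏ p ∈ T, p - 1) := by ring
      rw [e]
      exact dvd_add (h1.mul_right _) h2
  exact this S (Finset.Subset.refl S)

/-- **the analytic theorem, several ramified primes** -/
theorem analytic_KM (hn0 : n ≠ 0) (hn : Module.finrank F K = 3 ^ n) [hcyc : IsCyclic Gal(K/F)]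
    {S : Finset (𝓞 F)} (hS : ∀ p ∈ S, Prime p ∧ (3 : 𝓞 F) ∣ p - 1) {k : ℕ}
    (hk : S.card = k + 1) (hk0 : k ≠ 0)
    {art : (𝓞 F ⧸ Ideal.span {∏ p ∈ S, p})ˣ →* Gal(K/F)} (h : Art (∏ p ∈ S, p) art)
    (htot : ∀ v : HeightOneSpectrum (𝓞 K), algebraMap (𝓞 F) (𝓞 K) (∏ p ∈ S, p) ∈ v.asIdeal →
      ∀ (g : Gal(K/F)) (x : 𝓞 K), g • x - x ∈ v.asIdeal) (hζ : IsPrimitiveRoot ζ 3) :
    ∃ Lf : ℂ → ℂ, MeromorphicOn Lf Set.univ ∧ (∀ s : ℂ, 3 / 2 < s.re →
      LSeriesSummable ((fun n : ℤ => (n : ℂ)) ∘ (E27 K).LFunction) s ∧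
        Lf s = (E27 K).LSeries s) ∧
      AnalyticAt ℂ Lf 1 ∧
      ∀ Λ : PeriodPair, Λ.g₂ = 0 → Λ.g₃ = -1 →
        ∃ r : ℚ, (r = 0 ∨ ((2 * n * k : ℕ) : ℤ) ≤ padicValRat 3 r) ∧
          Lf 1 * (Real.sqrt |(discr K : ℝ)| : ℝ) /
            ((2 * |((starRingEnd ℂ) Λ.ω₁ * Λ.ω₂).im| : ℝ) : ℂ) ^ 3 ^ n * 27 = r := by
  classical
  let := commG h
  set c : 𝓞 F := ∏ p ∈ S, p with hc
  have hc0 : c ≠ 0 := Finset.prod_ne_zero_iff.2 fun p hp => (hS p hp).1.ne_zero
  have h3 : (3 : 𝓞 F) ∣ c - 1 := three_dvd_prod hS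
  have hc3 : IsCoprime c 3 := by
    obtain ⟨q, hq⟩ := h3
    exact ⟨1, -q, by linear_combination hq⟩
  have hun3 : Un3 F K := un3_of h h3
  obtain ⟨σ, hσ⟩ := exists_emb hζ
  have h7 : Nat.card Gal(K/F) = 3 ^ n := by rw [← hn]; exact IsGalois.card_aut_eq_finrank F K
  have hodd : Odd (3 ^ n) := Odd.pow (by decide)
  have D := mkDatQ h (isoE hζ σ hσ) hc0 hc3
  set P : Finset eis := S.image (isoE hζ σ hσ) with hPdef
  have hinj : Function.Injective (isoE hζ σ hσ) := (isoE hζ σ hσ).injective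
  have hcP : cP P = isoE hζ σ hσ c := by
    unfold cP
    rw [hPdef, Finset.prod_image (fun a _ b _ hab => hinj hab), hc, map_prod]
  have hPr : Pr3 P := by
    have h1 : ∀ p ∈ P, Prime p ∧ (3 : eis) ∣ p - 1 := by
      intro p hp
      obtain ⟨q, hq, rfl⟩ := Finset.mem_image.1 hp
      refine ⟨(MulEquiv.prime_iff (isoE hζ σ hσ : 𝓞 F ≃* eis)).2 (hS q hq).1, ?_⟩
      have := map_dvd (isoE hζ σ hσ) (hS q hq).2
      rwa [map_sub, map_one, map_ofNat] at this
    exact ⟨fun p hp => (h1 p hp).1, fun p hp => (h1 p hp).2, fun p hp q hq hne =>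
      cop_three (h1 p hp).1 (h1 q hq).1 (h1 p hp).2 (h1 q hq).2 hne⟩
  have hPk : P.card = k + 1 := by rw [hPdef, Finset.card_image_of_injective _ hinj, hk]
  obtain ⟨τ, hτ⟩ := hcyc.exists_zpow_surjective
  have hτ' : ∀ x, x ∈ Subgroup.zpowers τ := fun x => by
    obtain ⟨m, hm⟩ := hτ x
    exact ⟨m, hm⟩
  have hTT : Tot (iF K (isoE hζ σ hσ)) Gal(K/F) (isoE hζ σ hσ c) := by
    intro w hw g x
    rw [iF_apply, RingEquiv.symm_apply_apply] at hw
    exact htot w hw g x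
  obtain ⟨Lf, a1, a2, a3, a5, a6⟩ := analyticM' hcP.symm hPr D (ram3_of hun3 _) h7 hTT hτ' hPk hk0
  refine ⟨Lf, a1, a2, a3, fun Λ hΛ2 hΛ3 => ?_⟩
  obtain ⟨Ω, hC⟩ := cur_of hΛ2 hΛ3
  obtain ⟨U, hU⟩ := Pool.Agent.Y715.T.Fin.exists_over_three
  have b1 := a5 Λ Ω hC _ U.valuation hU
  obtain ⟨r, hr⟩ := a6 Λ Ω hC
  rw [h7] at b1 hr
  obtain ⟨t, ht⟩ := sqrt_disc (F := F) (K := K) (by rw [hn]; exact hodd)
  set T := ((Real.sqrt |((3 : ℤ) : ℝ)| : ℝ) : ℂ) with hTdef
  have hSS : T * T = 3 := by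
    rw [hTdef, ← Complex.ofReal_mul, Real.mul_self_sqrt (abs_nonneg _)]
    norm_num
  have hS0 : T ≠ 0 := by
    intro h0
    rw [h0, mul_zero] at hSS
    norm_num at hSS
  have hΩ := hC.lat.ne
  have hΩc : (starRingEnd ℂ) Ω ≠ 0 := (map_ne_zero _).2 hΩ
  have hval : U.valuation (Lf 1 * (Real.sqrt |(discr K : ℝ)| : ℝ) /
      ((2 * |((starRingEnd ℂ) Λ.ω₁ * Λ.ω₂).im| : ℝ) : ℂ) ^ 3 ^ n * 27) ≤
      U.valuation 3 ^ (2 * n * k) := by
    have h9 := v_sqrt3 hun3 (v := U.valuation) hU hn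
    rw [area hC.lat, mul_pow, map_mul, map_div₀, map_mul, map_mul, map_pow, h9]
    rw [map_div₀] at b1
    have hvS : U.valuation T ^ 3 ^ n ≠ 0 := pow_ne_zero _ ((Valuation.ne_zero_iff _).2 hS0)
    have hvO : U.valuation ((Ω * (starRingEnd ℂ) Ω) ^ 3 ^ n) ≠ 0 :=
      (Valuation.ne_zero_iff _).2 (pow_ne_zero _ (mul_ne_zero hΩ hΩc))
    refine le_trans (le_of_eq ?_) b1
    congr 1
    field_simp
  obtain ⟨j, hj⟩ := hodd
  have heq : Lf 1 * (Real.sqrt |(discr K : ℝ)| : ℝ) /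
      ((2 * |((starRingEnd ℂ) Λ.ω₁ * Λ.ω₂).im| : ℝ) : ℂ) ^ 3 ^ n * 27 =
      ((r * t / 3 ^ j * 27 : ℚ) : ℂ) := by
    rw [area hC.lat, ht, ← hTdef, mul_pow]
    have e1 : T ^ 3 ^ n = 3 ^ j * T := by
      rw [hj, pow_succ, pow_mul, pow_two, hSS]
    rw [e1]
    push_cast
    rw [← hr]
    field_simp
  rw [heq] at hval
  exact ⟨_, le_padic hU hval, heq⟩

end

end Pool.Agent.H62
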