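import Pool.Agent.H62.Cft
import Pool.Agent.H62.Fin5

/-!
# The Artin map of an abelian extension with tame ramification, base field of class number one
-/

set_option autoImplicit false
set_option linter.unusedSectionVars false
set_option linter.deprecated false

namespace Pool.Agent.H62.Cft

open NumberField IsDedekindDomain Pool.Agent.Q92.AR Pool.Agent.Q20.EX Pool.Agent.Q125.AR

section
variable {F M : Type} [Field F] [NumberField F] [Field M] [NumberField M] [Algebra F M]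

theorem not_le_sq {w : HeightOneSpectrum (𝓞 M)} (h : Algebra.IsUnramifiedAt (𝓞 F) w.asIdeal) :
    ¬ (w.under (𝓞 F)).asIdeal.map (algebraMap (𝓞 F) (𝓞 M)) ≤ w.asIdeal ^ 2 := by
  intro H
  have hw := w.isPrime
  have hu := (w.under (𝓞 F)).isPrime
  have hlo : w.asIdeal.LiesOver (w.under (𝓞 F)).asIdeal := ⟨rfl⟩
  let _ := Localization.AtPrime.algebraOfLiesOver (w.under (𝓞 F)).asIdeal w.asIdeal
  have h2 := (Algebra.isUnramifiedAt_iff_map_eq (𝓞 F) (w.under (𝓞 F)).asIdeal w.asIdeal).mp h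
  have h3 := Ideal.ramificationIdx'_eq_one_of_map_localization
    (hlo.over ▸ Ideal.map_comap_le) w.ne_bot (fun x hx => mem_nonZeroDivisors_of_ne_zero (by
      rintro rfl
      exact hx (zero_mem _))) h2.2
  rw [← not_ne_iff, Ideal.ramificationIdx'_ne_one_iff (hlo.over ▸ Ideal.map_comap_le)] at h3
  exact h3 H

/-- the valuations of a prime element -/
theorem prin_prime {p : 𝓞 F} (hp : Prime p) {v : HeightOneSpectrum (𝓞 F)} (hv : p ∈ v.asIdeal)
    {x : Fˣ} (hx : (x : F) = algebraMap (𝓞 F) F p) : prin x = Finsupp.single v 1 := by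
  classical
  have hmax : v.asIdeal = Ideal.span {p} := by
    have h1 : (Ideal.span {p}).IsPrime := (Ideal.span_singleton_prime hp.ne_zero).2 hp
    have h2 : (Ideal.span {p}).IsMaximal := h1.isMaximal (by
      rw [Ne, Ideal.span_singleton_eq_bot]
      exact hp.ne_zero)
    exact (h2.eq_of_le v.isPrime.ne_top ((Ideal.span_singleton_le_iff_mem _).2 hv)).symm
  ext w
  have h0 := valuation_eq_exp x w
  rw [hx] at h0
  rw [Finsupp.single_apply]
  split_ifs with h
  · subst h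
    rw [HeightOneSpectrum.valuation_of_algebraMap,
      HeightOneSpectrum.intValuation_singleton v hp.ne_zero hmax] at h0
    have := WithZero.exp_injective h0
    omega
  · have h1 : p ∉ w.asIdeal := by
      intro hpw
      apply h
      apply HeightOneSpectrum.ext
      have h3 : v.asIdeal ≤ w.asIdeal := by
        rw [hmax]
        exact (Ideal.span_singleton_le_iff_mem _).2 hpw
      exact v.isMaximal.eq_of_le w.isPrime.ne_top h3
    rw [(HeightOneSpectrum.valuation_eq_one_iff_notMem w).2 h1, ← WithZero.exp_zero] at h0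
    have := WithZero.exp_injective h0
    omega

/-- in an abelian extension a Frobenius element works for all primes above -/
theorem frob_all [IsGalois F M] (hcomm : ∀ g h : M ≃ₐ[F] M, g * h = h * g)
    {v : HeightOneSpectrum (𝓞 F)} {g : M ≃ₐ[F] M} (hg : IsFrobenius v g)
    (w : HeightOneSpectrum (𝓞 M)) (hw : w.under (𝓞 F) = v) (x : 𝓞 M) :
    g • x - x ^ Ideal.absNorm v.asIdeal ∈ w.asIdeal := by
  obtain ⟨P, hPm, hPv, hP⟩ := hg
  have hP' : ∀ y : 𝓞 M, g • y - y ^ Ideal.absNorm v.asIdeal ∈ P := by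
    intro y
    obtain ⟨z, hz, hz2⟩ := hP y
    have h1 : g • y - y ^ Ideal.absNorm v.asIdeal = z := by
      apply RingOfIntegers.ext
      rw [hz2]
      rfl
    rw [h1]
    exact hz
  have hPp := hPm.isPrime
  have hwp := w.isPrime
  have hu : w.asIdeal.under (𝓞 F) = P.under (𝓞 F) := by
    rw [Ideal.under_def, Ideal.under_def, hPv, ← hw]
    rfl
  obtain ⟨h, hh⟩ := Algebra.IsInvariant.exists_smul_of_under_eq (𝓞 F) (𝓞 M) Gal(M/F) _ _ hu
  have h2 := hP' (h • x)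
  rw [hh, ← smul_pow', ← mul_smul, hcomm, mul_smul, ← smul_sub, Ideal.smul_mem_pointwise_smul_iff] at h2
  exact h2

/-- a nonzero integer as an element of `Fˣ` -/
noncomputable def el {a : 𝓞 F} (ha : a ≠ 0) : Fˣ :=
  Units.mk0 (algebraMap (𝓞 F) F a)
    (fun h => ha ((map_eq_zero_iff _ (FaithfulSMul.algebraMap_injective (𝓞 F) F)).1 h))

theorem el_coe {a : 𝓞 F} (ha : a ≠ 0) : ((el ha : Fˣ) : F) = algebraMap (𝓞 F) F a := rfl

theorem span_of_prime {p : 𝓞 F} (hp : Prime p) {v : HeightOneSpectrum (𝓞 F)}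
    (hv : p ∈ v.asIdeal) : v.asIdeal = Ideal.span {p} := by
  have h1 : (Ideal.span {p}).IsPrime := (Ideal.span_singleton_prime hp.ne_zero).2 hp
  have h2 : (Ideal.span {p}).IsMaximal := h1.isMaximal (by
    rw [Ne, Ideal.span_singleton_eq_bot]
    exact hp.ne_zero)
  exact (h2.eq_of_le v.isPrime.ne_top ((Ideal.span_singleton_le_iff_mem _).2 hv)).symm

theorem not_mem_of_unit {c a : 𝓞 F} (hu : IsUnit (Ideal.Quotient.mk (Ideal.span {c}) a))
    {v : HeightOneSpectrum (𝓞 F)} (hc : c ∈ v.asIdeal) : a ∉ v.asIdeal := by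
  intro ha
  obtain ⟨b, hb⟩ := hu.exists_right_inv
  obtain ⟨b, rfl⟩ := Ideal.Quotient.mk_surjective b
  rw [← map_mul, ← map_one (Ideal.Quotient.mk (Ideal.span {c})), Ideal.Quotient.eq,
    Ideal.mem_span_singleton] at hb
  have h1 : a * b - 1 ∈ v.asIdeal := v.asIdeal.mem_of_dvd hb hc
  have h2 : a * b ∈ v.asIdeal := v.asIdeal.mul_mem_right _ ha
  have h3 : (1 : 𝓞 F) ∈ v.asIdeal := by
    have := v.asIdeal.sub_mem h2 h1
    rwa [sub_sub_cancel] at this
  exact v.isPrime.ne_top ((Ideal.eq_top_iff_one _).2 h3)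

/-- congruent integers have the same image -/
theorem art_congr [IsGalois F M] [IsEmpty (F →+* ℝ)] (ψ : (M ≃ₐ[F] M) →* ℂˣ) {ℓ n : ℕ}
    (hℓ : ℓ.Prime) (hψ : ∀ g, ψ g ^ ℓ ^ n = 1) {c : 𝓞 F}
    (hcℓ : ∀ v : HeightOneSpectrum (𝓞 F), c ∈ v.asIdeal → (ℓ : 𝓞 F) ∉ v.asIdeal)
    (hram : ∀ v : HeightOneSpectrum (𝓞 F), ¬ Unramified M v → c ∈ v.asIdeal) {a b : 𝓞 F}
    (ha : a ≠ 0) (hb : b ≠ 0) (hu : IsUnit (Ideal.Quotient.mk (Ideal.span {c}) b))
    (hab : Ideal.Quotient.mk (Ideal.span {c}) a = Ideal.Quotient.mk (Ideal.span {c}) b) :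
    art ψ (prin (el ha)) = art ψ (prin (el hb)) := by
  have h1 : art ψ (prin (el ha / el hb)) = 0 := by
    refine tame ψ hℓ hψ (fun v hv => hcℓ v (hram v hv)) _ fun v hv => ?_
    have hc := hram v hv
    rw [Units.val_div_eq_div_val, el_coe, el_coe]
    have hb0 : algebraMap (𝓞 F) F b ≠ 0 := (el hb).ne_zero
    have h2 : algebraMap (𝓞 F) F a / algebraMap (𝓞 F) F b - 1 =
        algebraMap (𝓞 F) F (a - b) / algebraMap (𝓞 F) F b := by
      rw [map_sub, sub_div, div_self hb0]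
    rw [h2, map_div₀, (HeightOneSpectrum.valuation_eq_one_iff_notMem v).2 (not_mem_of_unit hu hc),
      div_one]
    refine (HeightOneSpectrum.valuation_lt_one_iff_mem v _).2 ?_
    rw [Ideal.Quotient.eq, Ideal.mem_span_singleton] at hab
    exact v.asIdeal.mem_of_dvd hab hc
  rw [prin_div, map_sub, sub_eq_zero] at h1
  exact h1

theorem exists_rep {c : 𝓞 F} (hc : c ≠ 0) (u : (𝓞 F ⧸ Ideal.span {c})) :
    ∃ a : 𝓞 F, a ≠ 0 ∧ Ideal.Quotient.mk (Ideal.span {c}) a = u := by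
  obtain ⟨a, rfl⟩ := Ideal.Quotient.mk_surjective u
  by_cases ha : a = 0
  · refine ⟨c, hc, ?_⟩
    rw [ha, map_zero, Ideal.Quotient.eq_zero_iff_mem]
    exact Ideal.mem_span_singleton_self c
  · exact ⟨a, ha, rfl⟩

/-- The character of the residues belonging to `ψ`. -/
theorem exists_resChar [IsGalois F M] [IsEmpty (F →+* ℝ)] (ψ : (M ≃ₐ[F] M) →* ℂˣ) {ℓ n : ℕ}
    (hℓ : ℓ.Prime) (hψ : ∀ g, ψ g ^ ℓ ^ n = 1) {c : 𝓞 F} (hc0 : c ≠ 0)
    (hcℓ : ∀ v : HeightOneSpectrum (𝓞 F), c ∈ v.asIdeal → (ℓ : 𝓞 F) ∉ v.asIdeal)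
    (hram : ∀ v : HeightOneSpectrum (𝓞 F), ¬ Unramified M v → c ∈ v.asIdeal) :
    ∃ θ : (𝓞 F ⧸ Ideal.span {c})ˣ →* ℂˣ, ∀ (a : 𝓞 F) (ha : a ≠ 0) (u : (𝓞 F ⧸ Ideal.span {c})ˣ),
      (u : 𝓞 F ⧸ Ideal.span {c}) = Ideal.Quotient.mk _ a →
        Additive.ofMul (θ u) = art ψ (prin (el ha)) := by
  have hex := fun u : (𝓞 F ⧸ Ideal.span {c})ˣ => exists_rep hc0 (u : 𝓞 F ⧸ Ideal.span {c})
  choose r hr0 hr using hex
  have hkey : ∀ (a : 𝓞 F) (ha : a ≠ 0) (u : (𝓞 F ⧸ Ideal.span {c})ˣ),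
      (u : 𝓞 F ⧸ Ideal.span {c}) = Ideal.Quotient.mk _ a →
        art ψ (prin (el (hr0 u))) = art ψ (prin (el ha)) := by
    intro a ha u hu
    refine art_congr ψ hℓ hψ hcℓ hram _ _ ?_ ?_
    · rw [← hu]
      exact u.isUnit
    · rw [hr, hu]
  have hmul : ∀ (a b : 𝓞 F) (ha : a ≠ 0) (hb : b ≠ 0),
      prin (el (mul_ne_zero ha hb)) = prin (el ha) + prin (el hb) := by
    intro a b ha hb
    rw [← prin_mul]
    congr 1
    apply Units.ext
    rw [Units.val_mul, el_coe, el_coe, el_coe, map_mul]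
  refine ⟨⟨⟨fun u => (art ψ (prin (el (hr0 u)))).toMul, ?_⟩, ?_⟩, ?_⟩
  · rw [hkey 1 one_ne_zero 1 (by rw [Units.val_one, map_one])]
    have h1 : (el (one_ne_zero : (1 : 𝓞 F) ≠ 0)) = 1 := by
      apply Units.ext
      rw [el_coe, map_one, Units.val_one]
    rw [h1, prin_one, map_zero]
    rfl
  · intro u v
    change (art ψ (prin (el (hr0 (u * v))))).toMul = _
    rw [hkey (r u * r v) (mul_ne_zero (hr0 u) (hr0 v)) (u * v) (by
      rw [Units.val_mul, map_mul, hr, hr]), hmul, map_add]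
    rfl
  · intro a ha u hu
    exact hkey a ha u hu

theorem mem_of_ramified {c : 𝓞 F}
    (hunr : ∀ w : HeightOneSpectrum (𝓞 M), algebraMap (𝓞 F) (𝓞 M) c ∉ w.asIdeal →
      Algebra.IsUnramifiedAt (𝓞 F) w.asIdeal) (v : HeightOneSpectrum (𝓞 F))
    (hv : ¬ Unramified M v) : c ∈ v.asIdeal := by
  by_contra h
  apply hv
  rintro w rfl
  exact not_le_sq (hunr w h)

/-- **The Artin map of a cyclic extension of prime power degree with tame ramification**, when the ring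
of integers of the base field is a principal ideal domain, and there are no real places. -/
theorem exists_art [IsGalois F M] [IsEmpty (F →+* ℝ)] [IsPrincipalIdealRing (𝓞 F)]
    [IsCyclic Gal(M/F)] {ℓ n : ℕ} (hℓ : ℓ.Prime) (hn : Module.finrank F M = ℓ ^ n)
    {c : 𝓞 F} (hc0 : c ≠ 0)
    (hcℓ : ∀ v : HeightOneSpectrum (𝓞 F), c ∈ v.asIdeal → (ℓ : 𝓞 F) ∉ v.asIdeal)
    (hunr : ∀ w : HeightOneSpectrum (𝓞 M), algebraMap (𝓞 F) (𝓞 M) c ∉ w.asIdeal →
      Algebra.IsUnramifiedAt (𝓞 F) w.asIdeal) :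
    ∃ art : (𝓞 F ⧸ Ideal.span {c})ˣ →* Gal(M/F), Pool.Agent.Y696.Art c art := by
  classical
  obtain ⟨σ, hσ⟩ := IsCyclic.exists_generator (α := Gal(M/F))
  obtain ⟨ψ, hψi⟩ := exists_char σ hσ
  have hcomm : ∀ g h : M ≃ₐ[F] M, g * h = h * g := fun g h => comm_of_cyclic hσ g h
  have hψ : ∀ g, ψ g ^ ℓ ^ n = 1 := by
    intro g
    rw [← map_pow, ← hn, ← IsGalois.card_aut_eq_finrank F M, pow_card_eq_one', map_one]
  have hram := mem_of_ramified (F := F) (M := M) hunr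
  obtain ⟨θ, hθ⟩ := exists_resChar ψ hℓ hψ hc0 hcℓ hram
  have hrange : ∀ u, θ u ∈ ψ.range := by
    intro u
    obtain ⟨a, ha, hau⟩ := exists_rep hc0 (u : 𝓞 F ⧸ Ideal.span {c})
    have h1 := hθ a ha u hau.symm
    rw [art_eq_sum] at h1
    have h2 : ∑ v ∈ (prin (el ha)).support, (prin (el ha)) v • Additive.ofMul (ψ (frob M v)) ∈
        (MonoidHom.toAdditive ψ).range :=
      AddSubgroup.sum_mem _ fun v _ => AddSubgroup.zsmul_mem _
        (show Additive.ofMul (ψ (frob M v)) ∈ (MonoidHom.toAdditive ψ).range from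
          ⟨Additive.ofMul (frob M v), rfl⟩) _
    rw [← h1] at h2
    obtain ⟨g, hg⟩ := h2
    exact ⟨g.toMul, hg⟩
  let e := MonoidHom.ofInjective hψi
  let A : (𝓞 F ⧸ Ideal.span {c})ˣ →* Gal(M/F) :=
    e.symm.toMonoidHom.comp (θ.codRestrict ψ.range hrange)
  have hA : ∀ u, ψ (A u) = θ u := by
    intro u
    have h1 : e (A u) = ⟨θ u, hrange u⟩ := e.apply_symm_apply _
    exact congrArg Subtype.val h1
  have hprime : ∀ (p : 𝓞 F) (hp : Prime p) (u : (𝓞 F ⧸ Ideal.span {c})ˣ),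
      (u : 𝓞 F ⧸ Ideal.span {c}) = Ideal.Quotient.mk _ p → ∀ v : HeightOneSpectrum (𝓞 F),
        p ∈ v.asIdeal → A u = frob M v := by
    intro p hp u hu v hv
    apply hψi
    rw [hA]
    have h1 := hθ p hp.ne_zero u hu
    rw [prin_prime hp hv (el_coe hp.ne_zero), art_single, one_smul] at h1
    exact Additive.ofMul.injective h1
  refine ⟨A, ⟨?_, hunr, ?_⟩⟩
  · intro g
    have hfin : {v : HeightOneSpectrum (𝓞 F) | c ∈ v.asIdeal}.Finite := by
      have h0 : Ideal.span {c} ≠ 0 := fun h => hc0 (Ideal.span_singleton_eq_bot.1 h)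
      refine (Ideal.finite_factors h0).subset fun v hv => Ideal.dvd_span_singleton.2 hv
    obtain ⟨v, hv, hvU, hvF⟩ := Pool.Agent.Q14.AR.cheb F M g _ hfin
    obtain ⟨p, hp⟩ := (IsPrincipalIdealRing.principal v.asIdeal).principal
    have hp' : v.asIdeal = Ideal.span {p} := hp
    have hpv : p ∈ v.asIdeal := by
      rw [hp']
      exact Ideal.mem_span_singleton_self p
    have hp0 : p ≠ 0 := by
      rintro rfl
      exact v.ne_bot (by rw [hp', Ideal.span_singleton_eq_bot])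
    have hpp : Prime p := (Ideal.span_singleton_prime hp0).1 (hp' ▸ v.isPrime)
    have hcop : IsUnit (Ideal.Quotient.mk (Ideal.span {c}) p) := by
      obtain ⟨y, i, hi, h1⟩ := v.isMaximal.exists_inv hv
      rw [hp', Ideal.mem_span_singleton] at hi
      obtain ⟨k, rfl⟩ := hi
      refine IsUnit.of_mul_eq_one (Ideal.Quotient.mk _ k) ?_
      rw [← map_mul, ← map_one (Ideal.Quotient.mk (Ideal.span {c})), Ideal.Quotient.eq,
        Ideal.mem_span_singleton, ← h1]
      exact ⟨-y, by ring⟩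
    obtain ⟨u, hu⟩ := hcop
    refine ⟨u, ?_⟩
    rw [hprime p hpp u hu v hpv]
    apply hψi
    exact chi_frob hvU (frob_spec v) hvF ψ
  · intro p hp u hu w hw x
    have hpv : p ∈ (w.under (𝓞 F)).asIdeal := hw
    have h1 := hprime p hp u hu (w.under (𝓞 F)) hpv
    rw [h1]
    have h2 := frob_all hcomm (frob_spec (M := M) (w.under (𝓞 F))) w rfl x
    have h3 : Nat.card (𝓞 F ⧸ Ideal.span {p}) = Ideal.absNorm (w.under (𝓞 F)).asIdeal := by
      rw [span_of_prime hp hpv, Ideal.absNorm_apply]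
      rfl
    rw [h3]
    exact h2

end

end Pool.Agent.H62.Cft
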