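import Pool.Agent.H62.Lt5

/-!
# The analytic theorem for extensions ramified at several primes: assembly
-/

set_option autoImplicit false
set_option linter.unusedSectionVars false

namespace Pool.Agent.H62

open NumberField IsDedekindDomain IsLocalRing Filter Topology Complex WithZero WeierstrassCurve
open Pool.Agent.W192.HK Pool.Agent.TH936.CM Pool.Agent.TH936.PU
open Pool.Agent.Y696
open Pool.Agent.N883.Q Pool.Agent.N883.T
open Pool.Agent.Y715.T.Three Pool.Agent.Y715.T.Lat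

/-- the theorem with the modulus as a variable -/
theorem analyticX' {K : Type} [Field K] [NumberField K] {ι : eis →+* 𝓞 K} {G : Type} [CommGroup G]
    [Finite G] [MulSemiringAction G (𝓞 K)] {P : Finset eis} {c : eis}
    {art : (eis ⧸ (sp c : Ideal eis))ˣ →* G} {n : ℕ} (hcP : c = cP P)
    (hP : Pr3 P) (h9 : ∀ p ∈ P, 3 * la ∣ p - 1) (D : DatQ ι G c art) (hr3 : Ram3 ι)
    (hG : Nat.card G = 3 ^ n)
    (hT : Tot ι G c) {σ : G} (hσ : ∀ x : G, x ∈ Subgroup.zpowers σ) {k : ℕ}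
    (hk : P.card = k + 1)
    (hω : ∀ p ∈ P, ∃ y, p ∣ omr - y ^ 3 ^ n) {l : eis → eis → ℕ}
    (hl : ∀ p ∈ P, ∀ q ∈ P, p ≠ q → ∀ x : eis, p ∣ x - q → (∀ r ∈ P, r ≠ p → r ∣ x - 1) →
      ∀ u : (eis ⧸ (sp c : Ideal eis))ˣ,
        (u : eis ⧸ (sp c : Ideal eis)) = Ideal.Quotient.mk _ x → art u = σ ^ l p q)
    {a : eis → ℤ} (ha : ∀ q ∈ P, ∃ t : eis, q - 1 = 3 * la * (a q + la * t))
    {s : Finset eis → ℤ} (hs1 : ∀ q ∈ P, s {q} = a q)
    (hs2 : ∀ R : Finset eis, 2 ≤ R.card → ∑ J ∈ R.powerset.erase R, (-1) ^ J.card * s (R \ J) *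
      ∏ q ∈ J, (∑ p ∈ R \ J, (l p q : ℤ)) = 0) (hsP : ¬ (3 : ℤ) ∣ s P) :
    ∃ Lf : ℂ → ℂ, MeromorphicOn Lf Set.univ ∧ (∀ s : ℂ, 3 / 2 < s.re →
      LSeriesSummable ((fun n : ℤ => (n : ℂ)) ∘ (E0 K).LFunction) s ∧ Lf s = (E0 K).LSeries s) ∧
      AnalyticAt ℂ Lf 1 ∧
      (∀ (L : PeriodPair) (Ω : ℂ), Cur L Ω → ∀ (Γ : Type) [LinearOrderedCommGroupWithZero Γ]
        (v : Valuation ℂ Γ), v 3 < 1 →
          v (Lf 1 / (Ω * (starRingEnd ℂ) Ω) ^ Nat.card G) * v 27 = v 3 ^ (2 * n * k)) ∧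
      ∀ (L : PeriodPair) (Ω : ℂ), Cur L Ω →
        ∃ r : ℚ, Lf 1 / (Ω * (starRingEnd ℂ) Ω) ^ Nat.card G = r := by
  subst hcP
  exact analyticX hP h9 D hr3 hG hT hσ hk hω hl ha hs1 hs2 hsP

section

variable {F K : Type} [Field F] [NumberField F] [IsCyclotomicExtension {3} ℚ F] [Field K]
  [NumberField K] [Algebra F K] [IsGalois F K] {ζ : F} {n : ℕ}

lemma pow_eq3 {R : Type} [CommRing R] [IsDomain R] {w : R} (hw : IsPrimitiveRoot w 3) {i j : ℕ}
    (h : w ^ i = w ^ j) : ((i : ℕ) : ZMod 3) = j := by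
  rw [ZMod.natCast_eq_natCast_iff]
  have e : ∀ m : ℕ, w ^ m = w ^ (m % 3) := by
    intro m
    conv_lhs => rw [← Nat.div_add_mod m 3, pow_add, pow_mul, hw.pow_eq_one, one_pow, one_mul]
  rw [e i, e j] at h
  exact hw.pow_inj (Nat.mod_lt _ (by norm_num)) (Nat.mod_lt _ (by norm_num)) h

lemma z_pow_eq (hζ : IsPrimitiveRoot ζ 3) {i j : ℕ} (h : hζ.toInteger ^ i = hζ.toInteger ^ j) :
    ((i : ℕ) : ZMod 3) = j := pow_eq3 hζ.toInteger_isPrimitiveRoot h

lemma idx_prod {hζ : IsPrimitiveRoot ζ 3} {p : 𝓞 F} (R : Finset (𝓞 F)) (m : 𝓞 F → ℕ)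
    (j : 𝓞 F → ℕ) (h : ∀ q ∈ R, Idx hζ p q (j q)) :
    Idx hζ p (∏ q ∈ R, q ^ m q) (∑ q ∈ R, m q * j q) := by
  classical
  have hpow : ∀ (x : 𝓞 F) (i : ℕ), Idx hζ p x i → ∀ t : ℕ, Idx hζ p (x ^ t) (t * i) := by
    intro x i hx t
    induction t with
    | zero =>
      unfold Idx
      rw [pow_zero, one_pow, zero_mul, pow_zero, sub_self]
      exact dvd_zero _
    | succ t ih =>
      rw [pow_succ, Nat.succ_mul]
      exact ih.mul hx
  induction R using Finset.induction_on with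
  | empty =>
    unfold Idx
    rw [Finset.prod_empty, one_pow, Finset.sum_empty, pow_zero, sub_self]
    exact dvd_zero _
  | insert q R hq ih =>
    rw [Finset.prod_insert hq, Finset.sum_insert hq]
    exact (hpow q (j q) (h q (Finset.mem_insert_self q R)) (m q)).mul
      (ih fun r hr => h r (Finset.mem_insert_of_mem hr))

open scoped Classical in
/-- the data of the theorem -/
structure TD (hζ : IsPrimitiveRoot ζ 3) (K : Type) [Field K] [NumberField K] [Algebra F K]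
    (n : ℕ) (S : Finset (𝓞 F)) (e : 𝓞 F → ℕ) (β : K) : Prop where
  prime : ∀ p ∈ S, Prime p ∧ 3 * (2 * hζ.toInteger + 1) ∣ p - 1
  norm : ∀ p ∈ S, 3 ^ (n + 1) ∣ Nm p - 1
  exps : ∀ p ∈ S, ¬ 3 ∣ e p
  root : β ^ 3 = algebraMap F K ((∏ p ∈ S, p ^ e p : 𝓞 F) : F)
  ker : ∀ x : 𝓞 F → ℕ, (∀ t ∈ S, ∃ y : 𝓞 F, t ∣ (∏ q ∈ S.erase t,
      q ^ (e t * x q + 2 * e q * x t)) - y ^ 3) →
      ∃ c : ℕ, ∀ q ∈ S, ((x q : ℕ) : ZMod 3) = c * e q

/-- the index -/
noncomputable def ix (hζ : IsPrimitiveRoot ζ 3) (x p : 𝓞 F) : ℕ := by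
  classical exact if h : ∃ j : ℕ, Idx hζ p x j then h.choose else 0

lemma ix_spec (hζ : IsPrimitiveRoot ζ 3) {S : Finset (𝓞 F)}
    (hS : ∀ p ∈ S, Prime p ∧ 3 * (2 * hζ.toInteger + 1) ∣ p - 1) {p q : 𝓞 F} (hp : p ∈ S)
    (hq : q ∈ S) (hpq : p ≠ q) : Idx hζ p q (ix hζ q p) := by
  have h : ∃ j : ℕ, Idx hζ p q j := by
    obtain ⟨j, -, hj⟩ := exists_idx hζ (hS p hp).1 (not_dvd_three (hS p hp).1 (hS p hp).2)
      (x := q) (fun hd => hpq (cop_F hζ (hS p hp).1 (hS q hq).1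
        ((dvd_mul_right _ _).trans (hS p hp).2) ((dvd_mul_right _ _).trans (hS q hq).2) hd))
    exact ⟨j, hj⟩
  unfold ix
  rw [dif_pos h]
  exact h.choose_spec

/-- **the analytic theorem** -/
theorem analytic_KX (hn0 : n ≠ 0) (hn : Module.finrank F K = 3 ^ n) [hcyc : IsCyclic Gal(K/F)]
    {S : Finset (𝓞 F)} (hζ : IsPrimitiveRoot ζ 3) {e : 𝓞 F → ℕ} {β : K}
    (T : TD hζ K n S e β) {k : ℕ} (hk : S.card = k + 1) {c : 𝓞 F} (hc : c = ∏ p ∈ S, p)
    {art : (𝓞 F ⧸ Ideal.span {c})ˣ →* Gal(K/F)} (h : Art c art)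
    (htot : ∀ v : HeightOneSpectrum (𝓞 K), algebraMap (𝓞 F) (𝓞 K) c ∈ v.asIdeal →
      ∀ (g : Gal(K/F)) (x : 𝓞 K), g • x - x ∈ v.asIdeal)
    (huniq : ∀ v w : HeightOneSpectrum (𝓞 K), (3 : 𝓞 K) ∈ v.asIdeal → (3 : 𝓞 K) ∈ w.asIdeal →
      v = w) :
    ∃ Lf : ℂ → ℂ, MeromorphicOn Lf Set.univ ∧ (∀ s : ℂ, 3 / 2 < s.re →
      LSeriesSummable ((fun n : ℤ => (n : ℂ)) ∘ (E27 K).LFunction) s ∧
        Lf s = (E27 K).LSeries s) ∧
      AnalyticAt ℂ Lf 1 ∧
      ∀ Λ : PeriodPair, Λ.g₂ = 0 → Λ.g₃ = -1 →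
        ∃ r : ℚ, (r ≠ 0 ∧ padicValRat 3 r = ((2 * n * k : ℕ) : ℤ)) ∧
          Lf 1 * (Real.sqrt |(discr K : ℝ)| : ℝ) /
            ((2 * |((starRingEnd ℂ) Λ.ω₁ * Λ.ω₂).im| : ℝ) : ℂ) ^ 3 ^ n * 27 = r := by
  classical
  let := commG h
  have hS := T.prime
  have hS' : ∀ p ∈ S, Prime p ∧ (3 : 𝓞 F) ∣ p - 1 := fun p hp =>
    ⟨(hS p hp).1, (dvd_mul_right _ _).trans (hS p hp).2⟩
  have hc0 : c ≠ 0 := by
    rw [hc]
    exact Finset.prod_ne_zero_iff.2 fun p hp => (hS p hp).1.ne_zero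
  have h3 : (3 : 𝓞 F) ∣ c - 1 := by
    rw [hc]
    exact three_dvd_prod hS'
  have hc3 : IsCoprime c 3 := by
    obtain ⟨q, hq⟩ := h3
    exact ⟨1, -q, by linear_combination hq⟩
  have hun3 : Un3 F K := un3_of h h3
  obtain ⟨σ, hσ⟩ := exists_emb hζ
  have h7 : Nat.card Gal(K/F) = 3 ^ n := by rw [← hn]; exact IsGalois.card_aut_eq_finrank F K
  have hodd : Odd (3 ^ n) := Odd.pow (by decide)
  have D := mkDatQ h (isoE hζ σ hσ) hc0 hc3
  set E := isoE hζ σ hσ with hE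
  set P : Finset eis := S.image E with hPdef
  have hinj : Function.Injective E := E.injective
  have hcP : cP P = E c := by
    unfold cP
    rw [hPdef, Finset.prod_image (fun a _ b _ hab => hinj hab), hc, map_prod]
  have hPr : Pr3 P := by
    have h1 : ∀ p ∈ P, Prime p ∧ (3 : eis) ∣ p - 1 := by
      intro p hp
      obtain ⟨q, hq, rfl⟩ := Finset.mem_image.1 hp
      refine ⟨(MulEquiv.prime_iff (E : 𝓞 F ≃* eis)).2 (hS q hq).1, ?_⟩
      have := map_dvd E (hS' q hq).2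
      rwa [map_sub, map_one, map_ofNat] at this
    exact ⟨fun p hp => (h1 p hp).1, fun p hp => (h1 p hp).2, fun p hp q hq hne =>
      cop_three (h1 p hp).1 (h1 q hq).1 (h1 p hp).2 (h1 q hq).2 hne⟩
  have hP9 : ∀ p ∈ P, 3 * la ∣ p - 1 := by
    intro p hp
    obtain ⟨q, hq, rfl⟩ := Finset.mem_image.1 hp
    exact isoE_nine hζ hσ (hS q hq).2
  have hPk : P.card = k + 1 := by rw [hPdef, Finset.card_image_of_injective _ hinj, hk]
  have hSne : S.Nonempty := Finset.card_pos.1 (by omega)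
  obtain ⟨τ, hτ⟩ := hcyc.exists_zpow_surjective
  have hτ' : ∀ x, x ∈ Subgroup.zpowers τ := fun x => by
    obtain ⟨m, hm⟩ := hτ x
    exact ⟨m, hm⟩
  have hTT : Tot (iF K E) Gal(K/F) (E c) := by
    intro w hw g x
    rw [iF_apply, RingEquiv.symm_apply_apply] at hw
    exact htot w hw g x
  -- the root of unity
  have hEz : E hζ.toInteger = omr := by
    apply Subtype.ext
    rw [isoE_coe, omr_coe]
    exact hσ
  have hω : ∀ p ∈ P, ∃ y, p ∣ omr - y ^ 3 ^ n := by
    intro p hp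
    obtain ⟨q, hq, rfl⟩ := Finset.mem_image.1 hp
    obtain ⟨y, hy⟩ := om_power hζ (hS q hq).1 (T.norm q hq)
    refine ⟨E y, ?_⟩
    have := map_dvd E hy
    rwa [map_sub, map_pow, hEz] at this
  -- the exponents `l`
  set art' := art.comp (Units.map ((qe E c : _ →* _) :
    (eis ⧸ (sp (E c) : Ideal eis)) →* (𝓞 F ⧸ Ideal.span {c}))) with hart'
  have hlex : ∀ p q : eis, ∃ j : ℕ, p ∈ P → q ∈ P → p ≠ q → ∀ x : eis, p ∣ x - q →
      (∀ r ∈ P, r ≠ p → r ∣ x - 1) → ∀ u : (eis ⧸ (sp (E c) : Ideal eis))ˣ,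
        (u : eis ⧸ (sp (E c) : Ideal eis)) = Ideal.Quotient.mk _ x → art' u = τ ^ j := by
    intro p q
    by_cases hex : p ∈ P ∧ ∃ (x : eis) (u : (eis ⧸ (sp (E c) : Ideal eis))ˣ), p ∣ x - q ∧
        (∀ r ∈ P, r ≠ p → r ∣ x - 1) ∧
        (u : eis ⧸ (sp (E c) : Ideal eis)) = Ideal.Quotient.mk _ x
    · obtain ⟨hpP, x0, u0, h1, h2, h3⟩ := hex
      obtain ⟨j, hj⟩ := mem_powers_iff_mem_zpowers.2 (hτ' (art' u0))
      refine ⟨j, fun hp hq hpq x hx1 hx2 u hu => ?_⟩
      have hd : cP P ∣ x - x0 := by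
        refine cP_dvd hPr fun r hr => ?_
        by_cases hrp : r = p
        · rw [hrp]
          have := hx1.sub h1
          rwa [sub_sub_sub_cancel_right] at this
        · have := (hx2 r hr hrp).sub (h2 r hr hrp)
          rwa [sub_sub_sub_cancel_right] at this
      have huu : u = u0 := by
        apply Units.ext
        rw [hu, h3, Ideal.Quotient.eq, Ideal.mem_span_singleton, ← hcP]
        exact hd
      rw [huu]
      exact hj.symm
    · refine ⟨0, fun hp hq hpq x hx1 hx2 u hu => ?_⟩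
      exact absurd ⟨hp, x, u, hx1, hx2, hu⟩ hex
  choose l hl using hlex
  -- the remainders
  have haF : ∀ p : 𝓞 F, ∃ a : ℤ, p ∈ S → ∃ t : 𝓞 F, p - 1 = 3 * (2 * hζ.toInteger + 1) *
      (a + (2 * hζ.toInteger + 1) * t) := by
    intro p
    by_cases hp : p ∈ S
    · obtain ⟨q, hq⟩ := (hS p hp).2
      obtain ⟨a, t, hat⟩ := exists_a hζ q
      exact ⟨a, fun _ => ⟨t, by rw [hq, ← hat]⟩⟩
    · exact ⟨0, fun hh => absurd hh hp⟩
  choose a ha using haF
  have ha' : ∀ q ∈ P, ∃ t : eis, q - 1 = 3 * la * (((a (E.symm q) : ℤ) : eis) + la * t) := by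
    intro p hp
    obtain ⟨q, hq, rfl⟩ := Finset.mem_image.1 hp
    obtain ⟨t, ht⟩ := ha q hq
    refine ⟨E t, ?_⟩
    have hEl := isoE_la hζ hσ
    rw [map_add, map_mul, map_one, map_ofNat] at hEl
    have := congrArg E ht
    simp only [map_sub, map_one, map_mul, map_add, map_intCast, map_ofNat] at this
    rw [hEl] at this
    rw [E.symm_apply_apply]
    exact this
  have hsum := sum_ne hζ hS hSne T.exps (a := a) (fun p hp => ha p hp) T.root huniq
  obtain ⟨s, hs1, hs2⟩ := exists_s (fun q => a (E.symm q)) l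
  -- the action of the generator
  set b : 𝓞 F := ∏ p ∈ S, p ^ e p with hb
  have hb0 : b ≠ 0 := Finset.prod_ne_zero_iff.2 fun p hp => pow_ne_zero _ (hS p hp).1.ne_zero
  have hbF : (b : F) ≠ 0 := fun h => hb0 (by exact_mod_cast h)
  have hβ0 : β ≠ 0 := by
    rintro rfl
    have h8 := T.root
    rw [zero_pow three_ne_zero] at h8
    exact hbF ((map_eq_zero (algebraMap F K)).1 h8.symm)
  have hζK : IsPrimitiveRoot (algebraMap F K ζ) 3 := hζ.map_of_injective (algebraMap F K).injective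
  obtain ⟨i, hi, hia⟩ := hζK.eq_pow_of_pow_eq_one (ξ := τ β / β) (by
    have e1 : (τ β) ^ 3 = β ^ 3 := by
      rw [← map_pow, T.root]
      exact τ.commutes _
    rw [div_pow, e1, div_self]
    exact pow_ne_zero _ hβ0)
  have hτβ : τ β = (algebraMap F K ζ) ^ i * β := by
    rw [hia]
    field_simp
  have hτp : ∀ m : ℕ, (τ ^ m : Gal(K/F)) β = (algebraMap F K ζ) ^ (i * m) * β := by
    intro m
    induction m with
    | zero => simp
    | succ m ih =>
      have e1 : (τ ^ (m + 1) : Gal(K/F)) β = (τ ^ m : Gal(K/F)) (τ β) := by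
        rw [pow_succ]
        rfl
      have e2 : (τ ^ m : Gal(K/F)) ((algebraMap F K ζ) ^ i) = (algebraMap F K ζ) ^ i := by
        rw [← map_pow]
        exact (τ ^ m : Gal(K/F)).commutes _
      rw [e1, hτβ, map_mul, ih, e2, Nat.mul_succ, pow_add]
      ring
  have hi0 : i ≠ 0 := by
    rintro rfl
    have hall : ∀ g : Gal(K/F), g β = β := by
      intro g
      obtain ⟨m, hm⟩ := mem_powers_iff_mem_zpowers.2 (hτ' g)
      have hm' : τ ^ m = g := hm
      rw [← hm', hτp, zero_mul, pow_zero, one_mul]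
    obtain ⟨f, hf⟩ := (IsGalois.mem_range_algebraMap_iff_fixed (F := F) _).2 hall
    obtain ⟨q, hq⟩ := hSne
    refine not_cube hζ hS hq (T.exps q hq) f ((algebraMap F K).injective ?_)
    rw [map_pow, hf, T.root]
  have hκ : ((i : ℕ) : ZMod 3) * i = 1 := by
    interval_cases i
    · exact absurd rfl hi0
    · rfl
    · rfl
  have hκ0 : ((i : ℕ) : ZMod 3) ≠ 0 := by
    intro h0
    rw [h0, mul_zero] at hκ
    exact zero_ne_one hκ
  -- the relation
  have hrel : ∀ p ∈ S, ∀ q ∈ S, p ≠ q →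
      ((l (E p) (E q) : ℕ) : ZMod 3) = e p * (i * ix hζ q p) := by
    intro p hp q hq hpq
    obtain ⟨ei, hei⟩ := exists_idem hPr
    have hEp : E p ∈ P := Finset.mem_image_of_mem _ hp
    have hEq : E q ∈ P := Finset.mem_image_of_mem _ hq
    have hEpq : E p ≠ E q := fun hh => hpq (hinj hh)
    set x : eis := 1 + ei (E p) * (E q - 1) with hx
    have hx1 : E p ∣ x - E q := by
      have : x - E q = (ei (E p) - 1) * (E q - 1) := by rw [hx]; ring
      rw [this]
      exact (hei _ hEp).1.mul_right _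
    have hx2 : ∀ r ∈ P, r ≠ E p → r ∣ x - 1 := by
      intro r hr hrp
      have : x - 1 = ei (E p) * (E q - 1) := by rw [hx]; ring
      rw [this]
      exact ((hei _ hEp).2 r hr hrp).mul_right _
    have hpnq : ¬ E p ∣ E q := fun hd =>
      (hPr.prime _ hEp).not_isUnit ((hPr.cop _ hEp _ hEq hEpq).isUnit_of_dvd' dvd_rfl hd)
    have hxc : IsCoprime x (cP P) := (cmp_cop hPr hei hEp).2 hpnq
    rw [hcP] at hxc
    obtain ⟨u, hu⟩ := (unit_iff x).2 hxc
    have h8 := hl _ _ hEp hEq hEpq x hx1 hx2 u hu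
    -- the Artin map
    have hu' : ((Units.map ((qe E c : _ →* _) :
        (eis ⧸ (sp (E c) : Ideal eis)) →* (𝓞 F ⧸ Ideal.span {c})) u :
          (𝓞 F ⧸ Ideal.span {c})ˣ) : 𝓞 F ⧸ Ideal.span {c}) =
        Ideal.Quotient.mk _ (E.symm x) := by
      rw [Units.coe_map]
      change qe E c (u : _) = _
      rw [hu, qe_mk]
    set y : 𝓞 F := E.symm x with hy
    have hy1 : p ∣ y - q := by
      have := map_dvd E.symm hx1
      rwa [E.symm_apply_apply, map_sub, E.symm_apply_apply] at this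
    have hy2 : ∀ r ∈ S, r ≠ p → r ∣ y - 1 := by
      intro r hr hrp
      have := map_dvd E.symm (hx2 (E r) (Finset.mem_image_of_mem _ hr) (fun hh => hrp (hinj hh)))
      rwa [E.symm_apply_apply, map_sub, map_one] at this
    have hcopS : ∀ r ∈ S, ¬ r ∣ y := by
      intro r hr hd
      by_cases hrp : r = p
      · subst hrp
        have h9 : r ∣ q := by
          have := hd.sub hy1
          rwa [sub_sub_cancel] at this
        exact hpq (cop_F hζ (hS r hr).1 (hS q hq).1 (hS' r hr).2 (hS' q hq).2 h9)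
      · have h9 : r ∣ 1 := by
          have := hd.sub (hy2 r hr hrp)
          rwa [sub_sub_cancel] at this
        exact (hS r hr).1.not_isUnit (isUnit_of_dvd_one h9)
    have h10 := art_idx' hζ hS hc h T.root hcopS hu' (j := fun r => if r = p then ix hζ q p else 0)
      (fun r hr => by
        by_cases hrp : r = p
        · simp only [if_pos hrp]
          rw [hrp]
          exact (ix_spec hζ hS hp hq hpq).congr hy1
        · simp only [if_neg hrp]
          have h11 : Idx hζ r 1 0 := by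
            unfold Idx
            rw [one_pow, pow_zero, sub_self]
            exact dvd_zero _
          exact h11.congr (hy2 r hr hrp))
    have h12 : ∑ r ∈ S, e r * (if r = p then ix hζ q p else 0) = e p * ix hζ q p := by
      rw [Finset.sum_eq_single_of_mem p hp (fun r _ hrp => by rw [if_neg hrp, mul_zero]),
        if_pos rfl]
    rw [h12] at h10
    have h13 : art (Units.map ((qe E c : _ →* _) :
        (eis ⧸ (sp (E c) : Ideal eis)) →* (𝓞 F ⧸ Ideal.span {c})) u) = τ ^ l (E p) (E q) := h8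
    rw [h13, hτp] at h10
    have h14 : (algebraMap F K ζ) ^ (i * l (E p) (E q)) = (algebraMap F K ζ) ^ (e p * ix hζ q p) := by
      rw [map_pow] at h10
      exact mul_right_cancel₀ hβ0 h10
    have h16 : (((i * l (E p) (E q) : ℕ)) : ZMod 3) = ((e p * ix hζ q p : ℕ) : ZMod 3) :=
      pow_eq3 hζK h14
    push_cast at h16
    calc ((l (E p) (E q) : ℕ) : ZMod 3) = (i * i) * (l (E p) (E q) : ℕ) := by rw [hκ, one_mul]
      _ = i * (i * (l (E p) (E q) : ℕ)) := by ring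
      _ = e p * (i * ix hζ q p) := by rw [h16]; ring
  -- the tree sum
  have hsP : ((s P : ℤ) : ZMod 3) ≠ 0 := by
    refine Pool.Agent.H81.Tree.tree_ne eis P (fun q => ((e (E.symm q) : ℕ) : ZMod 3))
      (fun q => ((a (E.symm q) : ℤ) : ZMod 3))
      (fun x y => (i : ZMod 3) * (ix hζ (E.symm x) (E.symm y) : ℕ)) ?_ ?_ ?_ ?_
      (fun R => ((s R : ℤ) : ZMod 3)) ?_ ?_
    · intro p hp
      obtain ⟨q, hq, rfl⟩ := Finset.mem_image.1 hp
      rw [E.symm_apply_apply, Ne, ZMod.natCast_eq_zero_iff]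
      exact T.exps q hq
    · intro p hp q hq
      obtain ⟨p', hp', rfl⟩ := Finset.mem_image.1 hp
      obtain ⟨q', hq', rfl⟩ := Finset.mem_image.1 hq
      by_cases hpq : p' = q'
      · rw [hpq]
      · simp only [E.symm_apply_apply]
        congr 1
        have h1 := ix_spec hζ hS hp' hq' hpq
        have h2 := ix_spec hζ hS hq' hp' (Ne.symm hpq)
        have h3 : Idx hζ q' p' (ix hζ q' p') := idx_symm hζ (hS p' hp').1 (hS p' hp').2
          (hS q' hq').1 (hS q' hq').2 (fun hd => hpq (cop_F hζ (hS q' hq').1 (hS p' hp').1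
            (hS' q' hq').2 (hS' p' hp').2 hd).symm) h1
        exact z_pow_eq hζ (h2.uniq (not_dvd_three (hS q' hq').1 (hS q' hq').2) h3)
    · intro x hx
      obtain ⟨c', hc'⟩ := T.ker (fun q => (x (E q)).val) (by
        intro t ht
        have h1 := hx (E t) (Finset.mem_image_of_mem _ ht)
        have herase : P.erase (E t) = (S.erase t).image E := by
          ext y
          simp only [Finset.mem_erase, hPdef, Finset.mem_image]
          constructor
          · rintro ⟨h2, q, hq, rfl⟩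
            exact ⟨q, ⟨fun hh => h2 (by rw [hh]), hq⟩, rfl⟩
          · rintro ⟨q, ⟨h2, hq⟩, rfl⟩
            exact ⟨fun hh => h2 (hinj hh), q, hq, rfl⟩
        rw [herase, Finset.sum_image (fun a _ b _ hab => hinj hab)] at h1
        simp only [E.symm_apply_apply] at h1
        have h2 : ((∑ q ∈ S.erase t, (e t * (x (E q)).val + 2 * e q * (x (E t)).val) *
            ix hζ q t : ℕ) : ZMod 3) = 0 := by
          have h3 : ((i : ℕ) : ZMod 3) * ((∑ q ∈ S.erase t,
              (e t * (x (E q)).val + 2 * e q * (x (E t)).val) * ix hζ q t : ℕ) : ZMod 3) = 0 := by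
            rw [← h1]
            push_cast
            rw [Finset.mul_sum]
            refine Finset.sum_congr rfl fun q hq => ?_
            simp only [ZMod.natCast_zmod_val]
            have h2' : (2 : ZMod 3) = -1 := rfl
            rw [h2']
            ring
          exact (mul_eq_zero.1 h3).resolve_left hκ0
        have h4 := idx_prod (hζ := hζ) (p := t) (S.erase t)
          (fun q => e t * (x (E q)).val + 2 * e q * (x (E t)).val) (fun q => ix hζ q t)
          (fun q hq => ix_spec hζ hS ht (Finset.mem_erase.1 hq).2 (Finset.mem_erase.1 hq).1.symm)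
        have h5 : Idx hζ t (∏ q ∈ S.erase t, q ^ (e t * (x (E q)).val + 2 * e q * (x (E t)).val)) 0 := by
          unfold Idx at h4 ⊢
          obtain ⟨m, hm⟩ := (ZMod.natCast_eq_zero_iff _ _).1 h2
          rw [hm, pow_mul, z_cube, one_pow] at h4
          rw [pow_zero]
          exact h4
        exact cube_of_idx hζ (hS t ht).1 (not_dvd_three (hS t ht).1 (hS t ht).2) h5)
      refine ⟨(c' : ZMod 3), fun q hq => ?_⟩
      obtain ⟨q', hq', rfl⟩ := Finset.mem_image.1 hq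
      have := hc' q' hq'
      simp only [ZMod.natCast_zmod_val] at this
      rw [E.symm_apply_apply]
      exact this
    · rw [hPdef, Finset.sum_image (fun a _ b _ hab => hinj hab)]
      simp only [E.symm_apply_apply]
      intro h0
      apply hsum
      have h0' : ((∑ p ∈ S, (e p : ℤ) * a p : ℤ) : ZMod 3) = 0 := by
        push_cast
        exact h0
      exact_mod_cast (ZMod.intCast_zmod_eq_zero_iff_dvd _ 3).1 h0'
    · intro p _
      show ((s {p} : ℤ) : ZMod 3) = _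
      rw [hs1]
    · intro R hR hR2
      have h1 := congrArg (fun t : ℤ => (t : ZMod 3)) (hs2 R hR2)
      simp only [Int.cast_zero] at h1
      rw [← h1]
      push_cast
      refine Finset.sum_congr rfl fun J hJ => ?_
      congr 1
      refine Finset.prod_congr rfl fun q hq => Finset.sum_congr rfl fun p hp => ?_
      obtain ⟨-, hJR⟩ := Finset.mem_erase.1 hJ
      rw [Finset.mem_powerset] at hJR
      obtain ⟨hpR, hpJ⟩ := Finset.mem_sdiff.1 hp
      obtain ⟨p', hp', rfl⟩ := Finset.mem_image.1 (hR hpR)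
      obtain ⟨q', hq', rfl⟩ := Finset.mem_image.1 (hR (hJR hq))
      have hpq : p' ≠ q' := by
        rintro rfl
        exact hpJ hq
      rw [hrel p' hp' q' hq' hpq, E.symm_apply_apply, E.symm_apply_apply]
  have hsP' : ¬ (3 : ℤ) ∣ s P := by
    intro hd
    exact hsP ((ZMod.intCast_zmod_eq_zero_iff_dvd _ 3).2 (by exact_mod_cast hd))
  obtain ⟨Lf, a1, a2, a3, a5, a6⟩ := analyticX' hcP.symm hPr hP9 D (ram3_of hun3 _) h7 hTT hτ' hPk
    hω (l := l) (fun p hp q hq hpq => hl p q hp hq hpq) ha' (fun q _ => hs1 q) hs2 hsP'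
  refine ⟨Lf, a1, a2, a3, fun Λ hΛ2 hΛ3 => ?_⟩
  obtain ⟨Ω, hC⟩ := cur_of hΛ2 hΛ3
  obtain ⟨U, hU⟩ := Pool.Agent.Y715.T.Fin.exists_over_three
  have b1 := a5 Λ Ω hC _ U.valuation hU
  obtain ⟨r, hr⟩ := a6 Λ Ω hC
  rw [h7] at b1 hr
  obtain ⟨t, ht⟩ := sqrt_disc (F := F) (K := K) (by rw [hn]; exact hodd)
  set T' := ((Real.sqrt |((3 : ℤ) : ℝ)| : ℝ) : ℂ) with hTdef
  have hSS : T' * T' = 3 := by
    rw [hTdef, ← Complex.ofReal_mul, Real.mul_self_sqrt (abs_nonneg _)]
    norm_num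
  have hS0 : T' ≠ 0 := by
    intro h0
    rw [h0, mul_zero] at hSS
    norm_num at hSS
  have hΩ := hC.lat.ne
  have hΩc : (starRingEnd ℂ) Ω ≠ 0 := (map_ne_zero _).2 hΩ
  have hval : U.valuation (Lf 1 * (Real.sqrt |(discr K : ℝ)| : ℝ) /
      ((2 * |((starRingEnd ℂ) Λ.ω₁ * Λ.ω₂).im| : ℝ) : ℂ) ^ 3 ^ n * 27) =
      U.valuation 3 ^ (2 * n * k) := by
    have h9 := v_sqrt3 hun3 (v := U.valuation) hU hn
    rw [area hC.lat, mul_pow, map_mul, map_div₀, map_mul, map_mul, map_pow, h9]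
    rw [map_div₀] at b1
    have hvS : U.valuation T' ^ 3 ^ n ≠ 0 := pow_ne_zero _ ((Valuation.ne_zero_iff _).2 hS0)
    have hvO : U.valuation ((Ω * (starRingEnd ℂ) Ω) ^ 3 ^ n) ≠ 0 :=
      (Valuation.ne_zero_iff _).2 (pow_ne_zero _ (mul_ne_zero hΩ hΩc))
    refine Eq.trans ?_ b1
    congr 1
    field_simp
  obtain ⟨j, hj⟩ := hodd
  have heq : Lf 1 * (Real.sqrt |(discr K : ℝ)| : ℝ) /
      ((2 * |((starRingEnd ℂ) Λ.ω₁ * Λ.ω₂).im| : ℝ) : ℂ) ^ 3 ^ n * 27 =
      ((r * t / 3 ^ j * 27 : ℚ) : ℂ) := by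
    rw [area hC.lat, ht, ← hTdef, mul_pow]
    have e1 : T' ^ 3 ^ n = 3 ^ j * T' := by
      rw [hj, pow_succ, pow_mul, pow_two, hSS]
    rw [e1]
    push_cast
    rw [← hr]
    field_simp
  rw [heq] at hval
  exact ⟨_, eq_padic hU hval, heq⟩

end

end Pool.Agent.H62
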