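import Mathlib
import Pool.Graph.R_pool_sql_team_seeded_35f281b4.K7.H73.L3.H
import Pool.Graph.R_pool_sql_team_seeded_63374d34.N883.T.Fin
import Pool.Agent.H62.Loc

/-!
# The Tamagawa numbers
-/

set_option autoImplicit false
set_option linter.unusedSectionVars false

open NumberField IsDedekindDomain WeierstrassCurve WithZero
open scoped Classical

namespace Pool.Agent.H62

open Pool.Agent.Y682 (vv norm_le_iff)
open Pool.Agent.Y700 (VR)
open Pool.Agent.Y655.XT (vr_of_smul)
open Pool.Agent.Y696 (E0 E0_Δ E0_map E27)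
open Pool.Agent.K7.H73.L3 (gens ns Itg itg_of cc mf CE Cv Cv_min mineq mf_eq Δ_ne away)

section gen

variable {L : Type} [Field L] {V : Valuation L ℤᵐ⁰} {W W' : WeierstrassCurve L} {u r s t : L}

lemma gens_iff (h : VR W W' u r s t) (hD : W'.Δ ≠ 0) (hu : V u = 1) (hs : V s ≤ 1)
    (P : W'.toAffine.Point) : h.fn hD P ∈ gens V W ↔ P ∈ gens V W' := by
  cases P with
  | zero =>
    constructor
    · intro _ x y hh e
      cases e
    · intro _ x y hh e
      have e0 : h.fn hD Affine.Point.zero = 0 := rfl
      rw [e0] at e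
      cases e
  | some x y hn =>
    rw [VR.fn_some]
    set A' := 2 * y + W'.a₁ * x + W'.a₃ with hA'
    set B' := 3 * x ^ 2 + 2 * W'.a₂ * x + W'.a₄ - W'.a₁ * y with hB'
    set X := u ^ 2 * x + r with hX
    set Y := u ^ 3 * y + u ^ 2 * s * x + t with hY
    have hA : 2 * Y + W.a₁ * X + W.a₃ = u ^ 3 * A' := by
      rw [hX, hY, hA']
      linear_combination (-u ^ 2 * x) * h.e1 - h.e3
    have hB : 3 * X ^ 2 + 2 * W.a₂ * X + W.a₄ - W.a₁ * Y = u ^ 4 * B' + s * (u ^ 3 * A') := by
      rw [← hA, hX, hY, hB']
      linear_combination (-(2 * u ^ 2 * x)) * h.e2 - h.e4 + (u ^ 3 * y) * h.e1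
    have hVA : V (u ^ 3 * A') = V A' := by rw [map_mul, map_pow, hu, one_pow, one_mul]
    have hVB : V (u ^ 4 * B') = V B' := by rw [map_mul, map_pow, hu, one_pow, one_mul]
    have hsA : V (s * (u ^ 3 * A')) ≤ V A' := by
      rw [map_mul, hVA]
      exact mul_le_of_le_one_left' hs
    have key : (1 ≤ V (u ^ 3 * A') ∨ 1 ≤ V (u ^ 4 * B' + s * (u ^ 3 * A'))) ↔
        (1 ≤ V A' ∨ 1 ≤ V B') := by
      rw [hVA]
      by_cases h1 : 1 ≤ V A'
      · exact ⟨fun _ => Or.inl h1, fun _ => Or.inl h1⟩
      · rw [not_le] at h1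
        constructor
        · rintro (h2 | h2)
          · exact Or.inl h2
          · right
            by_contra h3
            rw [not_le] at h3
            have h4 : V (u ^ 4 * B' + s * (u ^ 3 * A')) < 1 :=
              lt_of_le_of_lt (V.map_add _ _) (max_lt (by rw [hVB]; exact h3)
                (lt_of_le_of_lt hsA h1))
            exact absurd h2 (not_le.2 h4)
        · rintro (h2 | h2)
          · exact Or.inl h2
          · right
            rw [Valuation.map_add_eq_of_lt_left, hVB]
            · exact h2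
            · rw [hVB]
              exact lt_of_lt_of_le (lt_of_le_of_lt hsA h1) h2
    constructor
    · intro hg x' y' h' e
      rw [Affine.Point.some.injEq] at e
      obtain ⟨rfl, rfl⟩ := e
      have := hg X Y _ rfl
      rw [hA, hB] at this
      exact key.1 this
    · intro hg x' y' h' e
      rw [Affine.Point.some.injEq] at e
      obtain ⟨rfl, rfl⟩ := e
      rw [hA, hB]
      exact key.2 (hg x y hn rfl)

/-- the index does not change under changes of coordinates -/
theorem ns_index (h : VR W W' u r s t) (hD : W'.Δ ≠ 0) (hu : V u = 1) (hs : V s ≤ 1) :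
    (ns V W').index = (ns V W).index := by
  have h1 : (ns V W).comap ((h.equiv hD : W'.toAffine.Point ≃+ W.toAffine.Point) :
      W'.toAffine.Point →+ W.toAffine.Point) = ns V W' := by
    have h2 : gens V W = (h.equiv hD) '' gens V W' := by
      ext P
      constructor
      · intro hP
        obtain ⟨Q, rfl⟩ := (h.equiv hD).surjective P
        rw [VR.equiv_apply] at hP
        exact ⟨Q, (gens_iff h hD hu hs Q).1 hP, rfl⟩
      · rintro ⟨Q, hQ, rfl⟩
        rw [VR.equiv_apply]
        exact (gens_iff h hD hu hs Q).2 hQ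
    have h3 : ns V W = (ns V W').map ((h.equiv hD : W'.toAffine.Point ≃+ W.toAffine.Point) :
        W'.toAffine.Point →+ W.toAffine.Point) := by
      unfold ns
      rw [AddMonoidHom.map_closure, h2]
      rfl
    rw [h3]
    exact AddSubgroup.comap_map_eq_self_of_injective (h.equiv hD).injective _
  rw [← h1]
  exact AddSubgroup.index_comap_of_surjective _ (h.equiv hD).surjective

end gen

section three

/-- the index for the equation `y² + y = x³` -/
theorem ns_three {L : Type} [Field L] {V : Valuation L ℤᵐ⁰} {ω : L} (hI : ω ^ 2 + ω + 1 = 0)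
    (hl : V (2 * ω + 1) = exp (-1 : ℤ)) : (ns V (E0 L)).index = 3 := by
  have hθ : (2 * ω + 1) ^ 2 = -3 := by linear_combination 4 * hI
  obtain ⟨H, h1, h2⟩ := Pool.Agent.N883.T.tam3 V hθ hl (W := E0 L) ⟨rfl, rfl, rfl, rfl, rfl⟩
  have h3 := v_three hI hl
  have hHns : ns V (E0 L) = H := by
    have hg : gens V (E0 L) = H := by
      ext P
      rw [SetLike.mem_coe, h1]
      cases P with
      | zero => exact ⟨fun _ => trivial, fun _ x y hh e => by cases e⟩
      | some x y hn =>
        constructor
        · intro hg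
          exact hg x y hn rfl
        · intro hg x' y' h' e
          rw [Affine.Point.some.injEq] at e
          obtain ⟨rfl, rfl⟩ := e
          exact hg
    unfold ns
    rw [hg, AddSubgroup.closure_eq]
  rw [hHns]
  rcases (Nat.dvd_prime Nat.prime_three).1 h2 with h4 | h4
  · exfalso
    rw [AddSubgroup.index_eq_one] at h4
    -- the point `(-1, ω)`
    have hne3 : (3 : L) ≠ 0 := by
      intro h0
      rw [h0, map_zero] at h3
      exact exp_ne_zero h3.symm
    have hl0 : (2 * ω + 1) ≠ 0 := by
      intro h0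
      rw [h0, map_zero] at hl
      exact exp_ne_zero hl.symm
    have hns : (E0 L).toAffine.Nonsingular (-1) ω := by
      rw [Affine.nonsingular_iff, Affine.equation_iff]
      refine ⟨?_, Or.inr ?_⟩
      · show ω ^ 2 + 0 * (-1) * ω + 1 * ω = (-1) ^ 3 + 0 * (-1) ^ 2 + 0 * (-1) + 0
        linear_combination hI
      · show ω ≠ -ω - 0 * (-1) - 1
        intro h0
        apply hl0
        linear_combination h0
    have hmem : (Affine.Point.some (-1) ω hns : (E0 L).toAffine.Point) ∈ H := by
      rw [h4]
      trivial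
    rw [h1] at hmem
    have h5 : 1 ≤ V (2 * ω + (E0 L).a₁ * (-1) + (E0 L).a₃) ∨
        1 ≤ V (3 * (-1) ^ 2 + 2 * (E0 L).a₂ * (-1) + (E0 L).a₄ - (E0 L).a₁ * ω) := hmem
    have e1 : 2 * ω + (E0 L).a₁ * (-1) + (E0 L).a₃ = 2 * ω + 1 := by
      show 2 * ω + 0 * (-1) + 1 = _
      ring
    have e2 : 3 * (-1) ^ 2 + 2 * (E0 L).a₂ * (-1) + (E0 L).a₄ - (E0 L).a₁ * ω = 3 := by
      show 3 * (-1) ^ 2 + 2 * 0 * (-1) + 0 - 0 * ω = 3
      ring
    rw [e1, e2, hl, h3, ← exp_zero, exp_le_exp, exp_le_exp] at h5
    omega
  · exact h4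

end three

section min

variable {K : Type} [Field K] [NumberField K] (v : HeightOneSpectrum (𝓞 K))

/-- the elements of the completion with the valuation one for the maximal ideal of its ring of
integers -/
lemma val_one_of {x : v.adicCompletion K} (h : IsDedekindDomain.HeightOneSpectrum.valuation
    (v.adicCompletion K) (IsDiscreteValuationRing.maximalIdeal (v.adicCompletionIntegers K)) x = 1) :
    Valued.v x = 1 := by
  set R := v.adicCompletionIntegers K with hR
  have key : ∀ x : v.adicCompletion K, Valued.v x ≤ 1 →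
      IsDedekindDomain.HeightOneSpectrum.valuation (v.adicCompletion K)
        (IsDiscreteValuationRing.maximalIdeal R) x = 1 → Valued.v x = 1 := by
    intro x hx h
    let d : R := ⟨x, hx⟩
    have hd : algebraMap R (v.adicCompletion K) d = x := rfl
    have hdu : IsUnit d := by
      by_contra hnu
      have hmem : d ∈ IsLocalRing.maximalIdeal R := (IsLocalRing.mem_maximalIdeal _).2 hnu
      have hlt : IsDedekindDomain.HeightOneSpectrum.valuation (v.adicCompletion K)
          (IsDiscreteValuationRing.maximalIdeal R) (algebraMap R (v.adicCompletion K) d) < 1 :=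
        (IsDedekindDomain.HeightOneSpectrum.valuation_lt_one_iff_mem (K := v.adicCompletion K)
          (IsDiscreteValuationRing.maximalIdeal R) d).2 hmem
      rw [hd, h] at hlt
      exact lt_irrefl _ hlt
    have h9 : Valued.v (d : v.adicCompletionIntegers K).1 = 1 :=
      (HeightOneSpectrum.adicCompletionIntegers.isUnit_iff_valued_eq_one (K := K) (v := v)
        (a := (d : v.adicCompletionIntegers K))).1 hdu
    exact h9
  by_cases hx : Valued.v x ≤ 1
  · exact key x hx h
  · rw [not_le] at hx
    have h1 : Valued.v x⁻¹ ≤ 1 := by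
      rw [map_inv₀]
      exact inv_le_one_of_one_le₀ hx.le
    have h2 := key x⁻¹ h1 (by rw [map_inv₀, h, inv_one])
    rw [map_inv₀, inv_eq_one] at h2
    exact h2

/-- two minimal equations -/
theorem minimal_u {W : WeierstrassCurve (v.adicCompletion K)}
    {C : VariableChange (v.adicCompletion K)} (hC : C • E0 (v.adicCompletion K) = W)
    (hm : WeierstrassCurve.IsMinimal (v.adicCompletionIntegers K) W)
    (hm0 : WeierstrassCurve.IsMinimal (v.adicCompletionIntegers K) (E0 (v.adicCompletion K))) :
    Valued.v (C.u : v.adicCompletion K) = 1 := by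
  set R := v.adicCompletionIntegers K with hR
  have e1 : C⁻¹ • W = E0 (v.adicCompletion K) := by rw [← hC, inv_smul_smul]
  have hWI : WeierstrassCurve.IsIntegral R W := inferInstance
  have hEI : WeierstrassCurve.IsIntegral R (E0 (v.adicCompletion K)) := inferInstance
  have h1 := hm.val_Δ_maximal.2 (j := C⁻¹) (by
    show WeierstrassCurve.IsIntegral R (C⁻¹ • W)
    rw [e1]; exact hEI)
  have h2 := hm0.val_Δ_maximal.2 (j := C) (by
    show WeierstrassCurve.IsIntegral R (C • E0 (v.adicCompletion K))
    rw [hC]; exact hWI)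
  simp only [one_smul, e1] at h1
  simp only [one_smul, hC] at h2
  have v1 : ((WeierstrassCurve.valuation_Δ_aux R W).1 : WithZero (Multiplicative ℤ)) =
      IsDedekindDomain.HeightOneSpectrum.valuation (v.adicCompletion K)
        (IsDiscreteValuationRing.maximalIdeal R) W.Δ :=
    WeierstrassCurve.valuation_Δ_aux_eq_of_isIntegral R _
  have v2 : ((WeierstrassCurve.valuation_Δ_aux R (E0 (v.adicCompletion K))).1 :
      WithZero (Multiplicative ℤ)) = IsDedekindDomain.HeightOneSpectrum.valuation
        (v.adicCompletion K) (IsDiscreteValuationRing.maximalIdeal R) (E0 (v.adicCompletion K)).Δ :=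
    WeierstrassCurve.valuation_Δ_aux_eq_of_isIntegral R _
  have h3 : WeierstrassCurve.valuation_Δ_aux R W =
      WeierstrassCurve.valuation_Δ_aux R (E0 (v.adicCompletion K)) := by
    rcases le_total (WeierstrassCurve.valuation_Δ_aux R W)
      (WeierstrassCurve.valuation_Δ_aux R (E0 (v.adicCompletion K))) with h | h
    · exact le_antisymm h (h1 h)
    · exact le_antisymm (h2 h) h
  have h4 : IsDedekindDomain.HeightOneSpectrum.valuation (v.adicCompletion K)
        (IsDiscreteValuationRing.maximalIdeal R) W.Δ =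
      IsDedekindDomain.HeightOneSpectrum.valuation
        (v.adicCompletion K) (IsDiscreteValuationRing.maximalIdeal R)
          (E0 (v.adicCompletion K)).Δ := by
    rw [← v1, ← v2, h3]
  have hVW := vr_of_smul hC
  have hcz : CharZero (v.adicCompletion K) :=
    charZero_of_injective_algebraMap (algebraMap K (v.adicCompletion K)).injective
  have hD : (E0 (v.adicCompletion K)).Δ ≠ 0 := by
    rw [E0_Δ]
    norm_num
  have hW0 : W.Δ ≠ 0 := by
    intro h0
    apply hD
    rw [hVW.delta, h0, mul_zero]
  rw [hVW.delta, map_mul, map_pow] at h4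
  have h5 : (IsDedekindDomain.HeightOneSpectrum.valuation (v.adicCompletion K)
        (IsDiscreteValuationRing.maximalIdeal R) (C.u : v.adicCompletion K)) ^ 12 = 1 := by
    have h6 := (Valuation.ne_zero_iff (IsDedekindDomain.HeightOneSpectrum.valuation
      (v.adicCompletion K) (IsDiscreteValuationRing.maximalIdeal R))).2 hW0
    exact mul_right_cancel₀ h6 (by rw [one_mul]; exact h4.symm)
  exact val_one_of v ((pow_eq_one_iff_of_nonneg zero_le (by norm_num)).1 h5)

/-- **the local factor above three** -/
theorem cc_three {ω : K} (hI : ω ^ 2 + ω + 1 = 0) (hl : v.valuation K (2 * ω + 1) = exp (-1 : ℤ))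
    (hm0 : WeierstrassCurve.IsMinimal (v.adicCompletionIntegers K)
      ((E27 K).baseChange (v.adicCompletion K))) :
    cc (E27 K) v = 3 ∧ mf (E27 K) v = 1 := by
  have hcz : CharZero (v.adicCompletion K) :=
    charZero_of_injective_algebraMap (algebraMap K (v.adicCompletion K)).injective
  have e : (E27 K).baseChange (v.adicCompletion K) = E0 (v.adicCompletion K) := E0_map _
  have hm := Cv_min (E27 K) v
  have hm0' := hm0
  rw [e] at hm0'
  have hC : Cv (E27 K) v • E0 (v.adicCompletion K) = mineq (E27 K) v := by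
    rw [← e]
    rfl
  have hu := minimal_u v hC hm hm0'
  have hVW := vr_of_smul hC
  -- the valuation
  set Ω := algebraMap K (v.adicCompletion K) ω with hΩ
  have hI' : Ω ^ 2 + Ω + 1 = 0 := by
    rw [hΩ, ← map_pow, ← map_add, ← map_one (algebraMap K (v.adicCompletion K)), ← map_add, hI,
      map_zero]
  have hl' : vv v (2 * Ω + 1) = exp (-1 : ℤ) := by
    have : 2 * Ω + 1 = algebraMap K (v.adicCompletion K) (2 * ω + 1) := by
      rw [map_add, map_mul, map_ofNat, map_one]
    rw [this, Pool.Agent.Y682.vv_coe]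
    exact hl
  have h3 := v_three hI' hl'
  have h2 : vv v 2 = 1 := by
    have e2 : (2 : v.adicCompletion K) = -1 + 3 := by norm_num
    rw [e2, Valuation.map_add_eq_of_lt_left, Valuation.map_neg, map_one]
    rw [Valuation.map_neg, map_one, h3, ← exp_zero]
    exact exp_lt_exp.2 (by norm_num)
  have hitg : Itg (vv v) (mineq (E27 K) v) := itg_of v inferInstance
  have hs : vv v (Cv (E27 K) v).s ≤ 1 := by
    have h4 := hVW.e1
    have h5 : (E0 (v.adicCompletion K)).a₁ = 0 := rfl
    rw [h5, zero_add] at h4
    have h6 := congrArg (vv v) h4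
    rw [map_mul, map_mul, h2, one_mul, show vv v _ = 1 from hu, one_mul] at h6
    rw [← h6]
    exact hitg.a1
  have hD : (mineq (E27 K) v).Δ ≠ 0 := by
    have hD0 : (E0 (v.adicCompletion K)).Δ ≠ 0 := by
      rw [E0_Δ]
      norm_num
    intro h0
    apply hD0
    rw [hVW.delta, h0, mul_zero]
  constructor
  · unfold cc
    rw [ns_index hVW hD hu hs]
    exact ns_three hI' hl'
  · rw [mf_eq Δ_ne, hu, WithZero.log_one, neg_zero, zpow_zero]

/-- **the product of the local factors** -/
theorem CE_three {ω : K} (hI : ω ^ 2 + ω + 1 = 0) {w : HeightOneSpectrum (𝓞 K)}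
    (hl : w.valuation K (2 * ω + 1) = exp (-1 : ℤ))
    (huniq : ∀ v : HeightOneSpectrum (𝓞 K), (3 : 𝓞 K) ∈ v.asIdeal → v = w)
    (hm0 : WeierstrassCurve.IsMinimal (w.adicCompletionIntegers K)
      ((E27 K).baseChange (w.adicCompletion K))) : CE (E27 K) = 3 := by
  obtain ⟨h1, h2⟩ := cc_three w hI hl hm0
  unfold CE
  rw [finprod_eq_single _ w (fun v hv => by
    obtain ⟨h3, h4⟩ := away (k := K) (v := v) (fun h => hv (huniq v h))
    rw [h3, h4]
    norm_num), h1, h2]
  norm_num

end min

end Pool.Agent.H62
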