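import Mathlib
import Pool.Agent.H62.Sel

/-!
# The torsion points
-/

set_option autoImplicit false

namespace Pool.Agent.H62

open NumberField IsDedekindDomain WeierstrassCurve Pool.Agent.Q7.LK Pool.Agent.Q7.CE
open Pool.Agent.Q285.CE Pool.Agent.Q123.CE
open Pool.Agent.TH841.SH.D (Pt)

variable {K : Type} [Field K] [NumberField K] {ω : K}

/-- nine points of order three -/
theorem card_nine_pts (hω : IsPrimitiveRoot ω 3) (hfin : Finite (Pt (ED (1 : K)) K))
    (h3 : ∀ P : Pt (ED (1 : K)) K, (3 : ℕ) • P = 0) : Nat.card (Pt (ED (1 : K)) K) = 9 := by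
  classical
  have hI := quad_of hω
  set φ : Pt (ED (1 : K)) K →+ Pt (ED (1 : K)) K := th hI K with hφ
  -- the square is zero
  have hsq : ∀ P, φ (φ P) = 0 := by
    intro P
    rw [hφ, th_th, h3, neg_zero]
  have hV := isD_base (1 : K) K
  have hone : algebraMap K K (1 : K) = 1 := map_one _
  have hn0 : ((ED (1 : K)).baseChange K).toAffine.Nonsingular 0 0 := by
    refine hV.nons ((map_ne_zero _).2 one_ne_zero) ?_
    rw [hone]
    ring
  have hn1 : ((ED (1 : K)).baseChange K).toAffine.Nonsingular 0 (-1) := by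
    refine hV.nons ((map_ne_zero _).2 one_ne_zero) ?_
    rw [hone]
    ring
  set A : Pt (ED (1 : K)) K := Affine.Point.some 0 0 hn0 with hA
  set B : Pt (ED (1 : K)) K := Affine.Point.some 0 (-1) hn1 with hB
  have hker : (φ.ker : Set (Pt (ED (1 : K)) K)) = {0, A, B} := by
    ext P
    simp only [SetLike.mem_coe, AddMonoidHom.mem_ker, Set.mem_insert_iff, Set.mem_singleton_iff]
    constructor
    · intro h
      rcases th_ker hI K h with h1 | ⟨y, hy, h1⟩
      · exact Or.inl h1
      · right
        have he := (hV.eqn _ _).1 hy.1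
        rw [hone] at he
        have h6 : y * (y + 1) = 0 := by linear_combination he
        rcases mul_eq_zero.1 h6 with h7 | h7
        · left
          subst h7
          exact h1
        · right
          have h8 : y = -1 := by linear_combination h7
          subst h8
          exact h1
    · rintro (rfl | rfl | rfl)
      · exact map_zero _
      · exact th_T hI K hn0
      · exact th_T hI K hn1
  have hAB : A ≠ B := by
    intro h
    rw [hA, hB] at h
    have h1 := (Affine.Point.some.injEq _ _ _ _ _ _).mp h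
    have h2 : (0 : K) = -1 := h1.2
    norm_num at h2
  have hA0 : (0 : Pt (ED (1 : K)) K) ≠ A := fun h => Affine.Point.some_ne_zero _ h.symm
  have hB0 : (0 : Pt (ED (1 : K)) K) ≠ B := fun h => Affine.Point.some_ne_zero _ h.symm
  have hkc : Nat.card φ.ker = 3 := by
    have h1 : Nat.card φ.ker = Set.ncard (φ.ker : Set (Pt (ED (1 : K)) K)) := rfl
    rw [h1, hker]
    exact Set.ncard_eq_three.2 ⟨0, A, B, hA0, hB0, hAB, rfl⟩
  -- the image
  have hle : φ.range ≤ φ.ker := by
    rintro _ ⟨P, rfl⟩
    exact hsq P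
  have hdvd : Nat.card φ.range ∣ 3 := by
    rw [← hkc]
    exact AddSubgroup.card_dvd_of_le hle
  have hne : Nat.card φ.range ≠ 1 := by
    intro h1
    rw [AddSubgroup.card_eq_one] at h1
    have h2 : φ (T' hI K) ∈ φ.range := ⟨_, rfl⟩
    rw [h1, AddSubgroup.mem_bot] at h2
    rcases th_ker hI K h2 with h3 | ⟨y, hy, h3⟩
    · exact Affine.Point.some_ne_zero _ h3
    · have h4 : (-1 : K) = 0 := ((Affine.Point.some.injEq _ _ _ _ _ _).mp h3).1
      norm_num at h4
  have hrc : Nat.card φ.range = 3 := ((Nat.dvd_prime Nat.prime_three).1 hdvd).resolve_left hne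
  have h1 := AddSubgroup.card_mul_index φ.ker
  rw [AddSubgroup.index_ker, hkc, hrc] at h1
  exact h1.symm

end Pool.Agent.H62
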