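import Mathlib
import Pool.Agent.H62.Fin3
import Pool.Agent.H62.SelU
import Pool.Agent.H62.LocAE
import Pool.Agent.H62.LocD
import Pool.Agent.H62.Tam
import Pool.Agent.H62.Tors

/-!
# The arithmetic of the curve over the tower
-/

set_option autoImplicit false
set_option linter.unusedSectionVars false

open scoped Classical

namespace Pool.Agent.H62

open NumberField IsDedekindDomain WithZero WeierstrassCurve
open Pool.Agent.Y696 (E27 Art)
open Pool.Agent.Q7.CE (ED Triv)
open Pool.Agent.TH841.SH.D (Pt)
open Pool.Agent.N883.T (Un3 exists_three min_all3 tors_all3)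

variable {F K : Type} [Field F] [NumberField F] [IsCyclotomicExtension {3} ℚ F] [Field K]
  [NumberField K] [Algebra F K] [IsGalois F K] {ζ : F} {n : ℕ} {c : 𝓞 F}

lemma Tw.zetaK (T : Tw F K ζ n c) : IsPrimitiveRoot (algebraMap F K ζ) 3 :=
  T.zeta.map_of_injective (algebraMap F K).injective

/-- finitely many points, and no elements of order three in the Tate-Shafarevich group -/
theorem Tw.triv (T : Tw F K ζ n c) : Triv (1 : K) := by
  obtain ⟨w, hw⟩ := exists_three K
  exact fin_thm T.zetaK (T.om_ne w hw) fun a ha =>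
    T.sel (ha w).1 (fun v => ae_c3 v (ha v)) hw (ae_lc T.quad w hw (T.lam w hw) (ha w))

/-- the points are of order three -/
theorem Tw.three_smul (T : Tw F K ζ n c) (h3 : Un3 F K) (P : (E27 K).toAffine.Point) :
    (3 : ℕ) • P = 0 := by
  obtain ⟨w, hw⟩ := exists_three K
  have hfin : Finite (E27 K).toAffine.Point := T.triv.1
  -- the order of `P` is a power of three
  have h1 : ∀ m : ℕ, 0 < m → ∀ P : (E27 K).toAffine.Point, m • P = 0 → ∃ k, 3 ^ k • P = 0 := by
    intro m
    induction m using Nat.strong_induction_on with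
    | _ m ih =>
      intro hm P hP
      by_cases h1 : m = 1
      · exact ⟨0, by rw [pow_zero]; rwa [h1] at hP⟩
      · obtain ⟨r, hr, k, rfl⟩ := Nat.exists_prime_and_dvd h1
        have hk : 0 < k := Nat.pos_of_mul_pos_left hm
        have hkm : k < r * k := by
          have := hr.two_le
          nlinarith
        by_cases h3r : r = 3
        · obtain ⟨j, hj⟩ := ih k hkm hk (r • P) (by
            rw [← mul_smul, mul_comm k r]
            exact hP)
          refine ⟨j + 1, ?_⟩
          rw [h3r, ← mul_smul, ← pow_succ] at hj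
          exact hj
        · have h2 : k • P = 0 := tors_all3 h3 hr h3r (k • P) (by
            rw [← mul_smul]
            exact hP)
          exact ih k hkm hk P h2
  obtain ⟨k, hk⟩ := h1 (addOrderOf P) (addOrderOf_pos P) P (addOrderOf_nsmul_eq_zero P)
  exact tors3 T.zetaK (T.om_ne w hw) k (P := P) hk

theorem Tw.card_points (T : Tw F K ζ n c) (h3 : Un3 F K) :
    Nat.card (E27 K).toAffine.Point = 9 :=
  card_nine_pts T.zetaK T.triv.1 fun P => T.three_smul h3 P

/-- the Tamagawa numbers -/
theorem Tw.tam (T : Tw F K ζ n c) (h3 : Un3 F K) (v : HeightOneSpectrum (𝓞 K))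
    (hv : (3 : 𝓞 K) ∈ v.asIdeal) : Pool.Agent.K7.H73.L3.cc (E27 K) v = 3 ∧
      Pool.Agent.K7.H73.L3.mf (E27 K) v = 1 :=
  cc_three v T.quad (T.lam v hv) (min_all3 h3 v)

theorem Tw.prod (T : Tw F K ζ n c) (h3 : Un3 F K) : Pool.Agent.K7.H73.L3.CE (E27 K) = 3 := by
  obtain ⟨w, hw⟩ := exists_three K
  exact CE_three T.quad (T.lam w hw) (fun v hv => T.uniq v w hv hw) (min_all3 h3 w)

/-- the infinite places -/
lemma places (hn : Module.finrank F K = 3 ^ n) : InfinitePlace.nrRealPlaces K = 0 ∧
    InfinitePlace.nrComplexPlaces K = 3 ^ n := by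
  have htc : InfinitePlace.nrRealPlaces K = 0 := by
    obtain ⟨ζ, hζ⟩ := IsCyclotomicExtension.exists_isPrimitiveRoot ℚ F
      (Set.mem_singleton 3) (by norm_num)
    exact InfinitePlace.IsPrimitiveRoot.nrRealPlaces_eq_zero_of_two_lt (k := 3) (by norm_num)
      (hζ.map_of_injective (algebraMap F K).injective)
  have hF2 : Module.finrank ℚ F = 2 := by
    rw [IsCyclotomicExtension.finrank (n := 3) F (Polynomial.cyclotomic.irreducible_rat (by norm_num))]
    rfl
  have h1 := InfinitePlace.card_add_two_mul_card_eq_rank K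
  rw [htc, zero_add, ← Module.finrank_mul_finrank ℚ F K, hF2, hn] at h1
  exact ⟨htc, by omega⟩

end Pool.Agent.H62
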