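import Mathlib
import Pool.Graph.R_pool_sql_team_seeded_3997aac3.Q121.EN.ECOC
import Pool.Graph.R_pool_sql_team_seeded_3997aac3.Q195.EN.ECNV
import Pool.Agent.H62.Sel

/-!
# From classes to elements of the Tate-Shafarevich group
-/

set_option autoImplicit false

namespace Pool.Agent.H62

open WeierstrassCurve NumberField IsDedekindDomain
open Pool.Agent.Q7.CE
open Pool.Agent.Q190.CE
open Pool.Agent.Q121.EN (loc_of loc_cob cube_inf)
open Pool.Agent.Q7.LK (IsPow)
open Pool.Agent.TH841.SH.D (Coch Pt act Gal IsCoc IsCob LocTriv cob)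
open Pool.Agent.TH841.NF.D (Sha IsShaCoc shaCoc)

variable {F : Type} [Field F] [NumberField F] {ω D : F}

/-- the cocycle of a class -/
structure CocOf (ω D a : F) (hD : D ≠ 0) (h : Gal F → ZMod 3) (s : AlgebraicClosure F) : Prop where
  s_ne : s ≠ 0
  s_cube : s ^ 3 = algebraMap F _ a
  hs : ∀ σ : Gal F, σ s = (algebraMap F (AlgebraicClosure F) ω) ^ (h σ).val * s

/-- the cocycle -/
noncomputable def fc (hD : D ≠ 0) (h : Gal F → ZMod 3) : Coch (ED D) :=
  fun σ => tt D (three_ne_zero : (3 : AlgebraicClosure F) ≠ 0) hD (h σ)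

/-- the cocycle of a locally trivial class -/
theorem exists_coc (hω : IsPrimitiveRoot ω 3) (hD : D ≠ 0) {a : F} (ha : a ≠ 0)
    (hA : ∀ v : HeightOneSpectrum (𝓞 F), AE v D a) :
    ∃ (h : Gal F → ZMod 3) (s : AlgebraicClosure F), CocOf ω D a hD h s ∧
      IsShaCoc (ED D) (fc hD h) := by
  have h3 : (3 : AlgebraicClosure F) ≠ 0 := three_ne_zero
  have hw : ω ^ 2 + ω + 1 = 0 := quad_of hω
  obtain ⟨I, hIdef⟩ : ∃ I, I = algebraMap F (AlgebraicClosure F) ω := ⟨_, rfl⟩
  have hI : I ^ 2 + I + 1 = 0 := by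
    rw [hIdef, ← map_pow, ← map_add, ← map_one (algebraMap F (AlgebraicClosure F)), ← map_add, hw, map_zero]
  have hI3 : I ^ 3 = 1 := by linear_combination (I - 1) * hI
  have hfixI : ∀ σ : Gal F, σ I = I := fun σ => by rw [hIdef]; exact σ.commutes ω
  have hprim : IsPrimitiveRoot I 3 := by
    rw [hIdef]
    exact hω.map_of_injective (algebraMap F (AlgebraicClosure F)).injective
  obtain ⟨s, hs3⟩ := IsAlgClosed.exists_pow_nat_eq (algebraMap F (AlgebraicClosure F) a) (n := 3) (by norm_num)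
  have hs0 : s ≠ 0 := by
    intro h0
    rw [h0] at hs3
    apply ha
    apply (algebraMap F (AlgebraicClosure F)).injective
    rw [← hs3, map_zero]
    ring
  have hmod : ∀ i : ℕ, I ^ i = I ^ ((i : ZMod 3)).val := by
    intro i
    rw [ZMod.val_natCast]
    conv_lhs => rw [← Nat.div_add_mod i 3, pow_add, pow_mul, hI3, one_pow, one_mul]
  have hex : ∀ σ : Gal F, ∃ c : ZMod 3, σ s = I ^ c.val * s := by
    intro σ
    obtain ⟨i, hi⟩ := cube_eq hI (x := σ s) (y := s) (by rw [← map_pow, hs3]; exact σ.commutes a)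
    exact ⟨i, by rw [hi, ← hmod]⟩
  choose h hh using hex
  have hinj : ∀ c c' : ZMod 3, I ^ c.val * s = I ^ c'.val * s → c = c' := by
    intro c c' e
    have e1 := mul_right_cancel₀ hs0 e
    exact ZMod.val_injective 3 (hprim.pow_inj (ZMod.val_lt c) (ZMod.val_lt c') e1)
  have hmul : ∀ σ τ, h (σ * τ) = h σ + h τ := by
    intro σ τ
    apply hinj
    rw [← hh, AlgEquiv.mul_apply, hh τ, map_mul, map_pow, hfixI, hh σ, ZMod.val_add]
    have : I ^ (((h σ).val + (h τ).val) % 3) = I ^ ((h σ).val + (h τ).val) := by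
      conv_rhs => rw [← Nat.div_add_mod ((h σ).val + (h τ).val) 3, pow_add, pow_mul, hI3, one_pow, one_mul]
    rw [this, pow_add]
    ring
  have hcont : IsLocallyConstant h := by
    rw [IsLocallyConstant.iff_exists_open]
    intro σ
    have hx : IsIntegral F s := Algebra.IsIntegral.isIntegral s
    have : FiniteDimensional F (IntermediateField.adjoin F {s}) :=
      IntermediateField.adjoin.finiteDimensional hx
    refine ⟨(fun τ => σ⁻¹ * τ) ⁻¹'
      ((IntermediateField.adjoin F {s}).fixingSubgroup : Set (Gal F)),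
      (IntermediateField.fixingSubgroup_isOpen _).preimage (continuous_const_mul _), ?_, ?_⟩
    · show σ⁻¹ * σ ∈ (IntermediateField.adjoin F {s}).fixingSubgroup
      rw [inv_mul_cancel]
      exact one_mem _
    · intro τ hτ
      have h1 : σ⁻¹ * τ ∈ (IntermediateField.adjoin F {s}).fixingSubgroup := hτ
      rw [IntermediateField.mem_fixingSubgroup_iff] at h1
      have h2 := h1 s (IntermediateField.mem_adjoin_simple_self F s)
      rw [AlgEquiv.mul_apply] at h2
      have h4 := congrArg σ h2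
      rw [← AlgEquiv.mul_apply, mul_inv_cancel, AlgEquiv.one_apply] at h4
      apply hinj
      rw [← hh, ← hh, h4]
  have hs : ∀ σ : Gal F, σ s = (algebraMap F (AlgebraicClosure F) ω) ^ (h σ).val * s := by
    intro σ
    rw [← hIdef]
    exact hh σ
  refine ⟨h, s, ⟨hs0, hs3, hs⟩, ⟨⟨?_, ?_⟩, ?_, ?_⟩⟩
  · exact hcont.comp (fun c => (tt D h3 hD c : Pt (ED D) (AlgebraicClosure F)))
  · intro σ τ
    show tt D h3 hD (h (σ * τ)) = tt D h3 hD (h σ) + act (ED D) σ.toAlgHom (tt D h3 hD (h τ))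
    rw [hmul, act_tt _ h3 h3 hD, tt_add]
  · intro v
    have : CharZero (v.adicCompletion F) := charZero_of_injective_algebraMap (algebraMap F _).injective
    obtain ⟨_, u, w', t, hne, hsol⟩ := hA v
    exact loc_of hD (v.adicCompletion F) _ h3 h (fun _ => rfl) hω hw hs0 hs3 hs hne hsol
  · intro v
    have : CharZero v.Completion := charZero_of_injective_algebraMap (algebraMap F _).injective
    obtain ⟨z, hz⟩ := cube_inf hw v (algebraMap F v.Completion a)
    refine loc_of hD v.Completion _ h3 h (fun _ => rfl) hω hw hs0 hs3 hs (u := 1) (w' := z ^ 2) (t := 0)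
      (Or.inl one_ne_zero) ?_
    rw [← hz]
    ring

/-- differences -/
theorem CocOf.sub (hω : IsPrimitiveRoot ω 3) {hD : D ≠ 0} {a b : F} {h k : Gal F → ZMod 3}
    {s t : AlgebraicClosure F} (ha : CocOf ω D a hD h s) (hb : CocOf ω D b hD k t) :
    CocOf ω D (a / b) hD (h - k) (s / t) := by
  have hI3 : (algebraMap F (AlgebraicClosure F) ω) ^ 3 = 1 := by
    rw [← map_pow, hω.pow_eq_one, map_one]
  have hI0 : algebraMap F (AlgebraicClosure F) ω ≠ 0 := by
    intro h0
    rw [h0] at hI3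
    norm_num at hI3
  refine ⟨div_ne_zero ha.s_ne hb.s_ne, ?_, ?_⟩
  · rw [div_pow, ha.s_cube, hb.s_cube, map_div₀]
  · intro σ
    rw [map_div₀, ha.hs, hb.hs]
    have e : (algebraMap F (AlgebraicClosure F) ω) ^ (h σ).val =
        (algebraMap F (AlgebraicClosure F) ω) ^ ((h - k) σ).val *
          (algebraMap F (AlgebraicClosure F) ω) ^ (k σ).val := by
      rw [← pow_add]
      have e1 : h σ = (h - k) σ + k σ := by
        show h σ = h σ - k σ + k σ
        ring
      conv_lhs => rw [e1, ZMod.val_add]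
      conv_rhs => rw [← Nat.div_add_mod (((h - k) σ).val + (k σ).val) 3, pow_add, pow_mul, hI3,
        one_pow, one_mul]
    rw [e]
    have h1 := hb.s_ne
    have h2 := pow_ne_zero (k σ).val hI0
    field_simp

theorem fc_sub (hD : D ≠ 0) (h k : Gal F → ZMod 3) : fc hD (h - k) = fc hD h - fc hD k := by
  funext σ
  show tt D _ hD (h σ - k σ) = tt D _ hD (h σ) - tt D _ hD (k σ)
  rw [eq_sub_iff_add_eq, ← tt_add, sub_add_cancel]

/-- coboundaries come from points -/
theorem cls_of_cob (hω : IsPrimitiveRoot ω 3) {hD : D ≠ 0} {a : F} {h : Gal F → ZMod 3}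
    {s : AlgebraicClosure F} (ha : CocOf ω D a hD h s) (hcob : IsCob (ED D) (fc hD h)) :
    ∃ P : Pt (ED D) F, Cls D F P a := by
  have h3 : (3 : AlgebraicClosure F) ≠ 0 := three_ne_zero
  have h3' : (3 : F) ≠ 0 := three_ne_zero
  have hw : ω ^ 2 + ω + 1 = 0 := quad_of hω
  have ha0 : a ≠ 0 := by
    rintro rfl
    have := ha.s_cube
    rw [map_zero] at this
    exact ha.s_ne (pow_eq_zero_iff three_ne_zero |>.1 this)
  obtain ⟨u, w', t, hne, hsol⟩ := local_AE hD F _ h3 h (fun _ => rfl) (loc_cob F _ hcob) hw ha.s_ne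
    ha.s_cube ha.hs
  have hid : ∀ z : F, algebraMap F F z = z := fun z => rfl
  rw [hid, hid] at hsol
  by_cases ht : t = 0
  · have hu : u ≠ 0 := by
      intro hu
      have hw0 : w' = 0 := by
        have h1 : w' ^ 3 = 0 := by rw [hsol, ht, hu]; ring
        exact pow_eq_zero_iff (three_ne_zero) |>.1 h1
      rcases hne with h1 | h1 | h1
      · exact h1 hu
      · exact h1 hw0
      · exact h1 ht
    have hw'0 : w' ≠ 0 := by
      intro h0
      rw [ht, h0] at hsol
      have h1 : a ^ 2 * u ^ 3 = 0 := by linear_combination -hsol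
      exact mul_ne_zero (pow_ne_zero 2 ha0) (pow_ne_zero 3 hu) h1
    refine ⟨0, ha0, Or.inl ⟨rfl, a * u / w', ?_⟩⟩
    rw [div_pow, eq_div_iff (pow_ne_zero 3 hw'0), hsol, ht]
    ring
  · have h1 : (w' / t) ^ 3 = a ^ 2 * (u / t) ^ 3 + a * D := by
      rw [div_pow, div_pow, hsol]
      field_simp
    obtain ⟨U, hU⟩ : ∃ U, U = u / t := ⟨_, rfl⟩
    obtain ⟨V, hV⟩ : ∃ V, V = w' / t := ⟨_, rfl⟩
    rw [← hU, ← hV] at h1
    by_cases hU0 : U = 0
    · refine ⟨mkP h3' hD 0 0 (by ring), ha0, Or.inr (Or.inl ⟨⟨_, rfl⟩, V, ?_⟩)⟩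
      rw [h1, hU0]
      show a * D = _
      ring
    · have hc : (a * U ^ 3) ^ 2 + algebraMap F F D * (a * U ^ 3) = (U * V) ^ 3 := by
        rw [hid]
        linear_combination -(U ^ 3) * h1
      refine ⟨mkP h3' hD (U * V) (a * U ^ 3) hc, ha0, Or.inr (Or.inr ⟨U * V, a * U ^ 3, _, 1 / U, rfl,
        mul_ne_zero ha0 (pow_ne_zero 3 hU0), one_div_ne_zero hU0, ?_⟩)⟩
      field_simp

end Pool.Agent.H62
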