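import Mathlib
import Pool.Graph.R_pool_sql_team_seeded_3997aac3.Q38.CE.ERS
import Pool.Graph.R_pool_sql_team_seeded_3997aac3.Q195.EN.ECNV

/-!
# Indices in finitely generated groups
-/

set_option autoImplicit false

namespace Pool.Agent.H62

open Pool.Agent.Q38.CE (T3 mem_T3)
open Pool.Agent.Q195.EN (idx_range)

section

variable {M : Type} [AddCommGroup M]

/-- a finitely generated group modulo three, modulo the torsion -/
theorem exists_map2 (hfg : AddGroup.FG M) :
    ∃ f : M →+ (Fin (Module.finrank ℤ M) → ZMod 3), Function.Surjective f ∧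
      f.ker ≤ (nsmulAddMonoidHom 3 : M →+ M).range ⊔ (Submodule.torsion ℤ M).toAddSubgroup := by
  have hM : Module.Finite ℤ M := Module.Finite.iff_addGroup_fg.2 hfg
  have hr : Module.finrank ℤ (M ⧸ Submodule.torsion ℤ M) = Module.finrank ℤ M :=
    finrank_quotient_eq_of_le_torsion le_rfl
  have hfree : Module.Free ℤ (M ⧸ Submodule.torsion ℤ M) := inferInstance
  let b := Module.finBasisOfFinrankEq ℤ (M ⧸ Submodule.torsion ℤ M) hr
  let g : (Fin (Module.finrank ℤ M) → ℤ) →+ (Fin (Module.finrank ℤ M) → ZMod 3) :=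
    { toFun := fun v i => (v i : ZMod 3)
      map_zero' := by
        funext i
        simp
      map_add' := by
        intro v w
        funext i
        simp }
  have hg : Function.Surjective g := by
    intro v
    refine ⟨fun i => ((v i).val : ℤ), ?_⟩
    funext i
    show (((v i).val : ℤ) : ZMod 3) = v i
    rw [Int.cast_natCast, ZMod.natCast_zmod_val]
  refine ⟨g.comp (b.equivFun.toLinearMap.toAddMonoidHom.comp (Submodule.mkQ (Submodule.torsion ℤ M)).toAddMonoidHom),
    ?_, ?_⟩
  · intro v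
    obtain ⟨w, hw⟩ := hg v
    obtain ⟨x, hx⟩ := Submodule.mkQ_surjective (Submodule.torsion ℤ M) (b.equivFun.symm w)
    refine ⟨x, ?_⟩
    show g (b.equivFun (Submodule.mkQ (Submodule.torsion ℤ M) x)) = v
    rw [hx, LinearEquiv.apply_symm_apply, hw]
  · intro x hx
    have hx' : g (b.equivFun (Submodule.mkQ (Submodule.torsion ℤ M) x)) = 0 := hx
    set w := b.equivFun (Submodule.mkQ (Submodule.torsion ℤ M) x) with hw
    have h1 : ∀ i, ∃ c : ℤ, w i = 3 * c := by
      intro i
      have := congrFun hx' i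
      exact (ZMod.intCast_zmod_eq_zero_iff_dvd _ 3).1 this
    choose c hc using h1
    obtain ⟨y, hy⟩ := Submodule.mkQ_surjective (Submodule.torsion ℤ M) (b.equivFun.symm c)
    have h2 : Submodule.mkQ (Submodule.torsion ℤ M) (x - (3 : ℕ) • y) = 0 := by
      rw [map_sub, map_nsmul, hy, sub_eq_zero]
      apply b.equivFun.injective
      rw [← hw, map_nsmul, LinearEquiv.apply_symm_apply]
      funext i
      rw [hc i]
      simp
    have h3 : x - (3 : ℕ) • y ∈ Submodule.torsion ℤ M := by
      rwa [Submodule.mkQ_apply, Submodule.Quotient.mk_eq_zero] at h2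
    have e : x = (3 : ℕ) • y + (x - (3 : ℕ) • y) := by abel
    rw [e]
    exact AddSubgroup.add_mem_sup ⟨y, rfl⟩ h3

/-- the index of `3 M` -/
theorem index_three_le (hfg : AddGroup.FG M) :
    (nsmulAddMonoidHom 3 : M →+ M).range.index ≠ 0 ∧
      (nsmulAddMonoidHom 3 : M →+ M).range.index ≤ 3 ^ Module.finrank ℤ M * Nat.card (T3 M) := by
  have hM : Module.Finite ℤ M := Module.Finite.iff_addGroup_fg.2 hfg
  obtain ⟨f, hf, hker⟩ := exists_map2 hfg
  set H := (nsmulAddMonoidHom 3 : M →+ M).range with hH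
  set T := (Submodule.torsion ℤ M).toAddSubgroup with hT
  have hTfin : Finite T := by
    have h1 : Module.Finite ℤ (Submodule.torsion ℤ M) := inferInstance
    exact Module.finite_of_fg_torsion (Submodule.torsion ℤ M) (Submodule.torsion_isTorsion)
  have h1 : f.ker.index = 3 ^ Module.finrank ℤ M := by
    rw [AddSubgroup.index_ker, AddMonoidHom.range_eq_top.2 hf]
    rw [AddSubgroup.card_top, Nat.card_fun, Nat.card_zmod, Nat.card_eq_fintype_card, Fintype.card_fin]
  have hle : H ≤ f.ker := by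
    rintro _ ⟨x, rfl⟩
    rw [AddMonoidHom.mem_ker]
    show f ((3 : ℕ) • x) = 0
    rw [map_nsmul]
    funext i
    show (3 : ℕ) • (f x i) = 0
    rw [nsmul_eq_mul]
    have : ((3 : ℕ) : ZMod 3) = 0 := ZMod.natCast_self 3
    rw [this, zero_mul]
  have h2 := AddSubgroup.relIndex_mul_index hle
  have h3 : H.relIndex (H ⊔ T) = H.relIndex T := by
    rw [sup_comm]
    exact AddSubgroup.relIndex_sup_right _ _
  have h4 : (nsmulAddMonoidHom 3 : T →+ T).range ≤ H.addSubgroupOf T := by
    rintro _ ⟨x, rfl⟩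
    rw [AddSubgroup.mem_addSubgroupOf]
    exact ⟨(x : M), rfl⟩
  have h5 : H.relIndex T ≠ 0 := (H.addSubgroupOf T).index_ne_zero_of_finite
  have h6 : H.relIndex T ≤ Nat.card (nsmulAddMonoidHom 3 : T →+ T).ker := by
    rw [← idx_range]
    exact Nat.le_of_dvd (Nat.pos_of_ne_zero (AddSubgroup.index_ne_zero_of_finite))
      (AddSubgroup.index_dvd_of_le h4)
  have hT3 : ∀ x ∈ T3 M, x ∈ T := by
    intro x hx
    refine ⟨⟨3, mem_nonZeroDivisors_of_ne_zero (by norm_num)⟩, ?_⟩
    show (3 : ℤ) • x = 0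
    rw [mem_T3] at hx
    rw [← hx, ← natCast_zsmul]
    rfl
  have hfin3 : Finite (T3 M) := Finite.of_injective (fun x : T3 M => (⟨x.1, hT3 x.1 x.2⟩ : T))
    fun x y h => Subtype.ext (congrArg (fun z : T => (z : M)) h)
  have h7 : Nat.card (nsmulAddMonoidHom 3 : T →+ T).ker ≤ Nat.card (T3 M) := by
    refine Nat.card_le_card_of_injective (fun x => (⟨x.1.1, ?_⟩ : T3 M)) ?_
    · have := x.2
      rw [AddMonoidHom.mem_ker] at this
      exact congrArg (fun z : T => (z : M)) this
    · intro x y h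
      exact Subtype.ext (Subtype.ext (congrArg (fun z : T3 M => (z : M)) h))
  have h8 : H.relIndex f.ker ≤ H.relIndex T := by
    rw [← h3]
    exact AddSubgroup.relIndex_le_of_le_right hker (by rw [h3]; exact h5)
  have h9 : H.relIndex f.ker ≠ 0 := by
    intro h0
    have hpos : H.relIndex (H ⊔ T) ≠ 0 := by rw [h3]; exact h5
    exact hpos (by
      exact absurd (AddSubgroup.relIndex_eq_zero_of_le_right hker h0) hpos)
  rw [← h2, h1]
  refine ⟨mul_ne_zero h9 (pow_ne_zero _ (by norm_num)), ?_⟩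
  rw [mul_comm]
  exact Nat.mul_le_mul_left _ (h8.trans (h6.trans h7))

/-- two endomorphisms with product three and the same image -/
theorem index_sq {u v : M →+ M} (huv : ∀ x, u (v x) = (3 : ℕ) • x) (hr : u.range = v.range)
    (hk : u.ker ≤ v.range) :
    (nsmulAddMonoidHom 3 : M →+ M).range.index = v.range.index * v.range.index := by
  set H := (nsmulAddMonoidHom 3 : M →+ M).range with hH
  have h1 : v.range.map u = H := by
    ext x
    constructor
    · rintro ⟨_, ⟨y, rfl⟩, rfl⟩
      exact ⟨y, (huv y).symm⟩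
    · rintro ⟨y, rfl⟩
      exact ⟨v y, ⟨y, rfl⟩, huv y⟩
  have h2 : H ≤ v.range := by
    rw [← hr, ← h1]
    rintro _ ⟨y, -, rfl⟩
    exact ⟨y, rfl⟩
  have h3 : H.comap u = v.range := by
    rw [← h1]
    ext x
    constructor
    · rintro ⟨y, hy, hxy⟩
      have h4 : x - y ∈ u.ker := by
        rw [AddMonoidHom.mem_ker, map_sub, hxy, sub_self]
      have e : x = y + (x - y) := by abel
      rw [e]
      exact v.range.add_mem hy (hk h4)
    · intro hx
      exact ⟨x, hx, rfl⟩
  have h4 : H.relIndex v.range = v.range.index := by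
    have h5 : (H.comap u).index = H.relIndex u.range := Pool.Agent.Q38.CE.index_comap' u H
    rw [h3, hr] at h5
    exact h5.symm
  rw [← AddSubgroup.relIndex_mul_index h2, h4]

/-- nine elements -/
theorem card_nine_of {φ : M →+ M} (hsq : ∀ P, φ (φ P) = 0) (hkc : Nat.card φ.ker = 3)
    (hne : ∃ P, φ P ≠ 0) : Nat.card M = 9 := by
  have hle : φ.range ≤ φ.ker := by
    rintro _ ⟨P, rfl⟩
    exact hsq P
  have hdvd : Nat.card φ.range ∣ 3 := by
    rw [← hkc]
    exact AddSubgroup.card_dvd_of_le hle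
  have hne1 : Nat.card φ.range ≠ 1 := by
    intro h1
    rw [AddSubgroup.card_eq_one] at h1
    obtain ⟨P, hP⟩ := hne
    have h2 : φ P ∈ φ.range := ⟨_, rfl⟩
    rw [h1, AddSubgroup.mem_bot] at h2
    exact hP h2
  have hrc : Nat.card φ.range = 3 := ((Nat.dvd_prime Nat.prime_three).1 hdvd).resolve_left hne1
  have h1 := AddSubgroup.card_mul_index φ.ker
  rw [AddSubgroup.index_ker, hkc, hrc] at h1
  exact h1.symm

end

end Pool.Agent.H62
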