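import Mathlib
import Pool.Agent.H62.Coc
import Pool.Agent.H62.Grp
import Pool.Agent.H62.Tors

/-!
# The descent: classes, points and elements of the Tate-Shafarevich group
-/

set_option autoImplicit false

namespace Pool.Agent.H62

open WeierstrassCurve NumberField IsDedekindDomain
open Pool.Agent.Q7.CE
open Pool.Agent.Q190.CE
open Pool.Agent.Q285.CE Pool.Agent.Q123.CE
open Pool.Agent.Q38.CE (T3 mem_T3)
open Pool.Agent.Q7.LK (IsPow)
open Pool.Agent.TH841.SH.D (Coch Pt act Gal IsCoc IsCob LocTriv cob)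
open Pool.Agent.TH841.NF.D (Sha IsShaCoc shaCoc)

variable {K : Type} [Field K] [NumberField K] {ω : K}

/-- the kernel of `1 - ω` -/
lemma card_ker_th (hI : ω ^ 2 + ω + 1 = 0) : Nat.card (th hI K).ker = 3 :=
  Pool.Agent.Q195.EN.card_ker (F := K) one_ne_zero hI

lemma th_sq_T' (hI : ω ^ 2 + ω + 1 = 0) : th hI K (th hI K (T' hI K)) = 0 := by
  rw [th_th, ← map_nsmul, T'_three, map_zero, neg_zero]

lemma th_T'_ne (hI : ω ^ 2 + ω + 1 = 0) : th hI K (T' hI K) ≠ 0 := by
  intro h2
  rcases th_ker hI K h2 with h3 | ⟨y, hy, h3⟩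
  · exact Affine.Point.some_ne_zero _ h3
  · have h4 : (-1 : K) = 0 := ((Affine.Point.some.injEq _ _ _ _ _ _).mp h3).1
    norm_num at h4

lemma ker_le_range (hI : ω ^ 2 + ω + 1 = 0) : (th hI K).ker ≤ (th hI K).range := by
  have hp : Fact (Nat.card (th hI K).ker).Prime := ⟨by rw [card_ker_th]; exact Nat.prime_three⟩
  have h1 := ((th hI K).range.addSubgroupOf (th hI K).ker).eq_bot_or_eq_top_of_prime_card
  rcases h1 with h1 | h1
  · exfalso
    have h2 : (⟨th hI K (T' hI K), th_sq_T' hI⟩ : (th hI K).ker) ∈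
        (th hI K).range.addSubgroupOf (th hI K).ker := by
      rw [AddSubgroup.mem_addSubgroupOf]
      exact ⟨_, rfl⟩
    rw [h1, AddSubgroup.mem_bot] at h2
    exact th_T'_ne hI (congrArg Subtype.val h2)
  · intro x hx
    have h2 : (⟨x, hx⟩ : (th hI K).ker) ∈ (th hI K).range.addSubgroupOf (th hI K).ker := by
      rw [h1]
      trivial
    rwa [AddSubgroup.mem_addSubgroupOf] at h2

lemma range_eq (hI : ω ^ 2 + ω + 1 = 0) : (th' hI K).range = (th hI K).range := by
  ext x
  constructor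
  · rintro ⟨P, rfl⟩
    refine ⟨P + imP one_ne_zero hI K P, ?_⟩
    rw [th'_apply, th_apply, map_add, imP_imP]
    abel
  · rintro ⟨P, rfl⟩
    refine ⟨P + imP one_ne_zero hI K (imP one_ne_zero hI K P), ?_⟩
    rw [th'_apply, th_apply, map_add, map_add, imP3, imP_imP]
    abel

lemma ker'_le (hI : ω ^ 2 + ω + 1 = 0) : (th' hI K).ker ≤ (th hI K).range := by
  intro P hP
  apply ker_le_range hI
  rcases th'_ker hI K hP with rfl | ⟨y, hy, rfl⟩
  · exact (th hI K).map_zero
  · exact th_T hI K hy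

/-- the points of order three -/
theorem card_T3 (hI : ω ^ 2 + ω + 1 = 0) : Nat.card (T3 (Pt (ED (1 : K)) K)) = 9 := by
  have hst : ∀ P ∈ T3 (Pt (ED (1 : K)) K), th hI K P ∈ T3 (Pt (ED (1 : K)) K) := by
    intro P hP
    rw [mem_T3] at hP ⊢
    rw [← map_nsmul, hP, map_zero]
  let φ : T3 (Pt (ED (1 : K)) K) →+ T3 (Pt (ED (1 : K)) K) :=
    ((th hI K).comp (T3 (Pt (ED (1 : K)) K)).subtype).codRestrict _ fun P => hst P.1 P.2
  have hφ : ∀ P, (φ P : Pt (ED (1 : K)) K) = th hI K P.1 := fun P => rfl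
  refine card_nine_of (φ := φ) ?_ ?_ ⟨⟨T' hI K, T'_three hI K⟩, ?_⟩
  · intro P
    apply Subtype.ext
    rw [hφ, hφ, th_th, ← map_nsmul, (show (3 : ℕ) • P.1 = 0 from P.2), map_zero, neg_zero]
    rfl
  · rw [← card_ker_th hI]
    have h3 : ∀ P ∈ (th hI K).ker, (3 : ℕ) • P = 0 := by
      intro P hP
      rw [AddMonoidHom.mem_ker] at hP
      rw [← th'_th hI K, hP, map_zero]
    refine Nat.card_congr ⟨fun P => ⟨P.1.1, ?_⟩, fun P => ⟨⟨P.1, h3 P.1 P.2⟩, ?_⟩, ?_, ?_⟩
    · have := P.2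
      rw [AddMonoidHom.mem_ker] at this
      exact congrArg Subtype.val this
    · rw [AddMonoidHom.mem_ker]
      apply Subtype.ext
      exact P.2
    · intro P
      rfl
    · intro P
      rfl
  · intro h
    exact th_T'_ne hI (congrArg Subtype.val h)

/-- the group of the points is finitely generated -/
lemma fg_pts : AddGroup.FG (Pt (ED (1 : K)) K) := by
  have hΔ : ((ED (1 : K)).baseChange K).Δ ≠ 0 := by
    have e : ((ED (1 : K)).baseChange K).Δ = -27 := by
      show -(_ : K) ^ 2 * _ - 8 * _ ^ 3 - 27 * _ ^ 2 + 9 * _ * _ * _ = _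
      have e2 : ((ED (1 : K)).baseChange K).b₂ = 0 := by
        show (0 : K) ^ 2 + 4 * 0 = 0
        ring
      have e4 : ((ED (1 : K)).baseChange K).b₄ = 0 := by
        show 2 * (0 : K) + 0 * 1 = 0
        ring
      have e6 : ((ED (1 : K)).baseChange K).b₆ = 1 := by
        show (1 : K) ^ 2 + 4 * (0 : K) = 1
        ring
      rw [e2, e4, e6]
      ring
    rw [e]
    norm_num
  exact @Pool.Agent.Q286.EQ.mordell_weil K _ _ (Classical.decEq K) ((ED (1 : K)).baseChange K) hΔ

/-- the index of `(1 - ω) E(K)` -/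
theorem idx_bound (hI : ω ^ 2 + ω + 1 = 0) : (th hI K).range.index ≠ 0 ∧
    (th hI K).range.index * (th hI K).range.index ≤
      3 ^ Module.finrank ℤ (Pt (ED (1 : K)) K) * 9 := by
  have h1 := index_sq (u := th' hI K) (v := th hI K) (th'_th hI K) (range_eq hI) (ker'_le hI)
  obtain ⟨h2, h3⟩ := index_three_le (M := Pt (ED (1 : K)) K) fg_pts
  rw [h1] at h2 h3
  rw [card_T3 hI] at h3
  exact ⟨fun h => h2 (by rw [h, zero_mul]), h3⟩

/-- **classes that are locally trivial, points, and elements of the Tate-Shafarevich group** -/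
theorem count (hω : IsPrimitiveRoot ω 3) {ι : Type} [Finite ι] [Nonempty ι] {a : ι → K}
    (ha : ∀ i, a i ≠ 0) (hA : ∀ i (v : HeightOneSpectrum (𝓞 K)), AE v 1 (a i))
    (hinj : ∀ i j, IsC (a i / a j) → i = j) (hI : ω ^ 2 + ω + 1 = 0) :
    (Nat.card ι : ℕ∞) ≤ ((th hI K).range.index : ℕ∞) *
      Set.encard {x : Sha (ED (1 : K)) | (3 : ℕ) • x = 0} := by
  classical
  have hD : (1 : K) ≠ 0 := one_ne_zero
  have h3 : (3 : AlgebraicClosure K) ≠ 0 := three_ne_zero
  obtain ⟨hidx, -⟩ := idx_bound (K := K) hI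
  set S := {x : Sha (ED (1 : K)) | (3 : ℕ) • x = 0} with hS
  by_cases hfin : S.Finite
  swap
  · have h1 : S.encard = ⊤ := Set.encard_eq_top_iff.2 hfin
    rw [h1, ENat.mul_top (by exact_mod_cast hidx)]
    exact le_top
  have hSf : Finite S := hfin
  have hexc := fun i => exists_coc hω hD (ha i) (hA i)
  choose h s hC hSc using hexc
  let q : shaCoc (ED (1 : K)) →+ Sha (ED (1 : K)) :=
    QuotientAddGroup.mk' ((cob (ED (1 : K))).addSubgroupOf (shaCoc (ED (1 : K))))
  have hq : ∀ f : shaCoc (ED (1 : K)), q f = 0 ↔ f.1 ∈ cob (ED (1 : K)) := fun f =>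
    QuotientAddGroup.eq_zero_iff (N := (cob (ED (1 : K))).addSubgroupOf (shaCoc (ED (1 : K)))) f
  let X : ι → Sha (ED (1 : K)) := fun i => q ⟨fc hD (h i), hSc i⟩
  have hX3 : ∀ i, X i ∈ S := by
    intro i
    show (3 : ℕ) • q _ = 0
    rw [← map_nsmul]
    have h1 : (3 : ℕ) • (⟨fc hD (h i), hSc i⟩ : shaCoc (ED (1 : K))) = 0 := by
      apply Subtype.ext
      funext σ
      show (3 : ℕ) • tt (1 : K) h3 hD (h i σ) = 0
      rw [tt, smul_comm, three_T, smul_zero]
    rw [h1, map_zero]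
  have hcls : ∀ i j, X i = X j → ∃ P : Pt (ED (1 : K)) K, Cls (1 : K) K P (a i / a j) := by
    intro i j hij
    refine cls_of_cob hω ((hC i).sub hω (hC j)) ?_
    have h1 : q (⟨fc hD (h i), hSc i⟩ - ⟨fc hD (h j), hSc j⟩) = 0 := by
      rw [map_sub]
      exact sub_eq_zero.2 hij
    rw [hq] at h1
    rw [fc_sub]
    exact h1
  let r : Sha (ED (1 : K)) → ι := Function.invFun X
  have hr : ∀ i, X (r (X i)) = X i := fun i => Function.invFun_eq ⟨i, rfl⟩
  have hP : ∀ i, ∃ P : Pt (ED (1 : K)) K, Cls (1 : K) K P (a i / a (r (X i))) := fun i =>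
    hcls _ _ (hr i).symm
  choose P hP using hP
  let g : ι → (Pt (ED (1 : K)) K ⧸ (th hI K).range) × S := fun i =>
    (QuotientAddGroup.mk (P i), ⟨X i, hX3 i⟩)
  have hg : Function.Injective g := by
    intro i j hij
    have h1 : X i = X j := congrArg (fun z => (z.2 : Sha (ED (1 : K)))) hij
    have h2 : (QuotientAddGroup.mk (P i) : Pt (ED (1 : K)) K ⧸ (th hI K).range) =
        QuotientAddGroup.mk (P j) := congrArg Prod.fst hij
    apply hinj
    -- the difference of the points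
    have h3 : P i - P j ∈ (th hI K).range := by
      rw [← QuotientAddGroup.eq_zero_iff]
      exact (QuotientAddGroup.mk_sub _ (P i) (P j)).trans (sub_eq_zero.2 h2)
    obtain ⟨R, hR⟩ := h3
    have h4 : IsC (clP (1 : K) (P i - P j)) := by
      rw [← hR]
      exact clP_theta one_ne_zero hI K R
    have h5 := clP_add (D := (1 : K)) one_ne_zero K (P i - P j) (P j)
    rw [sub_add_cancel] at h5
    have h6 := (cls_iff one_ne_zero (P i) _).1 (hP i)
    have h7 := (cls_iff one_ne_zero (P j) _).1 (hP j)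
    rw [h1] at h6
    have h8 := (h6.mul h7.inv).mul (h5.mul h4.inv).inv
    have c1 := clP_ne (D := (1 : K)) one_ne_zero (P i)
    have c2 := clP_ne (D := (1 : K)) one_ne_zero (P j)
    have c3 := clP_ne (D := (1 : K)) one_ne_zero (P i - P j)
    have a1 := ha i
    have a2 := ha j
    have a3 := ha (r (X j))
    have e : a i / a (r (X j)) / clP (1 : K) (P i) * (a j / a (r (X j)) / clP (1 : K) (P j))⁻¹ *
        (clP (1 : K) (P i - P j) * clP (1 : K) (P j) / clP (1 : K) (P i) *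
          (clP (1 : K) (P i - P j))⁻¹)⁻¹ = a i / a j := by
      field_simp
    rw [e] at h8
    exact h8
  have hfq : Finite (Pt (ED (1 : K)) K ⧸ (th hI K).range) := Nat.finite_of_card_ne_zero hidx
  have h9 := Nat.card_le_card_of_injective g hg
  rw [Nat.card_prod] at h9
  have h10 : S.encard = (Nat.card S : ℕ∞) := by
    rw [Set.encard, ENat.card_eq_coe_natCard]
  rw [h10]
  exact_mod_cast h9

end Pool.Agent.H62
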