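import Mathlib
import Pool.Agent.H62.LocAE

/-!
# The local condition at the primes above three, III: elements which are one modulo three
-/

set_option autoImplicit false

namespace Pool.Agent.H62

open NumberField IsDedekindDomain WithZero
open Pool.Agent.Q7.CE Pool.Agent.Y682 Pool.Agent.Q285.LK

section

variable {K : Type} [Field K] [NumberField K] (w : HeightOneSpectrum (𝓞 K))

/-- the fixed point -/
theorem exists_fix2 (a b z : w.adicCompletion K) (ha : vv w a ≤ vv w z) (hb : vv w b ≤ vv w z)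
    (hz : vv w z < 1) : ∃ u : w.adicCompletion K, u = 1 + a * u ^ 2 + b * u ^ 3 := by
  let s : Set (w.adicCompletion K) := {y | ‖y‖ ≤ ‖(1 : w.adicCompletion K)‖}
  have hs : IsComplete s := (isClosed_le continuous_norm continuous_const).isComplete
  let T : w.adicCompletion K → w.adicCompletion K := fun u => 1 + a * u ^ 2 + b * u ^ 3
  have hmem : ∀ y, y ∈ s ↔ vv w y ≤ 1 := by
    intro y
    change ‖y‖ ≤ ‖(1 : w.adicCompletion K)‖ ↔ _
    rw [norm_le_iff, map_one]
  have hT : ∀ y, vv w y ≤ 1 → vv w (T y - 1) ≤ vv w z := by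
    intro y hy
    have e : T y - 1 = a * y ^ 2 + b * y ^ 3 := by
      simp only [T]
      ring
    rw [e]
    refine (Valuation.map_add _ _ _).trans (max_le ?_ ?_)
    · rw [map_mul, map_pow (vv w) y]
      exact (mul_le_of_le_one_right' (pow_le_one' hy 2)).trans ha
    · rw [map_mul, map_pow (vv w) y]
      exact (mul_le_of_le_one_right' (pow_le_one' hy 3)).trans hb
  have hmaps : Set.MapsTo T s s := by
    intro y hy
    rw [hmem] at hy ⊢
    have e : T y = 1 + (T y - 1) := by ring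
    rw [e]
    refine (Valuation.map_add _ _ _).trans (max_le ?_ ?_)
    · rw [map_one]
    · exact (hT y hy).trans hz.le
  have hcn : ‖z‖ < 1 := by
    rw [← norm_one (α := w.adicCompletion K), ← not_le, norm_le_iff, not_le, map_one]
    exact hz
  have hcon : ContractingWith ⟨‖z‖, norm_nonneg _⟩ (hmaps.restrict T s s) := by
    refine ⟨by exact_mod_cast hcn, ?_⟩
    apply LipschitzWith.of_dist_le_mul
    rintro ⟨y, hy⟩ ⟨x, hx⟩
    change dist (T y) (T x) ≤ ‖z‖ * dist y x
    rw [hmem] at hy hx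
    rw [dist_eq_norm, dist_eq_norm, ← norm_mul, norm_le_iff, map_mul]
    have h3 : T y - T x = a * (y ^ 2 - x ^ 2) + b * (y ^ 3 - x ^ 3) := by
      simp only [T]
      ring
    rw [h3]
    refine (Valuation.map_add _ _ _).trans (max_le ?_ ?_)
    · rw [map_mul]
      exact mul_le_mul' ha (vv_pow_sub w hy hx 2)
    · rw [map_mul]
      exact mul_le_mul' hb (vv_pow_sub w hy hx 3)
  have h1s : (1 : w.adicCompletion K) ∈ s := le_refl ‖(1 : w.adicCompletion K)‖
  obtain ⟨u, hus, hu, -⟩ := hcon.exists_fixedPoint' hs hmaps h1s (edist_ne_top _ _)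
  have h2 : T u = u := hu
  exact ⟨u, h2.symm⟩

/-- a simple root of a cubic polynomial -/
theorem hensel_cubic {g₀ g₁ g₂ g₃ : w.adicCompletion K} (h0 : vv w g₀ < 1) (h1 : vv w g₁ = 1)
    (h2 : vv w g₂ ≤ 1) (h3 : vv w g₃ ≤ 1) :
    ∃ x : w.adicCompletion K, g₀ + g₁ * x + g₂ * x ^ 2 + g₃ * x ^ 3 = 0 := by
  have hg1 : g₁ ≠ 0 := by
    rintro rfl
    rw [map_zero] at h1
    exact zero_ne_one h1
  obtain ⟨u, hu⟩ := exists_fix2 w (g₂ * g₀ / g₁ ^ 2) (-(g₃ * g₀ ^ 2 / g₁ ^ 3)) g₀ (by
      rw [map_div₀, map_mul, map_pow, h1, one_pow, div_one]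
      exact mul_le_of_le_one_left' h2) (by
      rw [Valuation.map_neg, map_div₀, map_mul, map_pow, map_pow, h1, one_pow, div_one, pow_two,
        ← mul_assoc]
      exact mul_le_of_le_one_left' (mul_le_one' h3 h0.le)) h0
  refine ⟨-(g₀ / g₁) * u, ?_⟩
  have e : g₀ + g₁ * (-(g₀ / g₁) * u) + g₂ * (-(g₀ / g₁) * u) ^ 2 + g₃ * (-(g₀ / g₁) * u) ^ 3 =
      g₀ * ((1 + (g₂ * g₀ / g₁ ^ 2) * u ^ 2 + -(g₃ * g₀ ^ 2 / g₁ ^ 3) * u ^ 3) - u) := by
    field_simp
    ring
  rw [e, ← hu, sub_self, mul_zero]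

/-- the cubic form -/
lemma ae_of_root {α : K} {u s : w.adicCompletion K} (hs : s ≠ 0) (ha : 1 + 3 * α ≠ 0)
    (h : u * s * (u + s) - (2 * algebraMap K (w.adicCompletion K) α +
      3 * algebraMap K (w.adicCompletion K) α ^ 2) * u ^ 3 -
      algebraMap K (w.adicCompletion K) α * s ^ 3 = 0) : AE w 1 (1 + 3 * α) := by
  refine ⟨ha, u, u + s, s, Or.inr (Or.inr hs), ?_⟩
  rw [cpl_coe, cpl_coe, map_one, mul_one]
  simp only [map_add, map_mul, map_one, map_ofNat]
  linear_combination 3 * h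

/-- the elements that are one modulo three, if the residue field contains the field of 27 elements -/
theorem ae_three (h3 : w.valuation K 3 < 1) {ρ : K} (hρ1 : w.valuation K ρ ≤ 1)
    (hρ : w.valuation K (ρ ^ 3 - ρ + 1) < 1) {α : K} (ha : 1 + 3 * α ≠ 0)
    (hα : ∃ t : ℤ, w.valuation K (α - t) < 1) : AE w 1 (1 + 3 * α) := by
  obtain ⟨t', ht'⟩ := hα
  -- the three classes
  have hα3 : w.valuation K α < 1 ∨ w.valuation K (α - 1) < 1 ∨ w.valuation K (α + 1) < 1 := by
    have hint : ∀ m : ℤ, w.valuation K (m : K) ≤ 1 := by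
      intro m
      have e : (m : K) = algebraMap (𝓞 K) K (m : 𝓞 K) := (map_intCast _ _).symm
      rw [e]
      exact w.valuation_le_one _
    have key : ∀ m q : ℤ, t' = m + 3 * q → w.valuation K (α - m) < 1 := by
      intro m q hq
      have e : α - m = (α - t') + 3 * (q : K) := by
        rw [hq]
        push_cast
        ring
      rw [e]
      refine lt_of_le_of_lt (Valuation.map_add _ _ _) (max_lt ht' ?_)
      rw [map_mul]
      exact lt_of_le_of_lt (mul_le_of_le_one_right' (hint q)) h3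
    rcases (by omega : t' % 3 = 0 ∨ t' % 3 = 1 ∨ t' % 3 = 2) with h | h | h
    · left
      have := key 0 (t' / 3) (by omega)
      rwa [Int.cast_zero, sub_zero] at this
    · right; left
      have := key 1 (t' / 3) (by omega)
      rwa [Int.cast_one] at this
    · right; right
      have := key (-1) (t' / 3 + 1) (by omega)
      rwa [Int.cast_neg, Int.cast_one, sub_neg_eq_add] at this
  have hα1 : w.valuation K α ≤ 1 := by
    have h1 : w.valuation K (1 : K) ≤ 1 := by rw [map_one]
    rcases hα3 with h | h | h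
    · exact h.le
    · have e : α = (α - 1) + 1 := by ring
      rw [e]
      exact (Valuation.map_add _ _ _).trans (max_le h.le h1)
    · have e : α = (α + 1) - 1 := by ring
      rw [e]
      exact (Valuation.map_sub _ _ _).trans (max_le h.le h1)
  -- everything in the completion
  set A := algebraMap K (w.adicCompletion K) α with hA
  set v := algebraMap K (w.adicCompletion K) ρ with hv
  have h3' : vv w (3 : w.adicCompletion K) < 1 := by
    have : (3 : w.adicCompletion K) = algebraMap K (w.adicCompletion K) 3 := by rw [map_ofNat]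
    rw [this, vv_coe]
    exact h3
  have hv1 : vv w v ≤ 1 := by rw [hv, vv_coe]; exact hρ1
  have hvr : vv w (v ^ 3 - v + 1) < 1 := by
    have : v ^ 3 - v + 1 = algebraMap K (w.adicCompletion K) (ρ ^ 3 - ρ + 1) := by
      rw [map_add, map_sub, map_pow, map_one]
    rw [this, vv_coe]
    exact hρ
  have hA1 : vv w A ≤ 1 := by rw [hA, vv_coe]; exact hα1
  -- integral elements, elements of the maximal ideal
  have mI : ∀ {x : w.adicCompletion K}, vv w x ≤ 1 → ∀ {y : w.adicCompletion K}, vv w y < 1 →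
      vv w (x * y) < 1 := by
    intro x hx y hy
    rw [map_mul]
    exact lt_of_le_of_lt (mul_le_of_le_one_left' hx) hy
  have aI : ∀ {x y : w.adicCompletion K}, vv w x < 1 → vv w y < 1 → vv w (x + y) < 1 :=
    fun hx hy => lt_of_le_of_lt (Valuation.map_add _ _ _) (max_lt hx hy)
  have aR : ∀ {x y : w.adicCompletion K}, vv w x ≤ 1 → vv w y ≤ 1 → vv w (x + y) ≤ 1 :=
    fun hx hy => (Valuation.map_add _ _ _).trans (max_le hx hy)
  have mR : ∀ {x y : w.adicCompletion K}, vv w x ≤ 1 → vv w y ≤ 1 → vv w (x * y) ≤ 1 := by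
    intro x y hx hy
    rw [map_mul]
    exact mul_le_one' hx hy
  have pR : ∀ {x : w.adicCompletion K} (k : ℕ), vv w x ≤ 1 → vv w (x ^ k) ≤ 1 := by
    intro x k hx
    rw [map_pow]
    exact pow_le_one' hx k
  have zR : ∀ m : ℤ, vv w (m : w.adicCompletion K) ≤ 1 := by
    intro m
    have h1 : (m : w.adicCompletion K) = algebraMap K (w.adicCompletion K) (m : K) := by
      rw [map_intCast]
    rw [h1, vv_coe]
    have e : (m : K) = algebraMap (𝓞 K) K (m : 𝓞 K) := (map_intCast _ _).symm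
    rw [e]
    exact w.valuation_le_one _
  have oR : vv w (1 : w.adicCompletion K) ≤ 1 := by rw [map_one]
  have unit_of : ∀ {x y : w.adicCompletion K}, vv w (x * y - 1) < 1 → vv w x ≤ 1 → vv w y ≤ 1 →
      vv w x = 1 := by
    intro x y h hx hy
    have h1 : vv w (x * y) = 1 := by
      have e : x * y = 1 + (x * y - 1) := by ring
      rw [e, Valuation.map_add_eq_of_lt_left, map_one]
      rw [map_one]; exact h
    rw [map_mul] at h1
    refine le_antisymm hx ?_
    rw [← h1]
    exact mul_le_of_le_one_right' hy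
  -- units
  have hvu : vv w v = 1 := by
    refine unit_of (y := 1 - v ^ 2) ?_ hv1 ?_
    · have e : v * (1 - v ^ 2) - 1 = (-1 : ℤ) * (v ^ 3 - v + 1) := by push_cast; ring
      rw [e]
      exact mI (zR _) hvr
    · have e : (1 - v ^ 2) = 1 + ((-1 : ℤ) : w.adicCompletion K) * v ^ 2 := by push_cast; ring
      rw [e]
      exact aR oR (mR (zR _) (pR 2 hv1))
  have hv1u : vv w (1 + v) = 1 := by
    refine unit_of (y := v * (1 - v)) ?_ (aR oR hv1) ?_
    · have e : (1 + v) * (v * (1 - v)) - 1 = (-1 : ℤ) * (v ^ 3 - v + 1) := by push_cast; ring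
      rw [e]
      exact mI (zR _) hvr
    · have e : v * (1 - v) = v * (1 + ((-1 : ℤ) : w.adicCompletion K) * v) := by push_cast; ring
      rw [e]
      exact mR hv1 (aR oR (mR (zR _) hv1))
  have h2u : vv w (2 : w.adicCompletion K) = 1 := by
    refine unit_of (y := 2) ?_ ?_ ?_
    · have e : (2 : w.adicCompletion K) * 2 - 1 = 3 := by norm_num
      rw [e]
      exact h3'
    · exact_mod_cast zR 2
    · exact_mod_cast zR 2
  have h3R : vv w (3 : w.adicCompletion K) ≤ 1 := h3'.le
  have hv10 : (1 + v) ≠ 0 := by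
    intro h0
    rw [h0, map_zero] at hv1u
    exact zero_ne_one hv1u
  have hv0 : v ≠ 0 := by
    intro h0
    rw [h0, map_zero] at hvu
    exact zero_ne_one hvu
  have nR : ∀ {x : w.adicCompletion K}, vv w x ≤ 1 → vv w (-x) ≤ 1 := by
    intro x hx
    rwa [Valuation.map_neg]
  have hB : vv w (2 * A + 3 * A ^ 2) ≤ 1 := aR (mR h2u.le hA1) (mR h3R (pR 2 hA1))
  rcases hα3 with h | h | h
  · -- the first case
    have hA0 : vv w A < 1 := by rw [hA, vv_coe]; exact h
    obtain ⟨x, hx⟩ := hensel_cubic w (g₀ := -A) (g₁ := 1) (g₂ := 1) (g₃ := -(2 * A + 3 * A ^ 2))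
      (by rw [Valuation.map_neg]; exact hA0) (map_one _) oR (nR hB)
    refine ae_of_root w (u := x) (s := 1) one_ne_zero ha ?_
    rw [← hA]
    linear_combination hx
  · -- the second case
    have hA0 : vv w (A - 1) < 1 := by
      have : A - 1 = algebraMap K (w.adicCompletion K) (α - 1) := by rw [map_sub, map_one]
      rw [this, vv_coe]; exact h
    obtain ⟨x, hx⟩ := hensel_cubic w
      (g₀ := v * (1 + v) * (v + (1 + v)) - (2 * A + 3 * A ^ 2) * v ^ 3 - A * (1 + v) ^ 3)
      (g₁ := (1 + v) * (1 + 3 * v) - 3 * (2 * A + 3 * A ^ 2) * v ^ 2)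
      (g₂ := (1 + v) - 3 * (2 * A + 3 * A ^ 2) * v) (g₃ := -(2 * A + 3 * A ^ 2))
      (by
        have e : v * (1 + v) * (v + (1 + v)) - (2 * A + 3 * A ^ 2) * v ^ 3 - A * (1 + v) ^ 3 =
            ((-1 : ℤ) : w.adicCompletion K) * (v ^ 3 - v + 1) +
            (-((v + A ^ 2 * v ^ 3)) * 3 + -(2 * v ^ 3 + (1 + v) ^ 3) * (A - 1)) := by
          push_cast
          ring
        rw [e]
        refine aI (mI (zR _) hvr) (aI (mI ?_ h3') (mI ?_ hA0))
        · exact nR (aR hv1 (mR (pR 2 hA1) (pR 3 hv1)))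
        · exact nR (aR (mR h2u.le (pR 3 hv1)) (pR 3 hv1u.le)))
      (by
        have e : (1 + v) * (1 + 3 * v) - 3 * (2 * A + 3 * A ^ 2) * v ^ 2 =
            (1 + v) + (v * (1 + v) + -((2 * A + 3 * A ^ 2) * v ^ 2)) * 3 := by ring
        rw [e, Valuation.map_add_eq_of_lt_left, hv1u]
        rw [hv1u]
        exact mI (aR (mR hv1 hv1u.le) (nR (mR hB (pR 2 hv1)))) h3')
      (by
        have e : (1 + v) - 3 * (2 * A + 3 * A ^ 2) * v =
            (1 + v) + -(3 * (2 * A + 3 * A ^ 2) * v) := by ring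
        rw [e]
        exact aR hv1u.le (nR (mR (mR h3R hB) hv1)))
      (nR hB)
    refine ae_of_root w (u := v + x) (s := 1 + v) hv10 ha ?_
    rw [← hA]
    linear_combination hx
  · -- the third case
    have hA0 : vv w (A + 1) < 1 := by
      have : A + 1 = algebraMap K (w.adicCompletion K) (α + 1) := by rw [map_add, map_one]
      rw [this, vv_coe]; exact h
    obtain ⟨x, hx⟩ := hensel_cubic w
      (g₀ := (1 + v) * v * ((1 + v) + v) - (2 * A + 3 * A ^ 2) * (1 + v) ^ 3 - A * v ^ 3)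
      (g₁ := v * (2 * (1 + v) + v) - 3 * (2 * A + 3 * A ^ 2) * (1 + v) ^ 2)
      (g₂ := v - 3 * (2 * A + 3 * A ^ 2) * (1 + v)) (g₃ := -(2 * A + 3 * A ^ 2))
      (by
        have e : (1 + v) * v * ((1 + v) + v) - (2 * A + 3 * A ^ 2) * (1 + v) ^ 3 - A * v ^ 3 =
            ((5 : ℤ) : w.adicCompletion K) * (v ^ 3 - v + 1) +
            ((((4 : ℤ) : w.adicCompletion K) * v + ((3 : ℤ) : w.adicCompletion K) * v ^ 2 + -1 +
              -(A ^ 2 * (1 + v) ^ 3)) * 3 +
              -(2 * (1 + v) ^ 3 + v ^ 3) * (A + 1)) := by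
          push_cast
          ring
        rw [e]
        refine aI (mI (zR _) hvr) (aI (mI ?_ h3') (mI ?_ hA0))
        · exact aR (aR (aR (mR (zR _) hv1) (mR (zR _) (pR 2 hv1))) (nR oR))
            (nR (mR (pR 2 hA1) (pR 3 hv1u.le)))
        · exact nR (aR (mR h2u.le (pR 3 hv1u.le)) (pR 3 hv1)))
      (by
        have e : v * (2 * (1 + v) + v) - 3 * (2 * A + 3 * A ^ 2) * (1 + v) ^ 2 =
            2 * v + (v ^ 2 + -((2 * A + 3 * A ^ 2) * (1 + v) ^ 2)) * 3 := by ring
        have h2v : vv w (2 * v) = 1 := by rw [map_mul, h2u, hvu, one_mul]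
        rw [e, Valuation.map_add_eq_of_lt_left, h2v]
        rw [h2v]
        exact mI (aR (pR 2 hv1) (nR (mR hB (pR 2 hv1u.le)))) h3')
      (by
        have e : v - 3 * (2 * A + 3 * A ^ 2) * (1 + v) =
            v + -(3 * (2 * A + 3 * A ^ 2) * (1 + v)) := by ring
        rw [e]
        exact aR hv1 (nR (mR (mR h3R hB) hv1u.le)))
      (nR hB)
    refine ae_of_root w (u := 1 + v + x) (s := v) hv0 ha ?_
    rw [← hA]
    linear_combination hx

end

end Pool.Agent.H62
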