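import Mathlib
import Pool.Graph.R_seed8.Y696.Bld

/-!
# The residue field of the prime above three
-/

set_option autoImplicit false
set_option linter.unusedSectionVars false

namespace Pool.Agent.H62

open NumberField IsDedekindDomain Polynomial

/-- a finite field of characteristic three with an automorphism of order three -/
lemma dvd_finrank {k : Type} [Field k] [Finite k] [CharP k 3] {s : k ≃+* k} (h1 : s ≠ 1)
    (h3 : s ^ 3 = 1) : ∃ m : ℕ, Nat.card k = 3 ^ (3 * m) := by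
  have : Fact (Nat.Prime 3) := ⟨Nat.prime_three⟩
  let _ : Algebra (ZMod 3) k := ZMod.algebra k 3
  have : Module.Finite (ZMod 3) k := Module.Finite.of_finite
  let f : k ≃ₐ[ZMod 3] k := AlgEquiv.ofRingEquiv (f := s) (fun x => by
    have : (s : k →+* k).comp (algebraMap (ZMod 3) k) = algebraMap (ZMod 3) k := Subsingleton.elim _ _
    exact congrArg (fun g : ZMod 3 →+* k => g x) this)
  have hf1 : f ≠ 1 := by
    intro h
    apply h1
    ext x
    exact congrArg (fun g : k ≃ₐ[ZMod 3] k => g x) h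
  have hf3 : f ^ 3 = 1 := by
    ext x
    exact congrArg (fun g : k ≃+* k => g x) h3
  have hord : orderOf f = 3 := orderOf_eq_prime hf3 hf1
  have h4 : 3 ∣ Nat.card (k ≃ₐ[ZMod 3] k) := by
    have := orderOf_dvd_natCard f
    rwa [hord] at this
  rw [IsGalois.card_aut_eq_finrank] at h4
  obtain ⟨m, hm⟩ := h4
  refine ⟨m, ?_⟩
  rw [← hm, Module.natCard_eq_pow_finrank (K := ZMod 3) (V := k), Nat.card_zmod]

/-- a root of `v ^ 3 - v + 1` -/
lemma exists_root_as {k : Type} [Field k] [Finite k] [CharP k 3] {m : ℕ}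
    (h : Nat.card k = 3 ^ (3 * m)) : ∃ v : k, v ^ 3 - v + 1 = 0 := by
  have : Fact (Nat.Prime 3) := ⟨Nat.prime_three⟩
  have : Fintype k := Fintype.ofFinite k
  obtain ⟨v, hv⟩ := IsAlgClosed.exists_root (X ^ 3 - X + 1 : (AlgebraicClosure k)[X]) (by
    have : (X ^ 3 - X + 1 : (AlgebraicClosure k)[X]).degree = 3 := by compute_degree!
    rw [this]
    norm_num)
  have hv' : v ^ 3 - v + 1 = 0 := by simpa [IsRoot.def] using hv
  have hc : CharP (AlgebraicClosure k) 3 := charP_of_injective_algebraMap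
    (algebraMap k (AlgebraicClosure k)).injective 3
  have h30 : (3 : AlgebraicClosure k) = 0 := by
    have := CharP.cast_eq_zero (AlgebraicClosure k) 3
    exact_mod_cast this
  have hfr : ∀ x y : AlgebraicClosure k, (x - y) ^ 3 = x ^ 3 - y ^ 3 := fun x y =>
    sub_pow_char x y
  have h1 : v ^ 3 = v - 1 := by linear_combination hv'
  have h27 : v ^ 27 = v := by
    have e1 : v ^ 9 = v - 2 := by
      calc v ^ 9 = (v ^ 3) ^ 3 := by ring
        _ = v ^ 3 - 1 ^ 3 := by rw [h1, hfr, h1]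
        _ = v - 2 := by rw [h1]; ring
    calc v ^ 27 = (v ^ 9) ^ 3 := by ring
      _ = v ^ 3 - 2 ^ 3 := by rw [e1, hfr]
      _ = v := by rw [h1]; linear_combination (-3 : AlgebraicClosure k) * h30
  have hq : v ^ Fintype.card k = v := by
    rw [← Nat.card_eq_fintype_card, h]
    clear h
    induction m with
    | zero => simp
    | succ m ih =>
      have e : 3 ^ (3 * (m + 1)) = 3 ^ (3 * m) * 27 := by rw [mul_add, pow_add]; norm_num
      rw [e, pow_mul, ih, h27]
  let _ : Algebra (ZMod 3) k := ZMod.algebra k 3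
  have hsp := FiniteField.splits_X_pow_card_sub_X (p := 3) (K := k)
  rw [Polynomial.map_sub, Polynomial.map_pow, Polynomial.map_X] at hsp
  obtain ⟨x, hx⟩ := hsp.mem_range_of_isRoot (i := algebraMap k (AlgebraicClosure k)) (x := v)
    (FiniteField.X_pow_card_sub_X_ne_zero k Fintype.one_lt_card) (by
      rw [Polynomial.map_sub, Polynomial.map_pow, Polynomial.map_X]
      simp [IsRoot.def, hq])
  refine ⟨x, ?_⟩
  have hvx : v = algebraMap k (AlgebraicClosure k) x := hx.symm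
  apply (algebraMap k (AlgebraicClosure k)).injective
  rw [map_add, map_sub, map_pow, map_one, map_zero, ← hvx]
  exact hv'

section

variable {F K : Type} [Field F] [NumberField F] [Field K] [NumberField K] [Algebra F K]
  [IsGalois F K] {n : ℕ}

/-- the only prime above three contains the values of `X ^ 3 - X + 1` at an integer -/
theorem exists_rho (hcard : Nat.card Gal(K/F) = 3 ^ n) (hn : n ≠ 0)
    {w : HeightOneSpectrum (𝓞 K)} (hw : (3 : 𝓞 K) ∈ w.asIdeal)
    (huniq : ∀ v : HeightOneSpectrum (𝓞 K), (3 : 𝓞 K) ∈ v.asIdeal → v = w)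
    (hunr : Algebra.IsUnramifiedAt (𝓞 F) w.asIdeal) : ∃ ρ : 𝓞 K, ρ ^ 3 - ρ + 1 ∈ w.asIdeal := by
  have hp3 : Fact (Nat.Prime 3) := ⟨Nat.prime_three⟩
  obtain ⟨g, hg⟩ := exists_prime_orderOf_dvd_card' (G := Gal(K/F)) 3 (by
    rw [hcard]
    exact dvd_pow_self 3 hn)
  let e : 𝓞 K ≃+* 𝓞 K := MulSemiringAction.toRingEquiv Gal(K/F) (𝓞 K) g
  have he : ∀ x, e x = g • x := fun x => rfl
  -- the prime is stable
  have hst : ∀ x, e x ∈ w.asIdeal ↔ x ∈ w.asIdeal := by
    intro x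
    have hpr : (w.asIdeal.comap (e : 𝓞 K →+* 𝓞 K)).IsPrime := Ideal.comap_isPrime _ _
    have h3 : (3 : 𝓞 K) ∈ w.asIdeal.comap (e : 𝓞 K →+* 𝓞 K) := by
      rw [Ideal.mem_comap, map_ofNat]
      exact hw
    have hne : w.asIdeal.comap (e : 𝓞 K →+* 𝓞 K) ≠ ⊥ := by
      intro h
      rw [h, Ideal.mem_bot] at h3
      norm_num at h3
    have h4 := huniq ⟨w.asIdeal.comap (e : 𝓞 K →+* 𝓞 K), hpr, hne⟩ h3
    have h5 : w.asIdeal.comap (e : 𝓞 K →+* 𝓞 K) = w.asIdeal := congrArg HeightOneSpectrum.asIdeal h4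
    have h6 : e x ∈ w.asIdeal ↔ x ∈ w.asIdeal.comap (e : 𝓞 K →+* 𝓞 K) := Iff.rfl
    rw [h6, h5]
  have hmap : w.asIdeal = w.asIdeal.map (e : 𝓞 K →+* 𝓞 K) := by
    apply le_antisymm
    · intro x hx
      have : x = e (e.symm x) := (e.apply_symm_apply x).symm
      rw [this]
      apply Ideal.mem_map_of_mem (e : 𝓞 K →+* 𝓞 K)
      rw [← hst, e.apply_symm_apply]
      exact hx
    · rw [Ideal.map_le_iff_le_comap]
      intro x hx
      exact (hst x).2 hx
  have hmax : w.asIdeal.IsMaximal := w.isPrime.isMaximal w.ne_bot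
  let _ : Field (𝓞 K ⧸ w.asIdeal) := Ideal.Quotient.field _
  have : Finite (𝓞 K ⧸ w.asIdeal) := Ideal.finiteQuotientOfFreeOfNeBot _ w.ne_bot
  have h30 : (3 : 𝓞 K ⧸ w.asIdeal) = 0 := by
    have := Ideal.Quotient.eq_zero_iff_mem.2 hw
    rwa [map_ofNat] at this
  have hchar : CharP (𝓞 K ⧸ w.asIdeal) 3 := by
    have := CharP.charP_iff_prime_eq_zero (R := 𝓞 K ⧸ w.asIdeal) Nat.prime_three
    exact this.2 (by exact_mod_cast h30)
  let s : (𝓞 K ⧸ w.asIdeal) ≃+* (𝓞 K ⧸ w.asIdeal) := Ideal.quotientEquiv _ _ e hmap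
  have hs : ∀ x : 𝓞 K, s (Ideal.Quotient.mk _ x) = Ideal.Quotient.mk _ (g • x) := fun x => rfl
  have hs1 : s ≠ 1 := by
    intro h
    have h1 : g = 1 := by
      refine Pool.Agent.Y696.unr_g w hunr fun x => ?_
      rw [← Ideal.Quotient.eq_zero_iff_mem, map_sub, ← hs, h]
      simp
    rw [h1, orderOf_one] at hg
    omega
  have hs3 : s ^ 3 = 1 := by
    ext x
    obtain ⟨x, rfl⟩ := Ideal.Quotient.mk_surjective x
    have h1 : (s ^ 3 : (𝓞 K ⧸ w.asIdeal) ≃+* (𝓞 K ⧸ w.asIdeal)) (Ideal.Quotient.mk _ x) =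
        s (s (s (Ideal.Quotient.mk _ x))) := rfl
    have h2 : g • g • g • x = x := by
      rw [smul_smul, smul_smul, ← pow_three', ← hg, pow_orderOf_eq_one, one_smul]
    rw [h1, hs, hs, hs, h2]
    rfl
  obtain ⟨m, hm⟩ := dvd_finrank hs1 hs3
  obtain ⟨v, hv⟩ := exists_root_as hm
  obtain ⟨ρ, rfl⟩ := Ideal.Quotient.mk_surjective v
  refine ⟨ρ, ?_⟩
  rw [← Ideal.Quotient.eq_zero_iff_mem, map_add, map_sub, map_pow, map_one]
  exact hv

end

end Pool.Agent.H62
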