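import Mathlib
import Pool.Graph.R_pool_sql_team_seeded_3997aac3.Q283.EN.All
import Pool.Graph.R_pool_sql_team_seeded_3997aac3.Q275.CE.FS2
import Pool.Agent.H62.Desc
import Pool.Agent.H62.Res
import Pool.Agent.H62.LocB
import Pool.Agent.H62.Tot
import Pool.Agent.H62.SelT
import Pool.Agent.H62.Fin5

/-!
# Locally trivial classes of an extension ramified at several primes
-/

set_option autoImplicit false
set_option linter.unusedSectionVars false

namespace Pool.Agent.H62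

open NumberField IsDedekindDomain WithZero WeierstrassCurve
open Pool.Agent.Q7.CE
open Pool.Agent.Q285.CE Pool.Agent.Q123.CE
open Pool.Agent.Q7.LK (IsPow vl Dp)
open Pool.Agent.TH841.SH.D (Pt)
open Pool.Agent.TH841.NF.D (Sha)
open Pool.Agent.N883.T (Un3 exists_three val_theta3)
open Pool.Agent.Y688 (dn val_rel)
open Pool.Agent.Y696 (exp_rep exists_above)

section ae

variable {K : Type} [Field K] [NumberField K] {ω : K}

lemma cls_mul {L : Type} [Field L] [Algebra K L] {P Q : Pt (ED (1 : K)) L} {a b : L}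
    (ha : Cls (1 : K) L P a) (hb : Cls (1 : K) L Q b) : Cls (1 : K) L (P + Q) (a * b) := by
  have hD : (1 : K) ≠ 0 := one_ne_zero
  rw [cls_iff hD] at ha hb ⊢
  have h := (ha.mul hb).mul (clP_add hD L P Q)
  have e : a / clP 1 P * (b / clP 1 Q) * (clP 1 P * clP 1 Q / clP 1 (P + Q)) = a * b / clP 1 (P + Q) := by
    have h1 := clP_ne hD P
    have h2 := clP_ne hD Q
    have h3 := clP_ne hD (P + Q)
    field_simp
  rwa [e] at h

lemma ae_mul {v : HeightOneSpectrum (𝓞 K)} {a b : K} (ha : AE v 1 a) (hb : AE v 1 b) :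
    AE v 1 (a * b) := by
  obtain ⟨P, hP⟩ := (Pool.Agent.Q283.EN.t_AEC K v 1 a one_ne_zero ha.1).1 ha
  obtain ⟨Q, hQ⟩ := (Pool.Agent.Q283.EN.t_AEC K v 1 b one_ne_zero hb.1).1 hb
  refine (Pool.Agent.Q283.EN.t_AEC K v 1 (a * b) one_ne_zero (mul_ne_zero ha.1 hb.1)).2
    ⟨P + Q, ?_⟩
  have h1 := cls_mul hP hQ
  have e : ((a * b : K) : v.adicCompletion K) = (a : v.adicCompletion K) * (b : v.adicCompletion K) := by
    have := map_mul (algebraMap K (v.adicCompletion K)) a b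
    exact this
  rw [e]
  exact h1

lemma ae_om (hω : IsPrimitiveRoot ω 3) (v : HeightOneSpectrum (𝓞 K)) (i : ℕ) : AE v 1 (ω ^ i) := by
  have hI := quad_of hω
  have h1 : Cls (1 : K) K (T' hI K) (ω ^ 2) := by
    rw [cls_iff one_ne_zero, clP_T']
    have : ω ^ 2 / (algebraMap K K ω) ^ 2 = 1 := div_self (pow_ne_zero _ (hω.ne_zero (by norm_num)))
    rw [this]
    exact IsC.one
  have h2 : AE v 1 (ω ^ 2) := Pool.Agent.Q275.CE.ae_of_cls h1 v
  have h0 : ∀ j : ℕ, AE v 1 (ω ^ (2 * j)) := by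
    intro j
    induction j with
    | zero =>
      rw [mul_zero, pow_zero]
      exact Pool.Agent.Q181.EN.ae_one v 1
    | succ j ih =>
      rw [mul_add, pow_add, mul_one]
      exact ae_mul ih h2
  have h3 := h0 (2 * i)
  have e : ω ^ (2 * (2 * i)) = ω ^ i := by
    have : 2 * (2 * i) = 3 * i + i := by ring
    rw [this, pow_add, pow_mul, hω.pow_eq_one, one_pow, one_mul]
  rwa [e] at h3

lemma ae_away (hω : IsPrimitiveRoot ω 3) {v : HeightOneSpectrum (𝓞 K)} (hv : (3 : 𝓞 K) ∉ v.asIdeal)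
    {a : K} (ha : a ≠ 0) (h : C3 (v.valuation K a)) : AE v 1 a := by
  have hv' : ¬ Dp 3 v := by
    intro h
    apply hv
    exact_mod_cast h
  refine (Pool.Agent.Q283.EN.t_ECX K ω hω v 1 a hv' one_ne_zero ha).2 ⟨fun _ => ?_, fun h1 => ?_⟩
  · obtain ⟨m, hm⟩ := h
    unfold vl
    rw [hm, log_exp]
    push_cast
    have : (3 : ZMod 3) = 0 := rfl
    rw [this, zero_mul, neg_zero]
  · exfalso
    apply h1
    unfold vl
    rw [map_one, log_one]
    simp

end ae

section field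

variable {F K : Type} [Field F] [NumberField F] [IsCyclotomicExtension {3} ℚ F] [Field K]
  [NumberField K] [Algebra F K] {ζ : F} {n : ℕ}

open Pool.Agent.Y696 Pool.Agent.N883.Q Pool.Agent.TH936.CM Pool.Agent.Y715.T.Three Pool.Agent.Y715.T.Lat in
/-- the residue field of `F` at the prime above three -/
lemma exists_int (hζ : IsPrimitiveRoot ζ 3) {w : HeightOneSpectrum (𝓞 K)}
    (hw : w.valuation K 3 < 1) (x : 𝓞 F) :
    ∃ t : ℤ, w.valuation K (algebraMap F K (x : F) - t) < 1 := by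
  obtain ⟨σ, hσ⟩ := exists_emb hζ
  set e := isoE hζ σ hσ with he
  obtain ⟨a, b, hab⟩ := ez_ex (e x)
  set o : 𝓞 F := e.symm omr with ho
  have hx : x = (a : 𝓞 F) + b * o := by
    apply e.injective
    rw [hab, map_add, map_mul, map_intCast, map_intCast, ho, e.apply_symm_apply]
    rfl
  have ho2 : o ^ 2 + o + 1 = 0 := by
    apply e.injective
    rw [map_add, map_add, map_pow, map_one, map_zero, ho, e.apply_symm_apply]
    linear_combination omr_sq
  refine ⟨a + b, ?_⟩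
  set O := algebraMap F K (o : F) with hO
  have hO2 : O ^ 2 + O + 1 = 0 := by
    have h1 : ((o : F)) ^ 2 + (o : F) + 1 = 0 := by
      have := congrArg (algebraMap (𝓞 F) F) ho2
      rw [map_add, map_add, map_pow, map_one, map_zero] at this
      exact this
    rw [hO, ← map_pow, ← map_add, ← map_one (algebraMap F K), ← map_add, h1, map_zero]
  have e1 : algebraMap F K (x : F) - ((a + b : ℤ) : K) = (b : K) * (O - 1) := by
    have h1 : (x : F) = (a : F) + (b : F) * (o : F) := by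
      have := congrArg (algebraMap (𝓞 F) F) hx
      rw [map_add, map_mul, map_intCast, map_intCast] at this
      exact this
    rw [h1, map_add, map_mul, map_intCast, map_intCast, ← hO]
    push_cast
    ring
  have h1 : w.valuation K (O - 1) < 1 := by
    by_contra hcon
    rw [not_lt] at hcon
    have h2 : w.valuation K ((O - 1) ^ 2) < 1 := by
      have e2 : (O - 1) ^ 2 = -(3 * O) := by linear_combination hO2
      rw [e2, Valuation.map_neg, map_mul, v_om (V := w.valuation K) hO2, mul_one]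
      exact hw
    rw [map_pow] at h2
    exact absurd h2 (not_lt.2 (one_le_pow₀ hcon))
  rw [e1, map_mul]
  have e3 : (b : K) = algebraMap (𝓞 K) K (b : 𝓞 K) := (map_intCast _ _).symm
  refine lt_of_le_of_lt (mul_le_of_le_one_left' ?_) h1
  rw [e3]
  exact w.valuation_le_one _

open Pool.Agent.Y696 Pool.Agent.N883.Q Pool.Agent.TH936.CM in
lemma cop_F (hζ : IsPrimitiveRoot ζ 3) {p q : 𝓞 F} (hp : Prime p) (hq : Prime q)
    (h3 : (3 : 𝓞 F) ∣ p - 1) (h3' : (3 : 𝓞 F) ∣ q - 1) (hd : p ∣ q) : p = q := by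
  obtain ⟨σ, hσ⟩ := exists_emb hζ
  set e := isoE hζ σ hσ with he
  by_contra hne
  have h1 := cop_three (p := e p) (q := e q) ((MulEquiv.prime_iff (e : 𝓞 F ≃* eis)).2 hp)
    ((MulEquiv.prime_iff (e : 𝓞 F ≃* eis)).2 hq)
    (by have := map_dvd e h3; rwa [map_sub, map_one, map_ofNat] at this)
    (by have := map_dvd e h3'; rwa [map_sub, map_one, map_ofNat] at this)
    (fun h => hne (e.injective h))
  have h2 : e p ∣ e q := map_dvd e hd
  exact ((MulEquiv.prime_iff (e : 𝓞 F ≃* eis)).2 hp).not_isUnit (h1.isUnit_of_dvd' dvd_rfl h2)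

/-- an extension of `F` totally ramified at the primes of `S`, with one prime above three -/
structure Ms (F K : Type) [Field F] [NumberField F] [IsCyclotomicExtension {3} ℚ F] [Field K]
    [NumberField K] [Algebra F K] (ζ : F) (n : ℕ) (S : Finset (𝓞 F)) : Prop where
  zeta : IsPrimitiveRoot ζ 3
  npos : n ≠ 0
  card : Nat.card Gal(K/F) = 3 ^ n
  prime : ∀ p ∈ S, Prime p ∧ (3 : 𝓞 F) ∣ p - 1
  tot : ∀ p ∈ S, ∀ v : HeightOneSpectrum (𝓞 K), algebraMap (𝓞 F) (𝓞 K) p ∈ v.asIdeal →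
    ∀ g : Gal(K/F), Ine v g
  uniq : ∀ v w : HeightOneSpectrum (𝓞 K), (3 : 𝓞 K) ∈ v.asIdeal → (3 : 𝓞 K) ∈ w.asIdeal → v = w
  un3 : Un3 F K

variable {S : Finset (𝓞 F)}

lemma Ms.quad' (T : Ms F K ζ n S) : ζ ^ 2 + ζ + 1 = 0 := quad_of T.zeta

lemma Ms.zetaK (T : Ms F K ζ n S) : IsPrimitiveRoot (algebraMap F K ζ) 3 :=
  T.zeta.map_of_injective (algebraMap F K).injective

lemma Ms.quad (T : Ms F K ζ n S) : (algebraMap F K ζ) ^ 2 + algebraMap F K ζ + 1 = 0 :=
  quad_of T.zetaK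

lemma Ms.lam (T : Ms F K ζ n S) (v : HeightOneSpectrum (𝓞 K)) (hv : (3 : 𝓞 K) ∈ v.asIdeal) :
    v.valuation K (2 * algebraMap F K ζ + 1) = exp (-1 : ℤ) := by
  have hθ : (2 * ζ + 1) ^ 2 = -3 := by linear_combination 4 * T.quad'
  have e : 2 * algebraMap F K ζ + 1 = algebraMap F K (2 * ζ + 1) := by
    rw [map_add, map_mul, map_ofNat, map_one]
  rw [e]
  exact val_theta3 T.un3 v hv hθ

lemma Ms.v3 (v : HeightOneSpectrum (𝓞 K)) (hv : (3 : 𝓞 K) ∈ v.asIdeal) :
    v.valuation K 3 < 1 := by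
  have := (mem_iff_val v (3 : 𝓞 K)).1 hv
  have e : (((3 : 𝓞 K)) : K) = 3 := map_ofNat (algebraMap (𝓞 K) K) 3
  rwa [e] at this

variable [IsGalois F K]

/-- the local condition above three -/
lemma Ms.ae3 (T : Ms F K ζ n S) {w : HeightOneSpectrum (𝓞 K)} (hw : (3 : 𝓞 K) ∈ w.asIdeal)
    {f : 𝓞 F} (hf0 : f ≠ 0) (hf : (3 : 𝓞 F) ∣ f - 1) : AE w 1 (algebraMap F K (f : F)) := by
  obtain ⟨x, hx⟩ := hf
  obtain ⟨ρ, hρ⟩ := exists_rho T.card T.npos hw (fun v hv => T.uniq v w hv hw) (T.un3 w hw)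
  have h1 : w.valuation K (((ρ : K)) ^ 3 - (ρ : K) + 1) < 1 := by
    have := (mem_iff_val w _).1 hρ
    have e : ((ρ ^ 3 - ρ + 1 : 𝓞 K) : K) = (ρ : K) ^ 3 - (ρ : K) + 1 := by
      show algebraMap (𝓞 K) K (ρ ^ 3 - ρ + 1) = _
      rw [map_add, map_sub, map_pow, map_one]
    rwa [e] at this
  have hfx : algebraMap F K (f : F) = 1 + 3 * algebraMap F K (x : F) := by
    have e1 : (f : F) = 1 + 3 * (x : F) := by
      have h2 : f = 1 + 3 * x := by linear_combination hx
      have := congrArg (algebraMap (𝓞 F) F) h2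
      rw [map_add, map_mul, map_one, map_ofNat] at this
      exact this
    rw [e1, map_add, map_mul, map_one, map_ofNat]
  have hf1 : algebraMap F K (f : F) ≠ 0 := by
    rw [Ne, map_eq_zero]
    exact fun h => hf0 (by exact_mod_cast h)
  rw [hfx] at hf1 ⊢
  exact ae_three w (Ms.v3 w hw) (w.valuation_le_one ρ) h1 hf1 (exists_int T.zeta (Ms.v3 w hw) x)

/-- the valuations of the primes of `S` are divisible by three -/
lemma Ms.c3 (T : Ms F K ζ n S) {p : 𝓞 F} (hp : p ∈ S) (v : HeightOneSpectrum (𝓞 K)) :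
    C3 (v.valuation K (algebraMap F K (p : F))) := by
  by_cases hv : algebraMap (𝓞 F) (𝓞 K) p ∈ v.asIdeal
  · have htot := T.tot p hp v hv
    have h1 := val_rel (F := F) (K := K) v (p : F)
    have h2 : Nat.card (v.asIdeal.inertia (K ≃ₐ[F] K)) = 3 ^ n := by
      have htop : v.asIdeal.inertia (K ≃ₐ[F] K) = ⊤ := by
        rw [eq_top_iff]
        intro g _
        exact htot g
      rw [htop, Subgroup.card_top]
      exact T.card
    have h3 : (dn F v).valuation F (p : F) ≠ 0 := by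
      rw [Valuation.ne_zero_iff]
      exact fun h => (T.prime p hp).1.ne_zero (by exact_mod_cast h)
    obtain ⟨j, hj⟩ := Nat.exists_eq_succ_of_ne_zero T.npos
    rw [h1, h2, hj, pow_succ, pow_mul]
    exact C3.cube (pow_ne_zero _ h3)
  · have e : v.valuation K (algebraMap F K (p : F)) = 1 := by
      have e1 : algebraMap F K (p : F) = algebraMap (𝓞 K) K (algebraMap (𝓞 F) (𝓞 K) p) := rfl
      rw [e1, HeightOneSpectrum.valuation_of_algebraMap, HeightOneSpectrum.intValuation_eq_one_iff]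
      exact hv
    rw [e]
    exact C3.one

/-- the products -/
noncomputable def fS (S' : Finset (𝓞 F)) (d : S' → Fin 3) : 𝓞 F := ∏ p : S', (p : 𝓞 F) ^ (d p : ℕ)

lemma Ms.fS_ne (T : Ms F K ζ n S) {S' : Finset (𝓞 F)} (hS : S' ⊆ S) (d : S' → Fin 3) :
    fS S' d ≠ 0 :=
  Finset.prod_ne_zero_iff.2 fun p _ => pow_ne_zero _ (T.prime p (hS p.2)).1.ne_zero

lemma Ms.fS_one (T : Ms F K ζ n S) {S' : Finset (𝓞 F)} (hS : S' ⊆ S) (d : S' → Fin 3) :
    (3 : 𝓞 F) ∣ fS S' d - 1 := by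
  have hpow : ∀ (a : 𝓞 F) (k : ℕ), (3 : 𝓞 F) ∣ a - 1 → (3 : 𝓞 F) ∣ a ^ k - 1 := by
    intro a k h
    exact h.trans (sub_one_dvd_pow_sub_one a k) 
  have : ∀ U : Finset S', (3 : 𝓞 F) ∣ (∏ p ∈ U, (p : 𝓞 F) ^ (d p : ℕ)) - 1 := by
    intro U
    classical
    induction U using Finset.induction_on with
    | empty => simp
    | insert a U ha ih =>
      rw [Finset.prod_insert ha]
      have h1 := hpow _ (d a : ℕ) (T.prime a (hS a.2)).2
      have e : (a : 𝓞 F) ^ (d a : ℕ) * ∏ p ∈ U, (p : 𝓞 F) ^ (d p : ℕ) - 1 =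
        ((a : 𝓞 F) ^ (d a : ℕ) - 1) * ∏ p ∈ U, (p : 𝓞 F) ^ (d p : ℕ) +
          (∏ p ∈ U, (p : 𝓞 F) ^ (d p : ℕ) - 1) := by ring
      rw [e]
      exact dvd_add (h1.mul_right _) ih
  exact this Finset.univ

lemma fS_coe (S' : Finset (𝓞 F)) (d : S' → Fin 3) : algebraMap F K ((fS S' d : 𝓞 F) : F) =
    ∏ p : S', (algebraMap F K ((p : 𝓞 F) : F)) ^ (d p : ℕ) := by
  have : ((fS S' d : 𝓞 F) : F) = ∏ p : S', ((p : 𝓞 F) : F) ^ (d p : ℕ) := by
    show algebraMap (𝓞 F) F (fS S' d) = _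
    unfold fS
    rw [map_prod]
    simp only [map_pow]
  rw [this, map_prod]
  simp only [map_pow]

lemma Ms.ae (T : Ms F K ζ n S) {S' : Finset (𝓞 F)} (hS : S' ⊆ S) (d : S' → Fin 3)
    (v : HeightOneSpectrum (𝓞 K)) : AE v 1 (algebraMap F K ((fS S' d : 𝓞 F) : F)) := by
  by_cases hv : (3 : 𝓞 K) ∈ v.asIdeal
  · exact T.ae3 hv (T.fS_ne hS d) (T.fS_one hS d)
  · refine ae_away T.zetaK hv ?_ ?_
    · rw [Ne, map_eq_zero]
      exact fun h => T.fS_ne hS d (by exact_mod_cast h)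
    · rw [fS_coe, map_prod]
      have : ∀ U : Finset S', C3 (∏ p ∈ U, v.valuation K ((algebraMap F K ((p : 𝓞 F) : F)) ^ (d p : ℕ))) := by
        intro U
        classical
        induction U using Finset.induction_on with
        | empty => rw [Finset.prod_empty]; exact C3.one
        | insert a U ha ih =>
          rw [Finset.prod_insert ha]
          refine C3.mul ?_ ih
          rw [map_pow]
          have h1 := T.c3 (hS a.2) v
          generalize (d a : ℕ) = j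
          induction j with
          | zero => rw [pow_zero]; exact C3.one
          | succ j ih => rw [pow_succ]; exact ih.mul h1
      exact this Finset.univ

/-- an element whose cube is a quotient of elements of `F` prime to a totally ramified prime -/
lemma Ms.mem_F (T : Ms F K ζ n S) {p : 𝓞 F} (hp : p ∈ S) {v : HeightOneSpectrum (𝓞 K)}
    (hv : algebraMap (𝓞 F) (𝓞 K) p ∈ v.asIdeal) (hv3 : (3 : 𝓞 K) ∉ v.asIdeal) {b : K} {c : F}
    (hb : b ^ 3 = algebraMap F K c) (hvb : v.valuation K b = 1) :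
    ∃ b' : F, algebraMap F K b' = b := by
  refine (IsGalois.mem_range_algebraMap_iff_fixed (F := F) b).2 fun g => ?_
  have hI := T.quad
  set ω := algebraMap F K ζ with hω
  have h3 : (g b) ^ 3 = b ^ 3 := by rw [← map_pow, hb, g.commutes]
  have h1 := (T.tot p hp v hv g).triv hvb.le
  obtain ⟨h5, h6⟩ := v_omsub1 (F := F) (ζ := ζ) (K := K) T.quad' hv3
  have hom := v_om (V := v.valuation K) hI
  have hprod : (g b - b) * ((g b - ω * b) * (g b - ω ^ 2 * b)) = 0 := by
    have hw3 : ω ^ 3 = 1 := by linear_combination (ω - 1) * hI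
    linear_combination h3 + (-(g b) ^ 2 * b + g b * b ^ 2 * ω) * hI - b ^ 3 * hw3 +
      (g b * b ^ 2 * (1 - ω) * 0) * hI
  rcases mul_eq_zero.1 hprod with h7 | h7
  · exact sub_eq_zero.1 h7
  · exfalso
    rcases mul_eq_zero.1 h7 with h8 | h8
    · have e : g b - b = (ω - 1) * b := by linear_combination h8
      rw [e, map_mul, h5, hvb, one_mul] at h1
      exact lt_irrefl _ h1
    · have e : g b - b = (ω ^ 2 - 1) * b := by linear_combination h8
      rw [e, map_mul, h6, hvb, one_mul] at h1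
      exact lt_irrefl _ h1

/-- the valuations of the products -/
lemma Ms.val_fS (T : Ms F K ζ n S) {S' : Finset (𝓞 F)} (hS : S' ⊆ S) (d : S' → Fin 3) (p : S')
    {P : HeightOneSpectrum (𝓞 F)} (hP : P.asIdeal = Ideal.span {(p : 𝓞 F)}) :
    P.valuation F ((fS S' d : 𝓞 F) : F) = exp (-((d p : ℕ) : ℤ)) := by
  have e1 : ((fS S' d : 𝓞 F) : F) = algebraMap (𝓞 F) F (fS S' d) := rfl
  rw [e1, HeightOneSpectrum.valuation_of_algebraMap]
  unfold fS
  rw [map_prod, Finset.prod_eq_single p]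
  · have hp0 := (T.prime p (hS p.2)).1.ne_zero
    rw [map_pow, P.intValuation_singleton hp0 hP, ← exp_nsmul]
    congr 1
    simp
  · intro q _ hq
    rw [map_pow]
    have : P.intValuation (q : 𝓞 F) = 1 := by
      rw [HeightOneSpectrum.intValuation_eq_one_iff, hP, Ideal.mem_span_singleton]
      intro hd
      exact hq (Subtype.ext (cop_F T.zeta (T.prime p (hS p.2)).1 (T.prime q (hS q.2)).1
        (T.prime p (hS p.2)).2 (T.prime q (hS q.2)).2 hd).symm)
    rw [this, one_pow]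
  · intro h
    exact absurd (Finset.mem_univ p) h

lemma exists_hsp {p : 𝓞 F} (hp : Prime p) : ∃ P : HeightOneSpectrum (𝓞 F),
    P.asIdeal = Ideal.span {p} :=
  ⟨⟨Ideal.span {p}, (Ideal.span_singleton_prime hp.ne_zero).2 hp, by
    rw [Ne, Ideal.span_singleton_eq_bot]; exact hp.ne_zero⟩, rfl⟩

/-- the primes of `S` do not divide three -/
lemma Ms.three (T : Ms F K ζ n S) {p : 𝓞 F} (hp : p ∈ S) {v : HeightOneSpectrum (𝓞 K)}
    (hv : algebraMap (𝓞 F) (𝓞 K) p ∈ v.asIdeal) : (3 : 𝓞 K) ∉ v.asIdeal :=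
  three_notMem (T.prime p hp).2 hv

/-- **independence** -/
theorem Ms.indep [DecidableEq (𝓞 F)] (T : Ms F K ζ n S) {p : 𝓞 F} (hp : p ∈ S)
    {i i' : Fin 3} {d d' : ↥(S.erase p) → Fin 3}
    (h : IsC ((algebraMap F K ζ ^ (i : ℕ) * algebraMap F K ((fS (S.erase p) d : 𝓞 F) : F)) /
      (algebraMap F K ζ ^ (i' : ℕ) * algebraMap F K ((fS (S.erase p) d' : 𝓞 F) : F)))) :
    i = i' ∧ d = d' := by
  have hsub : S.erase p ⊆ S := Finset.erase_subset _ _
  obtain ⟨b, hb0, hb⟩ := h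
  obtain ⟨P, hP⟩ := exists_hsp (T.prime p hp).1
  obtain ⟨v, hv⟩ := exists_above (K := K) P
  have hpv : algebraMap (𝓞 F) (𝓞 K) p ∈ v.asIdeal := by
    have h1 : p ∈ P.asIdeal := by rw [hP]; exact Ideal.mem_span_singleton_self p
    rw [hv.over] at h1
    exact h1
  have hv3 := T.three hp hpv
  have hζ0 : ζ ≠ 0 := T.zeta.ne_zero (by norm_num)
  have hf0 := T.fS_ne hsub d
  have hf0' := T.fS_ne hsub d'
  have hf1 : ((fS (S.erase p) d : 𝓞 F) : F) ≠ 0 := fun h => hf0 (by exact_mod_cast h)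
  have hf1' : ((fS (S.erase p) d' : 𝓞 F) : F) ≠ 0 := fun h => hf0' (by exact_mod_cast h)
  have hbc : b ^ 3 = algebraMap F K ((ζ ^ (i : ℕ) * ((fS (S.erase p) d : 𝓞 F) : F)) /
      (ζ ^ (i' : ℕ) * ((fS (S.erase p) d' : 𝓞 F) : F))) := by
    rw [← hb, map_div₀, map_mul, map_mul, map_pow, map_pow]
  -- the elements are units at `v`
  have hunit : ∀ e : ↥(S.erase p) → Fin 3,
      v.valuation K (algebraMap F K ((fS (S.erase p) e : 𝓞 F) : F)) = 1 := by
    intro e
    rw [fS_coe, map_prod]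
    refine Finset.prod_eq_one fun q _ => ?_
    have hq : v.valuation K (algebraMap F K (((q : 𝓞 F)) : F)) = 1 := by
      have e1 : algebraMap F K ((q : 𝓞 F) : F) =
        algebraMap (𝓞 K) K (algebraMap (𝓞 F) (𝓞 K) (q : 𝓞 F)) := rfl
      rw [e1, HeightOneSpectrum.valuation_of_algebraMap, HeightOneSpectrum.intValuation_eq_one_iff]
      intro hmem
      have h1 : (q : 𝓞 F) ∈ P.asIdeal := by
        rw [hv.over]
        exact hmem
      rw [hP, Ideal.mem_span_singleton] at h1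
      have hqS := Finset.mem_erase.1 q.2
      exact hqS.1 (cop_F T.zeta (T.prime p hp).1 (T.prime q hqS.2).1 (T.prime p hp).2
        (T.prime q hqS.2).2 h1).symm
    rw [map_pow, hq, one_pow]
  have hom := v_om (V := v.valuation K) T.quad
  have hvb : v.valuation K b = 1 := by
    have h1 : v.valuation K b ^ 3 = 1 := by
      rw [← map_pow, ← hb, map_div₀, map_mul, map_mul, map_pow, map_pow, hom, hunit, hunit]
      simp
    exact (pow_eq_one_iff_of_nonneg (by simp) (by norm_num)).1 h1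
  obtain ⟨b', rfl⟩ := T.mem_F hp hpv hv3 hbc hvb
  have hb' : ζ ^ (i : ℕ) * ((fS (S.erase p) d : 𝓞 F) : F) =
      b' ^ 3 * (ζ ^ (i' : ℕ) * ((fS (S.erase p) d' : 𝓞 F) : F)) := by
    rw [← map_pow] at hbc
    have h1 := (algebraMap F K).injective hbc
    rw [h1, div_mul_cancel₀]
    exact mul_ne_zero (pow_ne_zero _ hζ0) hf1'
  have hb'0 : b' ≠ 0 := by
    rintro rfl
    exact hb0 (map_zero _)
  -- the exponents
  have hd : d = d' := by
    funext q
    have hqS := Finset.mem_erase.1 q.2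
    obtain ⟨Q, hQ⟩ := exists_hsp (T.prime q hqS.2).1
    have h1 := congrArg (Q.valuation F) hb'
    have homF := v_om (V := Q.valuation F) T.quad'
    rw [map_mul, map_mul, map_mul, map_pow, map_pow, map_pow, homF, one_pow, one_pow, one_mul,
      one_mul, T.val_fS hsub d q hQ, T.val_fS hsub d' q hQ] at h1
    obtain ⟨m, hm⟩ := exp_rep ((Valuation.ne_zero_iff (Q.valuation F)).2 hb'0)
    rw [hm, ← exp_nsmul, ← exp_add] at h1
    have h2 := exp_injective h1
    simp only [nsmul_eq_mul, Nat.cast_ofNat] at h2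
    have h3 := (d q).2
    have h4 := (d' q).2
    apply Fin.ext
    omega
  refine ⟨?_, hd⟩
  subst hd
  -- the root of unity
  have h1 : ζ ^ (i : ℕ) = b' ^ 3 * ζ ^ (i' : ℕ) := by
    apply mul_right_cancel₀ hf1
    rw [hb']
    ring
  obtain ⟨w, hw⟩ := exists_three K
  have hz3 := T.zeta.pow_eq_one
  have h2 : ζ ^ (((i : ℕ) + 2 * (i' : ℕ)) % 3) * (b'⁻¹) ^ 3 - 1 = 0 := by
    have e1 : ζ ^ (((i : ℕ) + 2 * (i' : ℕ)) % 3) = ζ ^ ((i : ℕ) + 2 * (i' : ℕ)) := by
      conv_rhs => rw [← Nat.div_add_mod ((i : ℕ) + 2 * (i' : ℕ)) 3, pow_add, pow_mul, hz3, one_pow,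
        one_mul]
    rw [e1, pow_add, h1]
    have e2 : ζ ^ (i' : ℕ) * ζ ^ (2 * (i' : ℕ)) = 1 := by
      rw [← pow_add, show (i' : ℕ) + 2 * (i' : ℕ) = 3 * (i' : ℕ) by ring, pow_mul, hz3, one_pow]
    have e3 : b' ^ 3 * ζ ^ (i' : ℕ) * ζ ^ (2 * (i' : ℕ)) * b'⁻¹ ^ 3 - 1 =
        b' ^ 3 * b'⁻¹ ^ 3 * (ζ ^ (i' : ℕ) * ζ ^ (2 * (i' : ℕ))) - 1 := by ring
    rw [e3, e2, mul_one, ← mul_pow, mul_inv_cancel₀ hb'0, one_pow, sub_self]
  have h3 := no_om (V := w.valuation K) T.quad (T.lam w hw) (c := algebraMap F K b'⁻¹)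
    (⟨((i : ℕ) + 2 * (i' : ℕ)) % 3, Nat.mod_lt _ (by norm_num)⟩ : Fin 3) (by
      have e : (algebraMap F K ζ) ^
          ((⟨((i : ℕ) + 2 * (i' : ℕ)) % 3, Nat.mod_lt _ (by norm_num)⟩ : Fin 3) : ℕ) *
          (algebraMap F K b'⁻¹) ^ 3 - 1 = 0 := by
        rw [← map_pow, ← map_pow, ← map_mul, ← map_one (algebraMap F K), ← map_sub, h2, map_zero]
      rw [e, map_zero]
      exact zero_le)
  have h4 : ((i : ℕ) + 2 * (i' : ℕ)) % 3 = 0 := congrArg Fin.val h3
  have h5 := i.2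
  have h6 := i'.2
  apply Fin.ext
  omega

/-- **the lower bound for the points and the Tate-Shafarevich group** -/
theorem Ms.main (T : Ms F K ζ n S) {k : ℕ} (hk : S.card = k + 1) :
    (9 : ℕ∞) ^ k ≤ 3 ^ Module.finrank ℤ (Pt (ED (1 : K)) K) *
      Set.encard {x : Sha (ED (1 : K)) | (3 : ℕ) • x = 0} ^ 2 := by
  classical
  have hne : S.Nonempty := Finset.card_pos.1 (by omega)
  obtain ⟨p, hp⟩ := hne
  have hsub : S.erase p ⊆ S := Finset.erase_subset _ _
  have hI := T.quad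
  obtain ⟨hidx, hsq⟩ := idx_bound (K := K) hI
  have h1 := count T.zetaK (ι := Fin 3 × (↥(S.erase p) → Fin 3))
    (a := fun x => algebraMap F K ζ ^ (x.1 : ℕ) *
      algebraMap F K ((fS (S.erase p) x.2 : 𝓞 F) : F)) (fun x => by
      refine mul_ne_zero (pow_ne_zero _ (T.zetaK.ne_zero (by norm_num))) ?_
      rw [Ne, map_eq_zero]
      exact fun h => T.fS_ne hsub x.2 (by exact_mod_cast h))
    (fun x v => ae_mul (ae_om T.zetaK v _) (T.ae hsub x.2 v))
    (fun x y h => by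
      obtain ⟨h2, h3⟩ := T.indep hp h
      exact Prod.ext h2 h3) hI
  have hcard : Nat.card (Fin 3 × (↥(S.erase p) → Fin 3)) = 3 ^ (k + 1) := by
    rw [Nat.card_prod, Nat.card_fun, Nat.card_eq_fintype_card, Nat.card_eq_fintype_card,
      Fintype.card_coe, Fintype.card_fin, Finset.card_erase_of_mem hp, hk, Nat.add_sub_cancel, pow_succ,
      mul_comm]
  rw [hcard] at h1
  set m := (th hI K).range.index with hm
  set r := Module.finrank ℤ (Pt (ED (1 : K)) K) with hr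
  set E := Set.encard {x : Sha (ED (1 : K)) | (3 : ℕ) • x = 0} with hE
  rcases eq_or_ne E ⊤ with h2 | h2
  · rw [h2]
    have : ((⊤ : ℕ∞)) ^ 2 = ⊤ := by simp
    rw [this, ENat.mul_top (by simp)]
    exact le_top
  · obtain ⟨N, hN⟩ := ENat.ne_top_iff_exists.1 h2
    rw [← hN] at h1 ⊢
    have h3 : 3 ^ (k + 1) ≤ m * N := by exact_mod_cast h1
    have h4 : 9 ^ k ≤ 3 ^ r * N ^ 2 := by
      have h5 : 3 ^ (k + 1) * 3 ^ (k + 1) ≤ (m * N) * (m * N) := Nat.mul_le_mul h3 h3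
      have h6 : (m * N) * (m * N) ≤ (3 ^ r * 9) * N ^ 2 := by
        calc (m * N) * (m * N) = (m * m) * N ^ 2 := by ring
          _ ≤ (3 ^ r * 9) * N ^ 2 := Nat.mul_le_mul_right _ hsq
      have h7 : 3 ^ (k + 1) * 3 ^ (k + 1) = 9 * 9 ^ k := by
        rw [show (9 : ℕ) = 3 ^ 2 by norm_num, ← pow_mul, ← pow_add, ← pow_add]
        congr 1
        ring
      rw [h7] at h5
      have h8 := h5.trans h6
      have h9 : 9 * 9 ^ k ≤ 9 * (3 ^ r * N ^ 2) := by
        refine h8.trans (le_of_eq ?_)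
        ring
      exact Nat.le_of_mul_le_mul_left h9 (by norm_num)
    exact_mod_cast h4

end field

end Pool.Agent.H62
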