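import Mathlib
import Pool.Agent.H62.Mul
import Pool.Agent.H62.Fin4

/-!
# The torsion points and the Tamagawa numbers
-/

set_option autoImplicit false
set_option linter.unusedSectionVars false

open scoped Classical

namespace Pool.Agent.H62

open NumberField IsDedekindDomain WithZero WeierstrassCurve
open Pool.Agent.Y696 (E27 Art)
open Pool.Agent.Q7.CE (ED Triv)
open Pool.Agent.Q7.LK (IsPow)
open Pool.Agent.Q38.CE (T3 mem_T3)
open Pool.Agent.TH841.SH.D (Pt)
open Pool.Agent.N883.T (Un3 exists_three min_all3 tors_all3)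

variable {F K : Type} [Field F] [NumberField F] [IsCyclotomicExtension {3} ℚ F] [Field K]
  [NumberField K] [Algebra F K] [IsGalois F K] {ζ : F} {n : ℕ} {S : Finset (𝓞 F)}

/-- the root of unity is not a cube -/
lemma Ms.om_ne (T : Ms F K ζ n S) : ¬ IsPow 3 (algebraMap F K ζ) := by
  obtain ⟨w, hw⟩ := exists_three K
  rintro ⟨x, hx⟩
  have h1 := no_om (V := w.valuation K) T.quad (T.lam w hw) (c := x⁻¹) 1 (by
    have hx0 : x ≠ 0 := by
      rintro rfl
      rw [zero_pow three_ne_zero] at hx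
      exact T.zeta.ne_zero (by norm_num) ((map_eq_zero (algebraMap F K)).1 hx)
    have e : (algebraMap F K ζ) ^ ((1 : Fin 3) : ℕ) * x⁻¹ ^ 3 - 1 = 0 := by
      rw [hx]
      simp only [Fin.val_one, pow_one]
      field_simp
      ring
    rw [e, map_zero]
    exact zero_le)
  exact absurd h1 (by decide)

/-- the torsion points are of order three -/
theorem Ms.three_smul (T : Ms F K ζ n S) (P : (E27 K).toAffine.Point)
    (hP : ∃ m : ℕ, 0 < m ∧ m • P = 0) : (3 : ℕ) • P = 0 := by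
  have h1 : ∀ m : ℕ, 0 < m → ∀ P : (E27 K).toAffine.Point, m • P = 0 → ∃ k, 3 ^ k • P = 0 := by
    intro m
    induction m using Nat.strong_induction_on with
    | _ m ih =>
      intro hm P hP
      by_cases h1 : m = 1
      · exact ⟨0, by rw [pow_zero]; rwa [h1] at hP⟩
      · obtain ⟨r, hr, k, rfl⟩ := Nat.exists_prime_and_dvd h1
        have hk : 0 < k := Nat.pos_of_mul_pos_left hm
        have hkm : k < r * k := by
          have := hr.two_le
          nlinarith
        by_cases h3r : r = 3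
        · obtain ⟨j, hj⟩ := ih k hkm hk (r • P) (by
            rw [← mul_smul, mul_comm k r]
            exact hP)
          refine ⟨j + 1, ?_⟩
          rw [h3r, ← mul_smul, ← pow_succ] at hj
          exact hj
        · have h2 : k • P = 0 := tors_all3 T.un3 hr h3r (k • P) (by
            rw [← mul_smul]
            exact hP)
          exact ih k hkm hk P h2
  obtain ⟨m, hm, hP⟩ := hP
  obtain ⟨k, hk⟩ := h1 m hm P hP
  exact tors3 T.zetaK T.om_ne k (P := P) hk

theorem Ms.card_tors (T : Ms F K ζ n S) :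
    Nat.card {P : (E27 K).toAffine.Point | ∃ m : ℕ, 0 < m ∧ m • P = 0} = 9 := by
  have h := card_T3 (K := K) T.quad
  rw [← h]
  refine Nat.card_congr ⟨fun P => ⟨P.1, T.three_smul P.1 P.2⟩, fun P => ⟨P.1, 3, by norm_num, P.2⟩,
    fun P => rfl, fun P => rfl⟩

/-- the Tamagawa numbers -/
theorem Ms.tam (T : Ms F K ζ n S) (v : HeightOneSpectrum (𝓞 K))
    (hv : (3 : 𝓞 K) ∈ v.asIdeal) : Pool.Agent.K7.H73.L3.cc (E27 K) v = 3 ∧
      Pool.Agent.K7.H73.L3.mf (E27 K) v = 1 :=
  cc_three v T.quad (T.lam v hv) (min_all3 T.un3 v)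

theorem Ms.prod (T : Ms F K ζ n S) : Pool.Agent.K7.H73.L3.CE (E27 K) = 3 := by
  obtain ⟨w, hw⟩ := exists_three K
  exact CE_three T.quad (T.lam w hw) (fun v hv => T.uniq v w hv hw) (min_all3 T.un3 w)

/-- the structure from the Artin map -/
theorem ms_of_art (hζ : IsPrimitiveRoot ζ 3) (hn0 : n ≠ 0) (hn : Module.finrank F K = 3 ^ n)
    (hS : ∀ p ∈ S, Prime p ∧ (3 : 𝓞 F) ∣ p - 1) (hun : Un3 F K)
    (htot : ∀ p ∈ S, ∀ v : HeightOneSpectrum (𝓞 K), algebraMap (𝓞 F) (𝓞 K) p ∈ v.asIdeal →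
      ∀ (g : Gal(K/F)) (x : 𝓞 K), g • x - x ∈ v.asIdeal)
    (huniq : ∀ v w : HeightOneSpectrum (𝓞 K), (3 : 𝓞 K) ∈ v.asIdeal → (3 : 𝓞 K) ∈ w.asIdeal →
      v = w) : Ms F K ζ n S where
  zeta := hζ
  npos := hn0
  card := by rw [← hn]; exact IsGalois.card_aut_eq_finrank F K
  prime := hS
  tot := htot
  uniq := huniq
  un3 := hun

end Pool.Agent.H62
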