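import Mathlib
import Pool.Agent.H62.Mul2
import Pool.Agent.H62.Lt6

/-!
# The local conditions at the ramified primes
-/

set_option autoImplicit false
set_option linter.unusedSectionVars false

namespace Pool.Agent.H62

open NumberField IsDedekindDomain WithZero
open Pool.Agent.Y696 (val_aut val_eq_of exp_lt exp_rep und und_lies exists_above)
open Pool.Agent.Y688 (dn val_rel)
open Pool.Agent.Q7.LK (IsPow)

/-- fixed classes modulo a subgroup that contains the cubes -/
theorem exists_fixZ {A : Type} [CommGroup A] (s : A →* A) (n : ℕ) (hs : ∀ y, s^[3 ^ n] y = y)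
    (Y Z : Subgroup A) (hY : ∀ y ∈ Y, s y ∈ Y) (hZ : ∀ z, z ^ 3 ∈ Z) {y : A} (hy : y ∈ Y)
    (hn : y ∉ Z) : ∃ y ∈ Y, y ∉ Z ∧ s y / y ∈ Z := by
  let N : A → A := fun y => s y / y
  have hNY : ∀ y ∈ Y, N y ∈ Y := fun y hy => Y.div_mem (hY y hy) hy
  have hcube : ∀ y, N^[3 ^ n] y ∈ Z := by
    intro y
    obtain ⟨z, hz⟩ := end_cube (M := Additive A) (MonoidHom.toAdditive s) n hs (Additive.ofMul y)
    have : N^[3 ^ n] y = (Additive.toMul z) ^ 3 := hz
    rw [this]
    exact hZ _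
  classical
  have hex : ∃ m, N^[m] y ∈ Z := ⟨_, hcube y⟩
  have hmin := Nat.find_spec hex
  have hpos : Nat.find hex ≠ 0 := by
    intro h0
    rw [h0] at hmin
    exact hn hmin
  obtain ⟨k, hk⟩ := Nat.exists_eq_succ_of_ne_zero hpos
  have hmem : ∀ m, N^[m] y ∈ Y := by
    intro m
    induction m with
    | zero => exact hy
    | succ m ih =>
      rw [Function.iterate_succ_apply']
      exact hNY _ ih
  refine ⟨N^[k] y, hmem k, Nat.find_min hex (by omega), ?_⟩
  rw [hk, Function.iterate_succ_apply'] at hmin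
  exact hmin

section

variable {F K : Type} [Field F] [NumberField F] [IsCyclotomicExtension {3} ℚ F] [Field K]
  [NumberField K] [Algebra F K] [IsGalois F K] {ζ : F} {n : ℕ} {S : Finset (𝓞 F)}

/-- an integer of `F` in a residue class -/
lemma exists_resF {P : HeightOneSpectrum (𝓞 K)} {f : F} (hf : P.valuation K (algebraMap F K f) ≤ 1) :
    ∃ y : 𝓞 F, P.valuation K (algebraMap F K (f - (y : F))) < 1 := by
  have hc : Nat.card (P.asIdeal.inertia (K ≃ₐ[F] K)) ≠ 0 := Nat.card_pos.ne'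
  have h1 : (dn F P).valuation F f ≤ 1 := by
    rw [val_rel] at hf
    exact (pow_le_one_iff hc).1 hf
  obtain ⟨r, hr⟩ := (dn F P).exists_valuation_sub_lt_of_integer h1 1
  rw [Units.val_one, Valuation.map_sub_swap] at hr
  refine ⟨r, ?_⟩
  rw [val_rel]
  exact pow_lt_one₀ (zero_le) hr hc

/-- the residue field of a totally ramified prime -/
lemma Ms.res (T : Ms F K ζ n S) {t : 𝓞 F} (ht : t ∈ S) {P : HeightOneSpectrum (𝓞 K)}
    (hP : algebraMap (𝓞 F) (𝓞 K) t ∈ P.asIdeal) {z : K} (hz : P.valuation K z ≤ 1) :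
    ∃ y : 𝓞 F, P.valuation K (z - algebraMap F K (y : F)) < 1 := by
  classical
  set V := P.valuation K with hV
  have htot := T.tot t ht P hP
  have h3 := T.three ht hP
  have hV3 : V 3 = 1 := by
    have e3 : (3 : K) = algebraMap (𝓞 K) K 3 := by rw [map_ofNat]
    rw [e3, hV, HeightOneSpectrum.valuation_of_algebraMap, HeightOneSpectrum.intValuation_eq_one_iff]
    exact h3
  set f : F := Algebra.trace F K z / 3 ^ n with hf
  have h1 : V (algebraMap F K (Algebra.trace F K z) - 3 ^ n * z) < 1 := by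
    rw [trace_eq_sum_automorphisms]
    have e : ∑ g : Gal(K/F), g z - 3 ^ n * z = ∑ g : Gal(K/F), (g z - z) := by
      rw [Finset.sum_sub_distrib, Finset.sum_const, Finset.card_univ, ← Nat.card_eq_fintype_card,
        T.card]
      simp
    rw [e]
    exact Valuation.map_sum_lt V one_ne_zero fun g _ => (htot g).triv hz
  have h2 : V (algebraMap F K f - z) < 1 := by
    have h30 : (3 : K) ^ n ≠ 0 := pow_ne_zero _ (by norm_num)
    have e : algebraMap F K f - z = (algebraMap F K (Algebra.trace F K z) - 3 ^ n * z) / 3 ^ n := by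
      rw [hf, map_div₀, map_pow, map_ofNat]
      field_simp
    rw [e, map_div₀, map_pow, hV3, one_pow, div_one]
    exact h1
  have h3 : V (algebraMap F K f) ≤ 1 := by
    have e : algebraMap F K f = (algebraMap F K f - z) + z := by ring
    rw [e]
    exact (Valuation.map_add _ _ _).trans (max_le h2.le hz)
  obtain ⟨y, hy⟩ := exists_resF h3
  refine ⟨y, ?_⟩
  have e : z - algebraMap F K (y : F) = (z - algebraMap F K f) + algebraMap F K (f - (y : F)) := by
    rw [map_sub]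
    ring
  rw [e]
  refine lt_of_le_of_lt (Valuation.map_add _ _ _) (max_lt ?_ hy)
  rw [Valuation.map_sub_swap]
  exact h2

/-- the quotients are cubes modulo the ramified primes -/
lemma cube_at {P : HeightOneSpectrum (𝓞 K)} {σ : Gal(K/F)} (hσ : Ine P σ) {x : K} (hx : x ≠ 0)
    (h3 : C3 (P.valuation K x)) :
    ∃ z : K, P.valuation K z = 1 ∧ P.valuation K (σ x / x - z ^ 3) < 1 := by
  set V := P.valuation K with hV
  obtain ⟨m, hm⟩ := h3
  obtain ⟨ϖ, hϖ⟩ := P.valuation_exists_uniformizer K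
  have hϖ0 : ϖ ≠ 0 := by
    rintro rfl
    rw [map_zero] at hϖ
    exact exp_ne_zero hϖ.symm
  set u := x * ϖ ^ (3 * m) with hu
  have hu0 : u ≠ 0 := mul_ne_zero hx (zpow_ne_zero _ hϖ0)
  have hVu : V u = 1 := by
    rw [hu, map_mul, map_zpow₀, hm, hϖ, ← exp_zsmul, ← exp_add]
    rw [← exp_zero]
    congr 1
    rw [smul_eq_mul]
    ring
  have hσϖ : σ ϖ ≠ 0 := (map_ne_zero σ).2 hϖ0
  refine ⟨(ϖ / σ ϖ) ^ m, ?_, ?_⟩
  · rw [map_zpow₀, map_div₀, hσ.inv, div_self ((Valuation.ne_zero_iff _).2 hϖ0), one_zpow]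
  · have hVz : V ((ϖ / σ ϖ) ^ m) = 1 := by
      rw [map_zpow₀, map_div₀, hσ.inv, div_self ((Valuation.ne_zero_iff _).2 hϖ0), one_zpow]
    have e : σ x / x - ((ϖ / σ ϖ) ^ m) ^ 3 = ((ϖ / σ ϖ) ^ m) ^ 3 * ((σ u - u) / u) := by
      have e1 : σ x / x = ((ϖ / σ ϖ) ^ m) ^ 3 * (σ u / u) := by
        rw [hu, map_mul, map_zpow₀, ← zpow_natCast ((ϖ / σ ϖ) ^ m), ← zpow_mul, div_zpow,
          mul_comm m, mul_div_mul_comm]
        push_cast
        have g1 : (ϖ : K) ^ (3 * m) ≠ 0 := zpow_ne_zero _ hϖ0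
        have g2 : (σ ϖ : K) ^ (3 * m) ≠ 0 := zpow_ne_zero _ hσϖ
        field_simp
      rw [e1]
      field_simp
    rw [e, map_mul, map_pow, hVz, one_pow, one_mul, map_div₀, hVu, div_one]
    exact hσ.triv hVu.le

lemma coe_prod (R : Finset (𝓞 F)) (m : 𝓞 F → ℕ) :
    algebraMap F K ((∏ p ∈ R, p ^ m p : 𝓞 F) : F) = ∏ p ∈ R, (algebraMap F K (p : F)) ^ m p := by
  have : ((∏ p ∈ R, p ^ m p : 𝓞 F) : F) = ∏ p ∈ R, (p : F) ^ m p := by
    show algebraMap (𝓞 F) F (∏ p ∈ R, p ^ m p) = _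
    rw [map_prod]
    simp only [map_pow]
  rw [this, map_prod]
  simp only [map_pow]

/-- the products with exponents proportional to the exponents of the root are cubes -/
lemma cube_exp {e : 𝓞 F → ℕ} {β : K} (hβ : β ^ 3 = algebraMap F K ((∏ p ∈ S, p ^ e p : 𝓞 F) : F))
    (h0 : ∀ p ∈ S, p ≠ 0) {m : 𝓞 F → ℕ} {c : ℕ} (h : ∀ q ∈ S, ((m q : ℕ) : ZMod 3) = c * e q) :
    ∃ d : K, algebraMap F K ((∏ p ∈ S, p ^ m p : 𝓞 F) : F) = d ^ 3 := by
  have hk : ∀ q ∈ S, ∃ k : ℤ, (m q : ℤ) = c * e q + 3 * k := by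
    intro q hq
    have h1 : ((((m q : ℤ) - c * e q : ℤ)) : ZMod 3) = 0 := by
      push_cast
      rw [h q hq]
      ring
    rw [ZMod.intCast_zmod_eq_zero_iff_dvd] at h1
    obtain ⟨k, hk⟩ := h1
    exact ⟨k, by push_cast at hk; linear_combination hk⟩
  choose! k hk using hk
  have hQ : ∀ q ∈ S, algebraMap F K (q : F) ≠ 0 := by
    intro q hq
    rw [Ne, map_eq_zero]
    exact fun h => h0 q hq (by exact_mod_cast h)
  refine ⟨β ^ c * ∏ q ∈ S, (algebraMap F K (q : F)) ^ k q, ?_⟩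
  rw [mul_pow, ← pow_mul, mul_comm c 3, pow_mul, hβ, coe_prod, coe_prod, ← Finset.prod_pow,
    ← Finset.prod_pow, ← Finset.prod_mul_distrib]
  refine Finset.prod_congr rfl fun q hq => ?_
  have h1 := hQ q hq
  rw [← pow_mul, ← zpow_natCast, hk q hq, zpow_add₀ h1, ← zpow_natCast, ← zpow_natCast, ← zpow_mul]
  congr 1
  · congr 1
    push_cast
    ring
  · congr 1
    push_cast
    ring

open scoped Classical in
/-- **the local conditions at the ramified primes** -/
theorem Ms.hloc (T : Ms F K ζ n S) {e : 𝓞 F → ℕ} {β : K} (D : TD T.zeta K n S e β)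
    (σ : Gal(K/F)) {x c : K} (i : ℕ) (m : 𝓞 F → ℕ) (hx : x ≠ 0) (hc : c ≠ 0)
    (h3 : ∀ v : HeightOneSpectrum (𝓞 K), (3 : 𝓞 K) ∉ v.asIdeal → C3 (v.valuation K x))
    (h : σ x / x = algebraMap F K ζ ^ i * algebraMap F K ((∏ p ∈ S, p ^ m p : 𝓞 F) : F) * c ^ 3) :
    ∃ d : K, algebraMap F K ((∏ p ∈ S, p ^ m p : 𝓞 F) : F) = d ^ 3 := by
  have h0 : ∀ p ∈ S, p ≠ 0 := fun p hp => (T.prime p hp).1.ne_zero
  have hQ : ∀ q ∈ S, algebraMap F K (q : F) ≠ 0 := by
    intro q hq
    rw [Ne, map_eq_zero]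
    exact fun h => h0 q hq (by exact_mod_cast h)
  have hβ0 : β ≠ 0 := by
    rintro rfl
    have h1 := D.root
    rw [zero_pow three_ne_zero, coe_prod] at h1
    exact Finset.prod_ne_zero_iff.2 (fun p hp => pow_ne_zero _ (hQ p hp)) h1.symm
  obtain ⟨c₀, hc₀⟩ := D.ker m (fun t ht => by
    obtain ⟨Pt, hPt⟩ := exists_hsp (T.prime t ht).1
    obtain ⟨P, hlo⟩ := exists_above (K := K) Pt
    have hP : algebraMap (𝓞 F) (𝓞 K) t ∈ P.asIdeal := by
      have h1 : t ∈ Pt.asIdeal := by rw [hPt]; exact Ideal.mem_span_singleton_self t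
      rw [hlo.over] at h1
      exact h1
    have hP3 := T.three ht hP
    set V := P.valuation K with hV
    -- a cube root of the root of unity
    have h3t : ¬ t ∣ 3 := not_dvd_three (D.prime t ht).1 (D.prime t ht).2
    have hzu : IsUnit T.zeta.toInteger := T.zeta.toInteger_isPrimitiveRoot.isUnit (by norm_num)
    obtain ⟨y₀, hy₀⟩ := cube_of_idx T.zeta (D.prime t ht).1 h3t
      (x := T.zeta.toInteger) (idx_unit T.zeta (D.prime t ht).1 (D.prime t ht).2 hzu)
    have hval : ∀ x : 𝓞 F, t ∣ x → V (algebraMap F K (x : F)) < 1 := by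
      intro x hx
      have h1 : algebraMap (𝓞 F) (𝓞 K) x ∈ P.asIdeal := by
        obtain ⟨y, rfl⟩ := hx
        rw [map_mul]
        exact P.asIdeal.mul_mem_right _ hP
      exact (mem_iff_val P _).1 h1
    have hval' : ∀ x : 𝓞 F, V (algebraMap F K (x : F)) < 1 → t ∣ x := by
      intro x hx
      have h1 : algebraMap (𝓞 F) (𝓞 K) x ∈ P.asIdeal := (mem_iff_val P _).2 hx
      have h2 : x ∈ (P.asIdeal.under (𝓞 F)) := h1
      rw [← hlo.over, hPt, Ideal.mem_span_singleton] at h2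
      exact h2
    have hle : ∀ x : 𝓞 F, V (algebraMap F K (x : F)) ≤ 1 := fun x =>
      P.valuation_le_one (algebraMap (𝓞 F) (𝓞 K) x)
    have hone : ∀ x : 𝓞 F, ¬ t ∣ x → V (algebraMap F K (x : F)) = 1 := fun x hx =>
      le_antisymm (hle x) (not_lt.1 fun h => hx (hval' x h))
    set Y₀ := algebraMap F K (y₀ : F) with hY₀
    set ω := algebraMap F K ζ with hω
    have hω0 : ω ≠ 0 := T.zetaK.ne_zero (by norm_num)
    have hom : V ω = 1 := v_om (V := V) T.quad
    have hY : V (ω - Y₀ ^ 3) < 1 := by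
      have h1 := hval _ hy₀
      have e1 : algebraMap F K ((T.zeta.toInteger - y₀ ^ 3 : 𝓞 F) : F) = ω - Y₀ ^ 3 := by
        have : ((T.zeta.toInteger - y₀ ^ 3 : 𝓞 F) : F) = ζ - (y₀ : F) ^ 3 := by
          show algebraMap (𝓞 F) F _ = _
          rw [map_sub, map_pow]
          rfl
        rw [this, map_sub, map_pow]
      rwa [e1] at h1
    obtain ⟨z, hz1, hz⟩ := cube_at (T.tot t ht P hP σ) hx (h3 P hP3)
    set B : 𝓞 F := ∏ q ∈ S.erase t, q ^ (e t * m q + 2 * e q * m t) with hB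
    have hBt : ¬ t ∣ B := by
      intro hd
      obtain ⟨q, hq, hd⟩ := (D.prime t ht).1.exists_mem_finset_dvd hd
      have h1 := (D.prime t ht).1.dvd_of_dvd_pow hd
      have hq' := Finset.mem_erase.1 hq
      exact hq'.1 (cop_F T.zeta (T.prime t ht).1 (T.prime q hq'.2).1 (T.prime t ht).2
        (T.prime q hq'.2).2 h1).symm
    have hVB := hone B hBt
    set Qt := algebraMap F K (t : F) with hQt
    have hQt0 : Qt ≠ 0 := hQ t ht
    -- the identity
    have hid : algebraMap F K (B : F) * (Qt ^ (e t * m t)) ^ 3 =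
        (algebraMap F K ((∏ p ∈ S, p ^ m p : 𝓞 F) : F)) ^ e t * (β ^ (2 * m t)) ^ 3 := by
      have e1 : (β ^ (2 * m t)) ^ 3 = (∏ p ∈ S, (algebraMap F K (p : F)) ^ e p) ^ (2 * m t) := by
        rw [← pow_mul, mul_comm _ 3, pow_mul, D.root, coe_prod]
      rw [e1, coe_prod, coe_prod, ← Finset.mul_prod_erase S _ ht, ← Finset.mul_prod_erase S _ ht,
        mul_pow, mul_pow, ← Finset.prod_pow, ← Finset.prod_pow]
      have e2 : ∏ p ∈ S.erase t, (algebraMap F K (p : F)) ^ (e t * m p + 2 * e p * m t) =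
          (∏ p ∈ S.erase t, ((algebraMap F K (p : F)) ^ m p) ^ e t) *
          ∏ p ∈ S.erase t, ((algebraMap F K (p : F)) ^ e p) ^ (2 * m t) := by
        rw [← Finset.prod_mul_distrib]
        refine Finset.prod_congr rfl fun q _ => ?_
        rw [← pow_mul, ← pow_mul, ← pow_add]
        congr 1
        ring
      rw [e2, ← hQt]
      have e3 : (Qt ^ (e t * m t)) ^ 3 = (Qt ^ m t) ^ e t * (Qt ^ e t) ^ (2 * m t) := by
        rw [← pow_mul, ← pow_mul, ← pow_mul, ← pow_add]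
        congr 1
        ring
      rw [e3]
      ring
    set g : K := β ^ (2 * m t) / (Qt ^ (e t * m t) * c ^ e t) with hg
    have hg0 : g ≠ 0 := div_ne_zero (pow_ne_zero _ hβ0) (mul_ne_zero (pow_ne_zero _ hQt0)
      (pow_ne_zero _ hc))
    set u := σ x / x with hu
    have hB2 : algebraMap F K (B : F) * ω ^ (i * e t) = u ^ e t * g ^ 3 := by
      rw [h, hg, mul_pow, mul_pow, div_pow, mul_pow]
      have g1 : (Qt ^ (e t * m t)) ^ 3 ≠ 0 := pow_ne_zero _ (pow_ne_zero _ hQt0)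
      have g2 : (c ^ e t) ^ 3 ≠ 0 := pow_ne_zero _ (pow_ne_zero _ hc)
      have e4 : (c ^ 3) ^ e t = (c ^ e t) ^ 3 := by rw [← pow_mul, ← pow_mul, mul_comm]
      rw [e4, ← pow_mul]
      rw [mul_div_assoc', eq_div_iff (mul_ne_zero g1 g2)]
      linear_combination (ω ^ (i * e t) * (c ^ e t) ^ 3) * hid
    have hVu : V u = 1 := by
      rw [hu, map_div₀, (T.tot t ht P hP σ).inv, div_self ((Valuation.ne_zero_iff _).2 hx)]
    have hVg : V g = 1 := by
      have h1 := congrArg V hB2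
      rw [map_mul, map_mul, map_pow, map_pow, map_pow, hVB, hom, hVu, one_pow, one_pow, one_mul,
        one_mul] at h1
      exact (pow_eq_one_iff_of_nonneg (by simp) (by norm_num)).1 h1.symm
    -- congruences
    have hpow : ∀ (a b : K), V a ≤ 1 → V b ≤ 1 → V (a - b) < 1 → ∀ j : ℕ, V (a ^ j - b ^ j) < 1 := by
      intro a b ha hb hab j
      induction j with
      | zero => simp
      | succ j ih =>
        have e : a ^ (j + 1) - b ^ (j + 1) = a * (a ^ j - b ^ j) + (a - b) * b ^ j := by ring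
        rw [e]
        refine lt_of_le_of_lt (Valuation.map_add _ _ _) (max_lt ?_ ?_)
        · rw [map_mul]
          exact lt_of_le_of_lt (mul_le_of_le_one_left' ha) ih
        · rw [map_mul, map_pow]
          exact lt_of_le_of_lt (mul_le_of_le_one_right' (pow_le_one' hb _)) hab
    have hVY : V Y₀ ≤ 1 := hle y₀
    -- `B` is a cube
    have hw1 : V (z ^ e t * Y₀ ^ (2 * (i * e t)) * g) ≤ 1 := by
      rw [map_mul, map_mul, map_pow, map_pow, hz1, hVg, one_pow, one_mul, mul_one]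
      exact pow_le_one' hVY _
    have hcube : V (algebraMap F K (B : F) - (z ^ e t * Y₀ ^ (2 * (i * e t)) * g) ^ 3) < 1 := by
      have e1 : algebraMap F K (B : F) - (z ^ e t * Y₀ ^ (2 * (i * e t)) * g) ^ 3 =
          g ^ 3 * ω ^ (2 * (i * e t)) * (u ^ e t - (z ^ 3) ^ e t) +
          g ^ 3 * (z ^ 3) ^ e t * (ω ^ (2 * (i * e t)) - (Y₀ ^ 3) ^ (2 * (i * e t))) := by
        have e2 : algebraMap F K (B : F) = u ^ e t * g ^ 3 * ω ^ (2 * (i * e t)) := by
          rw [← hB2, mul_assoc, ← pow_add, show i * e t + 2 * (i * e t) = 3 * (i * e t) by ring,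
            pow_mul, T.zetaK.pow_eq_one, one_pow, mul_one]
        rw [e2]
        have e3 : (z ^ 3) ^ e t = (z ^ e t) ^ 3 := by rw [← pow_mul, ← pow_mul, mul_comm]
        have e4 : (Y₀ ^ 3) ^ (2 * (i * e t)) = (Y₀ ^ (2 * (i * e t))) ^ 3 := by
          rw [← pow_mul, ← pow_mul, mul_comm]
        rw [e3, e4]
        ring
      rw [e1]
      refine lt_of_le_of_lt (Valuation.map_add _ _ _) (max_lt ?_ ?_)
      · rw [map_mul, map_mul, map_pow, map_pow, hVg, hom, one_pow, one_pow, one_mul, one_mul]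
        exact hpow _ _ hVu.le (by rw [map_pow, hz1, one_pow]) hz _
      · rw [map_mul, map_mul, map_pow, map_pow, map_pow, hVg, hz1, one_pow, one_pow, one_mul,
          one_mul]
        exact hpow _ _ hom.le (by rw [map_pow]; exact pow_le_one' hVY _) hY _
    obtain ⟨y, hy⟩ := T.res ht hP hw1
    refine ⟨y, hval' _ ?_⟩
    have e1 : algebraMap F K ((B - y ^ 3 : 𝓞 F) : F) = algebraMap F K (B : F) -
        (algebraMap F K (y : F)) ^ 3 := by
      have : ((B - y ^ 3 : 𝓞 F) : F) = (B : F) - (y : F) ^ 3 := by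
        show algebraMap (𝓞 F) F _ = _
        rw [map_sub, map_pow]
      rw [this, map_sub, map_pow]
    rw [e1]
    have e2 : algebraMap F K (B : F) - (algebraMap F K (y : F)) ^ 3 =
        (algebraMap F K (B : F) - (z ^ e t * Y₀ ^ (2 * (i * e t)) * g) ^ 3) +
        ((z ^ e t * Y₀ ^ (2 * (i * e t)) * g) ^ 3 - (algebraMap F K (y : F)) ^ 3) := by ring
    rw [e2]
    exact lt_of_le_of_lt (Valuation.map_add _ _ _) (max_lt hcube (hpow _ _ hw1 (hle y) hy 3)))
  exact cube_exp D.root h0 hc₀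

end

end Pool.Agent.H62
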