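import Mathlib
import Pool.Agent.H62.SelX

/-!
# The Selmer group of an extension ramified at several primes
-/

set_option autoImplicit false
set_option linter.unusedSectionVars false

namespace Pool.Agent.H62

open NumberField IsDedekindDomain WithZero
open Pool.Agent.Q7.CE
open Pool.Agent.Y696 (val_aut val_eq_of exp_lt exp_rep und und_lies exists_above)
open Pool.Agent.Y688 (dn val_rel)
open Pool.Agent.Q7.LK (IsPow)
open Pool.Agent.N883.T (Un3 exists_three val_theta3)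

section

variable {R : Type} [CommRing R] [IsDomain R] [IsPrincipalIdealRing R]

open scoped Classical in
theorem ufd_cubeS {S : Finset R} (hS : ∀ p ∈ S, Prime p) (g : R) : g ≠ 0 →
    (∀ v : HeightOneSpectrum R, (∀ p ∈ S, p ∉ v.asIdeal) → C3 (v.intValuation g)) →
    ∃ (u : Rˣ) (k : R → ℕ) (h : R), g = u * (∏ p ∈ S, p ^ k p) * h ^ 3 := by
  induction g using (wellFounded_dvdNotUnit (α := R)).induction with
  | _ g ih =>
    intro hg h
    by_cases hun : IsUnit g
    · exact ⟨hun.unit, 0, 1, by simp⟩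
    · obtain ⟨p, hp, hpg⟩ := WfDvdMonoid.exists_irreducible_factor hun hg
      have hp := hp.prime
      by_cases hass : ∃ π ∈ S, π ∣ g
      · obtain ⟨π, hπS, g', rfl⟩ := hass
        have hg' : g' ≠ 0 := right_ne_zero_of_mul hg
        obtain ⟨u, k, h', e⟩ := ih g' ⟨hg', π, (hS π hπS).not_isUnit, mul_comm _ _⟩ hg' (fun v hv => by
          have h1 := h v hv
          rw [map_mul, HeightOneSpectrum.intValuation_eq_one_iff.2 (hv π hπS), one_mul] at h1
          exact h1)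
        refine ⟨u, fun q => k q + if q = π then 1 else 0, h', ?_⟩
        have e1 : ∏ q ∈ S, q ^ (k q + if q = π then 1 else 0) = (∏ q ∈ S, q ^ k q) * π := by
          have : ∀ q ∈ S, q ^ (k q + if q = π then 1 else 0) = q ^ k q * (if q = π then q else 1) := by
            intro q _
            by_cases h : q = π
            · rw [if_pos h, if_pos h, pow_succ]
            · rw [if_neg h, if_neg h, add_zero, mul_one]
          rw [Finset.prod_congr rfl this, Finset.prod_mul_distrib, Finset.prod_ite_eq' S π, if_pos hπS]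
        rw [e1, e]
        ring
      · have hpπ : ∀ π ∈ S, π ∉ (hsp hp).asIdeal := by
          intro π hπS h1
          have h2 : p ∣ π := Ideal.mem_span_singleton.1 h1
          have h3 : Associated p π := hp.associated_of_dvd (hS π hπS) h2
          exact hass ⟨π, hπS, h3.symm.dvd.trans hpg⟩
        obtain ⟨m, hm⟩ := h _ hpπ
        have hlt : (hsp hp).intValuation g < 1 := by
          rw [HeightOneSpectrum.intValuation_lt_one_iff_mem]
          exact Ideal.mem_span_singleton.2 hpg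
        rw [hm, ← exp_zero, exp_lt_exp] at hlt
        have h3 : (hsp hp).intValuation g ≤ exp (-((3 : ℕ) : ℤ)) := by
          rw [hm, exp_le_exp]
          push_cast
          omega
        rw [HeightOneSpectrum.intValuation_le_pow_iff_mem] at h3
        have h4 : g ∈ Ideal.span {p ^ 3} := by
          rw [← Ideal.span_singleton_pow]
          exact h3
        obtain ⟨g', rfl⟩ := Ideal.mem_span_singleton.1 h4
        have hg' : g' ≠ 0 := right_ne_zero_of_mul hg
        have hnu : ¬ IsUnit (p ^ 3) := fun h => hp.not_isUnit ((isUnit_pow_iff three_ne_zero).1 h)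
        obtain ⟨u, k, h', e⟩ := ih g' ⟨hg', p ^ 3, hnu, mul_comm _ _⟩ hg' (fun v hv => by
          have h1 := h v hv
          rw [map_mul, map_pow] at h1
          exact C3.of_mul (C3.cube (v.intValuation_ne_zero p hp.ne_zero)) h1)
        exact ⟨u, k, p * h', by rw [e]; ring⟩

end

section

variable {F : Type} [Field F] [NumberField F] [IsPrincipalIdealRing (𝓞 F)]

theorem field_cubeS {S : Finset (𝓞 F)} (hS : ∀ p ∈ S, Prime p) {f : F} (hf : f ≠ 0)
    (h : ∀ v : HeightOneSpectrum (𝓞 F), (∀ p ∈ S, p ∉ v.asIdeal) → C3 (v.valuation F f)) :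
    ∃ (u : (𝓞 F)ˣ) (k : 𝓞 F → ℕ) (h : F), h ≠ 0 ∧
      f = ((u : 𝓞 F) : F) * ((∏ p ∈ S, p ^ k p : 𝓞 F) : F) * h ^ 3 := by
  obtain ⟨x, z, hz, rfl⟩ := IsFractionRing.div_surjective (A := 𝓞 F) f
  have hz0 : z ≠ 0 := nonZeroDivisors.ne_zero hz
  have hz1 : algebraMap (𝓞 F) F z ≠ 0 := by
    rw [Ne, FaithfulSMul.algebraMap_eq_zero_iff]
    exact hz0
  have hx0 : x ≠ 0 := by
    rintro rfl
    simp at hf
  obtain ⟨u, k, g, e⟩ := ufd_cubeS hS (x * z ^ 2) (mul_ne_zero hx0 (pow_ne_zero _ hz0)) (fun v hv => by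
    have h1 := h v hv
    have h2 : v.intValuation (x * z ^ 2) = v.valuation F (algebraMap (𝓞 F) F x / algebraMap (𝓞 F) F z) *
        (v.valuation F (algebraMap (𝓞 F) F z)) ^ 3 := by
      rw [← HeightOneSpectrum.valuation_of_algebraMap (K := F), ← map_pow, ← map_mul]
      congr 1
      show algebraMap (𝓞 F) F (x * z ^ 2) = _
      rw [map_mul, map_pow]
      field_simp
    rw [h2]
    exact h1.mul (C3.cube ((Valuation.ne_zero_iff _).2 hz1)))
  have hg : g ≠ 0 := by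
    rintro rfl
    rw [zero_pow three_ne_zero, mul_zero] at e
    exact mul_ne_zero hx0 (pow_ne_zero _ hz0) e
  have hg1 : algebraMap (𝓞 F) F g ≠ 0 := by
    rw [Ne, FaithfulSMul.algebraMap_eq_zero_iff]
    exact hg
  refine ⟨u, k, algebraMap (𝓞 F) F g / algebraMap (𝓞 F) F z, div_ne_zero hg1 hz1, ?_⟩
  have e' := congrArg (algebraMap (𝓞 F) F) e
  rw [map_mul, map_pow, map_mul, map_mul, map_pow] at e'
  rw [div_pow, ← mul_div_assoc, div_eq_div_iff hz1 (pow_ne_zero _ hz1)]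
  linear_combination (algebraMap (𝓞 F) F z) * e'

end

section

variable {F K : Type} [Field F] [NumberField F] [IsCyclotomicExtension {3} ℚ F] [Field K]
  [NumberField K] [Algebra F K] [IsGalois F K] {ζ : F} {n : ℕ} {S : Finset (𝓞 F)}

/-- the norm of a cube root of a quotient -/
lemma Ms.norm_one (T : Ms F K ζ n S) {t : 𝓞 F} (ht : t ∈ S) {σ : Gal(K/F)}
    {P : HeightOneSpectrum (𝓞 K)} (hP : algebraMap (𝓞 F) (𝓞 K) t ∈ P.asIdeal) {y c : K}
    (hy : y ≠ 0) (hc : c ^ 3 = σ y / y)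
    (h3 : C3 (P.valuation K y)) : Algebra.norm F c = 1 := by
  set V := P.valuation K with hV
  have htot := T.tot t ht P hP
  have hc0 : c ≠ 0 := by
    rintro rfl
    rw [zero_pow three_ne_zero] at hc
    exact div_ne_zero ((map_ne_zero σ).2 hy) hy hc.symm
  have hns : ∀ x : K, nz F K (σ x) = nz F K x := fun x =>
    Algebra.norm_eq_of_algEquiv σ x
  rw [nz_eq]
  have hN3 : (nz F K c) ^ 3 = 1 := by
    rw [← map_pow, hc, map_div₀, hns, div_self]
    exact nz_ne hy
  obtain ⟨m, hm⟩ := h3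
  obtain ⟨ϖ, hϖ⟩ := P.valuation_exists_uniformizer K
  have hϖ0 : ϖ ≠ 0 := by
    rintro rfl
    rw [map_zero] at hϖ
    exact exp_ne_zero hϖ.symm
  set u := y * ϖ ^ (3 * m) with hu
  have hu0 : u ≠ 0 := mul_ne_zero hy (zpow_ne_zero _ hϖ0)
  have hVu : V u = 1 := by
    rw [hu, map_mul, map_zpow₀, hV, hm, hϖ, ← exp_zsmul, ← exp_add]
    rw [← exp_zero]
    congr 1
    rw [smul_eq_mul]
    ring
  have hσϖ : σ ϖ ≠ 0 := (map_ne_zero σ).2 hϖ0
  set c' := c * (σ ϖ / ϖ) ^ m with hc'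
  have hc'3 : c' ^ 3 = σ u / u := by
    rw [hc', mul_pow, hc, hu, map_mul, map_zpow₀, ← zpow_natCast, ← zpow_mul, div_zpow,
      mul_comm m]
    push_cast
    rw [div_mul_div_comm]
  have hVc' : V (c' ^ 3 - 1) < 1 := by
    have e : c' ^ 3 - 1 = (σ u - u) / u := by
      rw [hc'3]
      field_simp
    rw [e, map_div₀, hVu, div_one]
    exact (htot σ).triv hVu.le
  have hVc1 : V c' ≤ 1 := by
    by_contra hcon
    have h1 : 1 < V (c' ^ 3) := by
      rw [map_pow]
      exact one_lt_pow₀ (not_le.1 hcon) three_ne_zero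
    have h2 : V (c' ^ 3 - 1) = V (c' ^ 3) := Valuation.map_sub_eq_of_lt_left _ (by rwa [map_one])
    rw [h2] at hVc'
    exact absurd hVc' (not_lt.2 h1.le)
  have hNc' : nz F K c' = nz F K c := by
    rw [hc', map_mul, map_zpow₀, map_div₀, hns, div_self, one_zpow, mul_one]
    exact nz_ne hϖ0
  have h5 := norm_tot htot hVc1
  rw [T.card, nz_eq, hNc'] at h5
  obtain ⟨k, hk⟩ := Nat.exists_eq_succ_of_ne_zero T.npos
  have h6 : V (c' ^ 3 ^ n - 1) < 1 := by
    have e : c' ^ 3 ^ n = (c' ^ 3) ^ 3 ^ k := by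
      rw [← pow_mul, hk, pow_succ, mul_comm]
    rw [e]
    have h7 : V (c' ^ 3) ≤ 1 := by rw [map_pow]; exact pow_le_one' hVc1 3
    have key : ∀ (z : K), V z ≤ 1 → V (z - 1) < 1 → ∀ j : ℕ, V (z ^ j - 1) < 1 := by
      intro z hz1 hz j
      induction j with
      | zero => simp
      | succ j ih =>
        have e : z ^ (j + 1) - 1 = z * (z ^ j - 1) + (z - 1) := by ring
        rw [e]
        refine lt_of_le_of_lt (Valuation.map_add _ _ _) (max_lt ?_ hz)
        rw [map_mul]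
        exact lt_of_le_of_lt (mul_le_of_le_one_left' hz1) ih
    exact key _ h7 hVc' _
  have h8 : V (algebraMap F K (nz F K c) - 1) < 1 := by
    have e : algebraMap F K (nz F K c) - 1 =
        (algebraMap F K (nz F K c) - c' ^ 3 ^ n) + (c' ^ 3 ^ n - 1) := by ring
    rw [e]
    exact lt_of_le_of_lt (Valuation.map_add _ _ _) (max_lt h5 h6)
  obtain ⟨i, hi, hi2⟩ := T.zeta.eq_pow_of_pow_eq_one hN3
  obtain ⟨g1, g2⟩ := v_omsub1 (K := K) T.quad' (T.three ht hP)
  rw [← hi2] at h8 ⊢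
  rw [map_pow] at h8
  interval_cases i
  · rw [pow_zero]
  · rw [pow_one] at h8
    rw [g1] at h8
    exact absurd h8 (lt_irrefl _)
  · rw [g2] at h8
    exact absurd h8 (lt_irrefl _)

/-- the valuations at the unramified primes -/
def UnrS (K : Type) [Field K] [NumberField K] [Algebra F K] (S : Finset (𝓞 F)) : Prop :=
  ∀ v : HeightOneSpectrum (𝓞 K), (∀ p ∈ S, algebraMap (𝓞 F) (𝓞 K) p ∉ v.asIdeal) → ∀ f : F,
    v.valuation K (algebraMap F K f) = (und (F := F) v).valuation F f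

/-- the descent -/
lemma Ms.desc (T : Ms F K ζ n S) (hunr : UnrS K S) {y y' : K} (hy' : y' ≠ 0) {f : F}
    (hf : algebraMap F K f = y * y' ^ 3) (hf0 : f ≠ 0)
    (h3 : ∀ v : HeightOneSpectrum (𝓞 K), C3 (v.valuation K y)) :
    ∃ (j : Fin 3) (k : 𝓞 F → ℕ) (z : K), z ≠ 0 ∧
      y = (algebraMap F K ζ) ^ (j : ℕ) * algebraMap F K ((∏ p ∈ S, p ^ k p : 𝓞 F) : F) * z ^ 3 := by
  have hpid := IsCyclotomicExtension.Rat.three_pid F
  obtain ⟨u, k, h, hh, e⟩ := field_cubeS (fun p hp => (T.prime p hp).1) hf0 (fun v₀ hv₀ => by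
    obtain ⟨v, hlo⟩ := exists_above (K := K) v₀
    have hund : und (F := F) v = v₀ := HeightOneSpectrum.ext hlo.over.symm
    have hπ : ∀ p ∈ S, algebraMap (𝓞 F) (𝓞 K) p ∉ v.asIdeal := by
      intro p hp hcon
      apply hv₀ p hp
      rw [← hund]
      exact hcon
    rw [← hund, ← hunr v hπ, hf, map_mul, map_pow]
    exact (h3 v).mul (C3.cube ((Valuation.ne_zero_iff _).2 hy')))
  obtain ⟨j, s, hs, hus⟩ := unit_F T.zeta u
  refine ⟨j, k, algebraMap F K (s * h) / y', ?_, ?_⟩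
  · exact div_ne_zero ((map_ne_zero _).2 (mul_ne_zero hs hh)) hy'
  · have e1 : y = algebraMap F K f / y' ^ 3 := by
      rw [hf]
      field_simp
    rw [e1, e, hus, map_mul, map_mul, map_mul, map_mul, map_pow, map_pow, map_pow]
    field_simp

/-- the group generated by the cubes and the primes -/
noncomputable def ZG (K : Type) [Field K] [NumberField K] [Algebra F K] [IsGalois F K] (S : Finset (𝓞 F))
    (h0 : ∀ p ∈ S, p ≠ 0) : Subgroup Kˣ where
  carrier := {z | ∃ (m : 𝓞 F → ℕ) (c : K), c ≠ 0 ∧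
    (z : K) = algebraMap F K ((∏ p ∈ S, p ^ m p : 𝓞 F) : F) * c ^ 3}
  one_mem' := ⟨0, 1, one_ne_zero, by simp⟩
  mul_mem' := by
    rintro y z ⟨m, c, hc, h⟩ ⟨m', c', hc', h'⟩
    refine ⟨m + m', c * c', mul_ne_zero hc hc', ?_⟩
    rw [Units.val_mul, h, h', coe_prod, coe_prod, coe_prod]
    have : ∏ p ∈ S, (algebraMap F K (p : F)) ^ (m + m') p =
        (∏ p ∈ S, (algebraMap F K (p : F)) ^ m p) * ∏ p ∈ S, (algebraMap F K (p : F)) ^ m' p := by
      rw [← Finset.prod_mul_distrib]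
      exact Finset.prod_congr rfl fun q _ => pow_add _ _ _
    rw [this]
    ring
  inv_mem' := by
    rintro y ⟨m, c, hc, h⟩
    have hQ : ∀ q ∈ S, algebraMap F K (q : F) ≠ 0 := by
      intro q hq
      rw [Ne, map_eq_zero]
      exact fun h => h0 q hq (by exact_mod_cast h)
    set A := ∏ p ∈ S, (algebraMap F K (p : F)) ^ m p with hA
    have hA0 : A ≠ 0 := Finset.prod_ne_zero_iff.2 fun p hp => pow_ne_zero _ (hQ p hp)
    refine ⟨fun p => 2 * m p, (A * c)⁻¹, inv_ne_zero (mul_ne_zero hA0 hc), ?_⟩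
    rw [Units.val_inv_eq_inv_val, h, coe_prod, coe_prod, ← hA]
    have : ∏ p ∈ S, (algebraMap F K (p : F)) ^ (2 * m p) = A ^ 2 := by
      rw [hA, ← Finset.prod_pow]
      exact Finset.prod_congr rfl fun q _ => by rw [← pow_mul, mul_comm]
    rw [this]
    field_simp

/-- **the Selmer group** -/
theorem Ms.sel [hcyc : IsCyclic Gal(K/F)] (T : Ms F K ζ n S) (hunr : UnrS K S) {e : 𝓞 F → ℕ} {β : K}
    (D : TD T.zeta K n S e β) (hne : S.Nonempty) {a : K} (ha : a ≠ 0)
    (h3 : ∀ v : HeightOneSpectrum (𝓞 K), C3 (v.valuation K a)) {w : HeightOneSpectrum (𝓞 K)}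
    (hw : (3 : 𝓞 K) ∈ w.asIdeal) (hl : Lc (algebraMap F K ζ) w a) :
    ∃ (i : ℕ) (m : 𝓞 F → ℕ) (c : K), c ≠ 0 ∧
      a = (algebraMap F K ζ) ^ i * algebraMap F K ((∏ p ∈ S, p ^ m p : 𝓞 F) : F) * c ^ 3 := by
  obtain ⟨i, c, hc, hic⟩ := hl
  set ω := algebraMap F K ζ with hω
  have hI := T.quad
  rw [← hω] at hI
  have hω0 : ω ≠ 0 := (map_ne_zero _).2 (T.zeta.ne_zero (by norm_num))
  have hω3 : ω ^ 3 = 1 := T.zetaK.pow_eq_one
  have h0 : ∀ p ∈ S, p ≠ 0 := fun p hp => (T.prime p hp).1.ne_zero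
  set y := a * ω ^ (i : ℕ) with hy
  have hy0 : y ≠ 0 := mul_ne_zero ha (pow_ne_zero _ hω0)
  set W := w.valuation K with hW
  obtain ⟨σ, hσ⟩ := IsCyclic.exists_generator (α := Gal(K/F))
  have hinvW : ∀ x : K, W (σ x) = W x := fun x =>
    val_inv_uniq (σ : K ≃+* K) (k := 3) (by exact_mod_cast hw) (fun v hv => T.uniq v w
      (by exact_mod_cast hv) hw) x
  let yu : Kˣ := Units.mk0 y hy0
  by_cases hmem : yu ∈ ZG K S h0
  · obtain ⟨m, c', hc', h⟩ := hmem
    refine ⟨2 * i, m, c', hc', ?_⟩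
    have h1 : a * ω ^ (i : ℕ) = algebraMap F K ((∏ p ∈ S, p ^ m p : 𝓞 F) : F) * c' ^ 3 := h
    have h2 : ω ^ (i : ℕ) * ω ^ (2 * (i : ℕ)) = 1 := by
      rw [← pow_add, show (i : ℕ) + 2 * i = 3 * i by ring, pow_mul, hω3, one_pow]
    calc a = a * (ω ^ (i : ℕ) * ω ^ (2 * (i : ℕ))) := by rw [h2, mul_one]
      _ = (a * ω ^ (i : ℕ)) * ω ^ (2 * (i : ℕ)) := by ring
      _ = _ := by rw [h1]; ring
  exfalso
  have hyY : yu ∈ SY W := by
    refine ⟨fun v => ?_, c, hc, hic⟩
    show C3 (v.valuation K y)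
    rw [hy, map_mul, map_pow, v_om (V := v.valuation K) hI, one_pow, mul_one]
    exact h3 v
  obtain ⟨x, hxY, hxn, hxZ⟩ := exists_fixZ (Units.map ((σ : K ≃ₐ[F] K) : K →* K)) n
    (fun y => by
      rw [iter_map, ← T.card]
      have : (σ : K ≃ₐ[F] K) ^ Nat.card Gal(K/F) = 1 := pow_card_eq_one'
      rw [this]
      ext
      rfl) (SY W) (ZG K S h0)
    (fun y hy => by
      obtain ⟨h1, c, hc, h2⟩ := hy
      refine ⟨fun v => ?_, σ c, (map_ne_zero σ).2 hc, ?_⟩
      · obtain ⟨v', hv'⟩ := val_aut (σ : K ≃+* K) v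
        have h4 : v.valuation K (σ (y : K)) = v'.valuation K (y : K) := hv' _
        show C3 (v.valuation K (σ (y : K)))
        rw [h4]
        exact h1 v'
      · show W (σ (y : K) * (σ c) ^ 3 - 1) ≤ _
        have e : σ (y : K) * (σ c) ^ 3 - 1 = σ ((y : K) * c ^ 3 - 1) := by
          rw [map_sub, map_mul, map_pow, map_one]
        rw [e, hinvW]
        exact h2)
    (fun z => ⟨0, z, z.ne_zero, by rw [Units.val_pow_eq_pow_val]; simp⟩) hyY hmem
  obtain ⟨hx1, c1, hc1, hx2⟩ := hxY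
  obtain ⟨m, d₀, hd₀, hxd⟩ := hxZ
  have hxd' : σ (x : K) / (x : K) = algebraMap F K ((∏ p ∈ S, p ^ m p : 𝓞 F) : F) * d₀ ^ 3 := by
    rw [← hxd, Units.val_div_eq_div_val]
    rfl
  obtain ⟨d₁, hd₁⟩ := T.hloc D σ 0 m x.ne_zero hd₀ (fun v _ => hx1 v) (by rw [pow_zero, one_mul, hxd'])
  have hd' : (d₁ * d₀) ^ 3 = σ (x : K) / (x : K) := by
    rw [hxd', hd₁, mul_pow]
  obtain ⟨t, ht⟩ := hne
  obtain ⟨P, hPlo⟩ := exists_above (K := K) (hsp (T.prime t ht).1)
  have hP : algebraMap (𝓞 F) (𝓞 K) t ∈ P.asIdeal := by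
    have h1 : t ∈ P.asIdeal.under (𝓞 F) := by
      rw [← hPlo.over]
      exact Ideal.mem_span_singleton_self t
    exact h1
  have hN := T.norm_one ht hP x.ne_zero hd' (hx1 P)
  obtain ⟨y', hy'⟩ := groupCohomology.exists_div_of_norm_eq_one hσ hN
  have hσy' : σ (y' : K) ≠ 0 := (map_ne_zero σ).2 y'.ne_zero
  -- `x y' ^ 3` lies in `F`
  have hfix : σ ((x : K) * (y' : K) ^ 3) = (x : K) * (y' : K) ^ 3 := by
    have h1 : σ (x : K) = (d₁ * d₀) ^ 3 * x := by
      rw [hd']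
      field_simp
    rw [map_mul, map_pow, h1, ← hy']
    field_simp
  have hall : ∀ g : Gal(K/F), g ((x : K) * (y' : K) ^ 3) = (x : K) * (y' : K) ^ 3 := by
    intro g
    obtain ⟨m, rfl⟩ := hσ g
    have hmem : σ ∈ MulAction.stabilizer Gal(K/F) ((x : K) * (y' : K) ^ 3) := hfix
    exact Subgroup.zpow_mem _ hmem m
  obtain ⟨f, hf⟩ := (IsGalois.mem_range_algebraMap_iff_fixed (F := F) _).2 hall
  have hf0 : f ≠ 0 := by
    rintro rfl
    rw [map_zero] at hf
    exact mul_ne_zero x.ne_zero (pow_ne_zero _ y'.ne_zero) hf.symm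
  obtain ⟨j, k, z, hz, hxz⟩ := T.desc hunr y'.ne_zero hf hf0 hx1
  rw [← hω] at hxz
  set B := algebraMap F K ((∏ p ∈ S, p ^ k p : 𝓞 F) : F) with hB
  -- the product is one modulo three
  have hWB : W (B - 1) ≤ exp (-2 : ℤ) := by
    have h31 : (3 : 𝓞 F) ∣ (∏ p ∈ S, p ^ k p) - 1 := by
      have : ∀ R : Finset (𝓞 F), R ⊆ S → (3 : 𝓞 F) ∣ (∏ p ∈ R, p ^ k p) - 1 := by
        classical
        intro R
        induction R using Finset.induction_on with
        | empty => intro _; simp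
        | insert q R hq ih =>
          intro hR
          rw [Finset.prod_insert hq]
          have h1 := ih ((Finset.subset_insert q R).trans hR)
          have h2 : (3 : 𝓞 F) ∣ q ^ k q - 1 :=
            ((T.prime q (hR (Finset.mem_insert_self q R))).2).trans (sub_one_dvd_pow_sub_one q (k q))
          have e : q ^ k q * ∏ p ∈ R, p ^ k p - 1 =
              (q ^ k q - 1) * ∏ p ∈ R, p ^ k p + (∏ p ∈ R, p ^ k p - 1) := by ring
          rw [e]
          exact dvd_add (h2.mul_right _) h1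
      exact this S (Finset.Subset.refl S)
    obtain ⟨r, hr⟩ := h31
    have e1 : B - 1 = 3 * algebraMap F K (r : F) := by
      have h1 : ((∏ p ∈ S, p ^ k p : 𝓞 F) : F) = 1 + 3 * (r : F) := by
        have h2 : (∏ p ∈ S, p ^ k p : 𝓞 F) = 1 + 3 * r := by rw [← hr]; ring
        rw [h2]
        show algebraMap (𝓞 F) F (1 + 3 * r) = _
        rw [map_add, map_mul, map_one, map_ofNat]
      rw [hB, h1, map_add, map_mul, map_one, map_ofNat]
      ring
    rw [e1, map_mul, v_three hI (T.lam w hw)]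
    refine mul_le_of_le_one_right' ?_
    exact w.valuation_le_one (algebraMap (𝓞 F) (𝓞 K) r)
  have hB1 : W B = 1 := near_one hWB
  have hj : j = 0 := by
    refine no_om (V := W) hI (T.lam w hw) (c := z * c1) j ?_
    have e1 : W (ω ^ (j : ℕ) * (z * c1) ^ 3 * B - 1) ≤ exp (-2 : ℤ) := by
      have e : ω ^ (j : ℕ) * (z * c1) ^ 3 * B - 1 = (x : K) * c1 ^ 3 - 1 := by
        rw [hxz]
        ring
      rw [e]
      exact hx2
    have e2 : W (ω ^ (j : ℕ) * (z * c1) ^ 3) = 1 := by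
      have h1 := near_one e1
      rwa [map_mul, hB1, mul_one] at h1
    have e : ω ^ (j : ℕ) * (z * c1) ^ 3 - 1 = (ω ^ (j : ℕ) * (z * c1) ^ 3 * B - 1) -
        ω ^ (j : ℕ) * (z * c1) ^ 3 * (B - 1) := by ring
    rw [e]
    refine sub_le' e1 ?_
    rw [map_mul, e2, one_mul]
    exact hWB
  apply hxn
  refine ⟨k, z, hz, ?_⟩
  rw [hxz, hj, ← hB, Fin.val_zero, pow_zero, one_mul]

/-- **the Selmer group** -/
theorem Ms.hB1 [hcyc : IsCyclic Gal(K/F)] (T : Ms F K ζ n S) (hunr : UnrS K S) {e : 𝓞 F → ℕ} {β : K}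
    (D : TD T.zeta K n S e β) (hne : S.Nonempty) {a : K}
    (h : ∀ v : HeightOneSpectrum (𝓞 K), AE v 1 a) :
    ∃ (i : ℕ) (m : 𝓞 F → ℕ) (c : K), c ≠ 0 ∧
      a = (algebraMap F K ζ) ^ i * algebraMap F K ((∏ p ∈ S, p ^ m p : 𝓞 F) : F) * c ^ 3 := by
  obtain ⟨w, hw⟩ := exists_three K
  exact T.sel hunr D hne (h w).1 (fun v => ae_c3 v (h v)) hw (ae_lc T.quad w hw (T.lam w hw) (h w))

end

end Pool.Agent.H62
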