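import Mathlib
import Pool.Agent.H62.SelY
import Pool.Agent.H81.Hes3

/-!
# The cubic subextension of an extension ramified at several primes, and the condition on the local cubes
-/

set_option autoImplicit false
set_option linter.unusedSectionVars false

namespace Pool.Agent.H62

open NumberField IsDedekindDomain WithZero
open Pool.Agent.Y696 (val_aut val_eq_of exp_lt exp_rep und und_lies exists_above)
open Pool.Agent.Y688 (dn val_rel)
open Pool.Agent.N883.T (Un3 exists_three val_theta3)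
open Pool.Agent.Y682 Pool.Agent.Q285.LK

variable {F K : Type} [Field F] [NumberField F] [IsCyclotomicExtension {3} ℚ F] [Field K]
  [NumberField K] [Algebra F K] [IsGalois F K] {ζ : F} {n : ℕ} {S : Finset (𝓞 F)}

lemma Ms.prod_one (T : Ms F K ζ n S) (k : 𝓞 F → ℕ) {w : HeightOneSpectrum (𝓞 K)}
    (hw : (3 : 𝓞 K) ∈ w.asIdeal) :
    w.valuation K (algebraMap F K ((∏ p ∈ S, p ^ k p : 𝓞 F) : F) - 1) ≤ exp (-2 : ℤ) := by
  have h31 : (3 : 𝓞 F) ∣ (∏ p ∈ S, p ^ k p) - 1 := by
    have : ∀ R : Finset (𝓞 F), R ⊆ S → (3 : 𝓞 F) ∣ (∏ p ∈ R, p ^ k p) - 1 := by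
      classical
      intro R
      induction R using Finset.induction_on with
      | empty => intro _; simp
      | insert q R hq ih =>
        intro hR
        rw [Finset.prod_insert hq]
        have h1 := ih ((Finset.subset_insert q R).trans hR)
        have h2 : (3 : 𝓞 F) ∣ q ^ k q - 1 :=
          ((T.prime q (hR (Finset.mem_insert_self q R))).2).trans (sub_one_dvd_pow_sub_one q (k q))
        have e : q ^ k q * ∏ p ∈ R, p ^ k p - 1 =
            (q ^ k q - 1) * ∏ p ∈ R, p ^ k p + (∏ p ∈ R, p ^ k p - 1) := by ring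
        rw [e]
        exact dvd_add (h2.mul_right _) h1
    exact this S (Finset.Subset.refl S)
  obtain ⟨r, hr⟩ := h31
  have e1 : algebraMap F K ((∏ p ∈ S, p ^ k p : 𝓞 F) : F) - 1 = 3 * algebraMap F K (r : F) := by
    have h1 : ((∏ p ∈ S, p ^ k p : 𝓞 F) : F) = 1 + 3 * (r : F) := by
      have h2 : (∏ p ∈ S, p ^ k p : 𝓞 F) = 1 + 3 * r := by rw [← hr]; ring
      rw [h2]
      show algebraMap (𝓞 F) F (1 + 3 * r) = _
      rw [map_add, map_mul, map_one, map_ofNat]
    rw [h1, map_add, map_mul, map_one, map_ofNat]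
    ring
  rw [e1, map_mul, v_three T.quad (T.lam w hw)]
  refine mul_le_of_le_one_right' ?_
  exact w.valuation_le_one (algebraMap (𝓞 F) (𝓞 K) r)

/-- valuations of a product at a totally ramified prime -/
lemma Ms.val_unit (T : Ms F K ζ n S) {t : 𝓞 F} (ht : t ∈ S) {P : HeightOneSpectrum (𝓞 K)}
    (hP : algebraMap (𝓞 F) (𝓞 K) t ∈ P.asIdeal) {q : 𝓞 F} (hq : q ∈ S) (hqt : q ≠ t) :
    P.valuation K (algebraMap F K (q : F)) = 1 := by
  have e1 : algebraMap F K (q : F) = algebraMap (𝓞 K) K (algebraMap (𝓞 F) (𝓞 K) q) := rfl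
  rw [e1, HeightOneSpectrum.valuation_of_algebraMap, HeightOneSpectrum.intValuation_eq_one_iff]
  intro hmem
  have h1 : q ∈ (dn F P).asIdeal := hmem
  rw [dn_span (T.prime t ht).1 hP, Ideal.mem_span_singleton] at h1
  exact hqt (cop_F T.zeta (T.prime t ht).1 (T.prime q hq).1 (T.prime t ht).2
    (T.prime q hq).2 h1).symm

open scoped Classical in
/-- **a generator of the cubic subextension** -/
theorem Ms.exists_kum [hcyc : IsCyclic Gal(K/F)] (T : Ms F K ζ n S) (hunr : UnrS K S) :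
    ∃ (b : K) (e : 𝓞 F → ℕ) (σ : Gal(K/F)), b ^ 3 = algebraMap F K ((∏ p ∈ S, p ^ e p : 𝓞 F) : F) ∧
      (∀ p ∈ S, ¬ 3 ∣ e p) ∧ (∀ x, x ∈ Subgroup.zpowers σ) ∧ b ≠ 0 ∧
      σ b = algebraMap F K ζ * b := by
  have hpid := IsCyclotomicExtension.Rat.three_pid F
  obtain ⟨σ, hσ⟩ := IsCyclic.exists_generator (α := Gal(K/F))
  set ω := algebraMap F K ζ with hω
  have hI : ω ^ 2 + ω + 1 = 0 := T.quad
  have hω3 : ω ^ 3 = 1 := by linear_combination (ω - 1) * hI
  have hσω : σ ω = ω := σ.commutes ζ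
  have hω0 : ω ≠ 0 := T.zetaK.ne_zero (by norm_num)
  have hω1 : ω ≠ 1 := T.zetaK.ne_one (by norm_num)
  have hN : Algebra.norm F (ω ^ 2) = 1 := by
    rw [hω, ← map_pow, Algebra.norm_algebraMap, ← IsGalois.card_aut_eq_finrank F K, T.card]
    obtain ⟨k, hk⟩ := Nat.exists_eq_succ_of_ne_zero T.npos
    have e : (ζ ^ 2) ^ 3 ^ n = (ζ ^ 3) ^ (2 * 3 ^ k) := by
      rw [hk, ← pow_mul, ← pow_mul, Nat.succ_eq_add_one]
      congr 1
      ring
    rw [e, T.zeta.pow_eq_one, one_pow]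
  obtain ⟨y, hy⟩ := groupCohomology.exists_div_of_norm_eq_one hσ hN
  have hσy0 : σ (y : K) ≠ 0 := (map_ne_zero σ).2 y.ne_zero
  have hσy : σ (y : K) = ω * y := by
    rw [div_eq_iff hσy0] at hy
    linear_combination (-ω) * hy - (σ (y : K)) * hω3
  have hfix : σ ((y : K) ^ 3) = (y : K) ^ 3 := by
    rw [map_pow, hσy, mul_pow, hω3, one_mul]
  have hall : ∀ g : Gal(K/F), g ((y : K) ^ 3) = (y : K) ^ 3 := by
    intro g
    obtain ⟨m, rfl⟩ := hσ g
    have hmem : σ ∈ MulAction.stabilizer Gal(K/F) ((y : K) ^ 3) := hfix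
    exact Subgroup.zpow_mem _ hmem m
  obtain ⟨f, hf⟩ := (IsGalois.mem_range_algebraMap_iff_fixed (F := F) _).2 hall
  have hf0 : f ≠ 0 := by
    rintro rfl
    rw [map_zero] at hf
    exact pow_ne_zero _ y.ne_zero hf.symm
  obtain ⟨u, k, h, hh, e⟩ := field_cubeS (fun p hp => (T.prime p hp).1) hf0 (fun v₀ hv₀ => by
    obtain ⟨v, hlo⟩ := exists_above (K := K) v₀
    have hund : und (F := F) v = v₀ := HeightOneSpectrum.ext hlo.over.symm
    have hπ : ∀ p ∈ S, algebraMap (𝓞 F) (𝓞 K) p ∉ v.asIdeal := by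
      intro p hp hcon
      apply hv₀ p hp
      rw [← hund]
      exact hcon
    rw [← hund, ← hunr v hπ, hf, map_pow]
    exact C3.cube ((Valuation.ne_zero_iff _).2 y.ne_zero))
  obtain ⟨j, s, hs, hus⟩ := unit_F T.zeta u
  have hD0 : algebraMap F K (s * h) ≠ 0 := (map_ne_zero _).2 (mul_ne_zero hs hh)
  set b := (y : K) / algebraMap F K (s * h) with hb
  have hb0 : b ≠ 0 := div_ne_zero y.ne_zero hD0
  have hσb : σ b = ω * b := by
    rw [hb, map_div₀, hσy, σ.commutes, mul_div_assoc]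
  set B := algebraMap F K ((∏ p ∈ S, p ^ k p : 𝓞 F) : F) with hB
  have hb3 : b ^ 3 = ω ^ (j : ℕ) * B := by
    rw [hb, div_pow, ← hf, e, hus, hB, hω, map_mul, map_mul, map_mul, map_mul, map_pow, map_pow,
      map_pow]
    have h1 : algebraMap F K s ≠ 0 := (map_ne_zero _).2 hs
    have h2 : algebraMap F K h ≠ 0 := (map_ne_zero _).2 hh
    field_simp
  have hQ : ∀ q ∈ S, algebraMap F K (q : F) ≠ 0 := by
    intro q hq
    rw [Ne, map_eq_zero]
    exact fun h => (T.prime q hq).1.ne_zero (by exact_mod_cast h)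
  have hB0 : B ≠ 0 := by
    rw [hB, coe_prod]
    exact Finset.prod_ne_zero_iff.2 fun q hq => pow_ne_zero _ (hQ q hq)
  obtain ⟨w, hw⟩ := exists_three K
  set W := w.valuation K with hW
  have hWB := T.prod_one k hw
  rw [← hB, ← hW] at hWB
  have hj : j = 0 := by
    refine no_om (V := W) hI (T.lam w hw) (c := b⁻¹) j ?_
    have e1 : ω ^ (j : ℕ) * b⁻¹ ^ 3 - 1 = -(B - 1) / B := by
      rw [inv_pow, hb3]
      have h1 : ω ^ (j : ℕ) ≠ 0 := pow_ne_zero _ hω0
      field_simp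
      ring
    rw [e1, map_div₀, near_one hWB, div_one, Valuation.map_neg]
    exact hWB
  rw [hj, Fin.val_zero, pow_zero, one_mul] at hb3
  refine ⟨b, k, σ, hb3, ?_, hσ, hb0, hσb⟩
  rintro t ht ⟨m, hm⟩
  obtain ⟨P, hPlo⟩ := exists_above (K := K) (hsp (T.prime t ht).1)
  have hP : algebraMap (𝓞 F) (𝓞 K) t ∈ P.asIdeal := by
    have h1 : t ∈ P.asIdeal.under (𝓞 F) := by
      rw [← hPlo.over]
      exact Ideal.mem_span_singleton_self t
    exact h1
  set V := P.valuation K with hV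
  set b' := b / (algebraMap F K (t : F)) ^ m with hb'
  have hσb' : σ b' = ω * b' := by
    rw [hb', map_div₀, map_pow, σ.commutes, hσb, mul_div_assoc]
  have hb'3 : b' ^ 3 = ∏ q ∈ S.erase t, (algebraMap F K (q : F)) ^ k q := by
    have h1 := hQ t ht
    rw [hb', div_pow, hb3, hB, coe_prod, ← Finset.mul_prod_erase S _ ht, hm, ← pow_mul,
      mul_comm m 3]
    field_simp
  have hVb' : V b' = 1 := by
    have h1 : V b' ^ 3 = 1 := by
      rw [← map_pow, hb'3, map_prod]
      refine Finset.prod_eq_one fun q hq => ?_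
      have hq' := Finset.mem_erase.1 hq
      rw [map_pow, T.val_unit ht hP hq'.2 hq'.1, one_pow]
    exact (pow_eq_one_iff_of_nonneg (by simp) (by norm_num)).1 h1
  have h2 := (T.tot t ht P hP σ).triv hVb'.le
  obtain ⟨g1, g2⟩ := v_omsub1 (K := K) T.quad' (T.three ht hP)
  have e3 : σ b' - b' = (ω - 1) * b' := by rw [hσb']; ring
  rw [e3, map_mul, hVb', mul_one, g1] at h2
  exact lt_irrefl _ h2

open scoped Classical in
/-- **the condition on the local cubes** -/
theorem Ms.td [hcyc : IsCyclic Gal(K/F)] (T : Ms F K ζ n S) (hunr : UnrS K S)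
    (hS : ∀ p ∈ S, Prime p ∧ 3 * (2 * T.zeta.toInteger + 1) ∣ p - 1)
    (hN : ∀ p ∈ S, 3 ^ (n + 1) ∣ Nm p - 1)
    (hR : ∀ x : 𝓞 F → ℕ, (∀ v : HeightOneSpectrum (𝓞 K),
      (∃ p ∈ S, algebraMap (𝓞 F) (𝓞 K) p ∈ v.asIdeal) → ∃ y : v.adicCompletion K,
        y ^ 3 = algebraMap K (v.adicCompletion K) (algebraMap F K ((∏ p ∈ S, p ^ x p : 𝓞 F) : F))) →
      ∃ z : K, z ^ 3 = algebraMap F K ((∏ p ∈ S, p ^ x p : 𝓞 F) : F)) :
    ∃ (e : 𝓞 F → ℕ) (β : K), TD T.zeta K n S e β := by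
  obtain ⟨b, e, σ, hb, he, hσ, hb0, hσb⟩ := T.exists_kum hunr
  refine ⟨e, b, ⟨hS, hN, he, hb, ?_⟩⟩
  have hQ : ∀ q ∈ S, algebraMap F K (q : F) ≠ 0 := by
    intro q hq
    rw [Ne, map_eq_zero]
    exact fun h => (T.prime q hq).1.ne_zero (by exact_mod_cast h)
  set ω := algebraMap F K ζ with hω
  have hI : ω ^ 2 + ω + 1 = 0 := T.quad
  have hω3 : ω ^ 3 = 1 := by linear_combination (ω - 1) * hI
  have hω0 : ω ≠ 0 := T.zetaK.ne_zero (by norm_num)
  intro x hx
  obtain ⟨z, hz⟩ := hR x (fun v hv => by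
    obtain ⟨t, ht, hP⟩ := hv
    obtain ⟨y, hy⟩ := hx t ht
    set B : 𝓞 F := ∏ q ∈ S.erase t, q ^ (e t * x q + 2 * e q * x t) with hB
    set Qt := algebraMap F K (t : F) with hQt
    have hQt0 : Qt ≠ 0 := hQ t ht
    have hid : algebraMap F K (B : F) * (Qt ^ (e t * x t)) ^ 3 =
        (algebraMap F K ((∏ p ∈ S, p ^ x p : 𝓞 F) : F)) ^ e t * (b ^ (2 * x t)) ^ 3 := by
      have e1 : (b ^ (2 * x t)) ^ 3 = (∏ p ∈ S, (algebraMap F K (p : F)) ^ e p) ^ (2 * x t) := by
        rw [← pow_mul, mul_comm _ 3, pow_mul, hb, coe_prod]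
      rw [e1, coe_prod, coe_prod, ← Finset.mul_prod_erase S _ ht, ← Finset.mul_prod_erase S _ ht,
        mul_pow, mul_pow, ← Finset.prod_pow, ← Finset.prod_pow]
      have e2 : ∏ p ∈ S.erase t, (algebraMap F K (p : F)) ^ (e t * x p + 2 * e p * x t) =
          (∏ p ∈ S.erase t, ((algebraMap F K (p : F)) ^ x p) ^ e t) *
          ∏ p ∈ S.erase t, ((algebraMap F K (p : F)) ^ e p) ^ (2 * x t) := by
        rw [← Finset.prod_mul_distrib]
        refine Finset.prod_congr rfl fun q _ => ?_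
        rw [← pow_mul, ← pow_mul, ← pow_add]
        congr 1
        ring
      rw [e2, ← hQt]
      have e3 : (Qt ^ (e t * x t)) ^ 3 = (Qt ^ x t) ^ e t * (Qt ^ e t) ^ (2 * x t) := by
        rw [← pow_mul, ← pow_mul, ← pow_mul, ← pow_add]
        congr 1
        ring
      rw [e3]
      ring
    -- `B` is a cube in the completion
    have hVB : v.valuation K (algebraMap F K (B : F)) = 1 := by
      rw [hB, coe_prod, map_prod]
      refine Finset.prod_eq_one fun q hq => ?_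
      have hq' := Finset.mem_erase.1 hq
      rw [map_pow, T.val_unit ht hP hq'.2 hq'.1, one_pow]
    have hVlt : v.valuation K (algebraMap F K ((B - y ^ 3 : 𝓞 F) : F)) < 1 := by
      have h1 : algebraMap (𝓞 F) (𝓞 K) (B - y ^ 3) ∈ v.asIdeal := by
        obtain ⟨r, hr⟩ := hy
        rw [hr, map_mul]
        exact v.asIdeal.mul_mem_right _ hP
      exact (mem_iff_val v _).1 h1
    set Y := algebraMap F K (y : F) with hY
    have e4 : algebraMap F K ((B - y ^ 3 : 𝓞 F) : F) = algebraMap F K (B : F) - Y ^ 3 := by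
      have : ((B - y ^ 3 : 𝓞 F) : F) = (B : F) - (y : F) ^ 3 := by
        show algebraMap (𝓞 F) F _ = _
        rw [map_sub, map_pow]
      rw [this, map_sub, map_pow]
    rw [e4] at hVlt
    have hVY : v.valuation K Y = 1 := by
      have h1 : v.valuation K (Y ^ 3) = 1 := by
        have e5 : Y ^ 3 = algebraMap F K (B : F) - (algebraMap F K (B : F) - Y ^ 3) := by ring
        rw [e5, Valuation.map_sub_eq_of_lt_left _ (by rwa [hVB]), hVB]
      rw [map_pow] at h1
      exact (pow_eq_one_iff_of_nonneg (by simp) (by norm_num)).1 h1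
    have hY0 : Y ≠ 0 := by
      intro h0
      rw [h0, map_zero] at hVY
      exact zero_ne_one hVY
    have hnear : v.valuation K (algebraMap F K (B : F) / Y ^ 3 - 1) < 1 := by
      have e6 : algebraMap F K (B : F) / Y ^ 3 - 1 = (algebraMap F K (B : F) - Y ^ 3) / Y ^ 3 := by
        field_simp
      rw [e6, map_div₀, map_pow, hVY, one_pow, div_one]
      exact hVlt
    obtain ⟨c, hc0, hc⟩ := Pool.Agent.H81.HS.cube_of_near (T.three ht hP)
      (x := algebraMap K (v.adicCompletion K) (algebraMap F K (B : F) / Y ^ 3)) (by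
        rw [← map_one (algebraMap K (v.adicCompletion K)), ← map_sub, vv_coe]
        exact hnear)
    set φ := algebraMap K (v.adicCompletion K) with hφ
    set a := algebraMap F K ((∏ p ∈ S, p ^ x p : 𝓞 F) : F) with ha
    have ha0 : a ≠ 0 := by
      rw [ha, coe_prod]
      exact Finset.prod_ne_zero_iff.2 fun q hq => pow_ne_zero _ (hQ q hq)
    have hae : ∃ d : v.adicCompletion K, d ^ 3 = φ (a ^ e t) := by
      refine ⟨c * φ (Y * Qt ^ (e t * x t) / b ^ (2 * x t)), ?_⟩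
      rw [mul_pow, hc, ← map_pow φ, ← map_mul φ]
      congr 1
      have h1 : b ^ (2 * x t) ≠ 0 := pow_ne_zero _ hb0
      rw [div_pow, mul_pow]
      have h2 : (b ^ (2 * x t)) ^ 3 ≠ 0 := pow_ne_zero _ h1
      rw [div_mul_div_comm, div_eq_iff (mul_ne_zero (pow_ne_zero _ hY0) h2)]
      linear_combination (Y ^ 3) * hid
    obtain ⟨d, hd⟩ := hae
    have h3 : e t % 3 = 1 ∨ e t % 3 = 2 := by
      have := he t ht
      omega
    have hφa : φ a ≠ 0 := (map_ne_zero φ).2 ha0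
    have hdm := Nat.div_add_mod (e t) 3
    rcases h3 with h3 | h3
    · refine ⟨d / φ (a ^ (e t / 3)), ?_⟩
      rw [div_pow, hd, ← map_pow φ, ← map_div₀ φ]
      congr 1
      rw [div_eq_iff (pow_ne_zero _ (pow_ne_zero _ ha0)), ← pow_mul, ← pow_succ']
      congr 1
      omega
    · refine ⟨φ (a ^ (e t / 3 + 1)) / d, ?_⟩
      rw [div_pow, hd, ← map_pow φ, ← map_div₀ φ]
      congr 1
      rw [div_eq_iff (pow_ne_zero _ ha0), ← pow_mul, ← pow_succ']
      congr 1
      omega)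
  -- Kummer theory
  have hz3 : (σ z) ^ 3 = z ^ 3 := by rw [← map_pow, hz, σ.commutes]
  have hz0 : z ≠ 0 := by
    rintro rfl
    rw [zero_pow three_ne_zero, coe_prod] at hz
    exact Finset.prod_ne_zero_iff.2 (fun q hq => pow_ne_zero _ (hQ q hq)) hz.symm
  have h4 : (σ z / z) ^ 3 = 1 := by
    rw [div_pow, hz3, div_self (pow_ne_zero _ hz0)]
  obtain ⟨j, -, hj⟩ := T.zetaK.eq_pow_of_pow_eq_one h4
  have hσz : σ z = ω ^ j * z := by
    rw [eq_div_iff hz0] at hj
    exact hj.symm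
  have hfix : σ (z / b ^ j) = z / b ^ j := by
    rw [map_div₀, map_pow, hσb, hσz, mul_pow, mul_div_mul_left _ _ (pow_ne_zero _ hω0)]
  have hall : ∀ g : Gal(K/F), g (z / b ^ j) = z / b ^ j := by
    intro g
    obtain ⟨m, rfl⟩ := hσ g
    have hmem : σ ∈ MulAction.stabilizer Gal(K/F) (z / b ^ j) := hfix
    exact Subgroup.zpow_mem _ hmem m
  obtain ⟨f, hf⟩ := (IsGalois.mem_range_algebraMap_iff_fixed (F := F) _).2 hall
  have hf0 : f ≠ 0 := by
    rintro rfl
    rw [map_zero] at hf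
    exact div_ne_zero hz0 (pow_ne_zero _ hb0) hf.symm
  have hzf : z = b ^ j * algebraMap F K f := by
    rw [hf]
    field_simp
  have hF : ((∏ p ∈ S, p ^ x p : 𝓞 F) : F) = ((∏ p ∈ S, p ^ e p : 𝓞 F) : F) ^ j * f ^ 3 := by
    apply (algebraMap F K).injective
    rw [← hz, hzf, mul_pow, ← pow_mul, mul_comm j 3, pow_mul, hb, map_mul, map_pow, map_pow]
  refine ⟨j, fun t ht => ?_⟩
  obtain ⟨Pt, hPt⟩ := exists_hsp (T.prime t ht).1
  have hval : ∀ m : 𝓞 F → ℕ, Pt.valuation F ((∏ p ∈ S, p ^ m p : 𝓞 F) : F) =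
      exp (-((m t : ℕ) : ℤ)) := by
    intro m
    have e1 : ((∏ p ∈ S, p ^ m p : 𝓞 F) : F) = algebraMap (𝓞 F) F (∏ p ∈ S, p ^ m p) := rfl
    rw [e1, HeightOneSpectrum.valuation_of_algebraMap, map_prod, Finset.prod_eq_single t]
    · rw [map_pow, Pt.intValuation_singleton (T.prime t ht).1.ne_zero hPt, ← exp_nsmul]
      congr 1
      simp
    · intro q hq hqt
      have : Pt.intValuation q = 1 := by
        rw [HeightOneSpectrum.intValuation_eq_one_iff, hPt, Ideal.mem_span_singleton]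
        intro hd
        exact hqt (cop_F T.zeta (T.prime t ht).1 (T.prime q hq).1 (T.prime t ht).2
          (T.prime q hq).2 hd).symm
      rw [map_pow, this, one_pow]
    · intro h
      exact absurd ht h
  have h5 := congrArg (Pt.valuation F) hF
  obtain ⟨m, hm⟩ := exp_rep ((Valuation.ne_zero_iff (Pt.valuation F)).2 hf0)
  rw [map_mul, map_pow, map_pow, hval, hval, hm, ← exp_nsmul, ← exp_nsmul, ← exp_add] at h5
  have h6 := exp_injective h5
  simp only [nsmul_eq_mul, Nat.cast_ofNat] at h6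
  have h7 : ((x t : ℕ) : ℤ) = j * e t - 3 * m := by linear_combination -h6
  have h8 := congrArg (Int.cast : ℤ → ZMod 3) h7
  push_cast at h8
  rw [h8]
  have : (3 : ZMod 3) = 0 := rfl
  rw [this, zero_mul, sub_zero]

end Pool.Agent.H62
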