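import Pool.Agent.H62.Rec4

/-!
# The Artin map and the cubic residue indices, II
-/

set_option autoImplicit false
set_option linter.unusedSectionVars false

namespace Pool.Agent.H62

open NumberField IsDedekindDomain
open Pool.Agent.W192.HK Pool.Agent.TH936.CM Pool.Agent.TH936.PU
open Pool.Agent.Y696
open Pool.Agent.N883.Q Pool.Agent.N883.T
open Pool.Agent.Y715.T.Three Pool.Agent.Y715.T.Lat

variable {F : Type} [Field F] [NumberField F] [IsCyclotomicExtension {3} ℚ F] {ζ : F}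

/-- `j` is the index of `x` modulo `p` -/
def Idx (hζ : IsPrimitiveRoot ζ 3) (p x : 𝓞 F) (j : ℕ) : Prop :=
  p ∣ x ^ ((Nm p - 1) / 3) - hζ.toInteger ^ j

lemma Idx.mul {hζ : IsPrimitiveRoot ζ 3} {p x y : 𝓞 F} {i j : ℕ} (hx : Idx hζ p x i)
    (hy : Idx hζ p y j) : Idx hζ p (x * y) (i + j) := by
  unfold Idx at *
  have e : (x * y) ^ ((Nm p - 1) / 3) - hζ.toInteger ^ (i + j) =
      (x ^ ((Nm p - 1) / 3) - hζ.toInteger ^ i) * y ^ ((Nm p - 1) / 3) +
      hζ.toInteger ^ i * (y ^ ((Nm p - 1) / 3) - hζ.toInteger ^ j) := by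
    rw [mul_pow, pow_add]
    ring
  rw [e]
  exact (hx.mul_right _).add (hy.mul_left _)

lemma Idx.congr {hζ : IsPrimitiveRoot ζ 3} {p x y : 𝓞 F} {i : ℕ} (hx : Idx hζ p x i)
    (h : p ∣ y - x) : Idx hζ p y i := by
  unfold Idx at *
  have h1 := h.trans (sub_dvd_pow_sub_pow y x ((Nm p - 1) / 3))
  have := h1.add hx
  rwa [sub_add_sub_cancel] at this

lemma Idx.uniq {hζ : IsPrimitiveRoot ζ 3} {p x : 𝓞 F} {i j : ℕ} (h3 : ¬ p ∣ 3)
    (hx : Idx hζ p x i) (hy : Idx hζ p x j) : hζ.toInteger ^ i = hζ.toInteger ^ j := by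
  refine z_ne hζ (I := Ideal.span {p}) (fun h => h3 (Ideal.mem_span_singleton.1 h)) ?_
  rw [Ideal.mem_span_singleton]
  unfold Idx at *
  have := hy.sub hx
  rwa [sub_sub_sub_cancel_left] at this

lemma z_pow_coe (hζ : IsPrimitiveRoot ζ 3) (j : ℕ) : ((hζ.toInteger ^ j : 𝓞 F) : F) = ζ ^ j := by
  show algebraMap (𝓞 F) F _ = _
  rw [map_pow]
  rfl

variable {K : Type} [Field K] [NumberField K] [Algebra F K] [IsGalois F K]

/-- the action of the Artin map on the cube root -/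
theorem art_idx (hζ : IsPrimitiveRoot ζ 3) {S : Finset (𝓞 F)}
    (hS : ∀ p ∈ S, Prime p ∧ 3 * (2 * hζ.toInteger + 1) ∣ p - 1) {c : 𝓞 F} (hc : c = ∏ p ∈ S, p)
    {art : (𝓞 F ⧸ Ideal.span {c})ˣ →* Gal(K/F)} (hA : Art c art) {e : 𝓞 F → ℕ} {β : K}
    (hβ : β ^ 3 = algebraMap F K ((∏ p ∈ S, p ^ e p : 𝓞 F) : F)) (x : 𝓞 F) :
    x ≠ 0 → IsCoprime x 3 → (∀ p ∈ S, ¬ p ∣ x) → ∀ u : (𝓞 F ⧸ Ideal.span {c})ˣ,
      (u : 𝓞 F ⧸ Ideal.span {c}) = Ideal.Quotient.mk _ x → ∀ j : 𝓞 F → ℕ,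
      (∀ p ∈ S, Idx hζ p x (j p)) →
      art u β = algebraMap F K (ζ ^ (∑ p ∈ S, e p * j p)) * β := by
  have hpid := IsCyclotomicExtension.Rat.three_pid F
  have hc0 : c ≠ 0 := by
    rw [hc]
    exact Finset.prod_ne_zero_iff.2 fun p hp => (hS p hp).1.ne_zero
  have h3c : 3 ∣ c - 1 := by
    rw [hc]
    exact three_dvd_prod fun p hp => ⟨(hS p hp).1, (dvd_mul_right _ _).trans (hS p hp).2⟩
  have h3p : ∀ p ∈ S, ¬ p ∣ 3 := fun p hp => not_dvd_three (hS p hp).1 (hS p hp).2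
  set b : 𝓞 F := ∏ p ∈ S, p ^ e p with hb
  have hb0 : b ≠ 0 := Finset.prod_ne_zero_iff.2 fun p hp => pow_ne_zero _ (hS p hp).1.ne_zero
  have hbF : (b : F) ≠ 0 := fun h => hb0 (by exact_mod_cast h)
  have hβ0 : β ≠ 0 := by
    rintro rfl
    rw [zero_pow three_ne_zero] at hβ
    exact hbF ((map_eq_zero (algebraMap F K)).1 hβ.symm)
  have hsum : ∀ (i j : 𝓞 F → ℕ), (∀ p ∈ S, hζ.toInteger ^ i p = hζ.toInteger ^ j p) →
      (ζ : F) ^ (∑ p ∈ S, e p * i p) = ζ ^ (∑ p ∈ S, e p * j p) := by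
    intro i j h
    rw [← Finset.prod_pow_eq_pow_sum, ← Finset.prod_pow_eq_pow_sum]
    refine Finset.prod_congr rfl fun p hp => ?_
    rw [mul_comm, pow_mul, mul_comm (e p), pow_mul, ← z_pow_coe hζ, ← z_pow_coe hζ, h p hp]
  induction x using UniqueFactorizationMonoid.induction_on_prime with
  | h₁ => exact fun h => absurd rfl h
  | h₂ x hx =>
    intro _ _ _ u hu j hj
    rw [art_unitF hζ hA hc0 h3c hx hu]
    have h1 := hsum j (fun _ => 0) (fun p hp => (hj p hp).uniq (h3p p hp)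
      (idx_unit hζ (hS p hp).1 (hS p hp).2 hx))
    rw [h1]
    simp
  | h₃ y r hy0 hr ih =>
    intro hx0 hx3 hxS u hu j hj
    have hr3 : ¬ r ∣ 3 := fun h => hr.not_isUnit (hx3.isUnit_of_dvd' (dvd_mul_right r y) h)
    have hrS : ∀ p ∈ S, ¬ p ∣ r := fun p hp h => hxS p hp (h.mul_right y)
    have hyS : ∀ p ∈ S, ¬ p ∣ y := fun p hp h => hxS p hp (h.mul_left r)
    have hrS' : ∀ p ∈ S, ¬ r ∣ p := fun p hp h =>
      hrS p hp (hr.associated_of_dvd (hS p hp).1 h).symm.dvd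
    have hy3 : IsCoprime y 3 := hx3.of_mul_left_right
    -- the classes
    have hcop : ∀ t : 𝓞 F, (∀ p ∈ S, ¬ p ∣ t) → ∃ u : (𝓞 F ⧸ Ideal.span {c})ˣ,
        (u : 𝓞 F ⧸ Ideal.span {c}) = Ideal.Quotient.mk _ t := by
      intro t ht
      have h1 : IsCoprime t c := by
        rw [hc]
        exact IsCoprime.prod_right fun p hp =>
          ((hS p hp).1.irreducible.coprime_iff_not_dvd.2 (ht p hp)).symm
      obtain ⟨s, t', hst⟩ := h1
      have h1 : IsUnit (Ideal.Quotient.mk (Ideal.span {c}) t) := by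
        refine IsUnit.of_mul_eq_one (Ideal.Quotient.mk _ s) ?_
        rw [← map_mul, ← map_one (Ideal.Quotient.mk (Ideal.span {c})), Ideal.Quotient.eq,
          Ideal.mem_span_singleton]
        exact ⟨-t', by linear_combination hst⟩
      exact ⟨h1.unit, rfl⟩
    obtain ⟨ur, hur⟩ := hcop r hrS
    obtain ⟨uy, huy⟩ := hcop y hyS
    have hu2 : u = ur * uy := by
      apply Units.ext
      rw [Units.val_mul, hu, hur, huy, map_mul]
    have hjr : ∀ p, ∃ i : ℕ, p ∈ S → Idx hζ p r i := by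
      intro p
      by_cases hp : p ∈ S
      · obtain ⟨i, -, hi⟩ := exists_idx hζ (hS p hp).1 (h3p p hp) (hrS p hp)
        exact ⟨i, fun _ => hi⟩
      · exact ⟨0, fun h => absurd h hp⟩
    choose jr hjr using hjr
    have hjy : ∀ p, ∃ i : ℕ, p ∈ S → Idx hζ p y i := by
      intro p
      by_cases hp : p ∈ S
      · obtain ⟨i, -, hi⟩ := exists_idx hζ (hS p hp).1 (h3p p hp) (hyS p hp)
        exact ⟨i, fun _ => hi⟩
      · exact ⟨0, fun h => absurd h hp⟩
    choose jy hjy using hjy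
    have h1 := ih hy0 hy3 hyS uy huy jy (fun p hp => hjy p hp)
    -- the prime
    have h2 : art ur β = algebraMap F K (ζ ^ (∑ p ∈ S, e p * jr p)) * β := by
      have hrec := recip hζ hS e hr hr3 hrS' (j := jr) (fun p hp => hjr p hp)
      rw [← hb] at hrec
      obtain ⟨P, hPlo⟩ := exists_above (K := K) (hsp hr)
      have hPu : ∀ x : 𝓞 F, algebraMap (𝓞 F) (𝓞 K) x ∈ P.asIdeal → r ∣ x := by
        intro x hx
        have h1 : x ∈ P.asIdeal.under (𝓞 F) := hx
        rw [← hPlo.over] at h1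
        exact Ideal.mem_span_singleton.1 h1
      have hP' : ∀ x : 𝓞 F, r ∣ x → algebraMap (𝓞 F) (𝓞 K) x ∈ P.asIdeal := by
        intro x hx
        have h1 : x ∈ P.asIdeal.under (𝓞 F) := by
          rw [← hPlo.over]
          exact Ideal.mem_span_singleton.2 hx
        exact h1
      have hint : IsIntegral ℤ β := by
        apply IsIntegral.of_pow (n := 3) (by norm_num)
        rw [hβ]
        exact (RingOfIntegers.isIntegral_coe b).algebraMap
      set βO : 𝓞 K := ⟨β, hint⟩ with hβO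
      have hβO3 : βO ^ 3 = algebraMap (𝓞 F) (𝓞 K) b := by
        apply RingOfIntegers.ext
        show (βO : K) ^ 3 = _
        exact hβ
      have h := hA.frob r hr ur hur P (hP' r dvd_rfl) βO
      obtain ⟨m, hm⟩ := three_dvd_Nm hζ hr hr3
      have hpos : 1 ≤ Nm r := by
        have hfin : Finite (𝓞 F ⧸ Ideal.span {r}) :=
          Ideal.finiteQuotientOfFreeOfNeBot _ (by
            rw [Ne, Ideal.span_singleton_eq_bot]
            exact hr.ne_zero)
        exact Nat.card_pos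
      have hN : Nat.card (𝓞 F ⧸ Ideal.span {r}) = 3 * m + 1 := by
        show Nm r = _
        omega
      have hm' : (Nm r - 1) / 3 = m := by omega
      rw [hm'] at hrec
      have hζK : IsPrimitiveRoot (algebraMap F K ζ) 3 :=
        hζ.map_of_injective (algebraMap F K).injective
      obtain ⟨i, hi, hia⟩ := hζK.eq_pow_of_pow_eq_one (ξ := art ur β / β) (by
        have e1 : (art ur β) ^ 3 = β ^ 3 := by
          rw [← map_pow, hβ]
          exact (art ur).commutes _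
        rw [div_pow, e1, div_self]
        exact pow_ne_zero _ hβ0)
      have hi2 : art ur β = (algebraMap F K ζ) ^ i * β := by
        rw [hia]
        field_simp
      have h6 : (art ur • βO - βO ^ Nat.card (𝓞 F ⧸ Ideal.span {r}) : 𝓞 K) =
          algebraMap (𝓞 F) (𝓞 K) (hζ.toInteger ^ i - b ^ m) * βO := by
        have e1 : art ur • βO = algebraMap (𝓞 F) (𝓞 K) (hζ.toInteger ^ i) * βO := by
          apply RingOfIntegers.ext
          show (art ur) β = algebraMap F K ((hζ.toInteger ^ i : 𝓞 F) : F) * β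
          rw [z_pow_coe, hi2, map_pow]
        rw [hN, pow_succ, pow_mul, hβO3, e1, ← map_pow, map_sub]
        ring
      rw [h6] at h
      rcases P.isPrime.mem_or_mem h with h7 | h7
      · have h8 : r ∣ hζ.toInteger ^ i - hζ.toInteger ^ (∑ p ∈ S, e p * jr p) := by
          have := (hPu _ h7).add hrec
          rwa [sub_add_sub_cancel] at this
        have h9 := z_ne hζ (I := Ideal.span {r}) (fun h => hr3 (Ideal.mem_span_singleton.1 h))
          (Ideal.mem_span_singleton.2 h8)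
        rw [hi2, ← map_pow, ← z_pow_coe hζ, h9, z_pow_coe]
      · exfalso
        have h8 : algebraMap (𝓞 F) (𝓞 K) b ∈ P.asIdeal := by
          rw [← hβO3]
          exact Ideal.pow_mem_of_mem _ h7 3 (by norm_num)
        obtain ⟨p, hp, hd⟩ := (hr.dvd_finsetProd_iff _).1 (hPu _ h8)
        exact hrS' p hp (hr.dvd_of_dvd_pow hd)
    have h3 := hsum j (fun p => jr p + jy p) (fun p hp => (hj p hp).uniq (h3p p hp)
      ((hjr p hp).mul (hjy p hp)))
    have h4 : ζ ^ (∑ p ∈ S, e p * (jr p + jy p)) =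
        ζ ^ (∑ p ∈ S, e p * jr p) * ζ ^ (∑ p ∈ S, e p * jy p) := by
      rw [← pow_add, ← Finset.sum_add_distrib]
      congr 1
      exact Finset.sum_congr rfl fun p _ => mul_add _ _ _
    rw [hu2, map_mul, h3, h4, map_mul]
    show (art ur) ((art uy) β) = _
    rw [h1, map_mul, h2, (art ur).commutes]
    ring

/-- the action for a general class -/
theorem art_idx' (hζ : IsPrimitiveRoot ζ 3) {S : Finset (𝓞 F)}
    (hS : ∀ p ∈ S, Prime p ∧ 3 * (2 * hζ.toInteger + 1) ∣ p - 1) {c : 𝓞 F} (hc : c = ∏ p ∈ S, p)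
    {art : (𝓞 F ⧸ Ideal.span {c})ˣ →* Gal(K/F)} (hA : Art c art) {e : 𝓞 F → ℕ} {β : K}
    (hβ : β ^ 3 = algebraMap F K ((∏ p ∈ S, p ^ e p : 𝓞 F) : F)) {x : 𝓞 F}
    (hxS : ∀ p ∈ S, ¬ p ∣ x) {u : (𝓞 F ⧸ Ideal.span {c})ˣ}
    (hu : (u : 𝓞 F ⧸ Ideal.span {c}) = Ideal.Quotient.mk _ x) {j : 𝓞 F → ℕ}
    (hj : ∀ p ∈ S, Idx hζ p x (j p)) :
    art u β = algebraMap F K (ζ ^ (∑ p ∈ S, e p * j p)) * β := by
  have h3c : 3 ∣ c - 1 := by
    rw [hc]
    exact three_dvd_prod fun p hp => ⟨(hS p hp).1, (dvd_mul_right _ _).trans (hS p hp).2⟩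
  obtain ⟨q, hq⟩ := h3c
  set y : 𝓞 F := x + c * (1 - x) with hy
  have hy3 : y = 1 + 3 * (q * (1 - x)) := by rw [hy]; linear_combination (1 - x) * hq
  have hcop : IsCoprime y 3 := ⟨1, -(q * (1 - x)), by linear_combination hy3⟩
  have hy0 : y ≠ 0 := by
    intro h0
    rw [h0] at hcop
    have h1 : IsUnit (3 : 𝓞 F) := isCoprime_zero_left.1 hcop
    obtain ⟨v, hv⟩ := Pool.Agent.N883.T.exists_three F
    exact v.isPrime.ne_top (Ideal.eq_top_of_isUnit_mem _ hv h1)
  have hpy : ∀ p ∈ S, p ∣ y - x := by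
    intro p hp
    have : y - x = c * (1 - x) := by rw [hy]; ring
    rw [this, hc]
    exact (Finset.dvd_prod_of_mem _ hp).mul_right _
  refine art_idx hζ hS hc hA hβ y hy0 hcop (fun p hp hd => hxS p hp ?_) u ?_ j
    (fun p hp => (hj p hp).congr (hpy p hp))
  · have := hd.sub (hpy p hp)
    rwa [sub_sub_cancel] at this
  · rw [hu, Ideal.Quotient.eq, Ideal.mem_span_singleton]
    exact ⟨-(1 - x), by rw [hy]; ring⟩

end Pool.Agent.H62
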