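import Pool.Graph.R_pool_sql_team_seeded_3997aac3.Q111.EX.Fin
import Pool.Graph.R_pool_sql_team_seeded_3997aac3.Q38.EX.NrmB
import Pool.Graph.R_pool_sql_team_seeded_3997aac3.Q125.AR.Final
import Pool.Graph.R_pool_sql_team_seeded_3997aac3.Q16.EX.Kum

/-!
# Artin's reciprocity law with the exact conductor, tame case

`exact`: the divisors of the `x ∈ Fˣ` which are near `1` at the ramified primes lie in the kernel of the
Artin map; there is no condition at the unramified primes.  `tame`: for characters of order a power of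
`ℓ` and ramified primes not above `ℓ`, `x ≡ 1` modulo the ramified primes is enough.
-/

set_option autoImplicit false
set_option linter.unusedSectionVars false
set_option linter.deprecated false

namespace Pool.Agent.H62.Cft

open NumberField IsDedekindDomain Pool.Agent.Q92.AR Pool.Agent.Q20.EX Pool.Agent.Q125.AR

section
variable {F M : Type} [Field F] [NumberField F] [Field M] [NumberField M] [Algebra F M]

theorem val_nat_le {N' N : ℕ} (h : N' ∣ N) (v : HeightOneSpectrum (𝓞 F)) :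
    v.valuation F (N : F) ≤ v.valuation F (N' : F) := by
  obtain ⟨k, rfl⟩ := h
  rw [Nat.cast_mul, map_mul]
  have h2 : v.valuation F (k : F) ≤ 1 := by
    have h3 := v.valuation_le_one (K := F) (k : 𝓞 F)
    simpa using h3
  exact mul_le_of_le_one_right' h2

theorem mem_of_dvd {N' N : ℕ} (h : N' ∣ N) {v : HeightOneSpectrum (𝓞 F)}
    (hv : (N' : 𝓞 F) ∈ v.asIdeal) : (N : 𝓞 F) ∈ v.asIdeal := by
  obtain ⟨k, rfl⟩ := h
  rw [Nat.cast_mul]
  exact v.asIdeal.mul_mem_right _ hv

/-- **Reciprocity without conditions at the unramified primes.** -/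
theorem exact [IsGalois F M] [IsEmpty (F →+* ℝ)] (ψ : (M ≃ₐ[F] M) →* ℂˣ) :
    ∃ N : ℕ, N ≠ 0 ∧ Ram F M N ∧ ∀ x : Fˣ,
      (∀ v : HeightOneSpectrum (𝓞 F), ¬ Unramified M v →
        v.valuation F ((x : F) - 1) ≤ v.valuation F (N : F)) → art ψ (prin x) = 0 := by
  classical
  have hpos : ∀ x : F, Pos x := fun x φ => isEmptyElim φ
  obtain ⟨N0, hN0, hR0, h0⟩ := recip F M ψ
  have hfin0 := finite_dvd (F := F) hN0
  let B0 : Finset (HeightOneSpectrum (𝓞 F)) := hfin0.toFinset.filter fun v => Unramified M v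
  have hgood : ∀ v : HeightOneSpectrum (𝓞 F), ∃ N : ℕ, N ≠ 0 ∧ (Unramified M v →
      ∀ x : Fˣ, CongAt {v}ᶜ N (x : F) → art ψ (prin x) = 0) := by
    intro v
    by_cases hv : Unramified M v
    · obtain ⟨N, h1, h2, h3⟩ := Pool.Agent.Q111.EX.good Pool.Agent.Q38.EX.nrm F M ψ v hv
      exact ⟨N, h1, fun _ x hx => h3 x (hpos _) hx⟩
    · exact ⟨1, one_ne_zero, fun h => absurd h hv⟩
  choose Nv hNv0 hNv using hgood
  have hN : N0 * ∏ v ∈ B0, Nv v ≠ 0 := mul_ne_zero hN0 (Finset.prod_ne_zero_iff.2 fun v _ => hNv0 v)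
  have hd0 : N0 ∣ N0 * ∏ v ∈ B0, Nv v := dvd_mul_right _ _
  have hd1 : ∀ v ∈ B0, Nv v ∣ N0 * ∏ v ∈ B0, Nv v := fun v hv =>
    (Finset.dvd_prod_of_mem Nv hv).mul_left _
  generalize N0 * ∏ v ∈ B0, Nv v = N at hN hd0 hd1
  refine ⟨N, hN, Ram_mono hd0 hR0, ?_⟩
  let B : Finset (HeightOneSpectrum (𝓞 F)) :=
    (finite_dvd (F := F) hN).toFinset.filter fun v => Unramified M v
  have key : ∀ T : Finset (HeightOneSpectrum (𝓞 F)), T ⊆ B → ∀ x : Fˣ,
      (∀ v : HeightOneSpectrum (𝓞 F), (N : 𝓞 F) ∈ v.asIdeal → v ∉ T →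
        v.valuation F ((x : F) - 1) ≤ v.valuation F (N : F)) → art ψ (prin x) = 0 := by
    intro T
    induction T using Finset.induction_on with
    | empty =>
      intro _ x hx
      refine h0 x (Ray_mono hd0 ⟨fun v hv => hx v hv (Finset.notMem_empty v), hpos _⟩)
    | insert u T hu ih =>
      intro hT x hx
      have huB : u ∈ B := hT (Finset.mem_insert_self u T)
      have huN : (N : 𝓞 F) ∈ u.asIdeal := by
        have h1 := (Finset.mem_filter.1 huB).1
        rw [Set.Finite.mem_toFinset] at h1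
        exact h1
      have huU : Unramified M u := (Finset.mem_filter.1 huB).2
      obtain ⟨z, hz⟩ := Pool.Agent.Q38.EX.approx (K := F) hN (fun w => if w = u then x else 1)
      have hlt : ∀ w : HeightOneSpectrum (𝓞 F), (N : 𝓞 F) ∈ w.asIdeal →
          w.valuation F (N : F) < 1 := fun w hw => Pool.Agent.Q38.EX.val_nat_lt_one hw
      have hz1 : ∀ w : HeightOneSpectrum (𝓞 F), (N : 𝓞 F) ∈ w.asIdeal → w ≠ u →
          w.valuation F ((z : F) - 1) ≤ w.valuation F (N : F) := by
        intro w hw hwu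
        have h1 := hz w hw
        rw [if_neg hwu, Units.val_one, div_one] at h1
        exact h1
      have hz2 : u.valuation F ((x / z : Fˣ) - 1 : F) ≤ u.valuation F (N : F) := by
        have h1 := hz u huN
        rw [if_pos rfl] at h1
        have h2 := Pool.Agent.Q38.EX.near_inv _ (hlt u huN) h1
        rw [inv_div] at h2
        rw [Units.val_div_eq_div_val]
        exact h2
      -- `z` is killed
      have e1 : art ψ (prin z) = 0 := by
        by_cases h : (N0 : 𝓞 F) ∈ u.asIdeal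
        · have hu0 : u ∈ B0 := by
            refine Finset.mem_filter.2 ⟨?_, huU⟩
            rw [Set.Finite.mem_toFinset]
            exact h
          refine hNv u huU z fun w hw hwN => ?_
          exact (hz1 w (mem_of_dvd (hd1 u hu0) hwN) hw).trans (val_nat_le (hd1 u hu0) w)
        · refine h0 z ⟨fun w hw => ?_, hpos _⟩
          have hwu : w ≠ u := by
            rintro rfl
            exact h hw
          exact (hz1 w (mem_of_dvd hd0 hw) hwu).trans (val_nat_le hd0 w)
      have e2 : art ψ (prin (x / z)) = 0 := by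
        refine ih (fun v hv => hT (Finset.mem_insert_of_mem hv)) _ fun v hv hvT => ?_
        by_cases hvu : v = u
        · rw [hvu]
          exact hz2
        · rw [Units.val_div_eq_div_val]
          exact Pool.Agent.Q38.EX.near_div _ (hlt v hv)
            (hx v hv fun h => (Finset.mem_insert.1 h).elim hvu hvT) (hz1 v hv hvu)
      rw [prin_div, map_sub, e1, sub_zero] at e2
      exact e2
  intro x hx
  refine key B (Finset.Subset.refl _) x fun v hv hvB => hx v fun hvU => hvB ?_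
  refine Finset.mem_filter.2 ⟨?_, hvU⟩
  rw [Set.Finite.mem_toFinset]
  exact hv

/-- all values of `art ψ` are killed by the exponent -/
theorem art_exp (ψ : (M ≃ₐ[F] M) →* ℂˣ) {e : ℕ} (hψ : ∀ g, ψ g ^ e = 1) (D : Dv F) :
    e • art ψ D = 0 := by
  rw [art_eq_sum, ← Finset.sum_nsmul]
  refine Finset.sum_eq_zero fun v _ => ?_
  rw [← natCast_zsmul, smul_smul, mul_comm, mul_smul, natCast_zsmul, ← ofMul_pow, hψ, ofMul_one,
    smul_zero]

theorem prin_pow (x : Fˣ) (n : ℕ) : prin (x ^ n) = n • prin x := Pool.Agent.Q16.EX.prin_pow' x n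

/-- one step: `x ≡ 1 mod v`, `v ∣ P`: `x ^ P` is nearer to `1` -/
theorem val_pow_sub_one (v : HeightOneSpectrum (𝓞 F)) {P : ℕ} (hP : (P : 𝓞 F) ∈ v.asIdeal) {x : F}
    (hx : v.valuation F (x - 1) < 1) :
    v.valuation F (x ^ P - 1) ≤ v.valuation F (x - 1) * WithZero.exp (-1 : ℤ) := by
  have h1 : x ^ P - 1 = (x - 1) * ∑ i ∈ Finset.range P, x ^ i := (mul_geom_sum x P).symm
  rw [h1, map_mul]
  refine mul_le_mul' le_rfl ?_
  have hlt : v.valuation F (∑ i ∈ Finset.range P, x ^ i) < 1 := by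
    have h2 : ∑ i ∈ Finset.range P, x ^ i = ∑ i ∈ Finset.range P, (x ^ i - 1) + (P : F) := by
      rw [Finset.sum_sub_distrib, Finset.sum_const, Finset.card_range, nsmul_eq_mul, mul_one,
        sub_add_cancel]
    rw [h2]
    refine Valuation.map_add_lt _ ?_ ?_
    · refine Valuation.map_sum_lt _ one_ne_zero fun i _ => ?_
      have h3 : x ^ i - 1 = (x - 1) * ∑ j ∈ Finset.range i, x ^ j := (mul_geom_sum x i).symm
      rw [h3, map_mul]
      have hx1 : v.valuation F x ≤ 1 := by
        have h4 : x = (x - 1) + 1 := by ring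
        rw [h4]
        refine (Valuation.map_add _ _ _).trans (max_le hx.le ?_)
        rw [map_one]
      have h5 : v.valuation F (∑ j ∈ Finset.range i, x ^ j) ≤ 1 := by
        refine Valuation.map_sum_le _ fun j _ => ?_
        rw [map_pow]
        exact pow_le_one' hx1 j
      exact lt_of_le_of_lt (mul_le_of_le_one_right' h5) hx
    · exact Pool.Agent.Q38.EX.val_nat_lt_one hP
  exact (Pool.Agent.Q38.EX.lt_one_iff_le_exp _).1 hlt

/-- **Tame reciprocity.** -/
theorem tame [IsGalois F M] [IsEmpty (F →+* ℝ)] (ψ : (M ≃ₐ[F] M) →* ℂˣ) {ℓ n : ℕ} (hℓ : ℓ.Prime)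
    (hψ : ∀ g, ψ g ^ ℓ ^ n = 1)
    (hram : ∀ v : HeightOneSpectrum (𝓞 F), ¬ Unramified M v → (ℓ : 𝓞 F) ∉ v.asIdeal) (x : Fˣ)
    (hx : ∀ v : HeightOneSpectrum (𝓞 F), ¬ Unramified M v → v.valuation F ((x : F) - 1) < 1) :
    art ψ (prin x) = 0 := by
  classical
  obtain ⟨N, hN, hR, h0⟩ := exact ψ
  obtain ⟨a, P, hP, hNP⟩ := Nat.exists_eq_pow_mul_and_not_dvd hN ℓ hℓ.ne_one
  -- the ramified primes divide `P`
  have hRP : ∀ v : HeightOneSpectrum (𝓞 F), ¬ Unramified M v → (P : 𝓞 F) ∈ v.asIdeal := by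
    intro v hv
    have h1 := hR v hv
    rw [hNP, Nat.cast_mul, Nat.cast_pow] at h1
    have := v.isPrime
    rcases this.mem_or_mem h1 with h2 | h2
    · exact absurd (this.mem_of_pow_mem _ h2) (hram v hv)
    · exact h2
  -- iteration
  have key : ∀ (v : HeightOneSpectrum (𝓞 F)), ¬ Unramified M v → ∀ m : ℕ,
      v.valuation F ((x : F) ^ P ^ m - 1) ≤ WithZero.exp (-(m + 1 : ℕ) : ℤ) := by
    intro v hv m
    induction m with
    | zero =>
      rw [pow_zero, pow_one]
      exact (Pool.Agent.Q38.EX.lt_one_iff_le_exp _).1 (hx v hv)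
    | succ m ih =>
      rw [pow_succ P m, pow_mul]
      have hlt : v.valuation F ((x : F) ^ P ^ m - 1) < 1 := by
        refine lt_of_le_of_lt ih ?_
        rw [← WithZero.exp_zero, WithZero.exp_lt_exp]
        omega
      refine (val_pow_sub_one v (hRP v hv) hlt).trans ((mul_le_mul' ih le_rfl).trans ?_)
      rw [← WithZero.exp_add, WithZero.exp_le_exp]
      omega
  -- a uniform exponent
  obtain ⟨m, hm⟩ : ∃ m : ℕ, ∀ v : HeightOneSpectrum (𝓞 F), ¬ Unramified M v →
      WithZero.exp (-(m + 1 : ℕ) : ℤ) ≤ v.valuation F (N : F) := by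
    have hfin := finite_dvd (F := F) hN
    have hex : ∀ v : HeightOneSpectrum (𝓞 F), ∃ k : ℕ, WithZero.exp (-k : ℤ) ≤ v.valuation F (N : F) :=
      fun v => Pool.Agent.Q38.EX.exists_exp_le (Pool.Agent.Q38.EX.val_nat_ne_zero hN v)
    choose k hk using hex
    refine ⟨∑ v ∈ hfin.toFinset, k v, fun v hv => ?_⟩
    have hv' : v ∈ hfin.toFinset := by
      rw [Set.Finite.mem_toFinset]
      exact hR v hv
    refine le_trans ?_ (hk v)
    rw [WithZero.exp_le_exp]
    have h1 := Finset.single_le_sum (f := k) (fun i _ => Nat.zero_le (k i)) hv'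
    generalize ∑ v ∈ hfin.toFinset, k v = s at h1
    push_cast
    omega
  have h1 : art ψ (prin (x ^ P ^ m)) = 0 := by
    refine h0 _ fun v hv => ?_
    rw [Units.val_pow_eq_pow_val]
    exact (key v hv m).trans (hm v hv)
  rw [prin_pow, map_nsmul] at h1
  have h2 := art_exp ψ hψ (prin x)
  have hco : Nat.Coprime (P ^ m) (ℓ ^ n) :=
    Nat.Coprime.pow m n ((Nat.Prime.coprime_iff_not_dvd hℓ).2 hP).symm
  have h3 : addOrderOf (art ψ (prin x)) ∣ Nat.gcd (P ^ m) (ℓ ^ n) :=
    Nat.dvd_gcd (addOrderOf_dvd_iff_nsmul_eq_zero.2 h1) (addOrderOf_dvd_iff_nsmul_eq_zero.2 h2)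
  rw [hco, Nat.dvd_one, AddMonoid.addOrderOf_eq_one_iff] at h3
  exact h3

end

end Pool.Agent.H62.Cft
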