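import Pool.Agent.H62.Cft2

/-!
# Extensions of prime power degree unramified outside one prime are cyclic
-/

set_option autoImplicit false
set_option linter.unusedSectionVars false
set_option linter.deprecated false

namespace Pool.Agent.H62.Cft

open NumberField IsDedekindDomain Pool.Agent.Q92.AR Pool.Agent.Q20.EX Pool.Agent.Q125.AR

section group

theorem isCyclic_dual_iff (G : Type) [CommGroup G] [Finite G] : IsCyclic (G →* ℂˣ) ↔ IsCyclic G := by
  have hne : NeZero ((Monoid.exponent G : ℕ) : ℂ) :=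
    ⟨Nat.cast_ne_zero.2 (Monoid.exponent_ne_zero_of_finite)⟩
  obtain ⟨e⟩ := CommGroup.monoidHom_mulEquiv_of_hasEnoughRootsOfUnity G ℂ
  exact e.isCyclic

theorem isCyclic_of_surj {G H : Type} [Group G] [Group H] [IsCyclic G] (f : G →* H)
    (hf : Function.Surjective f) : IsCyclic H := isCyclic_of_surjective f hf

/-- a finite `p`-group with cyclic commutator quotient is cyclic -/
theorem isCyclic_of_ab {p : ℕ} [Fact p.Prime] : ∀ (m : ℕ) (G : Type) [Group G] [Finite G],
    Nat.card G = m → IsPGroup p G → IsCyclic (Abelianization G) → IsCyclic G := by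
  intro m
  induction m using Nat.strong_induction_on with
  | _ m ih =>
    intro G _ _ hm hp hc
    by_cases hcomm : ∀ a b : G, a * b = b * a
    · have hcg : Std.Commutative (α := G) (· * ·) := ⟨hcomm⟩
      let _ : CommGroup G := { mul_comm := hcomm }
      exact (Abelianization.equivOfComm (H := G)).isCyclic.2 hc
    · exfalso
      have hnt : Nontrivial G := by
        by_contra h
        rw [not_nontrivial_iff_subsingleton] at h
        exact hcomm fun a b => Subsingleton.elim _ _
      have hz := hp.center_nontrivial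
      have hcard : Nat.card (G ⧸ Subgroup.center G) < m := by
        rw [← hm, Subgroup.card_eq_card_quotient_mul_card_subgroup (Subgroup.center G)]
        have h1 : 1 < Nat.card (Subgroup.center G) := Finite.one_lt_card
        have h2 : 0 < Nat.card (G ⧸ Subgroup.center G) := Nat.card_pos
        exact lt_mul_of_one_lt_right h2 h1
      have hc' : IsCyclic (Abelianization (G ⧸ Subgroup.center G)) := by
        refine isCyclic_of_surj (Abelianization.map (QuotientGroup.mk' (Subgroup.center G))) ?_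
        intro x
        obtain ⟨y, rfl⟩ := QuotientGroup.mk_surjective x
        obtain ⟨z, rfl⟩ := QuotientGroup.mk_surjective y
        exact ⟨Abelianization.of z, rfl⟩
      have h3 : IsCyclic (G ⧸ Subgroup.center G) :=
        ih _ hcard (G ⧸ Subgroup.center G) rfl (hp.to_quotient _) hc'
      exact hcomm fun a b => commutative_of_cyclic_center_quotient
        (QuotientGroup.mk' (Subgroup.center G)) (by rw [QuotientGroup.ker_mk']) a b

end group

section
variable {F M : Type} [Field F] [NumberField F] [Field M] [NumberField M] [Algebra F M]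

/-- **A Galois extension of prime power degree unramified outside one tame prime is cyclic**, when the
ring of integers of the base field is a principal ideal domain, and there are no real places. -/
theorem isCyclic_of_one [IsGalois F M] [IsEmpty (F →+* ℝ)] [IsPrincipalIdealRing (𝓞 F)]
    {ℓ n : ℕ} (hℓ : ℓ.Prime) (hn : Module.finrank F M = ℓ ^ n)
    {c : 𝓞 F} (hc : Prime c)
    (hcℓ : ∀ v : HeightOneSpectrum (𝓞 F), c ∈ v.asIdeal → (ℓ : 𝓞 F) ∉ v.asIdeal)
    (hunr : ∀ w : HeightOneSpectrum (𝓞 M), algebraMap (𝓞 F) (𝓞 M) c ∉ w.asIdeal →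
      Algebra.IsUnramifiedAt (𝓞 F) w.asIdeal) : IsCyclic Gal(M/F) := by
  classical
  have hcard : Nat.card Gal(M/F) = ℓ ^ n := by
    rw [← hn, ← IsGalois.card_aut_eq_finrank F M]
  have : Fact ℓ.Prime := ⟨hℓ⟩
  have hpg : IsPGroup ℓ Gal(M/F) := IsPGroup.of_card hcard
  have hram := mem_of_ramified (F := F) (M := M) hunr
  have hψ : ∀ (ψ : Gal(M/F) →* ℂˣ) g, ψ g ^ ℓ ^ n = 1 := by
    intro ψ g
    rw [← map_pow, ← hcard, pow_card_eq_one', map_one]
  have hex := fun ψ : Gal(M/F) →* ℂˣ => exists_resChar ψ hℓ (hψ ψ) hc.ne_zero hcℓ hram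
  choose Θ hΘ using hex
  -- the residues
  have hmax : (Ideal.span {c}).IsMaximal := by
    have h1 : (Ideal.span {c}).IsPrime := (Ideal.span_singleton_prime hc.ne_zero).2 hc
    exact h1.isMaximal (by
      rw [Ne, Ideal.span_singleton_eq_bot]
      exact hc.ne_zero)
  have hdom : IsDomain (𝓞 F ⧸ Ideal.span {c}) := (Ideal.Quotient.isDomain_iff_prime _).2 hmax.isPrime
  have hfin : Finite (𝓞 F ⧸ Ideal.span {c}) := Ideal.finiteQuotientOfFreeOfNeBot _ (by
    rw [Ne, Ideal.span_singleton_eq_bot]
    exact hc.ne_zero)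
  have hcycR : IsCyclic (𝓞 F ⧸ Ideal.span {c})ˣ := inferInstance
  have hcycD : IsCyclic ((𝓞 F ⧸ Ideal.span {c})ˣ →* ℂˣ) := (isCyclic_dual_iff _).2 hcycR
  have hval : ∀ (ψ ψ' : Gal(M/F) →* ℂˣ), Θ (ψ * ψ') = Θ ψ * Θ ψ' := by
    intro ψ ψ'
    ext1 u
    obtain ⟨a, ha, hau⟩ := exists_rep hc.ne_zero (u : 𝓞 F ⧸ Ideal.span {c})
    apply Additive.ofMul.injective
    rw [MonoidHom.mul_apply, ofMul_mul, hΘ _ a ha u hau.symm, hΘ _ a ha u hau.symm,
      hΘ _ a ha u hau.symm, Pool.Agent.Q111.EX.art_mul]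
  let Φ : (Gal(M/F) →* ℂˣ) →* ((𝓞 F ⧸ Ideal.span {c})ˣ →* ℂˣ) := MonoidHom.mk' Θ hval
  have hΦ : Function.Injective Φ := by
    rw [injective_iff_map_eq_one]
    intro ψ h1
    have h1' : Θ ψ = 1 := h1
    ext1 g
    have hfinS : {v : HeightOneSpectrum (𝓞 F) | c ∈ v.asIdeal}.Finite := by
      have h0 : Ideal.span {c} ≠ 0 := fun h => hc.ne_zero (Ideal.span_singleton_eq_bot.1 h)
      refine (Ideal.finite_factors h0).subset fun v hv => Ideal.dvd_span_singleton.2 hv
    obtain ⟨v, hv, hvU, hvF⟩ := Pool.Agent.Q14.AR.cheb F M g _ hfinS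
    obtain ⟨p, hp⟩ := (IsPrincipalIdealRing.principal v.asIdeal).principal
    have hp' : v.asIdeal = Ideal.span {p} := hp
    have hpv : p ∈ v.asIdeal := by
      rw [hp']
      exact Ideal.mem_span_singleton_self p
    have hp0 : p ≠ 0 := by
      rintro rfl
      exact v.ne_bot (by rw [hp', Ideal.span_singleton_eq_bot])
    have hpp : Prime p := (Ideal.span_singleton_prime hp0).1 (hp' ▸ v.isPrime)
    have hcop : IsUnit (Ideal.Quotient.mk (Ideal.span {c}) p) := by
      obtain ⟨y, i, hi, h1⟩ := v.isMaximal.exists_inv hv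
      rw [hp', Ideal.mem_span_singleton] at hi
      obtain ⟨k, rfl⟩ := hi
      refine IsUnit.of_mul_eq_one (Ideal.Quotient.mk _ k) ?_
      rw [← map_mul, ← map_one (Ideal.Quotient.mk (Ideal.span {c})), Ideal.Quotient.eq,
        Ideal.mem_span_singleton, ← h1]
      exact ⟨-y, by ring⟩
    obtain ⟨u, hu⟩ := hcop
    have h2 := hΘ ψ p hp0 u hu
    rw [prin_prime hpp hpv (el_coe hp0), art_single, one_smul, h1'] at h2
    have h3 : (1 : ℂˣ) = ψ (frob M v) := Additive.ofMul.injective h2
    rw [MonoidHom.one_apply, h3]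
    exact (chi_frob hvU (frob_spec v) hvF ψ).symm
  have hcycG : IsCyclic (Gal(M/F) →* ℂˣ) := isCyclic_of_injective Φ hΦ
  have e : (Gal(M/F) →* ℂˣ) ≃* (Abelianization Gal(M/F) →* ℂˣ) :=
    { Abelianization.lift with
      map_mul' := fun a b => by
        apply Abelianization.hom_ext
        ext g
        rfl }
  have hcycA : IsCyclic (Abelianization Gal(M/F) →* ℂˣ) :=
    isCyclic_of_surjective e e.surjective
  exact isCyclic_of_ab _ _ rfl hpg ((isCyclic_dual_iff _).1 hcycA)

end

end Pool.Agent.H62.Cft
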