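import Pool.Agent.H62.Cft3

/-!
# The Artin map over `ℚ(√-3)`
-/

set_option autoImplicit false
set_option linter.unusedSectionVars false
set_option linter.deprecated false

namespace Pool.Agent.H62.Cft

open NumberField IsDedekindDomain

section
variable {F K : Type} [Field F] [NumberField F] [IsCyclotomicExtension {3} ℚ F] [Field K]
  [NumberField K] [Algebra F K] [IsGalois F K]

theorem no_real (F : Type) [Field F] [NumberField F] [IsCyclotomicExtension {3} ℚ F] :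
    IsEmpty (F →+* ℝ) := by
  obtain ⟨ζ, hζ⟩ := IsCyclotomicExtension.exists_isPrimitiveRoot ℚ F
    (Set.mem_singleton 3) (by norm_num)
  refine ⟨fun φ => ?_⟩
  have h1 : IsPrimitiveRoot (φ ζ) 3 := hζ.map_of_injective φ.injective
  have h2 : (φ ζ) ^ 2 + φ ζ + 1 = 0 := by
    have h3 : (φ ζ) ^ 3 = 1 := h1.pow_eq_one
    have h4 : φ ζ ≠ 1 := h1.ne_one (by norm_num)
    have h5 : (φ ζ - 1) * ((φ ζ) ^ 2 + φ ζ + 1) = 0 := by
      linear_combination h3
    rcases mul_eq_zero.1 h5 with h6 | h6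
    · exact absurd (sub_eq_zero.1 h6) h4
    · exact h6
  nlinarith [sq_nonneg (φ ζ + 1 / 2)]

theorem three_not_mem {c : 𝓞 F} (h3 : 3 ∣ c - 1) (v : HeightOneSpectrum (𝓞 F))
    (hv : c ∈ v.asIdeal) : ((3 : ℕ) : 𝓞 F) ∉ v.asIdeal := by
  intro h
  have h' : (3 : 𝓞 F) ∈ v.asIdeal := by exact_mod_cast h
  have h1 : c - 1 ∈ v.asIdeal := v.asIdeal.mem_of_dvd h3 h'
  have h2 : (1 : 𝓞 F) ∈ v.asIdeal := by
    have := v.asIdeal.sub_mem hv h1
    rwa [sub_sub_cancel] at this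
  exact v.isPrime.ne_top ((Ideal.eq_top_iff_one _).2 h2)

/-- the Artin map of a cyclic extension of `ℚ(√-3)` of degree `3 ^ n`, unramified outside `c ≡ 1 mod 3` -/
theorem art_of_cyclic [IsCyclic Gal(K/F)] {n : ℕ} (hn : Module.finrank F K = 3 ^ n) {c : 𝓞 F}
    (hc0 : c ≠ 0) (h3 : 3 ∣ c - 1)
    (hunr : ∀ w : HeightOneSpectrum (𝓞 K), algebraMap (𝓞 F) (𝓞 K) c ∉ w.asIdeal →
      Algebra.IsUnramifiedAt (𝓞 F) w.asIdeal) :
    ∃ art : (𝓞 F ⧸ Ideal.span {c})ˣ →* Gal(K/F), Pool.Agent.Y696.Art c art := by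
  have := no_real F
  have := IsCyclotomicExtension.Rat.three_pid F
  exact exists_art Nat.prime_three hn hc0 (three_not_mem h3) hunr

/-- the Artin map of a Galois extension of `ℚ(√-3)` of degree `3 ^ n`, unramified outside the prime
`c ≡ 1 mod 3` -/
theorem art_of_one {n : ℕ} (hn : Module.finrank F K = 3 ^ n) {c : 𝓞 F}
    (hc : Prime c) (h3 : 3 ∣ c - 1)
    (hunr : ∀ w : HeightOneSpectrum (𝓞 K), algebraMap (𝓞 F) (𝓞 K) c ∉ w.asIdeal →
      Algebra.IsUnramifiedAt (𝓞 F) w.asIdeal) :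
    ∃ art : (𝓞 F ⧸ Ideal.span {c})ˣ →* Gal(K/F), Pool.Agent.Y696.Art c art := by
  have := no_real F
  have := IsCyclotomicExtension.Rat.three_pid F
  have := isCyclic_of_one Nat.prime_three hn hc (three_not_mem h3) hunr
  exact exists_art Nat.prime_three hn hc.ne_zero (three_not_mem h3) hunr

end

end Pool.Agent.H62.Cft
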