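import Pool.Agent.H62.Rec2

/-!
# Cubic reciprocity from class field theory, III
-/

set_option autoImplicit false
set_option linter.unusedSectionVars false

namespace Pool.Agent.H62

open NumberField IsDedekindDomain
open Pool.Agent.Q7.LK (IsPow)
open Pool.Agent.Y696 (exists_above)

variable {F : Type} [Field F] [NumberField F] [IsCyclotomicExtension {3} ℚ F] {ζ : F}

lemma three_prod {S : Finset (𝓞 F)} {m : 𝓞 F} (h : ∀ p ∈ S, m ∣ p - 1) (e : 𝓞 F → ℕ) :
    m ∣ (∏ p ∈ S, p ^ e p) - 1 := by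
  refine Finset.prod_induction _ (fun x : 𝓞 F => m ∣ x - 1) ?_ ?_ fun p hp => ?_
  · intro a b ha hb
    have : a * b - 1 = (a - 1) * b + (b - 1) := by ring
    rw [this]
    exact dvd_add (ha.mul_right b) hb
  · rw [sub_self]
    exact dvd_zero _
  · exact (h p hp).trans (sub_one_dvd_pow_sub_one' p (e p))
where
  sub_one_dvd_pow_sub_one' (p : 𝓞 F) (n : ℕ) : p - 1 ∣ p ^ n - 1 := by
    have := sub_dvd_pow_sub_pow p 1 n
    rwa [one_pow] at this

lemma lam_dvd (hζ : IsPrimitiveRoot ζ 3) {π : 𝓞 F} (h3 : ¬ π ∣ 3) :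
    ¬ π ∣ 2 * hζ.toInteger + 1 := by
  intro h
  apply h3
  have hz := zI hζ
  have : (3 : 𝓞 F) = (2 * hζ.toInteger + 1) * (-(2 * hζ.toInteger + 1)) := by
    linear_combination (4 : 𝓞 F) * hz
  rw [this]
  exact h.mul_right _

lemma not_dvd_three {π m : 𝓞 F} (hπ : Prime π) (h : 3 * m ∣ π - 1) : ¬ π ∣ 3 := by
  intro hd
  obtain ⟨q, hq⟩ := h
  have h1 : π ∣ π - 1 := by rw [hq]; exact (hd.mul_right m).mul_right q
  have h2 : π ∣ 1 := by
    have := (dvd_refl π).sub h1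
    rwa [sub_sub_cancel] at this
  exact hπ.not_isUnit (isUnit_of_dvd_one h2)

/-- **cubic reciprocity** -/
theorem recip (hζ : IsPrimitiveRoot ζ 3) {S : Finset (𝓞 F)}
    (hS : ∀ p ∈ S, Prime p ∧ 3 * (2 * hζ.toInteger + 1) ∣ p - 1) (e : 𝓞 F → ℕ) {r : 𝓞 F}
    (hr : Prime r) (hr3 : ¬ r ∣ 3) (hrS : ∀ p ∈ S, ¬ r ∣ p) {j : 𝓞 F → ℕ}
    (hj : ∀ p ∈ S, p ∣ r ^ ((Nm p - 1) / 3) - hζ.toInteger ^ j p) :
    r ∣ (∏ p ∈ S, p ^ e p) ^ ((Nm r - 1) / 3) - hζ.toInteger ^ (∑ p ∈ S, e p * j p) := by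
  have hpid := IsCyclotomicExtension.Rat.three_pid F
  have hz := zI hζ
  have hzc := z_cube hζ
  set z := hζ.toInteger with hzd
  set lam : 𝓞 F := 2 * z + 1 with hlam
  have hl2 : lam ^ 2 = -3 := by rw [hlam]; linear_combination (4 : 𝓞 F) * hz
  set b : 𝓞 F := ∏ p ∈ S, p ^ e p with hb
  obtain ⟨q, hq⟩ := three_prod (fun p hp => (hS p hp).2) e
  rw [← hb] at hq
  have hrb : ¬ r ∣ b := by
    intro h
    obtain ⟨p, hp, hd⟩ := (hr.dvd_finsetProd_iff _).1 h
    exact hrS p hp (hr.dvd_of_dvd_pow hd)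
  set α : 𝓞 F := b + 3 * lam * r with hα
  have hrα : ¬ r ∣ α := fun h => hrb (by
    have : b = α - 3 * lam * r := by rw [hα]; ring
    rw [this]
    exact h.sub (dvd_mul_left _ _))
  have hα0 : α ≠ 0 := fun h => hrα (h ▸ dvd_zero r)
  have hαq : α - 1 = 3 * (2 * z + 1) * (q + r) := by
    rw [hα]
    linear_combination hq
  obtain ⟨X, hX1, hX2⟩ := exists_chi hζ hα0 hαq
  have hunit : ∀ x : 𝓞 F, IsCoprime x α → ∃ u : (𝓞 F ⧸ Ideal.span {α})ˣ,
      (u : 𝓞 F ⧸ Ideal.span {α}) = Ideal.Quotient.mk _ x := by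
    rintro x ⟨s, t, hst⟩
    have h1 : IsUnit (Ideal.Quotient.mk (Ideal.span {α}) x) := by
      refine IsUnit.of_mul_eq_one (Ideal.Quotient.mk _ s) ?_
      rw [← map_mul, ← map_one (Ideal.Quotient.mk (Ideal.span {α})), Ideal.Quotient.eq,
        Ideal.mem_span_singleton]
      exact ⟨-t, by linear_combination hst⟩
    exact ⟨h1.unit, rfl⟩
  obtain ⟨ur, hur⟩ := hunit r (hr.irreducible.coprime_iff_not_dvd.2 hrα)
  obtain ⟨ul, hul⟩ := hunit lam ⟨-(3 * (q + r)), 1, by linear_combination hαq⟩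
  have hpα : ∀ p ∈ S, ¬ p ∣ α ∧ p ∣ α - 3 * lam * r ∨ e p = 0 := by
    intro p hp
    by_cases he : e p = 0
    · exact Or.inr he
    · left
      have h1 : p ∣ b := (dvd_pow_self p he).trans (Finset.dvd_prod_of_mem _ hp)
      have h2 : p ∣ α - 3 * lam * r := by
        have : α - 3 * lam * r = b := by rw [hα]; ring
        rwa [this]
      refine ⟨fun h => ?_, h2⟩
      have h3 : p ∣ 3 * lam * r := by
        have := h.sub h2
        rwa [sub_sub_cancel] at this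
      have hpp := (hS p hp).1
      have h33 := not_dvd_three hpp (hS p hp).2
      rcases hpp.dvd_or_dvd h3 with h4 | h4
      · rcases hpp.dvd_or_dvd h4 with h5 | h5
        · exact h33 h5
        · exact lam_dvd hζ h33 h5
      · exact hrS p hp ((hpp.associated_of_dvd hr h4).symm.dvd)
  have hup : ∀ p : 𝓞 F, ∃ u : (𝓞 F ⧸ Ideal.span {α})ˣ, p ∈ S → e p ≠ 0 →
      (u : 𝓞 F ⧸ Ideal.span {α}) = Ideal.Quotient.mk _ p := by
    intro p
    by_cases hp : p ∈ S ∧ e p ≠ 0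
    · obtain ⟨u, hu⟩ := hunit p ((hS p hp.1).1.irreducible.coprime_iff_not_dvd.2
        ((hpα p hp.1).resolve_right hp.2).1)
      exact ⟨u, fun _ _ => hu⟩
    · exact ⟨1, fun h1 h2 => absurd ⟨h1, h2⟩ hp⟩
  choose up hup using hup
  -- the values at the primes
  have hXp : ∀ p ∈ S, e p ≠ 0 → X (up p) = z ^ j p := by
    intro p hp he
    have hpp := (hS p hp).1
    have h33 := not_dvd_three hpp (hS p hp).2
    have h1 := hX2 p hpp (up p) (hup p hp he) h33
    obtain ⟨h2, h3⟩ := (hpα p hp).resolve_right he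
    obtain ⟨m, hm⟩ := three_dvd_Nm hζ hpp h33
    have hm' : (Nm p - 1) / 3 = m := by omega
    have h4 := hj p hp
    rw [hm'] at h1 h4
    have h5 := fermat hpp (lam_dvd hζ h33)
    rw [← hzd, ← hlam, hm] at h5
    have h6 : p ∣ α ^ m - (3 * lam * r) ^ m := h3.trans (sub_dvd_pow_sub_pow _ _ _)
    have h7 : (3 * lam * r) ^ m = (-1) ^ (3 * m) * lam ^ (3 * m) * r ^ m := by
      have e1 : 3 * lam = ((-1) * lam) ^ 3 := by linear_combination lam * hl2
      rw [e1, mul_pow, ← pow_mul, mul_pow]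
    have h8 : ((-1 : 𝓞 F)) ^ (3 * m) = (-1) ^ m := by
      rw [pow_mul]
      norm_num
    -- the sign is one, as `3 λ` is the cube of `-λ`
    have h9 : p ∣ (-1 : 𝓞 F) ^ (3 * m) - 1 := by
      have := fermat hpp (x := -1) (fun hd => hpp.not_isUnit (isUnit_of_dvd_unit hd isUnit_one.neg))
      rwa [hm] at this
    obtain ⟨i, hi⟩ := hX1 (up p)
    rw [hi]
    refine z_ne hζ (I := Ideal.span {p}) (fun h => h33 (Ideal.mem_span_singleton.1 h)) ?_
    rw [Ideal.mem_span_singleton, ← hzd, ← hi]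
    have e2 : X (up p) - z ^ j p = -(α ^ m - X (up p)) + (α ^ m - (3 * lam * r) ^ m) +
        ((-1 : 𝓞 F) ^ (3 * m) - 1) * (lam ^ (3 * m) * r ^ m) + (lam ^ (3 * m) - 1) * r ^ m +
        (r ^ m - z ^ j p) := by
      rw [h7]
      ring
    rw [e2]
    exact ((((h1.neg_right).add h6).add (h9.mul_right _)).add (h5.mul_right _)).add h4
  -- the class of `b`
  have hcls : (∏ p ∈ S, up p ^ e p) = ul ^ 3 * ur := by
    apply Units.ext
    rw [Units.coe_prod, Units.val_mul, Units.val_pow_eq_pow_val, hul, hur]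
    have e1 : ∏ p ∈ S, (((up p) ^ e p : (𝓞 F ⧸ Ideal.span {α})ˣ) : 𝓞 F ⧸ Ideal.span {α}) =
        Ideal.Quotient.mk _ b := by
      rw [hb, map_prod]
      refine Finset.prod_congr rfl fun p hp => ?_
      by_cases he : e p = 0
      · rw [he, pow_zero, pow_zero, Units.val_one, map_one]
      · rw [Units.val_pow_eq_pow_val, hup p hp he, map_pow]
    rw [e1, ← map_pow, ← map_mul, Ideal.Quotient.eq, Ideal.mem_span_singleton]
    exact ⟨1, by rw [hα]; linear_combination (-(lam * r)) * hl2⟩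
  have hXb : X ur = z ^ (∑ p ∈ S, e p * j p) := by
    have h1 := congrArg X hcls
    rw [map_prod, map_mul, map_pow] at h1
    obtain ⟨i, hi⟩ := hX1 ul
    have h2 : X ul ^ 3 = 1 := by
      rw [hi, ← hzd, ← pow_mul, mul_comm, pow_mul, hzc, one_pow]
    rw [h2, one_mul] at h1
    rw [← h1, ← Finset.prod_pow_eq_pow_sum]
    refine Finset.prod_congr rfl fun p hp => ?_
    by_cases he : e p = 0
    · rw [he, pow_zero, map_one, zero_mul, pow_zero]
    · rw [map_pow, hXp p hp he, ← pow_mul, mul_comm]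
  have h1 := hX2 r hr ur hur hr3
  rw [hXb] at h1
  have h2 : r ∣ b ^ ((Nm r - 1) / 3) - α ^ ((Nm r - 1) / 3) := by
    refine Dvd.dvd.trans ?_ (sub_dvd_pow_sub_pow _ _ _)
    exact ⟨-(3 * lam), by rw [hα]; ring⟩
  have h3 := h2.add h1
  rwa [sub_add_sub_cancel] at h3

/-- the symmetry of the cubic residue index -/
theorem idx_symm (hζ : IsPrimitiveRoot ζ 3) {p q : 𝓞 F} (hp : Prime p)
    (hp1 : 3 * (2 * hζ.toInteger + 1) ∣ p - 1) (hq : Prime q)
    (hq1 : 3 * (2 * hζ.toInteger + 1) ∣ q - 1) (hqp : ¬ q ∣ p) {j : ℕ}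
    (hj : p ∣ q ^ ((Nm p - 1) / 3) - hζ.toInteger ^ j) :
    q ∣ p ^ ((Nm q - 1) / 3) - hζ.toInteger ^ j := by
  classical
  have h := recip hζ (S := {p}) (fun x hx => by
    rw [Finset.mem_singleton] at hx
    rw [hx]
    exact ⟨hp, hp1⟩) (fun _ => 1) hq (not_dvd_three hq hq1) (fun x hx => by
    rw [Finset.mem_singleton] at hx
    rwa [hx]) (j := fun _ => j) (fun x hx => by
    rw [Finset.mem_singleton] at hx
    rwa [hx])
  simpa using h

end Pool.Agent.H62
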