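import Mathlib

/-!
# The order of a finite 3-primary group
-/

set_option autoImplicit false

namespace Pool.Agent.H62

/-- the 3-primary part -/
def prim3 (X : Type) [AddCommGroup X] : AddSubgroup X where
  carrier := {x | ∃ j : ℕ, 3 ^ j • x = 0}
  zero_mem' := ⟨0, smul_zero _⟩
  add_mem' := by
    rintro x y ⟨i, hi⟩ ⟨j, hj⟩
    refine ⟨i + j, ?_⟩
    rw [smul_add, pow_add, mul_comm, mul_smul, hi, smul_zero, mul_comm, mul_smul, hj, smul_zero,
      add_zero]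
  neg_mem' := by
    rintro x ⟨i, hi⟩
    exact ⟨i, by rw [smul_neg, hi, neg_zero]⟩

theorem card_prim3 {X : Type} [AddCommGroup X] {k n : ℕ}
    (h1 : (9 : ℕ∞) ^ k ≤ Set.encard {x : X | (3 : ℕ) • x = 0})
    (h2 : Set.encard {x : X | ∃ j : ℕ, 3 ^ j • x = 0} ≤ ((9 ^ k : ℕ) : ℕ∞) ^ n) :
    ∃ s : ℕ, Nat.card {x : X | ∃ j : ℕ, 3 ^ j • x = 0} = 3 ^ s ∧ 2 * k ≤ s ∧ s ≤ 2 * n * k := by
  have hfin : Set.Finite {x : X | ∃ j : ℕ, 3 ^ j • x = 0} := by
    apply Set.encard_ne_top_iff.1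
    intro h
    rw [h] at h2
    have : (((9 ^ k : ℕ) : ℕ∞) ^ n) = (((9 ^ k) ^ n : ℕ) : ℕ∞) := by push_cast; rfl
    rw [this] at h2
    exact (ENat.natCast_ne_top _) (top_le_iff.1 h2)
  have hf : Finite (prim3 X) := hfin
  have hf' : Finite {x : X | ∃ j : ℕ, 3 ^ j • x = 0} := hfin
  have hp : IsPGroup 3 (Multiplicative (prim3 X)) := by
    intro x
    obtain ⟨j, hj⟩ := (Multiplicative.toAdd x).2
    refine ⟨j, ?_⟩
    apply Multiplicative.toAdd.injective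
    apply Subtype.ext
    exact hj
  have : Fact (Nat.Prime 3) := ⟨Nat.prime_three⟩
  obtain ⟨s, hs⟩ := IsPGroup.iff_card.1 hp
  have hs' : Nat.card {x : X | ∃ j : ℕ, 3 ^ j • x = 0} = 3 ^ s := hs
  have he : Set.encard {x : X | ∃ j : ℕ, 3 ^ j • x = 0} = ((3 ^ s : ℕ) : ℕ∞) := by
    rw [← hs', Set.encard, ENat.card_eq_coe_natCard]
  refine ⟨s, hs', ?_, ?_⟩
  · have h3 : (9 : ℕ∞) ^ k ≤ ((3 ^ s : ℕ) : ℕ∞) := by
      rw [← he]
      refine h1.trans (Set.encard_le_encard ?_)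
      intro x hx
      exact ⟨1, by rw [pow_one]; exact hx⟩
    have h4 : 9 ^ k ≤ 3 ^ s := by exact_mod_cast h3
    rw [show (9 : ℕ) = 3 ^ 2 by norm_num, ← pow_mul] at h4
    exact (Nat.pow_le_pow_iff_right (by norm_num)).1 h4
  · rw [he] at h2
    have h4 : 3 ^ s ≤ (9 ^ k) ^ n := by exact_mod_cast h2
    rw [show (9 : ℕ) = 3 ^ 2 by norm_num, ← pow_mul, ← pow_mul] at h4
    have := (Nat.pow_le_pow_iff_right (by norm_num)).1 h4
    calc s ≤ 2 * (k * n) := this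
      _ = 2 * n * k := by ring

end Pool.Agent.H62
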