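import Mathlib
import Pool.Agent.H62.SelY
import Pool.Agent.H81.SigCls
import Pool.Agent.H81.NormTors
import Pool.Agent.H40.SHN.Pts

/-!
# The rank is zero
-/

set_option autoImplicit false
set_option linter.unusedSectionVars false

namespace Pool.Agent.H62

open NumberField IsDedekindDomain WithZero WeierstrassCurve
open Pool.Agent.Q7.CE
open Pool.Agent.Q285.CE Pool.Agent.Q123.CE
open Pool.Agent.Q7.LK (IsPow)
open Pool.Agent.TH841.SH.D (Pt act)
open Pool.Agent.H40.SHN (cv cv_some cv_act EP pm)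
open Pool.Agent.H81.SG (sig_cls)

section tr

variable {F K : Type} [Field F] [NumberField F] [Field K] [NumberField K] [Algebra F K]

/-- the points do not depend on the field of definition -/
noncomputable def trF (F K : Type) [Field F] [NumberField F] [Field K] [NumberField K]
    [Algebra F K] : Pt (ED (1 : F)) K ≃+ Pt (ED (1 : K)) K := (cv F K).trans (cv K K).symm

lemma trF_some {x y : K} (h : ((ED (1 : F)).baseChange K).toAffine.Nonsingular x y) :
    ∃ h' : ((ED (1 : K)).baseChange K).toAffine.Nonsingular x y,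
      trF F K (Affine.Point.some x y h) = Affine.Point.some x y h' := by
  have h' : ((ED (1 : K)).baseChange K).toAffine.Nonsingular x y := by
    have e : (ED (1 : F)).baseChange K = (ED (1 : K)).baseChange K := by
      rw [show (ED (1 : F)).baseChange K = ED (1 : K) from Pool.Agent.H40.SHN.ED_map (algebraMap F K),
        show (ED (1 : K)).baseChange K = ED (1 : K) from Pool.Agent.H40.SHN.ED_map (algebraMap K K)]
    rw [← e]
    exact h
  refine ⟨h', ?_⟩
  show (cv K K).symm (cv F K (Affine.Point.some x y h)) = _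
  rw [AddEquiv.symm_apply_eq]
  obtain ⟨h1, e1⟩ := cv_some (k := F) h
  obtain ⟨h2, e2⟩ := cv_some (k := K) h'
  rw [e1, e2]

lemma clP_tr (P : Pt (ED (1 : F)) K) : clP (1 : K) (trF F K P) = clP (1 : F) P := by
  rcases P with _ | ⟨x, y, h⟩
  · have : trF F K (0 : Pt (ED (1 : F)) K) = 0 := map_zero _
    exact (congrArg (clP (1 : K)) this).trans rfl
  · obtain ⟨h', e⟩ := trF_some h
    rw [e]
    show cy (algebraMap K K 1) y = cy (algebraMap F K 1) y
    rw [map_one, map_one]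

lemma clP_act {L L' : Type} [Field L] [Algebra F L] [Field L'] [Algebra F L']
    (s : L →ₐ[F] L') (P : Pt (ED (1 : F)) L) : clP (1 : F) (act (ED (1 : F)) s P) = s (clP (1 : F) P) := by
  rcases P with _ | ⟨x, y, h⟩
  · exact (map_one s).symm
  · show cy (algebraMap F L' 1) (s y) = s (cy (algebraMap F L 1) y)
    rw [map_one, map_one]
    by_cases hy : y = 0
    · rw [hy, map_zero, cy_zero, cy_zero, map_inv₀, map_one]
    · rw [cy_of hy, cy_of ((map_ne_zero _).2 hy)]

lemma cls_tr (P : Pt (ED (1 : F)) K) : Cls (1 : K) K (trF F K P) (clP (1 : F) P) := by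
  rw [cls_iff one_ne_zero, clP_tr, div_self (clP_ne one_ne_zero P)]
  exact IsC.one

end tr

section triv

variable {F : Type} [Field F] [NumberField F] [IsCyclotomicExtension {3} ℚ F] {ζ : F}

/-- the curve over the base field -/
theorem triv_base (hζ : IsPrimitiveRoot ζ 3) (hn : ¬ IsPow 3 ζ) : Triv (1 : F) := by
  have hpid := IsCyclotomicExtension.Rat.three_pid F
  refine fin_thm hζ hn fun a ha => ?_
  obtain ⟨w, -⟩ := Pool.Agent.N883.T.exists_three F
  have ha0 := (ha w).1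
  obtain ⟨u, k, h, hh, e⟩ := field_cubeS (S := (∅ : Finset (𝓞 F))) (by simp) ha0 (fun v _ => ae_c3 v (ha v))
  obtain ⟨j, s, hs, hus⟩ := unit_F hζ u
  refine ⟨2 * j, s * h * ζ ^ (((j : ℕ) + ((2 * j : Fin 3) : ℕ)) / 3), ?_⟩
  have hz3 := hζ.pow_eq_one
  have e1 : a = ζ ^ (j : ℕ) * (s * h) ^ 3 := by
    rw [e, hus, Finset.prod_empty]
    have : ((1 : 𝓞 F) : F) = 1 := map_one (algebraMap (𝓞 F) F)
    rw [this]
    ring
  have e2 : ζ ^ (j : ℕ) * ζ ^ ((2 * j : Fin 3) : ℕ) =
      (ζ ^ (((j : ℕ) + ((2 * j : Fin 3) : ℕ)) / 3)) ^ 3 := by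
    rw [← pow_add, ← pow_mul]
    congr 1
    fin_cases j <;> rfl
  rw [e1, mul_pow, mul_pow, ← e2]
  ring

end triv

section

variable {F K : Type} [Field F] [NumberField F] [IsCyclotomicExtension {3} ℚ F] [Field K]
  [NumberField K] [Algebra F K] [IsGalois F K] {ζ : F} {n : ℕ} {S : Finset (𝓞 F)}

lemma Ms.triv_base (T : Ms F K ζ n S) : Triv (1 : F) := by
  refine Pool.Agent.H62.triv_base T.zeta ?_
  rintro ⟨x, hx⟩
  exact T.om_ne ⟨algebraMap F K x, by rw [hx, map_pow]⟩

lemma cl_T'_mul {ζ : F} (hI : ζ ^ 2 + ζ + 1 = 0) (j : ℕ) :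
    IsC (clP (1 : F) (j • T' hI K) * (algebraMap F K ζ) ^ j) := by
  set ω := algebraMap F K ζ with hω
  have hω3 : ω ^ 3 = 1 := by
    have hI' : ω ^ 2 + ω + 1 = 0 := by
      rw [hω, ← map_pow, ← map_add, ← map_one (algebraMap F K), ← map_add, hI, map_zero]
    linear_combination (ω - 1) * hI'
  induction j with
  | zero =>
    rw [zero_nsmul, pow_zero, mul_one]
    exact IsC.one
  | succ j ih =>
    have h5 := clP_add (D := (1 : F)) one_ne_zero K (j • T' hI K) (T' hI K)
    rw [succ_nsmul]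
    have h6 : IsC (clP (1 : F) (T' hI K) * ω) := by
      rw [clP_T']
      have : algebraMap F K ζ ^ 2 * ω = 1 := by
        rw [← hω]
        linear_combination hω3
      rw [this]
      exact IsC.one
    have h7 := (ih.mul h6).div h5
    have n1 := clP_ne (D := (1 : F)) one_ne_zero (j • T' hI K)
    have n2 := clP_ne (D := (1 : F)) one_ne_zero (T' hI K)
    have n3 := clP_ne (D := (1 : F)) one_ne_zero (j • T' hI K + T' hI K)
    have e : clP (1 : F) (j • T' hI K) * ω ^ j * (clP (1 : F) (T' hI K) * ω) /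
        (clP (1 : F) (j • T' hI K) * clP (1 : F) (T' hI K) / clP (1 : F) (j • T' hI K + T' hI K)) =
        clP (1 : F) (j • T' hI K + T' hI K) * ω ^ (j + 1) := by
      rw [pow_succ]
      field_simp
    rwa [e] at h7

/-- **the automorphisms act trivially on the points modulo three and torsion** -/
theorem Ms.sig_pt (T : Ms F K ζ n S)
    (hB1 : ∀ a : K, (∀ v : HeightOneSpectrum (𝓞 K), AE v 1 a) →
      ∃ (i : ℕ) (m : 𝓞 F → ℕ) (c : K), c ≠ 0 ∧
        a = algebraMap F K ζ ^ i * algebraMap F K ((∏ p ∈ S, p ^ m p : 𝓞 F) : F) * c ^ 3)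
    (hloc : ∀ (σ : Gal(K/F)) (x c : K) (i : ℕ) (m : 𝓞 F → ℕ), x ≠ 0 → c ≠ 0 →
      (∀ v : HeightOneSpectrum (𝓞 K), (3 : 𝓞 K) ∉ v.asIdeal → C3 (v.valuation K x)) →
      σ x / x = algebraMap F K ζ ^ i * algebraMap F K ((∏ p ∈ S, p ^ m p : 𝓞 F) : F) * c ^ 3 →
      ∃ d : K, algebraMap F K ((∏ p ∈ S, p ^ m p : 𝓞 F) : F) = d ^ 3)
    (σ : Gal(K/F)) (Q : Pt (ED (1 : F)) K) :
    ∃ y t : Pt (ED (1 : F)) K, (3 : ℕ) • t = 0 ∧
      act (ED (1 : F)) ((σ : K ≃ₐ[F] K) : K →ₐ[F] K) Q = Q + (3 : ℕ) • y + t := by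
  have hI := T.quad'
  set ω := algebraMap F K ζ with hω
  have hω0 : ω ≠ 0 := T.zetaK.ne_zero (by norm_num)
  have hω3 : ω ^ 3 = 1 := T.zetaK.pow_eq_one
  set s : K →ₐ[F] K := ((σ : K ≃ₐ[F] K) : K →ₐ[F] K) with hs
  have hsσ : ∀ x : K, s x = σ x := fun x => rfl
  have hQ0 : ∀ q ∈ S, algebraMap F K (q : F) ≠ 0 := by
    intro q hq
    rw [Ne, map_eq_zero]
    exact fun h => (T.prime q hq).1.ne_zero (by exact_mod_cast h)
  -- the classes
  have hcl : ∀ P : Pt (ED (1 : F)) K, ∃ (i : ℕ) (m : 𝓞 F → ℕ) (c : K), c ≠ 0 ∧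
      clP (1 : F) P = ω ^ i * algebraMap F K ((∏ p ∈ S, p ^ m p : 𝓞 F) : F) * c ^ 3 := fun P =>
    hB1 _ fun v => Pool.Agent.Q275.CE.ae_of_cls (cls_tr P) v
  -- the first step
  have h1 : ∃ R : Pt (ED (1 : F)) K, act (ED (1 : F)) s Q - Q = R - imP one_ne_zero hI K R := by
    apply theta_of_clP
    obtain ⟨i, m, c, hc, e⟩ := hcl Q
    have h2 : IsC (clP (1 : F) (act (ED (1 : F)) s Q) / clP (1 : F) Q) := by
      refine ⟨s c / c, div_ne_zero ((map_ne_zero s).2 hc) hc, ?_⟩
      have hA : ω ^ i * algebraMap F K ((∏ p ∈ S, p ^ m p : 𝓞 F) : F) ≠ 0 := by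
        intro h0
        have := clP_ne (D := (1 : F)) one_ne_zero Q
        rw [e, h0, zero_mul] at this
        exact this rfl
      rw [clP_act, e, map_mul, map_mul, map_pow, map_pow, hω, s.commutes, s.commutes, ← hω, div_pow,
        mul_div_mul_left _ _ hA]
    have h3 := clP_add (D := (1 : F)) one_ne_zero K (act (ED (1 : F)) s Q - Q) Q
    rw [sub_add_cancel] at h3
    have h4 := h3.mul h2
    have n1 := clP_ne (D := (1 : F)) one_ne_zero Q
    have n2 := clP_ne (D := (1 : F)) one_ne_zero (act (ED (1 : F)) s Q)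
    have e2 : clP (1 : F) (act (ED (1 : F)) s Q - Q) * clP (1 : F) Q /
        clP (1 : F) (act (ED (1 : F)) s Q) * (clP (1 : F) (act (ED (1 : F)) s Q) / clP (1 : F) Q) =
        clP (1 : F) (act (ED (1 : F)) s Q - Q) := by
      field_simp
    rwa [e2] at h4
  obtain ⟨R, hR⟩ := h1
  obtain ⟨x, c, hx, hc, hxc, hV⟩ := sig_cls hI s Q R hR
  obtain ⟨i, m, c', hc', e⟩ := hcl R
  set A := algebraMap F K ((∏ p ∈ S, p ^ m p : 𝓞 F) : F) with hA
  have hA0 : A ≠ 0 := by
    rw [hA, coe_prod]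
    exact Finset.prod_ne_zero_iff.2 fun q hq => pow_ne_zero _ (hQ0 q hq)
  have hA2 : algebraMap F K ((∏ p ∈ S, p ^ (2 * m p) : 𝓞 F) : F) = A ^ 2 := by
    rw [hA, coe_prod S (fun p => 2 * m p), coe_prod, ← Finset.prod_pow]
    exact Finset.prod_congr rfl fun q _ => by rw [← pow_mul, mul_comm]
  obtain ⟨d, hd⟩ := hloc σ x (c' ^ 2 * c) (2 * i) (fun p => 2 * m p) hx
    (mul_ne_zero (pow_ne_zero _ hc') hc) (fun v hv => hV _ (by
      have e3 : (3 : K) = algebraMap (𝓞 K) K 3 := by rw [map_ofNat]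
      rw [e3, HeightOneSpectrum.valuation_of_algebraMap, HeightOneSpectrum.intValuation_eq_one_iff]
      exact hv)) (by
      rw [← hsσ, hxc, e, hA2]
      ring)
  rw [hA2] at hd
  have hd0 : d ≠ 0 := by
    rintro rfl
    rw [zero_pow three_ne_zero] at hd
    exact pow_ne_zero _ hA0 hd
  have hAc : A = (A / d) ^ 3 := by
    rw [div_pow, ← hd]
    field_simp
  -- the class of `R`
  have h5 : IsC (clP (1 : F) R * ω ^ (2 * i)) := by
    refine ⟨A / d * c', mul_ne_zero (div_ne_zero hA0 hd0) hc', ?_⟩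
    rw [e, mul_pow, ← hAc]
    have : ω ^ i * ω ^ (2 * i) = 1 := by
      rw [← pow_add, show i + 2 * i = 3 * i by ring, pow_mul, hω3, one_pow]
    linear_combination (A * c' ^ 3) * this
  have h6 := cl_T'_mul (K := K) hI (2 * i)
  rw [← hω] at h6
  have h7 : IsC (clP (1 : F) (R - (2 * i) • T' hI K)) := by
    have h8 := clP_add (D := (1 : F)) one_ne_zero K (R - (2 * i) • T' hI K) ((2 * i) • T' hI K)
    rw [sub_add_cancel] at h8
    have h9 := (h8.mul h5).div h6
    have n1 := clP_ne (D := (1 : F)) one_ne_zero R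
    have n2 := clP_ne (D := (1 : F)) one_ne_zero ((2 * i) • T' hI K)
    have n3 : ω ^ (2 * i) ≠ 0 := pow_ne_zero _ hω0
    have e2 : clP (1 : F) (R - (2 * i) • T' hI K) * clP (1 : F) ((2 * i) • T' hI K) /
        clP (1 : F) R * (clP (1 : F) R * ω ^ (2 * i)) /
        (clP (1 : F) ((2 * i) • T' hI K) * ω ^ (2 * i)) =
        clP (1 : F) (R - (2 * i) • T' hI K) := by
      field_simp
    rwa [e2] at h9
  obtain ⟨R', hR'⟩ := theta_of_clP one_ne_zero hI K _ h7
  have hR'' : R - (2 * i) • T' hI K = th hI K R' := hR'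
  have h10 : act (ED (1 : F)) s Q - Q = th hI K R := hR
  have h11 : R = th hI K R' + (2 * i) • T' hI K := by rw [← hR'']; abel
  refine ⟨-(imP one_ne_zero hI K R'), (2 * i) • th hI K (T' hI K), ?_, ?_⟩
  · rw [smul_comm, ← map_nsmul, T'_three, map_zero, smul_zero]
  · have h12 : act (ED (1 : F)) s Q = Q + th hI K R := by rw [← h10]; abel
    rw [h12, h11, map_add, map_nsmul, th_th, smul_neg]
    abel

/-- **the group of the points is finite** -/
theorem Ms.rank_zero [hcyc : IsCyclic Gal(K/F)] (T : Ms F K ζ n S)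
    (hB1 : ∀ a : K, (∀ v : HeightOneSpectrum (𝓞 K), AE v 1 a) →
      ∃ (i : ℕ) (m : 𝓞 F → ℕ) (c : K), c ≠ 0 ∧
        a = algebraMap F K ζ ^ i * algebraMap F K ((∏ p ∈ S, p ^ m p : 𝓞 F) : F) * c ^ 3)
    (hloc : ∀ (σ : Gal(K/F)) (x c : K) (i : ℕ) (m : 𝓞 F → ℕ), x ≠ 0 → c ≠ 0 →
      (∀ v : HeightOneSpectrum (𝓞 K), (3 : 𝓞 K) ∉ v.asIdeal → C3 (v.valuation K x)) →
      σ x / x = algebraMap F K ζ ^ i * algebraMap F K ((∏ p ∈ S, p ^ m p : 𝓞 F) : F) * c ^ 3 →
      ∃ d : K, algebraMap F K ((∏ p ∈ S, p ^ m p : 𝓞 F) : F) = d ^ 3) :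
    ∀ x : Pt (ED (1 : K)) K, ∃ m : ℕ, 0 < m ∧ m • x = 0 := by
  obtain ⟨σ, hσ⟩ := IsCyclic.exists_generator (α := Gal(K/F))
  set s : K →ₐ[F] K := ((σ : K ≃ₐ[F] K) : K →ₐ[F] K) with hs
  have hfg : AddGroup.FG (Pt (ED (1 : F)) K) := by
    have := fg_pts (K := K)
    exact AddGroup.fg_of_surjective (f := ((trF F K).symm : Pt (ED (1 : K)) K →+ Pt (ED (1 : F)) K))
      (trF F K).symm.surjective
  have hiter : ∀ (j : ℕ) (x : Pt (ED (1 : F)) K), (act (ED (1 : F)) s)^[j] x =
      act (ED (1 : F)) (((σ ^ j : Gal(K/F)) : K ≃ₐ[F] K) : K →ₐ[F] K) x := by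
    intro j
    induction j with
    | zero =>
      intro x
      rcases x with _ | ⟨X, Y, h⟩
      · rfl
      · rfl
    | succ j ih =>
      intro x
      rw [Function.iterate_succ_apply', ih, act_act']
      congr 1
      rw [pow_succ']
      rfl
  have hper : ∀ x : Pt (ED (1 : F)) K, (act (ED (1 : F)) s)^[3 ^ n] x = x := by
    intro x
    rw [hiter, ← T.card]
    have : σ ^ Nat.card Gal(K/F) = 1 := pow_card_eq_one'
    rw [this]
    rcases x with _ | ⟨X, Y, h⟩
    · rfl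
    · rfl
  have hfin : Finite (Pt (ED (1 : F)) F) := by
    have h1 : Finite (EP F) := T.triv_base.1
    exact Finite.of_equiv (EP F) (cv F F).symm.toEquiv
  have key := Pool.Agent.H81.NT.tors_of_norm hfg (act (ED (1 : F)) s) n (fun x => by
    obtain ⟨y, t, ht, e⟩ := T.sig_pt hB1 hloc σ x
    exact ⟨y, t, ⟨3, by norm_num, ht⟩, e⟩) (fun x => by
    set N := ∑ i ∈ Finset.range (3 ^ n), ((act (ED (1 : F)) s)^[i]) x with hN
    -- the sum is fixed
    have hfix : act (ED (1 : F)) s N = N := by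
      have h1 : act (ED (1 : F)) s N = ∑ i ∈ Finset.range (3 ^ n), ((act (ED (1 : F)) s)^[i + 1]) x := by
        rw [hN, map_sum]
        refine Finset.sum_congr rfl fun i _ => ?_
        rw [Function.iterate_succ_apply']
      have h2 := Finset.sum_range_succ' (fun i => ((act (ED (1 : F)) s)^[i]) x) (3 ^ n)
      have h3 := Finset.sum_range_succ (fun i => ((act (ED (1 : F)) s)^[i]) x) (3 ^ n)
      rw [hper] at h3
      rw [h3] at h2
      rw [h1]
      have h4 : (act (ED (1 : F)) s)^[0] x = x := rfl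
      rw [h4] at h2
      exact (add_right_cancel h2).symm
    -- so it is rational
    have hrat : ∃ y : Pt (ED (1 : F)) F, act (ED (1 : F)) (Algebra.ofId F K) y = N := by
      clear_value N
      rcases N with _ | ⟨X, Y, h⟩
      · exact ⟨0, rfl⟩
      · have h5 : s X = X ∧ s Y = Y := some_in (W := (ED (1 : F)).baseChange K) hfix
        have hall : ∀ z : K, s z = z → ∃ z' : F, algebraMap F K z' = z := by
          intro z hz
          refine (IsGalois.mem_range_algebraMap_iff_fixed (F := F) z).2 fun g => ?_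
          obtain ⟨m, rfl⟩ := hσ g
          have hmem : σ ∈ MulAction.stabilizer Gal(K/F) z := hz
          exact Subgroup.zpow_mem _ hmem m
        obtain ⟨a, ha⟩ := hall X h5.1
        obtain ⟨b, hb⟩ := hall Y h5.2
        subst ha hb
        have hn : ((ED (1 : F)).baseChange F).toAffine.Nonsingular a b :=
          (Affine.baseChange_nonsingular (ED (1 : F)) (f := Algebra.ofId F K)
            (Algebra.ofId F K).injective a b).mp h
        exact ⟨.some a b hn, rfl⟩
    obtain ⟨y, hy⟩ := hrat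
    refine ⟨addOrderOf y, addOrderOf_pos y, ?_⟩
    rw [← hy, ← map_nsmul, addOrderOf_nsmul_eq_zero, map_zero])
  intro x
  obtain ⟨m, hm, h⟩ := key ((trF F K).symm x)
  refine ⟨m, hm, ?_⟩
  apply (trF F K).symm.injective
  rw [map_nsmul, h, map_zero]

end

end Pool.Agent.H62
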