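import Mathlib
import Pool.Agent.H62.Rk0
import Pool.Agent.H62.KumS
import Pool.Agent.H62.Fin4
import Pool.Agent.H62.Fin6
import Pool.Agent.H81.CntMs
import Pool.Agent.H81.Up4
import Pool.Agent.H40.SHN.Nrm
import Pool.Agent.H40.SHN.GrpB
import Pool.Agent.H47.CB.ShaUp

/-!
# The points and the Tate-Shafarevich group
-/

set_option autoImplicit false
set_option linter.unusedSectionVars false

namespace Pool.Agent.H62

open NumberField IsDedekindDomain WithZero WeierstrassCurve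
open Pool.Agent.Q7.CE
open Pool.Agent.Q285.CE Pool.Agent.Q123.CE
open Pool.Agent.Q7.LK (IsPow)
open Pool.Agent.TH841.SH.D (Pt act)
open Pool.Agent.TH841.NF.D (Sha)
open Pool.Agent.H40.SHN (sg)
open Pool.Agent.Y696 (E27)

variable {F K : Type} [Field F] [NumberField F] [IsCyclotomicExtension {3} ℚ F] [Field K]
  [NumberField K] [Algebra F K] [IsGalois F K] {ζ : F} {n : ℕ} {S : Finset (𝓞 F)}

lemma complex_K (hn : Module.finrank F K = 3 ^ n) : IsTotallyComplex K :=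
  nrRealPlaces_eq_zero_iff.1 (places (F := F) (K := K) hn).1

/-- the valuations at the unramified primes -/
lemma unrS_of {art : (𝓞 F ⧸ Ideal.span {∏ p ∈ S, p})ˣ →* Gal(K/F)}
    (h : Pool.Agent.Y696.Art (∏ p ∈ S, p) art) : UnrS K S := by
  intro v hv f
  refine Pool.Agent.Y696.val_of_unr (Pool.Agent.Y696.und_lies (F := F) v)
    (Pool.Agent.N883.T.ram_one (h.unr v ?_)) f
  intro hmem
  rw [map_prod] at hmem
  have := v.isPrime
  obtain ⟨p, hp, hpv⟩ := Ideal.IsPrime.prod_mem_iff.1 hmem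
  exact hv p hp hpv

/-- **the points and the Tate-Shafarevich group** -/
theorem Ms.algebra [IsTotallyComplex K] [hcyc : IsCyclic Gal(K/F)] (hn : Module.finrank F K = 3 ^ n) (T : Ms F K ζ n S)
    (hunr : UnrS K S) {e : 𝓞 F → ℕ} {β : K} (D : TD T.zeta K n S e β) {k : ℕ} (hk : S.card = k + 1) :
    Finite (E27 K).toAffine.Point ∧
    Set.encard {x : Sha (ED (1 : K)) | (3 : ℕ) • x = 0} = 9 ^ k ∧
    (∀ x : Sha (ED (1 : K)), (∃ j : ℕ, 3 ^ j • x = 0) → 3 ^ n • x = 0) ∧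
    ∃ s : ℕ, Nat.card {x : Sha (ED (1 : K)) | ∃ j : ℕ, 3 ^ j • x = 0} = 3 ^ s ∧
      2 * k ≤ s ∧ s ≤ 2 * n * k := by
  have hne : S.Nonempty := Finset.card_pos.1 (by omega)
  have hB1 : ∀ a : K, (∀ v : HeightOneSpectrum (𝓞 K), AE v 1 a) →
      ∃ (i : ℕ) (m : 𝓞 F → ℕ) (c : K), c ≠ 0 ∧
        a = algebraMap F K ζ ^ i * algebraMap F K ((∏ p ∈ S, p ^ m p : 𝓞 F) : F) * c ^ 3 :=
    fun a ha => T.hB1 hunr D hne ha
  have hr := T.rank_zero hB1 (fun σ x c i m hx hc h3 h => T.hloc D σ i m hx hc h3 h)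
  have hlow := Pool.Agent.H81.HS.Ms.lower T (fun p hp => (D.prime p hp).2) hr hk
  obtain ⟨γ, hγ⟩ := IsCyclic.exists_generator (α := Gal(K/F))
  have hcx : IsTotallyComplex F := nrRealPlaces_eq_zero_iff.1
    (IsCyclotomicExtension.Rat.nrRealPlaces_eq_zero F (n := 3) (by norm_num))
  have hS1 := Pool.Agent.H47.CB.upper T hB1 D.exps D.root hk
  have h3 := Pool.Agent.H40.SHN.grp_bound (sg (γ : K ≃+* K)) n (9 ^ k) (fun x ⟨j, hj⟩ => by
    have := Pool.Agent.H40.SHN.norm_sg_cyclic T.triv_base.2 γ hγ x j hj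
    rwa [hn] at this) (fun x hx => Pool.Agent.H81.UP.Ms.fix3 T hunr D hne γ hx)
    (by exact_mod_cast hS1)
  refine ⟨?_, le_antisymm hS1 hlow, h3.1, card_prim3 hlow h3.2⟩
  have hfg := fg_pts (K := K)
  have hM : Module.Finite ℤ (Pt (ED (1 : K)) K) := Module.Finite.iff_addGroup_fg.2 hfg
  have htor : Module.IsTorsion ℤ (Pt (ED (1 : K)) K) := by
    intro x
    obtain ⟨m, hm, h⟩ := hr x
    refine ⟨⟨(m : ℤ), mem_nonZeroDivisors_of_ne_zero (by exact_mod_cast hm.ne')⟩, ?_⟩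
    show (m : ℤ) • x = 0
    rw [natCast_zsmul]
    exact h
  exact Module.finite_of_fg_torsion (Pt (ED (1 : K)) K) htor

end Pool.Agent.H62
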