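import Mathlib
import Pool.Agent.H62.SB4

/-!
# Leading terms of the sums over the classes modulo a product of primes

The characters are trivial at `ω`, and the primes are `≡ 1` modulo `3 √-3`.
-/

set_option autoImplicit false
set_option linter.unusedSectionVars false
set_option linter.unusedVariables false

open Complex Filter Topology IsDedekindDomain
open scoped PeriodPair

namespace Pool.Agent.H62

open H667R3 Pool.Agent.W192.HK Pool.Agent.TH936.CM Pool.Agent.TH936.PU
open Pool.Agent.W192.CM (nu)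
open Pool.Agent.Y696
open Pool.Agent.Y715.T.Three Pool.Agent.Y715.T.Lat
open Pool.Agent.Y715.T.LF (rd rd_eq_zero)
open Pool.Agent.Y715.T.Cg (sum_tri)

variable {L : PeriodPair} {Ω : ℂ} {Γ : Type*} [LinearOrderedCommGroupWithZero Γ]
  {v : Valuation ℂ Γ} {g : Γ} {R S : Finset eis} {χ : eis → eis → ℂ}

/-- the product of the differences to the trivial characters -/
noncomputable def D0 (R : Finset eis) (χ : eis → eis → ℂ) (x : eis) : ℂ :=
  ∏ q ∈ R, (χ q x - tr q x)

/-- the character with trivial components on `J` -/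
noncomputable def MX (S J : Finset eis) (χ : eis → eis → ℂ) (x : eis) : ℂ :=
  XP S χ x * XP J tr x

/-- a family of characters trivial at `ω`, the primes are `≡ 1` modulo `3 √-3` -/
structure Fm (v : Valuation ℂ Γ) (g : Γ) (P : Finset eis) (χ : eis → eis → ℂ) : Prop
    extends Pr3 P where
  nine : ∀ p ∈ P, 3 * la ∣ p - 1
  ch : ∀ p ∈ P, Ch v g p (χ p)
  om : ∀ p ∈ P, χ p omr = 1

lemma Fm.mono (h : Fm v g R χ) (hS : S ⊆ R) : Fm v g S χ :=
  { toPr3 := h.toPr3.mono hS
    nine := fun p hp => h.nine p (hS hp)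
    ch := fun p hp => h.ch p (hS hp)
    om := fun p hp => h.om p (hS hp) }

lemma Fm.fam (h : Fm v g R χ) : Fam v g R χ :=
  { toPr3 := h.toPr3
    ch := h.ch
    om := Finset.prod_eq_one h.om }

lemma cP_union [DecidableEq eis] {J : Finset eis} (hd : Disjoint S J) : cP (S ∪ J) = cP S * cP J := by
  unfold cP
  exact Finset.prod_union hd

/-- removing several Euler factors -/
theorem euler_MX [DecidableEq eis] (hC : Cur L Ω) (hS : S.Nonempty) (hX : Xm (cP S) (XP S χ))
    (J : Finset eis) (h : Pr3 (S ∪ J)) (hd : Disjoint S J) :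
    Xm (cP (S ∪ J)) (MX S J χ) ∧ SU L Ω (cP (S ∪ J)) (MX S J χ) =
      (∏ q ∈ J, ((q : ℂ) - (starRingEnd ℂ) (XP S χ q))) * SU L Ω (cP S) (XP S χ) := by
  induction J using Finset.induction_on with
  | empty =>
    have e1 : MX S ∅ χ = XP S χ := by
      funext x
      unfold MX
      have : XP ∅ tr x = 1 := Finset.prod_empty
      rw [this, mul_one]
    rw [e1, Finset.union_empty, Finset.prod_empty, one_mul]
    exact ⟨hX, rfl⟩
  | insert p J hp ih =>
    have hsub : S ∪ J ⊆ S ∪ insert p J := Finset.union_subset_union_right (Finset.subset_insert p J)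
    have hPr := h.mono hsub
    have hdJ : Disjoint S J := hd.mono_right (Finset.subset_insert p J)
    obtain ⟨ih1, ih2⟩ := ih hPr hdJ
    have hpm : p ∈ S ∪ insert p J := Finset.mem_union_right _ (Finset.mem_insert_self p J)
    have hpS : p ∉ S := fun hh => (Finset.disjoint_left.1 hd) hh (Finset.mem_insert_self p J)
    have hpSJ : p ∉ S ∪ J := by
      rw [Finset.mem_union, not_or]
      exact ⟨hpS, hp⟩
    have hpp := h.prime p hpm
    have e1 : S ∪ insert p J = insert p (S ∪ J) := Finset.union_insert p S J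
    have hcP : cP (S ∪ insert p J) = cP (S ∪ J) * p := by
      rw [e1]
      unfold cP
      rw [Finset.prod_insert hpSJ, mul_comm]
    have hne : (S ∪ J).Nonempty := hS.mono Finset.subset_union_left
    have hcop : IsCoprime (cP (S ∪ J)) p := by
      rw [isCoprime_comm, cop_cP hPr]
      intro q hq hqp
      have h1 := h.cop q (hsub hq) p hpm (fun hh => hpSJ (hh ▸ hq))
      exact (hPr.prime q hq).not_isUnit (h1.isUnit_of_dvd' dvd_rfl hqp)
    have e2 : MX S (insert p J) χ = fun x => MX S J χ x * tr p x := by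
      funext x
      unfold MX
      have : XP (insert p J) tr x = tr p x * XP J tr x := Finset.prod_insert hp
      rw [this]
      ring
    have he := euler_SU hC hPr.ne (hPr.not_unit hne) hPr.three hpp (h.one p hpm) hcop ih1
    have e3 : MX S J χ p = XP S χ p := by
      unfold MX
      have : XP J tr p = 1 := by
        refine Finset.prod_eq_one fun q hq => tr_not ?_
        exact (cop_cP hPr).1 hcop.symm q (Finset.mem_union_right _ hq)
      rw [this, mul_one]
    rw [hcP, e2]
    refine ⟨xm_mul hpp ih1, ?_⟩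
    rw [he, ih2, e3, Finset.prod_insert hp, mul_assoc]

lemma D0_expand [DecidableEq eis] (x : eis) :
    D0 R χ x = ∑ J ∈ R.powerset, (-1) ^ J.card * MX (R \ J) J χ x := by
  have h1 : D0 R χ x = ∏ q ∈ R, (-tr q x + χ q x) :=
    Finset.prod_congr rfl fun q _ => by ring
  rw [h1, Finset.prod_add]
  refine Finset.sum_congr rfl fun J _ => ?_
  rw [Finset.prod_neg]
  unfold MX XP
  ring

lemma SU_D0 [DecidableEq eis] (h : Pr3 R) :
    SU L Ω (cP R) (D0 R χ) =
      ∑ J ∈ R.powerset, (-1) ^ J.card * SU L Ω (cP R) (MX (R \ J) J χ) := by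
  have : Finite (eis ⧸ (sp (cP R) : Ideal eis)) := finite_q h.ne
  have : Fintype (eis ⧸ (sp (cP R) : Ideal eis)) := Fintype.ofFinite _
  rw [SU_eq]
  simp only [SU_eq, Finset.mul_sum]
  rw [Finset.sum_comm]
  refine Finset.sum_congr rfl fun x _ => ?_
  rw [D0_expand, map_sum, Finset.sum_mul]
  refine Finset.sum_congr rfl fun J _ => ?_
  rw [map_mul, map_pow, map_neg, map_one]
  ring

lemma D0_per (h : Fm v g R χ) {x y : eis}
    (hxy : x - y ∈ (sp (cP R) : Ideal eis)) : D0 R χ x = D0 R χ y := by
  refine Finset.prod_congr rfl fun q hq => ?_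
  have h1 : x - y ∈ (sp q : Ideal eis) := by
    rw [Ideal.mem_span_singleton] at hxy ⊢
    exact (Finset.dvd_prod_of_mem _ hq).trans hxy
  rw [(h.ch q hq).per x y h1, (xm_tr (h.prime q hq)).per x y h1]

lemma D0_om (h : Fm v g R χ) (x : eis) : D0 R χ (omr * x) = D0 R χ x := by
  refine Finset.prod_congr rfl fun q hq => ?_
  rw [(h.ch q hq).mul, h.om q hq, tr_mul (h.prime q hq), tr_not (om_not (h.prime q hq)), one_mul,
    one_mul]

lemma D0_zero (h : Fm v g R χ) {x : eis} (hx : ¬ IsCoprime x (cP R)) : D0 R χ x = 0 := by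
  rw [cop_cP h.toPr3] at hx
  push Not at hx
  obtain ⟨p, hp, hpx⟩ := hx
  refine Finset.prod_eq_zero hp ?_
  rw [(h.ch p hp).zero x hpx, tr_dvd hpx, sub_zero]

lemma v_D0 (h : Fm v g R χ) {x : eis} (hx : IsCoprime x (cP R)) :
    v ((starRingEnd ℂ) (D0 R χ x)) ≤ g ^ R.card := by
  rw [cop_cP h.toPr3] at hx
  unfold D0
  rw [map_prod, map_prod]
  refine Finset.prod_le_pow_card _ _ _ fun q hq => ?_
  rw [tr_not (hx q hq), map_sub, map_one, v.map_sub_swap]
  exact ((h.ch q hq).nr x (hx q hq)).conj.near

lemma v_card_units' (hv : v 3 < 1) (h : Pr3 R) (h9 : ∀ p ∈ R, 3 * la ∣ p - 1) :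
    v (Nat.card (eis ⧸ (sp (cP R) : Ideal eis))ˣ : ℂ) ≤ (v 3 * v 3) ^ R.card := by
  classical
  induction R using Finset.induction_on with
  | empty =>
    have h1 : (sp (cP ∅) : Ideal eis) = ⊤ := by
      unfold cP
      rw [Finset.prod_empty]
      exact Ideal.span_singleton_one
    have h2 : Nat.card (eis ⧸ (sp (cP ∅) : Ideal eis))ˣ = 1 := by
      rw [h1]
      have : Subsingleton (eis ⧸ (⊤ : Ideal eis)) := Ideal.Quotient.subsingleton_iff.2 rfl
      have : Subsingleton (eis ⧸ (⊤ : Ideal eis))ˣ := inferInstance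
      exact Nat.card_unique
    rw [h2, Nat.cast_one, map_one, Finset.card_empty, pow_zero]
  | insert p P hp ih =>
    have hP : Pr3 P := h.mono (Finset.subset_insert p P)
    have e1 : cP (insert p P) = p * cP P := Finset.prod_insert hp
    have hcop : IsCoprime (sp p : Ideal eis) (sp (cP P) : Ideal eis) := by
      rw [Ideal.isCoprime_span_singleton_iff]
      unfold cP
      exact IsCoprime.prod_right fun q hq => h.cop p (Finset.mem_insert_self p P) q
        (Finset.mem_insert_of_mem hq) (fun h => hp (h ▸ hq))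
    have e2 : (sp (cP (insert p P)) : Ideal eis) = sp p * sp (cP P) := by
      rw [e1, Ideal.span_singleton_mul_span_singleton]
    have e3 : Nat.card (eis ⧸ (sp (cP (insert p P)) : Ideal eis))ˣ =
        Nat.card (eis ⧸ (sp p : Ideal eis))ˣ * Nat.card (eis ⧸ (sp (cP P) : Ideal eis))ˣ := by
      rw [e2, ← Nat.card_prod]
      exact Nat.card_congr ((Units.mapEquiv
        (Ideal.quotientMulEquivQuotientProd _ _ hcop).toMulEquiv).trans
          MulEquiv.prodUnits).toEquiv
    obtain ⟨t, ht⟩ := h9 p (Finset.mem_insert_self p P)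
    obtain ⟨m, hm⟩ := card_nine t
    have ht' : 1 + 3 * la * t = p := by rw [← ht]; ring
    rw [ht'] at hm
    have e4 := card_prime_units (h.prime p (Finset.mem_insert_self p P))
    have e5 : (Nat.card (eis ⧸ (sp p : Ideal eis))ˣ : ℂ) = ((9 * m : ℤ) : ℂ) := by
      have e6 : ((Nat.card (eis ⧸ (sp p : Ideal eis))ˣ : ℕ) : ℤ) = 9 * m := by
        rw [e4, hm]
        ring
      have := congrArg (fun t : ℤ => (t : ℂ)) e6
      simp only [Int.cast_natCast] at this
      exact this
    rw [e3, Finset.card_insert_of_notMem hp, pow_succ, mul_comm ((v 3 * v 3) ^ P.card)]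
    rw [Nat.cast_mul, map_mul, e5]
    exact mul_le_mul' v_nine_le (ih hP fun q hq => h9 q (Finset.mem_insert_of_mem hq))

lemma cP_not_dvd_two (h : Pr3 R) (h9 : ∀ p ∈ R, 3 * la ∣ p - 1) (hne : R.Nonempty) :
    ¬ cP R ∣ 2 := by
  obtain ⟨p, hp⟩ := hne
  intro hd
  obtain ⟨t, ht⟩ := h9 p hp
  have h1 := cop_two (h.prime p hp) (q := t) (by rw [← ht]; ring)
  have h2 : p ∣ 2 := (Finset.dvd_prod_of_mem _ hp).trans hd
  exact (h.prime p hp).not_isUnit (h1.isUnit_of_dvd' h2 dvd_rfl)

/-- **the bound for the product of the differences** -/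
theorem v_SU_D0 [DecidableEq eis] (hC : Cur L Ω) (hv : v 3 < 1) (hgl : v lam ≤ g)
    (h : Fm v g R χ) (hne : R.Nonempty) :
    v (SU L Ω (cP R) (D0 R χ)) ≤ v 3 * v lam * g ^ R.card := by
  have hfin : ∀ q : eis, q ≠ 0 → Finite (eis ⧸ (sp q : Ideal eis)) := fun q hq => finite_q hq
  have hc := h.toPr3.ne
  have : Finite (eis ⧸ (sp (cP R) : Ideal eis)) := finite_q hc
  have : Fintype (eis ⧸ (sp (cP R) : Ideal eis)) := Fintype.ofFinite _
  have hL := hC.lat
  have hcu := h.toPr3.not_unit hne
  have h3c := cop3_of h.toPr3.three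
  have hct : (sp (cP R) : Ideal eis) ≠ ⊤ := fun hh => hcu (Ideal.span_singleton_eq_top.1 hh)
  have hnt : Nontrivial (eis ⧸ (sp (cP R) : Ideal eis)) := Ideal.Quotient.nontrivial_iff.2 hct
  have hc2 := cP_not_dvd_two h.toPr3 h.nine hne
  have hD := dat' hC hc hc2 h3c hct hfin
  set c := cP R with hcdef
  rw [SU_eq]
  have e1 : ∑ x : eis ⧸ (sp c : Ideal eis), (starRingEnd ℂ) (D0 R χ x.out) * GG L Ω c x =
      ∑ x : eis ⧸ (sp c : Ideal eis), (starRingEnd ℂ) (D0 R χ x.out) * (GG L Ω c x + 1) -
        ∑ x : eis ⧸ (sp c : Ideal eis), (starRingEnd ℂ) (D0 R χ x.out) := by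
    rw [← Finset.sum_sub_distrib]
    exact Finset.sum_congr rfl fun x _ => by ring
  rw [e1]
  refine (v.map_sub _ _).trans (max_le ?_ ?_)
  · -- orbits
    set W : eis ⧸ (sp c : Ideal eis) → ℂ := fun x =>
      (starRingEnd ℂ) (D0 R χ x.out) * (GG L Ω c x + 1) with hW
    have hWv : ∀ x, v (W x) ≤ g ^ R.card * v lam := by
      intro x
      by_cases hx : IsUnit x
      · have h3 : IsCoprime x.out c := by
          rw [← unit_iff, Ideal.Quotient.mk_out]
          exact hx
        have h4 : v (GG L Ω c x + 1) ≤ v lam := FF_one hv (X_le hv hD ⟨x.out, h3⟩)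
        rw [hW]
        show v (_ * _) ≤ _
        rw [map_mul]
        exact mul_le_mul' (v_D0 h h3) h4
      · have h3 : ¬ IsCoprime x.out c := by
          rw [← unit_iff, Ideal.Quotient.mk_out]
          exact hx
        rw [hW]
        show v (_ * _) ≤ _
        rw [D0_zero h h3, map_zero, zero_mul, map_zero]
        exact zero_le
    have h5 := sum_tri (v := v) (A := eis ⧸ (sp c : Ideal eis))
      (u := Ideal.Quotient.mk (sp c) omr) (W := W) (g := g ^ R.card * v lam) ?_ ?_ ?_ ?_ hWv
    · refine h5.trans (le_of_eq ?_)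
      rw [mul_assoc, mul_comm (g ^ R.card)]
    · rw [← map_pow, ← map_add, ← map_one (Ideal.Quotient.mk (sp c)), ← map_add, omr_sq,
        map_zero]
    · obtain ⟨s, t, hst⟩ := h3c
      refine IsUnit.of_mul_eq_one (Ideal.Quotient.mk (sp c) s) ?_
      have e3 : (3 : eis ⧸ (sp c : Ideal eis)) = Ideal.Quotient.mk (sp c) 3 := (map_ofNat _ 3).symm
      rw [e3, ← map_mul, ← map_one (Ideal.Quotient.mk (sp c)),
        Ideal.Quotient.mk_eq_mk_iff_sub_mem, Ideal.mem_span_singleton']
      exact ⟨-t, by linear_combination -hst⟩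
    · intro x
      have h9 : (Ideal.Quotient.mk (sp c) omr * x).out - omr * x.out ∈ (sp c : Ideal eis) := by
        rw [← Ideal.Quotient.mk_eq_mk_iff_sub_mem, Ideal.Quotient.mk_out, map_mul,
          Ideal.Quotient.mk_out]
      have h6 : D0 R χ (Ideal.Quotient.mk (sp c) omr * x).out = D0 R χ x.out := by
        rw [D0_per h h9, D0_om h]
      have h8 : GG L Ω c (Ideal.Quotient.mk (sp c) omr * x) = GG L Ω c x := by
        unfold GG
        congr 1
        have h10 : ℘'[L] (Ω * ((Ideal.Quotient.mk (sp c) omr * x).out : eis) / c) =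
            ℘'[L] (Ω * ((omr * x.out : eis) : ℂ) / c) := by
          apply dwp_per
          have h11 := (div_mem_iff hL hc _).2 h9
          convert h11 using 1
          push_cast
          ring
        have e4 : Ω * ((omr * x.out : eis) : ℂ) / c = (omr : ℂ) * (Ω * x.out / c) := by
          push_cast
          ring
        rw [h10, e4, dwp_unit hL omr_unit, omr_coe, om_cube, inv_one, one_mul]
      rw [hW]
      show _ * _ = _ * _
      rw [h6, h8]
    · intro x hx
      have h3 : ¬ IsCoprime x.out c := by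
        rw [← unit_iff, Ideal.Quotient.mk_out]
        exact hx
      rw [hW]
      show _ * _ = 0
      rw [D0_zero h h3, map_zero, zero_mul]
  · -- the sums of the characters
    have e2 : ∑ x : eis ⧸ (sp c : Ideal eis), (starRingEnd ℂ) (D0 R χ x.out) =
        ∑ J ∈ R.powerset, (-1) ^ J.card *
          (starRingEnd ℂ) (∑ x : eis ⧸ (sp c : Ideal eis), MX (R \ J) J χ x.out) := by
      simp only [map_sum, Finset.mul_sum]
      rw [Finset.sum_comm]
      refine Finset.sum_congr rfl fun x _ => ?_
      rw [D0_expand, map_sum]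
      refine Finset.sum_congr rfl fun J _ => ?_
      rw [map_mul, map_pow, map_neg, map_one]
    rw [e2]
    refine Valuation.map_sum_le _ fun J hJ => ?_
    rw [Finset.mem_powerset] at hJ
    have hXm : Xm c (MX (R \ J) J χ) := by
      have hF : Fam v g R (fun q x => if q ∈ J then tr q x else χ q x) := by
        refine { toPr3 := h.toPr3, ch := fun q hq => ?_, om := ?_ }
        · by_cases hqJ : q ∈ J
          · simp only [if_pos hqJ]
            exact ch_tr (h.prime q hq)
          · simp only [if_neg hqJ]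
            exact h.ch q hq
        · refine Finset.prod_eq_one fun q hq => ?_
          show (if q ∈ J then tr q omr else χ q omr) = 1
          by_cases hqJ : q ∈ J
          · rw [if_pos hqJ]
            exact tr_not (om_not (h.prime q hq))
          · rw [if_neg hqJ]
            exact h.om q hq
      have e3 : MX (R \ J) J χ = XP R (fun q x => if q ∈ J then tr q x else χ q x) := by
        funext x
        unfold MX XP
        rw [← Finset.prod_sdiff hJ]
        congr 1
        · exact Finset.prod_congr rfl fun q hq => (if_neg (Finset.mem_sdiff.1 hq).2).symm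
        · exact Finset.prod_congr rfl fun q hq => (if_pos hq).symm
      rw [e3]
      exact hF.xm
    have hs : v ((-1 : ℂ) ^ J.card) = 1 := by
      rw [map_pow, v.map_neg, map_one, one_pow]
    rw [map_mul, hs, one_mul]
    by_cases hX : ∃ u, IsCoprime u c ∧ MX (R \ J) J χ u ≠ 1
    · obtain ⟨u, hu, hXu⟩ := hX
      rw [hXm.sum_zero hu hXu, map_zero, map_zero]
      exact zero_le
    · push Not at hX
      rw [hXm.sum_card hX, map_natCast]
      refine (v_card_units' hv h.toPr3 h.nine).trans ?_
      obtain ⟨j, hj⟩ : ∃ j, R.card = j + 1 := ⟨R.card - 1, by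
        have := Finset.card_pos.2 hne
        omega⟩
      rw [hj]
      have hl1 : v lam ≤ 1 := (lam_lt hv).le
      have h3g : v 3 * v 3 ≤ g := by
        calc v 3 * v 3 = v lam * (v lam * v 3) := by rw [← mul_assoc, sq_three]
          _ ≤ g * 1 := mul_le_mul' hgl (mul_le_one' hl1 hv.le)
          _ = g := mul_one _
      calc (v 3 * v 3) ^ (j + 1) = (v 3 * v 3) * (v 3 * v 3) ^ j := by rw [pow_succ']
        _ ≤ (v 3 * (v lam * g)) * g ^ j := mul_le_mul' (mul_le_mul' le_rfl (by
            rw [← sq_three]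
            exact mul_le_mul' le_rfl hgl)) (pow_le_pow_left' h3g j)
        _ = v 3 * v lam * g ^ (j + 1) := by rw [pow_succ']; ac_rfl

end Pool.Agent.H62
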