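import Mathlib
import Pool.Agent.H62.Lt
import Pool.Agent.H62.An2

/-!
# Leading terms of the sums over the classes modulo a product of primes, II
-/

set_option autoImplicit false
set_option linter.unusedSectionVars false
set_option linter.unusedVariables false

open Complex Filter Topology IsDedekindDomain
open scoped PeriodPair

namespace Pool.Agent.H62

open H667R3 Pool.Agent.W192.HK Pool.Agent.TH936.CM Pool.Agent.TH936.PU
open Pool.Agent.W192.CM (nu)
open Pool.Agent.Y696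
open Pool.Agent.Y715.T.Three Pool.Agent.Y715.T.Lat
open Pool.Agent.Y715.T.LF (rd rd_eq_zero)
open Pool.Agent.Y715.T.Cg (sum_tri)

section ap

variable {Γ : Type*} [LinearOrderedCommGroupWithZero Γ] {v : Valuation ℂ Γ}

/-- the leading term of `x` is `s X` -/
def Ap (v : Valuation ℂ Γ) (X : ℂ) (s : ℤ) (x : ℂ) : Prop := v (x - s * X) < v X

lemma Ap.le {X : ℂ} {s : ℤ} {x : ℂ} (h : Ap v X s x) : v x ≤ v X := by
  have e : x = (x - s * X) + s * X := by ring
  rw [e]
  refine (v.map_add _ _).trans (max_le (le_of_lt h) ?_)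
  rw [map_mul]
  exact (mul_le_mul' (v_int s) le_rfl).trans (one_mul _).le

lemma Ap.add {X : ℂ} {s t : ℤ} {x y : ℂ} (h : Ap v X s x) (h' : Ap v X t y) :
    Ap v X (s + t) (x + y) := by
  unfold Ap
  have e : x + y - ((s + t : ℤ) : ℂ) * X = (x - s * X) + (y - t * X) := by push_cast; ring
  rw [e]
  exact (v.map_add _ _).trans_lt (max_lt h h')

lemma Ap.neg {X : ℂ} {s : ℤ} {x : ℂ} (h : Ap v X s x) : Ap v X (-s) (-x) := by
  unfold Ap
  have e : -x - ((-s : ℤ) : ℂ) * X = -(x - s * X) := by push_cast; ring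
  rw [e, v.map_neg]
  exact h

lemma Ap.zero {X : ℂ} (hX : v X ≠ 0) : Ap v X 0 0 := by
  unfold Ap
  rw [Int.cast_zero, zero_mul, sub_zero, map_zero]
  exact zero_lt_iff.2 hX

lemma Ap.mul {X Y : ℂ} {s t : ℤ} {x y : ℂ} (hX : v X ≠ 0) (hY : v Y ≠ 0) (h : Ap v X s x)
    (h' : Ap v Y t y) : Ap v (X * Y) (s * t) (x * y) := by
  unfold Ap
  have e : x * y - ((s * t : ℤ) : ℂ) * (X * Y) = (x - s * X) * y + (s * X) * (y - t * Y) := by
    push_cast
    ring
  rw [e, map_mul v X Y]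
  refine (v.map_add _ _).trans_lt (max_lt ?_ ?_)
  · rw [map_mul]
    calc v (x - s * X) * v y ≤ v (x - s * X) * v Y := mul_le_mul' le_rfl h'.le
      _ < v X * v Y := mul_lt_mul_of_pos_right h (zero_lt_iff.2 hY)
  · rw [map_mul, map_mul]
    calc v (s : ℂ) * v X * v (y - t * Y) ≤ 1 * v X * v (y - t * Y) :=
          mul_le_mul' (mul_le_mul' (v_int s) le_rfl) le_rfl
      _ = v X * v (y - t * Y) := by rw [one_mul]
      _ < v X * v Y := mul_lt_mul_of_pos_left h' (zero_lt_iff.2 hX)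

lemma Ap.sum {ι : Type*} {X : ℂ} (hX : v X ≠ 0) (J : Finset ι) (s : ι → ℤ) (x : ι → ℂ)
    (h : ∀ i ∈ J, Ap v X (s i) (x i)) : Ap v X (∑ i ∈ J, s i) (∑ i ∈ J, x i) := by
  classical
  induction J using Finset.induction_on with
  | empty => rw [Finset.sum_empty, Finset.sum_empty]; exact Ap.zero hX
  | insert a J ha ih =>
    rw [Finset.sum_insert ha, Finset.sum_insert ha]
    exact (h a (Finset.mem_insert_self a J)).add (ih fun i hi => h i (Finset.mem_insert_of_mem hi))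

lemma Ap.prod {ι : Type*} {X : ℂ} (hX : v X ≠ 0) (J : Finset ι) (s : ι → ℤ) (x : ι → ℂ)
    (h : ∀ i ∈ J, Ap v X (s i) (x i)) : Ap v (X ^ J.card) (∏ i ∈ J, s i) (∏ i ∈ J, x i) := by
  classical
  induction J using Finset.induction_on with
  | empty =>
    rw [Finset.prod_empty, Finset.prod_empty, Finset.card_empty, pow_zero]
    unfold Ap
    rw [Int.cast_one, one_mul, sub_self, map_zero, map_one]
    exact zero_lt_one
  | insert a J ha ih =>
    rw [Finset.prod_insert ha, Finset.prod_insert ha, Finset.card_insert_of_notMem ha, pow_succ']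
    have hXJ : v (X ^ J.card) ≠ 0 := by
      rw [map_pow]
      exact pow_ne_zero _ hX
    exact (h a (Finset.mem_insert_self a J)).mul hX hXJ
      (ih fun i hi => h i (Finset.mem_insert_of_mem hi))

lemma Ap.small {X : ℂ} {s : ℤ} {x y : ℂ} (h : Ap v X s x) (hy : v y < v X) : Ap v X s (x + y) := by
  have h' : Ap v X 0 y := by
    unfold Ap
    rwa [Int.cast_zero, zero_mul, sub_zero]
  have := h.add h'
  rwa [add_zero] at this

lemma Ap.sign {X : ℂ} {s : ℤ} {x : ℂ} (h : Ap v X s x) (j : ℕ) :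
    Ap v X ((-1) ^ j * s) ((-1) ^ j * x) := by
  rcases neg_one_pow_eq_or ℂ j with h1 | h1 <;> rcases neg_one_pow_eq_or ℤ j with h2 | h2
  · rw [h1, h2, one_mul, one_mul]; exact h
  · exfalso
    have h3 : (((-1 : ℤ) ^ j : ℤ) : ℂ) = (-1 : ℂ) ^ j := by push_cast; rfl
    rw [h1, h2] at h3
    norm_num at h3
  · exfalso
    have h3 : (((-1 : ℤ) ^ j : ℤ) : ℂ) = (-1 : ℂ) ^ j := by push_cast; rfl
    rw [h1, h2] at h3
    norm_num at h3
  · rw [h1, h2, neg_one_mul, neg_one_mul]; exact h.neg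

lemma v_int_one (hv : v 3 < 1) {s : ℤ} (hs : ¬ (3 : ℤ) ∣ s) : v (s : ℂ) = 1 := by
  refine le_antisymm (v_int s) ?_
  obtain ⟨a, b, hab⟩ : IsCoprime (3 : ℤ) s :=
    (Int.prime_three.irreducible.coprime_iff_not_dvd).2 hs
  have h1 : (1 : ℂ) = a * 3 + b * s := by exact_mod_cast hab.symm
  by_contra hlt
  push Not at hlt
  have h2 : v (1 : ℂ) < 1 := by
    rw [h1]
    refine (v.map_add _ _).trans_lt (max_lt ?_ ?_)
    · rw [map_mul]
      exact (mul_le_mul' (v_int a) le_rfl).trans_lt (by rwa [one_mul])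
    · rw [map_mul]
      exact (mul_le_mul' (v_int b) le_rfl).trans_lt (by rwa [one_mul])
  rw [map_one] at h2
  exact lt_irrefl _ h2

lemma Ap.val (hv : v 3 < 1) {X : ℂ} {s : ℤ} {x : ℂ} (h : Ap v X s x) (hs : ¬ (3 : ℤ) ∣ s) :
    v x = v X := by
  have e : x = s * X + (x - s * X) := by ring
  have h1 : v (s * X) = v X := by rw [map_mul, v_int_one hv hs, one_mul]
  rw [e, v.map_add_eq_of_lt_left (by rw [h1]; exact h), h1]

lemma v_one_sub_pow {ζ : ℂ} (hζ : Nr v (v (1 - ζ)) ζ) (m : ℕ) :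
    v (1 - ζ ^ m - m * (1 - ζ)) ≤ v (1 - ζ) * v (1 - ζ) := by
  induction m with
  | zero =>
    rw [pow_zero, sub_self, Nat.cast_zero, zero_mul, sub_zero, map_zero]
    exact zero_le
  | succ m ih =>
    have e : 1 - ζ ^ (m + 1) - ((m + 1 : ℕ) : ℂ) * (1 - ζ) =
        (1 - ζ ^ m - m * (1 - ζ)) - (1 - ζ ^ m) * (1 - ζ) := by
      push_cast
      ring
    rw [e]
    refine (v.map_sub _ _).trans (max_le ih ?_)
    rw [map_mul]
    exact mul_le_mul' (hζ.pow m).near le_rfl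

end ap

section rec

variable {α : Type*} [DecidableEq α]

/-- the numbers of the leading terms -/
theorem exists_s (a : α → ℤ) (l : α → α → ℕ) : ∃ s : Finset α → ℤ, (∀ q, s {q} = a q) ∧
    ∀ R : Finset α, 2 ≤ R.card → ∑ J ∈ R.powerset.erase R, (-1) ^ J.card * s (R \ J) *
      ∏ q ∈ J, (∑ p ∈ R \ J, (l p q : ℤ)) = 0 := by
  have hss : ∀ (R : Finset α) (J : {J // J ∈ (R.powerset.erase R).erase ∅}), R \ J.1 ⊂ R := by
    rintro R ⟨J, hJ⟩
    obtain ⟨h1, h2⟩ := Finset.mem_erase.1 hJ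
    obtain ⟨h3, h4⟩ := Finset.mem_erase.1 h2
    exact Finset.sdiff_ssubset (Finset.mem_powerset.1 h4) (Finset.nonempty_iff_ne_empty.2 h1)
  set H : (R : Finset α) → ((t : Finset α) → t ⊂ R → ℤ) → ℤ := fun R ih =>
    if R.card = 1 then ∑ q ∈ R, a q else
      -∑ J : {J // J ∈ (R.powerset.erase R).erase ∅}, (-1) ^ J.1.card * ih (R \ J.1) (hss R J) *
        ∏ q ∈ J.1, (∑ p ∈ R \ J.1, (l p q : ℤ)) with hH
  refine ⟨Finset.strongInduction H, fun q => ?_, fun R hR => ?_⟩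
  · rw [Finset.strongInduction_eq, hH]
    simp only [Finset.card_singleton, if_true, Finset.sum_singleton]
  · have hmem : (∅ : Finset α) ∈ R.powerset.erase R := by
      rw [Finset.mem_erase]
      refine ⟨?_, Finset.empty_mem_powerset R⟩
      intro h
      rw [← h, Finset.card_empty] at hR
      omega
    rw [← Finset.add_sum_erase _ _ hmem, Finset.card_empty, pow_zero, one_mul, Finset.prod_empty,
      mul_one, Finset.sdiff_empty]
    have e1 : Finset.strongInduction H R = -∑ J ∈ (R.powerset.erase R).erase ∅,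
        (-1) ^ J.card * Finset.strongInduction H (R \ J) * ∏ q ∈ J, (∑ p ∈ R \ J, (l p q : ℤ)) := by
      conv_lhs => rw [Finset.strongInduction_eq, hH]
      simp only
      rw [if_neg (by omega)]
      congr 1
      exact Finset.sum_coe_sort ((R.powerset.erase R).erase ∅) (fun J => (-1) ^ J.card *
        Finset.strongInduction H (R \ J) * ∏ q ∈ J, (∑ p ∈ R \ J, (l p q : ℤ)))
    rw [e1]
    ring

end rec

variable {L : PeriodPair} {Ω : ℂ} {Γ : Type*} [LinearOrderedCommGroupWithZero Γ]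
  {v : Valuation ℂ Γ} {P : Finset eis} {χ : eis → eis → ℂ}

lemma v_sub_one' (hv : v 3 < 1) {p : eis} (h : 3 * la ∣ p - 1) : v ((p : ℂ) - 1) ≤ v 3 * v lam := by
  obtain ⟨t, ht⟩ := h
  have c3 : ((3 : eis) : ℂ) = 3 := rfl
  have h := congrArg (fun t : eis => (t : ℂ)) ht
  push_cast at h
  rw [c3, la_coe] at h
  rw [h, map_mul, map_mul]
  exact (mul_le_mul' le_rfl (v_eis t)).trans (mul_one _).le

/-- **the leading terms** -/
theorem lead [DecidableEq eis] (hC : Cur L Ω) (hv : v 3 < 1) {ζ : ℂ} (hζ : Nr v (v (1 - ζ)) ζ)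
    (hgl : v lam ≤ v (1 - ζ)) (hg1 : v (1 - ζ) < 1) (h : Fm v (v (1 - ζ)) P χ)
    {l : eis → eis → ℕ}
    (hl : ∀ p ∈ P, ∀ q ∈ P, p ≠ q → (starRingEnd ℂ) (χ p q) = ζ ^ l p q)
    {a : eis → ℤ} (ha : ∀ q ∈ P, ∃ t : eis, q - 1 = 3 * la * (a q + la * t))
    {s : Finset eis → ℤ} (hs1 : ∀ q ∈ P, s {q} = a q)
    (hs2 : ∀ R ⊆ P, 2 ≤ R.card → ∑ J ∈ R.powerset.erase R, (-1) ^ J.card * s (R \ J) *
      ∏ q ∈ J, (∑ p ∈ R \ J, (l p q : ℤ)) = 0) (k : ℕ) :
    ∀ R ⊆ P, R.card = k + 1 →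
      Ap v (3 * lam * (1 - ζ) ^ k) (s R) (SU L Ω (cP R) (XP R χ)) := by
  have hl0 : v lam ≠ 0 := lam_ne
  have hl1 : v lam < 1 := lam_lt hv
  have hg0 : v (1 - ζ) ≠ 0 := fun h0 => hl0 (le_antisymm (h0 ▸ hgl) zero_le)
  have h30 : v (3 : ℂ) ≠ 0 := three_ne
  have hX0 : ∀ k, v (3 * lam * (1 - ζ) ^ k) ≠ 0 := by
    intro k
    rw [map_mul, map_mul, map_pow]
    exact mul_ne_zero (mul_ne_zero h30 hl0) (pow_ne_zero _ hg0)
  have hX : ∀ k, v (3 * lam * (1 - ζ) ^ k) = v 3 * v lam * v (1 - ζ) ^ k := by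
    intro k
    rw [map_mul, map_mul, map_pow]
  have h3lg : v 3 * v lam < v (1 - ζ) := by
    calc v 3 * v lam ≤ v 3 * v (1 - ζ) := mul_le_mul' le_rfl hgl
      _ < 1 * v (1 - ζ) := mul_lt_mul_of_pos_right hv (zero_lt_iff.2 hg0)
      _ = v (1 - ζ) := one_mul _
  induction k using Nat.strong_induction_on with
  | _ k ih =>
  intro R hR hk
  have hne : R.Nonempty := Finset.card_pos.1 (by omega)
  have hF := h.mono hR
  have b1 := v_SU_D0 (L := L) (Ω := Ω) hC hv hgl hF hne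
  have b1' : v (SU L Ω (cP R) (D0 R χ)) < v (3 * lam * (1 - ζ) ^ k) := by
    refine b1.trans_lt ?_
    rw [hX, hk, pow_succ, ← mul_assoc]
    calc _ < v 3 * v lam * v (1 - ζ) ^ k * 1 := mul_lt_mul_of_pos_left hg1
          (zero_lt_iff.2 (by rw [← hX]; exact hX0 k))
      _ = _ := mul_one _
  have e1 := SU_D0 (L := L) (Ω := Ω) (χ := χ) hF.toPr3
  -- the full set
  have hRm : R ∈ R.powerset := Finset.mem_powerset.2 (Finset.Subset.refl R)
  rw [← Finset.add_sum_erase _ _ hRm] at e1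
  have e2 : MX (R \ R) R χ = XP R tr := by
    funext x
    unfold MX
    have : XP (R \ R) χ x = 1 := by
      unfold XP
      rw [Finset.sdiff_self]
      exact Finset.prod_empty
    rw [this, one_mul]
  rw [e2, SU_one hC hF.toPr3 hne] at e1
  have hem : (∅ : Finset eis) ∈ R.powerset.erase R :=
    Finset.mem_erase.2 ⟨hne.ne_empty.symm, Finset.empty_mem_powerset R⟩
  rw [← Finset.add_sum_erase _ _ hem] at e1
  have e3 : MX (R \ ∅) ∅ χ = XP R χ := by
    funext x
    unfold MX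
    have : XP ∅ tr x = 1 := Finset.prod_empty
    rw [this, mul_one, Finset.sdiff_empty]
  rw [e3, Finset.card_empty, pow_zero, one_mul] at e1
  rcases Nat.eq_zero_or_pos k with hk0 | hk0
  · -- one prime
    subst hk0
    obtain ⟨q, hq⟩ := Finset.card_eq_one.1 hk
    have hqP : q ∈ P := hR (by rw [hq]; exact Finset.mem_singleton_self q)
    have e4 : (R.powerset.erase R).erase ∅ = ∅ := by
      rw [Finset.eq_empty_iff_forall_notMem]
      intro J hJ
      obtain ⟨h1, h2⟩ := Finset.mem_erase.1 hJ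
      obtain ⟨h3, h4⟩ := Finset.mem_erase.1 h2
      rw [Finset.mem_powerset, hq, Finset.subset_singleton_iff] at h4
      rcases h4 with h4 | h4
      · exact h1 h4
      · exact h3 (h4.trans hq.symm)
    rw [e4, Finset.sum_empty, add_zero, hk] at e1
    have e5 : ∏ q ∈ R, ((q : ℂ) - 1) = q - 1 := by rw [hq, Finset.prod_singleton]
    rw [e5] at e1
    have e6 : SU L Ω (cP R) (XP R χ) = ((q : ℂ) - 1) + SU L Ω (cP R) (D0 R χ) := by
      rw [e1]
      ring
    rw [e6]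
    refine Ap.small ?_ b1'
    have e7 : s R = a q := by rw [hq, hs1 q hqP]
    rw [e7]
    obtain ⟨t, ht⟩ := ha q hqP
    have c3 : ((3 : eis) : ℂ) = 3 := rfl
    have h5 := congrArg (fun t : eis => (t : ℂ)) ht
    push_cast at h5
    rw [c3, la_coe] at h5
    unfold Ap
    have e8 : (q : ℂ) - 1 - (a q : ℂ) * (3 * lam * (1 - ζ) ^ 0) = 3 * lam * (lam * t) := by
      rw [h5, pow_zero]
      ring
    rw [e8, map_mul, hX, pow_zero, mul_one, map_mul, map_mul]
    calc v 3 * v lam * (v lam * v (t : ℂ)) ≤ v 3 * v lam * (v lam * 1) :=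
          mul_le_mul' le_rfl (mul_le_mul' le_rfl (v_eis t))
      _ = v 3 * v lam * v lam := by rw [mul_one]
      _ < v 3 * v lam * 1 := mul_lt_mul_of_pos_left hl1 (zero_lt_iff.2 (mul_ne_zero h30 hl0))
      _ = _ := mul_one _
  · -- several primes
    have b2 : v ((-1 : ℂ) ^ R.card * ∏ q ∈ R, ((q : ℂ) - 1)) < v (3 * lam * (1 - ζ) ^ k) := by
      have hs : v ((-1 : ℂ) ^ R.card) = 1 := by
        rw [map_pow, v.map_neg, map_one, one_pow]
      rw [map_mul, hs, one_mul, map_prod, hX]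
      have h6 : ∏ q ∈ R, v ((q : ℂ) - 1) ≤ (v 3 * v lam) ^ R.card :=
        Finset.prod_le_pow_card _ _ _ fun q hq => v_sub_one' hv (hF.nine q hq)
      refine h6.trans_lt ?_
      rw [hk, pow_succ']
      refine mul_lt_mul_of_pos_left ?_ (zero_lt_iff.2 (mul_ne_zero h30 hl0))
      exact pow_lt_pow_left₀ h3lg zero_le (by omega)
    have h7 := hs2 R hR (by omega)
    rw [← Finset.add_sum_erase _ _ hem, Finset.card_empty, pow_zero, one_mul, Finset.prod_empty,
      mul_one, Finset.sdiff_empty] at h7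
    have h8 : s R = -∑ J ∈ (R.powerset.erase R).erase ∅, (-1) ^ J.card * (s (R \ J) *
        ∏ q ∈ J, (∑ p ∈ R \ J, (l p q : ℤ))) := by
      have : ∀ J : Finset eis, (-1 : ℤ) ^ J.card * (s (R \ J) *
          ∏ q ∈ J, (∑ p ∈ R \ J, (l p q : ℤ))) = (-1) ^ J.card * s (R \ J) *
          ∏ q ∈ J, (∑ p ∈ R \ J, (l p q : ℤ)) := fun J => by ring
      rw [Finset.sum_congr rfl fun J _ => this J]
      linarith
    have e6 : SU L Ω (cP R) (XP R χ) = -(∑ J ∈ (R.powerset.erase R).erase ∅,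
        (-1) ^ J.card * SU L Ω (cP R) (MX (R \ J) J χ)) +
        (SU L Ω (cP R) (D0 R χ) - (-1) ^ R.card * ∏ q ∈ R, ((q : ℂ) - 1)) := by
      rw [e1]
      ring
    rw [e6, h8]
    refine Ap.small (Ap.neg (Ap.sum (hX0 k) _ _ _ fun J hJ => Ap.sign ?_ _))
      ((v.map_sub _ _).trans_lt (max_lt b1' b2))
    obtain ⟨h1, h2⟩ := Finset.mem_erase.1 hJ
    obtain ⟨h3, h4⟩ := Finset.mem_erase.1 h2
    rw [Finset.mem_powerset] at h4
    have hJpos : 0 < J.card := Finset.card_pos.2 (Finset.nonempty_iff_ne_empty.2 h1)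
    have hJlt : J.card < R.card := Finset.card_lt_card (Finset.ssubset_iff_subset_ne.2 ⟨h4, h3⟩)
    have hcs : (R \ J).card = R.card - J.card := Finset.card_sdiff_of_subset h4
    have hSne : (R \ J).Nonempty := Finset.card_pos.1 (by omega)
    have hSR : R \ J ⊆ R := Finset.sdiff_subset
    have hFS := hF.mono hSR
    have hdis : Disjoint (R \ J) J := Finset.sdiff_disjoint
    have hun : (R \ J) ∪ J = R := Finset.sdiff_union_of_subset h4
    have he := (euler_MX (L := L) (Ω := Ω) hC hSne hFS.fam.xm J (by rw [hun]; exact hF.toPr3)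
      hdis).2
    rw [hun] at he
    rw [he]
    obtain ⟨i, hi⟩ : ∃ i, (R \ J).card = i + 1 := ⟨(R \ J).card - 1, by omega⟩
    have h9 := ih i (by omega) (R \ J) (hSR.trans hR) hi
    have h10 : Ap v ((1 - ζ) ^ J.card) (∏ q ∈ J, (∑ p ∈ R \ J, (l p q : ℤ)))
        (∏ q ∈ J, ((q : ℂ) - (starRingEnd ℂ) (XP (R \ J) χ q))) := by
      refine Ap.prod hg0 J _ _ fun q hq => ?_
      have hqR : q ∈ R := h4 hq
      have e9 : (starRingEnd ℂ) (XP (R \ J) χ q) = ζ ^ (∑ p ∈ R \ J, l p q) := by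
        unfold XP
        rw [map_prod, ← Finset.prod_pow_eq_pow_sum]
        refine Finset.prod_congr rfl fun p hp => ?_
        obtain ⟨hpR, hpJ⟩ := Finset.mem_sdiff.1 hp
        exact hl p (hR hpR) q (hR hqR) (fun hh => hpJ (hh ▸ hq))
      rw [e9]
      unfold Ap
      have e10 : (q : ℂ) - ζ ^ (∑ p ∈ R \ J, l p q) - ((∑ p ∈ R \ J, (l p q : ℤ) : ℤ) : ℂ) * (1 - ζ) =
          ((q : ℂ) - 1) + (1 - ζ ^ (∑ p ∈ R \ J, l p q) -
            ((∑ p ∈ R \ J, l p q : ℕ) : ℂ) * (1 - ζ)) := by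
        push_cast
        ring
      rw [e10]
      refine (v.map_add _ _).trans_lt (max_lt ?_ ?_)
      · exact (v_sub_one' hv (hF.nine q hqR)).trans_lt h3lg
      · refine (v_one_sub_pow hζ _).trans_lt ?_
        calc v (1 - ζ) * v (1 - ζ) < 1 * v (1 - ζ) :=
              mul_lt_mul_of_pos_right hg1 (zero_lt_iff.2 hg0)
          _ = _ := one_mul _
    have h11 := h10.mul (by rw [map_pow]; exact pow_ne_zero _ hg0) (hX0 i) h9
    have e11 : (1 - ζ) ^ J.card * (3 * lam * (1 - ζ) ^ i) = 3 * lam * (1 - ζ) ^ k := by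
      have : k = J.card + i := by omega
      rw [this, pow_add]
      ring
    rw [e11, mul_comm (∏ q ∈ J, (∑ p ∈ R \ J, (l p q : ℤ)))] at h11
    exact h11

end Pool.Agent.H62
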