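import Mathlib
import Pool.Agent.H62.An4
import Pool.Agent.H62.Lt2

/-!
# The analytic theorem with the exact valuation
-/

set_option autoImplicit false
set_option linter.unusedSectionVars false
set_option linter.unusedVariables false

namespace Pool.Agent.H62

open NumberField IsDedekindDomain IsLocalRing Filter Topology Complex
open Pool.Agent.W192.HK Pool.Agent.TH936.CM Pool.Agent.TH936.PU
open Pool.Agent.W189.NF (aV eV redMap)
open Pool.Agent.W192.CM (nu)
open Pool.Agent.Y696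
open Pool.Agent.N883.Q Pool.Agent.N883.T
open Pool.Agent.Y715.T.Three Pool.Agent.Y715.T.Lat
open Pool.Agent.Y715.T.LF (rd)

section

variable {Γ : Type*} [LinearOrderedCommGroupWithZero Γ] {v : Valuation ℂ Γ} {n : ℕ}

lemma root_lt {z : ℂ} (hv : v 3 < 1) (n : ℕ) (hz : z ^ 3 ^ n = 1) : v (1 - z) < 1 := by
  induction n generalizing z with
  | zero =>
    rw [pow_zero, pow_one] at hz
    rw [hz, sub_self, map_zero]
    exact zero_lt_one
  | succ n ih =>
    have h1 := ih (z := z ^ 3) (by rw [← pow_mul, ← pow_succ']; exact hz)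
    have hnr := nr_root (v := v) hz
    have e : (1 - z) ^ 3 = (1 - z ^ 3) - 3 * (z * (1 - z)) := by ring
    have h2 : v ((1 - z) ^ 3) < 1 := by
      rw [e]
      refine (v.map_sub _ _).trans_lt (max_lt h1 ?_)
      rw [map_mul, map_mul, hnr.val, one_mul]
      have h3 : v (1 - z) ≤ 1 := by
        refine (v.map_sub _ _).trans (max_le (le_of_eq v.map_one) ?_)
        rw [hnr.val]
      exact (mul_le_mul' le_rfl h3).trans_lt (by rwa [mul_one])
    by_contra hcon
    push Not at hcon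
    rw [map_pow] at h2
    exact absurd h2 (not_lt.2 (one_le_pow₀ hcon))

lemma v_conj_root {z : ℂ} (hz : z ^ 3 ^ n = 1) :
    v (1 - (starRingEnd ℂ) z) = v (1 - z) := by
  have hnr := nr_root (v := v) hz
  have hz0 : z ≠ 0 := by
    intro h0
    have := hnr.nrm
    rw [h0, norm_zero] at this
    norm_num at this
  rw [conj_eq_inv hnr.nrm]
  have e : 1 - z⁻¹ = -(1 - z) / z := by
    field_simp
    ring
  rw [e, map_div₀, v.map_neg, hnr.val, div_one]

end

section values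

variable {K : Type} [Field K] [NumberField K] {ι : eis →+* 𝓞 K} {G : Type} [CommGroup G] [Finite G]
  [MulSemiringAction G (𝓞 K)] {P : Finset eis} {art : (eis ⧸ (sp (cP P) : Ideal eis))ˣ →* G}
  {Γ : Type*} [LinearOrderedCommGroupWithZero Γ] {n : ℕ}

/-- the exact value -/
lemma v_a_eq (hP : Pr3 P) (h9 : ∀ p ∈ P, 3 * la ∣ p - 1) (hG : Nat.card G = 3 ^ n)
    (hun : ∀ (χ : MulChar G ℂ) (u : eis), IsUnit u → et (eta art χ) u = 1)
    {σ : G} (hσ : ∀ x : G, x ∈ Subgroup.zpowers σ) {k : ℕ} (hk : P.card = k + 1)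
    (hω : ∀ p ∈ P, ∃ y, p ∣ omr - y ^ 3 ^ n) {l : eis → eis → ℕ}
    (hl : ∀ p ∈ P, ∀ q ∈ P, p ≠ q → ∀ x : eis, p ∣ x - q → (∀ r ∈ P, r ≠ p → r ∣ x - 1) →
      ∀ u : (eis ⧸ (sp (cP P) : Ideal eis))ˣ,
        (u : eis ⧸ (sp (cP P) : Ideal eis)) = Ideal.Quotient.mk _ x → art u = σ ^ l p q)
    {a : eis → ℤ} (ha : ∀ q ∈ P, ∃ t : eis, q - 1 = 3 * la * (a q + la * t))
    {s : Finset eis → ℤ} (hs1 : ∀ q ∈ P, s {q} = a q)
    (hs2 : ∀ R : Finset eis, 2 ≤ R.card → ∑ J ∈ R.powerset.erase R, (-1) ^ J.card * s (R \ J) *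
      ∏ q ∈ J, (∑ p ∈ R \ J, (l p q : ℤ)) = 0) (hsP : ¬ (3 : ℤ) ∣ s P)
    {χ : MulChar G ℂ} (hχ : χ ≠ 1)
    {L : PeriodPair} {Ω : ℂ} (hC : Cur L Ω) {v : Valuation ℂ Γ} (hv : v 3 < 1) {a' : ℂ}
    (ha' : Tendsto (SS (ec (eta art χ))) (𝓝[>] 0) (𝓝 ((nu eis : ℂ) * (starRingEnd ℂ) a'))) :
    v ((starRingEnd ℂ) a' / Ω) = v (1 - χ σ) ^ k := by
  classical
  have hne : P.Nonempty := Finset.card_pos.1 (by omega)
  have h1 := v_aform hP hne hG χ hC hv ha'
  have hroot : χ σ ^ 3 ^ n = 1 := by rw [← map_pow, ← hG, pow_card_eq_one', map_one]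
  have hne1 : χ σ ≠ 1 := by
    intro h
    apply hχ
    ext u
    obtain ⟨j, hj⟩ := mem_powers_iff_mem_zpowers.2 (hσ (u : G))
    have hj' : σ ^ j = (u : G) := hj
    rw [← hj', map_pow, h, one_pow, MulChar.one_apply (Group.isUnit _)]
  have het : ∀ x, IsCoprime x (cP P) → ∃ u : (eis ⧸ (sp (cP P) : Ideal eis))ˣ,
      (u : eis ⧸ (sp (cP P) : Ideal eis)) = Ideal.Quotient.mk _ x ∧
        et (eta art χ) x = χ (art u) := by
    intro x hx
    obtain ⟨u, hu⟩ := (unit_iff x).2 hx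
    refine ⟨u, hu, ?_⟩
    unfold et
    rw [← hu, eta_unit]
  obtain ⟨e, he⟩ := exists_idem hP
  set ζ := (starRingEnd ℂ) (χ σ) with hζd
  have hζr : ζ ^ 3 ^ n = 1 := by rw [hζd, ← map_pow, hroot, map_one]
  have hvζ : v (1 - ζ) = v (1 - χ σ) := v_conj_root hroot
  have hnr : Nr v (v (1 - ζ)) ζ := nr_root hζr
  have hF : Fm v (v (1 - ζ)) P (cmp (eta art χ) e) :=
    { toPr3 := hP
      nine := h9
      ch := fun p hp => cmp_ch hP he (fun x hx => by
        rw [hvζ]
        exact et_val χ hσ hG (v := v) hx) hp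
      om := fun p hp => by
        obtain ⟨y, hy⟩ := hω p hp
        have hpy : ¬ p ∣ y := by
          intro hd
          have h2 : p ∣ omr := by
            have h3 : p ∣ y ^ 3 ^ n := dvd_pow hd (pow_ne3 n)
            have := hy.add h3
            rwa [sub_add_cancel] at this
          exact om_not (hP.prime p hp) h2
        have hcy : IsCoprime (1 + e p * (y - 1)) (cP P) := (cmp_cop hP he hp).2 hpy
        have e1 : cmp (eta art χ) e p omr = (et (eta art χ) (1 + e p * (y - 1))) ^ 3 ^ n := by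
          have e2 : ∀ m : ℕ, (et (eta art χ) (1 + e p * (y - 1))) ^ m =
              et (eta art χ) ((1 + e p * (y - 1)) ^ m) := by
            intro m
            induction m with
            | zero => rw [pow_zero, pow_zero, et_one']
            | succ m ih => rw [pow_succ, pow_succ, ih, et_mul]
          rw [e2]
          unfold cmp
          refine et_per' (cP_dvd hP fun r hr => ?_)
          have h4 : ∀ (w : eis), r ∣ w - 1 → ∀ m : ℕ, r ∣ w ^ m - 1 := by
            intro w hw m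
            have := hw.trans (sub_dvd_pow_sub_pow w 1 m)
            rwa [one_pow] at this
          by_cases hrp : r = p
          · subst hrp
            have h5 : r ∣ (1 + e r * (y - 1)) - y := by
              have : (1 + e r * (y - 1)) - y = (e r - 1) * (y - 1) := by ring
              rw [this]
              exact (he r hp).1.mul_right _
            have h6 : r ∣ (1 + e r * (y - 1)) ^ 3 ^ n - y ^ 3 ^ n :=
              h5.trans (sub_dvd_pow_sub_pow _ _ _)
            have h7 : r ∣ (1 + e r * (omr - 1)) - omr := by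
              have : (1 + e r * (omr - 1)) - omr = (e r - 1) * (omr - 1) := by ring
              rw [this]
              exact (he r hp).1.mul_right _
            have := (h7.add hy).sub h6
            have e3 : 1 + e r * (omr - 1) - omr + (omr - y ^ 3 ^ n) -
                ((1 + e r * (y - 1)) ^ 3 ^ n - y ^ 3 ^ n) =
                1 + e r * (omr - 1) - (1 + e r * (y - 1)) ^ 3 ^ n := by ring
            rwa [e3] at this
          · have h5 : r ∣ e p := (he p hp).2 r hr hrp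
            have h6 : r ∣ (1 + e p * (y - 1)) ^ 3 ^ n - 1 := h4 _ (by
              rw [add_sub_cancel_left]
              exact h5.mul_right _) _
            have h7 : r ∣ (1 + e p * (omr - 1)) - 1 := by
              rw [add_sub_cancel_left]
              exact h5.mul_right _
            have := h7.sub h6
            rwa [sub_sub_sub_cancel_right] at this
        rw [e1]
        obtain ⟨u, -, hu⟩ := het _ hcy
        rw [hu, ← map_pow, ← hG, pow_card_eq_one', map_one] }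
  have hl' : ∀ p ∈ P, ∀ q ∈ P, p ≠ q →
      (starRingEnd ℂ) (cmp (eta art χ) e p q) = ζ ^ l p q := by
    intro p hp q hq hpq
    have hpnq : ¬ p ∣ q := fun hd =>
      (hP.prime p hp).not_isUnit ((hP.cop p hp q hq hpq).isUnit_of_dvd' dvd_rfl hd)
    obtain ⟨u, hu1, hu2⟩ := het _ ((cmp_cop hP he hp).2 hpnq)
    have h3 := hl p hp q hq hpq (1 + e p * (q - 1)) (by
        have : 1 + e p * (q - 1) - q = (e p - 1) * (q - 1) := by ring
        rw [this]
        exact (he p hp).1.mul_right _) (fun r hr hrp => by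
        rw [add_sub_cancel_left]
        exact ((he p hp).2 r hr hrp).mul_right _) u hu1
    unfold cmp
    rw [hu2, h3, map_pow, map_pow]
  have h2 := lead (L := L) (Ω := Ω) hC hv hnr (by rw [hvζ]; exact lam_le_root hroot hne1)
    (by rw [hvζ]; exact root_lt hv n hroot) hF hl' ha hs1 (fun R _ hR => hs2 R hR) k P
    (Finset.Subset.refl P) hk
  have h3 := h2.val hv hsP
  rw [cmp_prod hP he, ← h1, map_mul, map_mul, map_pow, hvζ, ← sq_three] at h3
  have hl0 := lam_ne (v := v)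
  have h4 : v lam ^ 3 ≠ 0 := pow_ne_zero _ hl0
  have e1 : v lam * v lam * v lam * v (1 - χ σ) ^ k = v (1 - χ σ) ^ k * v lam ^ 3 := by
    rw [mul_comm]
    congr 1
    simp only [pow_succ, pow_zero, one_mul]
  rw [e1] at h3
  exact mul_right_cancel₀ h4 h3

end values

variable {K : Type} [Field K] [NumberField K] {ι : eis →+* 𝓞 K} {G : Type} [CommGroup G] [Finite G]
  [MulSemiringAction G (𝓞 K)] {P : Finset eis} {art : (eis ⧸ (sp (cP P) : Ideal eis))ˣ →* G}
  {n : ℕ}

/-- the analytic theorem, with the exact valuation -/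
theorem analyticX (hP : Pr3 P) (h9 : ∀ p ∈ P, 3 * la ∣ p - 1) (D : DatQ ι G (cP P) art)
    (hr3 : Ram3 ι) (hG : Nat.card G = 3 ^ n)
    (hT : Tot ι G (cP P)) {σ : G} (hσ : ∀ x : G, x ∈ Subgroup.zpowers σ) {k : ℕ}
    (hk : P.card = k + 1)
    (hω : ∀ p ∈ P, ∃ y, p ∣ omr - y ^ 3 ^ n) {l : eis → eis → ℕ}
    (hl : ∀ p ∈ P, ∀ q ∈ P, p ≠ q → ∀ x : eis, p ∣ x - q → (∀ r ∈ P, r ≠ p → r ∣ x - 1) →
      ∀ u : (eis ⧸ (sp (cP P) : Ideal eis))ˣ,
        (u : eis ⧸ (sp (cP P) : Ideal eis)) = Ideal.Quotient.mk _ x → art u = σ ^ l p q)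
    {a : eis → ℤ} (ha : ∀ q ∈ P, ∃ t : eis, q - 1 = 3 * la * (a q + la * t))
    {s : Finset eis → ℤ} (hs1 : ∀ q ∈ P, s {q} = a q)
    (hs2 : ∀ R : Finset eis, 2 ≤ R.card → ∑ J ∈ R.powerset.erase R, (-1) ^ J.card * s (R \ J) *
      ∏ q ∈ J, (∑ p ∈ R \ J, (l p q : ℤ)) = 0) (hsP : ¬ (3 : ℤ) ∣ s P) :
    ∃ Lf : ℂ → ℂ, MeromorphicOn Lf Set.univ ∧ (∀ s : ℂ, 3 / 2 < s.re →
      LSeriesSummable ((fun n : ℤ => (n : ℂ)) ∘ (E0 K).LFunction) s ∧ Lf s = (E0 K).LSeries s) ∧
      AnalyticAt ℂ Lf 1 ∧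
      (∀ (L : PeriodPair) (Ω : ℂ), Cur L Ω → ∀ (Γ : Type) [LinearOrderedCommGroupWithZero Γ]
        (v : Valuation ℂ Γ), v 3 < 1 →
          v (Lf 1 / (Ω * (starRingEnd ℂ) Ω) ^ Nat.card G) * v 27 = v 3 ^ (2 * n * k)) ∧
      ∀ (L : PeriodPair) (Ω : ℂ), Cur L Ω →
        ∃ r : ℚ, Lf 1 / (Ω * (starRingEnd ℂ) Ω) ^ Nat.card G = r := by
  classical
  have hne : P.Nonempty := Finset.card_pos.1 (by omega)
  have hfinM : Finite (MulChar G ℂ) := inferInstance
  have : Fintype (MulChar G ℂ) := Fintype.ofFinite _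
  have hH := fun χ : MulChar G ℂ => hecke D.c_ne D.cop3 (η := eta art χ) (et_eta_unitQ D χ)
  choose F hFd hFs hFl using hH
  have hcard : Fintype.card (MulChar G ℂ) = Nat.card G := by
    rw [← Nat.card_eq_fintype_card, MulChar.card_eq_card_units_of_hasEnoughRootsOfUnity]
    exact Nat.card_congr toUnits.symm.toEquiv
  set Lf : ℂ → ℂ := fun s => (∏ P ∈ Sc D.c_ne, ∏ v : {v : HeightOneSpectrum (𝓞 K) // bel ι v = P},
    (EV v.1 s)⁻¹) * ∏ χ, (F χ s * (starRingEnd ℂ) (F χ ((starRingEnd ℂ) s))) with hLf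
  have hconj : ∀ χ, Differentiable ℂ (fun s => (starRingEnd ℂ) (F χ ((starRingEnd ℂ) s))) := by
    intro χ s
    exact differentiableAt_conj_conj_iff.2 (hFd χ _)
  have hent : Differentiable ℂ (fun s => ∏ χ, (F χ s * (starRingEnd ℂ) (F χ ((starRingEnd ℂ) s)))) :=
    Differentiable.fun_finsetProd fun χ _ => (hFd χ).mul (hconj χ)
  -- the places
  have hQ : ∀ p, ∃ Q : HeightOneSpectrum eis, p ∈ P → Q.asIdeal = sp p := by
    intro p
    by_cases hp : p ∈ P
    · obtain ⟨Q, hQ⟩ := exists_place (hP.prime p hp)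
      exact ⟨Q, fun _ => hQ⟩
    · obtain ⟨q, hq⟩ := hne
      obtain ⟨Q, hQ⟩ := exists_place (hP.prime q hq)
      exact ⟨Q, fun h => absurd h hp⟩
  choose Q hQ using hQ
  have hw : ∀ p, ∃ w : HeightOneSpectrum (𝓞 K), bel ι w = Q p := fun p => exists_overQ D (Q p)
  choose w hw using hw
  have hcw : ∀ p ∈ P, ι (cP P) ∈ (w p).asIdeal := by
    intro p hp
    rw [← mem_bel, hw, hQ p hp]
    exact Ideal.mem_span_singleton.2 (Finset.dvd_prod_of_mem _ hp)
  have hsub : ∀ f : HeightOneSpectrum (𝓞 K) → ℂ,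
      ∏ P ∈ Sc D.c_ne, ∏ v : {v : HeightOneSpectrum (𝓞 K) // bel ι v = P}, f v.1 =
        ∏ p ∈ P, f (w p) := by
    intro f
    rw [prod_Sc hP D.c_ne _ hQ]
    refine Finset.prod_congr rfl fun p hp => ?_
    let _ : Unique {v : HeightOneSpectrum (𝓞 K) // bel ι v = Q p} :=
      { default := ⟨w p, hw p⟩
        uniq := fun v => Subtype.ext (tot_uniq' D hT (by
          rw [← mem_bel, v.2, ← hw, mem_bel]
          exact hcw p hp) (by rw [v.2, hw])) }
    rw [Fintype.prod_unique]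
    rfl
  have hEV : ∀ p ∈ P, ∀ (Γ : Type) [LinearOrderedCommGroupWithZero Γ] (v : Valuation ℂ Γ),
      v 3 < 1 → v (EV (w p) 1) = v ((p : ℂ) - 1) * v ((starRingEnd ℂ) (p : ℂ) - 1) :=
    fun p hp Γ _ v hv => v_EVp D hT hG (hP.prime p hp) (hP.one p hp) (by rw [hw, hQ p hp])
      (hcw p hp) hv
  have hp1 : ∀ p ∈ P, (p : ℂ) - 1 ≠ 0 := by
    intro p hp h0
    have h1 : (p : ℂ) = ((1 : eis) : ℂ) := by
      push_cast
      linear_combination h0
    have h2 : p = 1 := Subtype.ext h1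
    exact (hP.prime p hp).ne_one h2
  have hpc1 : ∀ p ∈ P, (starRingEnd ℂ) (p : ℂ) - 1 ≠ 0 := by
    intro p hp h0
    apply hp1 p hp
    have := congrArg (starRingEnd ℂ) h0
    rwa [map_sub, Complex.conj_conj, map_one, map_zero] at this
  have hval : ∀ (L : PeriodPair) (Ω : ℂ), Cur L Ω → ∀ (Γ : Type)
      [LinearOrderedCommGroupWithZero Γ] (v : Valuation ℂ Γ), v 3 < 1 →
      v (Lf 1 / (Ω * (starRingEnd ℂ) Ω) ^ Nat.card G) * v 27 = v 3 ^ (2 * n * k) := by
    intro L Ω hC Γ _ v hv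
    have hv' : vc v 3 < 1 := v_conj3 hv
    have h1 : Lf 1 / (Ω * (starRingEnd ℂ) Ω) ^ Nat.card G =
        (∏ P ∈ Sc D.c_ne, ∏ v : {v : HeightOneSpectrum (𝓞 K) // bel ι v = P}, (EV v.1 1)⁻¹) *
        ∏ χ : MulChar G ℂ, (F χ 1 * (starRingEnd ℂ) (F χ 1) / (Ω * (starRingEnd ℂ) Ω)) := by
      rw [hLf, Finset.prod_div_distrib, Finset.prod_const, Finset.card_univ, hcard]
      simp only [map_one]
      rw [mul_div_assoc]
    have hsplit : ∀ χ : MulChar G ℂ,
        v (F χ 1 * (starRingEnd ℂ) (F χ 1) / (Ω * (starRingEnd ℂ) Ω)) =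
          vc v ((starRingEnd ℂ) (F χ 1) / Ω) * v ((starRingEnd ℂ) (F χ 1) / Ω) := by
      intro χ
      have e0 : vc v ((starRingEnd ℂ) (F χ 1) / Ω) = v (F χ 1 / (starRingEnd ℂ) Ω) := by
        rw [vc_apply, map_div₀ (starRingEnd ℂ), Complex.conj_conj]
      rw [e0]
      have h3 : F χ 1 * (starRingEnd ℂ) (F χ 1) / (Ω * (starRingEnd ℂ) Ω) =
          (F χ 1 / (starRingEnd ℂ) Ω) * ((starRingEnd ℂ) (F χ 1) / Ω) := by
        rw [div_mul_div_comm, mul_comm Ω]
      rw [h3, map_mul]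
    have hvl : vc v lam = v lam := by
      rw [vc_apply]
      have : (starRingEnd ℂ) lam = -lam := by
        apply Complex.ext
        · simp [lam]
        · simp [lam]
      rw [this, v.map_neg]
    -- the trivial character
    have t1 := v_a_one (art := art) hP hne hG hC hv (hFl 1 L Ω hC.lat)
    have t2 := v_a_one (art := art) hP hne hG hC hv' (hFl 1 L Ω hC.lat)
    rw [hvl] at t2
    have t2' : ∏ p ∈ P, vc v ((p : ℂ) - 1) = ∏ p ∈ P, v ((starRingEnd ℂ) (p : ℂ) - 1) := by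
      refine Finset.prod_congr rfl fun p _ => ?_
      rw [vc_apply, map_sub, map_one]
    rw [t2'] at t2
    -- the others
    have hσo : orderOf σ = Nat.card G := orderOf_eq_card_of_forall_mem_zpowers hσ
    have t3 : ∏ χ ∈ (Finset.univ : Finset (MulChar G ℂ)).erase 1,
        v (F χ 1 * (starRingEnd ℂ) (F χ 1) / (Ω * (starRingEnd ℂ) Ω)) = v 3 ^ (2 * n * k) := by
      have e1 : v 3 ^ (2 * n * k) = ∏ χ ∈ (Finset.univ : Finset (MulChar G ℂ)).erase 1,
          v (1 - χ σ) ^ (2 * k) := by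
        rw [Finset.prod_pow, ← map_prod, prod_roots hσo, hG]
        push_cast
        rw [map_pow, ← pow_mul]
        congr 1
        ring
      rw [e1]
      refine Finset.prod_congr rfl fun χ hχ => ?_
      have hχ1 := (Finset.mem_erase.1 hχ).1
      rw [hsplit, two_mul, pow_add]
      have b1 := v_a_eq (art := art) hP h9 hG (et_eta_unitQ D) hσ hk hω hl ha hs1 hs2 hsP hχ1 hC hv'
        (hFl χ L Ω hC.lat)
      have b2 := v_a_eq (art := art) hP h9 hG (et_eta_unitQ D) hσ hk hω hl ha hs1 hs2 hsP hχ1 hC hv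
        (hFl χ L Ω hC.lat)
      have hroot : χ σ ^ 3 ^ n = 1 := by rw [← map_pow, ← hG, pow_card_eq_one', map_one]
      have e3 : vc v (1 - χ σ) = v (1 - χ σ) := by
        rw [vc_apply, map_sub, map_one]
        exact v_conj_root hroot
      rw [b1, b2, e3]
    rw [h1, map_mul, map_prod v _ (Finset.univ : Finset (MulChar G ℂ)),
      hsub (fun v => (EV v 1)⁻¹), map_prod, ← Finset.mul_prod_erase _ _ (Finset.mem_univ 1),
      hsplit]
    have e2 : ∏ p ∈ P, v (EV (w p) 1)⁻¹ =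
        (∏ p ∈ P, v ((p : ℂ) - 1))⁻¹ * (∏ p ∈ P, v ((starRingEnd ℂ) (p : ℂ) - 1))⁻¹ := by
      rw [← Finset.prod_inv_distrib, ← Finset.prod_inv_distrib, ← Finset.prod_mul_distrib]
      refine Finset.prod_congr rfl fun p hp => ?_
      rw [map_inv₀, hEV p hp Γ v hv, mul_inv]
    rw [e2, ← t1, ← t2, v_27]
    have hl : v lam ≠ 0 := lam_ne
    have ha1 : v ((starRingEnd ℂ) (F 1 1) / Ω) ≠ 0 := by
      intro h0
      rw [h0, zero_mul] at t1
      exact Finset.prod_ne_zero_iff.2 (fun p hp => (Valuation.ne_zero_iff _).2 (hp1 p hp)) t1.symm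
    have ha2 : vc v ((starRingEnd ℂ) (F 1 1) / Ω) ≠ 0 := by
      intro h0
      rw [h0, zero_mul] at t2
      exact Finset.prod_ne_zero_iff.2 (fun p hp => (Valuation.ne_zero_iff _).2 (hpc1 p hp)) t2.symm
    refine Eq.trans ?_ t3
    field_simp
  have hrat : ∀ (L : PeriodPair) (Ω : ℂ), Cur L Ω →
      ∃ r : ℚ, Lf 1 / (Ω * (starRingEnd ℂ) Ω) ^ Nat.card G = r := by
    intro L Ω hC
    have h1 : Lf 1 / (Ω * (starRingEnd ℂ) Ω) ^ Nat.card G =
        (∏ P ∈ Sc D.c_ne, ∏ v : {v : HeightOneSpectrum (𝓞 K) // bel ι v = P}, (EV v.1 1)⁻¹) *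
        ∏ χ : MulChar G ℂ, (F χ 1 * (starRingEnd ℂ) (F χ 1) / (Ω * (starRingEnd ℂ) Ω)) := by
      rw [hLf, Finset.prod_div_distrib, Finset.prod_const, Finset.card_univ, hcard]
      simp only [map_one]
      rw [mul_div_assoc]
    have hodd : Odd (Nat.card G) := by
      rw [hG]
      exact Odd.pow (by decide)
    obtain ⟨r, hr⟩ := rat_prod D hodd hFl hC
    obtain ⟨t, ht⟩ : ∃ t : ℚ, ∏ P ∈ Sc D.c_ne,
        ∏ v : {v : HeightOneSpectrum (𝓞 K) // bel ι v = P}, (EV v.1 1)⁻¹ = t := by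
      refine rat_mul _ fun P _ => rat_mul _ fun w _ => ?_
      obtain ⟨x, hx⟩ := rat_EV (K := K) w.1
      exact ⟨x⁻¹, by rw [hx]; push_cast; rfl⟩
    exact ⟨t * r, by rw [h1, hr, ht]; push_cast; rfl⟩
  refine ⟨Lf, ?_, ?_, ?_, hval, hrat⟩
  · have h1 : MeromorphicOn (fun s => ∏ P ∈ Sc D.c_ne,
        ∏ v : {v : HeightOneSpectrum (𝓞 K) // bel ι v = P}, (EV v.1 s)⁻¹) Set.univ := by
      intro z _
      refine MeromorphicAt.fun_prod fun P _ => MeromorphicAt.fun_prod fun w _ => ?_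
      exact ((EV_diff w.1).analyticAt z).meromorphicAt.inv
    intro z hz
    exact (h1 z hz).mul ((hent.analyticAt z).meromorphicAt)
  · intro s hs
    refine ⟨(LSeries_hasProd' (E0 K) (hasseQ D hr3) hs).1, ?_⟩
    rw [LK_eqQ D hr3 hFs hs]
    rfl
  · have h1 : ∀ R ∈ Sc D.c_ne, ∀ u : {v : HeightOneSpectrum (𝓞 K) // bel ι v = R},
        EV u.1 1 ≠ 0 := by
      intro R hR u h0
      obtain ⟨V, hV⟩ := Pool.Agent.Y715.T.Fin.exists_over_three
      have hR' := (mem_Sc D.c_ne).1 hR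
      obtain ⟨p, hp, hpR⟩ : ∃ p ∈ P, p ∈ R.asIdeal := by
        have := R.isPrime
        exact (Ideal.IsPrime.prod_mem_iff.1 hR')
      have hRp : R.asIdeal = sp p := by
        have hmax : (sp p : Ideal eis).IsMaximal :=
          PrincipalIdealRing.isMaximal_of_irreducible (hP.prime p hp).irreducible
        exact (hmax.eq_of_le R.isPrime.ne_top ((Ideal.span_singleton_le_iff_mem _).2 hpR)).symm
      have h2 := v_EVp D hT hG (hP.prime p hp) (hP.one p hp) (w := u.1) (by rw [u.2, hRp])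
        (by rw [← mem_bel, u.2]; exact hR') (v := V.valuation) hV
      rw [h0, map_zero] at h2
      rcases mul_eq_zero.1 h2.symm with h3 | h3
      · exact hp1 p hp ((Valuation.zero_iff _).1 h3)
      · exact hpc1 p hp ((Valuation.zero_iff _).1 h3)
    refine AnalyticAt.mul ?_ (hent.analyticAt 1)
    refine Finset.analyticAt_fun_prod _ fun P hP => Finset.analyticAt_fun_prod _ fun w _ => ?_
    exact ((EV_diff w.1).analyticAt 1).inv (h1 P hP w)

end Pool.Agent.H62
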