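import Pool.Agent.H62.Rec5
import Pool.Agent.H62.Lt3
import Pool.Agent.H81.Tree

/-!
# The analytic theorem for extensions ramified at several primes, exact valuation
-/

set_option autoImplicit false
set_option linter.unusedSectionVars false

namespace Pool.Agent.H62

open NumberField IsDedekindDomain IsLocalRing Filter Topology Complex WithZero
open Pool.Agent.W192.HK Pool.Agent.TH936.CM Pool.Agent.TH936.PU
open Pool.Agent.Y696
open Pool.Agent.N883.Q Pool.Agent.N883.T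
open Pool.Agent.Y715.T.Three Pool.Agent.Y715.T.Lat
open Pool.Agent.Y715.T.LF (rd rd_ez rd_eq_zero)

/-- the valuation of a rational number -/
lemma v_rat {Γ : Type} [LinearOrderedCommGroupWithZero Γ] {v : Valuation ℂ Γ}
    (hv : v 3 < 1) {r : ℚ} (hr : r ≠ 0) : v (r : ℂ) = v 3 ^ padicValRat 3 r := by
  have : Fact (Nat.Prime 3) := ⟨Nat.prime_three⟩
  have h0 : v (3 : ℂ) ≠ 0 := (Valuation.ne_zero_iff _).2 (by norm_num)
  have key : ∀ t : ℚ, t ≠ 0 → v (t : ℂ) ≤ v 3 ^ padicValRat 3 t := by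
    intro t ht
    set m := padicValRat 3 t with hm
    by_contra hcon
    push Not at hcon
    -- `t 3 ^ (-m)` has the exponent zero
    obtain ⟨N, hN⟩ : ∃ N : ℕ, 0 ≤ m + N := ⟨m.natAbs, by omega⟩
    have h3 : (3 : ℚ) ≠ 0 := by norm_num
    have e0 : padicValRat 3 (3 : ℚ) = 1 := by
      have := padicValRat.self (p := 3) (by norm_num)
      exact_mod_cast this
    set s := t * 3 ^ (-m) with hs
    have hs0 : s ≠ 0 := mul_ne_zero ht (zpow_ne_zero _ h3)
    have h1 : padicValRat 3 s = 0 := by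
      rw [hs, padicValRat.mul ht (zpow_ne_zero _ h3), padicValRat.zpow, e0]
      omega
    have e1 : padicValInt 3 s.num = padicValNat 3 s.den := by
      have := h1
      unfold padicValRat at this
      omega
    have hnd : ¬ 3 ∣ s.den := by
      intro h6
      have h7 : padicValInt 3 s.num ≠ 0 := by
        have := one_le_padicValNat_of_dvd s.den_nz h6
        omega
      have h8 : (3 : ℤ) ∣ s.num := by
        by_contra h9
        exact h7 (padicValInt.eq_zero_of_not_dvd h9)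
      have h9 : 3 ∣ Nat.gcd s.num.natAbs s.den :=
        Nat.dvd_gcd (Int.natCast_dvd.1 (by exact_mod_cast h8)) h6
      rw [s.reduced] at h9
      omega
    have e2 : (s : ℂ) = (s.num : ℂ) / ((s.den : ℤ) : ℂ) := by
      have := congrArg (Rat.cast : ℚ → ℂ) (Rat.num_div_den s).symm
      push_cast at this ⊢
      exact this
    have h2 : v (s : ℂ) ≤ 1 := by
      rw [e2, map_div₀, v_int_one hv (s := (s.den : ℤ)) (by exact_mod_cast hnd), div_one]
      exact v_int _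
    have h3' : v (t : ℂ) = v (s : ℂ) * v 3 ^ m := by
      have e : (t : ℂ) = ((s : ℚ) : ℂ) * 3 ^ m := by
        rw [hs]
        push_cast
        rw [mul_assoc, ← zpow_add₀ (by norm_num : (3 : ℂ) ≠ 0), neg_add_cancel, zpow_zero, mul_one]
      rw [e, map_mul, map_zpow₀]
    rw [h3'] at hcon
    exact absurd (mul_le_mul' h2 (le_refl (v (3 : ℂ) ^ m))) (not_le.2 (by rwa [one_mul]))
  refine le_antisymm (key r hr) ?_
  have h1 := key r⁻¹ (inv_ne_zero hr)
  rw [padicValRat.inv] at h1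
  push_cast at h1
  rw [map_inv₀, zpow_neg] at h1
  have h2 : v (r : ℂ) ≠ 0 := (Valuation.ne_zero_iff _).2 (by exact_mod_cast hr)
  exact (inv_le_inv₀ (zero_lt_iff.2 h2) (zero_lt_iff.2 (zpow_ne_zero _ h0))).1 h1

lemma eq_padic {Γ : Type} [LinearOrderedCommGroupWithZero Γ] {v : Valuation ℂ Γ}
    (hv : v 3 < 1) {r : ℚ} {N : ℕ} (h : v (r : ℂ) = v 3 ^ N) :
    r ≠ 0 ∧ padicValRat 3 r = N := by
  have h0 : v (3 : ℂ) ≠ 0 := (Valuation.ne_zero_iff _).2 (by norm_num)
  have hr : r ≠ 0 := by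
    rintro rfl
    rw [Rat.cast_zero, map_zero] at h
    exact pow_ne_zero _ h0 h.symm
  refine ⟨hr, ?_⟩
  rw [v_rat hv hr, ← zpow_natCast] at h
  have h1 := (zpow_le_zpow_iff_right_of_lt_one₀ (zero_lt_iff.2 h0) hv).1 h.le
  have h2 := (zpow_le_zpow_iff_right_of_lt_one₀ (zero_lt_iff.2 h0) hv).1 h.ge
  omega

section

variable {F : Type} [Field F] [NumberField F] [IsCyclotomicExtension {3} ℚ F] {ζ : F}

/-- an element of index zero is a cube -/
lemma cube_of_idx (hζ : IsPrimitiveRoot ζ 3) {p x : 𝓞 F} (hp : Prime p) (h3 : ¬ p ∣ 3)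
    (hx : Idx hζ p x 0) : ∃ y : 𝓞 F, p ∣ x - y ^ 3 := by
  have := IsCyclotomicExtension.Rat.three_pid F
  have hmax : (Ideal.span {p} : Ideal (𝓞 F)).IsMaximal :=
    PrincipalIdealRing.isMaximal_of_irreducible hp.irreducible
  let _ : Field (𝓞 F ⧸ Ideal.span {p}) := Ideal.Quotient.field _
  have hfin : Finite (𝓞 F ⧸ Ideal.span {p}) :=
    Ideal.finiteQuotientOfFreeOfNeBot _ (by
      rw [Ne, Ideal.span_singleton_eq_bot]
      exact hp.ne_zero)
  obtain ⟨m, hm⟩ := three_dvd_Nm hζ hp h3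
  have hm' : (Nm p - 1) / 3 = m := by omega
  unfold Idx at hx
  rw [hm', pow_zero] at hx
  have hc : Nat.card (𝓞 F ⧸ Ideal.span {p})ˣ = 3 * m := by
    rw [Nat.card_units]
    exact hm
  have hx' : (Ideal.Quotient.mk (Ideal.span {p})) x ^ m = 1 := by
    rw [← map_pow, ← map_one (Ideal.Quotient.mk (Ideal.span {p})), Ideal.Quotient.eq,
      Ideal.mem_span_singleton]
    exact hx
  have hm0 : m ≠ 0 := by
    rintro rfl
    have : 0 < Nat.card (𝓞 F ⧸ Ideal.span {p})ˣ := Nat.card_pos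
    omega
  have hu : IsUnit ((Ideal.Quotient.mk (Ideal.span {p})) x) := by
    exact IsUnit.of_pow_eq_one hx' hm0
  obtain ⟨u, hu⟩ := hu
  obtain ⟨g, hg⟩ := IsCyclic.exists_generator (α := (𝓞 F ⧸ Ideal.span {p})ˣ)
  obtain ⟨j, hj⟩ := mem_powers_iff_mem_zpowers.2 (hg u)
  have hj' : g ^ j = u := hj
  have hu1 : u ^ m = 1 := by
    apply Units.ext
    rw [Units.val_pow_eq_pow_val, hu, hx', Units.val_one]
  have h5 : 3 ∣ j := by
    rw [← hj', ← pow_mul] at hu1
    have h6 := orderOf_dvd_of_pow_eq_one hu1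
    rw [orderOf_eq_card_of_forall_mem_zpowers hg, hc] at h6
    exact (Nat.mul_dvd_mul_iff_right (Nat.pos_of_ne_zero hm0)).1 h6
  obtain ⟨i, rfl⟩ := h5
  obtain ⟨y, hy⟩ := Ideal.Quotient.mk_surjective ((g ^ i : (𝓞 F ⧸ Ideal.span {p})ˣ) :
    𝓞 F ⧸ Ideal.span {p})
  refine ⟨y, ?_⟩
  rw [← Ideal.mem_span_singleton, ← Ideal.Quotient.eq, map_pow, hy, ← hu, ← hj',
    ← Units.val_pow_eq_pow_val, ← pow_mul, mul_comm]

/-- the root of unity is a power modulo the primes -/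
lemma om_power (hζ : IsPrimitiveRoot ζ 3) {p : 𝓞 F} (hp : Prime p) {n : ℕ}
    (hN : 3 ^ (n + 1) ∣ Nm p - 1) : ∃ y : 𝓞 F, p ∣ hζ.toInteger - y ^ 3 ^ n := by
  have := IsCyclotomicExtension.Rat.three_pid F
  have hmax : (Ideal.span {p} : Ideal (𝓞 F)).IsMaximal :=
    PrincipalIdealRing.isMaximal_of_irreducible hp.irreducible
  let _ : Field (𝓞 F ⧸ Ideal.span {p}) := Ideal.Quotient.field _
  have hfin : Finite (𝓞 F ⧸ Ideal.span {p}) :=
    Ideal.finiteQuotientOfFreeOfNeBot _ (by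
      rw [Ne, Ideal.span_singleton_eq_bot]
      exact hp.ne_zero)
  obtain ⟨m, hm⟩ := hN
  have hc : Nat.card (𝓞 F ⧸ Ideal.span {p})ˣ = 3 ^ (n + 1) * m := by
    rw [Nat.card_units]
    exact hm
  have hm0 : m ≠ 0 := by
    rintro rfl
    have : 0 < Nat.card (𝓞 F ⧸ Ideal.span {p})ˣ := Nat.card_pos
    omega
  obtain ⟨u, hu⟩ := (z_unit hζ).map (Ideal.Quotient.mk (Ideal.span {p}))
  obtain ⟨g, hg⟩ := IsCyclic.exists_generator (α := (𝓞 F ⧸ Ideal.span {p})ˣ)
  obtain ⟨j, hj⟩ := mem_powers_iff_mem_zpowers.2 (hg u)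
  have hj' : g ^ j = u := hj
  have hu1 : u ^ 3 = 1 := by
    apply Units.ext
    rw [Units.val_pow_eq_pow_val, hu, Units.val_one, ← map_pow, z_cube, map_one]
  have h5 : 3 ^ n ∣ j := by
    rw [← hj', ← pow_mul] at hu1
    have h6 := orderOf_dvd_of_pow_eq_one hu1
    rw [orderOf_eq_card_of_forall_mem_zpowers hg, hc] at h6
    have h7 : 3 ^ n * 3 ∣ j * 3 := by
      rw [← pow_succ]
      exact (dvd_mul_right _ _).trans h6
    exact (Nat.mul_dvd_mul_iff_right (by norm_num)).1 h7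
  obtain ⟨i, rfl⟩ := h5
  obtain ⟨y, hy⟩ := Ideal.Quotient.mk_surjective ((g ^ i : (𝓞 F ⧸ Ideal.span {p})ˣ) :
    𝓞 F ⧸ Ideal.span {p})
  refine ⟨y, ?_⟩
  rw [← Ideal.mem_span_singleton, ← Ideal.Quotient.eq, map_pow, hy, ← hu, ← hj',
    ← Units.val_pow_eq_pow_val, ← pow_mul, mul_comm]

/-- the remainders -/
lemma exists_a (hζ : IsPrimitiveRoot ζ 3) (q : 𝓞 F) :
    ∃ (a : ℤ) (t : 𝓞 F), q = a + (2 * hζ.toInteger + 1) * t := by
  obtain ⟨σ, hσ⟩ := exists_emb hζ
  set e := isoE hζ σ hσ with he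
  obtain ⟨t, ht⟩ := rd_eq_zero (r := e q - (((rd (e q)).val : ℤ) : eis)) (by
    rw [map_sub, map_intCast, Int.cast_natCast, ZMod.natCast_zmod_val, sub_self])
  refine ⟨((rd (e q)).val : ℤ), e.symm t, e.injective ?_⟩
  rw [map_add, map_mul, map_intCast, e.apply_symm_apply, isoE_la]
  linear_combination ht

/-- products of numbers near one -/
lemma prod_a (hζ : IsPrimitiveRoot ζ 3) {S : Finset (𝓞 F)} {e : 𝓞 F → ℕ} {a : 𝓞 F → ℤ}
    (ha : ∀ p ∈ S, ∃ t : 𝓞 F, p - 1 = 3 * (2 * hζ.toInteger + 1) *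
      (a p + (2 * hζ.toInteger + 1) * t)) :
    ∃ t : 𝓞 F, (∏ p ∈ S, p ^ e p) - 1 = 3 * (2 * hζ.toInteger + 1) *
      ((∑ p ∈ S, e p * a p : ℤ) + (2 * hζ.toInteger + 1) * t) := by
  classical
  set lam : 𝓞 F := 2 * hζ.toInteger + 1 with hlam
  have hmul : ∀ (x y : 𝓞 F) (A B : ℤ), (∃ t, x - 1 = 3 * lam * (A + lam * t)) →
      (∃ t, y - 1 = 3 * lam * (B + lam * t)) →
      ∃ t, x * y - 1 = 3 * lam * (((A + B : ℤ) : 𝓞 F) + lam * t) := by
    rintro x y A B ⟨t, ht⟩ ⟨t', ht'⟩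
    refine ⟨t + t' + 3 * (A + lam * t) * (B + lam * t'), ?_⟩
    have hx : x = 1 + 3 * lam * (A + lam * t) := by linear_combination ht
    have hy : y = 1 + 3 * lam * (B + lam * t') := by linear_combination ht'
    rw [hx, hy]
    push_cast
    ring
  have hpow : ∀ (x : 𝓞 F) (A : ℤ), (∃ t, x - 1 = 3 * lam * (A + lam * t)) → ∀ m : ℕ,
      ∃ t, x ^ m - 1 = 3 * lam * (((m * A : ℤ) : 𝓞 F) + lam * t) := by
    intro x A hx m
    induction m with
    | zero => exact ⟨0, by simp⟩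
    | succ m ih =>
      have := hmul _ _ _ _ ih hx
      rw [pow_succ]
      have e1 : ((m + 1 : ℕ) : ℤ) * A = m * A + A := by push_cast; ring
      rw [e1]
      exact this
  induction S using Finset.induction_on with
  | empty => exact ⟨0, by simp⟩
  | insert p S hp ih =>
    rw [Finset.prod_insert hp, Finset.sum_insert hp]
    exact hmul _ _ _ _ (hpow p (a p) (ha p (Finset.mem_insert_self p S)) (e p))
      (ih fun q hq => ha q (Finset.mem_insert_of_mem hq))

end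

end Pool.Agent.H62
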