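import Pool.Agent.H62.Lt4
import Pool.Agent.H62.Mul

/-!
# The sum of the remainders is not divisible by three
-/

set_option autoImplicit false
set_option linter.unusedSectionVars false

namespace Pool.Agent.H62

open NumberField IsDedekindDomain WithZero
open Pool.Agent.Y696 (val_aut val_eq_of und und_lies exists_above)
open Pool.Agent.Y688 (dn)

variable {F K : Type} [Field F] [NumberField F] [IsCyclotomicExtension {3} ℚ F] [Field K]
  [NumberField K] [Algebra F K] {ζ : F} [IsGalois F K]

/-- a product of powers of primes of `S` is not a cube -/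
lemma not_cube (hζ : IsPrimitiveRoot ζ 3) {S : Finset (𝓞 F)}
    (hS : ∀ p ∈ S, Prime p ∧ 3 * (2 * hζ.toInteger + 1) ∣ p - 1) {e : 𝓞 F → ℕ}
    {q : 𝓞 F} (hq : q ∈ S) (he : ¬ 3 ∣ e q) (f : F) :
    f ^ 3 ≠ ((∏ p ∈ S, p ^ e p : 𝓞 F) : F) := by
  classical
  intro hf
  have hqp := (hS q hq).1
  -- the valuation at `q`
  set P := hsp hqp with hP
  have hPi : P.asIdeal = Ideal.span {q} := rfl
  have hval : P.valuation F ((∏ p ∈ S, p ^ e p : 𝓞 F) : F) = exp (-(e q : ℤ)) := by
    have e1 : ((∏ p ∈ S, p ^ e p : 𝓞 F) : F) = ∏ p ∈ S, (p : F) ^ e p := by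
      show algebraMap (𝓞 F) F _ = _
      rw [map_prod]
      exact Finset.prod_congr rfl fun p _ => map_pow _ _ _
    have hqv : P.valuation F (q : F) = exp (-1 : ℤ) := by
      have e2 : (q : F) = algebraMap (𝓞 F) F q := rfl
      rw [e2, HeightOneSpectrum.valuation_of_algebraMap]
      exact HeightOneSpectrum.intValuation_singleton P hqp.ne_zero hPi
    rw [e1, map_prod, ← Finset.mul_prod_erase _ _ hq, map_pow, hqv]
    have e3 : ∏ p ∈ S.erase q, P.valuation F ((p : F) ^ e p) = 1 := by
      refine Finset.prod_eq_one fun p hp => ?_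
      obtain ⟨hpq, hpS⟩ := Finset.mem_erase.1 hp
      have e2 : (p : F) = algebraMap (𝓞 F) F p := rfl
      rw [map_pow, e2, HeightOneSpectrum.valuation_of_algebraMap,
        (HeightOneSpectrum.intValuation_eq_one_iff).2, one_pow]
      rw [hPi, Ideal.mem_span_singleton]
      intro hd
      exact hpq (cop_F hζ hqp (hS p hpS).1 ((dvd_mul_right _ _).trans (hS q hq).2)
        ((dvd_mul_right _ _).trans (hS p hpS).2) hd).symm
    rw [e3, mul_one, ← exp_nsmul]
    congr 1
    simp
  rw [← hf, map_pow] at hval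
  have hf0 : P.valuation F f ≠ 0 := by
    intro h0
    rw [h0, zero_pow three_ne_zero] at hval
    exact exp_ne_zero hval.symm
  obtain ⟨m, hm⟩ : ∃ m : ℤ, P.valuation F f = exp m := ⟨log (P.valuation F f), (exp_log hf0).symm⟩
  rw [hm, ← exp_nsmul] at hval
  have h1 := exp_injective hval
  simp only [nsmul_eq_mul, Nat.cast_ofNat] at h1
  omega

/-- **the sum of the remainders** -/
theorem sum_ne (hζ : IsPrimitiveRoot ζ 3) {S : Finset (𝓞 F)}
    (hS : ∀ p ∈ S, Prime p ∧ 3 * (2 * hζ.toInteger + 1) ∣ p - 1) (hne : S.Nonempty)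
    {e : 𝓞 F → ℕ} (he : ∀ p ∈ S, ¬ 3 ∣ e p) {a : 𝓞 F → ℤ}
    (ha : ∀ p ∈ S, ∃ t : 𝓞 F, p - 1 = 3 * (2 * hζ.toInteger + 1) *
      (a p + (2 * hζ.toInteger + 1) * t)) {β : K}
    (hβ : β ^ 3 = algebraMap F K ((∏ p ∈ S, p ^ e p : 𝓞 F) : F))
    (huniq : ∀ v w : HeightOneSpectrum (𝓞 K), (3 : 𝓞 K) ∈ v.asIdeal → (3 : 𝓞 K) ∈ w.asIdeal →
      v = w) : ¬ (3 : ℤ) ∣ ∑ p ∈ S, e p * a p := by
  rintro ⟨N, hN⟩
  obtain ⟨T, hT⟩ := prod_a (e := e) hζ ha
  rw [hN] at hT
  have hzz := zI hζ
  set z := hζ.toInteger with hz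
  set b : 𝓞 F := ∏ p ∈ S, p ^ e p with hb
  obtain ⟨w, hw⟩ := Pool.Agent.N883.T.exists_three K
  set W := w.valuation K with hW
  have hW3 : W 3 < 1 := by
    have := (mem_iff_val w (3 : 𝓞 K)).1 hw
    have e : (((3 : 𝓞 K)) : K) = 3 := map_ofNat (algebraMap (𝓞 K) K) 3
    rwa [e] at this
  have hint : ∀ x : 𝓞 F, W (algebraMap F K (x : F)) ≤ 1 := fun x =>
    w.valuation_le_one (algebraMap (𝓞 F) (𝓞 K) x)
  -- `λ`
  set lam : K := 2 * algebraMap F K ζ + 1 with hlamd
  have h1 : (algebraMap F K ζ) ^ 2 + algebraMap F K ζ + 1 = 0 := by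
    have := congrArg (fun x : 𝓞 F => algebraMap F K (x : F)) hzz
    simp only [map_add, map_pow, map_one, map_zero] at this
    exact this
  have hlam : lam ^ 2 = -3 := by rw [hlamd]; linear_combination 4 * h1
  have hlam0 : lam ≠ 0 := by
    intro h0
    rw [h0] at hlam
    norm_num at hlam
  have hWl : W lam < 1 := by
    by_contra hcon
    push Not at hcon
    have h2 : W (lam ^ 2) < 1 := by rw [hlam, Valuation.map_neg]; exact hW3
    rw [map_pow] at h2
    exact absurd h2 (not_lt.2 (one_le_pow₀ hcon))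
  have hbK : algebraMap F K (b : F) - 1 = 3 * lam * (lam * algebraMap F K ((T - (2 * z + 1) * (N : 𝓞 F) : 𝓞 F) : F)) := by
    have := congrArg (fun x : 𝓞 F => algebraMap F K (x : F)) hT
    simp only [map_sub, map_mul, map_one, map_add, map_ofNat, map_intCast] at this
    have e1 : (algebraMap F K ((T - (2 * z + 1) * (N : 𝓞 F) : 𝓞 F) : F)) =
        algebraMap F K (T : F) - lam * (N : K) := by
      show algebraMap F K (algebraMap (𝓞 F) F (T - (2 * z + 1) * (N : 𝓞 F))) = _
      simp only [map_sub, map_mul, map_one, map_add, map_ofNat, map_intCast]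
      rfl
    rw [e1]
    have e2 : algebraMap F K (b : F) - 1 = 3 * lam * (3 * (N : K) + lam * algebraMap F K (T : F)) := by
      have e3 : ((3 * N : ℤ) : K) = 3 * (N : K) := by push_cast; ring
      rw [← e3]
      exact this
    rw [e2]
    linear_combination (3 * lam * (N : K)) * hlam
  set q' : K := algebraMap F K ((T - (2 * z + 1) * (N : 𝓞 F) : 𝓞 F) : F) with hq'
  have hWq : W q' ≤ 1 := hint _
  -- the root
  have hWb : W (algebraMap F K (b : F)) = 1 := by
    have e1 : algebraMap F K (b : F) = 1 + (algebraMap F K (b : F) - 1) := by ring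
    rw [e1]
    refine Valuation.map_one_add_of_lt _ ?_
    rw [hbK, map_mul, map_mul, map_mul]
    calc W 3 * W lam * (W lam * W q') ≤ W 3 * 1 * (1 * 1) :=
          mul_le_mul' (mul_le_mul' le_rfl hWl.le) (mul_le_mul' hWl.le hWq)
      _ < 1 := by simpa using hW3
  have hWβ : W β = 1 := by
    have h3 : W β ^ 3 = 1 := by rw [← map_pow, hβ, hWb]
    exact (pow_eq_one_iff_of_nonneg zero_le three_ne_zero).1 h3
  have hβ0 : β ≠ 0 := by
    rintro rfl
    rw [map_zero] at hWβ
    exact zero_ne_one hWβ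
  set t : K := (β - 1) / lam with ht
  have hat : β = 1 + lam * t := by
    rw [ht]
    field_simp
    ring
  have htt : t ^ 3 - lam * t ^ 2 - t + lam * q' = 0 := by
    have h4 : (1 + lam * t) ^ 3 = algebraMap F K (b : F) := by rw [← hat, hβ]
    have h2 : (3 * lam) * (t ^ 3 - lam * t ^ 2 - t + lam * q') = 0 := by
      clear_value t lam q'
      linear_combination -h4 - hbK + (lam * t ^ 3) * hlam
    exact (mul_eq_zero.1 h2).resolve_left (mul_ne_zero (by norm_num) hlam0)
  have hWt : W t ≤ 1 := by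
    by_contra hcon
    push Not at hcon
    have e1 : t ^ 3 = lam * t ^ 2 + t - lam * q' := by linear_combination htt
    have h2 : W (t ^ 3) ≤ W t ^ 2 := by
      rw [e1]
      refine (Valuation.map_sub _ _ _).trans (max_le ((Valuation.map_add _ _ _).trans
        (max_le ?_ ?_)) ?_)
      · rw [map_mul, map_pow]
        exact mul_le_of_le_one_left' hWl.le
      · calc W t = W t * 1 := (mul_one _).symm
          _ ≤ W t * W t := mul_le_mul' le_rfl hcon.le
          _ = W t ^ 2 := (pow_two _).symm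
      · rw [map_mul]
        calc W lam * W q' ≤ 1 * 1 := mul_le_mul' hWl.le hWq
          _ ≤ W t ^ 2 := by rw [one_mul]; exact one_le_pow₀ hcon.le
    rw [map_pow] at h2
    have h3 : W t ^ 2 < W t ^ 3 := pow_lt_pow_right₀ hcon (by norm_num)
    exact absurd h2 (not_le.2 h3)
  have hprod : W (t * ((t - 1) * (t + 1))) < 1 := by
    have e1 : t * ((t - 1) * (t + 1)) = lam * (t ^ 2 - q') := by linear_combination htt
    rw [e1, map_mul]
    have h2 : W (t ^ 2 - q') ≤ 1 := (Valuation.map_sub _ _ _).trans (max_le (by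
      rw [map_pow]
      exact pow_le_one' hWt 2) hWq)
    exact (mul_le_mul' le_rfl h2).trans_lt (by rwa [mul_one])
  obtain ⟨c, hc⟩ : ∃ c : ℤ, W (t - c) < 1 := by
    by_contra hcon
    push Not at hcon
    have h2 := hcon 0
    have h3 := hcon 1
    have h4 := hcon (-1)
    push_cast at h2 h3 h4
    rw [sub_zero] at h2
    rw [sub_neg_eq_add] at h4
    rw [map_mul, map_mul] at hprod
    exact absurd hprod (not_lt.2 (one_le_mul h2 (one_le_mul h3 h4)))
  -- an automorphism
  obtain ⟨q, hq⟩ := hne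
  have hex : ∃ g : Gal(K/F), g β ≠ β := by
    by_contra hcon
    push Not at hcon
    obtain ⟨f, hf⟩ := (IsGalois.mem_range_algebraMap_iff_fixed (F := F) _).2 hcon
    refine not_cube hζ hS hq (he q hq) f ((algebraMap F K).injective ?_)
    rw [map_pow, hf, hβ]
  obtain ⟨g, hg⟩ := hex
  have hζK : IsPrimitiveRoot (algebraMap F K ζ) 3 := hζ.map_of_injective (algebraMap F K).injective
  obtain ⟨i, hi, hia⟩ := hζK.eq_pow_of_pow_eq_one (ξ := g β / β) (by
    have e1 : (g β) ^ 3 = β ^ 3 := by
      rw [← map_pow, hβ]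
      exact g.commutes _
    rw [div_pow, e1, div_self]
    exact pow_ne_zero _ hβ0)
  have hgβ : g β = (algebraMap F K ζ) ^ i * β := by
    rw [hia]
    field_simp
  have hi0 : i ≠ 0 := by
    rintro rfl
    rw [pow_zero, one_mul] at hgβ
    exact hg hgβ
  have hglam : g lam = lam := by
    have e : lam = algebraMap F K (2 * ζ + 1) := by
      rw [map_add, map_mul, map_one, map_ofNat]
    rw [e]
    exact g.commutes _
  have hgt : g t - t = (((algebraMap F K ζ) ^ i - 1) / lam) * β := by
    rw [ht, map_div₀, map_sub, map_one, hglam, hgβ]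
    field_simp
    ring
  have hinv : ∀ x : K, W (g x) = W x := fun x =>
    val_inv_uniq (g : K ≃+* K) (k := 3) (by exact_mod_cast hw) (fun v hv => huniq v w
      (by exact_mod_cast hv) hw) x
  have h5 : W (g t - t) < 1 := by
    have e1 : g t - t = g (t - c) - (t - c) := by
      rw [map_sub, map_intCast]
      ring
    rw [e1]
    refine (Valuation.map_sub _ _ _).trans_lt (max_lt ?_ hc)
    rw [hinv]
    exact hc
  have hWζ : W (algebraMap F K ζ) = 1 := by
    have h6 : W (algebraMap F K ζ) ^ 3 = 1 := by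
      rw [← map_pow, hζK.pow_eq_one, map_one]
    exact (pow_eq_one_iff_of_nonneg zero_le three_ne_zero).1 h6
  have h6 : W (((algebraMap F K ζ) ^ i - 1) / lam) = 1 := by
    interval_cases i
    · exact absurd rfl hi0
    · have e1 : ((algebraMap F K ζ) ^ 1 - 1) / lam = -(algebraMap F K ζ) ^ 2 := by
        rw [div_eq_iff hlam0, hlamd]
        linear_combination (2 * algebraMap F K ζ - 1) * h1
      rw [e1, Valuation.map_neg, map_pow, hWζ, one_pow]
    · have e1 : ((algebraMap F K ζ) ^ 2 - 1) / lam = algebraMap F K ζ := by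
        rw [div_eq_iff hlam0, hlamd]
        linear_combination (-1 : K) * h1
      rw [e1, hWζ]
  rw [hgt, map_mul, h6, hWβ, mul_one] at h5
  exact lt_irrefl _ h5

end Pool.Agent.H62
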