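import Mathlib
import Pool.Graph.R_seed8.R431.B.Om

/-!
# The complex period
-/

set_option autoImplicit false
set_option linter.unusedSectionVars false

namespace Pool.Agent.H62

open Pool.Agent.Y696 MeasureTheory
open Pool.Agent.R431.B.Per (cubic)
open scoped PeriodPair

/-- two pairs of generators of a lattice have the same area -/
lemma area_eq {a b c d : ℂ} {m₁ m₂ m₃ m₄ n₁ n₂ n₃ n₄ : ℤ} (h1 : c = m₁ * a + m₂ * b)
    (h2 : d = m₃ * a + m₄ * b) (h3 : a = n₁ * c + n₂ * d) (h4 : b = n₃ * c + n₄ * d)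
    (h0 : ((starRingEnd ℂ) a * b).im ≠ 0) :
    |((starRingEnd ℂ) a * b).im| = |((starRingEnd ℂ) c * d).im| := by
  have key : ∀ {a b c d : ℂ} {m₁ m₂ m₃ m₄ : ℤ}, c = m₁ * a + m₂ * b → d = m₃ * a + m₄ * b →
      ((starRingEnd ℂ) c * d).im = ((m₁ * m₄ - m₂ * m₃ : ℤ) : ℝ) * ((starRingEnd ℂ) a * b).im := by
    intro a b c d m₁ m₂ m₃ m₄ h1 h2
    rw [h1, h2]
    simp only [map_add, map_mul, map_intCast, Complex.mul_im, Complex.add_re, Complex.add_im,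
      Complex.mul_re, Complex.intCast_re, Complex.intCast_im, Complex.conj_re, Complex.conj_im]
    push_cast
    ring
  have e1 := key h1 h2
  have e2 := key h3 h4
  rw [e1] at e2
  have h5 : ((n₁ * n₄ - n₂ * n₃ : ℤ) : ℝ) * ((m₁ * m₄ - m₂ * m₃ : ℤ) : ℝ) = 1 := by
    apply mul_right_cancel₀ h0
    rw [one_mul, mul_assoc]
    exact e2.symm
  have h6 : (n₁ * n₄ - n₂ * n₃ : ℤ) * (m₁ * m₄ - m₂ * m₃ : ℤ) = 1 := by exact_mod_cast h5
  have h7 : |(m₁ * m₄ - m₂ * m₃ : ℤ)| = 1 := by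
    have h8 := congrArg abs h6
    rw [abs_mul, abs_one] at h8
    exact Int.eq_one_of_mul_eq_one_left (abs_nonneg _) h8
  rw [e1, abs_mul, ← Int.cast_abs, h7, Int.cast_one, one_mul]

/-- **the complex period** -/
theorem cper {L : PeriodPair} (hg2 : L.g₂ = 0) (hg3 : L.g₃ = -1) {Cp : ℝ}
    (hCp : Cp = 2 * (2 * ∫ x : ℂ, 1 / ‖cubic (E27 ℤ) x‖)) :
    Cp = 2 * |((starRingEnd ℂ) L.ω₁ * L.ω₂).im| ∧ 0 < Cp := by
  have hΔ : (E27 ℤ).Δ < 0 := by
    have : (E27 ℤ).Δ = -27 := by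
      simp [E27, WeierstrassCurve.Δ, WeierstrassCurve.b₂, WeierstrassCurve.b₄, WeierstrassCurve.b₆,
        WeierstrassCurve.b₈]
    rw [this]
    norm_num
  have hc4 : (E27 ℤ).c₄ = 0 := by
    simp [E27, WeierstrassCurve.c₄, WeierstrassCurve.b₂, WeierstrassCurve.b₄]
  have hc6 : (E27 ℤ).c₆ = -216 := by
    simp [E27, WeierstrassCurve.c₆, WeierstrassCurve.b₂, WeierstrassCurve.b₄, WeierstrassCurve.b₆]
  obtain ⟨Op, Om, hOp, hOm, hlat⟩ := Pool.Agent.Y255.LAT.lat L 0 (-1)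
    (by rw [hg2]; simp) (by rw [hg3]; simp) (by norm_num)
  have e1 : L.g₂ = ((E27 ℤ).c₄ : ℂ) / 12 := by rw [hg2, hc4]; simp
  have e2 : L.g₃ = ((E27 ℤ).c₆ : ℂ) / 216 := by rw [hg3, hc6]; push_cast; norm_num
  have i2 := Pool.Agent.R431.B.Per.s_perc (E27 ℤ) hΔ L Op Om hOp hOm e1 e2 hlat
  have hCpe : Cp = 4 * Op * Om := by rw [hCp, i2]; ring
  -- the generators
  set a : ℂ := Op + Om * Complex.I with ha
  set b : ℂ := Op - Om * Complex.I with hb
  have ham : a ∈ L.lattice := (hlat _).2 ⟨1, 1, by norm_num, by rw [ha]; push_cast; ring⟩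
  have hbm : b ∈ L.lattice := (hlat _).2 ⟨1, -1, by norm_num, by rw [hb]; push_cast; ring⟩
  have hrep : ∀ z ∈ L.lattice, ∃ m n : ℤ, z = m * a + n * b := by
    intro z hz
    obtain ⟨x, y, hxy, rfl⟩ := (hlat z).1 hz
    obtain ⟨k, hk⟩ := hxy
    refine ⟨x - k, k, ?_⟩
    have hy : (y : ℂ) = x - 2 * k := by
      have : y = x - 2 * k := by omega
      rw [this]
      push_cast
      ring
    rw [ha, hb, hy]
    push_cast
    ring
  obtain ⟨m₁, m₂, h1⟩ := hrep _ L.ω₁_mem_lattice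
  obtain ⟨m₃, m₄, h2⟩ := hrep _ L.ω₂_mem_lattice
  obtain ⟨n₁, n₂, h3⟩ := PeriodPair.mem_lattice.1 ham
  obtain ⟨n₃, n₄, h4⟩ := PeriodPair.mem_lattice.1 hbm
  have him : ((starRingEnd ℂ) a * b).im = -(2 * Op * Om) := by
    rw [ha, hb]
    simp
    ring
  have h5 := area_eq h1 h2 h3.symm h4.symm (by
    rw [him]
    have : 0 < 2 * Op * Om := by positivity
    linarith)
  rw [← h5, him, abs_neg, abs_of_pos (by positivity), hCpe]
  refine ⟨by ring, by positivity⟩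

end Pool.Agent.H62
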