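import Pool.Agent.H62.Cft4
import Pool.Graph.R_seed8.R430.Q13
import Pool.Graph.R_pool_sql_team_seeded_3997aac3.Q22.LK.Kum

/-!
# Cubic reciprocity from class field theory
-/

set_option autoImplicit false
set_option linter.unusedSectionVars false

namespace Pool.Agent.H62

open NumberField IsDedekindDomain
open Pool.Agent.Q7.LK (IsPow)

variable {F : Type} [Field F] [NumberField F] [IsCyclotomicExtension {3} ℚ F] {ζ : F}

/-- the norm of a prime -/
noncomputable def Nm (π : 𝓞 F) : ℕ := Nat.card (𝓞 F ⧸ Ideal.span {π})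

lemma zI (hζ : IsPrimitiveRoot ζ 3) : hζ.toInteger ^ 2 + hζ.toInteger + 1 = 0 := by
  have h := hζ.toInteger_isPrimitiveRoot
  have h3 : (hζ.toInteger - 1) * (hζ.toInteger ^ 2 + hζ.toInteger + 1) = 0 := by
    linear_combination h.pow_eq_one
  exact (mul_eq_zero.1 h3).resolve_left (sub_ne_zero.2 (h.ne_one (by norm_num)))

lemma z_cube (hζ : IsPrimitiveRoot ζ 3) : hζ.toInteger ^ 3 = 1 :=
  hζ.toInteger_isPrimitiveRoot.pow_eq_one

lemma z_unit (hζ : IsPrimitiveRoot ζ 3) : IsUnit hζ.toInteger :=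
  IsUnit.of_pow_eq_one (z_cube hζ) (by norm_num)

/-- the primes not dividing three -/
lemma z_ne (hζ : IsPrimitiveRoot ζ 3) {I : Ideal (𝓞 F)} (h3 : (3 : 𝓞 F) ∉ I) {i j : ℕ}
    (h : hζ.toInteger ^ i - hζ.toInteger ^ j ∈ I) : hζ.toInteger ^ i = hζ.toInteger ^ j := by
  have hz := zI hζ
  have hc := z_cube hζ
  have e : ∀ m : ℕ, hζ.toInteger ^ m = hζ.toInteger ^ (m % 3) := by
    intro m
    conv_lhs => rw [← Nat.div_add_mod m 3, pow_add, pow_mul, hc, one_pow, one_mul]
  rw [e i, e j] at h ⊢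
  have hi : i % 3 < 3 := Nat.mod_lt _ (by norm_num)
  have hj : j % 3 < 3 := Nat.mod_lt _ (by norm_num)
  set z := hζ.toInteger with hzd
  have k1 : z - 1 ∈ I → False := fun hh => h3 (by
    have : (3 : 𝓞 F) = (z - 1) * (-z - 2) := by linear_combination (1 : 𝓞 F) * hz
    rw [this]
    exact I.mul_mem_right _ hh)
  have k2 : z ^ 2 - 1 ∈ I → False := fun hh => k1 (by
    have : z - 1 = (z ^ 2 - 1) * (-z) := by linear_combination (z-1) * hz
    rw [this]
    exact I.mul_mem_right _ hh)
  interval_cases i % 3 <;> interval_cases j % 3 <;> simp only [pow_zero, pow_one] at h ⊢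
  · exact (k1 (by simpa using I.neg_mem h)).elim
  · exact (k2 (by simpa using I.neg_mem h)).elim
  · exact (k1 h).elim
  · exact (k1 (by
      have : z - 1 = (z - z ^ 2) * (-z ^ 2) := by linear_combination (-z^2 + 2*z - 1) * hz
      rw [this]
      exact I.mul_mem_right _ h)).elim
  · exact (k2 h).elim
  · exact (k1 (by
      have : z - 1 = (z ^ 2 - z) * (z ^ 2) := by linear_combination (-z^2 +2*z - 1) * hz
      rw [this]
      exact I.mul_mem_right _ h)).elim

/-- the norm of a prime not dividing three is one modulo three -/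
lemma three_dvd_Nm (hζ : IsPrimitiveRoot ζ 3) {π : 𝓞 F} (hπ : Prime π) (h3 : ¬ π ∣ 3) :
    3 ∣ Nm π - 1 := by
  have := IsCyclotomicExtension.Rat.three_pid F
  have hmax : (Ideal.span {π} : Ideal (𝓞 F)).IsMaximal :=
    PrincipalIdealRing.isMaximal_of_irreducible hπ.irreducible
  let _ : Field (𝓞 F ⧸ Ideal.span {π}) := Ideal.Quotient.field _
  have hfin : Finite (𝓞 F ⧸ Ideal.span {π}) :=
    Ideal.finiteQuotientOfFreeOfNeBot _ (by
      rw [Ne, Ideal.span_singleton_eq_bot]
      exact hπ.ne_zero)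
  obtain ⟨u, hu⟩ : ∃ u : (𝓞 F ⧸ Ideal.span {π})ˣ,
      (u : 𝓞 F ⧸ Ideal.span {π}) = Ideal.Quotient.mk _ hζ.toInteger := by
    have := (z_unit hζ).map (Ideal.Quotient.mk (Ideal.span {π}))
    exact ⟨this.unit, rfl⟩
  have h1 : u ^ 3 = 1 := by
    apply Units.ext
    rw [Units.val_pow_eq_pow_val, hu, ← map_pow, z_cube, map_one, Units.val_one]
  have h2 : u ≠ 1 := by
    rintro rfl
    have h4 : hζ.toInteger ^ 1 - hζ.toInteger ^ 0 ∈ (Ideal.span {π} : Ideal (𝓞 F)) := by
      rw [← Ideal.Quotient.eq, pow_one, pow_zero, ← hu, map_one, Units.val_one]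
    have h5 := z_ne hζ (fun h => h3 (Ideal.mem_span_singleton.1 h)) h4
    rw [pow_one, pow_zero] at h5
    exact hζ.toInteger_isPrimitiveRoot.ne_one (by norm_num) h5
  have h3' : orderOf u = 3 := by
    have : Fact (Nat.Prime 3) := ⟨Nat.prime_three⟩
    exact orderOf_eq_prime h1 h2
  have h4 : Nm π - 1 = Nat.card (𝓞 F ⧸ Ideal.span {π})ˣ := (Nat.card_units _).symm
  rw [h4, ← h3']
  exact orderOf_dvd_natCard u

lemma fermat {π x : 𝓞 F} (hπ : Prime π) (hx : ¬ π ∣ x) : π ∣ x ^ (Nm π - 1) - 1 := by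
  have := IsCyclotomicExtension.Rat.three_pid F
  have hmax : (Ideal.span {π} : Ideal (𝓞 F)).IsMaximal :=
    PrincipalIdealRing.isMaximal_of_irreducible hπ.irreducible
  let _ : Field (𝓞 F ⧸ Ideal.span {π}) := Ideal.Quotient.field _
  have hfin : Finite (𝓞 F ⧸ Ideal.span {π}) :=
    Ideal.finiteQuotientOfFreeOfNeBot _ (by
      rw [Ne, Ideal.span_singleton_eq_bot]
      exact hπ.ne_zero)
  have : Fintype (𝓞 F ⧸ Ideal.span {π}) := Fintype.ofFinite _
  rw [← Ideal.mem_span_singleton, ← Ideal.Quotient.eq, map_pow, map_one]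
  have h1 : (Ideal.Quotient.mk (Ideal.span {π})) x ≠ 0 := by
    rw [Ne, Ideal.Quotient.eq_zero_iff_mem, Ideal.mem_span_singleton]
    exact hx
  have h2 := FiniteField.pow_card_sub_one_eq_one _ h1
  unfold Nm
  rwa [Nat.card_eq_fintype_card]

section kum

variable {L : Type} [Field L] [NumberField L] [Algebra F L]

/-- the extension is unramified -/
theorem kum_unr (hζ : IsPrimitiveRoot ζ 3) {α q : 𝓞 F}
    (hq : α - 1 = 3 * (2 * hζ.toInteger + 1) * q) (hfr : Module.finrank F L = 3) {a : L}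
    (ha : a ^ 3 = algebraMap F L (α : F)) (hn : ¬ IsPow 3 (α : F))
    (w : HeightOneSpectrum (𝓞 L)) (hw : algebraMap (𝓞 F) (𝓞 L) α ∉ w.asIdeal) :
    Algebra.IsUnramifiedAt (𝓞 F) w.asIdeal := by
  have hgal := Pool.Agent.Q22.LK.galois Nat.prime_three hζ hfr ha hn
  refine Pool.Agent.R430.unram_at fun σ hσ => ?_
  by_contra hσ1
  have hα0 : (α : F) ≠ 0 := fun h0 => hn ⟨0, by rw [h0]; norm_num⟩
  have ha0 : a ≠ 0 := by
    rintro rfl
    rw [zero_pow three_ne_zero] at ha
    exact hα0 ((map_eq_zero (algebraMap F L)).1 ha.symm)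
  have hζL : IsPrimitiveRoot (algebraMap F L ζ) 3 := hζ.map_of_injective (algebraMap F L).injective
  -- the action on the root
  obtain ⟨i, hi, hia⟩ := hζL.eq_pow_of_pow_eq_one (ξ := σ a / a) (by
    have e1 : (σ a) ^ 3 = a ^ 3 := by
      rw [← map_pow, ha]
      exact σ.commutes _
    rw [div_pow, e1, div_self]
    exact pow_ne_zero _ ha0)
  have hσa : σ a = (algebraMap F L ζ) ^ i * a := by
    rw [hia]
    field_simp
  have hi0 : i ≠ 0 := by
    rintro rfl
    rw [pow_zero, one_mul] at hσa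
    have hall : ∀ g : Gal(L/F), g a = a := by
      intro g
      obtain ⟨m, rfl⟩ := Pool.Agent.Q22.LK.gen Nat.prime_three hζ hfr ha hn hσ1 g
      have hmem : σ ∈ MulAction.stabilizer Gal(L/F) a := hσa
      exact Subgroup.zpow_mem _ hmem m
    obtain ⟨f, hf⟩ := (IsGalois.mem_range_algebraMap_iff_fixed (F := F) _).2 hall
    apply hn
    refine ⟨f, ?_⟩
    apply (algebraMap F L).injective
    rw [map_pow, hf]
    exact ha.symm
  -- integral elements
  have hint : IsIntegral ℤ a := by
    apply IsIntegral.of_pow (n := 3) (by norm_num)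
    rw [ha]
    exact (RingOfIntegers.isIntegral_coe α).algebraMap
  set z := hζ.toInteger with hz
  have hzz := zI hζ
  rw [← hz] at hzz
  set aO : 𝓞 L := ⟨a, hint⟩ with haO
  have haO3 : aO ^ 3 = algebraMap (𝓞 F) (𝓞 L) α := by
    apply RingOfIntegers.ext
    show (aO : L) ^ 3 = _
    exact ha
  have haw : aO ∉ w.asIdeal := fun h => hw (by
    rw [← haO3]
    exact Ideal.pow_mem_of_mem _ h 3 (by norm_num))
  have hcast : ∀ x : 𝓞 F, ((algebraMap (𝓞 F) (𝓞 L) x : 𝓞 L) : L) = algebraMap F L (x : F) := fun x => rfl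
  by_cases h3 : (3 : 𝓞 L) ∈ w.asIdeal
  · -- above three
    have hlam : (2 * algebraMap F L ζ + 1) ^ 2 = -3 := by
      have h1 : (algebraMap F L ζ) ^ 2 + algebraMap F L ζ + 1 = 0 := by
        have := congrArg (fun x : 𝓞 F => algebraMap F L (x : F)) hzz
        simp only [map_add, map_pow, map_one, map_zero] at this
        exact this
      linear_combination 4 * h1
    set lam := 2 * algebraMap F L ζ + 1 with hlamd
    have hlam0 : lam ≠ 0 := by
      intro h0
      rw [h0] at hlam
      norm_num at hlam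
    set t : L := (a - 1) / lam with ht
    have hat : a = 1 + lam * t := by
      rw [ht]
      field_simp
      ring
    have hqL : algebraMap F L (α : F) - 1 = 3 * lam * algebraMap F L (q : F) := by
      have := congrArg (fun x : 𝓞 F => algebraMap F L (x : F)) hq
      simp only [map_sub, map_mul, map_one, map_add, map_ofNat] at this
      exact this
    have htt : t ^ 3 - lam * t ^ 2 - t + algebraMap F L (q : F) = 0 := by
      have h1 : (1 + lam * t) ^ 3 = algebraMap F L (α : F) := by rw [← hat, ha]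
      have h2 : (3 * lam) * (t ^ 3 - lam * t ^ 2 - t + algebraMap F L (q : F)) = 0 := by
        clear_value t lam
        linear_combination -h1 - hqL + (lam * t ^ 3) * hlam
      exact (mul_eq_zero.1 h2).resolve_left (mul_ne_zero (by norm_num) hlam0)
    have htint : IsIntegral (𝓞 F) t := by
      refine ⟨Polynomial.X ^ 3 - Polynomial.C (2 * z + 1) * Polynomial.X ^ 2 - Polynomial.X +
        Polynomial.C q, ?_, ?_⟩
      · have : (Polynomial.X ^ 3 - Polynomial.C (2 * z + 1) * Polynomial.X ^ 2 - Polynomial.X +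
            Polynomial.C q : Polynomial (𝓞 F)) = Polynomial.X ^ 3 +
            (-(Polynomial.C (2 * z + 1) * Polynomial.X ^ 2) - Polynomial.X + Polynomial.C q) := by ring
        rw [this]
        refine Polynomial.monic_X_pow_add ?_
        compute_degree!
      · simp only [Polynomial.eval₂_add, Polynomial.eval₂_sub, Polynomial.eval₂_mul,
          Polynomial.eval₂_pow, Polynomial.eval₂_X, Polynomial.eval₂_C]
        have e : (algebraMap (𝓞 F) L) (2 * z + 1) = lam := by
          rw [map_add, map_mul, map_one, map_ofNat]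
          rfl
        rw [e]
        exact htt
    have htZ : IsIntegral ℤ t := isIntegral_trans t htint
    set tO : 𝓞 L := ⟨t, htZ⟩ with htO
    have h5 := hσ tO
    have h1 : (algebraMap F L ζ) ^ 2 + algebraMap F L ζ + 1 = 0 := by
      have := congrArg (fun x : 𝓞 F => algebraMap F L (x : F)) hzz
      simp only [map_add, map_pow, map_one, map_zero] at this
      exact this
    have hσlam : σ lam = lam := by
      have e : lam = algebraMap F L (2 * ζ + 1) := by
        rw [map_add, map_mul, map_one, map_ofNat]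
      rw [e]
      exact σ.commutes _
    have hσt : σ t - t = (((algebraMap F L ζ) ^ i - 1) / lam) * a := by
      rw [ht, map_div₀, map_sub, map_one, hσlam, hσa]
      field_simp
      ring
    -- the unit
    obtain ⟨e, he, heu⟩ : ∃ e : 𝓞 L, ((algebraMap F L ζ) ^ i - 1) / lam = (e : L) ∧ IsUnit e := by
      have hzu : IsUnit (algebraMap (𝓞 F) (𝓞 L) z) := (z_unit hζ).map _
      have hzL : ((algebraMap (𝓞 F) (𝓞 L) z : 𝓞 L) : L) = algebraMap F L ζ := rfl
      interval_cases i
      · exact absurd rfl hi0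
      · refine ⟨-(algebraMap (𝓞 F) (𝓞 L) z) ^ 2, ?_, (hzu.pow 2).neg⟩
        have e1 : ((-(algebraMap (𝓞 F) (𝓞 L) z) ^ 2 : 𝓞 L) : L) = -(algebraMap F L ζ) ^ 2 := by
          rw [← hzL]
          rfl
        rw [e1, div_eq_iff hlam0, hlamd]
        linear_combination (2 * algebraMap F L ζ - 1) * h1
      · refine ⟨algebraMap (𝓞 F) (𝓞 L) z, ?_, hzu⟩
        rw [hzL, div_eq_iff hlam0, hlamd]
        linear_combination (-1 : L) * h1
    have h6 : (σ • tO - tO : 𝓞 L) = e * aO := by
      apply RingOfIntegers.ext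
      show σ t - t = (e : L) * a
      rw [hσt, he]
    rw [h6] at h5
    rcases w.isPrime.mem_or_mem h5 with h7 | h7
    · exact w.isPrime.ne_top (Ideal.eq_top_of_isUnit_mem _ h7 heu)
    · exact haw h7
  · have h5 := hσ aO
    have h6 : (σ • aO - aO : 𝓞 L) = algebraMap (𝓞 F) (𝓞 L) (z ^ i - z ^ 0) * aO := by
      apply RingOfIntegers.ext
      show σ a - a = algebraMap F L ((z ^ i - z ^ 0 : 𝓞 F) : F) * a
      have e : ((z ^ i - z ^ 0 : 𝓞 F) : F) = ζ ^ i - 1 := by
        show algebraMap (𝓞 F) F (z ^ i - z ^ 0) = _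
        rw [pow_zero, map_sub, map_pow, map_one]
        rfl
      rw [e, map_sub, map_pow, map_one, hσa]
      ring
    rw [h6] at h5
    rcases w.isPrime.mem_or_mem h5 with h7 | h7
    · have h8 : z ^ i - z ^ 0 ∈ w.asIdeal.under (𝓞 F) := h7
      have h9 : (3 : 𝓞 F) ∉ w.asIdeal.under (𝓞 F) := fun h => h3 (by
        have : algebraMap (𝓞 F) (𝓞 L) 3 ∈ w.asIdeal := h
        rwa [map_ofNat] at this)
      have h10 := z_ne hζ h9 h8
      rw [pow_zero] at h10
      have h11 := hζ.toInteger_isPrimitiveRoot.pow_eq_one_iff_dvd i |>.1 h10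
      have := Nat.le_of_dvd (Nat.pos_of_ne_zero hi0) h11
      omega
    · exact haw h7

end kum

end Pool.Agent.H62
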