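import Pool.Agent.H62.Rec
import Pool.Agent.H62.SelU

/-!
# Cubic reciprocity from class field theory, II
-/

set_option autoImplicit false
set_option linter.unusedSectionVars false

namespace Pool.Agent.H62

open NumberField IsDedekindDomain
open Pool.Agent.Q7.LK (IsPow)
open Pool.Agent.Y696 (exists_above)

variable {F : Type} [Field F] [NumberField F] [IsCyclotomicExtension {3} ℚ F] {ζ : F}

/-- the cubic residue index -/
lemma exists_idx (hζ : IsPrimitiveRoot ζ 3) {π x : 𝓞 F} (hπ : Prime π) (h3 : ¬ π ∣ 3)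
    (hx : ¬ π ∣ x) : ∃ j : ℕ, j < 3 ∧ π ∣ x ^ ((Nm π - 1) / 3) - hζ.toInteger ^ j := by
  obtain ⟨m, hm⟩ := three_dvd_Nm hζ hπ h3
  have hm' : (Nm π - 1) / 3 = m := by omega
  rw [hm']
  have h1 := fermat hπ hx
  rw [hm, mul_comm, pow_mul] at h1
  have hz := zI hζ
  set z := hζ.toInteger with hzd
  have h2 : (x ^ m) ^ 3 - 1 = (x ^ m - z ^ 0) * ((x ^ m - z ^ 1) * (x ^ m - z ^ 2)) := by
    linear_combination ((x ^ m) ^ 2 - z * (x ^ m) + (z - 1)) * hz
  rw [h2] at h1
  rcases hπ.dvd_or_dvd h1 with h | h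
  · exact ⟨0, by norm_num, h⟩
  · rcases hπ.dvd_or_dvd h with h | h
    · exact ⟨1, by norm_num, h⟩
    · exact ⟨2, by norm_num, h⟩

/-- the character of the Kummer extension -/
theorem chi_of (hζ : IsPrimitiveRoot ζ 3) {α q : 𝓞 F} (hα0 : α ≠ 0)
    (hq : α - 1 = 3 * (2 * hζ.toInteger + 1) * q) {L : Type} [Field L] [NumberField L] [Algebra F L]
    (hfr : Module.finrank F L = 3) {a : L} (ha : a ^ 3 = algebraMap F L (α : F))
    (hn : ¬ IsPow 3 (α : F)) : ∃ X : (𝓞 F ⧸ Ideal.span {α})ˣ →* 𝓞 F,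
      (∀ u, ∃ i : ℕ, X u = hζ.toInteger ^ i) ∧ ∀ π : 𝓞 F, Prime π → ∀ u : (𝓞 F ⧸ Ideal.span {α})ˣ,
        (u : 𝓞 F ⧸ Ideal.span {α}) = Ideal.Quotient.mk _ π → ¬ π ∣ 3 →
          π ∣ α ^ ((Nm π - 1) / 3) - X u := by
  have hgal := Pool.Agent.Q22.LK.galois Nat.prime_three hζ hfr ha hn
  have hcyc := Pool.Agent.Q22.LK.cyc Nat.prime_three hζ hfr ha hn
  obtain ⟨art, hA⟩ := Cft.art_of_cyclic (K := L) (n := 1) (by rw [hfr]; norm_num) hα0
    ⟨(2 * hζ.toInteger + 1) * q, by rw [hq]; ring⟩ (fun w hw => kum_unr hζ hq hfr ha hn w hw)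
  have hαF : (α : F) ≠ 0 := fun h0 => hn ⟨0, by rw [h0]; norm_num⟩
  have ha0 : a ≠ 0 := by
    rintro rfl
    rw [zero_pow three_ne_zero] at ha
    exact hαF ((map_eq_zero (algebraMap F L)).1 ha.symm)
  have hζL : IsPrimitiveRoot (algebraMap F L ζ) 3 := hζ.map_of_injective (algebraMap F L).injective
  have hex : ∀ g : Gal(L/F), ∃ i : ℕ, g a = (algebraMap F L ζ) ^ i * a := by
    intro g
    obtain ⟨i, hi, hia⟩ := hζL.eq_pow_of_pow_eq_one (ξ := g a / a) (by
      have e1 : (g a) ^ 3 = a ^ 3 := by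
        rw [← map_pow, ha]
        exact g.commutes _
      rw [div_pow, e1, div_self]
      exact pow_ne_zero _ ha0)
    refine ⟨i, ?_⟩
    rw [hia]
    field_simp
  choose i hi using hex
  set z := hζ.toInteger with hz
  have hzF : ∀ j : ℕ, algebraMap F L ((z ^ j : 𝓞 F) : F) = (algebraMap F L ζ) ^ j := by
    intro j
    rw [← map_pow]
    congr 1
  have hinj : ∀ x y : 𝓞 F, algebraMap F L (x : F) * a = algebraMap F L (y : F) * a → x = y := by
    intro x y h
    exact RingOfIntegers.ext ((algebraMap F L).injective (mul_right_cancel₀ ha0 h))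
  have hzi : ∀ g, algebraMap F L ((z ^ i g : 𝓞 F) : F) * a = g a := fun g => by rw [hzF, hi]
  let X : (𝓞 F ⧸ Ideal.span {α})ˣ →* 𝓞 F :=
    { toFun := fun u => z ^ i (art u)
      map_one' := by
        apply hinj
        rw [hzi, map_one]
        show a = algebraMap F L (algebraMap (𝓞 F) F 1) * a
        rw [map_one, map_one, one_mul]
      map_mul' := fun u v => by
        apply hinj
        rw [hzi, map_mul]
        show (art u) ((art v) a) = algebraMap F L (algebraMap (𝓞 F) F (z ^ i (art u) * z ^ i (art v))) * a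
        rw [← hzi (art v), map_mul, map_mul, map_mul]
        have h1 : (art u) (algebraMap F L ((z ^ i (art v) : 𝓞 F) : F)) =
          algebraMap F L ((z ^ i (art v) : 𝓞 F) : F) := (art u).commutes _
        rw [h1, ← hzi (art u)]
        show _ = algebraMap F L ((z ^ i (art u) : 𝓞 F) : F) * algebraMap F L ((z ^ i (art v) : 𝓞 F) : F) * a
        ring }
  have hXd : ∀ u, X u = z ^ i (art u) := fun u => rfl
  refine ⟨X, fun u => ⟨i (art u), rfl⟩, fun π hπ u hu h3 => ?_⟩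
  have hpid := IsCyclotomicExtension.Rat.three_pid F
  obtain ⟨P, hPlo⟩ := exists_above (K := L) (hsp hπ)
  have hPu : ∀ x : 𝓞 F, algebraMap (𝓞 F) (𝓞 L) x ∈ P.asIdeal → π ∣ x := by
    intro x hx
    have h1 : x ∈ P.asIdeal.under (𝓞 F) := hx
    rw [← hPlo.over] at h1
    exact Ideal.mem_span_singleton.1 h1
  have hP : algebraMap (𝓞 F) (𝓞 L) π ∈ P.asIdeal := by
    have h1 : π ∈ P.asIdeal.under (𝓞 F) := by
      rw [← hPlo.over]
      exact Ideal.mem_span_singleton_self π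
    exact h1
  have hint : IsIntegral ℤ a := by
    apply IsIntegral.of_pow (n := 3) (by norm_num)
    rw [ha]
    exact (RingOfIntegers.isIntegral_coe α).algebraMap
  set aO : 𝓞 L := ⟨a, hint⟩ with haO
  have haO3 : aO ^ 3 = algebraMap (𝓞 F) (𝓞 L) α := by
    apply RingOfIntegers.ext
    show (aO : L) ^ 3 = _
    exact ha
  have h := hA.frob π hπ u hu P hP aO
  obtain ⟨m, hm⟩ := three_dvd_Nm hζ hπ h3
  have hpos : 1 ≤ Nm π := by
    have hfin : Finite (𝓞 F ⧸ Ideal.span {π}) :=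
      Ideal.finiteQuotientOfFreeOfNeBot _ (by
        rw [Ne, Ideal.span_singleton_eq_bot]
        exact hπ.ne_zero)
    exact Nat.card_pos
  have hN : Nat.card (𝓞 F ⧸ Ideal.span {π}) = 3 * m + 1 := by
    show Nm π = _
    omega
  have hm' : (Nm π - 1) / 3 = m := by omega
  have h6 : (art u • aO - aO ^ Nat.card (𝓞 F ⧸ Ideal.span {π}) : 𝓞 L) =
      algebraMap (𝓞 F) (𝓞 L) (X u - α ^ m) * aO := by
    have e1 : art u • aO = algebraMap (𝓞 F) (𝓞 L) (X u) * aO := by
      apply RingOfIntegers.ext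
      show (art u) a = algebraMap F L ((X u : 𝓞 F) : F) * a
      rw [hXd, hzi]
    rw [hN, pow_succ, pow_mul, haO3, e1, ← map_pow, map_sub]
    ring
  rw [h6] at h
  have hαu : ¬ π ∣ α := by
    intro hd
    have h7 : (Ideal.Quotient.mk (Ideal.span {α})) π * ((u⁻¹ : (𝓞 F ⧸ Ideal.span {α})ˣ) :
        𝓞 F ⧸ Ideal.span {α}) = 1 := by
      rw [← hu]
      exact Units.mul_inv u
    obtain ⟨y, hy⟩ := Ideal.Quotient.mk_surjective ((u⁻¹ : (𝓞 F ⧸ Ideal.span {α})ˣ) :
        𝓞 F ⧸ Ideal.span {α})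
    rw [← hy, ← map_mul, ← map_one (Ideal.Quotient.mk (Ideal.span {α})), Ideal.Quotient.eq,
      Ideal.mem_span_singleton] at h7
    have h8 : π ∣ 1 := by
      have h9 := (dvd_mul_right π y).sub (hd.trans h7)
      rwa [sub_sub_cancel] at h9
    exact hπ.not_isUnit (isUnit_of_dvd_one h8)
  rcases P.isPrime.mem_or_mem h with h7 | h7
  · rw [hm']
    exact (dvd_sub_comm).1 (hPu _ h7)
  · exfalso
    apply hαu
    apply hPu
    rw [← haO3]
    exact Ideal.pow_mem_of_mem _ h7 3 (by norm_num)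

theorem exists_chi (hζ : IsPrimitiveRoot ζ 3) {α q : 𝓞 F} (hα0 : α ≠ 0)
    (hq : α - 1 = 3 * (2 * hζ.toInteger + 1) * q) : ∃ X : (𝓞 F ⧸ Ideal.span {α})ˣ →* 𝓞 F,
      (∀ u, ∃ i : ℕ, X u = hζ.toInteger ^ i) ∧ ∀ π : 𝓞 F, Prime π → ∀ u : (𝓞 F ⧸ Ideal.span {α})ˣ,
        (u : 𝓞 F ⧸ Ideal.span {α}) = Ideal.Quotient.mk _ π → ¬ π ∣ 3 →
          π ∣ α ^ ((Nm π - 1) / 3) - X u := by
  by_cases hn : IsPow 3 (α : F)
  · obtain ⟨g, hg⟩ := hn
    have hint : IsIntegral ℤ g := by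
      apply IsIntegral.of_pow (n := 3) (by norm_num)
      rw [← hg]
      exact RingOfIntegers.isIntegral_coe α
    set γ : 𝓞 F := ⟨g, hint⟩ with hγ
    have hγ3 : α = γ ^ 3 := by
      apply RingOfIntegers.ext
      rw [hg]
      rfl
    refine ⟨1, fun u => ⟨0, by rw [pow_zero]; rfl⟩, fun π hπ u hu h3 => ?_⟩
    have hαu : ¬ π ∣ γ := by
      intro hd
      have hd' : π ∣ α := by rw [hγ3]; exact dvd_pow hd (by norm_num)
      have h7 : (Ideal.Quotient.mk (Ideal.span {α})) π * ((u⁻¹ : (𝓞 F ⧸ Ideal.span {α})ˣ) :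
          𝓞 F ⧸ Ideal.span {α}) = 1 := by
        rw [← hu]
        exact Units.mul_inv u
      obtain ⟨y, hy⟩ := Ideal.Quotient.mk_surjective ((u⁻¹ : (𝓞 F ⧸ Ideal.span {α})ˣ) :
          𝓞 F ⧸ Ideal.span {α})
      rw [← hy, ← map_mul, ← map_one (Ideal.Quotient.mk (Ideal.span {α})), Ideal.Quotient.eq,
        Ideal.mem_span_singleton] at h7
      have h8 : π ∣ 1 := by
        have h9 := (dvd_mul_right π y).sub (hd'.trans h7)
        rwa [sub_sub_cancel] at h9
      exact hπ.not_isUnit (isUnit_of_dvd_one h8)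
    obtain ⟨m, hm⟩ := three_dvd_Nm hζ hπ h3
    have hm' : (Nm π - 1) / 3 = m := by omega
    have h1 := fermat hπ hαu
    rw [hm, pow_mul, ← hγ3] at h1
    rw [hm']
    exact h1
  · have hirr := Pool.Agent.Q22.LK.irr (d := (α : F)) Nat.prime_three hn
    have : Fact (Irreducible (Polynomial.X ^ 3 - Polynomial.C (α : F) : Polynomial F)) := ⟨hirr⟩
    let L := AdjoinRoot (Polynomial.X ^ 3 - Polynomial.C (α : F) : Polynomial F)
    have hfin : Module.Finite F L := (AdjoinRoot.powerBasis hirr.ne_zero).finite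
    have hnf : NumberField L := NumberField.of_module_finite F L
    have hfr : Module.finrank F L = 3 := by
      rw [(AdjoinRoot.powerBasis hirr.ne_zero).finrank, AdjoinRoot.powerBasis_dim]
      exact Polynomial.natDegree_X_pow_sub_C
    refine chi_of hζ hα0 hq hfr (a := AdjoinRoot.root _) ?_ hn
    have h1 := AdjoinRoot.eval₂_root (Polynomial.X ^ 3 - Polynomial.C (α : F) : Polynomial F)
    rw [Polynomial.eval₂_sub, Polynomial.eval₂_pow, Polynomial.eval₂_X, Polynomial.eval₂_C,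
      sub_eq_zero] at h1
    exact h1

end Pool.Agent.H62
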