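import Pool.Agent.H62.Rec3
import Pool.Agent.H62.Fin5
import Pool.Agent.H62.Lt2

/-!
# The Artin map and the cubic residue indices
-/

set_option autoImplicit false
set_option linter.unusedSectionVars false

namespace Pool.Agent.H62

open NumberField IsDedekindDomain
open Pool.Agent.W192.HK Pool.Agent.TH936.CM Pool.Agent.TH936.PU
open Pool.Agent.Y696
open Pool.Agent.N883.Q Pool.Agent.N883.T
open Pool.Agent.Y715.T.Three Pool.Agent.Y715.T.Lat

variable {F : Type} [Field F] [NumberField F] [IsCyclotomicExtension {3} ℚ F] {ζ : F}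

lemma isoE_la (hζ : IsPrimitiveRoot ζ 3) {σ : F →+* ℂ} (hσ : σ ζ = om) :
    isoE hζ σ hσ (2 * hζ.toInteger + 1) = la := by
  apply Subtype.ext
  rw [isoE_coe, la_coe]
  have e : ((2 * hζ.toInteger + 1 : 𝓞 F) : F) = 2 * ζ + 1 := by
    show algebraMap (𝓞 F) F _ = _
    rw [map_add, map_mul, map_one, map_ofNat]
    rfl
  rw [e, map_add, map_mul, map_one, map_ofNat, hσ]
  apply Complex.ext
  · simp [lam, om]
    norm_num
  · simp [lam, om]
    ring

lemma isoE_nine (hζ : IsPrimitiveRoot ζ 3) {σ : F →+* ℂ} (hσ : σ ζ = om) {p : 𝓞 F}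
    (h : 3 * (2 * hζ.toInteger + 1) ∣ p - 1) : 3 * la ∣ isoE hζ σ hσ p - 1 := by
  have h1 := map_dvd (isoE hζ σ hσ) h
  rwa [map_mul, isoE_la, map_sub, map_one, map_ofNat] at h1

lemma Nm_isoE (hζ : IsPrimitiveRoot ζ 3) {σ : F →+* ℂ} (hσ : σ ζ = om) (p : 𝓞 F) :
    Nm p = Nat.card (eis ⧸ (sp (isoE hζ σ hσ p) : Ideal eis)) :=
  (Nat.card_congr (qe (isoE hζ σ hσ) p).toEquiv).symm

lemma nine_Nm (hζ : IsPrimitiveRoot ζ 3) {p : 𝓞 F}
    (h : 3 * (2 * hζ.toInteger + 1) ∣ p - 1) : 9 ∣ Nm p - 1 := by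
  obtain ⟨σ, hσ⟩ := exists_emb hζ
  obtain ⟨t, ht⟩ := isoE_nine hζ hσ h
  obtain ⟨m, hm⟩ := card_nine t
  have ht' : 1 + 3 * la * t = isoE hζ σ hσ p := by rw [← ht]; ring
  rw [ht', ← Nm_isoE hζ hσ] at hm
  omega

/-- the index of a unit -/
lemma idx_unit (hζ : IsPrimitiveRoot ζ 3) {p w : 𝓞 F} (hp : Prime p)
    (h : 3 * (2 * hζ.toInteger + 1) ∣ p - 1) (hw : IsUnit w) :
    p ∣ w ^ ((Nm p - 1) / 3) - hζ.toInteger ^ 0 := by
  obtain ⟨m, hm⟩ := nine_Nm hζ h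
  have hm' : (Nm p - 1) / 3 = 3 * m := by omega
  have hw6 : w ^ 6 = 1 := by
    obtain ⟨u, rfl⟩ := hw
    have h6 := IsCyclotomicExtension.Rat.Three.Units.mem hζ u
    have h3 := z_cube hζ
    have hη : (((IsPrimitiveRoot.isUnit (hζ.toInteger_isPrimitiveRoot) (by decide)).unit :
      (𝓞 F)ˣ) : 𝓞 F) = hζ.toInteger := rfl
    simp only [List.mem_cons, List.not_mem_nil, or_false] at h6
    rcases h6 with rfl | rfl | rfl | rfl | rfl | rfl
    · simp
    · rw [Units.val_neg, Units.val_one]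
      norm_num
    · rw [hη]
      calc hζ.toInteger ^ 6 = (hζ.toInteger ^ 3) ^ 2 := by ring
        _ = 1 := by rw [h3, one_pow]
    · rw [Units.val_neg, hη]
      calc (-hζ.toInteger) ^ 6 = (hζ.toInteger ^ 3) ^ 2 := by ring
        _ = 1 := by rw [h3, one_pow]
    · rw [Units.val_pow_eq_pow_val, hη]
      calc (hζ.toInteger ^ 2) ^ 6 = (hζ.toInteger ^ 3) ^ 4 := by ring
        _ = 1 := by rw [h3, one_pow]
    · rw [Units.val_neg, Units.val_pow_eq_pow_val, hη]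
      calc (-hζ.toInteger ^ 2) ^ 6 = (hζ.toInteger ^ 3) ^ 4 := by ring
        _ = 1 := by rw [h3, one_pow]
  -- `w ^ 3` is `1` or `-1`
  have hpw : ¬ p ∣ w ^ 3 := fun hd => hp.not_isUnit (isUnit_of_dvd_unit hd (hw.pow 3))
  have hf := fermat hp (x := w ^ 3) hpw
  rw [hm'] at *
  have e1 : w ^ (3 * m) = (w ^ 3) ^ m := pow_mul _ _ _
  have e2 : (w ^ 3) ^ (Nm p - 1) = (w ^ 3) ^ m := by
    rw [hm]
    have h7 : (w ^ 3) ^ 2 = 1 := by rw [← pow_mul]; exact hw6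
    have : 9 * m = 2 * (4 * m) + m := by ring
    rw [this, pow_add, pow_mul, h7, one_pow, one_mul]
  rw [e1, pow_zero, ← e2]
  exact hf

variable {K : Type} [Field K] [NumberField K] [Algebra F K] [IsGalois F K]

/-- the Artin map is trivial at the units -/
lemma art_unitF (hζ : IsPrimitiveRoot ζ 3) {c : 𝓞 F} {art : (𝓞 F ⧸ Ideal.span {c})ˣ →* Gal(K/F)}
    (hA : Art c art) (hc0 : c ≠ 0) (h3 : 3 ∣ c - 1) {w : 𝓞 F} (hw : IsUnit w)
    {u : (𝓞 F ⧸ Ideal.span {c})ˣ} (hu : (u : 𝓞 F ⧸ Ideal.span {c}) = Ideal.Quotient.mk _ w) :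
    art u = 1 := by
  obtain ⟨σ, hσ⟩ := exists_emb hζ
  let := commG hA
  have hc3 : IsCoprime c 3 := by
    obtain ⟨q, hq⟩ := h3
    exact ⟨1, -q, by linear_combination hq⟩
  have D := mkDatQ hA (isoE hζ σ hσ) hc0 hc3
  set e := isoE hζ σ hσ with he
  set u' : (eis ⧸ (sp (e c) : Ideal eis))ˣ :=
    Units.map ((qe e c).symm : _ →* _) u with hu'
  have h1 := art_unitQ D (hw.map e) (u := u') (by
    rw [hu', Units.coe_map]
    change (qe e c).symm (u : _) = _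
    rw [hu, RingEquiv.symm_apply_eq, qe_mk, e.symm_apply_apply])
  have h2 : (Units.map ((qe e c : _ →* _) : (eis ⧸ (sp (e c) : Ideal eis)) →* _)) u' = u := by
    apply Units.ext
    rw [hu', Units.coe_map, Units.coe_map]
    exact (qe e c).apply_symm_apply _
  rw [MonoidHom.comp_apply, h2] at h1
  exact h1

end Pool.Agent.H62
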